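import Pool.Agent.V1193.FinSec

set_option autoImplicit false
open MeasureTheory Filter Topology Complex
open scoped Real ComplexConjugate ENNReal

namespace Pool.Agent.V1193

noncomputable section

lemma gen_exists (f : AddCircle (1 : ℝ) → ℂ) (hf : Measurable f) (hb : ∀ t, ‖f t‖ ≤ 1) :
    ∃ a : Lp ℂ ⊤ (volume : Measure (AddCircle (1 : ℝ))), ∀ m : ℤ,
      fourierCoeff (⇑a : AddCircle (1 : ℝ) → ℂ) m = fourierCoeff f m := by
  have hm : MemLp f ⊤ (volume : Measure (AddCircle (1 : ℝ))) :=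
    memLp_top_of_bound hf.aestronglyMeasurable 1 (ae_of_all _ hb)
  refine ⟨hm.toLp f, fun m => ?_⟩
  have h := hm.coeFn_toLp
  have e : (volume : Measure (AddCircle (1 : ℝ))) = AddCircle.haarAddCircle := by
    rw [AddCircle.volume_eq_smul_haarAddCircle, ENNReal.ofReal_one, one_smul]
  have h2 : (⇑(hm.toLp f) : AddCircle (1 : ℝ) → ℂ) =ᵐ[AddCircle.haarAddCircle] f := by
    rw [← e]; exact h
  rw [fourierCoeff_congr_ae h2]

lemma coeff_one (m : ℤ) : fourierCoeff (fun _ : AddCircle (1 : ℝ) => (1 : ℂ)) m = if m = 0 then 1 else 0 := by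
  have h := congrFun (fourierCoeff_fourier (T := (1 : ℝ)) 0) m
  have e : (⇑(fourier (T := (1 : ℝ)) 0) : AddCircle (1 : ℝ) → ℂ) = fun _ => (1 : ℂ) := by
    ext t; simp
  rw [e] at h
  rw [h]
  by_cases hm : m = 0
  · subst hm; simp
  · rw [if_neg hm, Pi.single_eq_of_ne hm]

lemma coeff_conj (m : ℤ) : fourierCoeff (fun t : AddCircle (1 : ℝ) => conj (aF t)) m = cf (-m) := by
  rw [← cf_real]
  unfold cf fourierCoeff
  rw [← integral_conj]
  congr 1
  ext t
  simp only [smul_eq_mul, map_mul]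
  congr 1
  rw [← fourier_neg, neg_neg (-m)]

/-- The set of generators. -/
def GenSet : Set (ℕ → (H2 →L[ℂ] H2)) :=
  {G : ℕ → (lp (fun _ : ℕ => ℂ) 2 →L[ℂ] lp (fun _ : ℕ => ℂ) 2) |
              ∃ a : Lp ℂ ⊤ (volume : Measure (AddCircle (1 : ℝ))),
              ∃ T : lp (fun _ : ℕ => ℂ) 2 →L[ℂ] lp (fun _ : ℕ => ℂ) 2,
                (∀ j k : ℕ, (T (lp.single 2 k (1 : ℂ) : lp (fun _ : ℕ => ℂ) 2)) j
                    = fourierCoeff (⇑a : AddCircle (1 : ℝ) → ℂ) ((j : ℤ) - (k : ℤ))) ∧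
                ∀ n, G n = PP n * T * PP n}

lemma g0 : (fun n => PP n * 1 * PP n) ∈ GenSet := by
  obtain ⟨a, ha⟩ := gen_exists (fun _ => 1) measurable_const (by simp)
  refine ⟨a, 1, fun j k => ?_, fun n => rfl⟩
  rw [ha, coeff_one]
  have h := ee_apply k j
  simp only [one_apply_eq_self]
  rw [show (lp.single 2 k (1 : ℂ) : lp (fun _ : ℕ => ℂ) 2) = ee k from rfl, h]
  congr 1
  rw [sub_eq_zero]
  simp

lemma g1 : (fun n => PP n * Tt * PP n) ∈ GenSet := by
  obtain ⟨a, ha⟩ := gen_exists aF aF_meas (fun t => (norm_aF t).le)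
  refine ⟨a, Tt, fun j k => ?_, fun n => rfl⟩
  rw [ha, Tt_entry]
  rfl

lemma g2 : (fun n => PP n * Ts * PP n) ∈ GenSet := by
  obtain ⟨a, ha⟩ := gen_exists (fun t => conj (aF t)) (Complex.continuous_conj.measurable.comp aF_meas)
    (fun t => by rw [RCLike.norm_conj]; exact (norm_aF t).le)
  refine ⟨a, Ts, fun j k => ?_, fun n => rfl⟩
  rw [ha, coeff_conj]
  unfold Ts
  rw [Tt_adj_entry]
  congr 1
  ring

lemma ZZ_mem : ZZ ∈ NonUnitalAlgebra.adjoin ℂ GenSet := by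
  have h0 := NonUnitalAlgebra.subset_adjoin ℂ g0
  have h1 := NonUnitalAlgebra.subset_adjoin ℂ g1
  have h2 := NonUnitalAlgebra.subset_adjoin ℂ g2
  have hA : AA ∈ NonUnitalAlgebra.adjoin ℂ GenSet := by
    have : AA = (fun n => PP n * 1 * PP n) - (fun n => PP n * Tt * PP n) * (fun n => PP n * Ts * PP n) := rfl
    rw [this]
    exact sub_mem h0 (mul_mem h1 h2)
  have hB : BB ∈ NonUnitalAlgebra.adjoin ℂ GenSet := by
    have : BB = (fun n => PP n * 1 * PP n) - (fun n => PP n * Ts * PP n) * (fun n => PP n * Tt * PP n) := rfl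
    rw [this]
    exact sub_mem h0 (mul_mem h2 h1)
  have : ZZ = AA * BB := rfl
  rw [this]
  exact mul_mem hA hB

end

end Pool.Agent.V1193
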