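import Mathlib

/-!
# Atomic block Hardy spaces of martingales: definitions

The index `k = 0, 1, 2, ...` stands for the index `k + 1` of the problem, so that `ℱ 0` is `Σ₁`.
-/

set_option autoImplicit false
open MeasureTheory Filter Topology
open scoped ENNReal

namespace Pool.Agent.V1193.Blocks

variable {Ω : Type} {m0 : MeasurableSpace Ω}

/-- Martingale differences: `dd 0 = E₀ f`, `dd (k + 1) = E_{k+1} f - E_k f`. -/
noncomputable def dd (μ : Measure Ω) (ℱ : Filtration ℕ m0) (f : Ω → ℂ) : ℕ → Ω → ℂ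
  | 0 => μ[f | ℱ 0]
  | k + 1 => μ[f | ℱ (k + 1)] - μ[f | ℱ k]

/-- The quasi-norm of the martingale Hardy space: the `L_p` quasi-norm of the square function. -/
noncomputable def hpNorm (p : ℝ) (μ : Measure Ω) (ℱ : Filtration ℕ m0) (f : Ω → ℂ) : ℝ≥0∞ :=
  (∫⁻ ω, (∑' k, ‖dd μ ℱ f k ω‖ₑ ^ 2) ^ (p / 2) ∂μ) ^ (1 / p)

/-- The `L_p` quasi-norm. -/
noncomputable def lpN (p : ℝ) (μ : Measure Ω) (f : Ω → ℂ) : ℝ≥0∞ := eLpNorm f (ENNReal.ofReal p) μ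

/-- `f = ∑ i, g i` with convergence of the series in `L_p`. -/
def LpSum (p : ℝ) (μ : Measure Ω) (f : Ω → ℂ) (g : ℕ → Ω → ℂ) : Prop :=
  Tendsto (fun n => lpN p μ (fun ω => f ω - ∑ i ∈ Finset.range n, g i ω)) atTop (𝓝 0)

/-- `a` is a subatom with parameters `k ≤ κ` and the set `A ∈ ℱ κ`: it is supported in `A` and
`‖a‖_q ≤ μ(A) ^ (1 - 1/p - 1/q') / (κ - k + 1)`, where `1/q' = 1 - 1/q`. -/
def IsSubatom (p q : ℝ) (μ : Measure Ω) (ℱ : Filtration ℕ m0) (k κ : ℕ) (A : Set Ω) (a : Ω → ℂ) : Prop :=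
  k ≤ κ ∧ MeasurableSet[ℱ κ] A ∧ AEStronglyMeasurable a μ ∧ (∀ᵐ ω ∂μ, ω ∉ A → a ω = 0) ∧
    lpN q μ a ≤ μ A ^ (1 - 1 / p - (1 - 1 / q)) / ((κ - k + 1 : ℕ) : ℝ≥0∞)

/-- A representation of `b` as an atomic block: `E_k b = 0` and `b = ∑ j, lam j * a j` with convergence in
`L_p`, where the `a j` are subatoms. -/
def IsBlockRep (p q : ℝ) (μ : Measure Ω) (ℱ : Filtration ℕ m0) (b : Ω → ℂ) (k : ℕ)
    (lam : ℕ → ℂ) (a : ℕ → Ω → ℂ) (κ : ℕ → ℕ) (A : ℕ → Set Ω) : Prop :=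
  μ[b | ℱ k] =ᵐ[μ] 0 ∧ (∀ j, IsSubatom p q μ ℱ k (κ j) (A j) (a j)) ∧
    LpSum p μ b (fun j ω => lam j * a j ω)

/-- `b` is a `(p, q)`-atomic block. -/
def IsBlock (p q : ℝ) (μ : Measure Ω) (ℱ : Filtration ℕ m0) (b : Ω → ℂ) : Prop :=
  Integrable b μ ∧ (AEStronglyMeasurable[ℱ 0] b μ ∨
    ∃ (k : ℕ) (lam : ℕ → ℂ) (a : ℕ → Ω → ℂ) (κ : ℕ → ℕ) (A : ℕ → Set Ω), IsBlockRep p q μ ℱ b k lam a κ A)

open Classical in
/-- The size of an atomic block: `‖b‖_p` if `b` is `Σ₁`-measurable, otherwise the infimum of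
`∑ j, |lam j|` over all representations. -/
noncomputable def blockSize (p q : ℝ) (μ : Measure Ω) (ℱ : Filtration ℕ m0) (b : Ω → ℂ) : ℝ≥0∞ :=
  if AEStronglyMeasurable[ℱ 0] b μ then lpN p μ b else
    ⨅ (k : ℕ) (lam : ℕ → ℂ) (a : ℕ → Ω → ℂ) (κ : ℕ → ℕ) (A : ℕ → Set Ω)
      (_ : IsBlockRep p q μ ℱ b k lam a κ A), ∑' j, ‖lam j‖ₑ

/-- The atomic quasi-norm: the infimum of `(∑ i, |b i| ^ p) ^ (1 / p)` over all representations
`f = ∑ i, b i` by atomic blocks, with convergence in `L_p`. -/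
noncomputable def atbNorm (p q : ℝ) (μ : Measure Ω) (ℱ : Filtration ℕ m0) (f : Ω → ℂ) : ℝ≥0∞ :=
  ⨅ (b : ℕ → Ω → ℂ) (_ : ∀ i, IsBlock p q μ ℱ (b i)) (_ : LpSum p μ f b),
    (∑' i, blockSize p q μ ℱ (b i) ^ p) ^ (1 / p)

/-- The quantity in the definition of the Lipschitz norm for `k` and `A`. -/
noncomputable def lamTerm (p q : ℝ) (μ : Measure Ω) (ℱ : Filtration ℕ m0) (g : Ω → ℂ) (k : ℕ) (A : Set Ω) : ℝ≥0∞ :=
  μ A ^ (1 - 1 / p) *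
    (((μ A)⁻¹ * ∫⁻ ω in A, ‖g ω - (μ[g | ℱ k]) ω‖ₑ ^ q ∂μ) ^ (1 / q) + eLpNorm (dd μ ℱ g k) ⊤ μ)

/-- The Lipschitz norm, a supremum over all `k` and all `A ∈ Σ_k` of positive measure. -/
noncomputable def lamNorm (p q : ℝ) (μ : Measure Ω) (ℱ : Filtration ℕ m0) (g : Ω → ℂ) : ℝ≥0∞ :=
  ⨆ (k : ℕ) (A : Set Ω) (_ : MeasurableSet[ℱ k] A) (_ : μ A ≠ 0), lamTerm p q μ ℱ g k A

/-- The smaller quantity in which the supremum norm of `dg_k` is taken over `A` only. -/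
noncomputable def lamTermLoc (p q : ℝ) (μ : Measure Ω) (ℱ : Filtration ℕ m0) (g : Ω → ℂ) (k : ℕ) (A : Set Ω) : ℝ≥0∞ :=
  μ A ^ (1 - 1 / p) *
    (((μ A)⁻¹ * ∫⁻ ω in A, ‖g ω - (μ[g | ℱ k]) ω‖ₑ ^ q ∂μ) ^ (1 / q) + eLpNorm (dd μ ℱ g k) ⊤ (μ.restrict A))

/-- The localized, smaller Lipschitz norm. -/
noncomputable def lamNormLoc (p q : ℝ) (μ : Measure Ω) (ℱ : Filtration ℕ m0) (g : Ω → ℂ) : ℝ≥0∞ :=
  ⨆ (k : ℕ) (A : Set Ω) (_ : MeasurableSet[ℱ k] A) (_ : μ A ≠ 0), lamTermLoc p q μ ℱ g k A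

lemma lamNormLoc_le (p q : ℝ) (μ : Measure Ω) (ℱ : Filtration ℕ m0) (g : Ω → ℂ) :
    lamNormLoc p q μ ℱ g ≤ lamNorm p q μ ℱ g := by
  unfold lamNormLoc lamNorm
  refine iSup_mono fun k => iSup_mono fun A => iSup_mono fun _ => iSup_mono fun _ => ?_
  unfold lamTermLoc lamTerm
  gcongr
  exact Measure.restrict_le_self

/-- A function measurable for the σ-algebra generated by `g` is constant on the fibres of `g`. -/
lemma const_fiber {β : Type} {mβ : MeasurableSpace β} {g : Ω → β} {F : Ω → ℂ}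
    (hF : Measurable[MeasurableSpace.comap g mβ] F) {x y : Ω} (h : g x = g y) : F x = F y := by
  obtain ⟨t, _, ht⟩ := hF (measurableSet_singleton (F x))
  have hx : x ∈ g ⁻¹' t := by rw [ht]; rfl
  have hy : y ∈ g ⁻¹' t := by
    show g y ∈ t
    rw [← h]; exact hx
  rw [ht] at hy
  exact hy.symm

end Pool.Agent.V1193.Blocks
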