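import Pool.Agent.V1193.Blocks

set_option autoImplicit false
open MeasureTheory Filter Topology
open scoped ENNReal

namespace Pool.Agent.V1193.Blocks

/-- weights -/
noncomputable def wgt (z : Bool × ℕ) : ℝ≥0∞ := 2⁻¹ ^ (z.2 + 2)

/-- the measure -/
noncomputable def mu1 : Measure (Bool × ℕ) := Measure.sum fun z => wgt z • Measure.dirac z

lemma mu1_apply (s : Set (Bool × ℕ)) : mu1 s = ∑' z, wgt z * s.indicator 1 z := by
  unfold mu1
  rw [Measure.sum_apply _ (MeasurableSet.of_discrete)]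
  apply tsum_congr
  intro z
  rw [Measure.smul_apply, Measure.dirac_apply, smul_eq_mul]

lemma mu1_singleton (z : Bool × ℕ) : mu1 {z} = wgt z := by
  rw [mu1_apply, tsum_eq_single z]
  · simp
  · intro y hy
    rw [Set.indicator_of_notMem (by simpa using hy), mul_zero]

lemma tsum_wgt : ∑' n : ℕ, (2⁻¹ : ℝ≥0∞) ^ (n + 2) = 2⁻¹ := by
  have h : ∀ n : ℕ, (2⁻¹ : ℝ≥0∞) ^ (n + 2) = 2⁻¹ ^ n * 2⁻¹ ^ 2 := fun n => pow_add _ _ _
  rw [tsum_congr h, ENNReal.tsum_mul_right, ENNReal.tsum_geometric]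
  have : (1 : ℝ≥0∞) - 2⁻¹ = 2⁻¹ := ENNReal.one_sub_inv_two
  rw [this, inv_inv, pow_two, ← mul_assoc, ENNReal.mul_inv_cancel two_ne_zero ENNReal.ofNat_ne_top, one_mul]

lemma mu1_fiber (b : Bool) : mu1 (Prod.fst ⁻¹' {b}) = 2⁻¹ := by
  rw [mu1_apply, ENNReal.tsum_prod', tsum_bool]
  cases b
  · have h1 : ∀ n : ℕ, wgt (false, n) * (Prod.fst ⁻¹' {false} : Set (Bool × ℕ)).indicator 1 (false, n) = 2⁻¹ ^ (n + 2) := by
      intro n; rw [Set.indicator_of_mem (by simp)]; simp [wgt]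
    have h2 : ∀ n : ℕ, wgt (true, n) * (Prod.fst ⁻¹' {false} : Set (Bool × ℕ)).indicator 1 (true, n) = 0 := by
      intro n; rw [Set.indicator_of_notMem (by simp), mul_zero]
    simp_rw [h1, h2]
    simp [tsum_wgt]
  · have h1 : ∀ n : ℕ, wgt (true, n) * (Prod.fst ⁻¹' {true} : Set (Bool × ℕ)).indicator 1 (true, n) = 2⁻¹ ^ (n + 2) := by
      intro n; rw [Set.indicator_of_mem (by simp)]; simp [wgt]
    have h2 : ∀ n : ℕ, wgt (false, n) * (Prod.fst ⁻¹' {true} : Set (Bool × ℕ)).indicator 1 (false, n) = 0 := by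
      intro n; rw [Set.indicator_of_notMem (by simp), mul_zero]
    simp_rw [h1, h2]
    simp [tsum_wgt]

instance mu1_prob : IsProbabilityMeasure mu1 := by
  constructor
  have h : (Set.univ : Set (Bool × ℕ)) = Prod.fst ⁻¹' {false} ∪ Prod.fst ⁻¹' {true} := by
    ext ⟨b, n⟩; cases b <;> simp
  rw [h, measure_union _ MeasurableSet.of_discrete, mu1_fiber, mu1_fiber, ENNReal.inv_two_add_inv_two]
  rw [Set.disjoint_left]
  rintro ⟨b, n⟩ h1 h2
  simp at h1 h2
  rw [h1] at h2
  exact absurd h2 (by simp)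

/-- the filtration -/
def fil1 : Filtration ℕ (inferInstance : MeasurableSpace (Bool × ℕ)) where
  seq k := if k = 0 then ⊥ else if k = 1 then MeasurableSpace.comap Prod.fst ⊤ else inferInstance
  mono' := by
    intro i j hij
    simp only
    split_ifs with h1 h2 h3 h4 h5 h6 h7 <;> first | omega | exact bot_le | exact le_rfl | exact measurable_fst.comap_le
  le' := by
    intro i
    split_ifs
    · exact bot_le
    · exact measurable_fst.comap_le
    · exact le_rfl

lemma fil1_zero : fil1 0 = (⊥ : MeasurableSpace (Bool × ℕ)) := rfl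
lemma fil1_one : fil1 1 = MeasurableSpace.comap Prod.fst ⊤ := rfl
lemma fil1_two : fil1 2 = (inferInstance : MeasurableSpace (Bool × ℕ)) := rfl

lemma fil1_gen : ⨆ k, fil1 k = (inferInstance : MeasurableSpace (Bool × ℕ)) := by
  apply le_antisymm
  · exact iSup_le fun k => fil1.le k
  · exact le_iSup (fun k => fil1 k) 2

/-- the test functions -/
noncomputable def ff (c : ℝ) (n : ℕ) (z : Bool × ℕ) : ℂ :=
  ({(false, n)} : Set (Bool × ℕ)).indicator (fun _ => (c : ℂ)) z - ({(true, n)} : Set (Bool × ℕ)).indicator (fun _ => (c : ℂ)) z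

lemma ff_int (c : ℝ) (n : ℕ) : Integrable (ff c n) mu1 := by
  unfold ff
  apply Integrable.sub
  · exact (integrable_const _).indicator MeasurableSet.of_discrete
  · exact (integrable_const _).indicator MeasurableSet.of_discrete

lemma ff_top (c : ℝ) (n : ℕ) : MemLp (ff c n) ⊤ mu1 := by
  apply memLp_top_of_bound (C := |c| + |c|) (measurable_of_countable _).aestronglyMeasurable
  filter_upwards with z
  unfold ff
  refine (norm_sub_le _ _).trans ?_
  have h : ∀ s : Set (Bool × ℕ), ‖s.indicator (fun _ => (c : ℂ)) z‖ ≤ |c| := by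
    intro s
    refine (norm_indicator_le_norm_self _ _).trans ?_
    rw [Complex.norm_real, Real.norm_eq_abs]
  exact add_le_add (h _) (h _)

lemma ff_setInt (c : ℝ) (n : ℕ) (s : Set (Bool × ℕ)) : ∫ z in s, ff c n z ∂mu1 =
    (mu1 ({(false, n)} ∩ s)).toReal * c - (mu1 ({(true, n)} ∩ s)).toReal * c := by
  unfold ff
  rw [integral_sub, integral_indicator_const _ MeasurableSet.of_discrete, integral_indicator_const _ MeasurableSet.of_discrete]
  · simp only [measureReal_def]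
    rw [Measure.restrict_apply MeasurableSet.of_discrete, Measure.restrict_apply MeasurableSet.of_discrete]
    simp
  · exact ((integrable_const _).indicator MeasurableSet.of_discrete)
  · exact ((integrable_const _).indicator MeasurableSet.of_discrete)

lemma ff_E0 (c : ℝ) (n : ℕ) : mu1[ff c n | fil1 0] = 0 := by
  rw [fil1_zero, condExp_bot]
  have h := ff_setInt c n Set.univ
  rw [Measure.restrict_univ, Set.inter_univ, Set.inter_univ, mu1_singleton, mu1_singleton] at h
  ext z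
  rw [h]
  simp [wgt]

lemma toReal_wgt (b : Bool) (n : ℕ) : (wgt (b, n)).toReal = (1 / 2 : ℝ) ^ (n + 2) := by
  unfold wgt
  rw [ENNReal.toReal_pow]
  simp

lemma ff_E1 (c : ℝ) (hc : 0 ≤ c) (n : ℕ) (z : Bool × ℕ) : ‖(mu1[ff c n | fil1 1]) z‖ = 2 * (c * (1 / 2 : ℝ) ^ (n + 2)) := by
  have hm : Measurable[MeasurableSpace.comap Prod.fst ⊤] (mu1[ff c n | fil1 1]) :=
    (stronglyMeasurable_condExp (m := fil1 1)).measurable
  have hint := setIntegral_condExp (μ := mu1) (fil1.le 1) (ff_int c n) (s := Prod.fst ⁻¹' {z.1})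
    ⟨{z.1}, trivial, rfl⟩
  have h1 : ∫ x in Prod.fst ⁻¹' {z.1}, (mu1[ff c n | fil1 1]) x ∂mu1 = ∫ x in Prod.fst ⁻¹' {z.1}, (mu1[ff c n | fil1 1]) z ∂mu1 := by
    apply setIntegral_congr_fun MeasurableSet.of_discrete
    intro x hx
    exact const_fiber hm (by simpa using hx)
  rw [h1, setIntegral_const, measureReal_def, mu1_fiber, ff_setInt] at hint
  have h2 : (mu1[ff c n | fil1 1]) z = 2 * ((mu1 ({(false, n)} ∩ Prod.fst ⁻¹' {z.1})).toReal * c - (mu1 ({(true, n)} ∩ Prod.fst ⁻¹' {z.1})).toReal * c) := by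
    rw [← hint]
    simp
  rw [h2]
  obtain ⟨b, m⟩ := z
  cases b
  · have e1 : ({(false, n)} ∩ Prod.fst ⁻¹' {false} : Set (Bool × ℕ)) = {(false, n)} := by
      ext x; simp only [Set.mem_inter_iff, Set.mem_singleton_iff, Set.mem_preimage]
      constructor
      · exact fun h => h.1
      · rintro rfl; exact ⟨rfl, rfl⟩
    have e2 : ({(true, n)} ∩ Prod.fst ⁻¹' {false} : Set (Bool × ℕ)) = ∅ := by
      ext x; simp only [Set.mem_inter_iff, Set.mem_singleton_iff, Set.mem_preimage, Set.mem_empty_iff_false, iff_false]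
      rintro ⟨rfl, h⟩
      exact absurd h (by simp)
    simp only
    rw [e1, e2, mu1_singleton, toReal_wgt, measure_empty, ENNReal.toReal_zero]
    have : (2 : ℂ) * (((1 / 2 : ℝ) ^ (n + 2) : ℝ) * (c : ℂ) - ((0 : ℝ) : ℂ) * c) = ((2 * (c * (1 / 2 : ℝ) ^ (n + 2)) : ℝ) : ℂ) := by
      push_cast; ring
    rw [this, Complex.norm_real, Real.norm_of_nonneg (by positivity)]
  · have e1 : ({(true, n)} ∩ Prod.fst ⁻¹' {true} : Set (Bool × ℕ)) = {(true, n)} := by
      ext x; simp only [Set.mem_inter_iff, Set.mem_singleton_iff, Set.mem_preimage]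
      constructor
      · exact fun h => h.1
      · rintro rfl; exact ⟨rfl, rfl⟩
    have e2 : ({(false, n)} ∩ Prod.fst ⁻¹' {true} : Set (Bool × ℕ)) = ∅ := by
      ext x; simp only [Set.mem_inter_iff, Set.mem_singleton_iff, Set.mem_preimage, Set.mem_empty_iff_false, iff_false]
      rintro ⟨rfl, h⟩
      exact absurd h (by simp)
    simp only
    rw [e1, e2, mu1_singleton, toReal_wgt, measure_empty, ENNReal.toReal_zero]
    have : (2 : ℂ) * (((0 : ℝ) : ℂ) * c - ((1 / 2 : ℝ) ^ (n + 2) : ℝ) * (c : ℂ)) = ((-(2 * (c * (1 / 2 : ℝ) ^ (n + 2))) : ℝ) : ℂ) := by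
      push_cast; ring
    rw [this, Complex.norm_real, norm_neg, Real.norm_of_nonneg (by positivity)]

lemma hp_lower (p : ℝ) (hp : 0 < p) (c : ℝ) (hc : 0 ≤ c) (n : ℕ) :
    ENNReal.ofReal (2 * (c * (1 / 2 : ℝ) ^ (n + 2))) ≤ hpNorm p mu1 fil1 (ff c n) := by
  unfold hpNorm
  set D := ENNReal.ofReal (2 * (c * (1 / 2 : ℝ) ^ (n + 2))) with hD
  have h1 : ∀ z, D ^ p ≤ (∑' k, ‖dd mu1 fil1 (ff c n) k z‖ₑ ^ 2) ^ (p / 2) := by
    intro z
    have h2 : D ^ 2 ≤ ∑' k, ‖dd mu1 fil1 (ff c n) k z‖ₑ ^ 2 := by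
      refine le_trans (le_of_eq ?_) (ENNReal.le_tsum 1)
      congr 1
      have : dd mu1 fil1 (ff c n) 1 z = (mu1[ff c n | fil1 1]) z := by
        show (mu1[ff c n | fil1 1]) z - (mu1[ff c n | fil1 0]) z = _
        rw [ff_E0]
        simp
      rw [this, ← ofReal_norm, ff_E1 c hc]
    calc D ^ p = (D ^ 2) ^ (p / 2) := by
          rw [← ENNReal.rpow_natCast, ← ENNReal.rpow_mul]
          congr 1
          push_cast
          ring
      _ ≤ _ := ENNReal.rpow_le_rpow h2 (by positivity)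
  calc D = (D ^ p) ^ (1 / p) := by
        rw [← ENNReal.rpow_mul, mul_one_div_cancel hp.ne', ENNReal.rpow_one]
    _ = (∫⁻ _, D ^ p ∂mu1) ^ (1 / p) := by simp
    _ ≤ _ := by
        apply ENNReal.rpow_le_rpow _ (by positivity)
        exact lintegral_mono h1

/-- The scale of the test functions. -/
noncomputable def cc (p : ℝ) (n : ℕ) : ℝ := ((1 / 2 : ℝ) ^ (n + 2)) ^ (-(1 / p)) / 3

lemma cc_nonneg (p : ℝ) (n : ℕ) : 0 ≤ cc p n := by unfold cc; positivity

/-- the two subatoms -/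
noncomputable def sa (p : ℝ) (n : ℕ) (b : Bool) (z : Bool × ℕ) : ℂ :=
  ({(b, n)} : Set (Bool × ℕ)).indicator (fun _ => (cc p n : ℂ)) z

lemma sa_norm (p : ℝ) (n : ℕ) (b : Bool) (r : ℝ) (hr : 0 < r) :
    lpN r mu1 (sa p n b) = ENNReal.ofReal (cc p n * ((1 / 2 : ℝ) ^ (n + 2)) ^ (1 / r)) := by
  unfold lpN sa
  rw [eLpNorm_indicator_const MeasurableSet.of_discrete (by simpa using hr) ENNReal.ofReal_ne_top,
    mu1_singleton, ENNReal.toReal_ofReal hr.le]
  have h1 : ‖(cc p n : ℂ)‖ₑ = ENNReal.ofReal (cc p n) := by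
    rw [← ofReal_norm, Complex.norm_real, Real.norm_of_nonneg (cc_nonneg p n)]
  have h2 : wgt (b, n) = ENNReal.ofReal ((1 / 2 : ℝ) ^ (n + 2)) := by
    rw [← toReal_wgt b n, ENNReal.ofReal_toReal]
    unfold wgt
    exact ENNReal.pow_ne_top (by simp)
  rw [h1, h2, ENNReal.ofReal_rpow_of_pos (by positivity), ← ENNReal.ofReal_mul (cc_nonneg p n)]

lemma sa_subatom (p q : ℝ) (hq : 1 < q) (n : ℕ) (b : Bool) :
    IsSubatom p q mu1 fil1 0 2 {(b, n)} (sa p n b) := by
  have hms : MeasurableSet[fil1 2] ({(b, n)} : Set (Bool × ℕ)) :=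
    (MeasurableSet.of_discrete : MeasurableSet ({(b, n)} : Set (Bool × ℕ)))
  refine ⟨by norm_num, hms, (measurable_of_countable _).aestronglyMeasurable, ?_, ?_⟩
  · filter_upwards with z hz
    unfold sa
    exact Set.indicator_of_notMem hz _
  · have hq0 : 0 < q := by linarith
    rw [sa_norm p n b q hq0, mu1_singleton]
    have h2 : wgt (b, n) = ENNReal.ofReal ((1 / 2 : ℝ) ^ (n + 2)) := by
      rw [← toReal_wgt b n, ENNReal.ofReal_toReal]
      unfold wgt
      exact ENNReal.pow_ne_top (by simp)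
    have h3 : ((2 - 0 + 1 : ℕ) : ℝ≥0∞) = ENNReal.ofReal 3 := by norm_num
    rw [h2, h3, ENNReal.ofReal_rpow_of_pos (by positivity), ← ENNReal.ofReal_div_of_pos (by norm_num)]
    apply ENNReal.ofReal_le_ofReal
    unfold cc
    rw [div_mul_eq_mul_div, ← Real.rpow_add (by positivity)]
    apply le_of_eq
    congr 2
    ring

lemma zero_subatom (p q : ℝ) : IsSubatom p q mu1 fil1 0 0 Set.univ (fun _ => (0 : ℂ)) := by
  refine ⟨le_rfl, MeasurableSet.univ, aestronglyMeasurable_const, ?_, ?_⟩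
  · filter_upwards with z _
    rfl
  · unfold lpN
    rw [eLpNorm_zero']
    exact zero_le

/-- parameters of the representation -/
noncomputable def lamS : ℕ → ℂ
  | 0 => 1
  | 1 => -1
  | _ => 0

noncomputable def aS (p : ℝ) (n : ℕ) : ℕ → Bool × ℕ → ℂ
  | 0 => sa p n false
  | 1 => sa p n true
  | _ => fun _ => 0

def kS : ℕ → ℕ
  | 0 => 2
  | 1 => 2
  | _ => 0

def AS (n : ℕ) : ℕ → Set (Bool × ℕ)
  | 0 => {(false, n)}
  | 1 => {(true, n)}
  | _ => Set.univ

lemma ff_rep (p q : ℝ) (hp : 0 < p) (hq : 1 < q) (n : ℕ) :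
    IsBlockRep p q mu1 fil1 (ff (cc p n) n) 0 lamS (aS p n) kS (AS n) := by
  refine ⟨?_, ?_, ?_⟩
  · rw [ff_E0]
  · intro j
    match j with
    | 0 => exact sa_subatom p q hq n false
    | 1 => exact sa_subatom p q hq n true
    | k + 2 => exact zero_subatom p q
  · unfold LpSum
    apply tendsto_const_nhds.congr'
    filter_upwards [eventually_ge_atTop 2] with m hm
    have : (fun ω => ff (cc p n) n ω - ∑ i ∈ Finset.range m, lamS i * aS p n i ω) = fun _ => 0 := by
      ext ω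
      have h1 : ∑ i ∈ Finset.range m, lamS i * aS p n i ω = ∑ i ∈ Finset.range 2, lamS i * aS p n i ω := by
        symm
        apply Finset.sum_subset (Finset.range_subset_range.mpr hm)
        intro i _ hi
        rw [Finset.mem_range, not_lt] at hi
        match i, hi with
        | k + 2, _ => simp [lamS]
      rw [h1, Finset.sum_range_succ, Finset.sum_range_one]
      simp only [lamS, aS, ff, sa]
      ring
    rw [this]
    unfold lpN
    rw [eLpNorm_zero']

lemma ff_size (p q : ℝ) (hp : 0 < p) (hq : 1 < q) (n : ℕ) :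
    blockSize p q mu1 fil1 (ff (cc p n) n) ≤ ENNReal.ofReal (2 + 2 ^ (1 / p)) := by
  unfold blockSize
  split_ifs with h
  · -- the Lᵖ quasi-norm
    have h1 : lpN p mu1 (ff (cc p n) n) ≤ ENNReal.ofReal (2 ^ (1 / p)) := by
      unfold lpN
      rw [eLpNorm_eq_lintegral_rpow_enorm_toReal (by simpa using hp) ENNReal.ofReal_ne_top, ENNReal.toReal_ofReal hp.le]
      have h2 : ∀ z, ‖ff (cc p n) n z‖ₑ ^ p ≤ ‖sa p n false z‖ₑ ^ p + ‖sa p n true z‖ₑ ^ p := by
        intro z
        unfold ff sa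
        by_cases hz : z = (false, n)
        · have hz2 : z ∉ ({(true, n)} : Set (Bool × ℕ)) := by rw [hz]; simp
          rw [Set.indicator_of_notMem hz2, sub_zero]
          exact le_self_add
        · have hz2 : z ∉ ({(false, n)} : Set (Bool × ℕ)) := hz
          rw [Set.indicator_of_notMem hz2, zero_sub, enorm_neg]
          exact le_add_self
      have h3 : ∀ b, ∫⁻ z, ‖sa p n b z‖ₑ ^ p ∂mu1 ≤ 1 := by
        intro b
        have h4 := sa_norm p n b p hp
        unfold lpN at h4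
        rw [eLpNorm_eq_lintegral_rpow_enorm_toReal (by simpa using hp) ENNReal.ofReal_ne_top, ENNReal.toReal_ofReal hp.le] at h4
        have h5 : cc p n * ((1 / 2 : ℝ) ^ (n + 2)) ^ (1 / p) = 1 / 3 := by
          unfold cc
          rw [div_mul_eq_mul_div, ← Real.rpow_add (by positivity), neg_add_cancel, Real.rpow_zero]
        rw [h5] at h4
        have h6 : (∫⁻ z, ‖sa p n b z‖ₑ ^ p ∂mu1) = (ENNReal.ofReal (1 / 3)) ^ p := by
          rw [← h4, ← ENNReal.rpow_mul, one_div_mul_cancel hp.ne', ENNReal.rpow_one]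
        rw [h6]
        apply ENNReal.rpow_le_one _ hp.le
        rw [ENNReal.ofReal_le_one]
        norm_num
      calc (∫⁻ z, ‖ff (cc p n) n z‖ₑ ^ p ∂mu1) ^ (1 / p)
          ≤ (∫⁻ z, (‖sa p n false z‖ₑ ^ p + ‖sa p n true z‖ₑ ^ p) ∂mu1) ^ (1 / p) := by
            apply ENNReal.rpow_le_rpow (lintegral_mono h2) (by positivity)
        _ ≤ (2 : ℝ≥0∞) ^ (1 / p) := by
            apply ENNReal.rpow_le_rpow _ (by positivity)
            rw [lintegral_add_left (measurable_of_countable _)]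
            refine (add_le_add (h3 false) (h3 true)).trans ?_
            norm_num
        _ = ENNReal.ofReal (2 ^ (1 / p)) := by
            rw [← ENNReal.ofReal_rpow_of_pos (by norm_num)]
            simp
    refine h1.trans (ENNReal.ofReal_le_ofReal (by linarith))
  · have h0 : (⨅ (k : ℕ) (lam : ℕ → ℂ) (a : ℕ → Bool × ℕ → ℂ) (κ : ℕ → ℕ) (A : ℕ → Set (Bool × ℕ))
      (_ : IsBlockRep p q mu1 fil1 (ff (cc p n) n) k lam a κ A), ∑' j, ‖lam j‖ₑ) ≤ ∑' j, ‖lamS j‖ₑ :=
      iInf_le_of_le 0 (iInf_le_of_le lamS (iInf_le_of_le (aS p n) (iInf_le_of_le kS (iInf_le_of_le (AS n)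
        (iInf_le_of_le (ff_rep p q hp hq n) le_rfl)))))
    refine h0.trans ?_
    have h1 : ∑' j, ‖lamS j‖ₑ = 2 := by
      rw [tsum_eq_sum (s := Finset.range 2)]
      · rw [Finset.sum_range_succ, Finset.sum_range_one]
        simp [lamS]
        norm_num
      · intro j hj
        rw [Finset.mem_range, not_lt] at hj
        match j, hj with
        | k + 2, _ => simp [lamS]
    rw [h1]
    have h2 : (2 : ℝ≥0∞) = ENNReal.ofReal 2 := by simp
    rw [h2]
    apply ENNReal.ofReal_le_ofReal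
    have : (0 : ℝ) ≤ 2 ^ (1 / p) := by positivity
    linarith

lemma ff_atb (p q : ℝ) (hp : 0 < p) (hq : 1 < q) (n : ℕ) :
    atbNorm p q mu1 fil1 (ff (cc p n) n) ≤ ENNReal.ofReal (2 + 2 ^ (1 / p)) := by
  unfold atbNorm
  set B : ℕ → Bool × ℕ → ℂ := fun i => if i = 0 then ff (cc p n) n else fun _ => 0 with hB
  have hB0 : B 0 = ff (cc p n) n := rfl
  have hBs : ∀ i, i ≠ 0 → B i = fun _ => 0 := by
    intro i hi
    rw [hB]
    simp only
    rw [if_neg hi]
  have hblock : ∀ i, IsBlock p q mu1 fil1 (B i) := by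
    intro i
    by_cases hi : i = 0
    · subst hi
      rw [hB0]
      exact ⟨ff_int _ _, Or.inr ⟨0, lamS, aS p n, kS, AS n, ff_rep p q hp hq n⟩⟩
    · rw [hBs i hi]
      exact ⟨integrable_const _, Or.inl aestronglyMeasurable_const⟩
  have hLp : LpSum p mu1 (ff (cc p n) n) B := by
    unfold LpSum
    apply tendsto_const_nhds.congr'
    filter_upwards [eventually_ge_atTop 1] with m hm
    have : (fun ω => ff (cc p n) n ω - ∑ i ∈ Finset.range m, B i ω) = fun _ => 0 := by
      ext ω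
      have h1 : ∑ i ∈ Finset.range m, B i ω = ∑ i ∈ Finset.range 1, B i ω := by
        symm
        apply Finset.sum_subset (Finset.range_subset_range.mpr hm)
        intro i _ hi
        rw [Finset.mem_range, not_lt] at hi
        rw [hBs i (by omega)]
      rw [h1, Finset.sum_range_one, hB0, sub_self]
    rw [this]
    unfold lpN
    rw [eLpNorm_zero']
  have h0 : (⨅ (b : ℕ → Bool × ℕ → ℂ) (_ : ∀ i, IsBlock p q mu1 fil1 (b i)) (_ : LpSum p mu1 (ff (cc p n) n) b),
    (∑' i, blockSize p q mu1 fil1 (b i) ^ p) ^ (1 / p)) ≤ (∑' i, blockSize p q mu1 fil1 (B i) ^ p) ^ (1 / p) :=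
    iInf_le_of_le B (iInf_le_of_le hblock (iInf_le_of_le hLp le_rfl))
  refine h0.trans ?_
  · have h1 : ∑' i, blockSize p q mu1 fil1 (B i) ^ p = blockSize p q mu1 fil1 (ff (cc p n) n) ^ p := by
      rw [tsum_eq_single 0, hB0]
      intro i hi
      rw [hBs i hi]
      unfold blockSize
      rw [if_pos aestronglyMeasurable_const]
      unfold lpN
      rw [eLpNorm_zero', ENNReal.zero_rpow_of_pos hp]
    rw [h1, ← ENNReal.rpow_mul, mul_one_div_cancel hp.ne', ENNReal.rpow_one]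
    exact ff_size p q hp hq n

lemma cc_big (p : ℝ) (hp : 0 < p) (hp1 : p < 1) :
    Tendsto (fun n => 2 * (cc p n * (1 / 2 : ℝ) ^ (n + 2))) atTop atTop := by
  have h1 : ∀ n : ℕ, 2 * (cc p n * (1 / 2 : ℝ) ^ (n + 2)) = (2 / 3) * (2 ^ (1 / p - 1) : ℝ) ^ (n + 2) := by
    intro n
    unfold cc
    have h2 : ((1 / 2 : ℝ) ^ (n + 2)) ^ (-(1 / p)) = (2 ^ (1 / p) : ℝ) ^ (n + 2) := by
      rw [one_div, inv_pow, Real.inv_rpow (by positivity), Real.rpow_neg (by positivity), inv_inv,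
        ← Real.rpow_natCast, ← Real.rpow_natCast, ← Real.rpow_mul (by norm_num), ← Real.rpow_mul (by norm_num), mul_comm]
    rw [h2, Real.rpow_sub (by norm_num), Real.rpow_one, div_pow, div_pow, one_pow]
    ring
  simp_rw [h1]
  apply Tendsto.const_mul_atTop (by norm_num)
  have h3 : 1 < (2 : ℝ) ^ (1 / p - 1) := by
    apply Real.one_lt_rpow (by norm_num)
    rw [sub_pos, one_lt_div hp]
    exact hp1
  exact (tendsto_pow_atTop_atTop_of_one_lt h3).comp (tendsto_add_atTop_nat 2)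

theorem q1_false (p q : ℝ) (hp : 0 < p) (hp1 : p < 1) (hq : 1 < q) (C : NNReal) :
    ∃ f : Bool × ℕ → ℂ, MemLp f ⊤ mu1 ∧ C * atbNorm p q mu1 fil1 f < hpNorm p mu1 fil1 f := by
  have h := (cc_big p hp hp1).eventually_gt_atTop (C * (2 + 2 ^ (1 / p)))
  obtain ⟨n, hn⟩ := h.exists
  refine ⟨ff (cc p n) n, ff_top _ _, ?_⟩
  calc (C : ℝ≥0∞) * atbNorm p q mu1 fil1 (ff (cc p n) n) ≤ C * ENNReal.ofReal (2 + 2 ^ (1 / p)) := by
        gcongr
        exact ff_atb p q hp hq n
    _ = ENNReal.ofReal (C * (2 + 2 ^ (1 / p))) := by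
        rw [ENNReal.ofReal_mul (NNReal.coe_nonneg C), ENNReal.ofReal_coe_nnreal]
    _ < ENNReal.ofReal (2 * (cc p n * (1 / 2 : ℝ) ^ (n + 2))) := by
        rw [ENNReal.ofReal_lt_ofReal_iff_of_nonneg (by positivity)]
        exact hn
    _ ≤ _ := hp_lower p hp _ (cc_nonneg p n) n

end Pool.Agent.V1193.Blocks
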