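import Pool.Agent.V1193.Blocks

set_option autoImplicit false
open MeasureTheory Filter Topology
open scoped ENNReal

namespace Pool.Agent.V1193.Blocks

/-- `h n = 2 ^ (-(n+1))` -/
noncomputable def hh (n : ℕ) : ℝ := (1 / 2) ^ (n + 1)

lemma hh_pos (n : ℕ) : 0 < hh n := by unfold hh; positivity
lemma hh_le (n : ℕ) : hh n ≤ 1 / 2 := by
  unfold hh
  rw [pow_succ]
  have : (1 / 2 : ℝ) ^ n ≤ 1 := pow_le_one₀ (by norm_num) (by norm_num)
  linarith

/-- weights -/
noncomputable def w2 (z : ℕ × Bool) : ℝ := if z.2 then hh z.1 * hh z.1 else hh z.1 * (1 - hh z.1)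

lemma w2_pos (z : ℕ × Bool) : 0 < w2 z := by
  unfold w2
  have h1 := hh_pos z.1
  have h2 := hh_le z.1
  split_ifs
  · positivity
  · exact mul_pos h1 (by linarith)

/-- the measure -/
noncomputable def mu2 : Measure (ℕ × Bool) := Measure.sum fun z => ENNReal.ofReal (w2 z) • Measure.dirac z

lemma mu2_lint (f : ℕ × Bool → ℝ≥0∞) : ∫⁻ z, f z ∂mu2 = ∑' z, ENNReal.ofReal (w2 z) * f z := by
  unfold mu2
  rw [lintegral_sum_measure]
  apply tsum_congr
  intro z
  rw [lintegral_smul_measure, lintegral_dirac]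
  rfl

lemma mu2_singleton (z : ℕ × Bool) : mu2 {z} = ENNReal.ofReal (w2 z) := by
  rw [← lintegral_indicator_one (MeasurableSet.of_discrete), mu2_lint, tsum_eq_single z]
  · simp
  · intro y hy
    rw [Set.indicator_of_notMem (by simpa using hy), mul_zero]

lemma mu2_real (z : ℕ × Bool) : mu2.real {z} = w2 z := by
  rw [measureReal_def, mu2_singleton, ENNReal.toReal_ofReal (w2_pos z).le]

lemma hh_sum : ∑' n : ℕ, ENNReal.ofReal (hh n) = 1 := by
  have h : HasSum hh 1 := by
    have h0 := hasSum_geometric_two' (1 : ℝ)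
    have e : hh = fun n : ℕ => (1 : ℝ) / 2 / 2 ^ n := by
      ext n
      unfold hh
      rw [pow_succ, one_div_pow]
      ring
    rw [e]
    exact h0
  rw [← ENNReal.ofReal_tsum_of_nonneg (fun n => (hh_pos n).le) h.summable, h.tsum_eq, ENNReal.ofReal_one]

instance mu2_prob : IsProbabilityMeasure mu2 := by
  constructor
  rw [← lintegral_one, mu2_lint, ENNReal.tsum_prod']
  have h : ∀ n : ℕ, ∑' b : Bool, ENNReal.ofReal (w2 (n, b)) * 1 = ENNReal.ofReal (hh n) := by
    intro n
    rw [tsum_bool, mul_one, mul_one, ← ENNReal.ofReal_add (w2_pos _).le (w2_pos _).le]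
    congr 1
    simp [w2]
    ring
  simp_rw [h]
  exact hh_sum

/-- the filtration -/
def fil2 : Filtration ℕ (inferInstance : MeasurableSpace (ℕ × Bool)) where
  seq k := if k = 0 then MeasurableSpace.comap Prod.fst ⊤ else inferInstance
  mono' := by
    intro i j hij
    simp only
    split_ifs with h1 h2 h3 <;> first | omega | exact le_rfl | exact measurable_fst.comap_le
  le' := by
    intro i
    split_ifs
    · exact measurable_fst.comap_le
    · exact le_rfl

lemma fil2_gen : ⨆ k, fil2 k = (inferInstance : MeasurableSpace (ℕ × Bool)) := by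
  apply le_antisymm
  · exact iSup_le fun k => fil2.le k
  · exact le_iSup (fun k => fil2 k) 1

lemma set_eq (n : ℕ) : (Prod.fst ⁻¹' {n} : Set (ℕ × Bool)) = {(n, false)} ∪ {(n, true)} := by
  ext ⟨m, b⟩
  cases b <;> simp

/-- integral over a fibre -/
lemma fiber_int (f : ℕ × Bool → ℂ) (hf : Integrable f mu2) (n : ℕ) :
    ∫ z in Prod.fst ⁻¹' {n}, f z ∂mu2 = w2 (n, false) * f (n, false) + w2 (n, true) * f (n, true) := by
  rw [set_eq, setIntegral_union _ MeasurableSet.of_discrete hf.integrableOn hf.integrableOn,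
    integral_singleton, integral_singleton, mu2_real, mu2_real]
  · simp
  · rw [Set.disjoint_singleton]
    simp

/-- the relation between `f` and its conditional expectation -/
lemma cond_rel (f : ℕ × Bool → ℂ) (hf : Integrable f mu2) (n : ℕ) :
    (mu2[f | fil2 0]) (n, false) = (mu2[f | fil2 0]) (n, true) ∧
    (1 - hh n) * (f (n, false) - (mu2[f | fil2 0]) (n, false)) + hh n * (f (n, true) - (mu2[f | fil2 0]) (n, true)) = 0 := by
  have hm : Measurable[MeasurableSpace.comap Prod.fst ⊤] (mu2[f | fil2 0]) :=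
    (stronglyMeasurable_condExp (m := fil2 0)).measurable
  have h1 : (mu2[f | fil2 0]) (n, false) = (mu2[f | fil2 0]) (n, true) := const_fiber hm rfl
  refine ⟨h1, ?_⟩
  have hint := setIntegral_condExp (μ := mu2) (fil2.le 0) hf (s := Prod.fst ⁻¹' {n}) ⟨{n}, trivial, rfl⟩
  rw [fiber_int f hf, fiber_int _ integrable_condExp] at hint
  have hw0 : (w2 (n, false) : ℂ) = hh n * (1 - hh n) := by simp [w2]
  have hw1 : (w2 (n, true) : ℂ) = hh n * hh n := by simp [w2]
  rw [hw0, hw1] at hint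
  have hne : (hh n : ℂ) ≠ 0 := by exact_mod_cast (hh_pos n).ne'
  apply mul_left_cancel₀ hne
  linear_combination -hint

lemma dd0 (f : ℕ × Bool → ℂ) : dd mu2 fil2 f 0 = mu2[f | fil2 0] := rfl

lemma dd1 (f : ℕ × Bool → ℂ) (hf : Integrable f mu2) (z : ℕ × Bool) : dd mu2 fil2 f 1 z = f z - (mu2[f | fil2 0]) z := by
  have h : mu2[f | fil2 1] = f := by
    apply condExp_of_stronglyMeasurable (fil2.le 1) _ hf
    exact (measurable_of_countable f).stronglyMeasurable
  show (mu2[f | fil2 1]) z - (mu2[f | fil2 0]) z = _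
  rw [h]

/-- square function -/
noncomputable def sqf (f : ℕ × Bool → ℂ) (z : ℕ × Bool) : ℝ≥0∞ := (∑' k, ‖dd mu2 fil2 f k z‖ₑ ^ 2) ^ (1 / 2 : ℝ)

lemma le_sqf (f : ℕ × Bool → ℂ) (k : ℕ) (z : ℕ × Bool) : ‖dd mu2 fil2 f k z‖ₑ ≤ sqf f z := by
  unfold sqf
  calc ‖dd mu2 fil2 f k z‖ₑ = (‖dd mu2 fil2 f k z‖ₑ ^ 2) ^ (1 / 2 : ℝ) := by
        rw [← ENNReal.rpow_natCast, ← ENNReal.rpow_mul]
        norm_num
    _ ≤ _ := ENNReal.rpow_le_rpow (ENNReal.le_tsum k) (by norm_num)

lemma hp_eq (p : ℝ) (f : ℕ × Bool → ℂ) : hpNorm p mu2 fil2 f = (∑' z, ENNReal.ofReal (w2 z) * sqf f z ^ p) ^ (1 / p) := by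
  unfold hpNorm
  rw [mu2_lint]
  congr 1
  apply tsum_congr
  intro z
  congr 1
  unfold sqf
  rw [← ENNReal.rpow_mul]
  congr 1
  ring

lemma tsum_rpow_le (r : ℝ) (hr : 1 ≤ r) (y : ℕ → ℝ≥0∞) : ∑' n, y n ^ r ≤ (∑' n, y n) ^ r := by
  rw [ENNReal.tsum_eq_iSup_sum]
  apply iSup_le
  intro s
  refine le_trans ?_ (ENNReal.rpow_le_rpow (ENNReal.sum_le_tsum s) (by linarith))
  classical
  induction s using Finset.induction_on with
  | empty => simp
  | insert a s ha ih =>
    rw [Finset.sum_insert ha, Finset.sum_insert ha]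
    refine le_trans ?_ (ENNReal.add_rpow_le_rpow_add _ _ hr)
    gcongr

/-- the function -/
noncomputable def gg (p : ℝ) (z : ℕ × Bool) : ℂ := if z.2 then ((hh z.1 ^ (1 / p - 1) : ℝ) : ℂ) else 0

lemma gg_bound (p : ℝ) (hp : 0 < p) (hp1 : p < 1) (z : ℕ × Bool) : ‖gg p z‖ ≤ 1 := by
  unfold gg
  split_ifs
  · rw [Complex.norm_real, Real.norm_of_nonneg (Real.rpow_nonneg (hh_pos _).le _)]
    apply Real.rpow_le_one (hh_pos _).le ((hh_le _).trans (by norm_num))
    rw [sub_nonneg, one_le_div hp]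
    exact hp1.le
  · simp

lemma gg_top (p : ℝ) (hp : 0 < p) (hp1 : p < 1) : MemLp (gg p) ⊤ mu2 := by
  apply memLp_top_of_bound (C := 1) (measurable_of_countable _).aestronglyMeasurable
  filter_upwards with z
  exact gg_bound p hp hp1 z

lemma pair_bound (p : ℝ) (hp : 0 < p) (hp1 : p < 1) (f : ℕ × Bool → ℂ) (hf : MemLp f ⊤ mu2) :
    ‖∫ z, f z * gg p z ∂mu2‖ₑ ≤ ENNReal.ofReal (2 * 2 ^ (1 / p)) * hpNorm p mu2 fil2 f := by
  have hfi : Integrable f mu2 := hf.integrable le_top
  refine (enorm_integral_le_lintegral_enorm _).trans ?_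
  rw [mu2_lint, ENNReal.tsum_prod']
  have h1 : ∀ n : ℕ, ∑' b : Bool, ENNReal.ofReal (w2 (n, b)) * ‖f (n, b) * gg p (n, b)‖ₑ ≤
      2 * (ENNReal.ofReal (hh n) * sqf f (n, false) ^ p) ^ (1 / p) := by
    intro n
    rw [tsum_bool]
    have hg0 : gg p (n, false) = 0 := by simp [gg]
    rw [hg0, mul_zero, enorm_zero, mul_zero, zero_add]
    obtain ⟨e1, e2⟩ := cond_rel f hfi n
    have hh0 := hh_pos n
    have hh1 := hh_le n
    -- hh n * ‖f(n,true)‖ ≤ ‖F‖ + ‖d0‖
    have h2 : hh n * ‖f (n, true)‖ ≤ ‖dd mu2 fil2 f 0 (n, false)‖ + ‖dd mu2 fil2 f 1 (n, false)‖ := by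
      rw [dd0, dd1 f hfi]
      set F := (mu2[f | fil2 0]) (n, false) with hF
      have e3 : (hh n : ℂ) * f (n, true) = hh n * F - (1 - hh n) * (f (n, false) - F) := by
        rw [← e1] at e2
        linear_combination e2
      have e4 : hh n * ‖f (n, true)‖ = ‖(hh n : ℂ) * f (n, true)‖ := by
        rw [norm_mul, Complex.norm_real, Real.norm_of_nonneg hh0.le]
      rw [e4, e3]
      refine (norm_sub_le _ _).trans ?_
      rw [norm_mul, norm_mul, Complex.norm_real, Real.norm_of_nonneg hh0.le]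
      have e5 : ‖(1 - hh n : ℂ)‖ = 1 - hh n := by
        have : (1 - hh n : ℂ) = ((1 - hh n : ℝ) : ℂ) := by push_cast; ring
        rw [this, Complex.norm_real, Real.norm_of_nonneg (by linarith)]
      rw [e5]
      have := norm_nonneg F
      have := norm_nonneg (f (n, false) - F)
      nlinarith
    have h3 : ENNReal.ofReal (hh n * ‖f (n, true)‖) ≤ 2 * sqf f (n, false) := by
      refine (ENNReal.ofReal_le_ofReal h2).trans ?_
      rw [ENNReal.ofReal_add (norm_nonneg _) (norm_nonneg _), ofReal_norm, ofReal_norm, two_mul]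
      exact add_le_add (le_sqf f 0 _) (le_sqf f 1 _)
    have h4 : ENNReal.ofReal (w2 (n, true)) * ‖f (n, true) * gg p (n, true)‖ₑ =
        ENNReal.ofReal (hh n) ^ (1 / p) * ENNReal.ofReal (hh n * ‖f (n, true)‖) := by
      rw [← ofReal_norm, norm_mul, ENNReal.ofReal_rpow_of_pos hh0, ← ENNReal.ofReal_mul (w2_pos _).le, ← ENNReal.ofReal_mul (by positivity)]
      congr 1
      have : ‖gg p (n, true)‖ = hh n ^ (1 / p - 1) := by
        simp only [gg, if_true]
        rw [Complex.norm_real, Real.norm_of_nonneg (Real.rpow_nonneg hh0.le _)]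
      rw [this, Real.rpow_sub hh0, Real.rpow_one]
      simp only [w2, if_true]
      field_simp
    rw [h4, ENNReal.mul_rpow_of_nonneg _ _ (by positivity), ← ENNReal.rpow_mul (sqf f (n, false)), mul_one_div_cancel hp.ne', ENNReal.rpow_one]
    calc ENNReal.ofReal (hh n) ^ (1 / p) * ENNReal.ofReal (hh n * ‖f (n, true)‖)
        ≤ ENNReal.ofReal (hh n) ^ (1 / p) * (2 * sqf f (n, false)) := by gcongr
      _ = _ := by ring
  have hr : 1 ≤ 1 / p := by rw [le_div_iff₀ hp]; linarith
  calc ∑' (n : ℕ), ∑' b : Bool, ENNReal.ofReal (w2 (n, b)) * ‖f (n, b) * gg p (n, b)‖ₑ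
      ≤ ∑' n : ℕ, 2 * (ENNReal.ofReal (hh n) * sqf f (n, false) ^ p) ^ (1 / p) := ENNReal.tsum_le_tsum h1
    _ = 2 * ∑' n : ℕ, (ENNReal.ofReal (hh n) * sqf f (n, false) ^ p) ^ (1 / p) := ENNReal.tsum_mul_left
    _ ≤ 2 * (∑' n : ℕ, ENNReal.ofReal (hh n) * sqf f (n, false) ^ p) ^ (1 / p) := by
        gcongr
        exact tsum_rpow_le _ hr _
    _ ≤ 2 * (2 * ∑' z, ENNReal.ofReal (w2 z) * sqf f z ^ p) ^ (1 / p) := by
        gcongr
        rw [ENNReal.tsum_prod', ← ENNReal.tsum_mul_left]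
        apply ENNReal.tsum_le_tsum
        intro n
        rw [tsum_bool]
        calc ENNReal.ofReal (hh n) * sqf f (n, false) ^ p
            ≤ (2 * ENNReal.ofReal (w2 (n, false))) * sqf f (n, false) ^ p := by
              gcongr
              have : (2 : ℝ≥0∞) = ENNReal.ofReal 2 := by simp
              rw [this, ← ENNReal.ofReal_mul (by norm_num)]
              apply ENNReal.ofReal_le_ofReal
              have hh0 := hh_pos n
              have hh1 := hh_le n
              simp only [w2]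
              simp
              nlinarith
          _ = 2 * (ENNReal.ofReal (w2 (n, false)) * sqf f (n, false) ^ p) := by ring
          _ ≤ _ := by
            gcongr
            exact le_self_add
    _ = ENNReal.ofReal (2 * 2 ^ (1 / p)) * hpNorm p mu2 fil2 f := by
        rw [hp_eq, ENNReal.mul_rpow_of_nonneg _ _ (by positivity), ENNReal.ofReal_mul (by norm_num),
          ← ENNReal.ofReal_rpow_of_pos (by norm_num), mul_assoc]
        simp

/-- a representing function is determined everywhere -/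
lemma eq_of_pairing (g g' : ℕ × Bool → ℂ) (h : ∀ f : ℕ × Bool → ℂ, MemLp f ⊤ mu2 →
    ∫ z, f z * g' z ∂mu2 = ∫ z, f z * g z ∂mu2) : g' = g := by
  ext z
  have h1 := h (({z} : Set (ℕ × Bool)).indicator fun _ => 1) (by
    apply memLp_top_of_bound (C := 1) (measurable_of_countable _).aestronglyMeasurable
    filter_upwards with y
    refine (norm_indicator_le_norm_self _ _).trans ?_
    simp)
  have e : ∀ k : ℕ × Bool → ℂ, ∫ y, ({z} : Set (ℕ × Bool)).indicator (fun _ => (1 : ℂ)) y * k y ∂mu2 = w2 z * k z := by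
    intro k
    have e1 : (fun y => ({z} : Set (ℕ × Bool)).indicator (fun _ => (1 : ℂ)) y * k y) = ({z} : Set (ℕ × Bool)).indicator k := by
      ext y
      by_cases hy : y ∈ ({z} : Set (ℕ × Bool))
      · rw [Set.indicator_of_mem hy, Set.indicator_of_mem hy, one_mul]
      · rw [Set.indicator_of_notMem hy, Set.indicator_of_notMem hy, zero_mul]
    rw [e1, integral_indicator MeasurableSet.of_discrete, integral_singleton, mu2_real]
    simp
  rw [e, e] at h1
  have hne : (w2 z : ℂ) ≠ 0 := by exact_mod_cast (w2_pos z).ne'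
  exact mul_left_cancel₀ hne h1

lemma lam_infinite (p q : ℝ) (hp : 0 < p) (hp1 : p < 1) : lamNormLoc p q mu2 fil2 (gg p) = ⊤ := by
  have hgi : Integrable (gg p) mu2 := (gg_top p hp hp1).integrable le_top
  have key : ∀ n : ℕ, ENNReal.ofReal ((1 / 2) * (2 ^ (1 / p - 1) : ℝ) ^ (n + 1)) ≤ lamNormLoc p q mu2 fil2 (gg p) := by
    intro n
    have hh0 := hh_pos n
    have hh1 := hh_le n
    have hms : MeasurableSet[fil2 1] ({(n, true)} : Set (ℕ × Bool)) :=
      (MeasurableSet.of_discrete : MeasurableSet ({(n, true)} : Set (ℕ × Bool)))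
    have hpos : mu2 {(n, true)} ≠ 0 := by
      rw [mu2_singleton]
      exact (ENNReal.ofReal_pos.mpr (w2_pos _)).ne'
    unfold lamNormLoc
    refine le_iSup_of_le 1 (le_iSup_of_le {(n, true)} (le_iSup_of_le hms (le_iSup_of_le hpos ?_)))
    unfold lamTermLoc
    have h1 : ENNReal.ofReal ((1 / 2) * hh n ^ (1 / p - 1)) ≤ eLpNorm (dd mu2 fil2 (gg p) 1) ⊤ (mu2.restrict {(n, true)}) := by
      have h2 : ‖dd mu2 fil2 (gg p) 1 (n, true)‖ₑ ≤ eLpNorm (dd mu2 fil2 (gg p) 1) ⊤ (mu2.restrict {(n, true)}) := by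
        rw [eLpNorm_exponent_top]
        by_contra hcon
        rw [not_le] at hcon
        have h3 := ae_lt_of_essSup_lt hcon
        rw [ae_restrict_iff' MeasurableSet.of_discrete] at h3
        have h4 : ∀ᵐ z ∂mu2, z ≠ (n, true) := by
          filter_upwards [h3] with z hz hzn
          subst hzn
          exact lt_irrefl _ (hz rfl)
        rw [ae_iff] at h4
        apply hpos
        convert h4 using 2
        ext z
        simp
      refine le_trans ?_ h2
      rw [dd1 _ hgi, ← ofReal_norm]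
      apply ENNReal.ofReal_le_ofReal
      obtain ⟨e1, e2⟩ := cond_rel (gg p) hgi n
      have hg0 : gg p (n, false) = 0 := by simp [gg]
      have hg1 : gg p (n, true) = ((hh n ^ (1 / p - 1) : ℝ) : ℂ) := by simp [gg]
      rw [e1, hg0] at e2
      have e3 : gg p (n, true) - (mu2[gg p | fil2 0]) (n, true) = (((1 - hh n) * hh n ^ (1 / p - 1) : ℝ) : ℂ) := by
        push_cast
        rw [hg1] at e2 ⊢
        push_cast at e2 ⊢
        linear_combination e2
      rw [e3, Complex.norm_real, Real.norm_of_nonneg (mul_nonneg (by linarith) (Real.rpow_nonneg hh0.le _))]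
      apply mul_le_mul_of_nonneg_right (by linarith) (Real.rpow_nonneg hh0.le _)
    calc ENNReal.ofReal ((1 / 2) * (2 ^ (1 / p - 1) : ℝ) ^ (n + 1))
        = mu2 {(n, true)} ^ (1 - 1 / p) * ENNReal.ofReal ((1 / 2) * hh n ^ (1 / p - 1)) := by
          rw [mu2_singleton, ENNReal.ofReal_rpow_of_pos (w2_pos _), ← ENNReal.ofReal_mul (by have := w2_pos (n, true); positivity)]
          congr 1
          have e4 : w2 (n, true) = hh n * hh n := by simp [w2]
          rw [e4, Real.mul_rpow hh0.le hh0.le]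
          have e5 : hh n ^ (1 - 1 / p) * hh n ^ (1 / p - 1) = 1 := by
            rw [← Real.rpow_add hh0]
            have : (1 - 1 / p + (1 / p - 1)) = 0 := by ring
            rw [this, Real.rpow_zero]
          have e6 : hh n ^ (1 - 1 / p) = (2 ^ (1 / p - 1) : ℝ) ^ (n + 1) := by
            unfold hh
            rw [one_div, inv_pow, Real.inv_rpow (by positivity), ← Real.rpow_neg (by positivity), neg_sub,
              ← Real.rpow_natCast, ← Real.rpow_natCast, ← Real.rpow_mul (by norm_num), ← Real.rpow_mul (by norm_num), mul_comm]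
          calc (1 / 2) * (2 ^ (1 / p - 1) : ℝ) ^ (n + 1) = (1 / 2) * hh n ^ (1 - 1 / p) * 1 := by rw [e6, mul_one]
            _ = (1 / 2) * hh n ^ (1 - 1 / p) * (hh n ^ (1 - 1 / p) * hh n ^ (1 / p - 1)) := by rw [e5]
            _ = _ := by ring
      _ ≤ mu2 {(n, true)} ^ (1 - 1 / p) * eLpNorm (dd mu2 fil2 (gg p) 1) ⊤ (mu2.restrict {(n, true)}) := by gcongr
      _ ≤ _ := by
          gcongr
          exact le_add_self
  have hlim : Tendsto (fun n : ℕ => ENNReal.ofReal ((1 / 2) * (2 ^ (1 / p - 1) : ℝ) ^ (n + 1))) atTop (𝓝 ⊤) := by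
    rw [ENNReal.tendsto_ofReal_nhds_top]
    apply Tendsto.const_mul_atTop (by norm_num)
    have h3 : 1 < (2 : ℝ) ^ (1 / p - 1) := by
      apply Real.one_lt_rpow (by norm_num)
      rw [sub_pos, one_lt_div hp]
      exact hp1
    exact (tendsto_pow_atTop_atTop_of_one_lt h3).comp (tendsto_add_atTop_nat 1)
  exact top_le_iff.mp (le_of_tendsto' hlim key)

end Pool.Agent.V1193.Blocks
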