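import Mathlib

/-! Burkholder's function for the weak type (1,1) of martingale transforms. -/

namespace Pool.Agent.V1193.Burk

/-- Burkholder's function -/
noncomputable def U (x y : ℝ) : ℝ := if |x| + |y| < 1 then y^2 - x^2 else 1 - 2*|x|

lemma U_le (x y : ℝ) : U x y ≤ 1 - 2*|x| := by
  unfold U
  split
  · rename_i h
    have h1 : |y| < 1 - |x| := by linarith
    have h2 : y^2 ≤ (1-|x|)^2 := by
      rw [← sq_abs y]
      exact pow_le_pow_left₀ (abs_nonneg _) h1.le 2
    have h3 : x^2 = |x|^2 := (sq_abs x).symm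
    nlinarith
  · exact le_rfl

lemma U_ge (x y : ℝ) : (if 1 ≤ |y| then (1:ℝ) else 0) - 2*|x| ≤ U x y := by
  unfold U
  have hx := abs_nonneg x
  have hy := abs_nonneg y
  by_cases h1 : |x| + |y| < 1
  · rw [if_pos h1, if_neg (by linarith)]
    have h3 : |x| ≤ 1 := by linarith
    have h5 : x^2 = |x|^2 := (sq_abs x).symm
    nlinarith [sq_nonneg y]
  · rw [if_neg h1]
    split <;> linarith

lemma U_zero (x : ℝ) : U x 0 ≤ 0 := by
  unfold U
  split
  · nlinarith [sq_nonneg x]
  · rename_i h
    rw [abs_zero, add_zero, not_lt] at h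
    linarith

lemma tangent_aux (x y t k : ℝ) (hy : 0 ≤ y) (h1 : x + y < 1) (ha : 0 ≤ x + t)
    (hk : |k| ≤ |t|) (hout : 1 ≤ (x+t) + |y+k|) :
    1 - 2*(x+t) ≤ y^2 - x^2 - 2*x*t + 2*y*k := by
  rcases lt_or_ge t 0 with ht | ht
  · exfalso
    rw [abs_of_neg ht] at hk
    have := abs_add_le y k
    rw [abs_of_nonneg hy] at this
    linarith
  · rw [abs_of_nonneg ht] at hk
    have hk1 := (abs_le.1 hk).1
    have hk2 := (abs_le.1 hk).2
    rcases le_or_gt 0 (y+k) with hb | hb
    · rw [abs_of_nonneg hb] at hout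
      have e1 : 0 ≤ k - (1-x-t-y) := by linarith
      have e2 : 0 ≤ 2*t - (1-x-y) := by linarith
      nlinarith [mul_nonneg hy e1, mul_nonneg (show 0 ≤ 1-x-y by linarith) e2]
    · rw [abs_of_neg hb] at hout
      have e2 : 0 ≤ 2*t - (1-x) - y := by linarith
      nlinarith [mul_nonneg hy (show 0 ≤ k + t by linarith),
        mul_nonneg (show 0 ≤ 1-x-y by linarith) e2]

lemma U_tangent (x y t k : ℝ) (h : |x| + |y| < 1) (hk : |k| ≤ |t|) :
    U (x+t) (y+k) ≤ y^2 - x^2 - 2*x*t + 2*y*k := by
  unfold U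
  split
  · have : k^2 ≤ t^2 := sq_le_sq.2 hk
    nlinarith
  · rename_i hout
    rw [not_lt] at hout
    have hx1 := le_abs_self x
    have hx2 := neg_abs_le x
    have hy1 := le_abs_self y
    have hy2 := neg_abs_le y
    rcases le_total 0 (x+t) with ha | ha <;> rcases le_total 0 y with hy | hy
    · rw [abs_of_nonneg ha] at hout ⊢
      exact tangent_aux x y t k hy (by linarith) ha hk hout
    · rw [abs_of_nonneg ha] at hout ⊢
      have := tangent_aux x (-y) t (-k) (by linarith) (by linarith) ha (by rwa [abs_neg])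
        (by rw [show -y + -k = -(y+k) by ring, abs_neg]; exact hout)
      linarith
    · rw [abs_of_nonpos ha] at hout ⊢
      have := tangent_aux (-x) y (-t) k hy (by linarith) (by linarith) (by rwa [abs_neg])
        (by linarith)
      linarith
    · rw [abs_of_nonpos ha] at hout ⊢
      have := tangent_aux (-x) (-y) (-t) (-k) (by linarith) (by linarith) (by linarith)
        (by rwa [abs_neg, abs_neg])
        (by rw [show -y + -k = -(y+k) by ring, abs_neg]; linarith)
      linarith

lemma U_zigzag (x y d v : ℝ) (hv : |v| ≤ 1) :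
    U (x+d) (y+v*d) + U (x-d) (y-v*d) ≤ 2 * U x y := by
  by_cases h : |x| + |y| < 1
  · have hk : |v*d| ≤ |d| := by
      rw [abs_mul]
      exact mul_le_of_le_one_left (abs_nonneg _) hv
    have h1 := U_tangent x y d (v*d) h hk
    have h2 := U_tangent x y (-d) (-(v*d)) h (by rw [abs_neg, abs_neg]; exact hk)
    have e : U x y = y^2 - x^2 := by unfold U; rw [if_pos h]
    rw [e]
    rw [← sub_eq_add_neg, ← sub_eq_add_neg] at h2
    linarith
  · have e : U x y = 1 - 2*|x| := by unfold U; rw [if_neg h]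
    rw [e]
    have h1 := U_le (x+d) (y+v*d)
    have h2 := U_le (x-d) (y-v*d)
    have h3 : 2*|x| ≤ |x+d| + |x-d| := by
      have := abs_add_le (x+d) (x-d)
      rw [show x + d + (x - d) = 2*x by ring, abs_mul, abs_two] at this
      exact this
    linarith

end Pool.Agent.V1193.Burk
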