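import Pool.Agent.V1193.Sing

set_option autoImplicit false
open MeasureTheory Filter Topology Complex
open scoped Real ComplexConjugate ENNReal

namespace Pool.Agent.V1193

noncomputable section

lemma sq_le_of_inner {E : Type*} [NormedAddCommGroup E] [InnerProductSpace ℂ E] (a b c : E)
    (h : inner ℂ a a = inner ℂ b c) : ‖a‖ ^ 2 ≤ ‖b‖ * ‖c‖ := by
  have h1 : ((‖a‖ : ℂ)) ^ 2 = inner ℂ a a := by
    rw [inner_self_eq_norm_sq_to_K]; rfl
  have h3 : ‖((‖a‖ : ℂ)) ^ 2‖ = ‖a‖ ^ 2 := by simp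
  rw [← h3, h1, h]
  exact norm_inner_le_norm _ _

lemma le_of_inner {E : Type*} [NormedAddCommGroup E] [InnerProductSpace ℂ E] (a b : E)
    (h : inner ℂ a a = inner ℂ b a) : ‖a‖ ≤ ‖b‖ := by
  have h := sq_le_of_inner a b a h
  by_cases h0 : ‖a‖ = 0
  · rw [h0]; exact norm_nonneg _
  · have : 0 < ‖a‖ := lt_of_le_of_ne (norm_nonneg _) (Ne.symm h0)
    nlinarith

def ee (i : ℕ) : H2 := lp.single 2 i (1 : ℂ)

lemma ee_apply (i j : ℕ) : ee i j = if j = i then 1 else 0 := by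
  unfold ee
  rw [lp.single_apply]
  by_cases h : j = i
  · subst h; simp
  · simp [h]

lemma inner_ee (i : ℕ) (x : H2) : inner ℂ (ee i) x = x i := by
  unfold ee
  rw [lp.inner_single_left]
  simp

lemma inner_ee_right (i : ℕ) (x : H2) : inner ℂ x (ee i) = conj (x i) := by
  unfold ee
  rw [lp.inner_single_right]
  simp

/-- section projections -/
def PP (n : ℕ) : H2 →L[ℂ] H2 := ∑ i ∈ Finset.range (n + 1), (innerSL ℂ (ee i)).smulRight (ee i)
def WW (n : ℕ) : H2 →L[ℂ] H2 := ∑ i ∈ Finset.range (n + 1), (innerSL ℂ (ee (n - i))).smulRight (ee i)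

lemma PP_eq (n : ℕ) (x : H2) : PP n x = ∑ i ∈ Finset.range (n + 1), x i • ee i := by
  simp [PP, inner_ee]

lemma WW_eq (n : ℕ) (x : H2) : WW n x = ∑ i ∈ Finset.range (n + 1), x (n - i) • ee i := by
  simp [WW, inner_ee]

lemma sum_coe_apply (s : Finset ℕ) (c : ℕ → ℂ) (j : ℕ) :
    (∑ i ∈ s, c i • ee i : H2) j = if j ∈ s then c j else 0 := by
  rw [← inner_ee, inner_sum]
  simp_rw [inner_smul_right, inner_ee, ee_apply]
  simp

lemma PP_apply (n : ℕ) (x : H2) (j : ℕ) : (PP n x) j = if j ≤ n then x j else 0 := by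
  rw [PP_eq, sum_coe_apply]
  simp [Nat.lt_succ_iff]

lemma WW_apply (n : ℕ) (x : H2) (j : ℕ) : (WW n x) j = if j ≤ n then x (n - j) else 0 := by
  rw [WW_eq]
  have := sum_coe_apply (Finset.range (n + 1)) (fun i => x (n - i)) j
  rw [this]
  simp [Nat.lt_succ_iff]

lemma PP_sa (n : ℕ) (x y : H2) : inner ℂ (PP n x) y = inner ℂ x (PP n y) := by
  rw [PP_eq, PP_eq, sum_inner, inner_sum]
  apply Finset.sum_congr rfl
  intro i _
  rw [inner_smul_left, inner_smul_right, inner_ee, inner_ee_right]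
  ring

lemma WW_sa (n : ℕ) (x y : H2) : inner ℂ (WW n x) y = inner ℂ x (WW n y) := by
  rw [WW_eq, WW_eq, sum_inner, inner_sum]
  rw [← Finset.sum_range_reflect]
  apply Finset.sum_congr rfl
  intro i hi
  rw [Finset.mem_range] at hi
  rw [inner_smul_left, inner_smul_right, inner_ee, inner_ee_right]
  have : n - (n + 1 - 1 - i) = i := by omega
  rw [this]
  have : n + 1 - 1 - i = n - i := by omega
  rw [this]
  ring

lemma PP_PP (n : ℕ) (x : H2) : PP n (PP n x) = PP n x := by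
  ext j
  simp only [PP_apply]
  split_ifs <;> rfl

lemma PP_WW (n : ℕ) (x : H2) : PP n (WW n x) = WW n x := by
  ext j
  simp only [PP_apply, WW_apply]
  split_ifs <;> rfl

lemma WW_PP (n : ℕ) (x : H2) : WW n (PP n x) = WW n x := by
  ext j
  simp only [PP_apply, WW_apply]
  split_ifs with h1 h2
  · rfl
  · omega
  · rfl

lemma WW_WW (n : ℕ) (x : H2) : WW n (WW n x) = PP n x := by
  ext j
  simp only [PP_apply, WW_apply]
  split_ifs with h1 h2
  · rw [Nat.sub_sub_self h1]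
  · omega
  · rfl

lemma PP_norm_le (n : ℕ) (x : H2) : ‖PP n x‖ ≤ ‖x‖ := by
  apply le_of_inner
  rw [PP_sa, PP_PP]

lemma WW_norm_le (n : ℕ) (x : H2) : ‖WW n x‖ ≤ ‖x‖ := by
  have h : ‖WW n x‖ ^ 2 ≤ ‖x‖ * ‖x‖ := by
    refine (sq_le_of_inner (WW n x) x (PP n x) ?_).trans ?_
    · rw [WW_sa, WW_WW]
    · exact mul_le_mul_of_nonneg_left (PP_norm_le n x) (norm_nonneg _)
  nlinarith [norm_nonneg x, norm_nonneg (WW n x)]

lemma PP_tendsto (x : H2) : Tendsto (fun n => PP n x) atTop (𝓝 x) := by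
  have h := lp.hasSum_single (p := 2) (by simp) x
  have h2 := h.tendsto_sum_nat
  have h3 : (fun n => PP n x) = fun n => ∑ i ∈ Finset.range (n + 1), lp.single 2 i (x i) := by
    ext1 n
    rw [PP_eq]
    apply Finset.sum_congr rfl
    intro i _
    unfold ee
    rw [← lp.single_smul]
    simp
  rw [h3]
  exact h2.comp (tendsto_add_atTop_nat 1)

/-- adjoint -/
def Ts : H2 →L[ℂ] H2 := ContinuousLinearMap.adjoint Tt

lemma T_entry (i k : ℕ) : inner ℂ (ee i) (Tt (ee k)) = cf ((i : ℤ) - k) := by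
  rw [inner_ee]; exact Tt_entry i k

lemma Ts_entry (i k : ℕ) : inner ℂ (ee i) (Ts (ee k)) = cf ((k : ℤ) - i) := by
  rw [inner_ee]; exact Tt_adj_entry i k

lemma TP_apply (n : ℕ) (x : H2) (j : ℕ) : (Tt (PP n x)) j = ∑ k ∈ Finset.range (n + 1), x k * cf ((j : ℤ) - k) := by
  rw [PP_eq, ← inner_ee, map_sum, inner_sum]
  apply Finset.sum_congr rfl
  intro k _
  rw [map_smul, inner_smul_right, T_entry]

lemma TsP_apply (n : ℕ) (x : H2) (j : ℕ) : (Ts (PP n x)) j = ∑ k ∈ Finset.range (n + 1), x k * cf ((k : ℤ) - j) := by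
  rw [PP_eq, ← inner_ee, map_sum, inner_sum]
  apply Finset.sum_congr rfl
  intro k _
  rw [map_smul, inner_smul_right, Ts_entry]

lemma WTW (n : ℕ) (x : H2) : WW n (Tt (WW n x)) = PP n (Ts (PP n x)) := by
  ext j
  rw [← PP_WW n x, WW_apply, PP_apply]
  split_ifs with h
  · rw [TP_apply, TsP_apply, ← Finset.sum_range_reflect]
    apply Finset.sum_congr rfl
    intro k hk
    rw [Finset.mem_range] at hk
    rw [WW_apply, if_pos (by omega), show n - (n + 1 - 1 - k) = k by omega]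
    congr 2
    omega
  · rfl

lemma WTsW (n : ℕ) (x : H2) : WW n (Ts (WW n x)) = PP n (Tt (PP n x)) := by
  ext j
  rw [← PP_WW n x, WW_apply, PP_apply]
  split_ifs with h
  · rw [TP_apply, TsP_apply, ← Finset.sum_range_reflect]
    apply Finset.sum_congr rfl
    intro k hk
    rw [Finset.mem_range] at hk
    rw [WW_apply, if_pos (by omega), show n - (n + 1 - 1 - k) = k by omega]
    congr 2
    omega
  · rfl

/-- P T P = P T -/
lemma PTP (n : ℕ) (x : H2) : PP n (Tt (PP n x)) = PP n (Tt x) := by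
  have h : PP n (Tt (x - PP n x)) = 0 := by
    apply ext_inner_left ℂ
    intro y
    rw [← PP_sa, inner_zero_right, PP_eq, sum_inner]
    apply Finset.sum_eq_zero
    intro i hi
    rw [inner_smul_left]
    have h2 : inner ℂ (ee i) (Tt (x - PP n x)) = 0 := by
      have h3 : Tendsto (fun m => inner ℂ (ee i) (Tt (PP m (x - PP n x)))) atTop (𝓝 (inner ℂ (ee i) (Tt (x - PP n x)))) := by
        apply Filter.Tendsto.inner tendsto_const_nhds
        exact (Tt.continuous.tendsto _).comp (PP_tendsto _)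
      have h4 : (fun m => inner ℂ (ee i) (Tt (PP m (x - PP n x)))) = fun _ => 0 := by
        ext1 m
        rw [inner_ee, TP_apply]
        apply Finset.sum_eq_zero
        intro k _
        rcases le_or_gt k n with hk | hk
        · have : (x - PP n x) k = 0 := by
            rw [lp.coeFn_sub, Pi.sub_apply, PP_apply, if_pos hk, sub_self]
          rw [this, zero_mul]
        · rw [cf_neg, mul_zero]
          rw [Finset.mem_range] at hi
          omega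
      rw [h4] at h3
      exact tendsto_nhds_unique h3 tendsto_const_nhds
    rw [h2, mul_zero]
  rw [map_sub, map_sub, sub_eq_zero] at h
  exact h.symm

lemma Ts_Tt (x : H2) : Ts (Tt x) = x := Tt_adj_comp x

lemma Ts_norm_le (x : H2) : ‖Ts x‖ ≤ ‖x‖ := by
  have h : ‖Ts x‖ ^ 2 ≤ ‖x‖ * ‖Tt (Ts x)‖ := by
    apply sq_le_of_inner
    unfold Ts
    rw [ContinuousLinearMap.adjoint_inner_left]
  rw [Tt_norm] at h
  by_cases h0 : ‖Ts x‖ = 0
  · rw [h0]; exact norm_nonneg _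
  · have : 0 < ‖Ts x‖ := lt_of_le_of_ne (norm_nonneg _) (Ne.symm h0)
    nlinarith

/-- The sequences -/
def AA (n : ℕ) : H2 →L[ℂ] H2 := PP n * 1 * PP n - (PP n * Tt * PP n) * (PP n * Ts * PP n)
def BB (n : ℕ) : H2 →L[ℂ] H2 := PP n * 1 * PP n - (PP n * Ts * PP n) * (PP n * Tt * PP n)
def ZZ (n : ℕ) : H2 →L[ℂ] H2 := AA n * BB n

lemma AA_apply (n : ℕ) (x : H2) : AA n x = PP n x - PP n (Tt (Ts (PP n x))) := by
  simp only [AA, sub_apply, mul_apply_eq_comp, one_apply_eq_self, PP_PP]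
  rw [PTP]

lemma BB_apply (n : ℕ) (x : H2) : BB n x = PP n x - PP n (Ts (PP n (Tt (PP n x)))) := by
  simp only [BB, sub_apply, mul_apply_eq_comp, one_apply_eq_self, PP_PP]

lemma WAW (n : ℕ) (x : H2) : WW n (AA n (WW n x)) = BB n x := by
  have h1 : AA n (WW n x) = WW n x - PP n (Tt (PP n (PP n (Ts (PP n (WW n x)))))) := by
    simp only [AA, sub_apply, mul_apply_eq_comp, one_apply_eq_self, PP_PP, PP_WW]
  rw [h1, map_sub, WW_WW, WW_PP, PP_PP, PP_WW, BB_apply]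
  congr 1
  rw [← WW_WW n (Ts (WW n x)), WTsW, WTW, PP_PP]

lemma AA_apply2 (n : ℕ) (x : H2) : AA n x = PP n (PP n x - Tt (Ts (PP n x))) := by
  rw [AA_apply, map_sub, PP_PP]

lemma DD_norm (y : H2) : ‖y - Tt (Ts y)‖ ≤ ‖y‖ := by
  apply le_of_inner
  have h : inner ℂ (Tt (Ts y)) (y - Tt (Ts y)) = 0 := by
    have h1 : inner ℂ (Tt (Ts y)) (y - Tt (Ts y)) = inner ℂ (Ts y) (Ts (y - Tt (Ts y))) := by
      unfold Ts
      rw [ContinuousLinearMap.adjoint_inner_right]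
    rw [h1, map_sub, Ts_Tt, sub_self, inner_zero_right]
  rw [inner_sub_left, h, sub_zero]

lemma AA_norm_le (n : ℕ) (x : H2) : ‖AA n x‖ ≤ ‖x‖ := by
  rw [AA_apply2]
  exact (PP_norm_le _ _).trans ((DD_norm _).trans (PP_norm_le _ _))

lemma AA_sa (n : ℕ) (x y : H2) : inner ℂ (AA n x) y = inner ℂ x (AA n y) := by
  rw [AA_apply, AA_apply, inner_sub_left, inner_sub_right, PP_sa, PP_sa]
  congr 1
  rw [← PP_sa n x]
  unfold Ts
  have h1 : inner ℂ (Tt ((ContinuousLinearMap.adjoint Tt) ((PP n) x))) ((PP n) y) =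
    inner ℂ ((ContinuousLinearMap.adjoint Tt) ((PP n) x)) ((ContinuousLinearMap.adjoint Tt) ((PP n) y)) := by
    rw [ContinuousLinearMap.adjoint_inner_right]
  rw [h1, ContinuousLinearMap.adjoint_inner_left]

lemma BB_norm_le (n : ℕ) (x : H2) : ‖BB n x‖ ≤ ‖x‖ := by
  rw [← WAW]
  exact (WW_norm_le _ _).trans ((AA_norm_le _ _).trans (WW_norm_le _ _))

lemma tendsto_op (A : ℕ → H2 →L[ℂ] H2) (hA : ∀ n x, ‖A n x‖ ≤ ‖x‖) (A0 : H2 →L[ℂ] H2)
    (hA0 : ∀ x, Tendsto (fun n => A n x) atTop (𝓝 (A0 x))) (y : ℕ → H2) (y0 : H2)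
    (hy : Tendsto y atTop (𝓝 y0)) : Tendsto (fun n => A n (y n)) atTop (𝓝 (A0 y0)) := by
  have h1 : Tendsto (fun n => A n (y n - y0)) atTop (𝓝 0) := by
    apply squeeze_zero_norm (fun n => hA n (y n - y0))
    have h2 := (hy.sub_const y0).norm
    simpa using h2
  have h2 := h1.add (hA0 y0)
  rw [zero_add] at h2
  refine h2.congr ?_
  intro n
  rw [← map_add, sub_add_cancel]

lemma PP_tendsto' (y : ℕ → H2) (y0 : H2)
    (hy : Tendsto y atTop (𝓝 y0)) : Tendsto (fun n => PP n (y n)) atTop (𝓝 y0) :=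
  tendsto_op PP PP_norm_le 1 PP_tendsto y y0 hy

lemma AA_tendsto (x : H2) : Tendsto (fun n => AA n x) atTop (𝓝 ((1 - Tt * Ts : H2 →L[ℂ] H2) x)) := by
  simp_rw [AA_apply]
  apply Tendsto.sub (PP_tendsto x)
  apply PP_tendsto'
  exact (Tt.continuous.tendsto _).comp ((Ts.continuous.tendsto _).comp (PP_tendsto x))

lemma BB_tendsto (x : H2) : Tendsto (fun n => BB n x) atTop (𝓝 ((0 : H2 →L[ℂ] H2) x)) := by
  simp_rw [BB_apply]
  have h : ((0 : H2 →L[ℂ] H2) x) = x - Ts (Tt x) := by rw [Ts_Tt]; simp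
  rw [h]
  apply Tendsto.sub (PP_tendsto x)
  apply PP_tendsto'
  refine (Ts.continuous.tendsto _).comp ?_
  apply PP_tendsto'
  exact (Tt.continuous.tendsto _).comp (PP_tendsto x)

lemma ZZ_tendsto (x : H2) : Tendsto (fun n => ZZ n x) atTop (𝓝 0) := by
  have h := tendsto_op AA AA_norm_le _ AA_tendsto (fun n => BB n x) _ (BB_tendsto x)
  simpa [ZZ] using h

lemma WZW (n : ℕ) (x : H2) : WW n (ZZ n (WW n x)) = BB n (AA n x) := by
  have h1 : BB n (WW n x) = WW n (AA n x) := by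
    rw [← WAW, WW_WW]
    congr 1
    rw [AA_apply, PP_PP, ← AA_apply]
  have h2 : ZZ n (WW n x) = AA n (BB n (WW n x)) := rfl
  rw [h2, h1, WAW]

lemma WZW_tendsto (x : H2) : Tendsto (fun n => WW n (ZZ n (WW n x))) atTop (𝓝 0) := by
  simp_rw [WZW]
  have h := tendsto_op BB BB_norm_le _ BB_tendsto (fun n => AA n x) _ (AA_tendsto x)
  simpa using h

lemma ZZ_WW (n : ℕ) (x : H2) : ZZ n (WW n x) = AA n (WW n (AA n x)) := by
  have h1 : BB n (WW n x) = WW n (AA n x) := by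
    rw [← WAW, WW_WW]
    congr 1
    rw [AA_apply, PP_PP, ← AA_apply]
  have h2 : ZZ n (WW n x) = AA n (BB n (WW n x)) := rfl
  rw [h2, h1]

/-- weak convergence from coordinates -/
lemma weak_of_coord (x : ℕ → H2) (hb : ∀ n, ‖x n‖ ≤ 1) (hc : ∀ j, Tendsto (fun n => (x n) j) atTop (𝓝 0))
    (z : H2) : Tendsto (fun n => inner ℂ z (x n)) atTop (𝓝 0) := by
  rw [Metric.tendsto_atTop]
  intro ε hε
  obtain ⟨m, hm⟩ : ∃ m, ‖z - PP m z‖ < ε / 2 := by
    have h := (PP_tendsto z)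
    rw [Metric.tendsto_atTop] at h
    obtain ⟨m, hm⟩ := h (ε / 2) (by positivity)
    refine ⟨m, ?_⟩
    have := hm m le_rfl
    rwa [dist_comm, dist_eq_norm] at this
  have h2 : Tendsto (fun n => inner ℂ (PP m z) (x n)) atTop (𝓝 0) := by
    have h3 : (fun n => inner ℂ (PP m z) (x n)) = fun n => ∑ i ∈ Finset.range (m + 1), conj (z i) * (x n) i := by
      ext1 n
      rw [PP_eq, sum_inner]
      apply Finset.sum_congr rfl
      intro i _
      rw [inner_smul_left, inner_ee]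
    rw [h3]
    have h4 : Tendsto (fun n => ∑ i ∈ Finset.range (m + 1), conj (z i) * (x n) i) atTop (𝓝 (∑ i ∈ Finset.range (m + 1), conj (z i) * 0)) := by
      apply tendsto_finsetSum
      intro i _
      exact (hc i).const_mul _
    simpa using h4
  rw [Metric.tendsto_atTop] at h2
  obtain ⟨N, hN⟩ := h2 (ε / 2) (by positivity)
  refine ⟨N, fun n hn => ?_⟩
  have h5 := hN n hn
  rw [dist_zero_right] at h5 ⊢
  have h6 : inner ℂ z (x n) = inner ℂ (z - PP m z) (x n) + inner ℂ (PP m z) (x n) := by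
    rw [← inner_add_left, sub_add_cancel]
  rw [h6]
  have h7 : ‖inner ℂ (z - PP m z) (x n)‖ ≤ ‖z - PP m z‖ * ‖x n‖ := norm_inner_le_norm _ _
  have h8 : ‖z - PP m z‖ * ‖x n‖ ≤ ‖z - PP m z‖ * 1 := mul_le_mul_of_nonneg_left (hb n) (norm_nonneg _)
  calc _ ≤ ‖inner ℂ (z - PP m z) (x n)‖ + ‖inner ℂ (PP m z) (x n)‖ := norm_add_le _ _
    _ < ε := by linarith

lemma compact_weak (K : H2 →L[ℂ] H2) (hK : IsCompactOperator K) (x : ℕ → H2) (hb : ∀ n, ‖x n‖ ≤ 1)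
    (hc : ∀ j, Tendsto (fun n => (x n) j) atTop (𝓝 0)) : Tendsto (fun n => K (x n)) atTop (𝓝 0) := by
  obtain ⟨C, hC, hCs⟩ := hK.image_closedBall_subset_compact 1
  apply tendsto_of_subseq_tendsto
  intro ns hns
  have hmem : ∀ n, K (x (ns n)) ∈ C := by
    intro n
    apply hCs
    exact ⟨x (ns n), by simpa using hb (ns n), rfl⟩
  obtain ⟨y, _, φ, hφ, hy⟩ := hC.tendsto_subseq hmem
  refine ⟨φ, ?_⟩
  have hy0 : y = 0 := by
    apply ext_inner_left ℂ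
    intro z
    rw [inner_zero_right]
    have h1 : Tendsto (fun n => inner ℂ z (K (x (ns (φ n))))) atTop (𝓝 (inner ℂ z y)) :=
      Tendsto.inner tendsto_const_nhds hy
    have h2 : Tendsto (fun n => inner ℂ z (K (x (ns (φ n))))) atTop (𝓝 0) := by
      have h3 := weak_of_coord x hb hc (ContinuousLinearMap.adjoint K z)
      have h4 := h3.comp (hns.comp hφ.tendsto_atTop)
      refine h4.congr ?_
      intro n
      simp only [Function.comp]
      rw [ContinuousLinearMap.adjoint_inner_left]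
    exact tendsto_nhds_unique h1 h2
  rw [← hy0]
  exact hy

/-- normalized kernel vectors -/
lemma memlp_u {ρ : ℝ} (h0 : 0 ≤ ρ) (h1 : ρ < 1) :
    Memℓp (fun j : ℕ => ((Real.sqrt (1 - ρ ^ 2) * ρ ^ j : ℝ) : ℂ)) 2 := by
  apply memℓp_gen
  have h : Summable (fun j : ℕ => (1 - ρ ^ 2) * (ρ ^ 2) ^ j) := by
    apply Summable.mul_left
    apply summable_geometric_of_lt_one (by positivity)
    nlinarith
  refine h.congr ?_
  intro j
  have h2 : (0 : ℝ) ≤ 1 - ρ ^ 2 := by nlinarith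
  simp only [ENNReal.toReal_ofNat, Real.rpow_ofNat, Complex.norm_real, Real.norm_eq_abs, sq_abs]
  rw [mul_pow, Real.sq_sqrt h2]
  ring

def uu (ρ : ℝ) (h0 : 0 ≤ ρ) (h1 : ρ < 1) : H2 := ⟨_, memlp_u h0 h1⟩

lemma uu_apply (ρ : ℝ) (h0 : 0 ≤ ρ) (h1 : ρ < 1) (j : ℕ) :
    uu ρ h0 h1 j = ((Real.sqrt (1 - ρ ^ 2) * ρ ^ j : ℝ) : ℂ) := rfl

lemma uu_norm (ρ : ℝ) (h0 : 0 ≤ ρ) (h1 : ρ < 1) : ‖uu ρ h0 h1‖ ^ 2 = 1 := by
  have h := lp.norm_rpow_eq_tsum (p := 2) (by simp) (uu ρ h0 h1)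
  simp only [ENNReal.toReal_ofNat, Real.rpow_ofNat] at h
  rw [h]
  have h2 : (0 : ℝ) ≤ 1 - ρ ^ 2 := by nlinarith
  have h3 : (0 : ℝ) < 1 - ρ ^ 2 := by nlinarith
  have e : ∀ j : ℕ, ‖uu ρ h0 h1 j‖ ^ 2 = (1 - ρ ^ 2) * (ρ ^ 2) ^ j := by
    intro j
    rw [uu_apply, Complex.norm_real, Real.norm_eq_abs, sq_abs, mul_pow, Real.sq_sqrt h2]
    ring
  simp_rw [e]
  rw [tsum_mul_left, tsum_geometric_of_lt_one (by positivity) (by nlinarith)]
  field_simp

lemma PP_norm_sq (n : ℕ) (x : H2) : ‖PP n x‖ ^ 2 = ∑ i ∈ Finset.range (n + 1), ‖x i‖ ^ 2 := by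
  have h1 : ((‖PP n x‖ : ℂ)) ^ 2 = inner ℂ (PP n x) (PP n x) := by
    rw [inner_self_eq_norm_sq_to_K]; rfl
  have h1' : inner ℂ (PP n x) (PP n x) = inner ℂ (PP n x) x := by
    rw [← PP_sa, PP_PP]
  have h2 : ((‖PP n x‖ : ℂ)) ^ 2 = ((∑ i ∈ Finset.range (n + 1), ‖x i‖ ^ 2 : ℝ) : ℂ) := by
    rw [h1, h1', PP_eq, sum_inner]
    push_cast
    apply Finset.sum_congr rfl
    intro i _
    rw [inner_smul_left, inner_ee, mul_comm, Complex.mul_conj, Complex.normSq_eq_norm_sq]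
    push_cast
    rfl
  exact_mod_cast h2

lemma PP_pyth (n : ℕ) (x : H2) : ‖x - PP n x‖ ^ 2 = ‖x‖ ^ 2 - ‖PP n x‖ ^ 2 := by
  have h : inner ℂ (x - PP n x) (PP n x) = 0 := by
    rw [← PP_sa, map_sub, PP_PP, sub_self, inner_zero_left]
  have h2 := norm_add_sq_eq_norm_sq_add_norm_sq_of_inner_eq_zero (x - PP n x) (PP n x) h
  rw [sub_add_cancel] at h2
  nlinarith

lemma uu_tail (ρ : ℝ) (h0 : 0 ≤ ρ) (h1 : ρ < 1) (n : ℕ) :
    ‖uu ρ h0 h1 - PP n (uu ρ h0 h1)‖ = ρ ^ (n + 1) := by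
  have h2 : (0 : ℝ) ≤ 1 - ρ ^ 2 := by nlinarith
  have h : ‖uu ρ h0 h1 - PP n (uu ρ h0 h1)‖ ^ 2 = (ρ ^ (n + 1)) ^ 2 := by
    rw [PP_pyth, uu_norm, PP_norm_sq]
    have e : ∀ j : ℕ, ‖uu ρ h0 h1 j‖ ^ 2 = (1 - ρ ^ 2) * (ρ ^ 2) ^ j := by
      intro j
      rw [uu_apply, Complex.norm_real, Real.norm_eq_abs, sq_abs, mul_pow, Real.sq_sqrt h2]
      ring
    simp_rw [e]
    rw [← Finset.mul_sum, mul_neg_geom_sum]
    ring
  have h3 := abs_eq_abs.mpr (Or.inl (rfl : ρ ^ (n + 1) = ρ ^ (n + 1)))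
  rw [sq_eq_sq₀ (norm_nonneg _) (by positivity)] at h
  exact h

lemma Ts_uu (ρ : ℝ) (h0 : 0 ≤ ρ) (h1 : ρ < 1) :
    Ts (uu ρ h0 h1) = (Sf ρ) • uu ρ h0 h1 := by
  ext k
  rw [← inner_ee]
  unfold Ts
  rw [ContinuousLinearMap.adjoint_inner_right, lp.coeFn_smul, Pi.smul_apply, smul_eq_mul]
  have hT : Tt (ee k) = vk k := Tt_single k
  rw [hT, lp.inner_eq_tsum]
  have h : HasSum (fun j : ℕ => inner ℂ (vk k j) (uu ρ h0 h1 j)) (Sf ρ * uu ρ h0 h1 k) := by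
    have h2 := (cf_hasSum h0 h1).mul_right (uu ρ h0 h1 k)
    rw [← hasSum_nat_add_iff' (f := fun j : ℕ => inner ℂ (vk k j) (uu ρ h0 h1 j)) k]
    have h3 : ∑ i ∈ Finset.range k, inner ℂ (vk k i) (uu ρ h0 h1 i) = 0 := by
      apply Finset.sum_eq_zero
      intro i hi
      rw [Finset.mem_range] at hi
      rw [vk_apply, cf_neg _ (by omega), inner_zero_left]
    rw [h3, sub_zero]
    have e : (fun n : ℕ => inner ℂ (vk k (n + k)) (uu ρ h0 h1 (n + k))) = fun j : ℕ => cf j * (ρ : ℂ) ^ j * uu ρ h0 h1 k := by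
      ext1 j
      rw [vk_apply, uu_apply, uu_apply, RCLike.inner_apply', show (((j + k : ℕ) : ℤ) - (k : ℤ)) = (j : ℤ) by push_cast; ring]
      rw [cf_real]
      push_cast
      ring
    rw [e]
    exact h2
  exact h.tsum_eq

lemma WW_uu (ρ : ℝ) (h0 : 0 ≤ ρ) (h1 : ρ < 1) (n : ℕ) :
    inner ℂ (WW n (uu ρ h0 h1)) (PP n (uu ρ h0 h1)) = (((n + 1) * (1 - ρ ^ 2) * ρ ^ n : ℝ) : ℂ) := by
  have h2 : (0 : ℝ) ≤ 1 - ρ ^ 2 := by nlinarith
  rw [← PP_sa, PP_WW, WW_eq, sum_inner]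
  have h : ∀ i ∈ Finset.range (n + 1), inner ℂ ((uu ρ h0 h1) (n - i) • ee i) (uu ρ h0 h1) = (((1 - ρ ^ 2) * ρ ^ n : ℝ) : ℂ) := by
    intro i hi
    rw [Finset.mem_range] at hi
    rw [inner_smul_left, inner_ee, uu_apply, uu_apply, Complex.conj_ofReal, ← Complex.ofReal_mul]
    congr 1
    have h4 : ρ ^ n = ρ ^ (n - i) * ρ ^ i := by
      rw [← pow_add]; congr 1; omega
    rw [h4]
    calc _ = (Real.sqrt (1 - ρ ^ 2)) ^ 2 * (ρ ^ (n - i) * ρ ^ i) := by ring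
      _ = _ := by rw [Real.sq_sqrt h2]
  rw [Finset.sum_congr rfl h]
  simp
  ring

lemma AA_uu (ρ : ℝ) (h0 : 0 ≤ ρ) (h1 : ρ < 1) (n : ℕ) :
    ‖AA n (PP n (uu ρ h0 h1)) - PP n (uu ρ h0 h1)‖ ≤ ‖Sf ρ‖ + ρ ^ (n + 1) := by
  set u := uu ρ h0 h1 with hu
  have e : AA n (PP n u) - PP n u = PP n (Tt (Ts (u - PP n u))) - Sf ρ • PP n (Tt u) := by
    rw [AA_apply, PP_PP, map_sub, map_sub, map_sub, hu, Ts_uu, map_smul, map_smul, ← hu]
    abel
  rw [e]
  refine (norm_sub_le _ _).trans ?_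
  rw [add_comm]
  apply add_le_add
  · rw [norm_smul]
    have h3 : ‖PP n (Tt u)‖ ≤ 1 := by
      refine (PP_norm_le _ _).trans ?_
      rw [Tt_norm]
      have := uu_norm ρ h0 h1
      nlinarith [norm_nonneg u]
    calc _ ≤ ‖Sf ρ‖ * 1 := mul_le_mul_of_nonneg_left h3 (norm_nonneg _)
      _ = _ := mul_one _
  · refine (PP_norm_le _ _).trans ?_
    rw [Tt_norm]
    refine (Ts_norm_le _).trans ?_
    rw [hu, uu_tail]

lemma ZZ_lower (ρ : ℝ) (h0 : 0 ≤ ρ) (h1 : ρ < 1) (n : ℕ) :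
    (n + 1) * (1 - ρ ^ 2) * ρ ^ n - 2 * (‖Sf ρ‖ + ρ ^ (n + 1)) ≤ ‖ZZ n (WW n (uu ρ h0 h1))‖ := by
  have hAu := AA_uu ρ h0 h1 n
  have hWu := WW_uu ρ h0 h1 n
  have hn := uu_norm ρ h0 h1
  set u := uu ρ h0 h1 with hu
  have hn1 : ‖u‖ ≤ 1 := by nlinarith [norm_nonneg u]
  set e := AA n (PP n u) - PP n u with he
  have hZ : ZZ n (WW n u) = AA n (WW n (PP n u)) + AA n (WW n e) := by
    rw [ZZ_WW, ← map_add, ← map_add, he, add_sub_cancel]
    congr 2
    rw [AA_apply, AA_apply, PP_PP]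
  have h3 : ‖AA n (WW n e)‖ ≤ ‖e‖ := (AA_norm_le _ _).trans (WW_norm_le _ _)
  have h4 : ‖inner ℂ (AA n (WW n (PP n u))) (PP n u)‖ ≤ ‖AA n (WW n (PP n u))‖ := by
    refine (norm_inner_le_norm _ _).trans ?_
    have : ‖PP n u‖ ≤ 1 := (PP_norm_le _ _).trans hn1
    calc _ ≤ ‖AA n (WW n (PP n u))‖ * 1 := mul_le_mul_of_nonneg_left this (norm_nonneg _)
      _ = _ := mul_one _
  have h5 : inner ℂ (AA n (WW n (PP n u))) (PP n u) = inner ℂ (WW n u) (PP n u) + inner ℂ (WW n u) e := by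
    rw [AA_sa, ← inner_add_right, he, WW_PP]
    congr 1
    abel
  have h6 : ‖inner ℂ (WW n u) e‖ ≤ ‖e‖ := by
    refine (norm_inner_le_norm _ _).trans ?_
    have : ‖WW n u‖ ≤ 1 := (WW_norm_le _ _).trans hn1
    calc _ ≤ 1 * ‖e‖ := mul_le_mul_of_nonneg_right this (norm_nonneg _)
      _ = _ := one_mul _
  have h7 : (n + 1) * (1 - ρ ^ 2) * ρ ^ n ≤ ‖inner ℂ (WW n u) (PP n u)‖ := by
    rw [hWu, Complex.norm_real]
    exact Real.le_norm_self _
  have h8 : ‖inner ℂ (WW n u) (PP n u)‖ - ‖inner ℂ (WW n u) e‖ ≤ ‖inner ℂ (AA n (WW n (PP n u))) (PP n u)‖ := by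
    rw [h5]
    have := norm_sub_le (inner ℂ (WW n u) (PP n u) + inner ℂ (WW n u) e) (inner ℂ (WW n u) e)
    rw [add_sub_cancel_right] at this
    linarith
  have h9 : ‖AA n (WW n (PP n u))‖ - ‖AA n (WW n e)‖ ≤ ‖ZZ n (WW n u)‖ := by
    rw [hZ]
    have := norm_sub_le (AA n (WW n (PP n u)) + AA n (WW n e)) (AA n (WW n e))
    rw [add_sub_cancel_right] at this
    linarith
  linarith

/-- radii -/
def rr (n : ℕ) : ℝ := Real.exp (-(2 / ((n : ℝ) + 1)))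

lemma rr_pos (n : ℕ) : 0 < rr n := Real.exp_pos _

lemma rr_lt (n : ℕ) : rr n < 1 := by
  unfold rr
  rw [Real.exp_lt_one_iff]
  have : (0 : ℝ) < 2 / ((n : ℝ) + 1) := by positivity
  linarith

lemma rr_tendsto : Tendsto rr atTop (𝓝 1) := by
  unfold rr
  have h : Tendsto (fun n : ℕ => 2 / ((n : ℝ) + 1)) atTop (𝓝 0) := by
    have h1 := tendsto_one_div_add_atTop_nhds_zero_nat (𝕜 := ℝ)
    have h2 := h1.const_mul 2
    simpa [div_eq_mul_inv] using h2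
  have h2 : Tendsto (fun n : ℕ => Real.exp (-(2 / ((n : ℝ) + 1)))) atTop (𝓝 (Real.exp (-0))) :=
    (Real.continuous_exp.tendsto _).comp h.neg
  simpa using h2

lemma Sf_small {ρ : ℝ} (h1 : ρ < 1) : ‖Sf ρ‖ ≤ 1 - ρ := by
  rw [norm_Sf]
  have e : (Complex.normSq (ρ : ℂ) - 1) / Complex.normSq ((ρ : ℂ) - 1) = -((1 + ρ) / (1 - ρ)) := by
    have : ((ρ : ℂ) - 1) = ((ρ - 1 : ℝ) : ℂ) := by push_cast; ring
    rw [this, Complex.normSq_ofReal, Complex.normSq_ofReal]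
    have h3 : ρ - 1 ≠ 0 := by linarith
    have h4 : 1 - ρ ≠ 0 := by linarith
    field_simp
    ring
  rw [e, Real.exp_neg]
  have h3 : (0 : ℝ) < 1 - ρ := by linarith
  have h5 := Real.add_one_le_exp ((1 + ρ) / (1 - ρ))
  have h6 : 1 / (1 - ρ) ≤ (1 + ρ) / (1 - ρ) + 1 := by
    rw [div_add_one h3.ne', div_le_div_iff_of_pos_right h3]
    linarith
  have h7 : 1 / (1 - ρ) ≤ Real.exp ((1 + ρ) / (1 - ρ)) := h6.trans h5
  have h8 : (0 : ℝ) < 1 / (1 - ρ) := by positivity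
  have h9 := inv_anti₀ h8 h7
  simpa using h9

lemma rr_pow (n : ℕ) : rr n ^ (n + 1) = Real.exp (-2) := by
  unfold rr
  rw [← Real.exp_nat_mul]
  congr 1
  push_cast
  field_simp

lemma final_lower : ∀ᶠ n : ℕ in atTop, Real.exp (-2) ≤ ‖ZZ n (WW n (uu (rr n) (rr_pos n).le (rr_lt n)))‖ := by
  have hlim : Tendsto (fun n : ℕ => 4 * Real.exp (-2) * (rr n) ^ 2 - 2 * ((1 - rr n) + Real.exp (-2))) atTop
      (𝓝 (4 * Real.exp (-2) * 1 ^ 2 - 2 * ((1 - 1) + Real.exp (-2)))) := by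
    apply Tendsto.sub
    · exact (rr_tendsto.pow 2).const_mul _
    · apply Tendsto.const_mul
      exact (rr_tendsto.const_sub 1).add_const _
  have hpos : Real.exp (-2) < 4 * Real.exp (-2) * 1 ^ 2 - 2 * ((1 - 1) + Real.exp (-2)) := by
    have := Real.exp_pos (-2)
    linarith
  filter_upwards [hlim.eventually (lt_mem_nhds hpos)] with n hn
  refine hn.le.trans ?_
  refine le_trans ?_ (ZZ_lower (rr n) (rr_pos n).le (rr_lt n) n)
  rw [rr_pow]
  have h1 := Sf_small (rr_lt n)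
  have h2 : Real.exp (-2) ≤ rr n ^ n := by
    rw [← rr_pow n]
    exact pow_le_pow_of_le_one (rr_pos n).le (rr_lt n).le (Nat.le_succ n)
  have h3 : 4 * rr n ^ 2 ≤ (n + 1) * (1 - rr n ^ 2) := by
    have e : rr n ^ 2 = Real.exp (-(4 / ((n : ℝ) + 1))) := by
      unfold rr
      rw [← Real.exp_nat_mul]
      congr 1
      push_cast
      ring
    rw [e]
    have h5 := Real.add_one_le_exp (4 / ((n : ℝ) + 1))
    have h6 : 0 < Real.exp (-(4 / ((n : ℝ) + 1))) := Real.exp_pos _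
    have h7 : Real.exp (-(4 / ((n : ℝ) + 1))) * Real.exp (4 / ((n : ℝ) + 1)) = 1 := by
      rw [← Real.exp_add]; simp
    have h8 : Real.exp (-(4 / ((n : ℝ) + 1))) * (4 / ((n : ℝ) + 1) + 1) ≤ 1 := by
      calc _ ≤ _ := mul_le_mul_of_nonneg_left h5 h6.le
        _ = 1 := h7
    have h9 : (0 : ℝ) < (n : ℝ) + 1 := by positivity
    have h10 : Real.exp (-(4 / ((n : ℝ) + 1))) * (4 / ((n : ℝ) + 1)) ≤ 1 - Real.exp (-(4 / ((n : ℝ) + 1))) := by
      linarith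
    have h11 := mul_le_mul_of_nonneg_left h10 h9.le
    have h12 : ((n : ℝ) + 1) * (Real.exp (-(4 / ((n : ℝ) + 1))) * (4 / ((n : ℝ) + 1))) = 4 * Real.exp (-(4 / ((n : ℝ) + 1))) := by
      field_simp
    linarith
  have h4 : 4 * rr n ^ 2 * Real.exp (-2) ≤ (n + 1) * (1 - rr n ^ 2) * rr n ^ n := by
    apply mul_le_mul h3 h2 (Real.exp_pos _).le
    have := rr_lt n
    have := rr_pos n
    have : 0 ≤ 1 - rr n ^ 2 := by nlinarith
    positivity
  linarith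

end

end Pool.Agent.V1193
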