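import Mathlib

/-! A commutative unital Banach algebra with countably generated spectrum and non-separable
Gelfand space. -/

open Set Filter Topology Metric
open scoped BoundedContinuousFunction

namespace Pool.Agent.V1193.GelfandCE

/-- closed disc times `[0,1]` -/
def Om : Set (ℂ × ℝ) := closedBall 0 1 ×ˢ Icc 0 1

/-- the part of `Om` where `|z| = 1` or `t = 1` -/
def Kset : Set (ℂ × ℝ) := {p | p ∈ Om ∧ (‖p.1‖ = 1 ∨ p.2 = 1)}

/-- the space `K` -/
abbrev K : Type := ↥Kset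

/-- continuous families `t ↦ b(·,t)`, `t ∈ [0,1]`, of functions of the disc algebra -/
structure InB (b : ℂ × ℝ → ℂ) : Prop where
  cont : ContinuousOn b Om
  hol : ∀ t ∈ Icc (0:ℝ) 1, DiffContOnCl ℂ (fun z => b (z, t)) (ball 0 1)

lemma isCompact_Om : IsCompact Om := (isCompact_closedBall _ _).prod isCompact_Icc

lemma InB.const (c : ℂ) : InB (fun _ => c) := ⟨continuousOn_const, fun _ _ => diffContOnCl_const⟩

lemma InB.add {b b' : ℂ × ℝ → ℂ} (h : InB b) (h' : InB b') : InB (fun p => b p + b' p) :=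
  ⟨h.cont.add h'.cont, fun t ht => (h.hol t ht).add (h'.hol t ht)⟩

lemma InB.sub {b b' : ℂ × ℝ → ℂ} (h : InB b) (h' : InB b') : InB (fun p => b p - b' p) :=
  ⟨h.cont.sub h'.cont, fun t ht => (h.hol t ht).sub (h'.hol t ht)⟩

lemma InB.mul {b b' : ℂ × ℝ → ℂ} (h : InB b) (h' : InB b') : InB (fun p => b p * b' p) :=
  ⟨h.cont.mul h'.cont, fun t ht =>
    ⟨(h.hol t ht).1.mul (h'.hol t ht).1, (h.hol t ht).2.mul (h'.hol t ht).2⟩⟩

lemma InB.fst : InB (fun p => p.1) :=
  ⟨continuous_fst.continuousOn, fun _ _ => differentiable_id.diffContOnCl⟩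

lemma InB.snd : InB (fun p => (p.2 : ℂ)) :=
  ⟨(Complex.continuous_ofReal.comp continuous_snd).continuousOn, fun t _ =>
    (diffContOnCl_const : DiffContOnCl ℂ (fun _ : ℂ => (t:ℂ)) (ball 0 1))⟩

/-- the maximum principle on the slices -/
lemma max_slice {b : ℂ × ℝ → ℂ} (h : InB b) (C : ℝ) (t : ℝ) (ht : t ∈ Icc (0:ℝ) 1)
    (hC : ∀ z : ℂ, ‖z‖ = 1 → ‖b (z, t)‖ ≤ C) (z : ℂ) (hz : ‖z‖ ≤ 1) : ‖b (z, t)‖ ≤ C := by
  apply Complex.norm_le_of_forall_mem_frontier_norm_le isBounded_ball (h.hol t ht) (C := C)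
  · intro w hw
    rw [frontier_ball _ one_ne_zero, mem_sphere_zero_iff_norm] at hw
    exact hC w hw
  · rw [closure_ball _ one_ne_zero, mem_closedBall_zero_iff]; exact hz

/-- values at all points are bounded by the sup over `K` -/
lemma max_K {b : ℂ × ℝ → ℂ} (h : InB b) (C : ℝ) (hC : ∀ p ∈ Kset, ‖b p‖ ≤ C) (p : ℂ × ℝ)
    (hp : p ∈ Om) : ‖b p‖ ≤ C := by
  obtain ⟨z, t⟩ := p
  obtain ⟨hz, ht⟩ := hp
  simp only [mem_closedBall_zero_iff] at hz
  apply max_slice h C t ht _ z hz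
  intro w hw
  exact hC (w, t) ⟨⟨by simp [hw], ht⟩, Or.inl hw⟩

/-- the inverse on a slice -/
lemma slice_inv {b : ℂ × ℝ → ℂ} (h : InB b) (δ : ℝ) (hδ : 0 < δ)
    (hK : ∀ p ∈ Kset, δ ≤ ‖b p‖) (t : ℝ) (ht : t ∈ Icc (0:ℝ) 1)
    (hne : ∀ z : ℂ, ‖z‖ ≤ 1 → b (z, t) ≠ 0) (z : ℂ) (hz : ‖z‖ ≤ 1) : δ ≤ ‖b (z, t)‖ := by
  have hd : DiffContOnCl ℂ (fun z => (b (z, t))⁻¹) (ball 0 1) := by
    apply (h.hol t ht).inv
    intro w hw
    rw [closure_ball _ one_ne_zero, mem_closedBall_zero_iff] at hw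
    exact hne w hw
  have h1 : ‖(b (z, t))⁻¹‖ ≤ δ⁻¹ := by
    apply Complex.norm_le_of_forall_mem_frontier_norm_le isBounded_ball hd
    · intro w hw
      rw [frontier_ball _ one_ne_zero, mem_sphere_zero_iff_norm] at hw
      rw [norm_inv]
      exact inv_anti₀ hδ (hK (w, t) ⟨⟨by simp [hw], ht⟩, Or.inl hw⟩)
    · rw [closure_ball _ one_ne_zero, mem_closedBall_zero_iff]; exact hz
  rw [norm_inv] at h1
  exact (inv_le_inv₀ (norm_pos_iff.2 (hne z hz)) hδ).1 h1

/-- Key lemma: lower bounds on `K` propagate to `Om`. -/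
lemma lower_K {b : ℂ × ℝ → ℂ} (h : InB b) (δ : ℝ) (hδ : 0 < δ)
    (hK : ∀ p ∈ Kset, δ ≤ ‖b p‖) : ∀ p ∈ Om, δ ≤ ‖b p‖ := by
  -- no zeros
  have hnz : ∀ p ∈ Om, b p ≠ 0 := by
    by_contra hc
    push Not at hc
    obtain ⟨p0, hp0, hp0z⟩ := hc
    set Zs : Set (ℂ × ℝ) := Om ∩ b ⁻¹' {0} with hZs
    have hZc : IsCompact Zs := by
      apply isCompact_Om.of_isClosed_subset _ inter_subset_left
      exact h.cont.preimage_isClosed_of_isClosed isCompact_Om.isClosed isClosed_singleton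
    obtain ⟨p1, hp1, hmax⟩ := hZc.exists_isMaxOn ⟨p0, hp0, hp0z⟩ continuous_snd.continuousOn
    obtain ⟨z1, t1⟩ := p1
    obtain ⟨⟨hz1, ht1⟩, hb1⟩ := hp1
    simp only [mem_closedBall_zero_iff] at hz1
    have hb1' : b (z1, t1) = 0 := hb1
    have ht1lt : t1 < 1 := by
      rcases lt_or_eq_of_le ht1.2 with h' | h'
      · exact h'
      · exfalso
        have := hK (z1, t1) ⟨⟨by simpa using hz1, ht1⟩, Or.inr h'⟩
        rw [hb1', norm_zero] at this
        linarith
    -- for t > t1 no zeros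
    have hgt : ∀ t, t1 < t → t ≤ 1 → δ ≤ ‖b (z1, t)‖ := by
      intro t htt ht1'
      have htI : t ∈ Icc (0:ℝ) 1 := ⟨ht1.1.trans htt.le, ht1'⟩
      apply slice_inv h δ hδ hK t htI _ z1 hz1
      intro z hz hbz
      have := hmax (a := (z, t)) ⟨⟨by simpa using hz, htI⟩, hbz⟩
      exact absurd this (not_le.2 htt)
    -- limit
    have hcont : ContinuousWithinAt (fun t => ‖b (z1, t)‖) (Ioc t1 1) t1 := by
      have h1 : ContinuousOn (fun t : ℝ => b (z1, t)) (Icc 0 1) := by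
        apply h.cont.comp (by fun_prop)
        intro t ht
        exact ⟨by simpa using hz1, ht⟩
      exact ((h1 t1 ht1).mono (fun t ht => ⟨ht1.1.trans ht.1.le, ht.2⟩)).norm
    have hne : (𝓝[Ioc t1 1] t1).NeBot := by
      rw [nhdsWithin_Ioc_eq_nhdsGT ht1lt]; infer_instance
    have : δ ≤ ‖b (z1, t1)‖ := by
      apply ge_of_tendsto hcont.tendsto
      filter_upwards [self_mem_nhdsWithin] with t ht
      exact hgt t ht.1 ht.2
    rw [hb1', norm_zero] at this
    linarith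
  rintro ⟨z, t⟩ ⟨hz, ht⟩
  simp only [mem_closedBall_zero_iff] at hz
  apply slice_inv h δ hδ hK t ht _ z hz
  intro w hw
  exact hnz (w, t) ⟨by simpa using hw, ht⟩

lemma InB.inv {b : ℂ × ℝ → ℂ} (h : InB b) (hne : ∀ p ∈ Om, b p ≠ 0) : InB (fun p => (b p)⁻¹) := by
  refine ⟨h.cont.inv₀ hne, fun t ht => (h.hol t ht).inv ?_⟩
  intro w hw
  rw [closure_ball _ one_ne_zero, mem_closedBall_zero_iff] at hw
  exact hne (w, t) ⟨by simpa using hw, ht⟩

/-! ### the algebra -/

/-- `x_i` is within `ε` of `B` on `K` -/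
def Near (x : ℕ × K →ᵇ ℂ) (ε : ℝ) (i : ℕ) : Prop :=
  ∃ b, InB b ∧ ∀ k : K, ‖x (i, k) - b k.1‖ ≤ ε

/-- bounded continuous functions on `ℕ × K` whose slices approach `B` -/
noncomputable def Alg : Subalgebra ℂ (ℕ × K →ᵇ ℂ) where
  carrier := {x | ∀ ε : ℝ, 0 < ε → ∀ᶠ i in atTop, Near x ε i}
  mul_mem' := by
    intro x y hx hy ε hε
    set M := ‖x‖ + ‖y‖ + 1 with hM
    have hM0 : 0 < M := by positivity
    set η := min 1 (ε / (2 * M)) with hη
    have hη0 : 0 < η := lt_min one_pos (by positivity)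
    filter_upwards [hx η hη0, hy η hη0] with i ⟨b, hb, hbx⟩ ⟨c, hc, hcy⟩
    refine ⟨fun p => b p * c p, hb.mul hc, fun k => ?_⟩
    have h1 : ‖b k.1‖ ≤ M := by
      have := norm_sub_norm_le (b k.1) (x (i,k))
      rw [norm_sub_rev] at this
      have h2 := hbx k
      have h3 := x.norm_coe_le_norm (i, k)
      have h4 : η ≤ 1 := min_le_left _ _
      have h5 := norm_nonneg y
      linarith
    have h2 : ‖y (i, k)‖ ≤ M := by
      have h3 := y.norm_coe_le_norm (i, k)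
      have h5 := norm_nonneg x
      linarith
    have e : (x * y) (i, k) - b k.1 * c k.1 = (x (i,k) - b k.1) * y (i,k) +
        b k.1 * (y (i,k) - c k.1) := by
      rw [BoundedContinuousFunction.mul_apply]; ring
    rw [e]
    have h6 : η * M ≤ ε / 2 := by
      have : η ≤ ε / (2 * M) := min_le_right _ _
      calc η * M ≤ ε / (2 * M) * M := mul_le_mul_of_nonneg_right this hM0.le
        _ = ε / 2 := by field_simp
    calc ‖(x (i,k) - b k.1) * y (i,k) + b k.1 * (y (i,k) - c k.1)‖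
        ≤ ‖x (i,k) - b k.1‖ * ‖y (i,k)‖ + ‖b k.1‖ * ‖y (i,k) - c k.1‖ := by
          refine (norm_add_le _ _).trans ?_
          rw [norm_mul, norm_mul]
      _ ≤ η * M + M * η := by
          apply add_le_add
          · exact mul_le_mul (hbx k) h2 (norm_nonneg _) hη0.le
          · exact mul_le_mul h1 (hcy k) (norm_nonneg _) hM0.le
      _ ≤ ε := by linarith
  add_mem' := by
    intro x y hx hy ε hε
    filter_upwards [hx (ε/2) (by positivity), hy (ε/2) (by positivity)] with i ⟨b, hb, hbx⟩ ⟨c, hc, hcy⟩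
    refine ⟨fun p => b p + c p, hb.add hc, fun k => ?_⟩
    have e : (x + y) (i, k) - (b k.1 + c k.1) = (x (i,k) - b k.1) + (y (i,k) - c k.1) := by
      rw [BoundedContinuousFunction.add_apply]; ring
    rw [e]
    refine (norm_add_le _ _).trans ?_
    linarith [hbx k, hcy k]
  algebraMap_mem' := by
    intro c ε hε
    apply Eventually.of_forall
    intro i
    refine ⟨fun _ => c, InB.const c, fun k => ?_⟩
    have : (algebraMap ℂ (ℕ × K →ᵇ ℂ) c) (i, k) = c := by
      rw [BoundedContinuousFunction.algebraMap_apply]; simp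
    rw [this, sub_self, norm_zero]
    exact hε.le

lemma isClosed_Alg : IsClosed (Alg : Set (ℕ × K →ᵇ ℂ)) := by
  rw [← isSeqClosed_iff_isClosed]
  intro u x hu hx ε hε
  rw [Metric.tendsto_atTop] at hx
  obtain ⟨N, hN⟩ := hx (ε/2) (by positivity)
  have h1 := hN N le_rfl
  filter_upwards [hu N (ε/2) (by positivity)] with i ⟨b, hb, hbx⟩
  refine ⟨b, hb, fun k => ?_⟩
  have h2 : ‖x (i,k) - u N (i,k)‖ ≤ ε/2 := by
    rw [← dist_eq_norm, dist_comm]
    exact (BoundedContinuousFunction.dist_coe_le_dist (i,k)).trans h1.le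
  have e : x (i,k) - b k.1 = (x (i,k) - u N (i,k)) + (u N (i,k) - b k.1) := by ring
  rw [e]
  refine (norm_add_le _ _).trans ?_
  linarith [hbx k]

/-- the Banach algebra -/
abbrev A : Type := ↥Alg

noncomputable instance : NormedCommRing A := inferInstance
noncomputable instance : NormedAlgebra ℂ A := inferInstance
instance : CompleteSpace A := isClosed_Alg.completeSpace_coe

end Pool.Agent.V1193.GelfandCE
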