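import Pool.Agent.V1193.GelfandCE

/-! Characters and the spectrum of the algebra. -/

open Set Filter Topology Metric WeakDual
open scoped BoundedContinuousFunction

namespace Pool.Agent.V1193.GelfandCE

/-- evaluation at a point of `ℕ × K` -/
noncomputable def evHom (p : ℕ × K) : A →ₐ[ℂ] ℂ where
  toFun x := x.1 p
  map_one' := rfl
  map_mul' _ _ := rfl
  map_zero' := rfl
  map_add' _ _ := rfl
  commutes' c := by
    show (algebraMap ℂ (ℕ × K →ᵇ ℂ) c) p = c
    rw [BoundedContinuousFunction.algebraMap_apply]; simp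

/-- evaluation as a character -/
noncomputable def ev (p : ℕ × K) : characterSpace ℂ A := CharacterSpace.equivAlgHom.symm (evHom p)

lemma ev_apply (p : ℕ × K) (x : A) : ev p x = x.1 p := by
  unfold ev
  rw [CharacterSpace.equivAlgHom_symm_coe]
  rfl

/-- the pointwise inverse of a function bounded below -/
noncomputable def invFn (x : ℕ × K →ᵇ ℂ) (δ : ℝ) (hδ : 0 < δ) (h : ∀ p, δ ≤ ‖x p‖) :
    ℕ × K →ᵇ ℂ :=
  BoundedContinuousFunction.ofNormedAddCommGroup (fun p => (x p)⁻¹)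
    (x.continuous.inv₀ (fun p hp => by
      have := h p
      rw [hp, norm_zero] at this
      linarith)) δ⁻¹ (fun p => by
      rw [norm_inv]; exact inv_anti₀ hδ (h p))

lemma invFn_apply (x : ℕ × K →ᵇ ℂ) (δ : ℝ) (hδ : 0 < δ) (h : ∀ p, δ ≤ ‖x p‖) (p : ℕ × K) :
    invFn x δ hδ h p = (x p)⁻¹ := rfl

lemma invFn_mem (x : ℕ × K →ᵇ ℂ) (hx : x ∈ Alg) (δ : ℝ) (hδ : 0 < δ) (h : ∀ p, δ ≤ ‖x p‖) :
    invFn x δ hδ h ∈ Alg := by
  intro ε hε
  set η := min (δ/2) (ε * (δ * (δ/2))) with hη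
  have hη0 : 0 < η := lt_min (by positivity) (by positivity)
  filter_upwards [hx η hη0] with i ⟨b, hb, hbx⟩
  have hlow : ∀ p ∈ Kset, δ/2 ≤ ‖b p‖ := by
    intro p hp
    have h1 := hbx ⟨p, hp⟩
    have h2 := h (i, ⟨p, hp⟩)
    have h3 : η ≤ δ/2 := min_le_left _ _
    have h4 := norm_sub_norm_le (x (i, ⟨p, hp⟩)) (b p)
    simp only at h1
    linarith
  have hOm := lower_K hb (δ/2) (by positivity) hlow
  have hne : ∀ p ∈ Om, b p ≠ 0 := by
    intro p hp h0
    have := hOm p hp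
    rw [h0, norm_zero] at this
    linarith
  refine ⟨fun p => (b p)⁻¹, hb.inv hne, fun k => ?_⟩
  rw [invFn_apply]
  have hxk := h (i, k)
  have hbk := hlow k.1 k.2
  have hx0 : x (i,k) ≠ 0 := by intro h0; rw [h0, norm_zero] at hxk; linarith
  have hb0 : b k.1 ≠ 0 := hne k.1 k.2.1
  have e : (x (i,k))⁻¹ - (b k.1)⁻¹ = (b k.1 - x (i,k)) / (x (i,k) * b k.1) := by
    field_simp
  rw [e, norm_div, norm_mul, norm_sub_rev, div_le_iff₀ (by positivity)]
  have h5 : η ≤ ε * (δ * (δ/2)) := min_le_right _ _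
  calc ‖x (i,k) - b k.1‖ ≤ η := hbx k
    _ ≤ ε * (δ * (δ/2)) := h5
    _ ≤ ε * (‖x (i,k)‖ * ‖b k.1‖) := by
        apply mul_le_mul_of_nonneg_left _ hε.le
        exact mul_le_mul hxk hbk (by positivity) (norm_nonneg _)

/-- A dense countable set of points generates the spectrum. -/
lemma spectrum_eq (D : Set (ℕ × K)) (hD : Dense D) (x : A) :
    spectrum ℂ x = closure ((fun φ : characterSpace ℂ A => φ x) '' (ev '' D)) := by
  apply Subset.antisymm
  · intro l hl
    by_contra hc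
    rw [Metric.mem_closure_iff] at hc
    push Not at hc
    obtain ⟨δ, hδ, h⟩ := hc
    -- |x - l| ≥ δ on D, hence everywhere
    have h1 : ∀ p ∈ D, δ ≤ ‖x.1 p - l‖ := by
      intro p hp
      have := h (x.1 p) ⟨ev p, ⟨p, hp, rfl⟩, ev_apply p x⟩
      rw [dist_eq_norm, norm_sub_rev] at this
      exact this
    have h2 : ∀ p, δ ≤ ‖x.1 p - l‖ := by
      have hcl : IsClosed {p : ℕ × K | δ ≤ ‖x.1 p - l‖} :=
        isClosed_le continuous_const ((x.1.continuous.sub continuous_const).norm)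
      intro p
      exact hcl.closure_subset_iff.2 (fun q hq => h1 q hq) (hD p)
    -- the element x - l
    set y : A := x - algebraMap ℂ A l with hy
    have hyp : ∀ p, y.1 p = x.1 p - l := by
      intro p
      rw [hy]
      show x.1 p - (algebraMap ℂ (ℕ × K →ᵇ ℂ) l) p = _
      rw [BoundedContinuousFunction.algebraMap_apply]; simp
    have h3 : ∀ p, δ ≤ ‖y.1 p‖ := fun p => by rw [hyp]; exact h2 p
    have hunit : IsUnit y := by
      refine IsUnit.of_mul_eq_one ⟨invFn y.1 δ hδ h3, invFn_mem y.1 y.2 δ hδ h3⟩ ?_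
      apply Subtype.ext
      ext p
      show y.1 p * (y.1 p)⁻¹ = 1
      apply mul_inv_cancel₀
      intro h0
      have := h3 p
      rw [h0, norm_zero] at this
      linarith
    apply hl
    rw [spectrum.mem_resolventSet_iff]
    have : algebraMap ℂ A l - x = - y := by rw [hy]; ring
    rw [this]
    exact hunit.neg
  · apply closure_minimal
    · rintro _ ⟨φ, _, rfl⟩
      exact CharacterSpace.mem_spectrum_iff_exists.2 ⟨φ, rfl⟩
    · exact spectrum.isClosed x

/-! ### the almost disjoint family -/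

/-- code of the initial segment of length `n` of `a` -/
def code (a : ℕ → Bool) (n : ℕ) : ℕ := Encodable.encode ((List.range n).map a)

lemma code_eq {a b : ℕ → Bool} {n m : ℕ} (h : code a n = code b m) : n = m ∧ ∀ i < n, a i = b i := by
  have h1 := Encodable.encode_injective h
  have h2 : n = m := by
    have := congrArg List.length h1
    simpa using this
  subst h2
  refine ⟨rfl, fun i hi => ?_⟩
  have := List.map_inj_left.1 h1 i (List.mem_range.2 hi)
  exact this

/-- the set `N_a` -/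
def Na (a : ℕ → Bool) : Set ℕ := range (code a)

lemma Na_infinite (a : ℕ → Bool) : (Na a).Infinite :=
  infinite_range_of_injective (fun _ _ h => (code_eq h).1)

lemma Na_inter (a b : ℕ → Bool) (h : a ≠ b) : (Na a ∩ Na b).Finite := by
  obtain ⟨i0, hi0⟩ := Function.ne_iff.1 h
  apply ((Finset.range (i0+1)).finite_toSet.image (code a)).subset
  rintro _ ⟨⟨n, rfl⟩, m, hm⟩
  obtain ⟨h1, h2⟩ := code_eq hm
  refine ⟨n, ?_, rfl⟩
  simp only [Finset.coe_range, mem_Iio]
  by_contra hc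
  exact hi0 (h2 i0 (by omega)).symm

open Classical in
/-- the characteristic function of `S × K` -/
noncomputable def chi (S : Set ℕ) : ℕ × K →ᵇ ℂ :=
  BoundedContinuousFunction.ofNormedAddCommGroup (fun p => if p.1 ∈ S then 1 else 0)
    ((continuous_of_discreteTopology (f := fun n : ℕ => if n ∈ S then (1:ℂ) else 0)).comp
      continuous_fst) 1 (fun p => by
      split <;> simp)

open Classical in
lemma chi_apply (S : Set ℕ) (p : ℕ × K) : chi S p = if p.1 ∈ S then 1 else 0 := rfl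

lemma chi_mem (S : Set ℕ) : chi S ∈ Alg := by
  classical
  intro ε hε
  apply Eventually.of_forall
  intro i
  refine ⟨fun _ => if i ∈ S then 1 else 0, InB.const _, fun k => ?_⟩
  rw [chi_apply, sub_self, norm_zero]
  exact hε.le

/-- the idempotent `e_S` -/
noncomputable def eS (S : Set ℕ) : A := ⟨chi S, chi_mem S⟩

/-- the function `z` -/
noncomputable def zfn : ℕ × K →ᵇ ℂ :=
  BoundedContinuousFunction.ofNormedAddCommGroup (fun p => p.2.1.1)
    (continuous_fst.comp (continuous_subtype_val.comp continuous_snd)) 1 (fun p => by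
      have := p.2.2.1.1
      simpa using this)

/-- the function `t` -/
noncomputable def tfn : ℕ × K →ᵇ ℂ :=
  BoundedContinuousFunction.ofNormedAddCommGroup (fun p => (p.2.1.2 : ℂ))
    (Complex.continuous_ofReal.comp
      (continuous_snd.comp (continuous_subtype_val.comp continuous_snd))) 1 (fun p => by
      have := p.2.2.1.2
      simp only [Complex.norm_real, Real.norm_eq_abs, abs_le]
      exact ⟨by linarith [this.1], this.2⟩)

lemma zfn_mem : zfn ∈ Alg := by
  intro ε hε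
  apply Eventually.of_forall
  intro i
  refine ⟨fun p => p.1, InB.fst, fun k => ?_⟩
  show ‖k.1.1 - k.1.1‖ ≤ ε
  rw [sub_self, norm_zero]; exact hε.le

lemma tfn_mem : tfn ∈ Alg := by
  intro ε hε
  apply Eventually.of_forall
  intro i
  refine ⟨fun p => (p.2 : ℂ), InB.snd, fun k => ?_⟩
  show ‖(k.1.2 : ℂ) - (k.1.2 : ℂ)‖ ≤ ε
  rw [sub_self, norm_zero]; exact hε.le

/-- `z` as an element of `A` -/
noncomputable def zA : A := ⟨zfn, zfn_mem⟩
/-- `t` as an element of `A` -/
noncomputable def tA : A := ⟨tfn, tfn_mem⟩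

/-- a function supported on finitely many slices belongs to the algebra -/
lemma fin_mem (F : Set ℕ) (hF : F.Finite) (x : ℕ × K →ᵇ ℂ) (hx : ∀ i ∉ F, ∀ k : K, x (i, k) = 0) :
    x ∈ Alg := by
  intro ε hε
  obtain ⟨N, hN⟩ := hF.bddAbove
  filter_upwards [eventually_gt_atTop N] with i hi
  refine ⟨fun _ => 0, InB.const 0, fun k => ?_⟩
  rw [hx i (fun h => absurd (hN h) (not_le.2 hi)), sub_zero, norm_zero]
  exact hε.le

/-- the open sets -/
def Va (a : ℕ → Bool) : Set (characterSpace ℂ A) :=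
  {φ | φ (eS (Na a)) ≠ 0 ∧ ‖φ zA‖ < 1/2 ∧ ‖φ tA‖ < 1/2}

lemma continuous_apply_char (x : A) : Continuous (fun φ : characterSpace ℂ A => φ x) :=
  (WeakDual.eval_continuous x).comp continuous_subtype_val

lemma Va_open (a : ℕ → Bool) : IsOpen (Va a) := by
  have h1 : IsOpen {φ : characterSpace ℂ A | φ (eS (Na a)) ≠ 0} :=
    isOpen_ne_fun (continuous_apply_char _) continuous_const
  have h2 : IsOpen {φ : characterSpace ℂ A | ‖φ zA‖ < 1/2} :=
    isOpen_lt (continuous_apply_char _).norm continuous_const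
  have h3 : IsOpen {φ : characterSpace ℂ A | ‖φ tA‖ < 1/2} :=
    isOpen_lt (continuous_apply_char _).norm continuous_const
  exact h1.inter (h2.inter h3)

/-- a character with `|φ(z)|, |φ(t)| < 1/2` kills the idempotents of finite sets -/
lemma fin_zero (F : Set ℕ) (hF : F.Finite) (φ : characterSpace ℂ A) (hz : ‖φ zA‖ < 1/2)
    (ht : ‖φ tA‖ < 1/2) : φ (eS F) = 0 := by
  classical
  set u := φ zA with hu
  set v := φ tA with hv
  -- denominator
  set den : ℕ × K → ℝ := fun p => ‖p.2.1.1 - u‖^2 + ‖(p.2.1.2 : ℂ) - v‖^2 with hden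
  have hden_low : ∀ p, 1/4 ≤ den p := by
    intro p
    have h1 : 1/2 ≤ ‖p.2.1.1 - u‖ ∨ 1/2 ≤ ‖(p.2.1.2 : ℂ) - v‖ := by
      rcases p.2.2.2 with h | h
      · left
        have := norm_sub_norm_le p.2.1.1 u
        linarith
      · right
        have := norm_sub_norm_le (p.2.1.2 : ℂ) v
        rw [h] at this ⊢
        simp only [Complex.ofReal_one, norm_one] at this
        simp only [Complex.ofReal_one]
        linarith
    simp only [hden]
    rcases h1 with h | h
    · have := sq_nonneg ‖(p.2.1.2 : ℂ) - v‖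
      nlinarith
    · have := sq_nonneg ‖p.2.1.1 - u‖
      nlinarith
  have hc1 : Continuous (fun p : ℕ × K => p.2.1.1 - u) := by fun_prop
  have hc2 : Continuous (fun p : ℕ × K => (p.2.1.2 : ℂ) - v) := by fun_prop
  have hdc : Continuous den := by
    simp only [hden]
    exact (hc1.norm.pow 2).add (hc2.norm.pow 2)
  have hchi : Continuous (fun p : ℕ × K => if p.1 ∈ F then (1:ℂ) else 0) := (chi F).continuous
  have hdpos : ∀ p, (den p : ℂ) ≠ 0 := fun p => by
    have := hden_low p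
    exact_mod_cast (by linarith : den p ≠ 0)
  -- the two multipliers
  have hbound : ∀ (w : ℂ) (p : ℕ × K), ‖w‖^2 ≤ den p →
      ‖(if p.1 ∈ F then (1:ℂ) else 0) * ((starRingEnd ℂ) w / (den p : ℂ))‖ ≤ 2 := by
    intro w p hw
    rw [norm_mul, norm_div, Complex.norm_conj, Complex.norm_real, Real.norm_eq_abs]
    have h1 := hden_low p
    rw [abs_of_pos (by linarith)]
    have h2 : ‖(if p.1 ∈ F then (1:ℂ) else 0)‖ ≤ 1 := by split <;> simp
    have h3 : ‖w‖ / den p ≤ 2 := by
      rw [div_le_iff₀ (by linarith)]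
      nlinarith [norm_nonneg w, sq_nonneg (‖w‖ - 1/2)]
    calc ‖(if p.1 ∈ F then (1:ℂ) else 0)‖ * (‖w‖ / den p) ≤ 1 * 2 :=
          mul_le_mul h2 h3 (div_nonneg (norm_nonneg _) (by linarith)) (by norm_num)
      _ = 2 := by norm_num
  set α : ℕ × K →ᵇ ℂ := BoundedContinuousFunction.ofNormedAddCommGroup
    (fun p => (if p.1 ∈ F then (1:ℂ) else 0) * ((starRingEnd ℂ) (p.2.1.1 - u) / (den p : ℂ)))
    (hchi.mul ((Complex.continuous_conj.comp hc1).div₀ (Complex.continuous_ofReal.comp hdc) hdpos))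
    2 (fun p => hbound _ p (by simp only [hden]; nlinarith [sq_nonneg ‖(p.2.1.2 : ℂ) - v‖])) with hα
  set β : ℕ × K →ᵇ ℂ := BoundedContinuousFunction.ofNormedAddCommGroup
    (fun p => (if p.1 ∈ F then (1:ℂ) else 0) * ((starRingEnd ℂ) ((p.2.1.2 : ℂ) - v) / (den p : ℂ)))
    (hchi.mul ((Complex.continuous_conj.comp hc2).div₀ (Complex.continuous_ofReal.comp hdc) hdpos))
    2 (fun p => hbound _ p (by simp only [hden]; nlinarith [sq_nonneg ‖p.2.1.1 - u‖])) with hβ
  have hαm : α ∈ Alg := fin_mem F hF α (fun i hi k => by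
    show (if i ∈ F then (1:ℂ) else 0) * _ = 0
    rw [if_neg hi, zero_mul])
  have hβm : β ∈ Alg := fin_mem F hF β (fun i hi k => by
    show (if i ∈ F then (1:ℂ) else 0) * _ = 0
    rw [if_neg hi, zero_mul])
  have hid : (⟨α, hαm⟩ : A) * (zA - algebraMap ℂ A u) + (⟨β, hβm⟩ : A) * (tA - algebraMap ℂ A v) =
      eS F := by
    apply Subtype.ext
    ext p
    have e1 : (algebraMap ℂ (ℕ × K →ᵇ ℂ) u) p = u := by
      rw [BoundedContinuousFunction.algebraMap_apply]; simp
    have e2 : (algebraMap ℂ (ℕ × K →ᵇ ℂ) v) p = v := by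
      rw [BoundedContinuousFunction.algebraMap_apply]; simp
    show (if p.1 ∈ F then (1:ℂ) else 0) * ((starRingEnd ℂ) (p.2.1.1 - u) / (den p : ℂ)) *
      (p.2.1.1 - (algebraMap ℂ (ℕ × K →ᵇ ℂ) u) p) +
      (if p.1 ∈ F then (1:ℂ) else 0) * ((starRingEnd ℂ) ((p.2.1.2 : ℂ) - v) / (den p : ℂ)) *
      ((p.2.1.2 : ℂ) - (algebraMap ℂ (ℕ × K →ᵇ ℂ) v) p) = if p.1 ∈ F then (1:ℂ) else 0
    rw [e1, e2]
    have e3 : ((starRingEnd ℂ) (p.2.1.1 - u)) * (p.2.1.1 - u) +
        ((starRingEnd ℂ) ((p.2.1.2 : ℂ) - v)) * ((p.2.1.2 : ℂ) - v) = (den p : ℂ) := by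
      simp only [hden]
      rw [mul_comm, Complex.mul_conj, mul_comm, Complex.mul_conj, Complex.normSq_eq_norm_sq,
        Complex.normSq_eq_norm_sq]
      push_cast; rfl
    have hdp := hdpos p
    calc _ = (if p.1 ∈ F then (1:ℂ) else 0) * ((((starRingEnd ℂ) (p.2.1.1 - u)) * (p.2.1.1 - u) +
        ((starRingEnd ℂ) ((p.2.1.2 : ℂ) - v)) * ((p.2.1.2 : ℂ) - v)) / (den p : ℂ)) := by ring
      _ = _ := by rw [e3, div_self hdp, mul_one]
  rw [← hid, map_add, map_mul, map_mul, map_sub, map_sub, AlgHomClass.commutes,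
    AlgHomClass.commutes]
  have e4 : (algebraMap ℂ ℂ) u = u := rfl
  have e5 : (algebraMap ℂ ℂ) v = v := rfl
  rw [e4, e5, ← hu, ← hv, sub_self, sub_self, mul_zero, mul_zero, add_zero]

lemma Va_disjoint (a b : ℕ → Bool) (h : a ≠ b) : Disjoint (Va a) (Va b) := by
  classical
  rw [Set.disjoint_left]
  rintro φ ⟨ha, hz, ht⟩ ⟨hb, _, _⟩
  have h1 : eS (Na a) * eS (Na b) = eS (Na a ∩ Na b) := by
    apply Subtype.ext
    ext p
    change chi (Na a) p * chi (Na b) p = chi (Na a ∩ Na b) p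
    rw [chi_apply, chi_apply, chi_apply]
    by_cases h1 : p.1 ∈ Na a <;> by_cases h2 : p.1 ∈ Na b <;> simp [h1, h2]
  have h2 := fin_zero (Na a ∩ Na b) (Na_inter a b h) φ hz ht
  rw [← h1, map_mul] at h2
  exact (mul_ne_zero ha hb) h2

lemma Va_nonempty (a : ℕ → Bool) : (Va a).Nonempty := by
  classical
  -- the ideal generated by 1 - e, z, t
  set I : Ideal A := Ideal.span {1 - eS (Na a), zA, tA} with hI
  have hI1 : I ≠ ⊤ := by
    intro htop
    have h1 : (1 : A) ∈ I := by rw [htop]; trivial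
    rw [hI, Ideal.mem_span_insert] at h1
    obtain ⟨x, w, hw, h1⟩ := h1
    rw [Ideal.mem_span_insert] at hw
    obtain ⟨y, w', hw', hw⟩ := hw
    rw [Ideal.mem_span_singleton'] at hw'
    obtain ⟨c, hc⟩ := hw'
    rw [← hc] at hw
    rw [hw] at h1
    -- choose a slice in N_a where y and c are near B
    have hy := y.2 (1/8) (by norm_num)
    have hcc := c.2 (1/8) (by norm_num)
    obtain ⟨N, hN⟩ := eventually_atTop.1 (hy.and hcc)
    obtain ⟨i, hia, hiN⟩ := (Na_infinite a).exists_gt N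
    obtain ⟨⟨b, hb, hby⟩, b', hb', hbc⟩ := hN i hiN.le
    -- 1 = y z + c t on the slice
    have hsl : ∀ k : K, (1:ℂ) = y.1 (i,k) * k.1.1 + c.1 (i,k) * (k.1.2 : ℂ) := by
      intro k
      have h2 := congrArg (fun q : A => q.1 (i,k)) h1
      have h3 : (1:ℂ) = x.1 (i,k) * (1 - (if i ∈ Na a then (1:ℂ) else 0)) +
        (y.1 (i,k) * k.1.1 + c.1 (i,k) * (k.1.2 : ℂ)) := h2
      rw [if_pos hia, sub_self, mul_zero, zero_add] at h3
      exact h3
    -- the function 1 - z b - t b' is in B and small on K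
    have hB : InB (fun p => 1 - (b p * p.1 + b' p * (p.2 : ℂ))) :=
      (InB.const 1).sub ((hb.mul InB.fst).add (hb'.mul InB.snd))
    have hsm : ∀ p ∈ Kset, ‖1 - (b p * p.1 + b' p * (p.2 : ℂ))‖ ≤ 1/4 := by
      intro p hp
      have h4 := hsl ⟨p, hp⟩
      have h5 := hby ⟨p, hp⟩
      have h6 := hbc ⟨p, hp⟩
      simp only at h4 h5 h6
      have e : (1:ℂ) - (b p * p.1 + b' p * (p.2 : ℂ)) =
          (y.1 (i, ⟨p, hp⟩) - b p) * p.1 + (c.1 (i, ⟨p, hp⟩) - b' p) * (p.2 : ℂ) := by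
        calc (1:ℂ) - (b p * p.1 + b' p * (p.2 : ℂ)) =
            (y.1 (i, ⟨p, hp⟩) * p.1 + c.1 (i, ⟨p, hp⟩) * (p.2 : ℂ)) -
              (b p * p.1 + b' p * (p.2 : ℂ)) := by rw [← h4]
          _ = _ := by ring
      rw [e]
      have hz1 : ‖p.1‖ ≤ 1 := by simpa using hp.1.1
      have ht1 : ‖(p.2 : ℂ)‖ ≤ 1 := by
        rw [Complex.norm_real, Real.norm_eq_abs, abs_le]
        exact ⟨by linarith [hp.1.2.1], hp.1.2.2⟩
      refine (norm_add_le _ _).trans ?_
      rw [norm_mul, norm_mul]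
      have a1 : ‖y.1 (i, ⟨p, hp⟩) - b p‖ * ‖p.1‖ ≤ 1/8 * 1 :=
        mul_le_mul h5 hz1 (norm_nonneg _) (by norm_num)
      have a2 : ‖c.1 (i, ⟨p, hp⟩) - b' p‖ * ‖(p.2 : ℂ)‖ ≤ 1/8 * 1 :=
        mul_le_mul h6 ht1 (norm_nonneg _) (by norm_num)
      linarith
    have h7 := max_K hB (1/4) hsm (0, 0) ⟨by simp, by simp⟩
    norm_num at h7
  obtain ⟨M, hM, hIM⟩ := Ideal.exists_le_maximal I hI1
  have hmem : ∀ q ∈ ({1 - eS (Na a), zA, tA} : Set A), M.toCharacterSpace q = 0 := by
    intro q hq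
    exact M.toCharacterSpace_apply_eq_zero_of_mem (hIM (Ideal.subset_span hq))
  refine ⟨M.toCharacterSpace, ?_, ?_, ?_⟩
  · have h1 := hmem (1 - eS (Na a)) (by simp)
    rw [map_sub, map_one, sub_eq_zero] at h1
    rw [← h1]; exact one_ne_zero
  · rw [hmem zA (by simp), norm_zero]; norm_num
  · rw [hmem tA (by simp), norm_zero]; norm_num

/-- The Gelfand space is not separable. -/
theorem not_separable : ¬ TopologicalSpace.SeparableSpace (characterSpace ℂ A) := by
  intro hsep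
  have h1 : (univ : Set (ℕ → Bool)).Countable :=
    Set.PairwiseDisjoint.countable_of_isOpen (s := Va) (fun a _ b _ hab => Va_disjoint a b hab)
      (fun a _ => Va_open a) (fun a _ => Va_nonempty a)
  rw [Set.countable_univ_iff] at h1
  obtain ⟨f, hf⟩ := exists_surjective_nat (ℕ → Bool)
  obtain ⟨n, h2⟩ := hf (fun n => ! (f n n))
  have h3 := congrFun h2 n
  revert h3
  cases f n n <;> simp

/-- The spectrum is countably generated. -/
theorem countably_generated : ∃ S : Set (characterSpace ℂ A), S.Countable ∧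
    ∀ x : A, spectrum ℂ x = closure ((fun φ : characterSpace ℂ A => φ x) '' S) := by
  obtain ⟨D, hDc, hD⟩ := TopologicalSpace.exists_countable_dense (ℕ × K)
  exact ⟨ev '' D, hDc.image _, fun x => spectrum_eq D hD x⟩

end Pool.Agent.V1193.GelfandCE
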