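import Pool.Agent.V1193.LpSlice

/-!
# Full and reduced `L^p` crossed products by finite groups
-/

set_option autoImplicit false
set_option linter.unusedSectionVars false
open MeasureTheory
open scoped ENNReal

namespace Pool.Agent.V1193.LpCross

universe u w

/-- A homomorphism from the group `G` into the isometric automorphisms (isometric multiplicative linear
bijections) of the Banach algebra `A`. Bijectivity follows from `act_one` and `act_mul`. -/
structure IsoAction (G : Type) [Group G] (A : Type w) [NonUnitalNormedRing A] [NormedSpace ℂ A] where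
  act : G → A → A
  act_one : ∀ a, act 1 a = a
  act_mul : ∀ g h a, act (g * h) a = act g (act h a)
  act_add : ∀ g a b, act g (a + b) = act g a + act g b
  act_smul : ∀ g (c : ℂ) a, act g (c • a) = c • act g a
  act_prod : ∀ g a b, act g (a * b) = act g a * act g b
  norm_act : ∀ g a, ‖act g a‖ = ‖a‖

/-- Bounded operators on `E`. -/
abbrev Op (E : Type*) [NormedAddCommGroup E] [NormedSpace ℂ E] : Type _ := E →L[ℂ] E

/-- A representation of `A` on `E`: a homomorphism of algebras into the bounded operators. -/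
structure AlgRep (A : Type w) [NonUnitalNormedRing A] [NormedSpace ℂ A]
    (E : Type*) [NormedAddCommGroup E] [NormedSpace ℂ E] where
  toFun : A → Op E
  map_add : ∀ a b ξ, toFun (a + b) ξ = toFun a ξ + toFun b ξ
  map_smul : ∀ (c : ℂ) a ξ, toFun (c • a) ξ = c • toFun a ξ
  map_mul : ∀ a b ξ, toFun (a * b) ξ = toFun a (toFun b ξ)

/-- The representation is contractive. -/
def AlgRep.Contractive {A : Type w} [NonUnitalNormedRing A] [NormedSpace ℂ A]
    {E : Type*} [NormedAddCommGroup E] [NormedSpace ℂ E] (R : AlgRep A E) : Prop :=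
  ∀ a, ‖R.toFun a‖ ≤ ‖a‖

/-- The representation is nondegenerate: the span of the vectors `π(a) ξ` is dense. -/
def AlgRep.Nondegenerate {A : Type w} [NonUnitalNormedRing A] [NormedSpace ℂ A]
    {E : Type*} [NormedAddCommGroup E] [NormedSpace ℂ E] (R : AlgRep A E) : Prop :=
  (Submodule.span ℂ {y : E | ∃ a ξ, R.toFun a ξ = y}).topologicalClosure = ⊤

/-- A nondegenerate contractive representation of `A` on the Banach space `E`. -/
structure ContrRep (A : Type w) [NonUnitalNormedRing A] [NormedSpace ℂ A]
    (E : Type*) [NormedAddCommGroup E] [NormedSpace ℂ E] extends AlgRep A E where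
  contr : toAlgRep.Contractive
  nondeg : toAlgRep.Nondegenerate

variable {A : Type w} [NonUnitalNormedRing A] [NormedSpace ℂ A] {G : Type} [Group G]

/-- The covariance relation `v_g π(a) v_g⁻¹ = π(α_g(a))`. -/
def IsCovariant (α : IsoAction G A) {E : Type*} [NormedAddCommGroup E] [NormedSpace ℂ E]
    (R : AlgRep A E) (v : G →* (E ≃ₗᵢ[ℂ] E)) : Prop :=
  ∀ g a ξ, v g (R.toFun a ((v g).symm ξ)) = R.toFun (α.act g a) ξ

/-- A nondegenerate contractive covariant representation `(v, π)` on the Banach space `E`: a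
nondegenerate contractive representation `π` and a homomorphism `v` from `G` to the invertible
isometries of `E` with `v_g π(a) v_g⁻¹ = π(α_g(a))`. -/
structure CovRep (α : IsoAction G A) (E : Type*) [NormedAddCommGroup E] [NormedSpace ℂ E]
    extends ContrRep A E where
  v : G →* (E ≃ₗᵢ[ℂ] E)
  cov : IsCovariant α toAlgRep v

variable [Fintype G]

/-- The integrated form `∑ g, π(a(g)) v_g`. -/
noncomputable def CovRep.int {α : IsoAction G A} {E : Type*} [NormedAddCommGroup E] [NormedSpace ℂ E]
    (R : CovRep α E) (a : G → A) : Op E :=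
  ∑ g, (R.toFun (a g)).comp ((R.v g).toContinuousLinearEquiv : E →L[ℂ] E)

/-- Extended norm of a bounded operator. -/
noncomputable def opNorm {E : Type*} [NormedAddCommGroup E] [NormedSpace ℂ E] (S : Op E) : ℝ≥0∞ := ‖S‖ₑ

section reg

variable (p : ℝ≥0∞) [hp1 : Fact (1 ≤ p)] (α : IsoAction G A) {E : Type*} [NormedAddCommGroup E] [NormedSpace ℂ E]

/-- `ℓ^p(G, E)`. -/
abbrev EllP (G : Type) [Fintype G] (E : Type*) [NormedAddCommGroup E] : Type _ := PiLp p (fun _ : G => E)

/-- A bounded operator on the functions `G → E`, considered on `ℓ^p(G, E)`. -/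
noncomputable def onLp (S : (G → E) →L[ℂ] (G → E)) : Op (EllP p G E) :=
  ((PiLp.continuousLinearEquiv p ℂ (fun _ : G => E)).symm : (G → E) →L[ℂ] PiLp p (fun _ : G => E)).comp
    (S.comp (PiLp.continuousLinearEquiv p ℂ (fun _ : G => E) : PiLp p (fun _ : G => E) →L[ℂ] (G → E)))

/-- The regular representation on `ℓ^p(G, E)`: `(π(a) ξ)(h) = π₀(α_{h⁻¹}(a)) ξ(h)`. -/
noncomputable def regPi (R : AlgRep A E) (a : A) : Op (EllP p G E) :=
  onLp p (ContinuousLinearMap.pi fun h : G => (R.toFun (α.act h⁻¹ a)).comp (ContinuousLinearMap.proj h))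

/-- The translations on `ℓ^p(G, E)`: `(v_g ξ)(h) = ξ(g⁻¹ h)`. -/
noncomputable def regV (E : Type*) [NormedAddCommGroup E] [NormedSpace ℂ E] (g : G) : Op (EllP p G E) :=
  onLp p (ContinuousLinearMap.pi fun h : G => ContinuousLinearMap.proj (g⁻¹ * h))

/-- The integrated form of the regular covariant representation attached to `π₀`. -/
noncomputable def regInt (R : AlgRep A E) (a : G → A) : Op (EllP p G E) :=
  ∑ g, (regPi p α R (a g)).comp (regV p E g)

lemma regPi_apply (R : AlgRep A E) (a : A) (ξ : PiLp p (fun _ : G => E)) (h : G) :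
    regPi p α R a ξ h = R.toFun (α.act h⁻¹ a) (ξ h) := rfl

lemma regV_apply (g : G) (ξ : PiLp p (fun _ : G => E)) (h : G) :
    regV p E g ξ h = ξ (g⁻¹ * h) := rfl

lemma regInt_apply (R : AlgRep A E) (a : G → A) (ξ : PiLp p (fun _ : G => E)) (h : G) :
    regInt p α R a ξ h = ∑ g, R.toFun (α.act h⁻¹ (a g)) (ξ (g⁻¹ * h)) := by
  unfold regInt
  rw [sum_apply]
  rw [WithLp.ofLp_sum, Finset.sum_apply]
  rfl

/-- The main estimate: the integrated form of a covariant representation is dominated by that of the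
regular representation attached to it. -/
lemma int_le_regInt (hp : p ≠ ⊤) (R : CovRep α E) (a : G → A) :
    ‖R.int a‖ ≤ ‖regInt p α R.toAlgRep a‖ := by
  have hp0 : p ≠ 0 := (zero_lt_one.trans_le hp1.out).ne'
  have hpos : 0 < p.toReal := ENNReal.toReal_pos hp0 hp
  set N : ℝ := (Fintype.card G : ℝ) ^ (1 / p.toReal) with hN
  have hNpos : 0 < N := by
    rw [hN]
    have : 0 < Fintype.card G := Fintype.card_pos
    positivity
  have key : ∀ (η : PiLp p (fun _ : G => E)) (x : E), (∀ h, ‖η h‖ = ‖x‖) → ‖η‖ = N * ‖x‖ := by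
    intro η x hη
    rw [PiLp.norm_eq_sum hpos]
    simp_rw [hη]
    rw [Finset.sum_const, Finset.card_univ, nsmul_eq_mul, Real.mul_rpow (by positivity) (by positivity),
      ← Real.rpow_mul (norm_nonneg _), mul_one_div_cancel hpos.ne', Real.rpow_one]
  apply ContinuousLinearMap.opNorm_le_bound _ (norm_nonneg _)
  intro x
  set ξ : PiLp p (fun _ : G => E) := WithLp.toLp p (fun h => (R.v h).symm x) with hξ
  have h1 : ‖ξ‖ = N * ‖x‖ := key ξ x (fun h => by rw [hξ]; exact LinearIsometryEquiv.norm_map _ _)
  have h2 : ∀ h, regInt p α R.toAlgRep a ξ h = (R.v h).symm (R.int a x) := by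
    intro h
    rw [regInt_apply]
    apply (R.v h).injective
    rw [LinearIsometryEquiv.apply_symm_apply, map_sum]
    unfold CovRep.int
    rw [sum_apply]
    apply Finset.sum_congr rfl
    intro g _
    have h3 : ξ (g⁻¹ * h) = (R.v (g⁻¹ * h)).symm x := rfl
    have h4 := R.cov h (α.act h⁻¹ (a g)) (R.v g x)
    have h5 : α.act h (α.act h⁻¹ (a g)) = a g := by
      rw [← α.act_mul, mul_inv_cancel, α.act_one]
    rw [h5] at h4
    have h6 : (R.v (g⁻¹ * h)).symm x = (R.v h).symm (R.v g x) := by
      apply (R.v (g⁻¹ * h)).injective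
      rw [LinearIsometryEquiv.apply_symm_apply, map_mul]
      have : (R.v g⁻¹ * R.v h) ((R.v h).symm (R.v g x)) = R.v g⁻¹ (R.v h ((R.v h).symm (R.v g x))) := rfl
      rw [this, LinearIsometryEquiv.apply_symm_apply]
      have : R.v g⁻¹ (R.v g x) = (R.v g⁻¹ * R.v g) x := rfl
      rw [this, ← map_mul, inv_mul_cancel, map_one]
      rfl
    rw [h3, h6, h4]
    rfl
  have h3 : ‖regInt p α R.toAlgRep a ξ‖ = N * ‖R.int a x‖ :=
    key _ _ (fun h => by rw [h2 h]; exact LinearIsometryEquiv.norm_map _ _)
  have h4 := (regInt p α R.toAlgRep a).le_opNorm ξ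
  rw [h3, h1] at h4
  have h5 : N * ‖R.int a x‖ ≤ N * (‖regInt p α R.toAlgRep a‖ * ‖x‖) := by linarith
  exact le_of_mul_le_mul_left h5 hNpos

lemma norm_mono (hp : p ≠ ⊤) (ξ η : PiLp p (fun _ : G => E)) (c : ℝ) (hc : 0 ≤ c) (h : ∀ g, ‖ξ g‖ ≤ c * ‖η g‖) :
    ‖ξ‖ ≤ c * ‖η‖ := by
  have hp0 : p ≠ 0 := (zero_lt_one.trans_le hp1.out).ne'
  have hpos : 0 < p.toReal := ENNReal.toReal_pos hp0 hp
  rw [PiLp.norm_eq_sum hpos, PiLp.norm_eq_sum hpos]
  have h1 : ∑ g, ‖ξ g‖ ^ p.toReal ≤ c ^ p.toReal * ∑ g, ‖η g‖ ^ p.toReal := by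
    rw [Finset.mul_sum]
    apply Finset.sum_le_sum
    intro g _
    rw [← Real.mul_rpow hc (norm_nonneg _)]
    exact Real.rpow_le_rpow (norm_nonneg _) (h g) hpos.le
  calc _ ≤ (c ^ p.toReal * ∑ g, ‖η g‖ ^ p.toReal) ^ (1 / p.toReal) := by
        apply Real.rpow_le_rpow _ h1 (by positivity)
        positivity
    _ = _ := by
        rw [Real.mul_rpow (by positivity) (by positivity), ← Real.rpow_mul hc, mul_one_div_cancel hpos.ne', Real.rpow_one]

lemma vreg_apply (g : G) (ξ : PiLp p (fun _ : G => E)) (h : G) :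
    (LinearIsometryEquiv.piLpCongrLeft p ℂ E (Equiv.mulLeft g)) ξ h = ξ (g⁻¹ * h) := rfl

lemma vreg_symm_apply (g : G) (ξ : PiLp p (fun _ : G => E)) (h : G) :
    (LinearIsometryEquiv.piLpCongrLeft p ℂ E (Equiv.mulLeft g)).symm ξ h = ξ (g * h) := by
  rw [LinearIsometryEquiv.piLpCongrLeft_symm]
  rfl

/-- The regular representation as a covariant representation. -/
noncomputable def regCov (hp : p ≠ ⊤) (R : ContrRep A E) : CovRep α (PiLp p (fun _ : G => E)) where
  toFun := regPi p α R.toAlgRep
  map_add a b ξ := by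
    ext h
    simp only [PiLp.add_apply, regPi_apply, α.act_add, R.map_add]
  map_smul c a ξ := by
    ext h
    simp only [PiLp.smul_apply, regPi_apply, α.act_smul, R.map_smul]
  map_mul a b ξ := by
    ext h
    simp only [regPi_apply, α.act_prod, R.map_mul]
  contr a := by
    apply ContinuousLinearMap.opNorm_le_bound _ (norm_nonneg _)
    intro ξ
    apply norm_mono p hp _ _ _ (norm_nonneg _)
    intro h
    rw [regPi_apply]
    refine (ContinuousLinearMap.le_opNorm _ _).trans ?_
    gcongr
    exact (R.contr _).trans (α.norm_act _ _).le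
  nondeg := by
    classical
    set S := Submodule.span ℂ {y : PiLp p (fun _ : G => E) | ∃ a ξ, regPi p α R.toAlgRep a ξ = y} with hS
    set L : G → E →L[ℂ] PiLp p (fun _ : G => E) := fun h =>
      ((PiLp.continuousLinearEquiv p ℂ (fun _ : G => E)).symm : (G → E) →L[ℂ] PiLp p (fun _ : G => E)).comp
        (ContinuousLinearMap.single ℂ (fun _ : G => E) h) with hL
    have hLa : ∀ h x k, L h x k = if k = h then x else 0 := by
      intro h x k
      show (Pi.single h x : G → E) k = _
      by_cases hk : k = h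
      · subst hk; simp
      · rw [Pi.single_eq_of_ne hk, if_neg hk]
    have h1 : ∀ h x, L h x ∈ S.topologicalClosure := by
      intro h
      have h2 : (Submodule.span ℂ {y : E | ∃ a ξ, R.toFun a ξ = y}) ≤ S.topologicalClosure.comap (L h : E →ₗ[ℂ] PiLp p (fun _ : G => E)) := by
        rw [Submodule.span_le]
        rintro _ ⟨a, x, rfl⟩
        show L h (R.toFun a x) ∈ S.topologicalClosure
        apply Submodule.le_topologicalClosure
        apply Submodule.subset_span
        refine ⟨α.act h a, L h x, ?_⟩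
        ext k
        rw [regPi_apply, hLa, hLa]
        split_ifs with hk
        · subst hk
          rw [← α.act_mul, inv_mul_cancel, α.act_one]
        · simp
      have h3 : IsClosed (S.topologicalClosure.comap (L h : E →ₗ[ℂ] PiLp p (fun _ : G => E)) : Set E) :=
        S.isClosed_topologicalClosure.preimage (L h).continuous
      have h4 := Submodule.topologicalClosure_minimal _ h2 h3
      have h5 : (Submodule.span ℂ {y : E | ∃ a ξ, R.toFun a ξ = y}).topologicalClosure = ⊤ := R.nondeg
      rw [h5] at h4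
      intro x
      exact h4 (Submodule.mem_top : x ∈ ⊤)
    unfold AlgRep.Nondegenerate
    rw [eq_top_iff]
    intro ξ _
    have h2 : ξ = ∑ h, L h (ξ h) := by
      ext k
      rw [WithLp.ofLp_sum, Finset.sum_apply]
      simp_rw [hLa]
      simp
    rw [h2]
    exact Submodule.sum_mem _ fun h _ => h1 h _
  v :=
    { toFun := fun g => LinearIsometryEquiv.piLpCongrLeft p ℂ E (Equiv.mulLeft g)
      map_one' := by
        ext ξ h
        rw [vreg_apply, inv_one, one_mul]
        rfl
      map_mul' := by
        intro g k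
        ext ξ h
        have e : (LinearIsometryEquiv.piLpCongrLeft p ℂ E (Equiv.mulLeft g) *
          LinearIsometryEquiv.piLpCongrLeft p ℂ E (Equiv.mulLeft k)) ξ =
          LinearIsometryEquiv.piLpCongrLeft p ℂ E (Equiv.mulLeft g)
            (LinearIsometryEquiv.piLpCongrLeft p ℂ E (Equiv.mulLeft k) ξ) := rfl
        rw [e, vreg_apply, vreg_apply, vreg_apply, mul_inv_rev, mul_assoc] }
  cov g a ξ := by
    ext h
    show (LinearIsometryEquiv.piLpCongrLeft p ℂ E (Equiv.mulLeft g)) (regPi p α R.toAlgRep a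
      ((LinearIsometryEquiv.piLpCongrLeft p ℂ E (Equiv.mulLeft g)).symm ξ)) h = _
    rw [vreg_apply, regPi_apply, regPi_apply, vreg_symm_apply, mul_inv_cancel_left, mul_inv_rev, inv_inv,
      α.act_mul]

lemma regCov_int (hp : p ≠ ⊤) (R : ContrRep A E) (a : G → A) : (regCov p α hp R).int a = regInt p α R.toAlgRep a := by
  ext ξ h
  unfold CovRep.int regInt
  rw [sum_apply, sum_apply, WithLp.ofLp_sum, WithLp.ofLp_sum, Finset.sum_apply, Finset.sum_apply]
  rfl

/-- Transport of a covariant representation along an isometry. -/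
noncomputable def transport {F : Type*} [NormedAddCommGroup F] [NormedSpace ℂ F] (Φ : E ≃ₗᵢ[ℂ] F)
    (R : CovRep α E) : CovRep α F where
  toFun a := (Φ.toContinuousLinearEquiv : E →L[ℂ] F).comp ((R.toFun a).comp (Φ.symm.toContinuousLinearEquiv : F →L[ℂ] E))
  map_add a b y := by
    simp [R.map_add]
  map_smul c a y := by
    simp [R.map_smul]
  map_mul a b y := by
    simp [R.map_mul]
  contr a := by
    apply ContinuousLinearMap.opNorm_le_bound _ (norm_nonneg _)
    intro y
    have h1 : ‖Φ (R.toFun a (Φ.symm y))‖ ≤ ‖a‖ * ‖y‖ := by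
      rw [LinearIsometryEquiv.norm_map]
      refine (ContinuousLinearMap.le_opNorm _ _).trans ?_
      rw [LinearIsometryEquiv.norm_map]
      gcongr
      exact R.contr a
    exact h1
  nondeg := by
    set S := Submodule.span ℂ {y : E | ∃ a ξ, R.toFun a ξ = y} with hS
    set S' := Submodule.span ℂ {y : F | ∃ a ξ, (Φ.toContinuousLinearEquiv : E →L[ℂ] F).comp ((R.toFun a).comp (Φ.symm.toContinuousLinearEquiv : F →L[ℂ] E)) ξ = y} with hS'
    have h2 : S ≤ S'.topologicalClosure.comap (Φ.toLinearEquiv : E →ₗ[ℂ] F) := by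
      rw [hS, Submodule.span_le]
      rintro _ ⟨a, x, rfl⟩
      apply Submodule.le_topologicalClosure
      apply Submodule.subset_span
      refine ⟨a, Φ x, ?_⟩
      simp
    have h3 : IsClosed (S'.topologicalClosure.comap (Φ.toLinearEquiv : E →ₗ[ℂ] F) : Set E) :=
      S'.isClosed_topologicalClosure.preimage Φ.continuous
    have h4 := Submodule.topologicalClosure_minimal _ h2 h3
    have h7 : S.topologicalClosure = ⊤ := R.nondeg
    rw [h7] at h4
    unfold AlgRep.Nondegenerate
    rw [eq_top_iff]
    intro y _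
    have h5 := h4 (Submodule.mem_top : Φ.symm y ∈ ⊤)
    have h6 : Φ (Φ.symm y) ∈ S'.topologicalClosure := h5
    rwa [LinearIsometryEquiv.apply_symm_apply] at h6
  v :=
    { toFun := fun g => (Φ.symm.trans (R.v g)).trans Φ
      map_one' := by
        ext y
        rw [map_one]
        simp
      map_mul' := by
        intro g k
        ext y
        rw [map_mul]
        simp }
  cov g a y := by
    have h := R.cov g a (Φ.symm y)
    show Φ (R.v g (Φ.symm (Φ (R.toFun a (Φ.symm (Φ ((R.v g).symm (Φ.symm y)))))))) =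
      Φ (R.toFun (α.act g a) (Φ.symm y))
    rw [LinearIsometryEquiv.symm_apply_apply, LinearIsometryEquiv.symm_apply_apply, h]

lemma transport_int {F : Type*} [NormedAddCommGroup F] [NormedSpace ℂ F] (Φ : E ≃ₗᵢ[ℂ] F)
    (R : CovRep α E) (a : G → A) : ‖(transport α Φ R).int a‖ = ‖R.int a‖ := by
  have key : ∀ y, (transport α Φ R).int a y = Φ (R.int a (Φ.symm y)) := by
    intro y
    unfold CovRep.int
    rw [sum_apply, sum_apply, map_sum]
    apply Finset.sum_congr rfl
    intro g _
    simp [transport]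
  apply le_antisymm
  · apply ContinuousLinearMap.opNorm_le_bound _ (norm_nonneg _)
    intro y
    rw [key, LinearIsometryEquiv.norm_map]
    refine (ContinuousLinearMap.le_opNorm _ _).trans ?_
    rw [LinearIsometryEquiv.norm_map]
  · apply ContinuousLinearMap.opNorm_le_bound _ (norm_nonneg _)
    intro x
    have h := (transport α Φ R).int a |>.le_opNorm (Φ x)
    rw [key, LinearIsometryEquiv.norm_map, LinearIsometryEquiv.norm_map, LinearIsometryEquiv.symm_apply_apply] at h
    exact h

end reg

section norms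

variable (p : ℝ≥0∞) [hp1 : Fact (1 ≤ p)] (α : IsoAction G A)

/-- The Banach space `L^p(X, μ)` of complex valued functions. -/
def LpX (p : ℝ≥0∞) {X : Type u} [MeasurableSpace X] (μ : Measure X) : Type u := Lp ℂ p μ

noncomputable instance instNorm {X : Type u} [MeasurableSpace X] (μ : Measure X) :
    NormedAddCommGroup (LpX p μ) := inferInstanceAs (NormedAddCommGroup (Lp ℂ p μ))

noncomputable instance instSpace {X : Type u} [MeasurableSpace X] (μ : Measure X) :
    NormedSpace ℂ (LpX p μ) := inferInstanceAs (NormedSpace ℂ (Lp ℂ p μ))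

/-- The full norm: the supremum of `‖(v ⋉ π)(a)‖` over all nondegenerate contractive covariant
representations `(v, π)` on `L^p(X, μ)` with `μ` σ-finite. -/
noncomputable def fullNorm (a : G → A) : ℝ≥0∞ :=
  ⨆ (X : Type u) (_ : MeasurableSpace X) (μ : Measure X) (_ : SigmaFinite μ) (R : CovRep α (LpX p μ)),
    opNorm (R.int a)

/-- The reduced norm: the supremum of the norms of the integrated forms at `a` of the regular covariant
representations on `ℓ^p(G, L^p(X, μ))` attached to nondegenerate contractive representations of `A` on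
`L^p(X, μ)` with `μ` σ-finite. -/
noncomputable def reducedNorm (a : G → A) : ℝ≥0∞ :=
  ⨆ (X : Type u) (_ : MeasurableSpace X) (μ : Measure X) (_ : SigmaFinite μ) (R : ContrRep A (LpX p μ)),
    opNorm (regInt p α R.toAlgRep a)

theorem full_eq_reduced (hp : p ≠ ⊤) (a : G → A) : fullNorm.{u} p α a = reducedNorm.{u} p α a := by
  apply le_antisymm
  · refine iSup_le fun X => iSup_le fun m => iSup_le fun μ => iSup_le fun hμ => iSup_le fun R => ?_
    refine le_trans ?_ (le_iSup_of_le X (le_iSup_of_le m (le_iSup_of_le μ (le_iSup_of_le hμ (le_iSup (fun R : ContrRep A (LpX p μ) => opNorm (regInt p α R.toAlgRep a)) R.toContrRep)))))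
    unfold opNorm
    rw [← ofReal_norm, ← ofReal_norm]
    exact ENNReal.ofReal_le_ofReal (int_le_regInt p α hp R a)
  · refine iSup_le fun X => iSup_le fun m => iSup_le fun μ => iSup_le fun hμ => iSup_le fun R => ?_
    let _ : MeasurableSpace G := ⊤
    have : DiscreteMeasurableSpace G := ⟨fun _ => trivial⟩
    have Φ : EllP p G (LpX p μ) ≃ₗᵢ[ℂ] LpX p (nu G μ) := (sliceEquiv G μ p hp).symm
    have h1 : opNorm (regInt p α R.toAlgRep a) = opNorm ((transport α Φ (regCov p α hp R)).int a) := by
      unfold opNorm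
      rw [← ofReal_norm, ← ofReal_norm, transport_int, regCov_int]
    rw [h1]
    refine le_iSup_of_le (G × X) (le_iSup_of_le inferInstance (le_iSup_of_le (nu G μ) (le_iSup_of_le inferInstance ?_)))
    exact le_iSup (fun R : CovRep α (LpX p (nu G μ)) => opNorm (R.int a)) (transport α Φ (regCov p α hp R))

end norms

end Pool.Agent.V1193.LpCross
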