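import Mathlib

/-!
# The isometry `L^p(ι × X) ≃ ℓ^p(ι, L^p(X))` for a finite index set
-/

set_option autoImplicit false
set_option linter.unusedSectionVars false
open MeasureTheory
open scoped ENNReal

namespace Pool.Agent.V1193.LpCross

universe u

section slice

variable {ι : Type} [Fintype ι] {X : Type u} [MeasurableSpace X] {μ : Measure X} [SigmaFinite μ]
  {p : ℝ≥0∞} [hp1 : Fact (1 ≤ p)]

lemma lp_norm_rpow {Y : Type u} [MeasurableSpace Y] {ν : Measure Y} (hp : p ≠ ⊤) (f : Lp ℂ p ν) :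
    ‖f‖ ^ p.toReal = (∫⁻ y, ‖f y‖ₑ ^ p.toReal ∂ν).toReal := by
  have hp0 : p ≠ 0 := (zero_lt_one.trans_le hp1.out).ne'
  have hpos : 0 < p.toReal := ENNReal.toReal_pos hp0 hp
  rw [Lp.norm_def, eLpNorm_eq_lintegral_rpow_enorm_toReal hp0 hp, ← ENNReal.toReal_rpow,
    ← Real.rpow_mul ENNReal.toReal_nonneg, one_div_mul_cancel hpos.ne', Real.rpow_one]

variable [MeasurableSpace ι] [DiscreteMeasurableSpace ι]

/-- The product of counting measure and `μ`. -/
noncomputable abbrev nu (ι : Type) [MeasurableSpace ι] {X : Type u} [MeasurableSpace X] (μ : Measure X) : Measure (ι × X) :=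
  (Measure.count : Measure ι).prod μ

lemma ae_slice {P : ι × X → Prop} (h : ∀ᵐ z ∂(nu ι μ), P z) (i : ι) : ∀ᵐ y ∂μ, P (i, y) := by
  have h1 := Measure.ae_ae_of_ae_prod h
  rw [Measure.ae_count_iff] at h1
  exact h1 i

lemma lint_slice {g : ι × X → ℝ≥0∞} (hg : Measurable g) :
    ∫⁻ z, g z ∂(nu ι μ) = ∑ i, ∫⁻ y, g (i, y) ∂μ := by
  rw [lintegral_prod _ hg.aemeasurable, lintegral_count, tsum_fintype]

lemma meas_slice {g : ι × X → ℂ} (hg : StronglyMeasurable g) (i : ι) : StronglyMeasurable (fun y => g (i, y)) :=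
  hg.comp_measurable (measurable_const.prodMk measurable_id)

lemma lint_lt_top (hp : p ≠ ⊤) {g : ι × X → ℂ} (hg : MemLp g p (nu ι μ)) :
    ∫⁻ z, ‖g z‖ₑ ^ p.toReal ∂(nu ι μ) < ⊤ := by
  have hp0 : p ≠ 0 := (zero_lt_one.trans_le hp1.out).ne'
  exact lintegral_rpow_enorm_lt_top_of_eLpNorm_lt_top hp0 hp hg.2

lemma memLp_slice (hp : p ≠ ⊤) {g : ι × X → ℂ} (hm : StronglyMeasurable g) (hg : MemLp g p (nu ι μ)) (i : ι) :
    MemLp (fun y => g (i, y)) p μ := by
  have hp0 : p ≠ 0 := (zero_lt_one.trans_le hp1.out).ne'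
  refine ⟨(meas_slice hm i).aestronglyMeasurable, ?_⟩
  rw [eLpNorm_lt_top_iff_lintegral_rpow_enorm_lt_top hp0 hp]
  have h1 := lint_lt_top hp hg
  rw [lint_slice (hm.measurable.enorm.pow_const _)] at h1
  exact lt_of_le_of_lt (Finset.single_le_sum (f := fun i => ∫⁻ y, ‖g (i, y)‖ₑ ^ p.toReal ∂μ) (fun _ _ => zero_le) (Finset.mem_univ i)) h1

variable (ι μ p) in
/-- slicing -/
noncomputable def slice (hp : p ≠ ⊤) (f : Lp ℂ p (nu ι μ)) : PiLp p (fun _ : ι => Lp ℂ p μ) :=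
  WithLp.toLp p fun i => (memLp_slice hp (Lp.stronglyMeasurable f) (Lp.memLp f) i).toLp _

lemma slice_ae (hp : p ≠ ⊤) (f : Lp ℂ p (nu ι μ)) (i : ι) :
    slice ι μ p hp f i =ᵐ[μ] fun y => f (i, y) :=
  MemLp.coeFn_toLp (memLp_slice hp (Lp.stronglyMeasurable f) (Lp.memLp f) i)

lemma slice_add (hp : p ≠ ⊤) (f g : Lp ℂ p (nu ι μ)) : slice ι μ p hp (f + g) = slice ι μ p hp f + slice ι μ p hp g := by
  ext i
  rw [PiLp.add_apply]
  filter_upwards [slice_ae hp (f + g) i, slice_ae hp f i, slice_ae hp g i, ae_slice (Lp.coeFn_add f g) i,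
    Lp.coeFn_add (slice ι μ p hp f i) (slice ι μ p hp g i)] with y h1 h2 h3 h4 h5
  rw [h1, h5, h4, Pi.add_apply, Pi.add_apply, h2, h3]

lemma slice_smul (hp : p ≠ ⊤) (c : ℂ) (f : Lp ℂ p (nu ι μ)) : slice ι μ p hp (c • f) = c • slice ι μ p hp f := by
  ext i
  rw [PiLp.smul_apply]
  filter_upwards [slice_ae hp (c • f) i, slice_ae hp f i, ae_slice (Lp.coeFn_smul c f) i,
    Lp.coeFn_smul c (slice ι μ p hp f i)] with y h1 h2 h4 h5
  rw [h1, h5, h4, Pi.smul_apply, Pi.smul_apply, h2]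

lemma slice_norm (hp : p ≠ ⊤) (f : Lp ℂ p (nu ι μ)) : ‖slice ι μ p hp f‖ = ‖f‖ := by
  have hp0 : p ≠ 0 := (zero_lt_one.trans_le hp1.out).ne'
  have hpos : 0 < p.toReal := ENNReal.toReal_pos hp0 hp
  have hfin := lint_lt_top hp (Lp.memLp f)
  rw [lint_slice ((Lp.stronglyMeasurable f).measurable.enorm.pow_const _)] at hfin
  have h1 : ∑ i, ‖slice ι μ p hp f i‖ ^ p.toReal = ‖f‖ ^ p.toReal := by
    rw [lp_norm_rpow hp f, lint_slice ((Lp.stronglyMeasurable f).measurable.enorm.pow_const _),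
      ENNReal.toReal_sum (fun i _ => (lt_of_le_of_lt (Finset.single_le_sum (f := fun i => ∫⁻ y, ‖f (i, y)‖ₑ ^ p.toReal ∂μ) (fun _ _ => zero_le) (Finset.mem_univ i)) hfin).ne)]
    apply Finset.sum_congr rfl
    intro i _
    rw [lp_norm_rpow hp]
    congr 1
    apply lintegral_congr_ae
    filter_upwards [slice_ae hp f i] with y hy
    rw [hy]
  rw [PiLp.norm_eq_sum hpos, h1, ← Real.rpow_mul (norm_nonneg _), mul_one_div_cancel hpos.ne', Real.rpow_one]

lemma slice_surj (hp : p ≠ ⊤) : Function.Surjective (slice ι μ p hp) := by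
  intro ξ
  have hp0 : p ≠ 0 := (zero_lt_one.trans_le hp1.out).ne'
  set F : ι × X → ℂ := fun z => ξ z.1 z.2 with hF
  have hFm : Measurable F := measurable_from_prod_countable_right fun i => (Lp.stronglyMeasurable (ξ i)).measurable
  have hFs : StronglyMeasurable F := hFm.stronglyMeasurable
  have hmem : MemLp F p (nu ι μ) := by
    refine ⟨hFs.aestronglyMeasurable, ?_⟩
    rw [eLpNorm_lt_top_iff_lintegral_rpow_enorm_lt_top hp0 hp, lint_slice (hFm.enorm.pow_const _)]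
    rw [ENNReal.sum_lt_top]
    intro i _
    exact lintegral_rpow_enorm_lt_top_of_eLpNorm_lt_top hp0 hp (Lp.memLp (ξ i)).2
  refine ⟨hmem.toLp F, ?_⟩
  ext i
  filter_upwards [slice_ae hp (hmem.toLp F) i, ae_slice hmem.coeFn_toLp i] with y h1 h2
  rw [h1, h2]

variable (ι μ p) in
/-- The isometry `L^p(ι × X) ≃ ℓ^p(ι, L^p(X))`. -/
noncomputable def sliceEquiv (hp : p ≠ ⊤) : Lp ℂ p (nu ι μ) ≃ₗᵢ[ℂ] PiLp p (fun _ : ι => Lp ℂ p μ) :=
  LinearIsometryEquiv.ofSurjective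
    { toFun := slice ι μ p hp
      map_add' := slice_add hp
      map_smul' := slice_smul hp
      norm_map' := slice_norm hp } (slice_surj hp)

end slice

end Pool.Agent.V1193.LpCross
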