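import Mathlib

/-! Paths in the plane, contour integrals as Riemann-Stieltjes integrals, derivatives along
collections of paths, and the key estimates. -/

open Set MeasureTheory Filter Topology
open scoped ENNReal

namespace Pool.Agent.V1193.Paths

/-- A path `γ : [a,b] → ℂ`, `a < b`, continuous.  Only the values of `fn` on `[a,b]` matter. -/
structure CPath where
  /-- left end of the interval -/
  a : ℝ
  /-- right end of the interval -/
  b : ℝ
  lt : a < b
  /-- the map -/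
  fn : ℝ → ℂ
  cont : ContinuousOn fn (Icc a b)

/-- the image `γ^*` -/
def CPath.image (γ : CPath) : Set ℂ := γ.fn '' Icc γ.a γ.b

/-- the restriction of `γ` to `[c,d] ⊆ [a,b]`, `c < d` -/
def CPath.sub (γ : CPath) (c d : ℝ) (hc : γ.a ≤ c) (hcd : c < d) (hd : d ≤ γ.b) : CPath :=
  ⟨c, d, hcd, γ.fn, γ.cont.mono (Icc_subset_Icc hc hd)⟩

/-- the subpaths of `γ` -/
def subpaths (γ : CPath) : Set CPath :=
  {σ | ∃ (c d : ℝ) (hc : γ.a ≤ c) (hcd : c < d) (hd : d ≤ γ.b), σ = γ.sub c d hc hcd hd}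

/-- finite total variation -/
def CPath.Rectifiable (γ : CPath) : Prop := BoundedVariationOn γ.fn (Icc γ.a γ.b)

/-- rectifiable and without constant subpath -/
def CPath.Admissible (γ : CPath) : Prop :=
  γ.Rectifiable ∧ ∀ σ ∈ subpaths γ, ¬ ∃ z, ∀ t ∈ Icc σ.a σ.b, σ.fn t = z

/-- injective path -/
def CPath.Jordan (γ : CPath) : Prop := InjOn γ.fn (Icc γ.a γ.b)

/-- `I` is the Riemann-Stieltjes integral `∫_γ g(z) dz`: the sums
`∑ g(γ(ξ_i)) (γ(t_{i+1}) - γ(t_i))` over tagged partitions of `[a,b]` converge to `I` as the mesh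
tends to zero. -/
def HasContourIntegral (γ : CPath) (g : ℂ → ℂ) (I : ℂ) : Prop :=
  ∀ ε > 0, ∃ δ > 0, ∀ (n : ℕ) (t ξ : ℕ → ℝ), t 0 = γ.a → t n = γ.b →
    (∀ i < n, t i ≤ ξ i ∧ ξ i ≤ t (i+1) ∧ t (i+1) - t i < δ) →
    ‖∑ i ∈ Finset.range n, g (γ.fn (ξ i)) * (γ.fn (t (i+1)) - γ.fn (t i)) - I‖ < ε

/-- `g` is an `𝓕`-derivative of `f`. -/
def IsDerivative (𝓕 : Set CPath) (f g : ℂ → ℂ) : Prop :=
  ∀ γ ∈ 𝓕, HasContourIntegral γ g (f (γ.fn γ.b) - f (γ.fn γ.a))

/-- The maximal collection `⟨𝓕⟩` (paths in `X`). -/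
def maxColl (X : Set ℂ) (𝓕 : Set CPath) : Set CPath :=
  {γ | γ.Admissible ∧ γ.image ⊆ X ∧ ∀ f g : ℂ → ℂ, ContinuousOn f X → ContinuousOn g X →
    IsDerivative 𝓕 f g → IsDerivative (subpaths γ) f g}

/-! ### the variation function -/

lemma exists_V (Γ : CPath) (hΓ : Γ.Rectifiable) : ∃ V : StieltjesFunction ℝ,
    ∀ x y, x ∈ Icc Γ.a Γ.b → y ∈ Icc Γ.a Γ.b → x ≤ y → ‖Γ.fn y - Γ.fn x‖ ≤ V y - V x := by
  set cl : ℝ → ℝ := fun t => max Γ.a (min Γ.b t) with hcl
  have hclm : Monotone cl := fun x y h => max_le_max le_rfl (min_le_min le_rfl h)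
  have hclc : Continuous cl := by fun_prop
  have hcli : ∀ t, cl t ∈ Icc Γ.a Γ.b := fun t =>
    ⟨le_max_left _ _, max_le Γ.lt.le (min_le_left _ _)⟩
  have hclid : ∀ t ∈ Icc Γ.a Γ.b, cl t = t := by
    intro t ht
    simp only [hcl]
    rw [min_eq_right ht.2, max_eq_right ht.1]
  set F : ℝ → ℂ := Γ.fn ∘ cl with hF
  have hFc : Continuous F := Γ.cont.comp_continuous hclc hcli
  have hBV : BoundedVariationOn F univ := by
    have := eVariationOn.comp_le_of_monotoneOn Γ.fn (s := Icc Γ.a Γ.b) (t := univ) cl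
      (hclm.monotoneOn _) (fun t _ => hcli t)
    exact ne_top_of_le_ne_top hΓ this
  have hR : F.rightLim = F := by
    funext x
    exact hFc.continuousWithinAt.rightLim_eq
  refine ⟨hBV.stieltjesFunctionRightLim Γ.a, fun x y hx hy hxy => ?_⟩
  have e : ∀ z, hBV.stieltjesFunctionRightLim Γ.a z = variationOnFromTo F univ Γ.a z := by
    intro z
    simp only [BoundedVariationOn.stieltjesFunctionRightLim_apply, hR]
  rw [e, e, variationOnFromTo.sub_right hBV.locallyBoundedVariationOn (mem_univ _) (mem_univ _)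
    (mem_univ _), variationOnFromTo.eq_of_le _ _ hxy]
  have h1 := eVariationOn.edist_le F (s := univ ∩ Icc x y) (x := y) (y := x)
    ⟨mem_univ _, right_mem_Icc.2 hxy⟩ ⟨mem_univ _, left_mem_Icc.2 hxy⟩
  have h2 : eVariationOn F (univ ∩ Icc x y) ≠ ∞ :=
    ne_top_of_le_ne_top hBV (eVariationOn.mono _ inter_subset_left)
  have h3 := ENNReal.toReal_mono h2 h1
  rw [edist_dist, ENNReal.toReal_ofReal dist_nonneg, dist_eq_norm] at h3
  have e1 : F x = Γ.fn x := by simp only [hF, Function.comp]; rw [hclid x hx]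
  have e2 : F y = Γ.fn y := by simp only [hF, Function.comp]; rw [hclid y hy]
  rwa [e1, e2] at h3

/-! ### integrals -/

/-- uniform partition -/
noncomputable def upart (x y : ℝ) (n : ℕ) (i : ℕ) : ℝ := x + i * ((y-x)/n)

lemma upart_zero (x y : ℝ) (n : ℕ) : upart x y n 0 = x := by simp [upart]

lemma upart_last (x y : ℝ) (n : ℕ) (hn : 0 < n) : upart x y n n = y := by
  have : (n:ℝ) ≠ 0 := by positivity
  unfold upart; field_simp; ring

lemma upart_succ (x y : ℝ) (n i : ℕ) : upart x y n (i+1) - upart x y n i = (y-x)/n := by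
  unfold upart; push_cast; ring

lemma upart_mono (x y : ℝ) (h : x ≤ y) (n : ℕ) : Monotone (upart x y n) := by
  apply monotone_nat_of_le_succ
  intro i
  have := upart_succ x y n i
  have h2 : 0 ≤ (y-x)/n := div_nonneg (by linarith) (Nat.cast_nonneg n)
  linarith

lemma exists_mesh (x y δ : ℝ) (hδ : 0 < δ) : ∃ n : ℕ, 0 < n ∧ (y-x)/n < δ := by
  obtain ⟨n, hn⟩ := exists_nat_gt ((y-x)/δ)
  refine ⟨n+1, by omega, ?_⟩
  rw [div_lt_iff₀ (by positivity)]
  rw [div_lt_iff₀ hδ] at hn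
  push_cast
  nlinarith

lemma lip1 {Γ : CPath} {V : StieltjesFunction ℝ}
    (hV : ∀ x y, x ∈ Icc Γ.a Γ.b → y ∈ Icc Γ.a Γ.b → x ≤ y → ‖Γ.fn y - Γ.fn x‖ ≤ V y - V x)
    {f g : ℂ → ℂ} (hd : IsDerivative (subpaths Γ) f g) (x y : ℝ) (hx : Γ.a ≤ x) (hxy : x ≤ y)
    (hy : y ≤ Γ.b) (M : ℝ) (hM : ∀ τ ∈ Icc x y, ‖g (Γ.fn τ)‖ ≤ M) :
    ‖f (Γ.fn y) - f (Γ.fn x)‖ ≤ M * (V y - V x) := by
  rcases eq_or_lt_of_le hxy with h | h
  · subst h; simp
  have hM0 : 0 ≤ M := (norm_nonneg _).trans (hM x ⟨le_rfl, hxy⟩)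
  apply le_of_forall_pos_le_add
  intro ε hε
  obtain ⟨δ, hδ, H⟩ := hd (Γ.sub x y hx h hy) ⟨x, y, hx, h, hy, rfl⟩ ε hε
  obtain ⟨n, hn, hnδ⟩ := exists_mesh x y δ hδ
  have hmono := upart_mono x y hxy n
  have hin : ∀ i ≤ n, upart x y n i ∈ Icc x y := by
    intro i hi
    constructor
    · have := hmono (Nat.zero_le i)
      rwa [upart_zero] at this
    · have := hmono hi
      rwa [upart_last x y n hn] at this
  have h1 := H n (upart x y n) (upart x y n) (upart_zero _ _ _) (upart_last _ _ _ hn) (by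
    intro i hi
    refine ⟨le_rfl, hmono (Nat.le_succ i), ?_⟩
    rw [upart_succ]; exact hnδ)
  have h2 : ‖∑ i ∈ Finset.range n, g (Γ.fn (upart x y n i)) *
      (Γ.fn (upart x y n (i+1)) - Γ.fn (upart x y n i))‖ ≤ M * (V y - V x) := by
    calc _ ≤ ∑ i ∈ Finset.range n, ‖g (Γ.fn (upart x y n i)) *
          (Γ.fn (upart x y n (i+1)) - Γ.fn (upart x y n i))‖ := norm_sum_le _ _
      _ ≤ ∑ i ∈ Finset.range n, M * (V (upart x y n (i+1)) - V (upart x y n i)) := by
          apply Finset.sum_le_sum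
          intro i hi
          have hi' := Finset.mem_range.1 hi
          rw [norm_mul]
          have a1 := hin i hi'.le
          have a2 := hin (i+1) hi'
          exact mul_le_mul (hM _ a1) (hV _ _ ⟨hx.trans a1.1, a1.2.trans hy⟩
            ⟨hx.trans a2.1, a2.2.trans hy⟩ (hmono (Nat.le_succ i))) (norm_nonneg _) hM0
      _ = M * (V y - V x) := by
          rw [← Finset.mul_sum, Finset.sum_range_sub (fun i => V (upart x y n i)), upart_zero,
            upart_last _ _ _ hn]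
  have e : f (Γ.fn y) - f (Γ.fn x) = (∑ i ∈ Finset.range n, g (Γ.fn (upart x y n i)) *
      (Γ.fn (upart x y n (i+1)) - Γ.fn (upart x y n i))) -
      (∑ i ∈ Finset.range n, g (Γ.fn (upart x y n i)) *
      (Γ.fn (upart x y n (i+1)) - Γ.fn (upart x y n i)) - (f (Γ.fn y) - f (Γ.fn x))) := by ring
  rw [e]
  refine (norm_sub_le _ _).trans (add_le_add h2 ?_)
  exact h1.le

/-- subtracting a linear function -/
lemma deriv_sub_const {𝓕 : Set CPath} {f g : ℂ → ℂ} (hd : IsDerivative 𝓕 f g) (c : ℂ) :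
    IsDerivative 𝓕 (fun z => f z - c * z) (fun z => g z - c) := by
  intro γ hγ ε hε
  obtain ⟨δ, hδ, H⟩ := hd γ hγ ε hε
  refine ⟨δ, hδ, fun n t ξ h0 hn hi => ?_⟩
  have h1 := H n t ξ h0 hn hi
  have e : ∑ i ∈ Finset.range n, (g (γ.fn (ξ i)) - c) * (γ.fn (t (i+1)) - γ.fn (t i)) -
      (f (γ.fn γ.b) - c * γ.fn γ.b - (f (γ.fn γ.a) - c * γ.fn γ.a)) =
      ∑ i ∈ Finset.range n, g (γ.fn (ξ i)) * (γ.fn (t (i+1)) - γ.fn (t i)) -
        (f (γ.fn γ.b) - f (γ.fn γ.a)) := by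
    have e1 : ∑ i ∈ Finset.range n, (g (γ.fn (ξ i)) - c) * (γ.fn (t (i+1)) - γ.fn (t i)) =
        ∑ i ∈ Finset.range n, g (γ.fn (ξ i)) * (γ.fn (t (i+1)) - γ.fn (t i)) -
        c * (γ.fn (t n) - γ.fn (t 0)) := by
      rw [← Finset.sum_range_sub (fun i => γ.fn (t i)), Finset.mul_sum, ← Finset.sum_sub_distrib]
      apply Finset.sum_congr rfl
      intro i _
      ring
    rw [e1, h0, hn]; ring
  rw [e]; exact h1

lemma deriv_id (𝓕 : Set CPath) : IsDerivative 𝓕 (fun z => z) (fun _ => 1) := by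
  intro γ _ ε hε
  refine ⟨1, one_pos, fun n t ξ h0 hn _ => ?_⟩
  simp only [one_mul]
  rw [Finset.sum_range_sub (fun i => γ.fn (t i)), h0, hn, sub_self, norm_zero]
  exact hε

/-! ### covering estimate -/

lemma cover_est {Γ : CPath} {V : StieltjesFunction ℝ}
    (hV : ∀ x y, x ∈ Icc Γ.a Γ.b → y ∈ Icc Γ.a Γ.b → x ≤ y → ‖Γ.fn y - Γ.fn x‖ ≤ V y - V x)
    {f g : ℂ → ℂ} (hg : ContinuousOn g Γ.image) (hd : IsDerivative (subpaths Γ) f g)
    (E : Set ℝ) (hE : IsClosed E) (hEs : E ⊆ Icc Γ.a Γ.b) (G : ℝ) (hG0 : 0 ≤ G)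
    (hG : ∀ x ∈ E, ‖g (Γ.fn x)‖ ≤ G) (w : ℂ) (hw : ‖w‖ = 1) (s0 s1 : ℝ)
    (hs : ∀ r ∈ Icc s0 s1, ∃ x ∈ E, (w * f (Γ.fn x)).re = r) :
    ENNReal.ofReal (s1 - s0) ≤ ENNReal.ofReal G * V.measure E := by
  -- uniform continuity
  have hgc : ContinuousOn (fun x => g (Γ.fn x)) (Icc Γ.a Γ.b) :=
    hg.comp Γ.cont (fun x hx => ⟨x, hx, rfl⟩)
  have huc := isCompact_Icc.uniformContinuousOn_of_continuous hgc
  rw [Metric.uniformContinuousOn_iff] at huc
  have hEc : IsCompact E := isCompact_Icc.of_isClosed_subset hE hEs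
  -- the claim for ε
  have key : ∀ ε : ℝ, 0 < ε → ENNReal.ofReal (s1 - s0) ≤ ENNReal.ofReal (G + ε) * V.measure E := by
    intro ε hε
    obtain ⟨δ, hδ, hδu⟩ := huc ε hε
    -- claim for small thickening
    have key2 : ∀ r : ℝ, 0 < r → ENNReal.ofReal (s1 - s0) ≤
        ENNReal.ofReal (G + ε) * V.measure (Metric.cthickening r E) := by
      intro r hr
      obtain ⟨n, hn, hnm⟩ := exists_mesh Γ.a Γ.b (min δ r) (lt_min hδ hr)
      have hnδ : (Γ.b - Γ.a)/n < δ := lt_of_lt_of_le hnm (min_le_left _ _)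
      have hnr : (Γ.b - Γ.a)/n < r := lt_of_lt_of_le hnm (min_le_right _ _)
      set t := upart Γ.a Γ.b n with ht
      have hmono : Monotone t := upart_mono _ _ Γ.lt.le n
      have ht0 : t 0 = Γ.a := upart_zero _ _ _
      have htn : t n = Γ.b := upart_last _ _ _ hn
      have hin : ∀ i ≤ n, t i ∈ Icc Γ.a Γ.b := by
        intro i hi
        exact ⟨ht0 ▸ hmono (Nat.zero_le i), htn ▸ hmono hi⟩
      classical
      set S := (Finset.range n).filter (fun i => (Icc (t i) (t (i+1)) ∩ E).Nonempty) with hS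
      set h : ℝ → ℝ := fun x => (w * f (Γ.fn x)).re with hh
      -- cover
      have hcov : Icc s0 s1 ⊆ ⋃ i ∈ S, h '' Icc (t i) (t (i+1)) := by
        intro r' hr'
        obtain ⟨x, hxE, hxr⟩ := hs r' hr'
        have hxI := hEs hxE
        -- find i
        have hex : ∃ i, x ≤ t (i+1) := ⟨n-1, by
          rw [show n - 1 + 1 = n by omega, htn]; exact hxI.2⟩
        have hi := Nat.find_spec hex
        set i := Nat.find hex with hidef
        have hin' : i < n := by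
          have : i ≤ n - 1 := Nat.find_min' hex (by
            rw [show n - 1 + 1 = n by omega, htn]; exact hxI.2)
          omega
        have hlow : t i ≤ x := by
          rcases Nat.eq_zero_or_pos i with h0 | h0
          · rw [h0, ht0]; exact hxI.1
          · have := Nat.find_min hex (m := i-1) (by omega)
            rw [show i - 1 + 1 = i by omega] at this
            exact (not_le.1 this).le
        simp only [mem_iUnion, exists_prop]
        refine ⟨i, ?_, x, ⟨hlow, hi⟩, hxr⟩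
        rw [hS, Finset.mem_filter]
        exact ⟨Finset.mem_range.2 hin', x, ⟨hlow, hi⟩, hxE⟩
      -- diameter of the pieces
      have hdiam : ∀ i ∈ S, volume (h '' Icc (t i) (t (i+1))) ≤
          ENNReal.ofReal (G + ε) * V.measure (Ioc (t i) (t (i+1))) := by
        intro i hi
        rw [hS, Finset.mem_filter] at hi
        obtain ⟨hi1, x0, hx0, hx0E⟩ := hi
        have hi1' := Finset.mem_range.1 hi1
        have hti := hin i hi1'.le
        have hti1 := hin (i+1) hi1'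
        have hM : ∀ τ ∈ Icc (t i) (t (i+1)), ‖g (Γ.fn τ)‖ ≤ G + ε := by
          intro τ hτ
          have hτI : τ ∈ Icc Γ.a Γ.b := ⟨hti.1.trans hτ.1, hτ.2.trans hti1.2⟩
          have hdist : dist τ x0 < δ := by
            rw [Real.dist_eq]
            have e := upart_succ Γ.a Γ.b n i
            rw [← ht] at e
            have : |τ - x0| ≤ t (i+1) - t i := by
              rw [abs_le]; constructor <;> linarith [hτ.1, hτ.2, hx0.1, hx0.2]
            linarith
          have h1 := hδu τ hτI x0 (hEs hx0E) hdist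
          rw [dist_eq_norm] at h1
          have h2 : ‖g (Γ.fn τ)‖ ≤ ‖g (Γ.fn x0)‖ + ‖g (Γ.fn τ) - g (Γ.fn x0)‖ := by
            have := norm_add_le (g (Γ.fn x0)) (g (Γ.fn τ) - g (Γ.fn x0))
            rwa [add_sub_cancel] at this
          linarith [hG x0 hx0E]
        refine (Real.volume_le_diam _).trans ?_
        rw [V.measure_Ioc, ← ENNReal.ofReal_mul (by positivity)]
        apply Metric.ediam_le
        rintro _ ⟨u, hu, rfl⟩ _ ⟨v, hv, rfl⟩
        rw [edist_dist]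
        apply ENNReal.ofReal_le_ofReal
        -- |h u - h v| ≤ (G+ε)(V(t(i+1)) - V(t i))
        have aux : ∀ u v : ℝ, u ∈ Icc (t i) (t (i+1)) → v ∈ Icc (t i) (t (i+1)) → u ≤ v →
            ‖f (Γ.fn v) - f (Γ.fn u)‖ ≤ (G + ε) * (V (t (i+1)) - V (t i)) := by
          intro u v hu hv huv
          have h1 := lip1 hV hd u v (hti.1.trans hu.1) huv (hv.2.trans hti1.2) (G+ε)
            (fun τ hτ => hM τ ⟨hu.1.trans hτ.1, hτ.2.trans hv.2⟩)
          refine h1.trans (mul_le_mul_of_nonneg_left ?_ (by positivity))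
          have a1 := V.mono hu.1
          have a2 := V.mono hv.2
          linarith
        have hnorm : ‖f (Γ.fn u) - f (Γ.fn v)‖ ≤ (G + ε) * (V (t (i+1)) - V (t i)) := by
          rcases le_total u v with huv | huv
          · rw [norm_sub_rev]; exact aux u v hu hv huv
          · exact aux v u hv hu huv
        rw [Real.dist_eq]
        have e : h u - h v = (w * (f (Γ.fn u) - f (Γ.fn v))).re := by
          simp only [hh]; rw [mul_sub, Complex.sub_re]
        rw [e]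
        refine (Complex.abs_re_le_norm _).trans ?_
        rw [norm_mul, hw, one_mul]
        exact hnorm
      -- assemble
      calc ENNReal.ofReal (s1 - s0) = volume (Icc s0 s1) := by rw [Real.volume_Icc]
        _ ≤ volume (⋃ i ∈ S, h '' Icc (t i) (t (i+1))) := measure_mono hcov
        _ ≤ ∑ i ∈ S, volume (h '' Icc (t i) (t (i+1))) := measure_biUnion_finset_le _ _
        _ ≤ ∑ i ∈ S, ENNReal.ofReal (G + ε) * V.measure (Ioc (t i) (t (i+1))) :=
            Finset.sum_le_sum hdiam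
        _ = ENNReal.ofReal (G + ε) * ∑ i ∈ S, V.measure (Ioc (t i) (t (i+1))) := by
            rw [Finset.mul_sum]
        _ = ENNReal.ofReal (G + ε) * V.measure (⋃ i ∈ S, Ioc (t i) (t (i+1))) := by
            rw [measure_biUnion_finset]
            · intro i _ j _ hij
              exact hmono.pairwise_disjoint_on_Ioc_succ hij
            · intro i _; exact measurableSet_Ioc
        _ ≤ ENNReal.ofReal (G + ε) * V.measure (Metric.cthickening r E) := by
            gcongr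
            intro x hx
            simp only [mem_iUnion, exists_prop] at hx
            obtain ⟨i, hi, hx⟩ := hx
            rw [hS, Finset.mem_filter] at hi
            obtain ⟨_, x0, hx0, hx0E⟩ := hi
            apply Metric.mem_cthickening_of_dist_le x x0 r E hx0E
            rw [Real.dist_eq]
            have e := upart_succ Γ.a Γ.b n i
            rw [← ht] at e
            have : |x - x0| ≤ t (i+1) - t i := by
              rw [abs_le]; constructor <;> linarith [hx.1, hx.2, hx0.1, hx0.2]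
            linarith
    have hlim := tendsto_measure_cthickening_of_isCompact (μ := V.measure) hEc
    have hlim2 : Tendsto (fun r => ENNReal.ofReal (G + ε) * V.measure (Metric.cthickening r E))
        (𝓝[>] 0) (𝓝 (ENNReal.ofReal (G + ε) * V.measure E)) :=
      (ENNReal.Tendsto.const_mul hlim (Or.inr ENNReal.ofReal_ne_top)).mono_left nhdsWithin_le_nhds
    apply ge_of_tendsto hlim2
    filter_upwards [self_mem_nhdsWithin] with r hr
    exact key2 r hr
  have hfin : V.measure E ≠ ∞ := hEc.measure_lt_top.ne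
  have hlim3 : Tendsto (fun ε : ℝ => ENNReal.ofReal (G + ε) * V.measure E) (𝓝[>] 0)
      (𝓝 (ENNReal.ofReal (G + 0) * V.measure E)) := by
    have h1 : Tendsto (fun ε : ℝ => ENNReal.ofReal (G + ε)) (𝓝[>] 0) (𝓝 (ENNReal.ofReal (G + 0))) :=
      (ENNReal.continuous_ofReal.tendsto _).comp
        ((tendsto_const_nhds.add tendsto_id).mono_left nhdsWithin_le_nhds)
    exact ENNReal.Tendsto.mul_const h1 (Or.inr hfin)
  rw [add_zero] at hlim3
  apply ge_of_tendsto hlim3
  filter_upwards [self_mem_nhdsWithin] with ε hε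
  exact key ε hε


/-! ### Jordan paths in the image -/

/-- the preimage of the arc -/
def arcPre (Γ γ : CPath) (S : Set ℝ) : Set ℝ := {x | x ∈ Icc Γ.a Γ.b ∧ Γ.fn x ∈ γ.fn '' S}

lemma arcPre_closed (Γ γ : CPath) (s t : ℝ) (hs : γ.a ≤ s) (ht : t ≤ γ.b) :
    IsClosed (arcPre Γ γ (Icc s t)) := by
  have h1 : IsCompact (γ.fn '' Icc s t) :=
    isCompact_Icc.image_of_continuousOn (γ.cont.mono (Icc_subset_Icc hs ht))
  exact Γ.cont.preimage_isClosed_of_isClosed isClosed_Icc h1.isClosed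

lemma exists_rot (z : ℂ) : ∃ w : ℂ, ‖w‖ = 1 ∧ (w * z).re = ‖z‖ := by
  by_cases hz : z = 0
  · exact ⟨1, by simp, by simp [hz]⟩
  · refine ⟨(starRingEnd ℂ) z / ‖z‖, ?_, ?_⟩
    · rw [norm_div, Complex.norm_conj, Complex.norm_real, norm_norm, div_self]
      exact norm_ne_zero_iff.2 hz
    · have h1 : (starRingEnd ℂ) z / ‖z‖ * z = (‖z‖ : ℂ) := by
        rw [div_mul_eq_mul_div, mul_comm, Complex.mul_conj, Complex.normSq_eq_norm_sq]
        have : (‖z‖ : ℂ) ≠ 0 := by exact_mod_cast norm_ne_zero_iff.2 hz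
        push_cast
        field_simp
      rw [h1, Complex.ofReal_re]

/-- Estimate along the Jordan path on a closed interval. -/
lemma arc_est {Γ γ : CPath} {V : StieltjesFunction ℝ}
    (hV : ∀ x y, x ∈ Icc Γ.a Γ.b → y ∈ Icc Γ.a Γ.b → x ≤ y → ‖Γ.fn y - Γ.fn x‖ ≤ V y - V x)
    (him : γ.image ⊆ Γ.image)
    {f g : ℂ → ℂ} (hf : ContinuousOn f Γ.image) (hg : ContinuousOn g Γ.image)
    (hd : IsDerivative (subpaths Γ) f g)
    (s t : ℝ) (hs : γ.a ≤ s) (hst : s ≤ t) (ht : t ≤ γ.b) (G : ℝ)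
    (hG : ∀ τ ∈ Icc s t, ‖g (γ.fn τ)‖ ≤ G) :
    ENNReal.ofReal ‖f (γ.fn t) - f (γ.fn s)‖ ≤
      ENNReal.ofReal G * V.measure (arcPre Γ γ (Icc s t)) := by
  have hG0 : 0 ≤ G := (norm_nonneg _).trans (hG s ⟨le_rfl, hst⟩)
  obtain ⟨w, hw, hwz⟩ := exists_rot (f (γ.fn t) - f (γ.fn s))
  have e : ‖f (γ.fn t) - f (γ.fn s)‖ = (w * f (γ.fn t)).re - (w * f (γ.fn s)).re := by
    rw [← hwz, mul_sub, Complex.sub_re]
  rw [e]
  apply cover_est hV hg hd (arcPre Γ γ (Icc s t)) (arcPre_closed Γ γ s t hs ht)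
    (fun x hx => hx.1) G hG0 _ w hw
  · intro r hr
    have hc : ContinuousOn (fun τ => (w * f (γ.fn τ)).re) (Icc s t) := by
      apply Complex.continuous_re.comp_continuousOn
      apply ContinuousOn.mul continuousOn_const
      apply hf.comp (γ.cont.mono (Icc_subset_Icc hs ht))
      intro τ hτ
      exact him ⟨τ, ⟨hs.trans hτ.1, hτ.2.trans ht⟩, rfl⟩
    obtain ⟨τ, hτ, hτr⟩ := intermediate_value_Icc hst hc hr
    obtain ⟨x, hx, hxτ⟩ := him ⟨τ, ⟨hs.trans hτ.1, hτ.2.trans ht⟩, rfl⟩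
    refine ⟨x, ⟨hx, τ, hτ, hxτ.symm⟩, ?_⟩
    rw [hxτ]; exact hτr
  · rintro x ⟨_, τ, hτ, hτx⟩
    rw [← hτx]; exact hG τ hτ

/-- Estimate with the half-open interval. -/
lemma arc_est' {Γ γ : CPath} {V : StieltjesFunction ℝ}
    (hV : ∀ x y, x ∈ Icc Γ.a Γ.b → y ∈ Icc Γ.a Γ.b → x ≤ y → ‖Γ.fn y - Γ.fn x‖ ≤ V y - V x)
    (him : γ.image ⊆ Γ.image)
    {f g : ℂ → ℂ} (hf : ContinuousOn f Γ.image) (hg : ContinuousOn g Γ.image)
    (hd : IsDerivative (subpaths Γ) f g)
    (s t : ℝ) (hs : γ.a ≤ s) (hst : s ≤ t) (ht : t ≤ γ.b) (G : ℝ)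
    (hG : ∀ τ ∈ Icc s t, ‖g (γ.fn τ)‖ ≤ G) :
    ENNReal.ofReal ‖f (γ.fn t) - f (γ.fn s)‖ ≤
      ENNReal.ofReal G * V.measure (arcPre Γ γ (Ioc s t)) := by
  rcases eq_or_lt_of_le hst with h | h
  · subst h; simp
  -- let s' decrease to s
  have hc : ContinuousWithinAt (fun s' => f (γ.fn s')) (Icc s t) s := by
    have h1 : ContinuousOn (fun s' => f (γ.fn s')) (Icc s t) := by
      apply hf.comp (γ.cont.mono (Icc_subset_Icc hs ht))
      intro τ hτ
      exact him ⟨τ, ⟨hs.trans hτ.1, hτ.2.trans ht⟩, rfl⟩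
    exact h1 s ⟨le_rfl, hst⟩
  have hlim : Tendsto (fun s' => ENNReal.ofReal ‖f (γ.fn t) - f (γ.fn s')‖) (𝓝[Ioc s t] s)
      (𝓝 (ENNReal.ofReal ‖f (γ.fn t) - f (γ.fn s)‖)) := by
    apply (ENNReal.continuous_ofReal.tendsto _).comp
    apply Tendsto.norm
    exact tendsto_const_nhds.sub (hc.tendsto.mono_left (nhdsWithin_mono _ Ioc_subset_Icc_self))
  have hne : (𝓝[Ioc s t] s).NeBot := by
    rw [nhdsWithin_Ioc_eq_nhdsGT h]; infer_instance
  apply le_of_tendsto hlim
  filter_upwards [self_mem_nhdsWithin] with s' hs'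
  refine (arc_est hV him hf hg hd s' t (hs.trans hs'.1.le) hs'.2 ht G
    (fun τ hτ => hG τ ⟨hs'.1.le.trans hτ.1, hτ.2⟩)).trans ?_
  gcongr
  rintro x ⟨hx1, τ, hτ, hτx⟩
  exact ⟨hx1, τ, ⟨lt_of_lt_of_le hs'.1 hτ.1, hτ.2⟩, hτx⟩

lemma arcPre_meas {Γ γ : CPath} (hJ : γ.Jordan) (s t : ℝ) (hs : γ.a ≤ s) (hst : s ≤ t)
    (ht : t ≤ γ.b) : MeasurableSet (arcPre Γ γ (Ioc s t)) := by
  have e : arcPre Γ γ (Ioc s t) = arcPre Γ γ (Icc s t) \ arcPre Γ γ (Icc s s) := by
    ext x
    simp only [arcPre, Set.mem_sdiff, mem_ofPred_eq, not_and]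
    constructor
    · rintro ⟨hx1, τ, hτ, hτx⟩
      refine ⟨⟨hx1, τ, ⟨hτ.1.le, hτ.2⟩, hτx⟩, fun _ => ?_⟩
      rintro ⟨τ', hτ', hτ'x⟩
      rw [Icc_self, mem_singleton_iff] at hτ'
      subst hτ'
      have := hJ ⟨hs, hst.trans ht⟩ ⟨hs.trans hτ.1.le, hτ.2.trans ht⟩ (hτ'x.trans hτx.symm)
      exact absurd this hτ.1.ne
    · rintro ⟨⟨hx1, τ, hτ, hτx⟩, h2⟩
      refine ⟨hx1, τ, ⟨lt_of_le_of_ne hτ.1 ?_, hτ.2⟩, hτx⟩
      rintro rfl
      exact h2 hx1 ⟨s, by simp, hτx⟩
  rw [e]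
  exact (arcPre_closed Γ γ s t hs ht).measurableSet.diff
    (arcPre_closed Γ γ s s hs (hst.trans ht)).measurableSet

/-- Sums over partitions. -/
lemma sum_arc {Γ γ : CPath} (V : StieltjesFunction ℝ) (hJ : γ.Jordan) (n : ℕ) (t : ℕ → ℝ)
    (h0 : γ.a ≤ t 0) (hn : t n ≤ γ.b) (ht : ∀ i < n, t i ≤ t (i+1)) :
    ∑ i ∈ Finset.range n, V.measure (arcPre Γ γ (Ioc (t i) (t (i+1)))) ≤
      V.measure (Icc Γ.a Γ.b) := by
  have hmon : ∀ j ≤ n, ∀ i ≤ j, t i ≤ t j := by
    intro j hj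
    induction j with
    | zero => intro i hi; rw [Nat.le_zero.1 hi]
    | succ j ih =>
      intro i hi
      rcases Nat.lt_or_ge i (j+1) with h | h
      · exact (ih (by omega) i (by omega)).trans (ht j (by omega))
      · rw [le_antisymm hi h]
  have hlo : ∀ i ≤ n, γ.a ≤ t i := fun i hi => h0.trans (hmon i hi 0 (Nat.zero_le i))
  have hhi : ∀ i ≤ n, t i ≤ γ.b := fun i hi => (hmon n le_rfl i hi).trans hn
  rw [← measure_biUnion_finset]
  · apply measure_mono
    intro x hx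
    simp only [mem_iUnion, exists_prop] at hx
    obtain ⟨i, _, hx⟩ := hx
    exact hx.1
  · intro i hi j hj hij
    have hi' := Finset.mem_range.1 (Finset.mem_coe.1 hi)
    have hj' := Finset.mem_range.1 (Finset.mem_coe.1 hj)
    rw [Function.onFun, Set.disjoint_left]
    rintro x ⟨_, τ, hτ, hτx⟩ ⟨_, τ', hτ', hτ'x⟩
    have heq : τ = τ' := hJ ⟨(hlo i hi'.le).trans hτ.1.le, hτ.2.trans (hhi (i+1) hi')⟩
      ⟨(hlo j hj'.le).trans hτ'.1.le, hτ'.2.trans (hhi (j+1) hj')⟩ (hτx.trans hτ'x.symm)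
    subst heq
    rcases lt_or_gt_of_ne hij with h | h
    · have := hmon j hj'.le (i+1) h
      exact absurd (hτ.2.trans this) (not_le.2 hτ'.1)
    · have := hmon i hi'.le (j+1) h
      exact absurd (hτ'.2.trans this) (not_le.2 hτ.1)
  · intro i hi
    have hi' := Finset.mem_range.1 hi
    exact arcPre_meas hJ _ _ (hlo i hi'.le) (ht i hi') (hhi (i+1) hi')

lemma jordan_rect {Γ γ : CPath} (hΓ : Γ.Rectifiable) (hJ : γ.Jordan) (him : γ.image ⊆ Γ.image) :
    γ.Rectifiable := by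
  obtain ⟨V, hV⟩ := exists_V Γ hΓ
  have hfin : V.measure (Icc Γ.a Γ.b) ≠ ∞ := isCompact_Icc.measure_lt_top.ne
  apply ne_top_of_le_ne_top hfin
  unfold eVariationOn
  apply iSup_le
  rintro ⟨n, u, hu, hus⟩
  simp only
  refine le_trans (Finset.sum_le_sum ?_) (sum_arc (Γ := Γ) V hJ n u (hus 0).1 (hus n).2
    (fun i _ => hu (Nat.le_succ i)))
  intro i _
  have h1 := arc_est' hV him continuousOn_id (continuousOn_const (c := (1:ℂ))) (deriv_id _)
    (u i) (u (i+1)) (hus i).1 (hu (Nat.le_succ i)) (hus (i+1)).2 1 (fun τ _ => by simp)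
  rw [ENNReal.ofReal_one, one_mul] at h1
  rw [edist_dist, dist_eq_norm]
  exact h1

/-- The main theorem. -/
theorem jordan_mem {Γ γ : CPath} (hΓ : Γ.Rectifiable) (hJ : γ.Jordan)
    (him : γ.image ⊆ Γ.image) : γ ∈ maxColl Γ.image (subpaths Γ) := by
  refine ⟨⟨jordan_rect hΓ hJ him, ?_⟩, him, ?_⟩
  · rintro σ ⟨c, d, hc, hcd, hd, rfl⟩ ⟨z, hz⟩
    have h1 := hz c ⟨le_rfl, hcd.le⟩
    have h2 := hz d ⟨hcd.le, le_rfl⟩
    have h3 : c = d := hJ ⟨hc, hcd.le.trans hd⟩ ⟨hc.trans hcd.le, hd⟩ (h1.trans h2.symm)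
    exact absurd h3 hcd.ne
  · intro f g hf hg hd
    rintro σ ⟨c, d, hc, hcd, hdb, rfl⟩
    obtain ⟨V, hV⟩ := exists_V Γ hΓ
    have hfin : V.measure (Icc Γ.a Γ.b) ≠ ∞ := isCompact_Icc.measure_lt_top.ne
    set L : ℝ := (V.measure (Icc Γ.a Γ.b)).toReal with hL
    have hL0 : 0 ≤ L := ENNReal.toReal_nonneg
    intro ε hε
    -- uniform continuity of g ∘ γ
    have hgc : ContinuousOn (fun x => g (γ.fn x)) (Icc γ.a γ.b) :=
      hg.comp γ.cont (fun x hx => him ⟨x, hx, rfl⟩)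
    have huc := isCompact_Icc.uniformContinuousOn_of_continuous hgc
    rw [Metric.uniformContinuousOn_iff] at huc
    set η : ℝ := ε / (2 * (L + 1)) with hη
    have hη0 : 0 < η := by positivity
    obtain ⟨δ, hδ, hδu⟩ := huc η hη0
    refine ⟨δ, hδ, fun n t ξ h0 hn hi => ?_⟩
    have h0' : t 0 = c := h0
    have hn' : t n = d := hn
    have ht : ∀ i < n, t i ≤ t (i+1) := fun i hin => (hi i hin).1.trans (hi i hin).2.1
    have hmon : ∀ j ≤ n, ∀ i ≤ j, t i ≤ t j := by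
      intro j hj
      induction j with
      | zero => intro i hi; rw [Nat.le_zero.1 hi]
      | succ j ih =>
        intro i hi
        rcases Nat.lt_or_ge i (j+1) with h | h
        · exact (ih (by omega) i (by omega)).trans (ht j (by omega))
        · rw [le_antisymm hi h]
    have hlo : ∀ i ≤ n, γ.a ≤ t i := fun i hi' => by
      have := hmon i hi' 0 (Nat.zero_le i)
      rw [h0'] at this; exact hc.trans this
    have hhi : ∀ i ≤ n, t i ≤ γ.b := fun i hi' => by
      have := hmon n le_rfl i hi'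
      rw [hn'] at this; exact this.trans hdb
    -- termwise bound
    have hterm : ∀ i < n, ‖g (γ.fn (ξ i)) * (γ.fn (t (i+1)) - γ.fn (t i)) -
        (f (γ.fn (t (i+1))) - f (γ.fn (t i)))‖ ≤
        η * (V.measure (arcPre Γ γ (Ioc (t i) (t (i+1))))).toReal := by
      intro i hin
      obtain ⟨a1, a2, a3⟩ := hi i hin
      set cc := g (γ.fn (ξ i)) with hcc
      have hsub : ContinuousOn (fun z => f z - cc * z) Γ.image :=
        hf.sub (continuousOn_const.mul continuousOn_id)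
      have hsubg : ContinuousOn (fun z => g z - cc) Γ.image := hg.sub continuousOn_const
      have hξ : ξ i ∈ Icc γ.a γ.b := ⟨(hlo i hin.le).trans a1, a2.trans (hhi (i+1) hin)⟩
      have h1 := arc_est' hV him hsub hsubg (deriv_sub_const hd cc) (t i) (t (i+1))
        (hlo i hin.le) (ht i hin) (hhi (i+1) hin) η (by
          intro τ hτ
          have hτI : τ ∈ Icc γ.a γ.b := ⟨(hlo i hin.le).trans hτ.1, hτ.2.trans (hhi (i+1) hin)⟩
          have hdist : dist τ (ξ i) < δ := by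
            rw [Real.dist_eq]
            have : |τ - ξ i| ≤ t (i+1) - t i := by
              rw [abs_le]; constructor <;> linarith [hτ.1, hτ.2]
            linarith
          have := hδu τ hτI (ξ i) hξ hdist
          rw [dist_eq_norm] at this
          exact this.le)
      have hfin2 : V.measure (arcPre Γ γ (Ioc (t i) (t (i+1)))) ≠ ∞ :=
        ne_top_of_le_ne_top hfin (measure_mono (fun x hx => hx.1))
      have h2 := ENNReal.toReal_mono (ENNReal.mul_ne_top ENNReal.ofReal_ne_top hfin2) h1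
      rw [ENNReal.toReal_ofReal (norm_nonneg _), ENNReal.toReal_mul,
        ENNReal.toReal_ofReal hη0.le] at h2
      refine le_trans (le_of_eq ?_) h2
      rw [← norm_neg]
      congr 1
      ring
    have e : ∑ i ∈ Finset.range n, g (γ.fn (ξ i)) * (γ.fn (t (i+1)) - γ.fn (t i)) -
        (f (γ.fn d) - f (γ.fn c)) =
        ∑ i ∈ Finset.range n, (g (γ.fn (ξ i)) * (γ.fn (t (i+1)) - γ.fn (t i)) -
          (f (γ.fn (t (i+1))) - f (γ.fn (t i)))) := by
      rw [Finset.sum_sub_distrib, Finset.sum_range_sub (fun i => f (γ.fn (t i))), h0', hn']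
    show ‖∑ i ∈ Finset.range n, g (γ.fn (ξ i)) * (γ.fn (t (i+1)) - γ.fn (t i)) -
        (f (γ.fn d) - f (γ.fn c))‖ < ε
    rw [e]
    have hsum := sum_arc (Γ := Γ) V hJ n t (hlo 0 (Nat.zero_le n)) (hhi n le_rfl) ht
    calc _ ≤ ∑ i ∈ Finset.range n, ‖g (γ.fn (ξ i)) * (γ.fn (t (i+1)) - γ.fn (t i)) -
          (f (γ.fn (t (i+1))) - f (γ.fn (t i)))‖ := norm_sum_le _ _
      _ ≤ ∑ i ∈ Finset.range n, η * (V.measure (arcPre Γ γ (Ioc (t i) (t (i+1))))).toReal :=
          Finset.sum_le_sum (fun i hi => hterm i (Finset.mem_range.1 hi))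
      _ = η * (∑ i ∈ Finset.range n, V.measure (arcPre Γ γ (Ioc (t i) (t (i+1))))).toReal := by
          rw [← Finset.mul_sum, ENNReal.toReal_sum]
          intro i _
          exact ne_top_of_le_ne_top hfin (measure_mono (fun x hx => hx.1))
      _ ≤ η * L := by
          apply mul_le_mul_of_nonneg_left _ hη0.le
          exact ENNReal.toReal_mono hfin hsum
      _ < ε := by
          rw [hη, div_mul_eq_mul_div, div_lt_iff₀ (by positivity)]
          nlinarith

end Pool.Agent.V1193.Paths
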