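import Mathlib

set_option autoImplicit false
open MeasureTheory Filter Topology Complex
open scoped Real ComplexConjugate ENNReal

namespace Pool.Agent.V1193

noncomputable section

instance factOne : Fact ((0 : ℝ) < 1) := ⟨one_pos⟩

/-- The atomic singular inner function. -/
def Sf (z : ℂ) : ℂ := Complex.exp ((z + 1) / (z - 1))

lemma re_quot (z : ℂ) : ((z + 1) / (z - 1)).re = (Complex.normSq z - 1) / Complex.normSq (z - 1) := by
  rw [Complex.div_re]
  simp only [Complex.add_re, Complex.sub_re, Complex.one_re, Complex.add_im, Complex.sub_im,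
    Complex.one_im, Complex.normSq_apply]
  rw [← add_div]
  congr 1
  ring

lemma norm_Sf (z : ℂ) : ‖Sf z‖ = Real.exp ((Complex.normSq z - 1) / Complex.normSq (z - 1)) := by
  rw [Sf, Complex.norm_exp, re_quot]

lemma norm_Sf_le {z : ℂ} (hz : ‖z‖ ≤ 1) : ‖Sf z‖ ≤ 1 := by
  rw [norm_Sf, Real.exp_le_one_iff]
  apply div_nonpos_of_nonpos_of_nonneg _ (Complex.normSq_nonneg _)
  rw [Complex.normSq_eq_norm_sq]
  nlinarith [norm_nonneg z]

lemma norm_Sf_eq {z : ℂ} (hz : ‖z‖ = 1) : ‖Sf z‖ = 1 := by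
  rw [norm_Sf, Complex.normSq_eq_norm_sq, hz]
  simp

lemma Sf_diffAt {z : ℂ} (hz : z ≠ 1) : DifferentiableAt ℂ Sf z := by
  unfold Sf
  apply DifferentiableAt.cexp
  apply DifferentiableAt.div
  · fun_prop
  · fun_prop
  · exact sub_ne_zero.mpr hz

lemma Sf_conj (z : ℂ) : Sf (conj z) = conj (Sf z) := by
  simp [Sf, ← Complex.exp_conj]

lemma Sf_diffOn : DifferentiableOn ℂ Sf (Metric.ball 0 1) := by
  intro z hz
  apply (Sf_diffAt _).differentiableWithinAt
  rintro rfl
  simp at hz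

lemma Sf_meas : Measurable Sf := by
  unfold Sf
  fun_prop

/-- boundary function -/
def aF (t : AddCircle (1 : ℝ)) : ℂ := Sf (fourier 1 t)

lemma norm_fourier (m : ℤ) (t : AddCircle (1 : ℝ)) : ‖(fourier m t : ℂ)‖ = 1 := by
  rw [fourier_apply]; exact Circle.norm_coe _

lemma norm_aF (t : AddCircle (1 : ℝ)) : ‖aF t‖ = 1 := norm_Sf_eq (norm_fourier 1 t)

lemma aF_meas : Measurable aF := Sf_meas.comp (map_continuous (fourier 1)).measurable

lemma aF_neg (t : AddCircle (1 : ℝ)) : aF (-t) = conj (aF t) := by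
  rw [aF, aF, ← Sf_conj]
  congr 1
  rw [← fourier_neg]
  simp

/-- Fourier coefficients of the boundary function -/
def cf (m : ℤ) : ℂ := fourierCoeff aF m

lemma cf_real (m : ℤ) : conj (cf m) = cf m := by
  unfold cf fourierCoeff
  rw [← integral_conj]
  rw [← integral_neg_eq_self]
  apply integral_congr_ae
  filter_upwards with t
  rw [aF_neg]
  simp only [smul_eq_mul, map_mul, Complex.conj_conj]
  congr 1
  rw [← fourier_neg]
  simp

/-- the dilated integral -/
def Ir (r : ℝ) (m : ℤ) : ℂ := ∫ x in (0 : ℝ)..1, (fourier (-m) (x : AddCircle (1 : ℝ)) : ℂ) * Sf (r * fourier 1 (x : AddCircle (1 : ℝ)))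

lemma Ir_eq (r : ℝ) (m : ℤ) : Ir r m = (2 * (π : ℂ))⁻¹ * ∫ θ in (0 : ℝ)..(2 * π), Complex.exp (-(m : ℂ) * θ * I) * Sf (r * Complex.exp (θ * I)) := by
  unfold Ir
  have h := intervalIntegral.integral_comp_mul_left (a := 0) (b := 1) (c := 2 * π)
    (fun θ : ℝ => Complex.exp (-(m : ℂ) * θ * I) * Sf (r * Complex.exp (θ * I))) (by positivity)
  rw [mul_zero, mul_one] at h
  rw [show (∫ θ in (0 : ℝ)..(2 * π), Complex.exp (-(m : ℂ) * θ * I) * Sf (r * Complex.exp (θ * I))) =
    (2 * (π : ℂ)) * ((2 * π)⁻¹ • ∫ θ in (0 : ℝ)..(2 * π), Complex.exp (-(m : ℂ) * θ * I) * Sf (r * Complex.exp (θ * I))) by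
      rw [Complex.real_smul, ← mul_assoc]
      push_cast
      rw [mul_inv_cancel₀, one_mul]
      simp [Real.pi_ne_zero]]
  rw [← h, ← mul_assoc, inv_mul_cancel₀, one_mul]
  · congr 1
    ext x
    rw [fourier_coe_apply, fourier_coe_apply]
    push_cast
    congr 2
    · ring_nf
    · congr 2
      ring_nf
  · simp [Real.pi_ne_zero]

lemma Ir_nonneg {r : ℝ} (h0 : 0 < r) (h1 : r < 1) (m : ℕ) :
    Ir r m = (r : ℂ) ^ m * ((m.factorial : ℂ)⁻¹ * iteratedDeriv m Sf 0) := by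
  have hd : DifferentiableOn ℂ Sf (Metric.closedBall 0 r) :=
    Sf_diffOn.mono (Metric.closedBall_subset_ball h1)
  have h := hd.circleIntegral_one_div_sub_center_pow_smul h0 m
  rw [circleIntegral] at h
  rw [Ir_eq]
  have hr : (r : ℂ) ≠ 0 := by exact_mod_cast h0.ne'
  have e : ∀ θ : ℝ, deriv (circleMap 0 r) θ • (1 / (circleMap 0 r θ - 0) ^ (m + 1)) • Sf (circleMap 0 r θ)
      = (I * ((r : ℂ) ^ m)⁻¹) * (Complex.exp (-(m : ℂ) * θ * I) * Sf (r * Complex.exp (θ * I))) := by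
    intro θ
    rw [deriv_circleMap]
    simp only [circleMap, zero_add, sub_zero, smul_eq_mul]
    have h2 : Complex.exp (-(m : ℂ) * θ * I) = (Complex.exp (θ * I) ^ m)⁻¹ := by
      rw [← Complex.exp_nat_mul, ← Complex.exp_neg]
      congr 1
      ring
    rw [h2]
    have h3 : Complex.exp (θ * I) ≠ 0 := Complex.exp_ne_zero _
    field_simp
    ring
  simp_rw [e] at h
  rw [intervalIntegral.integral_const_mul] at h
  have h4 : (∫ θ in (0 : ℝ)..(2 * π), Complex.exp (-(m : ℂ) * θ * I) * Sf (r * Complex.exp (θ * I)))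
     = 2 * π * ((r : ℂ) ^ m * ((m.factorial : ℂ)⁻¹ * iteratedDeriv m Sf 0)) := by
    have h5 : (I * ((r : ℂ) ^ m)⁻¹) ≠ 0 := by
      simp [hr]
    apply mul_left_cancel₀ h5
    rw [h, smul_eq_mul]
    field_simp
  push_cast
  rw [h4]
  have : (π : ℂ) ≠ 0 := by exact_mod_cast Real.pi_ne_zero
  field_simp

lemma Ir_neg {r : ℝ} (h0 : 0 < r) (h1 : r < 1) (k : ℕ) :
    Ir r (-((k : ℤ) + 1)) = 0 := by
  have hd : DifferentiableOn ℂ (fun z => z ^ k * Sf z) (Metric.closedBall 0 r) :=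
    (differentiableOn_id.pow k).mul (Sf_diffOn.mono (Metric.closedBall_subset_ball h1))
  have h : (∮ z in C(0, r), z ^ k * Sf z) = 0 := by
    apply Complex.circleIntegral_eq_zero_of_differentiable_on_off_countable h0.le Set.countable_empty
    · exact hd.continuousOn
    · intro z hz
      have hz2 : z ∈ Metric.ball (0 : ℂ) r := hz.1
      apply (hd.mono Metric.ball_subset_closedBall).differentiableAt
      exact Metric.isOpen_ball.mem_nhds hz2
  rw [circleIntegral] at h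
  rw [Ir_eq]
  have hr : (r : ℂ) ≠ 0 := by exact_mod_cast h0.ne'
  have e : ∀ θ : ℝ, deriv (circleMap 0 r) θ • ((circleMap 0 r θ) ^ k * Sf (circleMap 0 r θ))
      = (I * ((r : ℂ) ^ (k + 1))) * (Complex.exp (-((-((k : ℤ) + 1) : ℤ) : ℂ) * θ * I) * Sf (r * Complex.exp (θ * I))) := by
    intro θ
    rw [deriv_circleMap]
    simp only [circleMap, zero_add, smul_eq_mul]
    have h2 : Complex.exp (-((-((k : ℤ) + 1) : ℤ) : ℂ) * θ * I) = (Complex.exp (θ * I) ^ (k + 1)) := by
      rw [← Complex.exp_nat_mul]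
      congr 1
      push_cast
      ring
    rw [h2]
    ring
  simp_rw [e] at h
  rw [intervalIntegral.integral_const_mul] at h
  have h5 : (I * ((r : ℂ) ^ (k + 1))) ≠ 0 := by
      simp [hr]
  rw [(mul_eq_zero.mp h).resolve_left h5, mul_zero]

lemma Ir_tendsto (m : ℤ) : Tendsto (fun r : ℝ => Ir r m) (𝓝[<] 1) (𝓝 (cf m)) := by
  have hc : cf m = ∫ x in (0 : ℝ)..1, (fourier (-m) (x : AddCircle (1 : ℝ)) : ℂ) * Sf (fourier 1 (x : AddCircle (1 : ℝ))) := by
    unfold cf
    rw [fourierCoeff_eq_intervalIntegral aF m 0]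
    simp [aF]
  rw [hc]
  unfold Ir
  apply intervalIntegral.tendsto_integral_filter_of_dominated_convergence (fun _ => (1 : ℝ))
  · filter_upwards with r
    apply Measurable.aestronglyMeasurable
    apply Measurable.mul
    · exact ((map_continuous (fourier (-m))).comp (AddCircle.continuous_mk' 1)).measurable
    · exact Sf_meas.comp (measurable_const.mul (((map_continuous (fourier 1)).comp (AddCircle.continuous_mk' 1)).measurable))
  · have : Set.Ioo (-1 : ℝ) 1 ∈ 𝓝[<] (1 : ℝ) := Ioo_mem_nhdsLT (by norm_num)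
    filter_upwards [this] with r hr
    filter_upwards with x hx
    rw [norm_mul, norm_fourier, one_mul]
    apply norm_Sf_le
    rw [norm_mul, norm_fourier, mul_one, Complex.norm_real, Real.norm_eq_abs]
    exact (abs_lt.mpr hr).le
  · simp
  · have hae : ∀ᵐ x : ℝ, x ≠ 1 := by
      simp [ae_iff, measure_singleton]
    filter_upwards [hae] with x hx hx2
    apply Tendsto.const_mul
    have hne : (fourier 1 (x : AddCircle (1 : ℝ)) : ℂ) ≠ 1 := by
      rw [fourier_coe_apply]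
      intro h
      rw [Complex.exp_eq_one_iff] at h
      obtain ⟨n, hn⟩ := h
      rw [Set.uIoc_of_le zero_le_one] at hx2
      have h3 : (x : ℂ) = n := by
        have : (2 * (π : ℂ) * I) ≠ 0 := by simp [Real.pi_ne_zero]
        apply mul_left_cancel₀ this
        push_cast at hn
        linear_combination hn
      have h4 : x = n := by exact_mod_cast h3
      have h5 : x < 1 := lt_of_le_of_ne hx2.2 hx
      have h6 : (0 : ℝ) < n := by rw [← h4]; exact hx2.1
      have h7 : (n : ℝ) < 1 := by rw [← h4]; exact h5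
      have h8 : 0 < n := by exact_mod_cast h6
      have h9 : n < 1 := by exact_mod_cast h7
      omega
    have hcont : ContinuousAt Sf (fourier 1 (x : AddCircle (1 : ℝ)) : ℂ) := (Sf_diffAt hne).continuousAt
    have : Tendsto (fun r : ℝ => (r : ℂ) * (fourier 1 (x : AddCircle (1 : ℝ)) : ℂ)) (𝓝[<] 1) (𝓝 (fourier 1 (x : AddCircle (1 : ℝ)) : ℂ)) := by
      have h1 : Tendsto (fun r : ℝ => (r : ℂ) * (fourier 1 (x : AddCircle (1 : ℝ)) : ℂ)) (𝓝 1) (𝓝 (((1 : ℝ) : ℂ) * (fourier 1 (x : AddCircle (1 : ℝ)) : ℂ))) := by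
        apply Continuous.tendsto
        fun_prop
      rw [Complex.ofReal_one, one_mul] at h1
      exact h1.mono_left nhdsWithin_le_nhds
    exact hcont.tendsto.comp this

lemma cf_nonneg (m : ℕ) : cf m = (m.factorial : ℂ)⁻¹ * iteratedDeriv m Sf 0 := by
  have h1 := Ir_tendsto m
  have h2 : Tendsto (fun r : ℝ => Ir r m) (𝓝[<] 1) (𝓝 ((m.factorial : ℂ)⁻¹ * iteratedDeriv m Sf 0)) := by
    have h3 : Tendsto (fun r : ℝ => (r : ℂ) ^ m * ((m.factorial : ℂ)⁻¹ * iteratedDeriv m Sf 0)) (𝓝 1) (𝓝 ((((1 : ℝ) : ℂ)) ^ m * ((m.factorial : ℂ)⁻¹ * iteratedDeriv m Sf 0))) := by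
      apply Continuous.tendsto
      fun_prop
    rw [Complex.ofReal_one, one_pow, one_mul] at h3
    refine (h3.mono_left nhdsWithin_le_nhds).congr' ?_
    have : Set.Ioo (0 : ℝ) 1 ∈ 𝓝[<] (1 : ℝ) := Ioo_mem_nhdsLT (by norm_num)
    filter_upwards [this] with r hr
    exact (Ir_nonneg hr.1 hr.2 m).symm
  exact tendsto_nhds_unique h1 h2

lemma cf_neg (m : ℤ) (hm : m < 0) : cf m = 0 := by
  have h1 := Ir_tendsto m
  obtain ⟨k, rfl⟩ : ∃ k : ℕ, m = -((k : ℤ) + 1) := ⟨(-m - 1).toNat, by omega⟩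
  have h2 : Tendsto (fun r : ℝ => Ir r (-((k : ℤ) + 1))) (𝓝[<] 1) (𝓝 0) := by
    refine tendsto_const_nhds.congr' ?_
    have : Set.Ioo (0 : ℝ) 1 ∈ 𝓝[<] (1 : ℝ) := Ioo_mem_nhdsLT (by norm_num)
    filter_upwards [this] with r hr
    exact (Ir_neg hr.1 hr.2 k).symm
  exact tendsto_nhds_unique h1 h2

lemma cf_hasSum {ρ : ℝ} (h0 : 0 ≤ ρ) (h1 : ρ < 1) :
    HasSum (fun j : ℕ => cf j * (ρ : ℂ) ^ j) (Sf ρ) := by
  have h := Complex.hasSum_taylorSeries_on_ball (r := 1) (c := 0) (z := (ρ : ℂ)) (f := Sf) (by simpa using Sf_diffOn)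
    (by simp [abs_of_nonneg h0, h1])
  have e : (fun j : ℕ => cf j * (ρ : ℂ) ^ j) = fun n : ℕ => (n.factorial : ℂ)⁻¹ • ((ρ : ℂ) - 0) ^ n • iteratedDeriv n Sf 0 := by
    ext j
    rw [cf_nonneg]
    simp only [sub_zero, smul_eq_mul]
    ring
  rw [e]
  exact h

/-- the L² functions `e_k a` -/
lemma memLp_Fk (k : ℤ) : MemLp (fun t : AddCircle (1 : ℝ) => (fourier k t : ℂ) * aF t) 2 AddCircle.haarAddCircle := by
  apply MemLp.of_bound (C := 1)
  · exact ((map_continuous (fourier k)).measurable.mul aF_meas).aestronglyMeasurable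
  · filter_upwards with t
    rw [norm_mul, norm_fourier, norm_aF, one_mul]

def Fk (k : ℤ) : Lp ℂ 2 (AddCircle.haarAddCircle (T := 1)) := (memLp_Fk k).toLp _

lemma Fk_repr (k j : ℤ) : fourierBasis.repr (Fk k) j = cf (j - k) := by
  rw [fourierBasis_repr, show fourierCoeff (Fk k : AddCircle (1 : ℝ) → ℂ) = _ from
    fourierCoeff_congr_ae (memLp_Fk k).coeFn_toLp, cf]
  unfold fourierCoeff
  congr 1
  ext t
  simp only [smul_eq_mul]
  rw [← mul_assoc, ← fourier_add]
  congr 3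
  ring

lemma Fk_inner (k l : ℤ) : inner ℂ (Fk k) (Fk l) = if k = l then (1 : ℂ) else 0 := by
  have h := (orthonormal_iff_ite.mp (orthonormal_fourier (T := 1))) k l
  rw [← h, MeasureTheory.L2.inner_def, MeasureTheory.L2.inner_def]
  apply integral_congr_ae
  filter_upwards [(memLp_Fk k).coeFn_toLp, (memLp_Fk l).coeFn_toLp, coeFn_fourierLp 2 k, coeFn_fourierLp 2 l] with t h1 h2 h3 h4
  rw [show (Fk k : AddCircle (1 : ℝ) → ℂ) t = _ from h1, show (Fk l : AddCircle (1 : ℝ) → ℂ) t = _ from h2, h3, h4]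
  simp only [RCLike.inner_apply', map_mul]
  have : conj (aF t) * aF t = 1 := by
    rw [mul_comm, Complex.mul_conj, Complex.normSq_eq_norm_sq, norm_aF]
    simp
  calc _ = conj ((fourier k t : ℂ)) * (fourier l t) * (conj (aF t) * aF t) := by ring
    _ = _ := by rw [this, mul_one]

abbrev H2 := lp (fun _ : ℕ => ℂ) 2

lemma memlp_v (k : ℕ) : Memℓp (fun j : ℕ => cf ((j : ℤ) - k)) 2 := by
  have h : Memℓp (fun j : ℤ => fourierBasis.repr (Fk k) j) 2 := (fourierBasis.repr (Fk k)).2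
  have h2 := h.summable (by simp)
  apply memℓp_gen
  have h3 := h2.comp_injective (i := fun j : ℕ => (j : ℤ)) Nat.cast_injective
  refine h3.congr ?_
  intro j
  simp only [Function.comp]
  rw [Fk_repr]

def vk (k : ℕ) : H2 := ⟨fun j : ℕ => cf ((j : ℤ) - k), memlp_v k⟩

lemma vk_apply (k j : ℕ) : vk k j = cf ((j : ℤ) - k) := rfl

lemma vk_inner (k l : ℕ) : inner ℂ (vk k) (vk l) = if k = l then (1 : ℂ) else 0 := by
  have h := Fk_inner k l
  rw [← fourierBasis.repr.inner_map_map, lp.inner_eq_tsum] at h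
  rw [lp.inner_eq_tsum]
  have h2 := Function.Injective.tsum_eq (f := fun i : ℤ => inner ℂ (fourierBasis.repr (Fk k) i) (fourierBasis.repr (Fk l) i))
    (g := fun j : ℕ => (j : ℤ)) Nat.cast_injective (by
      intro j hj
      rw [Function.mem_support] at hj
      rcases lt_or_ge j 0 with h0 | h0
      · exfalso
        apply hj
        rw [Fk_repr, cf_neg _ (by omega), inner_zero_left]
      · exact ⟨j.toNat, by simp [h0]⟩)
  have h3 : (∑' i : ℕ, inner ℂ (vk k i) (vk l i)) = ∑' c : ℕ, inner ℂ (fourierBasis.repr (Fk k) (c : ℤ)) (fourierBasis.repr (Fk l) (c : ℤ)) := by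
    apply tsum_congr
    intro c
    rw [Fk_repr, Fk_repr, vk_apply, vk_apply]
  rw [h3, h2, h]
  simp

lemma vk_orthonormal : Orthonormal ℂ vk := by
  rw [orthonormal_iff_ite]
  exact vk_inner

/-- The isometry. -/
def Tl : H2 →ₗᵢ[ℂ] H2 := (vk_orthonormal.orthogonalFamily).linearIsometry

def Tt : H2 →L[ℂ] H2 := Tl.toContinuousLinearMap

lemma Tt_single (k : ℕ) : Tt (lp.single 2 k (1 : ℂ)) = vk k := by
  show Tl (lp.single 2 k (1 : ℂ)) = vk k
  unfold Tl
  rw [OrthogonalFamily.linearIsometry_apply_single]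
  simp

lemma Tt_norm (x : H2) : ‖Tt x‖ = ‖x‖ := Tl.norm_map x

lemma Tt_adj_comp (x : H2) : ContinuousLinearMap.adjoint Tt (Tt x) = x := by
  apply ext_inner_left ℂ
  intro y
  rw [ContinuousLinearMap.adjoint_inner_right]
  exact Tl.inner_map_map y x

lemma Tt_entry (j k : ℕ) : (Tt (lp.single 2 k (1 : ℂ))) j = cf ((j : ℤ) - k) := by
  rw [Tt_single, vk_apply]

lemma Tt_adj_entry (j k : ℕ) : (ContinuousLinearMap.adjoint Tt (lp.single 2 k (1 : ℂ))) j = cf ((k : ℤ) - j) := by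
  have h : (ContinuousLinearMap.adjoint Tt (lp.single 2 k (1 : ℂ))) j = inner ℂ (lp.single 2 j (1 : ℂ) : H2) (ContinuousLinearMap.adjoint Tt (lp.single 2 k (1 : ℂ))) := by
    rw [lp.inner_single_left]
    simp
  rw [h, ContinuousLinearMap.adjoint_inner_right, lp.inner_single_right, Tt_entry]
  simp [cf_real]

end

end Pool.Agent.V1193
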