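import Mathlib

/-!
# The dyadic tree and the absolute value kernel

Vertices of the infinite rooted dyadic tree are finite words of Booleans, the root is the empty word
and the children of `v` are `v ++ [b]`. The extra vertex `o*` is `none : Option Vertex`. The edge from
the parent of `v` to `v` is identified with `v`.
-/

set_option autoImplicit false
open MeasureTheory Finset
open scoped ENNReal NNReal

namespace Pool.Agent.V1193.Tree

/-- Vertices of the infinite rooted dyadic tree: finite words of Booleans. -/
abbrev Vertex : Type := List Bool

/-- All sets of vertices are measurable. -/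
instance : MeasurableSpace Vertex := ⊤
instance : DiscreteMeasurableSpace Vertex := ⟨fun _ => trivial⟩

/-- The last common vertex of the geodesics from `o*` to `x` and from `o*` to `y`: the longest common
initial segment of the two words. -/
def meet : List Bool → List Bool → List Bool
  | a :: l, b :: m => if a = b then a :: meet l m else []
  | _, _ => []

/-- `depth z` is the number of edges of the geodesic from `o*` to `z`. -/
def depth (z : List Bool) : ℕ := z.length + 1

/-- The kernel `k_{(a,b)}(x,y)`. -/
def ker (p q : Vertex × Vertex) : ℤ :=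
  depth (meet p.1 q.1) + depth (meet p.2 q.2) - depth (meet p.1 q.2) - depth (meet p.2 q.1)

/-- The parent of a vertex of the tree; the parent of the root is `o*`. -/
def parent : Vertex → Option Vertex
  | [] => none
  | a :: l => some (a :: l).dropLast

/-- Ancestor relation (every vertex is an ancestor of itself). -/
def Anc (v x : Vertex) : Prop := v <+: x

instance (v x : Vertex) : Decidable (Anc v x) := inferInstanceAs (Decidable (v <+: x))

/-- edges of the geodesic from `o*` to a vertex -/
def P : Option Vertex → Finset Vertex
  | none => ∅
  | some x => (List.inits x).toFinset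

lemma mem_P {v x : Vertex} : v ∈ P (some x) ↔ Anc v x := by
  simp [P, Anc]

lemma P_none : P none = ∅ := rfl

lemma Anc_comparable {v w x : Vertex} (h1 : Anc v x) (h2 : Anc w x) : Anc v w ∨ Anc w v :=
  List.prefix_or_prefix_of_prefix h1 h2

lemma Anc.trans {v w x : Vertex} (h1 : Anc v w) (h2 : Anc w x) : Anc v x := List.IsPrefix.trans h1 h2

lemma Anc.refl (v : Vertex) : Anc v v := List.prefix_rfl

lemma nodup_inits (l : List Bool) : l.inits.Nodup := by
  have h : (l.inits.map List.length).Nodup := by
    have : l.inits.map List.length = List.range (l.length + 1) := by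
      induction l with
      | nil => simp
      | cons a l ih =>
        simp only [List.inits_cons, List.map_cons, List.map_map, List.length_nil, List.length_cons]
        rw [List.range_succ_eq_map]
        congr 1
        rw [← ih, List.map_map]
        apply List.map_congr_left
        intro x _
        simp
    rw [this]
    exact List.nodup_range
  exact List.Nodup.of_map _ h

lemma card_P (x : Vertex) : (P (some x)).card = List.length (x : List Bool) + 1 := by
  simp only [P]
  rw [List.toFinset_card_of_nodup (nodup_inits x), List.length_inits]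

lemma anc_meet (v : List Bool) (a x : List Bool) :
    List.IsPrefix v (meet a x) ↔ List.IsPrefix v a ∧ List.IsPrefix v x := by
  induction a generalizing v x with
  | nil =>
    simp only [meet]
    constructor
    · intro h
      have : v = [] := by simpa using h
      subst this
      simp
    · intro h
      exact h.1
  | cons b a ih =>
    cases x with
    | nil =>
      simp only [meet]
      constructor
      · intro h
        have : v = [] := by simpa using h
        subst this
        simp
      · intro h
        exact h.2
    | cons c x =>
      simp only [meet]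
      split_ifs with h
      · subst h
        cases v with
        | nil => simp
        | cons d v =>
          simp only [List.cons_prefix_cons, ih]
          tauto
      · cases v with
        | nil => simp
        | cons d v =>
          simp only [List.cons_prefix_cons, List.prefix_nil]
          constructor
          · intro h2; simp at h2
          · rintro ⟨⟨h1, _⟩, ⟨h2, _⟩⟩
            exact absurd (h1.symm.trans h2) h

lemma card_inter (a x : Vertex) : ((P (some a) ∩ P (some x)).card : ℤ) = depth (meet a x) := by
  have h : P (some a) ∩ P (some x) = P (some (meet a x : Vertex)) := by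
    ext v
    rw [mem_inter, mem_P, mem_P, mem_P]
    exact (anc_meet v a x).symm
  rw [h, card_P]
  rfl

/-- edges of the geodesic between two vertices: the edges below which exactly one of them lies -/
def seg (x y : Option Vertex) : Finset Vertex := symmDiff (P x) (P y)

lemma mem_seg {x y : Vertex} {v : Vertex} : v ∈ seg (some x) (some y) ↔ (Anc v x ∧ ¬ Anc v y) ∨ (Anc v y ∧ ¬ Anc v x) := by
  unfold seg
  rw [mem_symmDiff, mem_P, mem_P]

/-- number of common edges -/
lemma abs_ker (p q : Vertex × Vertex) :
    |ker p q| = ((seg (some p.1) (some p.2) ∩ seg (some q.1) (some q.2)).card : ℤ) := by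
  obtain ⟨a, b⟩ := p
  obtain ⟨x, y⟩ := q
  simp only [ker]
  rw [← card_inter, ← card_inter, ← card_inter, ← card_inter]
  set U := P (some a) ∪ P (some b) ∪ P (some x) ∪ P (some y) with hU
  set ind : Vertex → Vertex → ℤ := fun z v => if Anc v z then 1 else 0 with hind
  have hc : ∀ z w : Vertex, P (some z) ⊆ U → ((P (some z) ∩ P (some w)).card : ℤ) = ∑ v ∈ U, ind z v * ind w v := by
    intro z w hz
    have h1 : P (some z) ∩ P (some w) = U.filter (fun v => Anc v z ∧ Anc v w) := by
      ext v
      rw [mem_inter, mem_filter, mem_P, mem_P]
      constructor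
      · rintro ⟨h1, h2⟩
        exact ⟨hz (mem_P.mpr h1), h1, h2⟩
      · rintro ⟨_, h1, h2⟩
        exact ⟨h1, h2⟩
    rw [h1, card_filter]
    push_cast
    apply sum_congr rfl
    intro v _
    simp only [hind]
    by_cases h2 : Anc v z <;> by_cases h3 : Anc v w <;> simp [h2, h3]
  have ha : P (some a) ⊆ U := by rw [hU]; intro v hv; simp [hv]
  have hb : P (some b) ⊆ U := by rw [hU]; intro v hv; simp [hv]
  rw [hc a x ha, hc b y hb, hc a y ha, hc b x hb]
  have e1 : ∑ v ∈ U, ind a v * ind x v + ∑ v ∈ U, ind b v * ind y v - ∑ v ∈ U, ind a v * ind y v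
      - ∑ v ∈ U, ind b v * ind x v = ∑ v ∈ U, (ind a v - ind b v) * (ind x v - ind y v) := by
    rw [← sum_add_distrib, ← sum_sub_distrib, ← sum_sub_distrib]
    apply sum_congr rfl
    intro v _
    ring
  rw [e1]
  have e2 : ((seg (some a) (some b) ∩ seg (some x) (some y)).card : ℤ) = ∑ v ∈ U, |(ind a v - ind b v) * (ind x v - ind y v)| := by
    have h1 : seg (some a) (some b) ∩ seg (some x) (some y) = U.filter (fun v => v ∈ seg (some a) (some b) ∧ v ∈ seg (some x) (some y)) := by
      ext v
      rw [mem_inter, mem_filter]
      constructor
      · rintro ⟨h1, h2⟩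
        refine ⟨?_, h1, h2⟩
        rw [mem_seg] at h1
        rcases h1 with h1 | h1
        · exact ha (mem_P.mpr h1.1)
        · exact hb (mem_P.mpr h1.1)
      · rintro ⟨_, h1, h2⟩
        exact ⟨h1, h2⟩
    rw [h1, card_filter]
    push_cast
    apply sum_congr rfl
    intro v _
    simp only [hind, mem_seg]
    by_cases h1 : Anc v a <;> by_cases h2 : Anc v b <;> by_cases h3 : Anc v x <;> by_cases h4 : Anc v y <;>
      simp [h1, h2, h3, h4]
  rw [e2]
  -- all terms have the same sign
  have hsign : (∀ v ∈ U, 0 ≤ (ind a v - ind b v) * (ind x v - ind y v)) ∨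
      (∀ v ∈ U, (ind a v - ind b v) * (ind x v - ind y v) ≤ 0) := by
    by_contra hcon
    push Not at hcon
    obtain ⟨⟨v, _, hv⟩, ⟨w, _, hw⟩⟩ := hcon
    have hv' : (Anc v a ∧ ¬ Anc v b ∧ ¬ Anc v x ∧ Anc v y) ∨ (¬ Anc v a ∧ Anc v b ∧ Anc v x ∧ ¬ Anc v y) := by
      simp only [hind] at hv
      by_cases h1 : Anc v a <;> by_cases h2 : Anc v b <;> by_cases h3 : Anc v x <;> by_cases h4 : Anc v y <;>
        simp [h1, h2, h3, h4] at hv ⊢
    have hw' : (Anc w a ∧ ¬ Anc w b ∧ Anc w x ∧ ¬ Anc w y) ∨ (¬ Anc w a ∧ Anc w b ∧ ¬ Anc w x ∧ Anc w y) := by
      simp only [hind] at hw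
      by_cases h1 : Anc w a <;> by_cases h2 : Anc w b <;> by_cases h3 : Anc w x <;> by_cases h4 : Anc w y <;>
        simp [h1, h2, h3, h4] at hw ⊢
    rcases hv' with ⟨v1, v2, v3, v4⟩ | ⟨v1, v2, v3, v4⟩ <;> rcases hw' with ⟨w1, w2, w3, w4⟩ | ⟨w1, w2, w3, w4⟩
    · rcases Anc_comparable v1 w1 with h | h
      · exact v3 (h.trans w3)
      · exact w4 (h.trans v4)
    · rcases Anc_comparable v4 w4 with h | h
      · exact v2 (h.trans w2)
      · exact w1 (h.trans v1)
    · rcases Anc_comparable v3 w3 with h | h
      · exact v1 (h.trans w1)
      · exact w2 (h.trans v2)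
    · rcases Anc_comparable v2 w2 with h | h
      · exact v4 (h.trans w4)
      · exact w3 (h.trans v3)
  rcases hsign with h | h
  · rw [abs_of_nonneg (sum_nonneg h)]
    apply sum_congr rfl
    intro v hv
    rw [abs_of_nonneg (h v hv)]
  · rw [abs_of_nonpos (sum_nonpos h), ← sum_neg_distrib]
    apply sum_congr rfl
    intro v hv
    rw [abs_of_nonpos (h v hv)]

/-- Every vertex is the endpoint of the edge to its parent. -/
lemma P_parent (v : Vertex) : P (some v) = insert v (P (parent v)) ∧ v ∉ P (parent v) := by
  rcases List.eq_nil_or_concat v with h | ⟨l, b, h⟩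
  · subst h
    refine ⟨?_, ?_⟩
    · ext w
      rw [mem_P]
      simp [parent, P_none, Anc]
    · simp [parent, P_none]
  · have hv : v = l ++ [b] := by rw [List.concat_eq_append] at h; exact h
    subst hv
    have hp : parent (l ++ [b]) = some l := by
      unfold parent
      cases l with
      | nil => rfl
      | cons c l =>
        simp only [List.cons_append]
        congr 1
        rw [← List.cons_append, List.dropLast_concat]
    rw [hp]
    refine ⟨?_, ?_⟩
    · ext w
      rw [mem_insert, mem_P, mem_P]
      unfold Anc
      rw [List.prefix_concat_iff]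
    · rw [mem_P]
      intro hh
      have := List.IsPrefix.length_le hh
      simp at this

end Pool.Agent.V1193.Tree
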