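import Pool.Agent.V1193.Tree

set_option autoImplicit false
open MeasureTheory Finset
open scoped ENNReal NNReal

namespace Pool.Agent.V1193.Tree

/-- The gradient of a function on the vertices: `∇F(α) = F(α⁺) - F(α⁻)`, where the edge `α` is
identified with its child endpoint. -/
def grad {𝕜 : Type} [RCLike 𝕜] (F : Option Vertex → 𝕜) (v : Vertex) : 𝕜 := F (some v) - F (parent v)

/-- Condition (a'), for functions with values in `𝕜`. -/
def CondA (𝕜 : Type) [RCLike 𝕜] (μ : Measure Vertex) : Prop :=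
  ∃ C : ℝ≥0, ∀ F : Option Vertex → 𝕜,
    ∫⁻ z, ‖F (some z.1) - F (some z.2)‖ₑ ^ 2 ∂(μ.prod μ) ≤ C * ∑' v, ‖grad F v‖ₑ ^ 2

instance sfinite_vertex (μ : Measure Vertex) : SFinite μ := by
  rw [← Measure.sum_smul_dirac μ]
  infer_instance

lemma lint_prod (μ : Measure Vertex) (g : Vertex × Vertex → ℝ≥0∞) :
    ∫⁻ z, g z ∂(μ.prod μ) = ∫⁻ x, ∫⁻ y, g (x, y) ∂μ ∂μ :=
  lintegral_prod _ (measurable_of_countable g).aemeasurable

/-- sums along geodesics -/
noncomputable def S (f : Vertex → ℝ≥0) (x y : Option Vertex) : ℝ≥0 := ∑ v ∈ seg x y, f v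

lemma S_self (f : Vertex → ℝ≥0) (x : Option Vertex) : S f x x = 0 := by simp [S, seg]

lemma S_comm (f : Vertex → ℝ≥0) (x y : Option Vertex) : S f x y = S f y x := by
  simp [S, seg, symmDiff_comm]

lemma S_triangle (f : Vertex → ℝ≥0) (x y z : Option Vertex) : S f x z ≤ S f x y + S f y z := by
  unfold S
  have h : seg x z ⊆ seg x y ∪ seg y z := symmDiff_triangle (P x) (P y) (P z)
  refine (sum_le_sum_of_subset h).trans ?_
  rw [← sum_union_inter]
  exact le_self_add

lemma seg_edge (u : Vertex) : seg (some u) (parent u) = {u} := by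
  obtain ⟨h1, h2⟩ := P_parent u
  unfold seg
  rw [h1]
  ext w
  rw [mem_symmDiff, mem_insert, mem_singleton]
  constructor
  · rintro (⟨h3, h4⟩ | ⟨h3, h4⟩)
    · tauto
    · tauto
  · rintro rfl
    left
    exact ⟨Or.inl rfl, h2⟩

lemma S_edge (f : Vertex → ℝ≥0) (u : Vertex) : S f (some u) (parent u) = f u := by
  rw [S, seg_edge, sum_singleton]

lemma S_abs (f : Vertex → ℝ≥0) (m x y : Option Vertex) : |(S f m x : ℝ) - (S f m y : ℝ)| ≤ (S f x y : ℝ) := by
  have h1 := S_triangle f m y x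
  have h2 := S_triangle f m x y
  rw [S_comm f y x] at h1
  have h1' : (S f m x : ℝ) ≤ S f m y + S f x y := by exact_mod_cast h1
  have h2' : (S f m y : ℝ) ≤ S f m x + S f x y := by exact_mod_cast h2
  rw [abs_le]
  constructor <;> linarith

open Classical in
/-- the cut function -/
noncomputable def FD (𝕜 : Type) [RCLike 𝕜] (f : Vertex → ℝ≥0) (m : Option Vertex) (D : Set (Option Vertex)) (x : Option Vertex) : 𝕜 :=
  if x ∈ D then (((S f m x : ℝ≥0) : ℝ) : 𝕜) else 0

lemma FD_grad (𝕜 : Type) [RCLike 𝕜] (f : Vertex → ℝ≥0) (m : Option Vertex) (D : Set (Option Vertex))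
    (h1 : ∀ u : Vertex, some u ∈ D → parent u ∉ D → parent u = m)
    (h2 : ∀ u : Vertex, some u ∉ D → parent u ∈ D → some u = m) (u : Vertex) :
    ‖grad (FD 𝕜 f m D) u‖ₑ ≤ f u := by
  have hb : ‖grad (FD 𝕜 f m D) u‖ ≤ f u := by
    unfold grad FD
    by_cases hu : some u ∈ D <;> by_cases hp : parent u ∈ D
    · rw [if_pos hu, if_pos hp, ← RCLike.ofReal_sub, RCLike.norm_ofReal]
      have h := S_abs f m (some u) (parent u)
      rw [S_edge] at h
      exact h
    · rw [if_pos hu, if_neg hp, sub_zero, RCLike.norm_ofReal, NNReal.abs_eq, ← h1 u hu hp, S_comm, S_edge]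
    · rw [if_neg hu, if_pos hp, zero_sub, norm_neg, RCLike.norm_ofReal, NNReal.abs_eq, ← h2 u hu hp, S_edge]
    · rw [if_neg hu, if_neg hp, sub_zero, norm_zero]
      exact (f u).2
  rw [← ofReal_norm]
  refine (ENNReal.ofReal_le_ofReal hb).trans ?_
  rw [ENNReal.ofReal_coe_nnreal]

/-- The basic estimate for one component. -/
lemma comp_bound {𝕜 : Type} [RCLike 𝕜] {μ : Measure Vertex} {C : ℝ≥0}
    (hC : ∀ F : Option Vertex → 𝕜,
    ∫⁻ z, ‖F (some z.1) - F (some z.2)‖ₑ ^ 2 ∂(μ.prod μ) ≤ C * ∑' v, ‖grad F v‖ₑ ^ 2)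
    (f : Vertex → ℝ≥0) (m : Option Vertex) (D : Set (Option Vertex))
    (h1 : ∀ u : Vertex, some u ∈ D → parent u ∉ D → parent u = m)
    (h2 : ∀ u : Vertex, some u ∉ D → parent u ∈ D → some u = m) :
    μ {y | some y ∉ D} * ∫⁻ x, ‖FD 𝕜 f m D (some x)‖ₑ ^ 2 ∂μ ≤ C * ∑' v, (f v : ℝ≥0∞) ^ 2 := by
  have h := hC (FD 𝕜 f m D)
  rw [lint_prod] at h
  have hlow : μ {y | some y ∉ D} * ∫⁻ x, ‖FD 𝕜 f m D (some x)‖ₑ ^ 2 ∂μ ≤
      ∫⁻ x, ∫⁻ y, ‖FD 𝕜 f m D (some x) - FD 𝕜 f m D (some y)‖ₑ ^ 2 ∂μ ∂μ := by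
    rw [← lintegral_const_mul _ (measurable_of_countable _)]
    apply lintegral_mono
    intro x
    calc μ {y | some y ∉ D} * ‖FD 𝕜 f m D (some x)‖ₑ ^ 2
        = ∫⁻ y in {y | some y ∉ D}, ‖FD 𝕜 f m D (some x)‖ₑ ^ 2 ∂μ := by
          rw [setLIntegral_const, mul_comm]
      _ = ∫⁻ y in {y | some y ∉ D}, ‖FD 𝕜 f m D (some x) - FD 𝕜 f m D (some y)‖ₑ ^ 2 ∂μ := by
          apply setLIntegral_congr_fun (MeasurableSet.of_discrete)
          intro y hy
          have : FD 𝕜 f m D (some y) = 0 := by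
            unfold FD
            rw [if_neg hy]
          simp only [this, sub_zero]
      _ ≤ _ := setLIntegral_le_lintegral _ _
  refine (hlow.trans h).trans ?_
  gcongr with v
  exact FD_grad 𝕜 f m D h1 h2 v

/-- Vertices below `v`. -/
def below (v : Vertex) : Set Vertex := {x | Anc v x}

lemma not_parent_of (u : Vertex) (m : Vertex) (h1 : Anc m u) (h2 : ¬ (∃ w, parent u = some w ∧ Anc m w)) : u = m := by
  obtain ⟨h3, h4⟩ := P_parent u
  have h5 : m ∈ P (some u) := mem_P.mpr h1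
  rw [h3, mem_insert] at h5
  rcases h5 with h5 | h5
  · exact h5.symm
  · exfalso
    cases hp : parent u with
    | none => rw [hp] at h5; simp [P_none] at h5
    | some w =>
      rw [hp, mem_P] at h5
      exact h2 ⟨w, hp, h5⟩

lemma anc_of_parent {u w m : Vertex} (h : parent u = some w) (h2 : Anc m w) : Anc m u := by
  obtain ⟨h3, h4⟩ := P_parent u
  rw [← mem_P, h3, mem_insert, h]
  right
  exact mem_P.mpr h2

/-- median vertex -/
lemma exists_median (μ : Measure Vertex) (h0 : μ Set.univ ≠ 0) (hfin : μ Set.univ ≠ ⊤) :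
    ∃ m : Vertex, μ Set.univ / 2 ≤ μ (below m) ∧ ∀ b : Bool, μ (below (m ++ [b])) ≤ μ Set.univ / 2 := by
  set M := μ Set.univ with hM
  have hhalf : M / 2 < M := ENNReal.half_lt_self h0 hfin
  have : IsFiniteMeasure μ := ⟨lt_top_iff_ne_top.mpr hfin⟩
  set A : Set ℕ := {n | ∃ v : Vertex, v.length = n ∧ M / 2 < μ (below v)} with hA
  have hA0 : 0 ∈ A := by
    refine ⟨[], rfl, ?_⟩
    have : below [] = Set.univ := by
      ext x; simp [below, Anc]
    rw [this]
    exact hhalf
  have hbdd : ∃ N, ∀ n ∈ A, n < N := by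
    have ht : Filter.Tendsto (fun n : ℕ => μ {x : Vertex | n ≤ x.length}) Filter.atTop (nhds (μ (⋂ n : ℕ, {x : Vertex | n ≤ x.length}))) := by
      apply tendsto_measure_iInter_atTop
      · intro n; exact MeasurableSet.of_discrete.nullMeasurableSet
      · intro a b hab x hx
        exact le_trans hab hx
      · exact ⟨0, measure_ne_top _ _⟩
    have he : (⋂ n : ℕ, {x : Vertex | n ≤ x.length}) = ∅ := by
      ext x
      simp only [Set.mem_iInter, Set.mem_ofPred_eq, Set.mem_empty_iff_false, iff_false, not_forall, not_le]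
      exact ⟨x.length + 1, Nat.lt_succ_self _⟩
    rw [he, measure_empty] at ht
    have hpos : 0 < M / 2 := ENNReal.half_pos h0
    obtain ⟨N, hN⟩ := Filter.eventually_atTop.mp (ht.eventually (gt_mem_nhds hpos))
    refine ⟨N, fun n hn => ?_⟩
    obtain ⟨v, hv, hv2⟩ := hn
    by_contra hcon
    have h1 : μ (below v) ≤ μ {x : Vertex | n ≤ x.length} := by
      apply measure_mono
      intro x hx
      have : v.length ≤ x.length := List.IsPrefix.length_le hx
      rw [hv] at this
      exact this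
    exact absurd (hv2.trans_le h1) (not_lt.mpr (hN n (not_lt.mp hcon)).le)
  obtain ⟨N, hN⟩ := hbdd
  obtain ⟨n, hn, hmax⟩ : ∃ n ∈ A, ∀ k ∈ A, k ≤ n := by
    classical
    have hfinA : A.Finite := Set.Finite.subset (Set.finite_lt_nat N) hN
    obtain ⟨n, hn, hmax⟩ := hfinA.exists_maximalFor id A ⟨0, hA0⟩
    refine ⟨n, hn, fun k hk => ?_⟩
    by_contra hcon
    have := hmax hk (not_le.mp hcon).le
    exact hcon this
  obtain ⟨m, hm1, hm2⟩ := hn
  refine ⟨m, hm2.le, fun b => ?_⟩
  by_contra hcon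
  have : n + 1 ∈ A := ⟨m ++ [b], by simp [hm1], not_le.mp hcon⟩
  have := hmax _ this
  omega

lemma parent_concat (m : Vertex) (b : Bool) : parent (m ++ [b]) = some m := by
  unfold parent
  cases m with
  | nil => rfl
  | cons c l =>
    simp only [List.cons_append]
    congr 1
    rw [← List.cons_append, List.dropLast_concat]

lemma anc_cases {m x : Vertex} (h : Anc m x) : x = m ∨ ∃ b : Bool, Anc (m ++ [b]) x := by
  obtain ⟨t, rfl⟩ := h
  cases t with
  | nil => left; simp
  | cons b t =>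
    right
    exact ⟨b, ⟨t, by simp⟩⟩

lemma parent_mem {u w : Vertex} (h : parent u = some w) : Anc w u := anc_of_parent h (Anc.refl w)

lemma anc_antisymm {x y : Vertex} (h1 : Anc x y) (h2 : Anc y x) : x = y :=
  List.IsPrefix.eq_of_length_le h1 (List.IsPrefix.length_le h2)

lemma key_finite {𝕜 : Type} [RCLike 𝕜] {μ : Measure Vertex} {C : ℝ≥0}
    (hC : ∀ F : Option Vertex → 𝕜,
    ∫⁻ z, ‖F (some z.1) - F (some z.2)‖ₑ ^ 2 ∂(μ.prod μ) ≤ C * ∑' v, ‖grad F v‖ₑ ^ 2)
    (h0 : μ Set.univ ≠ 0) (hfin : μ Set.univ ≠ ⊤) (f : Vertex → ℝ≥0) :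
    ∫⁻ x, ∫⁻ y, (S f (some x) (some y) : ℝ≥0∞) ^ 2 ∂μ ∂μ ≤ (24 * C : ℝ≥0) * ∑' v, (f v : ℝ≥0∞) ^ 2 := by
  obtain ⟨m, hm, hmb⟩ := exists_median μ h0 hfin
  set M := μ Set.univ with hM
  set Q := (C : ℝ≥0∞) * ∑' v, (f v : ℝ≥0∞) ^ 2 with hQ
  set D0 : Set (Option Vertex) := {x | ∀ w, x = some w → ¬ Anc m w} with hD0
  set DD : Bool → Set (Option Vertex) := fun b => {x | ∃ w, x = some w ∧ Anc (m ++ [b]) w} with hDD
  have hfinM : IsFiniteMeasure μ := ⟨lt_top_iff_ne_top.mpr hfin⟩
  have c0 : M / 2 * ∫⁻ x, ‖FD 𝕜 f (some m) D0 (some x)‖ₑ ^ 2 ∂μ ≤ Q := by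
    have h := comp_bound hC f (some m) D0 (by
      intro u hu hp
      exfalso
      rw [hD0] at hu hp
      simp only [Set.mem_ofPred_eq, not_forall] at hu hp
      obtain ⟨w, hw, hw2⟩ := hp
      exact hu u rfl (anc_of_parent hw (not_not.mp hw2))) (by
      intro u hu hp
      rw [hD0] at hu hp
      simp only [Set.mem_ofPred_eq, not_forall] at hu hp
      obtain ⟨w, hw, hw2⟩ := hu
      have : u = w := by simpa using hw
      subst this
      congr 1
      apply not_parent_of u m (not_not.mp hw2)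
      rintro ⟨z, hz1, hz2⟩
      exact hp z hz1 hz2)
    refine le_trans ?_ h
    gcongr
    refine hm.trans (measure_mono ?_)
    intro x hx
    rw [hD0]
    simp only [Set.mem_ofPred_eq, not_forall]
    exact ⟨x, rfl, not_not.mpr hx⟩
  have cb : ∀ b, M / 2 * ∫⁻ x, ‖FD 𝕜 f (some m) (DD b) (some x)‖ₑ ^ 2 ∂μ ≤ Q := by
    intro b
    have h := comp_bound hC f (some m) (DD b) (by
      intro u hu hp
      rw [hDD] at hu hp
      simp only [Set.mem_ofPred_eq, not_exists, not_and] at hu hp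
      obtain ⟨w, hw, hw2⟩ := hu
      have : u = w := by simpa using hw
      subst this
      have : u = m ++ [b] := by
        apply not_parent_of u _ hw2
        rintro ⟨z, hz1, hz2⟩
        exact hp z hz1 hz2
      rw [this, parent_concat]) (by
      intro u hu hp
      exfalso
      rw [hDD] at hu hp
      simp only [Set.mem_ofPred_eq, not_exists, not_and] at hu hp
      obtain ⟨w, hw, hw2⟩ := hp
      exact hu u rfl (anc_of_parent hw hw2))
    refine le_trans ?_ h
    gcongr
    have h1 : μ (below (m ++ [b])) + μ (below (m ++ [b]))ᶜ = M :=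
      measure_add_measure_compl MeasurableSet.of_discrete
    have h2 : M / 2 ≤ μ (below (m ++ [b]))ᶜ := by
      by_contra hcon
      rw [not_le] at hcon
      have h3 : μ (below (m ++ [b])) + μ (below (m ++ [b]))ᶜ < M / 2 + M / 2 :=
        ENNReal.add_lt_add_of_le_of_lt (measure_ne_top _ _) (hmb b) hcon
      rw [h1, ENNReal.add_halves] at h3
      exact lt_irrefl _ h3
    refine h2.trans (measure_mono ?_)
    intro x hx
    rw [hDD]
    simp only [Set.mem_ofPred_eq, not_exists, not_and]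
    intro w hw hw2
    have : x = w := by simpa using hw
    subst this
    exact hx hw2
  have hpt : ∀ x : Vertex, (S f (some m) (some x) : ℝ≥0∞) ^ 2 ≤ ‖FD 𝕜 f (some m) D0 (some x)‖ₑ ^ 2 +
      (‖FD 𝕜 f (some m) (DD false) (some x)‖ₑ ^ 2 + ‖FD 𝕜 f (some m) (DD true) (some x)‖ₑ ^ 2) := by
    intro x
    have hval : ∀ D : Set (Option Vertex), some x ∈ D → ‖FD 𝕜 f (some m) D (some x)‖ₑ = S f (some m) (some x) := by
      intro D hD
      unfold FD
      rw [if_pos hD, ← ofReal_norm, RCLike.norm_ofReal, NNReal.abs_eq, ENNReal.ofReal_coe_nnreal]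
    by_cases hx : Anc m x
    · rcases anc_cases hx with h | ⟨b, hb⟩
      · subst h
        rw [S_self]
        simp
      · have hmem : some x ∈ DD b := ⟨x, rfl, hb⟩
        rw [← hval (DD b) hmem]
        cases b
        · exact le_self_add.trans le_add_self
        · exact le_add_self.trans le_add_self
    · have hmem : some x ∈ D0 := by
        intro w hw
        have : x = w := by simpa using hw
        subst this
        exact hx
      rw [← hval D0 hmem]
      exact le_self_add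
  have hone : M / 2 * ∫⁻ x, (S f (some m) (some x) : ℝ≥0∞) ^ 2 ∂μ ≤ 3 * Q := by
    calc M / 2 * ∫⁻ x, (S f (some m) (some x) : ℝ≥0∞) ^ 2 ∂μ
        ≤ M / 2 * ∫⁻ x, (‖FD 𝕜 f (some m) D0 (some x)‖ₑ ^ 2 +
      (‖FD 𝕜 f (some m) (DD false) (some x)‖ₑ ^ 2 + ‖FD 𝕜 f (some m) (DD true) (some x)‖ₑ ^ 2)) ∂μ := by
          gcongr with x
          exact hpt x
      _ = M / 2 * ∫⁻ x, ‖FD 𝕜 f (some m) D0 (some x)‖ₑ ^ 2 ∂μ +
          (M / 2 * ∫⁻ x, ‖FD 𝕜 f (some m) (DD false) (some x)‖ₑ ^ 2 ∂μ +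
           M / 2 * ∫⁻ x, ‖FD 𝕜 f (some m) (DD true) (some x)‖ₑ ^ 2 ∂μ) := by
          rw [lintegral_add_left (measurable_of_countable _), lintegral_add_left (measurable_of_countable _)]
          ring
      _ ≤ Q + (Q + Q) := add_le_add c0 (add_le_add (cb false) (cb true))
      _ = 3 * Q := by ring
  have hpt2 : ∀ x y : Vertex, (S f (some x) (some y) : ℝ≥0∞) ^ 2 ≤
      2 * (S f (some m) (some x) : ℝ≥0∞) ^ 2 + 2 * (S f (some m) (some y) : ℝ≥0∞) ^ 2 := by
    intro x y
    have h1 : S f (some x) (some y) ≤ S f (some m) (some x) + S f (some m) (some y) := by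
      have := S_triangle f (some x) (some m) (some y)
      rwa [S_comm f (some x) (some m)] at this
    have h2 : (S f (some x) (some y)) ^ 2 ≤ 2 * (S f (some m) (some x)) ^ 2 + 2 * (S f (some m) (some y)) ^ 2 := by
      calc (S f (some x) (some y)) ^ 2 ≤ (S f (some m) (some x) + S f (some m) (some y)) ^ 2 := by gcongr
        _ ≤ 2 * ((S f (some m) (some x)) ^ 2 + (S f (some m) (some y)) ^ 2) := add_sq_le
        _ = _ := by ring
    exact_mod_cast h2
  calc ∫⁻ x, ∫⁻ y, (S f (some x) (some y) : ℝ≥0∞) ^ 2 ∂μ ∂μ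
      ≤ ∫⁻ x, ∫⁻ y, (2 * (S f (some m) (some x) : ℝ≥0∞) ^ 2 + 2 * (S f (some m) (some y) : ℝ≥0∞) ^ 2) ∂μ ∂μ := by
        gcongr with x y
        exact hpt2 x y
    _ = 8 * (M / 2 * ∫⁻ x, (S f (some m) (some x) : ℝ≥0∞) ^ 2 ∂μ) := by
        have h1 : ∀ x : Vertex, ∫⁻ y, (2 * (S f (some m) (some x) : ℝ≥0∞) ^ 2 + 2 * (S f (some m) (some y) : ℝ≥0∞) ^ 2) ∂μ
            = 2 * (S f (some m) (some x) : ℝ≥0∞) ^ 2 * M + 2 * ∫⁻ y, (S f (some m) (some y) : ℝ≥0∞) ^ 2 ∂μ := by
          intro x
          rw [lintegral_add_left (measurable_of_countable _), lintegral_const, lintegral_const_mul _ (measurable_of_countable _)]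
        simp_rw [h1]
        rw [lintegral_add_left (measurable_of_countable _), lintegral_const, lintegral_mul_const _ (measurable_of_countable _),
          lintegral_const_mul _ (measurable_of_countable _), ← hM]
        have h2 : M = M / 2 + M / 2 := (ENNReal.add_halves M).symm
        set I := ∫⁻ x, (S f (some m) (some x) : ℝ≥0∞) ^ 2 ∂μ with hI
        calc 2 * I * M + 2 * I * M = 4 * (M * I) := by ring
          _ = 4 * ((M / 2 + M / 2) * I) := by rw [← h2]
          _ = 8 * (M / 2 * I) := by ring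
    _ ≤ 8 * (3 * Q) := by gcongr
    _ = _ := by
        rw [hQ]
        push_cast
        ring

lemma key_infinite {𝕜 : Type} [RCLike 𝕜] {μ : Measure Vertex} {C : ℝ≥0}
    (hC : ∀ F : Option Vertex → 𝕜,
    ∫⁻ z, ‖F (some z.1) - F (some z.2)‖ₑ ^ 2 ∂(μ.prod μ) ≤ C * ∑' v, ‖grad F v‖ₑ ^ 2)
    (hinf : μ Set.univ = ⊤) (f : Vertex → ℝ≥0) :
    ∫⁻ x, ∫⁻ y, (S f (some x) (some y) : ℝ≥0∞) ^ 2 ∂μ ∂μ = 0 := by
  classical
  -- one of the two sides of every edge is null
  have hside : ∀ v : Vertex, μ (below v) = 0 ∨ μ (below v)ᶜ = 0 := by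
    intro v
    by_contra hcon
    push Not at hcon
    obtain ⟨h1, h2⟩ := hcon
    set F : Option Vertex → 𝕜 := fun x => if ∃ w, x = some w ∧ Anc v w then 1 else 0 with hF
    have hg : ∑' u, ‖grad F u‖ₑ ^ 2 ≤ 1 := by
      rw [tsum_eq_single v]
      · have : ‖grad F v‖ₑ ≤ 1 := by
          unfold grad
          rw [hF]
          simp only
          rw [if_pos ⟨v, rfl, Anc.refl v⟩]
          by_cases h4 : ∃ w, parent v = some w ∧ Anc v w
          · rw [if_pos h4]; simp
          · rw [if_neg h4]; simp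
        calc ‖grad F v‖ₑ ^ 2 ≤ 1 ^ 2 := by gcongr
          _ = 1 := one_pow 2
      · intro u hu
        have : grad F u = 0 := by
          unfold grad
          rw [hF]
          simp only
          by_cases h4 : ∃ w, parent u = some w ∧ Anc v w
          · obtain ⟨w, hw1, hw2⟩ := h4
            have h3 : ∃ w, some u = some w ∧ Anc v w := ⟨u, rfl, anc_of_parent hw1 hw2⟩
            rw [if_pos h3, if_pos ⟨w, hw1, hw2⟩, sub_self]
          · have h3 : ¬ ∃ w, some u = some w ∧ Anc v w := by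
              rintro ⟨w, hw1, hw2⟩
              have : u = w := by simpa using hw1
              subst this
              exact hu (not_parent_of u v hw2 h4)
            rw [if_neg h3, if_neg h4, sub_self]
        rw [this]
        simp
    have h3 := hC F
    rw [lint_prod] at h3
    have hlow : μ (below v) * μ (below v)ᶜ ≤ ∫⁻ x, ∫⁻ y, ‖F (some x) - F (some y)‖ₑ ^ 2 ∂μ ∂μ := by
      calc μ (below v) * μ (below v)ᶜ = ∫⁻ x in below v, ∫⁻ y in (below v)ᶜ, 1 ∂μ ∂μ := by
            simp only [setLIntegral_const, one_mul]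
            rw [mul_comm]
        _ = ∫⁻ x in below v, ∫⁻ y in (below v)ᶜ, ‖F (some x) - F (some y)‖ₑ ^ 2 ∂μ ∂μ := by
            apply setLIntegral_congr_fun MeasurableSet.of_discrete
            intro x hx
            apply setLIntegral_congr_fun MeasurableSet.of_discrete
            intro y hy
            have e1 : F (some x) = 1 := by
              rw [hF]
              simp only
              rw [if_pos ⟨x, rfl, hx⟩]
            have e2 : F (some y) = 0 := by
              rw [hF]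
              simp only
              rw [if_neg]
              rintro ⟨w, hw1, hw2⟩
              have : y = w := by simpa using hw1
              subst this
              exact hy hw2
            simp [e1, e2]
        _ ≤ ∫⁻ x in below v, ∫⁻ y, ‖F (some x) - F (some y)‖ₑ ^ 2 ∂μ ∂μ := by
            apply lintegral_mono
            intro x
            exact setLIntegral_le_lintegral _ _
        _ ≤ _ := setLIntegral_le_lintegral _ _
    have h4 : μ (below v) * μ (below v)ᶜ ≤ C := by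
      refine (hlow.trans h3).trans ?_
      calc (C : ℝ≥0∞) * ∑' u, ‖grad F u‖ₑ ^ 2 ≤ C * 1 := by gcongr
        _ = C := mul_one _
    have h5 : μ (below v) * μ (below v)ᶜ = ⊤ := by
      have h6 : μ (below v) + μ (below v)ᶜ = ⊤ := by
        rw [measure_add_measure_compl MeasurableSet.of_discrete, hinf]
      rcases ENNReal.add_eq_top.mp h6 with h7 | h7
      · rw [h7, ENNReal.top_mul h2]
      · rw [h7, ENNReal.mul_top h1]
    rw [h5] at h4
    exact absurd h4 (by simp)
  have hxy : ∀ x y : Vertex, x ≠ y → μ {x} = 0 ∨ μ {y} = 0 := by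
    intro x y hne
    by_cases h : Anc x y
    · have h' : ¬ Anc y x := fun h2 => hne (anc_antisymm h h2)
      rcases hside y with h1 | h1
      · right
        exact measure_mono_null (Set.singleton_subset_iff.mpr (Anc.refl y)) h1
      · left
        exact measure_mono_null (Set.singleton_subset_iff.mpr h') h1
    · rcases hside x with h1 | h1
      · left
        exact measure_mono_null (Set.singleton_subset_iff.mpr (Anc.refl x)) h1
      · right
        exact measure_mono_null (Set.singleton_subset_iff.mpr h) h1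
  rw [lintegral_countable']
  rw [ENNReal.tsum_eq_zero]
  intro x
  rw [lintegral_countable', ← ENNReal.tsum_mul_right, ENNReal.tsum_eq_zero]
  intro y
  by_cases h : x = y
  · subst h
    rw [S_self]
    simp
  · rcases hxy x y h with h1 | h1 <;> rw [h1] <;> simp

lemma key_bound {𝕜 : Type} [RCLike 𝕜] {μ : Measure Vertex} {C : ℝ≥0}
    (hC : ∀ F : Option Vertex → 𝕜,
    ∫⁻ z, ‖F (some z.1) - F (some z.2)‖ₑ ^ 2 ∂(μ.prod μ) ≤ C * ∑' v, ‖grad F v‖ₑ ^ 2) (f : Vertex → ℝ≥0) :
    ∫⁻ x, ∫⁻ y, (S f (some x) (some y) : ℝ≥0∞) ^ 2 ∂μ ∂μ ≤ (24 * C : ℝ≥0) * ∑' v, (f v : ℝ≥0∞) ^ 2 := by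
  by_cases h0 : μ Set.univ = 0
  · have : μ = 0 := Measure.measure_univ_eq_zero.mp h0
    rw [this]
    simp
  by_cases hfin : μ Set.univ = ⊤
  · rw [key_infinite hC hfin]
    exact zero_le
  · exact key_finite hC h0 hfin f

end Pool.Agent.V1193.Tree
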