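import Pool.Agent.V1193.TreeMeas

set_option autoImplicit false
open MeasureTheory Finset
open scoped ENNReal NNReal InnerProductSpace

namespace Pool.Agent.V1193.Tree

/-- Condition (b): for the reproducing kernel Hilbert space `H` of `𝕜`-valued functions on `T × T` with
kernel `|k|` the inclusion into `L²(μ ⊗ μ)` is bounded. -/
def CondB (𝕜 : Type) [RCLike 𝕜] (μ : Measure Vertex) : Prop :=
  ∀ (H : Type) [NormedAddCommGroup H] [InnerProductSpace 𝕜 H] [CompleteSpace H]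
    [RKHS 𝕜 H (Vertex × Vertex) 𝕜],
    (∀ p q : Vertex × Vertex, RKHS.kernel H p q = ((|ker p q| : ℤ) : 𝕜) • ContinuousLinearMap.id 𝕜 𝕜) →
    ∃ C : ℝ≥0, ∀ G : H, ∫⁻ z, ‖G z‖ₑ ^ 2 ∂(μ.prod μ) ≤ C * ‖G‖ₑ ^ 2

section AtoB

variable {𝕜 : Type} [RCLike 𝕜] {H : Type} [NormedAddCommGroup H] [InnerProductSpace 𝕜 H] [CompleteSpace H]
    [RKHS 𝕜 H (Vertex × Vertex) 𝕜]

/-- abbreviation for the geodesic edges of a pair -/
def sg (p : Vertex × Vertex) : Finset Vertex := seg (some p.1) (some p.2)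

variable (𝕜 H) in
/-- kernel function -/
noncomputable def kf (p : Vertex × Vertex) : H := RKHS.kerFun H p (1 : 𝕜)

/-- coefficient function -/
noncomputable def cofun (c : (Vertex × Vertex) →₀ 𝕜) (v : Vertex) : 𝕜 := ∑ p ∈ c.support, if v ∈ sg p then c p else 0

lemma kf_apply (hK : ∀ p q : Vertex × Vertex, RKHS.kernel H p q = ((|ker p q| : ℤ) : 𝕜) • ContinuousLinearMap.id 𝕜 𝕜)
    (p q : Vertex × Vertex) : (kf 𝕜 H p) q = ∑ v ∈ sg q, if v ∈ sg p then (1 : 𝕜) else 0 := by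
  unfold kf
  rw [RKHS.kerFun_apply, hK, abs_ker]
  simp only [smul_apply, ContinuousLinearMap.id_apply, smul_eq_mul, mul_one]
  rw [sum_ite, sum_const_zero, add_zero, sum_const, nsmul_eq_mul, mul_one]
  have : filter (fun v => v ∈ sg p) (sg q) = sg q ∩ sg p := by
    ext v; simp
  rw [this]
  simp [sg]

lemma lc_apply (hK : ∀ p q : Vertex × Vertex, RKHS.kernel H p q = ((|ker p q| : ℤ) : 𝕜) • ContinuousLinearMap.id 𝕜 𝕜)
    (c : (Vertex × Vertex) →₀ 𝕜) (q : Vertex × Vertex) :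
    (Finsupp.linearCombination 𝕜 (kf 𝕜 H) c) q = ∑ v ∈ sg q, cofun c v := by
  rw [Finsupp.linearCombination_apply, Finsupp.sum]
  have h1 : (∑ p ∈ c.support, c p • kf 𝕜 H p) q = ∑ p ∈ c.support, c p * (kf 𝕜 H p) q := by
    rw [← RKHS.coeCLM_apply, map_sum, Finset.sum_apply]
    apply sum_congr rfl
    intro p _
    simp
  rw [h1]
  simp_rw [kf_apply hK, cofun, mul_sum]
  rw [sum_comm]
  apply sum_congr rfl
  intro v _
  apply sum_congr rfl
  intro p _
  split_ifs <;> simp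

lemma lc_norm (hK : ∀ p q : Vertex × Vertex, RKHS.kernel H p q = ((|ker p q| : ℤ) : 𝕜) • ContinuousLinearMap.id 𝕜 𝕜)
    (c : (Vertex × Vertex) →₀ 𝕜) :
    ‖Finsupp.linearCombination 𝕜 (kf 𝕜 H) c‖ ^ 2 = ∑ v ∈ c.support.biUnion sg, ‖cofun c v‖ ^ 2 := by
  set G := Finsupp.linearCombination 𝕜 (kf 𝕜 H) c with hG
  have h1 : ⟪G, G⟫_𝕜 = ∑ q ∈ c.support, star (c q) * G q := by
    conv_lhs => rw [hG, Finsupp.linearCombination_apply, Finsupp.sum, sum_inner]
    apply sum_congr rfl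
    intro q _
    rw [inner_smul_left]
    congr 1
    unfold kf
    rw [RKHS.kerFun_inner]
    simp only [RCLike.inner_apply, map_one, mul_one]
    rw [hG, Finsupp.linearCombination_apply, Finsupp.sum]
    rfl
  have h2 : ⟪G, G⟫_𝕜 = ∑ v ∈ c.support.biUnion sg, star (cofun c v) * cofun c v := by
    rw [h1]
    have h3 : ∀ q ∈ c.support, star (c q) * G q = ∑ v ∈ c.support.biUnion sg, (if v ∈ sg q then star (c q) else 0) * cofun c v := by
      intro q hq
      rw [hG, lc_apply hK, mul_sum]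
      symm
      rw [← sum_subset (subset_biUnion_of_mem sg hq)]
      · apply sum_congr rfl
        intro v hv
        rw [if_pos hv]
      · intro v _ hv
        rw [if_neg hv, zero_mul]
    rw [sum_congr rfl h3, sum_comm]
    apply sum_congr rfl
    intro v _
    rw [← sum_mul]
    congr 1
    unfold cofun
    rw [star_sum]
    apply sum_congr rfl
    intro q _
    split_ifs <;> simp
  have h4 : ((‖G‖ ^ 2 : ℝ) : 𝕜) = ((∑ v ∈ c.support.biUnion sg, ‖cofun c v‖ ^ 2 : ℝ) : 𝕜) := by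
    push_cast
    rw [← inner_self_eq_norm_sq_to_K, h2]
    apply sum_congr rfl
    intro v _
    exact RCLike.conj_mul _
  exact_mod_cast h4

lemma enorm_sq_eq {E : Type} [NormedAddCommGroup E] (x : E) : ‖x‖ₑ ^ 2 = ENNReal.ofReal (‖x‖ ^ 2) := by
  rw [← ofReal_norm, ENNReal.ofReal_pow (norm_nonneg _)]

lemma lc_bound (hK : ∀ p q : Vertex × Vertex, RKHS.kernel H p q = ((|ker p q| : ℤ) : 𝕜) • ContinuousLinearMap.id 𝕜 𝕜)
    {μ : Measure Vertex} {C : ℝ≥0}
    (hC : ∀ F : Option Vertex → 𝕜,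
    ∫⁻ z, ‖F (some z.1) - F (some z.2)‖ₑ ^ 2 ∂(μ.prod μ) ≤ C * ∑' v, ‖grad F v‖ₑ ^ 2)
    (c : (Vertex × Vertex) →₀ 𝕜) :
    ∫⁻ z, ‖(Finsupp.linearCombination 𝕜 (kf 𝕜 H) c) z‖ₑ ^ 2 ∂(μ.prod μ) ≤
      (24 * C : ℝ≥0) * ‖Finsupp.linearCombination 𝕜 (kf 𝕜 H) c‖ₑ ^ 2 := by
  set f : Vertex → ℝ≥0 := fun v => ‖cofun c v‖₊ with hf
  have h1 := key_bound hC f
  rw [lint_prod]
  have h2 : ∑' v, (f v : ℝ≥0∞) ^ 2 = ‖Finsupp.linearCombination 𝕜 (kf 𝕜 H) c‖ₑ ^ 2 := by
    rw [enorm_sq_eq, lc_norm hK, ENNReal.ofReal_sum_of_nonneg (fun _ _ => by positivity)]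
    rw [tsum_eq_sum (s := c.support.biUnion sg)]
    · apply sum_congr rfl
      intro v _
      rw [hf, ENNReal.ofReal_pow (norm_nonneg _)]
      simp only
      rw [ofReal_norm]
      rfl
    · intro v hv
      have : cofun c v = 0 := by
        unfold cofun
        apply sum_eq_zero
        intro p hp
        rw [if_neg]
        intro hv2
        exact hv (mem_biUnion.mpr ⟨p, hp, hv2⟩)
      rw [hf]
      simp [this]
  rw [← h2]
  refine le_trans ?_ h1
  gcongr with x y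
  rw [lc_apply hK]
  have h3 : ‖∑ v ∈ sg (x, y), cofun c v‖₊ ≤ S f (some x) (some y) := nnnorm_sum_le _ _
  calc ‖∑ v ∈ sg (x, y), cofun c v‖ₑ = ((‖∑ v ∈ sg (x, y), cofun c v‖₊ : ℝ≥0) : ℝ≥0∞) := rfl
    _ ≤ _ := by exact_mod_cast h3

theorem condA_imp_condB {μ : Measure Vertex} (h : CondA 𝕜 μ) : CondB 𝕜 μ := by
  obtain ⟨C, hC⟩ := h
  intro H _ _ _ _ hK
  refine ⟨24 * C, fun G => ?_⟩
  have hspan : Submodule.span 𝕜 {x : H | ∃ (p : Vertex × Vertex) (v : 𝕜), RKHS.kerFun H p v = x} ≤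
      LinearMap.range (Finsupp.linearCombination 𝕜 (kf 𝕜 H)) := by
    rw [Submodule.span_le]
    rintro _ ⟨p, v, rfl⟩
    refine ⟨Finsupp.single p v, ?_⟩
    rw [Finsupp.linearCombination_single]
    unfold kf
    rw [← map_smul, smul_eq_mul, mul_one]
  have hdense := RKHS.kerFun_dense H (𝕜 := 𝕜) (X := Vertex × Vertex) (V := 𝕜)
  have hG : G ∈ (Submodule.span 𝕜 {x : H | ∃ (p : Vertex × Vertex) (v : 𝕜), RKHS.kerFun H p v = x}).topologicalClosure := by
    rw [hdense]; trivial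
  have hG2 : G ∈ closure (LinearMap.range (Finsupp.linearCombination 𝕜 (kf 𝕜 H)) : Set H) :=
    closure_mono hspan hG
  obtain ⟨u, hu, hlim⟩ := mem_closure_iff_seq_limit.mp hG2
  have hfat : ∫⁻ z, ‖G z‖ₑ ^ 2 ∂(μ.prod μ) ≤ Filter.liminf (fun n => ∫⁻ z, ‖(u n) z‖ₑ ^ 2 ∂(μ.prod μ)) Filter.atTop := by
    have h1 : ∀ z, ‖G z‖ₑ ^ 2 = Filter.liminf (fun n => ‖(u n) z‖ₑ ^ 2) Filter.atTop := by
      intro z
      symm
      apply Filter.Tendsto.liminf_eq
      have h2 : Filter.Tendsto (fun n => (u n) z) Filter.atTop (nhds (G z)) :=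
        ((RKHS.continuous_eval (H := H) z).tendsto G).comp hlim
      exact ((ENNReal.continuous_pow 2).tendsto _).comp h2.enorm
    simp_rw [h1]
    exact lintegral_liminf_le (fun n => measurable_of_countable _)
  refine hfat.trans ?_
  have h3 : Filter.Tendsto (fun n => ((24 * C : ℝ≥0) : ℝ≥0∞) * ‖u n‖ₑ ^ 2) Filter.atTop (nhds (((24 * C : ℝ≥0) : ℝ≥0∞) * ‖G‖ₑ ^ 2)) := by
    apply ENNReal.Tendsto.const_mul
    · exact ((ENNReal.continuous_pow 2).tendsto _).comp hlim.enorm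
    · right; exact ENNReal.coe_ne_top
  rw [← h3.liminf_eq]
  refine Filter.liminf_le_liminf ?_
  filter_upwards with n
  obtain ⟨c, hc⟩ := hu n
  rw [← hc]
  exact lc_bound hK hC c

end AtoB

section BtoA

variable {𝕜 : Type} [RCLike 𝕜]

/-- Square summable functions on the edges different from the edge `(o*, o)`. -/
abbrev Model (𝕜 : Type) [RCLike 𝕜] : Type := lp (fun _ : {v : Vertex // v ≠ []} => 𝕜) 2

/-- basis vectors -/
noncomputable def ev (𝕜 : Type) [RCLike 𝕜] (v : Vertex) : Model 𝕜 :=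
  if h : v ≠ [] then lp.single 2 ⟨v, h⟩ (1 : 𝕜) else 0

/-- feature map -/
noncomputable def feat (𝕜 : Type) [RCLike 𝕜] (p : Vertex × Vertex) : Model 𝕜 := ∑ v ∈ sg p, ev 𝕜 v

lemma inner_ev (v : Vertex) (f : Model 𝕜) : ⟪ev 𝕜 v, f⟫_𝕜 = if h : v ≠ [] then f ⟨v, h⟩ else 0 := by
  unfold ev
  split_ifs with h
  · rw [lp.inner_single_left]
    simp
  · simp

lemma inner_feat (p : Vertex × Vertex) (f : Model 𝕜) :
    ⟪feat 𝕜 p, f⟫_𝕜 = ∑ v ∈ sg p, if h : v ≠ [] then f ⟨v, h⟩ else 0 := by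
  unfold feat
  rw [sum_inner]
  apply sum_congr rfl
  intro v _
  rw [inner_ev]

lemma exists_pair (v : Vertex) (h : v ≠ []) : ∃ w : Vertex, parent v = some w := by
  rcases List.eq_nil_or_concat v with h1 | ⟨l, b, h1⟩
  · exact absurd h1 h
  · refine ⟨l, ?_⟩
    rw [h1, List.concat_eq_append, parent_concat]

noncomputable instance modelRKHS : RKHS 𝕜 (Model 𝕜) (Vertex × Vertex) 𝕜 where
  coeCLM := ContinuousLinearMap.pi fun p => innerSL 𝕜 (feat 𝕜 p)
  coeCLM_injective := by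
    rw [injective_iff_map_eq_zero]
    intro f hf
    ext ⟨v, hv⟩
    obtain ⟨w, hw⟩ := exists_pair v hv
    have h1 := congrFun hf (v, w)
    simp only [ContinuousLinearMap.coe_pi', innerSL_apply_apply, Pi.zero_apply] at h1
    rw [inner_feat] at h1
    have h2 : sg (v, w) = {v} := by
      unfold sg
      simp only
      rw [← hw, seg_edge]
    rw [h2, sum_singleton, dif_pos hv] at h1
    simpa using h1

/-- evaluation in the model -/
noncomputable def ap (f : Model 𝕜) (p : Vertex × Vertex) : 𝕜 := RKHS.coeCLM (H := Model 𝕜) 𝕜 f p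

lemma model_apply (f : Model 𝕜) (p : Vertex × Vertex) : ap f p = ⟪feat 𝕜 p, f⟫_𝕜 := rfl

lemma model_kerFun (p : Vertex × Vertex) : RKHS.kerFun (Model 𝕜) p (1 : 𝕜) = feat 𝕜 p := by
  apply ext_inner_right 𝕜
  intro f
  rw [RKHS.kerFun_inner, ← model_apply]
  simp [ap]

lemma root_not_mem (p : Vertex × Vertex) : ([] : Vertex) ∉ sg p := by
  unfold sg
  rw [mem_seg]
  have h : ∀ x : Vertex, Anc [] x := fun x => by simp [Anc]
  simp [h]

lemma model_kernel (p q : Vertex × Vertex) :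
    RKHS.kernel (Model 𝕜) p q = ((|ker p q| : ℤ) : 𝕜) • ContinuousLinearMap.id 𝕜 𝕜 := by
  apply ContinuousLinearMap.ext_ring
  rw [← RKHS.kerFun_apply, model_kerFun]
  change ap (feat 𝕜 q) p = _
  rw [model_apply, inner_feat, abs_ker]
  simp only [smul_apply, ContinuousLinearMap.id_apply, smul_eq_mul, mul_one]
  have h1 : ∀ v ∈ sg p, (if h : v ≠ [] then (feat 𝕜 q : Model 𝕜) ⟨v, h⟩ else 0) = if v ∈ sg q then (1 : 𝕜) else 0 := by
    intro v hv
    have hne : v ≠ [] := by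
      rintro rfl
      exact root_not_mem p hv
    rw [dif_pos hne]
    unfold feat
    have h2 : (∑ w ∈ sg q, ev 𝕜 w : Model 𝕜) ⟨v, hne⟩ = ∑ w ∈ sg q, (ev 𝕜 w : Model 𝕜) ⟨v, hne⟩ := by
      rw [lp.coeFn_sum, Finset.sum_apply]
    rw [h2]
    have h3 : ∀ w ∈ sg q, (ev 𝕜 w : Model 𝕜) ⟨v, hne⟩ = if v = w then (1 : 𝕜) else 0 := by
      intro w hw
      have hwne : w ≠ [] := by
        rintro rfl
        exact root_not_mem q hw
      unfold ev
      rw [dif_pos hwne, lp.single_apply]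
      by_cases h4 : v = w
      · subst h4
        simp
      · rw [if_neg h4, Pi.single_eq_of_ne]
        intro h5
        exact h4 (by simpa using h5)
    rw [sum_congr rfl h3]
    simp
  rw [sum_congr rfl h1, sum_ite, sum_const_zero, add_zero, sum_const, nsmul_eq_mul, mul_one]
  have : filter (fun v => v ∈ sg q) (sg p) = sg p ∩ sg q := by
    ext v; simp
  rw [this]
  simp [sg]

lemma telescope (F : Option Vertex → 𝕜) (x : Vertex) : F (some x) = F none + ∑ v ∈ P (some x), grad F v := by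
  induction x using List.reverseRecOn with
  | nil =>
    have h := (P_parent []).1
    rw [h]
    simp [parent, P_none, grad]
  | append_singleton l b ih =>
    obtain ⟨h1, h2⟩ := P_parent (l ++ [b])
    rw [h1, sum_insert h2, parent_concat]
    have h3 : grad F (l ++ [b]) = F (some (l ++ [b])) - F (some l) := by
      rw [grad, parent_concat]
    rw [h3, ih]
    ring

lemma diff_bound (F : Option Vertex → 𝕜) (x y : Vertex) : ‖F (some x) - F (some y)‖ ≤ ∑ v ∈ sg (x, y), ‖grad F v‖ := by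
  rw [telescope F x, telescope F y]
  have h1 : F none + ∑ v ∈ P (some x), grad F v - (F none + ∑ v ∈ P (some y), grad F v) =
      ∑ v ∈ P (some x) \ P (some y), grad F v - ∑ v ∈ P (some y) \ P (some x), grad F v := by
    have h2 := sum_sdiff_sub_sum_sdiff (s₁ := P (some x)) (s₂ := P (some y)) (f := grad F)
    linear_combination h2
  rw [h1]
  have h3 : ∑ v ∈ sg (x, y), ‖grad F v‖ = ∑ v ∈ P (some x) \ P (some y), ‖grad F v‖ + ∑ v ∈ P (some y) \ P (some x), ‖grad F v‖ := by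
    unfold sg seg
    rw [symmDiff_def, sup_eq_union, sum_union]
    exact disjoint_sdiff_sdiff
  rw [h3]
  exact (norm_sub_le _ _).trans (add_le_add (norm_sum_le _ _) (norm_sum_le _ _))

theorem condB_imp_condA {μ : Measure Vertex} (h : CondB 𝕜 μ) : CondA 𝕜 μ := by
  obtain ⟨C, hC⟩ := h (Model 𝕜) model_kernel
  refine ⟨C + 1, fun F => ?_⟩
  by_cases hfin : ∑' v, ‖grad F v‖ₑ ^ 2 = ⊤
  · rw [hfin, ENNReal.mul_top (by simp)]
    exact le_top
  · have hsum : Summable (fun v => ‖grad F v‖ ^ 2) := by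
      have h1 : ∀ v, ‖grad F v‖ₑ ^ 2 = ENNReal.ofReal (‖grad F v‖ ^ 2) := fun v => enorm_sq_eq _
      simp_rw [h1] at hfin
      have h2 := ENNReal.summable_toReal hfin
      refine h2.congr ?_
      intro v
      rw [ENNReal.toReal_ofReal (by positivity)]
    have hmem : Memℓp (fun v : {v : Vertex // v ≠ []} => ((‖grad F v.1‖ : ℝ) : 𝕜)) 2 := by
      apply memℓp_gen
      refine (hsum.comp_injective Subtype.val_injective).congr ?_
      intro v
      simp
    set f : Model 𝕜 := ⟨_, hmem⟩ with hf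
    have hfv : ∀ v, f v = ((‖grad F v.1‖ : ℝ) : 𝕜) := fun v => rfl
    have hfn : ‖f‖ₑ ^ 2 ≤ ∑' v, ‖grad F v‖ₑ ^ 2 := by
      rw [enorm_sq_eq]
      have h1 := lp.norm_rpow_eq_tsum (p := 2) (by simp) f
      simp only [ENNReal.toReal_ofNat, Real.rpow_ofNat] at h1
      rw [h1]
      have h2 : ∀ v, ‖f v‖ ^ 2 = ‖grad F v.1‖ ^ 2 := by
        intro v
        rw [hfv]
        simp
      simp_rw [h2]
      have hs2 : Summable (fun v : {v : Vertex // v ≠ []} => ‖grad F v.1‖ ^ 2) := hsum.comp_injective Subtype.val_injective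
      rw [ENNReal.ofReal_tsum_of_nonneg (fun _ => by positivity) hs2]
      have h3 : ∀ v : {v : Vertex // v ≠ []}, ENNReal.ofReal (‖grad F v.1‖ ^ 2) = ‖grad F v.1‖ₑ ^ 2 := fun v => (enorm_sq_eq _).symm
      simp_rw [h3]
      exact ENNReal.tsum_comp_le_tsum_of_injective Subtype.val_injective (fun v => ‖grad F v‖ₑ ^ 2)
    have hpt : ∀ z : Vertex × Vertex, ‖F (some z.1) - F (some z.2)‖ₑ ≤ ‖ap f z‖ₑ := by
      intro z
      have h1 : ap f z = ((∑ v ∈ sg z, ‖grad F v‖ : ℝ) : 𝕜) := by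
        rw [model_apply, inner_feat]
        push_cast
        apply sum_congr rfl
        intro v hv
        have hne : v ≠ [] := by
          rintro rfl
          exact root_not_mem z hv
        rw [dif_pos hne, hfv]
      rw [h1, ← ofReal_norm, ← ofReal_norm, RCLike.norm_ofReal, abs_of_nonneg (sum_nonneg fun _ _ => norm_nonneg _)]
      exact ENNReal.ofReal_le_ofReal (diff_bound F z.1 z.2)
    calc ∫⁻ z, ‖F (some z.1) - F (some z.2)‖ₑ ^ 2 ∂(μ.prod μ)
        ≤ ∫⁻ z, ‖ap f z‖ₑ ^ 2 ∂(μ.prod μ) := by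
          gcongr with z
          exact hpt z
      _ ≤ C * ‖f‖ₑ ^ 2 := hC f
      _ ≤ C * ∑' v, ‖grad F v‖ₑ ^ 2 := by gcongr
      _ ≤ _ := by
        gcongr
        exact le_self_add

end BtoA

end Pool.Agent.V1193.Tree
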