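import Mathlib

/-! Dyadic group, Walsh functions, dyadic martingales, martingale Hardy spaces. -/

open MeasureTheory ProbabilityTheory Filter Topology
open scoped ENNReal

namespace Pool.Agent.V1193.Walsh

/-- The dyadic group `G = {0,1}^ℕ` (with `true` for `1`, `false` for `0`). -/
abbrev G : Type := ℕ → Bool

/-- The fair coin measure on `{0,1}`: each point has mass `1/2`. -/
noncomputable def coin : Measure Bool :=
  (2⁻¹ : ℝ≥0∞) • (Measure.dirac false + Measure.dirac true)

instance coin_prob : IsProbabilityMeasure coin := by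
  constructor
  simp only [coin, Measure.smul_apply, Measure.add_apply, measure_univ, smul_eq_mul]
  rw [one_add_one_eq_two, ENNReal.inv_mul_cancel (by norm_num) (by norm_num)]

/-- The product probability measure on `G`. -/
noncomputable def mu : Measure G := Measure.infinitePi (fun _ : ℕ => coin)

instance mu_prob : IsProbabilityMeasure mu := by
  unfold mu; infer_instance

/-- The dyadic interval `I_n(x)`. -/
def cyl (n : ℕ) (x : G) : Set G := {y | ∀ j < n, y j = x j}

lemma cyl_eq_pi (n : ℕ) (x : G) :
    cyl n x = Set.pi (Finset.range n : Finset ℕ) (fun j => ({x j} : Set Bool)) := by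
  ext y; simp [cyl, Set.mem_pi]

lemma measurableSet_cyl (n : ℕ) (x : G) : MeasurableSet (cyl n x) := by
  rw [cyl_eq_pi]
  exact MeasurableSet.pi (Finset.countable_toSet _) (fun i _ => MeasurableSet.singleton _)

lemma coin_singleton (b : Bool) : coin {b} = 2⁻¹ := by
  cases b <;> simp [coin]

lemma mu_cyl (n : ℕ) (x : G) : mu (cyl n x) = (2⁻¹ : ℝ≥0∞) ^ n := by
  rw [cyl_eq_pi, mu, Measure.infinitePi_pi _ (fun i _ => MeasurableSet.singleton _)]
  simp [coin_singleton]

lemma cyl_succ (n : ℕ) (x : G) :
    cyl n x = cyl (n+1) (Function.update x n true) ∪ cyl (n+1) (Function.update x n false) := by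
  ext y
  simp only [cyl, Set.mem_ofPred_eq, Set.mem_union]
  constructor
  · intro h
    cases hy : y n
    · right
      intro j hj
      rcases Nat.lt_succ_iff_lt_or_eq.1 hj with h1 | h1
      · rw [Function.update_of_ne (by omega)]; exact h j h1
      · subst h1; simp [hy]
    · left
      intro j hj
      rcases Nat.lt_succ_iff_lt_or_eq.1 hj with h1 | h1
      · rw [Function.update_of_ne (by omega)]; exact h j h1
      · subst h1; simp [hy]
  · rintro (h | h) j hj
    · have := h j (by omega)
      rwa [Function.update_of_ne (by omega)] at this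
    · have := h j (by omega)
      rwa [Function.update_of_ne (by omega)] at this

/-- The dyadic filtration: `F_n` is the σ-algebra generated by the sets `I_n(x)`. -/
def dyadic : Filtration ℕ (inferInstance : MeasurableSpace G) where
  seq n := MeasurableSpace.generateFrom (Set.range (cyl n))
  mono' := by
    apply monotone_nat_of_le_succ
    intro n
    apply MeasurableSpace.generateFrom_le
    rintro _ ⟨x, rfl⟩
    rw [cyl_succ]
    exact MeasurableSet.union (MeasurableSpace.measurableSet_generateFrom ⟨_, rfl⟩)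
      (MeasurableSpace.measurableSet_generateFrom ⟨_, rfl⟩)
  le' n := by
    apply MeasurableSpace.generateFrom_le
    rintro _ ⟨x, rfl⟩
    exact measurableSet_cyl n x

/-- Rademacher functions. -/
def rad (k : ℕ) (x : G) : ℝ := if x k then -1 else 1

/-- Walsh functions `w_n = ∏_k r_k^{n_k}`, where `n_k` is the `k`-th binary digit of `n`
(all the digits `n_k` with `k ≥ n` vanish). -/
def walsh (n : ℕ) (x : G) : ℝ :=
  ∏ k ∈ Finset.range n, if n.testBit k then rad k x else 1

/-- `‖g‖_p` -/
noncomputable def lpNorm (p : ℝ) (g : G → ℝ) : ℝ≥0∞ := (∫⁻ x, ‖g x‖ₑ ^ p ∂mu) ^ (1 / p)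

/-- `‖f‖_{H_p} = ‖sup_n |f^{(n)}|‖_p`. -/
noncomputable def hpNorm (p : ℝ) (f : ℕ → G → ℝ) : ℝ≥0∞ :=
  (∫⁻ x, (⨆ n, ‖f n x‖ₑ) ^ p ∂mu) ^ (1 / p)

/-- Walsh-Fourier coefficients `lim_k ∫ f^{(k)} w_i dμ`. -/
noncomputable def coef (f : ℕ → G → ℝ) (i : ℕ) : ℝ :=
  limUnder atTop (fun k => ∫ x, f k x * walsh i x ∂mu)

/-- Partial sums `S_k f`. -/
noncomputable def psum (f : ℕ → G → ℝ) (k : ℕ) (x : G) : ℝ :=
  ∑ i ∈ Finset.range k, coef f i * walsh i x

/-! ### Basic facts -/

lemma rad_sq (k : ℕ) (x : G) : rad k x * rad k x = 1 := by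
  unfold rad; split <;> norm_num

lemma abs_rad (k : ℕ) (x : G) : |rad k x| = 1 := by
  unfold rad; split <;> norm_num

lemma walsh_eq (n K : ℕ) (h : n < 2 ^ K) (x : G) :
    walsh n x = ∏ k ∈ Finset.range K, if n.testBit k then rad k x else 1 := by
  have aux : ∀ K' K'' : ℕ, K' ≤ K'' → n < 2 ^ K' →
      (∏ k ∈ Finset.range K', if n.testBit k then rad k x else 1) =
      ∏ k ∈ Finset.range K'', if n.testBit k then rad k x else 1 := by
    intro K' K'' hK hn
    apply Finset.prod_subset
    · intro i hi; simp only [Finset.mem_range] at *; omega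
    · intro i _ hi
      simp only [Finset.mem_range, not_lt] at hi
      rw [Nat.testBit_lt_two_pow (lt_of_lt_of_le hn (Nat.pow_le_pow_right (by norm_num) hi))]
      simp
  unfold walsh
  rcases le_total n K with h1 | h1
  · exact aux n K h1 Nat.lt_two_pow_self
  · exact (aux K n h1 h).symm

lemma abs_walsh (n : ℕ) (x : G) : |walsh n x| = 1 := by
  unfold walsh
  rw [Finset.abs_prod]
  apply Finset.prod_eq_one
  intro i _
  split
  · exact abs_rad i x
  · simp

/-- shift -/
def shift (x : G) : G := fun j => x (j+1)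

lemma rad_shift (k : ℕ) (x : G) : rad k (shift x) = rad (k+1) x := rfl

lemma walsh_zero (x : G) : walsh 0 x = 1 := by simp [walsh]

lemma walsh_two_mul (i : ℕ) (x : G) : walsh (2*i) x = walsh i (shift x) := by
  have h1 : i < 2^i := Nat.lt_two_pow_self
  have h2 : 2*i < 2^(i+1) := by rw [pow_succ]; omega
  rw [walsh_eq (2*i) (i+1) h2, walsh_eq i i h1, Finset.prod_range_succ']
  have e0 : (2*i).testBit 0 = false := by simp [Nat.testBit_zero]
  rw [e0]
  simp only [Bool.false_eq_true, if_false, mul_one]
  apply Finset.prod_congr rfl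
  intro k _
  rw [Nat.testBit_succ, Nat.mul_div_cancel_left _ (by norm_num), rad_shift]

lemma walsh_two_mul_add_one (i : ℕ) (x : G) : walsh (2*i+1) x = rad 0 x * walsh i (shift x) := by
  have h1 : i < 2^i := Nat.lt_two_pow_self
  have h2 : 2*i+1 < 2^(i+1) := by rw [pow_succ]; omega
  rw [walsh_eq (2*i+1) (i+1) h2, walsh_eq i i h1, Finset.prod_range_succ']
  have e0 : (2*i+1).testBit 0 = true := by simp [Nat.testBit_zero]
  rw [e0]
  simp only [if_true]
  rw [mul_comm]
  congr 1
  apply Finset.prod_congr rfl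
  intro k _
  rw [Nat.testBit_succ, show (2*i+1)/2 = i by omega, rad_shift]

lemma walsh_compl (k i : ℕ) (h : i < 2^k) (x : G) :
    walsh (2^k - 1 - i) x = walsh (2^k - 1) x * walsh i x := by
  have e1 : 2^k - 1 - i < 2^k := by omega
  have e2 : 2^k - 1 < 2^k := by have := Nat.one_le_two_pow (n := k); omega
  rw [walsh_eq _ k e1, walsh_eq _ k e2, walsh_eq _ k h, ← Finset.prod_mul_distrib]
  apply Finset.prod_congr rfl
  intro j hj
  simp only [Finset.mem_range] at hj
  have t1 : (2^k - 1 - i).testBit j = !(i.testBit j) := by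
    rw [Nat.sub_sub, Nat.add_comm 1 i, Nat.testBit_two_pow_sub_succ h]
    simp [hj]
  have t2 : (2^k - 1).testBit j = true := by
    rw [Nat.testBit_two_pow_sub_one]; simp [hj]
  rw [t1, t2]
  cases i.testBit j
  · simp
  · simp [rad_sq]

lemma walsh_add_two_pow (k m : ℕ) (h : m < 2^k) (x : G) :
    walsh (2^k + m) x = rad k x * walsh m x := by
  have e1 : 2^k + m < 2^(k+1) := by rw [pow_succ]; omega
  rw [walsh_eq _ (k+1) e1, walsh_eq _ k h, Finset.prod_range_succ]
  have t1 : (2^k+m).testBit k = true := by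
    rw [Nat.testBit_two_pow_add_eq, Nat.testBit_lt_two_pow h]; rfl
  rw [t1, mul_comm]
  simp only [if_true]
  congr 1
  apply Finset.prod_congr rfl
  intro j hj
  simp only [Finset.mem_range] at hj
  rw [Nat.testBit_two_pow_add_gt hj]

/-- `D_k(a)(x) = ∑_{i<2^k} a_i w_i(x)` -/
def D (k : ℕ) (a : ℕ → ℝ) (x : G) : ℝ := ∑ i ∈ Finset.range (2^k), a i * walsh i x

lemma D_succ (k : ℕ) (a : ℕ → ℝ) (x : G) :
    D (k+1) a x = D k (fun i => a (2*i) + rad 0 x * a (2*i+1)) (shift x) := by
  unfold D
  have key : ∀ M : ℕ, ∑ i ∈ Finset.range (2*M), a i * walsh i x =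
      ∑ i ∈ Finset.range M, (a (2*i) + rad 0 x * a (2*i+1)) * walsh i (shift x) := by
    intro M
    induction M with
    | zero => simp
    | succ M ih =>
      rw [show 2*(M+1) = 2*M+1+1 by ring, Finset.sum_range_succ, Finset.sum_range_succ, ih,
        Finset.sum_range_succ, walsh_two_mul, walsh_two_mul_add_one]
      ring
  rw [pow_succ, mul_comm (2^k) 2]
  exact key _

/-- `s`-fold shift -/
def shiftN (s : ℕ) (x : G) : G := fun j => x (j+s)

lemma shift_shiftN (s : ℕ) (x : G) : shift (shiftN s x) = shiftN (s+1) x := by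
  funext j; simp only [shift, shiftN]; congr 1; ring

/-- block sums -/
def blk (s : ℕ) (a : ℕ → ℝ) (i : ℕ) : ℝ := ∑ l ∈ Finset.range (2^s), a (2^s * i + l)

lemma blk_succ (s : ℕ) (a : ℕ → ℝ) (i : ℕ) :
    blk (s+1) a i = blk s a (2*i) + blk s a (2*i+1) := by
  unfold blk
  rw [pow_succ, Nat.mul_two, Finset.sum_range_add]
  congr 1
  · apply Finset.sum_congr rfl
    intro l _; congr 1; ring
  · apply Finset.sum_congr rfl
    intro l _; congr 1; ring

lemma D_blk (s k : ℕ) (a : ℕ → ℝ) (x : G) (hx : ∀ j < s, x j = false) :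
    D (k+s) a x = D k (blk s a) (shiftN s x) := by
  induction s generalizing k with
  | zero =>
    have e1 : blk 0 a = a := by funext i; simp [blk]
    have e2 : shiftN 0 x = x := by funext j; simp [shiftN]
    rw [e1, e2]; rfl
  | succ s ih =>
    rw [show k + (s+1) = (k+1)+s by ring, ih (k+1) (fun j hj => hx j (by omega)), D_succ,
      shift_shiftN]
    congr 1
    funext i
    have : rad 0 (shiftN s x) = 1 := by
      unfold rad shiftN
      rw [hx (0+s) (by omega)]; simp
    rw [this, one_mul, blk_succ]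

/-- For `x` with `x_0 = … = x_{s-1} = 0`, `x_s = x_{s+1} = 1`. -/
lemma D_formula (s k : ℕ) (a : ℕ → ℝ) (x : G) (hx : ∀ j < s, x j = false) (h1 : x s = true)
    (h2 : x (s+1) = true) :
    D (k+(s+2)) a x = D k (fun i => (blk s a (4*i) - blk s a (4*i+1))
      - (blk s a (4*i+2) - blk s a (4*i+3))) (shiftN (s+2) x) := by
  rw [show k + (s+2) = (k+1+1)+s by ring, D_blk s (k+1+1) a x hx, D_succ, shift_shiftN, D_succ,
    shift_shiftN]
  congr 1
  funext i
  have e1 : rad 0 (shiftN s x) = -1 := by
    unfold rad shiftN; rw [zero_add, h1]; simp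
  have e2 : rad 0 (shiftN (s+1) x) = -1 := by
    unfold rad shiftN; rw [zero_add, h2]; simp
  rw [e1, e2]
  have a1 : 2*(2*i) = 4*i := by ring
  have a2 : 2*(2*i+1) = 4*i+2 := by ring
  have a3 : 4*i+2+1 = 4*i+3 := by ring
  rw [a1, a2, a3]
  ring

/-! ### Coordinate flips -/

/-- flip the `i`-th coordinate -/
def flip (i : ℕ) (x : G) : G := fun j => if j = i then !(x j) else x j

lemma measurable_flip (i : ℕ) : Measurable (flip i) := by
  apply measurable_pi_lambda
  intro j
  unfold flip
  split
  · exact (Measurable.of_discrete (f := Bool.not)).comp (measurable_pi_apply j)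
  · exact measurable_pi_apply j

lemma coin_not : coin.map Bool.not = coin := by
  unfold coin
  rw [Measure.map_smul, Measure.map_add _ _ (Measurable.of_discrete (f := Bool.not)),
    Measure.map_dirac' (Measurable.of_discrete (f := Bool.not)),
    Measure.map_dirac' (Measurable.of_discrete (f := Bool.not))]
  simp only [Bool.not_false, Bool.not_true]
  rw [add_comm]

lemma map_flip (i : ℕ) : mu.map (flip i) = mu := by
  unfold mu
  have h := Measure.infinitePi_map_pi (μ := fun _ : ℕ => coin)
    (f := fun j (b : Bool) => if j = i then !b else b)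
    (fun j => Measurable.of_discrete)
  have e : (fun (x : G) (j : ℕ) => if j = i then !(x j) else x j) = flip i := rfl
  rw [e] at h
  rw [h]
  congr 1
  funext j
  split
  · exact coin_not
  · exact Measure.map_id

lemma integral_flip (i : ℕ) (g : G → ℝ) (hg : Measurable g) :
    ∫ x, g (flip i x) ∂mu = ∫ x, g x ∂mu := by
  conv_rhs => rw [← map_flip i]
  rw [integral_map (measurable_flip i).aemeasurable hg.aestronglyMeasurable]

lemma integral_odd (i : ℕ) (g : G → ℝ) (hg : Measurable g) (h : ∀ x, g (flip i x) = - g x) :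
    ∫ x, g x ∂mu = 0 := by
  have h1 := integral_flip i g hg
  simp only [h] at h1
  rw [integral_neg] at h1
  linarith

lemma measurable_rad (k : ℕ) : Measurable (rad k) := by
  unfold rad
  exact (Measurable.of_discrete (f := fun b : Bool => if b then (-1:ℝ) else 1)).comp
    (measurable_pi_apply k)

lemma measurable_walsh (n : ℕ) : Measurable (walsh n) := by
  unfold walsh
  apply Finset.measurable_prod
  intro i _
  split
  · exact measurable_rad i
  · exact measurable_const

lemma rad_flip_same (i : ℕ) (x : G) : rad i (flip i x) = - rad i x := by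
  unfold rad flip
  cases x i <;> simp

lemma rad_flip_ne (i k : ℕ) (h : k ≠ i) (x : G) : rad k (flip i x) = rad k x := by
  unfold rad flip
  simp [h]

lemma walsh_flip (n i : ℕ) (x : G) :
    walsh n (flip i x) = if n.testBit i then - walsh n x else walsh n x := by
  by_cases hi : n.testBit i
  · rw [if_pos hi]
    have hin : i < n := by
      by_contra hc
      have h1 : n < 2^i := lt_of_lt_of_le Nat.lt_two_pow_self
        (Nat.pow_le_pow_right (by norm_num) (not_lt.1 hc))
      rw [Nat.testBit_lt_two_pow h1] at hi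
      exact absurd hi (by simp)
    unfold walsh
    rw [← Finset.mul_prod_erase _ _ (Finset.mem_range.2 hin),
      ← Finset.mul_prod_erase _ _ (Finset.mem_range.2 hin), if_pos hi, if_pos hi, rad_flip_same,
      neg_mul]
    congr 2
    apply Finset.prod_congr rfl
    intro k hk
    rw [rad_flip_ne i k (Finset.ne_of_mem_erase hk)]
  · rw [if_neg hi]
    unfold walsh
    apply Finset.prod_congr rfl
    intro k hk
    by_cases hki : k = i
    · subst hki; simp [hi]
    · rw [rad_flip_ne i k hki]

lemma flip_mem_cyl (n i : ℕ) (h : n ≤ i) (z x : G) : flip i x ∈ cyl n z ↔ x ∈ cyl n z := by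
  simp only [cyl, Set.mem_ofPred_eq]
  apply forall_congr'
  intro j
  apply imp_congr_right
  intro hj
  have : flip i x j = x j := by unfold flip; rw [if_neg (by omega)]
  rw [this]

lemma flip_mem_dyadic (n i : ℕ) (h : n ≤ i) (A : Set G) (hA : MeasurableSet[dyadic n] A) (x : G) :
    flip i x ∈ A ↔ x ∈ A := by
  revert x
  refine MeasurableSpace.generateFrom_induction (C := Set.range (cyl n))
    (p := fun s _ => ∀ x, flip i x ∈ s ↔ x ∈ s) ?_ ?_ ?_ ?_ A hA
  · rintro _ ⟨z, rfl⟩ _ x
    exact flip_mem_cyl n i h z x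
  · intro x; simp
  · intro s _ hs x
    simp only [Set.mem_compl_iff, hs x]
  · intro s _ hs x
    simp only [Set.mem_iUnion, hs _ x]

/-- highest binary digit -/
lemma exists_testBit_ge (n K : ℕ) (h : 2^K ≤ n) : ∃ i, K ≤ i ∧ n.testBit i = true := by
  by_contra hc
  push Not at hc
  have h1 : n < 2^K := by
    apply Nat.lt_pow_two_of_testBit
    intro i hi
    have := hc i hi
    simpa using this
  omega

end Pool.Agent.V1193.Walsh
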