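import Pool.Agent.V1193.WalshBase

/-! General Nörlund means of the dyadic atoms at the critical exponent. -/

open MeasureTheory ProbabilityTheory Filter Topology
open scoped ENNReal

namespace Pool.Agent.V1193.Walsh

/-- zero of the group -/
def zeroG : G := fun _ => false

/-- `c r_k 1_{I_k(0)}` -/
noncomputable def atomFn (k : ℕ) (c : ℝ) : G → ℝ := (cyl k zeroG).indicator (fun x => c * rad k x)

/-- the atom as a martingale -/
noncomputable def atom (k : ℕ) (c : ℝ) (n : ℕ) : G → ℝ := if k < n then atomFn k c else 0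

lemma measurable_atomFn (k : ℕ) (c : ℝ) : Measurable (atomFn k c) :=
  (((measurable_rad k).const_mul c)).indicator (measurableSet_cyl k zeroG)

lemma measurable_rad_dyadic (k n : ℕ) (h : k < n) : Measurable[dyadic n] (rad k) := by
  have hS : MeasurableSet[dyadic n] {x : G | x k = true} := by
    have hmono : dyadic (k+1) ≤ dyadic n := dyadic.mono h
    apply hmono
    -- the set is a finite union of cylinders
    have key : {x : G | x k = true} = ⋃ (u : Fin (k+1) → Bool) (_ : u (Fin.last k) = true),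
        cyl (k+1) (fun j => if hj : j < k+1 then u ⟨j, hj⟩ else false) := by
      ext x
      simp only [Set.mem_ofPred_eq, Set.mem_iUnion, exists_prop, cyl]
      constructor
      · intro hx
        refine ⟨fun j => x j, by simpa using hx, fun j hj => ?_⟩
        rw [dif_pos hj]
      · rintro ⟨u, hu, hx⟩
        have := hx k (Nat.lt_succ_self k)
        rw [dif_pos (Nat.lt_succ_self k)] at this
        rw [this]; exact hu
    rw [key]
    exact MeasurableSet.iUnion fun u => MeasurableSet.iUnion fun _ =>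
      MeasurableSpace.measurableSet_generateFrom ⟨_, rfl⟩
  have e : rad k = fun x => if x ∈ {x : G | x k = true} then (-1:ℝ) else 1 := by
    funext x; unfold rad; simp only [Set.mem_ofPred_eq]
  rw [e]
  exact Measurable.ite hS measurable_const measurable_const

lemma abs_atomFn_le (k : ℕ) (c : ℝ) (x : G) : |atomFn k c x| ≤ |c| := by
  unfold atomFn
  by_cases hx : x ∈ cyl k zeroG
  · rw [Set.indicator_of_mem hx, abs_mul, abs_rad, mul_one]
  · rw [Set.indicator_of_notMem hx]; simp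

lemma integrable_of_bdd (g : G → ℝ) (hg : Measurable g) (C : ℝ) (h : ∀ x, |g x| ≤ C) :
    Integrable g mu := by
  apply Integrable.of_bound hg.aestronglyMeasurable C
  exact Eventually.of_forall (fun x => by rw [Real.norm_eq_abs]; exact h x)

lemma atomFn_flip (k : ℕ) (c : ℝ) (x : G) : atomFn k c (flip k x) = - atomFn k c x := by
  unfold atomFn
  by_cases hx : x ∈ cyl k zeroG
  · have hx' : flip k x ∈ cyl k zeroG := (flip_mem_cyl k k le_rfl zeroG x).2 hx
    rw [Set.indicator_of_mem hx, Set.indicator_of_mem hx', rad_flip_same]; ring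
  · have hx' : flip k x ∉ cyl k zeroG := fun h => hx ((flip_mem_cyl k k le_rfl zeroG x).1 h)
    rw [Set.indicator_of_notMem hx, Set.indicator_of_notMem hx']; ring

lemma atomFn_flip_gt (k l : ℕ) (h : k < l) (c : ℝ) (x : G) :
    atomFn k c (flip l x) = atomFn k c x := by
  unfold atomFn
  by_cases hx : x ∈ cyl k zeroG
  · have hx' : flip l x ∈ cyl k zeroG := (flip_mem_cyl k l h.le zeroG x).2 hx
    rw [Set.indicator_of_mem hx, Set.indicator_of_mem hx', rad_flip_ne l k (by omega)]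
  · have hx' : flip l x ∉ cyl k zeroG := fun h' => hx ((flip_mem_cyl k l h.le zeroG x).1 h')
    rw [Set.indicator_of_notMem hx, Set.indicator_of_notMem hx']

lemma atom_martingale (k : ℕ) (c : ℝ) : Martingale (atom k c) dyadic mu := by
  have hint : ∀ n, Integrable (atom k c n) mu := by
    intro n
    unfold atom
    split
    · exact integrable_of_bdd _ (measurable_atomFn k c) |c| (abs_atomFn_le k c)
    · exact integrable_zero _ _ _
  apply martingale_of_setIntegral_eq_succ _ hint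
  · intro n s hs
    by_cases h1 : k < n
    · have h2 : k < n+1 := by omega
      unfold atom
      rw [if_pos h1, if_pos h2]
    · by_cases h2 : k < n + 1
      · have hkn : n = k := by omega
        subst hkn
        unfold atom
        rw [if_neg h1, if_pos h2]
        simp only [Pi.zero_apply, integral_zero]
        symm
        have hs' : MeasurableSet s := dyadic.le n s hs
        rw [← integral_indicator hs']
        apply integral_odd n
        · exact (measurable_atomFn n c).indicator hs'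
        · intro x
          have hf := flip_mem_dyadic n n le_rfl s hs x
          by_cases hx : x ∈ s
          · rw [Set.indicator_of_mem hx, Set.indicator_of_mem (hf.2 hx), atomFn_flip]
          · rw [Set.indicator_of_notMem hx, Set.indicator_of_notMem (fun h => hx (hf.1 h))]
            ring
      · unfold atom
        rw [if_neg h1, if_neg h2]
  · intro n
    unfold atom
    split
    · rename_i h
      apply Measurable.stronglyMeasurable
      unfold atomFn
      apply Measurable.indicator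
      · exact (measurable_rad_dyadic k n h).const_mul c
      · apply dyadic.mono h.le
        exact MeasurableSpace.measurableSet_generateFrom ⟨_, rfl⟩
    · exact stronglyMeasurable_zero

lemma hpNorm_atom (k : ℕ) (α : ℝ) (h0 : 0 < α) :
    hpNorm (1/(1+α)) (atom k ((2:ℝ) ^ ((k:ℝ) * (1+α)))) = 1 := by
  have hp : 0 < 1/(1+α) := by positivity
  set c : ℝ := (2:ℝ) ^ ((k:ℝ) * (1+α)) with hc
  have hcpos : 0 < c := by positivity
  have hsup : ∀ x, (⨆ n, ‖atom k c n x‖ₑ) = (cyl k zeroG).indicator (fun _ => ENNReal.ofReal c) x := by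
    intro x
    have h1 : ∀ n, ‖atom k c n x‖ₑ ≤ (cyl k zeroG).indicator (fun _ => ENNReal.ofReal c) x := by
      intro n
      unfold atom atomFn
      split
      · by_cases hx : x ∈ cyl k zeroG
        · rw [Set.indicator_of_mem hx, Set.indicator_of_mem hx, Real.enorm_eq_ofReal_abs, abs_mul,
            abs_rad, mul_one, abs_of_pos hcpos]
        · rw [Set.indicator_of_notMem hx]; simp
      · simp
    apply le_antisymm (iSup_le h1)
    refine le_trans ?_ (le_iSup _ (k+1))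
    unfold atom atomFn
    rw [if_pos (Nat.lt_succ_self k)]
    by_cases hx : x ∈ cyl k zeroG
    · rw [Set.indicator_of_mem hx, Set.indicator_of_mem hx, Real.enorm_eq_ofReal_abs, abs_mul,
        abs_rad, mul_one, abs_of_pos hcpos]
    · rw [Set.indicator_of_notMem hx]; simp
  unfold hpNorm
  simp only [hsup]
  have h2 : ∀ x, ((cyl k zeroG).indicator (fun _ => ENNReal.ofReal c) x) ^ (1/(1+α)) =
      (cyl k zeroG).indicator (fun _ => (2:ℝ≥0∞) ^ k) x := by
    intro x
    by_cases hx : x ∈ cyl k zeroG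
    · rw [Set.indicator_of_mem hx, Set.indicator_of_mem hx,
        ENNReal.ofReal_rpow_of_pos hcpos, hc, ← Real.rpow_mul (by norm_num)]
      rw [show (k:ℝ) * (1+α) * (1/(1+α)) = k by field_simp, Real.rpow_natCast,
        ENNReal.ofReal_pow (by norm_num)]
      norm_num
    · rw [Set.indicator_of_notMem hx, Set.indicator_of_notMem hx, ENNReal.zero_rpow_of_pos hp]
  simp only [h2]
  rw [lintegral_indicator (measurableSet_cyl k zeroG), setLIntegral_const, mu_cyl,
    ← mul_pow, ENNReal.mul_inv_cancel (by norm_num) (by norm_num), one_pow, ENNReal.one_rpow]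

lemma walsh_one_of_zero (k m : ℕ) (h : m < 2^k) (x : G) (hx : ∀ j < k, x j = false) :
    walsh m x = 1 := by
  rw [walsh_eq m k h]
  apply Finset.prod_eq_one
  intro j hj
  simp only [Finset.mem_range] at hj
  split
  · unfold rad; rw [hx j hj]; simp
  · rfl

lemma coef_atom (k : ℕ) (c : ℝ) (i : ℕ) :
    coef (atom k c) i = if 2^k ≤ i ∧ i < 2^(k+1) then c * (2⁻¹:ℝ)^k else 0 := by
  have hlim : coef (atom k c) i = ∫ x, atomFn k c x * walsh i x ∂mu := by
    unfold coef
    apply Tendsto.limUnder_eq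
    apply tendsto_const_nhds.congr'
    filter_upwards [eventually_gt_atTop k] with n hn
    unfold atom
    rw [if_pos hn]
  rw [hlim]
  have hmeas : Measurable (fun x => atomFn k c x * walsh i x) :=
    (measurable_atomFn k c).mul (measurable_walsh i)
  rcases lt_or_ge i (2^k) with h1 | h1
  · rw [if_neg (by omega)]
    apply integral_odd k _ hmeas
    intro x
    rw [atomFn_flip, walsh_flip, Nat.testBit_lt_two_pow h1]
    simp
  rcases lt_or_ge i (2^(k+1)) with h2 | h2
  · rw [if_pos ⟨h1, h2⟩]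
    obtain ⟨m, rfl⟩ := Nat.exists_eq_add_of_le h1
    have hm : m < 2^k := by rw [pow_succ] at h2; omega
    have e : ∀ x, atomFn k c x * walsh (2^k+m) x = (cyl k zeroG).indicator (fun _ => c) x := by
      intro x
      unfold atomFn
      by_cases hx : x ∈ cyl k zeroG
      · rw [Set.indicator_of_mem hx, Set.indicator_of_mem hx, walsh_add_two_pow k m hm,
          walsh_one_of_zero k m hm x hx]
        rw [mul_one, mul_assoc, rad_sq, mul_one]
      · rw [Set.indicator_of_notMem hx, Set.indicator_of_notMem hx]; ring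
    simp only [e]
    rw [integral_indicator (measurableSet_cyl k zeroG), setIntegral_const, measureReal_def, mu_cyl,
      smul_eq_mul, ENNReal.toReal_pow, ENNReal.toReal_inv, mul_comm]
    norm_num
  · rw [if_neg (by omega)]
    obtain ⟨l, hl, hb⟩ := exists_testBit_ge i (k+1) h2
    apply integral_odd l _ hmeas
    intro x
    rw [atomFn_flip_gt k l (by omega), walsh_flip, if_pos hb]
    ring

/-- Nörlund means with weights `q` and normalisers `B`. -/
noncomputable def norl (q B : ℕ → ℝ) (n : ℕ) (f : ℕ → G → ℝ) (x : G) : ℝ :=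
  (B n)⁻¹ * ∑ k ∈ Finset.Icc 1 n, q (n-k) * psum f k x

/-- partial sums of the weights -/
def Qs (q : ℕ → ℝ) (n : ℕ) : ℝ := ∑ l ∈ Finset.range n, q l

lemma norl_eq (q B : ℕ → ℝ) (n : ℕ) (f : ℕ → G → ℝ) (x : G) :
    norl q B n f x = (B n)⁻¹ * ∑ i ∈ Finset.range n, coef f i * walsh i x * Qs q (n-i) := by
  unfold norl
  congr 1
  have h1 : ∀ N, N ≤ n → ∑ k ∈ Finset.Icc 1 N, q (n-k) * psum f k x =
      ∑ i ∈ Finset.range N, coef f i * walsh i x * (Qs q (n-i) - Qs q (n-N)) := by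
    intro N hN
    induction N with
    | zero => simp
    | succ N ih =>
      rw [Finset.sum_Icc_succ_top (by omega), ih (by omega), psum, Finset.mul_sum,
        Finset.sum_range_succ (fun i => coef f i * walsh i x * (Qs q (n-i) - Qs q (n-(N+1)))),
        Finset.sum_range_succ (fun i => q (n-(N+1)) * (coef f i * walsh i x)), ← add_assoc,
        ← Finset.sum_add_distrib]
      have e1 : Qs q (n-N) = Qs q (n-(N+1)) + q (n-(N+1)) := by
        rw [show n - N = (n-(N+1)) + 1 by omega]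
        unfold Qs
        rw [Finset.sum_range_succ]
      congr 1
      · apply Finset.sum_congr rfl
        intro i _
        rw [e1]; ring
      · rw [e1]; ring
  rw [h1 n le_rfl]
  apply Finset.sum_congr rfl
  intro i _
  simp [Qs]

lemma norl_atom_abs (q B : ℕ → ℝ) (k : ℕ) (c : ℝ) (x : G) :
    |norl q B (2^(k+1)) (atom k c) x| =
      |(B (2^(k+1)))⁻¹ * (c * (2⁻¹:ℝ)^k)| * |D k (fun i => Qs q (i+1)) x| := by
  rw [norl_eq, pow_succ, Nat.mul_two, Finset.sum_range_add]
  have z1 : ∑ i ∈ Finset.range (2^k), coef (atom k c) i * walsh i x * Qs q (2^k+2^k-i) = 0 := by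
    apply Finset.sum_eq_zero
    intro i hi
    simp only [Finset.mem_range] at hi
    rw [coef_atom, if_neg (by omega)]; ring
  rw [z1, zero_add]
  have z2 : ∑ i ∈ Finset.range (2^k), coef (atom k c) (2^k+i) * walsh (2^k+i) x *
      Qs q (2^k+2^k-(2^k+i)) =
      (c * (2⁻¹:ℝ)^k) * rad k x * ∑ i ∈ Finset.range (2^k), Qs q (2^k-i) * walsh i x := by
    rw [Finset.mul_sum]
    apply Finset.sum_congr rfl
    intro i hi
    simp only [Finset.mem_range] at hi
    rw [coef_atom, if_pos ⟨by omega, by rw [pow_succ]; omega⟩, walsh_add_two_pow k i hi,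
      show 2^k+2^k-(2^k+i) = 2^k - i by omega]
    ring
  rw [z2]
  have z3 : ∑ i ∈ Finset.range (2^k), Qs q (2^k-i) * walsh i x =
      walsh (2^k-1) x * D k (fun i => Qs q (i+1)) x := by
    rw [← Finset.sum_range_reflect, D, Finset.mul_sum]
    apply Finset.sum_congr rfl
    intro i hi
    simp only [Finset.mem_range] at hi
    rw [walsh_compl k i hi, show 2^k - (2^k - 1 - i) = i+1 by omega]
    ring
  rw [z3]
  simp only [abs_mul, abs_rad, abs_walsh]
  ring

/-! ### the sets `E_s` -/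

/-- the point with `x_s = x_{s+1} = 1`, other coordinates `0` -/
def pt (s : ℕ) : G := fun j => decide (j = s ∨ j = s+1)

/-- `E_s` -/
def E (s : ℕ) : Set G := cyl (s+2) (pt s)

lemma mem_E {s : ℕ} {x : G} (h : x ∈ E s) :
    (∀ j < s, x j = false) ∧ x s = true ∧ x (s+1) = true := by
  refine ⟨fun j hj => ?_, ?_, ?_⟩
  · rw [h j (by omega)]; unfold pt; simp; omega
  · rw [h s (by omega)]; unfold pt; simp
  · rw [h (s+1) (by omega)]; unfold pt; simp

lemma E_disjoint (s t : ℕ) (h : s < t) : Disjoint (E s) (E t) := by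
  rw [Set.disjoint_left]
  intro x hs ht
  have h1 := (mem_E hs).2.1
  have h2 := (mem_E ht).1 s h
  rw [h1] at h2
  exact absurd h2 (by simp)

/-- `e_j` -/
def ee (q : ℕ → ℝ) (s j : ℕ) : ℝ :=
  ∑ l ∈ Finset.range (2^s), ∑ i ∈ Finset.range (2^s), q (2^(s+1)*j + l + 1 + i)

lemma ee_eq (q : ℕ → ℝ) (s j : ℕ) :
    blk s (fun i => Qs q (i+1)) (2*j+1) - blk s (fun i => Qs q (i+1)) (2*j) = ee q s j := by
  unfold blk ee
  rw [← Finset.sum_sub_distrib]
  apply Finset.sum_congr rfl
  intro l _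
  have e1 : 2^s*(2*j+1)+l+1 = (2^s*(2*j)+l+1) + 2^s := by ring
  show Qs q (2^s*(2*j+1)+l+1) - Qs q (2^s*(2*j)+l+1) = _
  rw [e1]
  unfold Qs
  rw [Finset.sum_range_add, add_sub_cancel_left]
  apply Finset.sum_congr rfl
  intro i _
  congr 1
  rw [pow_succ]; ring

lemma D_ee (q : ℕ → ℝ) (s k : ℕ) (x : G) (hx : x ∈ E s) :
    D (k+(s+2)) (fun i => Qs q (i+1)) x =
      D k (fun i => ee q s (2*i+1) - ee q s (2*i)) (shiftN (s+2) x) := by
  obtain ⟨h1, h2, h3⟩ := mem_E hx
  rw [D_formula s k _ x h1 h2 h3]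
  congr 1
  funext i
  rw [← ee_eq, ← ee_eq]
  rw [show 2*(2*i+1)+1 = 4*i+3 by ring, show 2*(2*i+1) = 4*i+2 by ring,
    show 2*(2*i) = 4*i by ring]
  ring

lemma ee_anti (q : ℕ → ℝ) (hq : Antitone q) (s : ℕ) : Antitone (ee q s) := by
  intro a b hab
  unfold ee
  apply Finset.sum_le_sum
  intro l _
  apply Finset.sum_le_sum
  intro i _
  apply hq
  have := Nat.mul_le_mul_left (2^(s+1)) hab
  omega

lemma ee_nonneg (q : ℕ → ℝ) (hq : ∀ n, 0 ≤ q n) (s j : ℕ) : 0 ≤ ee q s j :=
  Finset.sum_nonneg fun _ _ => Finset.sum_nonneg fun _ _ => hq _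

lemma D_bound (q : ℕ → ℝ) (hq : Antitone q) (hq0 : ∀ n, 0 ≤ q n) (s k : ℕ) (x : G) (hx : x ∈ E s) :
    |D (k+(s+2)) (fun i => Qs q (i+1)) x| ≤ ee q s 0 := by
  rw [D_ee q s k x hx]
  unfold D
  have hanti := ee_anti q hq s
  calc |∑ i ∈ Finset.range (2^k), (ee q s (2*i+1) - ee q s (2*i)) * walsh i (shiftN (s+2) x)|
      ≤ ∑ i ∈ Finset.range (2^k), |(ee q s (2*i+1) - ee q s (2*i)) * walsh i (shiftN (s+2) x)| :=
        Finset.abs_sum_le_sum_abs _ _
    _ ≤ ∑ i ∈ Finset.range (2^k), (ee q s (2*i) - ee q s (2*(i+1))) := by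
        apply Finset.sum_le_sum
        intro i _
        rw [abs_mul, abs_walsh, mul_one, abs_sub_comm, abs_of_nonneg]
        · have := hanti (show 2*i+1 ≤ 2*(i+1) by omega)
          linarith
        · have := hanti (show 2*i ≤ 2*i+1 by omega)
          linarith
    _ = ee q s 0 - ee q s (2*2^k) := by
        rw [Finset.sum_range_sub' (fun i => ee q s (2*i))]
    _ ≤ ee q s 0 := by
        have := ee_nonneg q hq0 s (2*2^k)
        linarith

lemma measurable_D (k : ℕ) (a : ℕ → ℝ) : Measurable (D k a) := by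
  unfold D
  apply Finset.measurable_sum
  intro i _
  exact (measurable_walsh i).const_mul _

lemma integral_E_walsh (s i : ℕ) (h : 2^(s+2) ≤ i) : ∫ x in E s, walsh i x ∂mu = 0 := by
  obtain ⟨l, hl, hb⟩ := exists_testBit_ge i (s+2) h
  change ∫ x in cyl (s+2) (pt s), walsh i x ∂mu = 0
  rw [← integral_indicator (measurableSet_cyl _ _)]
  apply integral_odd l _ ((measurable_walsh i).indicator (measurableSet_cyl _ _))
  intro x
  have hf := flip_mem_cyl (s+2) l hl (pt s) x
  by_cases hx : x ∈ cyl (s+2) (pt s)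
  · rw [Set.indicator_of_mem hx, Set.indicator_of_mem (hf.2 hx), walsh_flip, if_pos hb]
  · rw [Set.indicator_of_notMem hx, Set.indicator_of_notMem (fun h => hx (hf.1 h))]
    ring

lemma integrableOn_walsh (i : ℕ) (S : Set G) : IntegrableOn (walsh i) S mu :=
  (integrable_of_bdd _ (measurable_walsh i) 1 (fun x => (abs_walsh i x).le)).integrableOn

lemma integral_E_D (q : ℕ → ℝ) (s k : ℕ) :
    ∫ x in E s, D (k+(s+2)) (fun i => Qs q (i+1)) x ∂mu =
      (2⁻¹:ℝ)^(s+2) * (ee q s 1 - ee q s 0) := by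
  have h1 : ∫ x in E s, D (k+(s+2)) (fun i => Qs q (i+1)) x ∂mu =
      ∫ x in E s, D (0+(s+2)) (fun i => Qs q (i+1)) x ∂mu := by
    unfold D
    rw [integral_finsetSum _ (fun i _ => (integrableOn_walsh i _).const_mul _),
      integral_finsetSum _ (fun i _ => (integrableOn_walsh i _).const_mul _)]
    symm
    apply Finset.sum_subset
    · intro i hi
      simp only [Finset.mem_range] at *
      exact lt_of_lt_of_le hi (Nat.pow_le_pow_right (by norm_num) (by omega))
    · intro i _ hi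
      simp only [Finset.mem_range, not_lt, zero_add] at hi
      rw [integral_const_mul, integral_E_walsh s i hi, mul_zero]
  rw [h1]
  have h2 : ∫ x in E s, D (0+(s+2)) (fun i => Qs q (i+1)) x ∂mu =
      ∫ x in E s, (ee q s 1 - ee q s 0) ∂mu := by
    apply setIntegral_congr_fun (measurableSet_cyl _ _)
    intro x hx
    simp only
    rw [D_ee q s 0 x hx]
    unfold D
    simp [walsh_zero]
  rw [h2, setIntegral_const, measureReal_def]
  unfold E
  rw [mu_cyl, smul_eq_mul, ENNReal.toReal_pow, ENNReal.toReal_inv]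
  norm_num


lemma one_add_mul_p (α : ℝ) (h0 : 0 < α) : (1+α) * (1/(1+α)) = 1 := by field_simp

/-- lower bound on one set `E_s` -/
lemma lintegral_E (q : ℕ → ℝ) (hq : Antitone q) (hq0 : ∀ n, 0 ≤ q n) (s k : ℕ) (p : ℝ)
    (hp0 : 0 < p) (hp1 : p ≤ 1) (he : 0 < ee q s 0) :
    ENNReal.ofReal ((2⁻¹:ℝ)^(s+2) * (ee q s 0 - ee q s 1) * (ee q s 0) ^ (p-1)) ≤
      ∫⁻ x in E s, ENNReal.ofReal (|D (k+(s+2)) (fun i => Qs q (i+1)) x| ^ p) ∂mu := by
  set F := D (k+(s+2)) (fun i => Qs q (i+1)) with hF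
  have hFm : Measurable F := measurable_D _ _
  have hbd : ∀ x ∈ E s, |F x| ≤ ee q s 0 := fun x hx => D_bound q hq hq0 s k x hx
  have hint : IntegrableOn (fun x => |F x| * (ee q s 0) ^ (p-1)) (E s) mu := by
    apply Integrable.mul_const
    have : IntegrableOn F (E s) mu := by
      rw [hF]; unfold D
      exact integrable_finsetSum _ (fun i _ => (integrableOn_walsh i _).const_mul _)
    exact this.abs
  calc ENNReal.ofReal ((2⁻¹:ℝ)^(s+2) * (ee q s 0 - ee q s 1) * (ee q s 0) ^ (p-1))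
      ≤ ENNReal.ofReal (∫ x in E s, |F x| * (ee q s 0) ^ (p-1) ∂mu) := by
        apply ENNReal.ofReal_le_ofReal
        rw [integral_mul_const]
        apply mul_le_mul_of_nonneg_right _ (Real.rpow_nonneg he.le _)
        have h1 : |∫ x in E s, F x ∂mu| ≤ ∫ x in E s, |F x| ∂mu := abs_integral_le_integral_abs
        rw [hF, integral_E_D q s k, abs_mul, abs_sub_comm] at h1
        rw [abs_of_nonneg (by positivity : (0:ℝ) ≤ (2⁻¹:ℝ)^(s+2)),
          abs_of_nonneg (sub_nonneg.2 (ee_anti q hq s (Nat.zero_le 1)))] at h1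
        exact h1
    _ = ∫⁻ x in E s, ENNReal.ofReal (|F x| * (ee q s 0) ^ (p-1)) ∂mu := by
        rw [ofReal_integral_eq_lintegral_ofReal hint]
        exact Eventually.of_forall fun x => mul_nonneg (abs_nonneg _) (Real.rpow_nonneg he.le _)
    _ ≤ ∫⁻ x in E s, ENNReal.ofReal (|F x| ^ p) ∂mu := by
        apply setLIntegral_mono
        · exact ((hFm.abs).pow_const p).ennreal_ofReal
        · intro x hx
          apply ENNReal.ofReal_le_ofReal
          rcases eq_or_lt_of_le (abs_nonneg (F x)) with h | h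
          · rw [← h, zero_mul, Real.zero_rpow hp0.ne']
          · have e1 : |F x| ^ p = |F x| * |F x| ^ (p-1) := by
              rw [← Real.rpow_one_add' h.le (by linarith)]
              congr 1; ring
            rw [e1]
            apply mul_le_mul_of_nonneg_left _ h.le
            exact Real.rpow_le_rpow_of_nonpos h (hbd x hx) (by linarith)

/-- Conditions on the weights of the Nörlund means. -/
structure GoodWeights (α : ℝ) (q B : ℕ → ℝ) (C c : ℝ) : Prop where
  anti : Antitone q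
  nonneg : ∀ n, 0 ≤ q n
  Cpos : 0 < C
  cpos : 0 < c
  Bpos : ∀ n : ℕ, 0 < B (2^n)
  Ble : ∀ n : ℕ, B (2^n) ≤ C * (2:ℝ) ^ ((n:ℝ) * α)
  Qle : ∀ n : ℕ, Qs q (2^n) ≤ C * (2:ℝ) ^ ((n:ℝ) * α)
  diff : ∀ s m : ℕ, 1 ≤ m → m < 2^(s+1) →
    c * (2:ℝ) ^ (((s:ℝ)+1) * (α-1)) ≤ q m - q (m + 2^(s+1))

lemma ee_zero_le {α : ℝ} {q B : ℕ → ℝ} {C c : ℝ} (h : GoodWeights α q B C c) (s : ℕ) :
    ee q s 0 ≤ C * (2:ℝ) ^ ((s:ℝ) * (1+α)) := by
  have h1 : ee q s 0 ≤ ∑ l ∈ Finset.range (2^s), Qs q (2^s) := by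
    unfold ee
    apply Finset.sum_le_sum
    intro l _
    unfold Qs
    apply Finset.sum_le_sum
    intro i _
    apply h.anti; omega
  rw [Finset.sum_const, Finset.card_range, nsmul_eq_mul] at h1
  refine h1.trans ?_
  calc ((2^s : ℕ):ℝ) * Qs q (2^s) ≤ ((2^s : ℕ):ℝ) * (C * (2:ℝ) ^ ((s:ℝ) * α)) :=
        mul_le_mul_of_nonneg_left (h.Qle s) (by positivity)
    _ = C * (2:ℝ) ^ ((s:ℝ) * (1+α)) := by
        rw [mul_add, mul_one, Real.rpow_add (by norm_num), Real.rpow_natCast]
        push_cast; ring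

lemma ee_diff_ge {α : ℝ} {q B : ℕ → ℝ} {C c : ℝ} (h : GoodWeights α q B C c) (s : ℕ) :
    (2:ℝ)^s * (2:ℝ)^s * (c * (2:ℝ) ^ (((s:ℝ)+1) * (α-1))) ≤ ee q s 0 - ee q s 1 := by
  unfold ee
  rw [← Finset.sum_sub_distrib]
  simp only [← Finset.sum_sub_distrib]
  calc (2:ℝ)^s * (2:ℝ)^s * (c * (2:ℝ) ^ (((s:ℝ)+1) * (α-1)))
      = ∑ l ∈ Finset.range (2^s), ∑ i ∈ Finset.range (2^s), (c * (2:ℝ) ^ (((s:ℝ)+1) * (α-1))) := by
        simp only [Finset.sum_const, Finset.card_range, nsmul_eq_mul]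
        push_cast; ring
    _ ≤ _ := by
        apply Finset.sum_le_sum
        intro l hl
        apply Finset.sum_le_sum
        intro i hi
        simp only [Finset.mem_range] at hl hi
        have := h.diff s (l+1+i) (by omega) (by rw [pow_succ]; omega)
        rw [mul_zero, mul_one, zero_add,
          show 2^(s+1) + l + 1 + i = l + 1 + i + 2^(s+1) by ring]
        exact this

/-- the constant -/
noncomputable def cst (α C c : ℝ) : ℝ :=
  (2⁻¹:ℝ)^2 * (c * (2:ℝ)^(α-1)) * C ^ (1/(1+α) - 1)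

lemma cst_pos {α C c : ℝ} (hC : 0 < C) (hc : 0 < c) : 0 < cst α C c := by
  unfold cst; positivity

lemma E_lower {α : ℝ} {q B : ℕ → ℝ} {C c : ℝ} (h : GoodWeights α q B C c) (h0 : 0 < α)
    (s k : ℕ) :
    ENNReal.ofReal (cst α C c) ≤
      ∫⁻ x in E s, ENNReal.ofReal (|D (k+(s+2)) (fun i => Qs q (i+1)) x| ^ (1/(1+α))) ∂mu := by
  have hp0 : 0 < 1/(1+α) := by positivity
  have hp1 : 1/(1+α) ≤ 1 := by rw [div_le_one (by positivity)]; linarith
  have hd := ee_diff_ge h s
  have hdpos : 0 < (2:ℝ)^s * (2:ℝ)^s * (c * (2:ℝ) ^ (((s:ℝ)+1) * (α-1))) := by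
    have := h.cpos; positivity
  have he : 0 < ee q s 0 := by
    have := ee_nonneg q h.nonneg s 1
    linarith
  refine le_trans ?_ (lintegral_E q h.anti h.nonneg s k (1/(1+α)) hp0 hp1 he)
  apply ENNReal.ofReal_le_ofReal
  have hC := h.Cpos
  have h2 : (C * (2:ℝ) ^ ((s:ℝ) * (1+α))) ^ (1/(1+α) - 1) ≤ (ee q s 0) ^ (1/(1+α) - 1) :=
    Real.rpow_le_rpow_of_nonpos he (ee_zero_le h s) (by linarith)
  have h3 : (C * (2:ℝ) ^ ((s:ℝ) * (1+α))) ^ (1/(1+α) - 1) =
      C ^ (1/(1+α) - 1) * (2:ℝ) ^ (-((s:ℝ) * α)) := by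
    rw [Real.mul_rpow hC.le (by positivity), ← Real.rpow_mul (by norm_num)]
    congr 2
    field_simp
    ring
  have e1 : (2:ℝ) ^ (((s:ℝ)+1) * (α-1)) = (2:ℝ)^((s:ℝ) * α) * ((2:ℝ)^s)⁻¹ * (2:ℝ)^(α-1) := by
    rw [← Real.rpow_natCast 2 s, ← Real.rpow_neg (by norm_num), ← Real.rpow_add (by norm_num),
      ← Real.rpow_add (by norm_num)]
    congr 1; ring
  have e2 : (2:ℝ) ^ (-((s:ℝ) * α)) = ((2:ℝ)^((s:ℝ) * α))⁻¹ := Real.rpow_neg (by norm_num) _
  calc cst α C c = (2⁻¹:ℝ)^(s+2) * ((2:ℝ)^s * (2:ℝ)^s * (c * (2:ℝ) ^ (((s:ℝ)+1) * (α-1)))) *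
        (C ^ (1/(1+α) - 1) * (2:ℝ) ^ (-((s:ℝ) * α))) := by
        rw [e1, e2]
        unfold cst
        have a1 : (2:ℝ)^s ≠ 0 := by positivity
        have a2 : (2:ℝ)^((s:ℝ) * α) ≠ 0 := by positivity
        have a3 : (2⁻¹:ℝ)^(s+2) = ((2:ℝ)^s)⁻¹ * (2⁻¹:ℝ)^2 := by
          rw [pow_add, inv_pow]
        rw [a3]
        field_simp
    _ ≤ _ := by
        rw [← h3]
        apply mul_le_mul _ h2 (by positivity)
        · apply mul_nonneg (by positivity)
          linarith
        · exact mul_le_mul_of_nonneg_left hd (by positivity)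

/-- The growth of the `L_p` norms, `p = 1/(1+α)`. -/
theorem norl_growth {α : ℝ} {q B : ℕ → ℝ} {C c : ℝ} (h : GoodWeights α q B C c) (h0 : 0 < α)
    (k : ℕ) :
    ENNReal.ofReal ((C * (2:ℝ)^α) ^ (-(1/(1+α))) * cst α C c) * ((k+1 : ℕ) : ℝ≥0∞) ≤
      ∫⁻ x, ‖norl q B (2^(k+2+1)) (atom (k+2) ((2:ℝ) ^ (((k+2 : ℕ):ℝ) * (1+α)))) x‖ₑ ^ (1/(1+α))
        ∂mu := by
  have hp0 : 0 < 1/(1+α) := by positivity
  have hC := h.Cpos
  set N := 2^(k+2+1) with hN
  set cc := (2:ℝ) ^ (((k+2 : ℕ):ℝ) * (1+α)) with hcc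
  set F := D (k+2) (fun i => Qs q (i+1)) with hF
  set R := |(B N)⁻¹ * (cc * (2⁻¹:ℝ)^(k+2))| with hR
  have hRge : (C * (2:ℝ)^α)⁻¹ ≤ R := by
    have h1 := h.Bpos (k+2+1)
    have h2 := h.Ble (k+2+1)
    rw [hR, abs_of_pos (by positivity)]
    have e3 : cc * (2⁻¹:ℝ)^(k+2) = (2:ℝ)^(((k+2 : ℕ):ℝ) * α) := by
      rw [hcc, mul_add, mul_one, Real.rpow_add (by norm_num), Real.rpow_natCast, inv_pow]
      field_simp
    rw [e3]
    have e4 : (2:ℝ) ^ (((k+2+1 : ℕ):ℝ) * α) = (2:ℝ)^(((k+2 : ℕ):ℝ) * α) * (2:ℝ)^α := by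
      rw [← Real.rpow_add (by norm_num)]
      congr 1; push_cast; ring
    rw [e4] at h2
    have h3 : (C * ((2:ℝ)^(((k+2 : ℕ):ℝ) * α) * (2:ℝ)^α))⁻¹ ≤ (B N)⁻¹ := inv_anti₀ h1 h2
    calc (C * (2:ℝ)^α)⁻¹ = (C * ((2:ℝ)^(((k+2 : ℕ):ℝ) * α) * (2:ℝ)^α))⁻¹ *
          (2:ℝ)^(((k+2 : ℕ):ℝ) * α) := by
          have : (2:ℝ)^(((k+2 : ℕ):ℝ) * α) ≠ 0 := by positivity
          field_simp
      _ ≤ _ := mul_le_mul_of_nonneg_right h3 (by positivity)
  have hRpos : 0 < R := lt_of_lt_of_le (by positivity) hRge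
  have e5 : ∀ x, ‖norl q B N (atom (k+2) cc) x‖ₑ ^ (1/(1+α)) =
      ENNReal.ofReal (R ^ (1/(1+α))) * ENNReal.ofReal (|F x| ^ (1/(1+α))) := by
    intro x
    rw [Real.enorm_eq_ofReal_abs, norl_atom_abs, ENNReal.ofReal_rpow_of_nonneg (by positivity) hp0.le,
      Real.mul_rpow (abs_nonneg _) (abs_nonneg _), ENNReal.ofReal_mul (by positivity)]
  have hFm : Measurable (fun x => ENNReal.ofReal (|F x| ^ (1/(1+α)))) :=
    (((measurable_D _ _).abs).pow_const _).ennreal_ofReal
  simp only [e5]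
  rw [lintegral_const_mul _ hFm, ENNReal.ofReal_mul (by positivity), mul_assoc]
  apply mul_le_mul'
  · apply ENNReal.ofReal_le_ofReal
    rw [Real.rpow_neg (by positivity), ← Real.inv_rpow (by positivity)]
    exact Real.rpow_le_rpow (by positivity) hRge hp0.le
  · calc ENNReal.ofReal (cst α C c) * ((k+1 : ℕ) : ℝ≥0∞)
        = ∑ s ∈ Finset.range (k+1), ENNReal.ofReal (cst α C c) := by
          rw [Finset.sum_const, Finset.card_range, nsmul_eq_mul, mul_comm]
      _ ≤ ∑ s ∈ Finset.range (k+1), ∫⁻ x in E s, ENNReal.ofReal (|F x| ^ (1/(1+α))) ∂mu := by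
          apply Finset.sum_le_sum
          intro s hs
          simp only [Finset.mem_range] at hs
          have := E_lower h h0 s (k-s)
          rw [show k - s + (s+2) = k+2 by omega] at this
          exact this
      _ = ∫⁻ x in ⋃ s ∈ Finset.range (k+1), E s, ENNReal.ofReal (|F x| ^ (1/(1+α))) ∂mu := by
          rw [lintegral_biUnion_finset]
          · intro s _ t _ hst
            rcases lt_or_gt_of_ne hst with h1 | h1
            · exact E_disjoint s t h1
            · exact (E_disjoint t s h1).symm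
          · intro s _; exact measurableSet_cyl _ _
      _ ≤ _ := setLIntegral_le_lintegral _ _

/-- Unboundedness -/
theorem norl_unbounded {α : ℝ} {q B : ℕ → ℝ} {C c : ℝ} (h : GoodWeights α q B C c) (h0 : 0 < α) :
    ∃ δ : ℝ, 0 < δ ∧ ∀ n : ℕ, 3 ≤ n → ∃ f : ℕ → G → ℝ, Martingale f dyadic mu ∧
      hpNorm (1/(1+α)) f = 1 ∧
      ENNReal.ofReal (δ * (n:ℝ) ^ (1+α)) ≤ lpNorm (1/(1+α)) (norl q B (2^n) f) := by
  have hC := h.Cpos
  have hc := h.cpos
  have hp0 : 0 < 1/(1+α) := by positivity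
  set d := (C * (2:ℝ)^α) ^ (-(1/(1+α))) * cst α C c with hd
  have hdpos : 0 < d := by
    have := cst_pos (α := α) hC hc
    positivity
  refine ⟨(d/3) ^ (1+α), by positivity, fun n hn => ?_⟩
  obtain ⟨k, rfl⟩ := Nat.exists_eq_add_of_le hn
  refine ⟨atom (k+2) ((2:ℝ) ^ (((k+2 : ℕ):ℝ) * (1+α))), atom_martingale _ _,
    hpNorm_atom (k+2) α h0, ?_⟩
  have h1 := norl_growth h h0 k
  rw [← hd] at h1
  unfold lpNorm
  rw [show 3 + k = k+2+1 by ring]
  have h2 : ENNReal.ofReal ((d/3) * ((k+2+1 : ℕ) : ℝ)) ≤ ENNReal.ofReal d * ((k+1 : ℕ) : ℝ≥0∞) := by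
    rw [← ENNReal.ofReal_natCast (k+1), ← ENNReal.ofReal_mul hdpos.le]
    apply ENNReal.ofReal_le_ofReal
    push_cast
    nlinarith [hdpos, (Nat.cast_nonneg k : (0:ℝ) ≤ k)]
  have h3 := ENNReal.rpow_le_rpow (h2.trans h1) (show 0 ≤ 1/(1/(1+α)) by positivity)
  refine le_trans ?_ h3
  rw [ENNReal.ofReal_rpow_of_nonneg (by positivity) (by positivity)]
  apply ENNReal.ofReal_le_ofReal
  rw [one_div_one_div, Real.mul_rpow (by positivity) (by positivity)]

/-- Negative answer in the form of the problem. -/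
theorem norl_negative {α : ℝ} {q B : ℕ → ℝ} {C c : ℝ} (h : GoodWeights α q B C c) (h0 : 0 < α)
    (K : NNReal) : ∃ (f : ℕ → G → ℝ) (n : ℕ), Martingale f dyadic mu ∧
      hpNorm (1/(1+α)) f < ∞ ∧ (K : ℝ≥0∞) * hpNorm (1/(1+α)) f <
        lpNorm (1/(1+α)) (norl q B (2^n) f) := by
  obtain ⟨δ, hδ, H⟩ := norl_unbounded h h0
  have ht : Tendsto (fun n : ℕ => δ * (n:ℝ) ^ (1+α)) atTop atTop :=
    (((tendsto_rpow_atTop (by linarith : 0 < 1+α)).comp tendsto_natCast_atTop_atTop)).const_mul_atTop hδ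
  obtain ⟨n, hn, hn3⟩ := ((ht.eventually_gt_atTop (K:ℝ)).and (eventually_ge_atTop 3)).exists
  obtain ⟨f, hf, hf1, hf2⟩ := H n hn3
  refine ⟨f, n, hf, by rw [hf1]; norm_num, ?_⟩
  rw [hf1, mul_one]
  refine lt_of_lt_of_le ?_ hf2
  rw [← ENNReal.ofReal_coe_nnreal]
  exact (ENNReal.ofReal_lt_ofReal_iff (lt_of_le_of_lt K.2 hn)).2 hn

end Pool.Agent.V1193.Walsh
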