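import Pool.Agent.V1193.WalshKer

/-! Harmonic numbers and the coefficients of the logarithmic kernels. -/

open MeasureTheory ProbabilityTheory Filter Topology
open scoped ENNReal

namespace Pool.Agent.V1193.Walsh

/-- `l_n = ∑_{k=1}^n 1/k` -/
noncomputable def hn (n : ℕ) : ℝ := ∑ j ∈ Finset.range n, 1 / ((j:ℝ)+1)

lemma hn_zero : hn 0 = 0 := by simp [hn]

lemma hn_succ (n : ℕ) : hn (n+1) = hn n + 1 / ((n:ℝ)+1) := by
  unfold hn; rw [Finset.sum_range_succ]

lemma hn_one : hn 1 = 1 := by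
  have := hn_succ 0
  rw [zero_add, hn_zero] at this
  rw [this]; norm_num

lemma hn_add (u h : ℕ) : hn (u+h) - hn u = ∑ t ∈ Finset.range h, 1 / ((u:ℝ)+t+1) := by
  unfold hn
  rw [Finset.sum_range_add, add_sub_cancel_left]
  apply Finset.sum_congr rfl
  intro t _
  push_cast; rfl

lemma hn_mono : Monotone hn := by
  apply monotone_nat_of_le_succ
  intro n
  rw [hn_succ]
  have : 0 < 1 / ((n:ℝ)+1) := by positivity
  linarith

lemma hn_nonneg (n : ℕ) : 0 ≤ hn n := by
  rw [← hn_zero]; exact hn_mono (Nat.zero_le n)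

lemma hn_pos {n : ℕ} (h : 0 < n) : 0 < hn n := by
  have h1 : hn 1 ≤ hn n := hn_mono h
  have h2 : hn 1 = 1 := by
    have := hn_succ 0
    rw [zero_add, hn_zero] at this
    rw [this]; norm_num
  linarith

lemma hn_add_le (u h : ℕ) : hn (u+h) - hn u ≤ h / ((u:ℝ)+1) := by
  rw [hn_add]
  calc ∑ t ∈ Finset.range h, 1 / ((u:ℝ)+t+1) ≤ ∑ t ∈ Finset.range h, 1 / ((u:ℝ)+1) := by
        apply Finset.sum_le_sum
        intro t _
        apply one_div_le_one_div_of_le (by positivity)
        have : (0:ℝ) ≤ t := Nat.cast_nonneg t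
        linarith
    _ = h / ((u:ℝ)+1) := by
        rw [Finset.sum_const, Finset.card_range, nsmul_eq_mul]; ring

lemma hn_diff_anti (u h V : ℕ) : hn (V+u+h) - hn (V+u) ≤ hn (u+h) - hn u := by
  rw [hn_add, hn_add]
  apply Finset.sum_le_sum
  intro t _
  apply one_div_le_one_div_of_le (by positivity)
  push_cast
  have : (0:ℝ) ≤ V := Nat.cast_nonneg V
  linarith

lemma hn_two_pow_le (s : ℕ) : hn (2^s) ≤ s + 1 := by
  induction s with
  | zero => rw [pow_zero, hn_one]; norm_num
  | succ s ih =>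
    have h1 := hn_add_le (2^s) (2^s)
    rw [pow_succ, Nat.mul_two]
    push_cast at h1 ⊢
    have h2 : (2:ℝ)^s / ((2:ℝ)^s+1) ≤ 1 := by
      rw [div_le_one (by positivity)]; linarith
    linarith

lemma hn_two_pow_ge (s : ℕ) : (s:ℝ)/2 + 1 ≤ hn (2^s) := by
  induction s with
  | zero => rw [pow_zero, hn_one]; norm_num
  | succ s ih =>
    rw [pow_succ, Nat.mul_two]
    have h1 : (1:ℝ)/2 ≤ hn (2^s+2^s) - hn (2^s) := by
      rw [hn_add]
      calc (1:ℝ)/2 = ∑ t ∈ Finset.range (2^s), 1 / ((2:ℝ)^s+(2:ℝ)^s) := by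
            rw [Finset.sum_const, Finset.card_range, nsmul_eq_mul]
            push_cast
            have : (2:ℝ)^s ≠ 0 := by positivity
            field_simp
            ring
        _ ≤ _ := by
            apply Finset.sum_le_sum
            intro t ht
            simp only [Finset.mem_range] at ht
            apply one_div_le_one_div_of_le (by positivity)
            push_cast
            have : ((t+1 : ℕ):ℝ) ≤ ((2^s : ℕ):ℝ) := by exact_mod_cast ht
            push_cast at this
            linarith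
    push_cast
    linarith

lemma sumA (V : ℕ) : ∑ v ∈ Finset.range V, (hn V - hn v) = V := by
  induction V with
  | zero => simp
  | succ V ih =>
    rw [Finset.sum_range_succ]
    have e : ∑ v ∈ Finset.range V, (hn (V+1) - hn v) =
        ∑ v ∈ Finset.range V, (hn V - hn v) + V * (1 / ((V:ℝ)+1)) := by
      have e2 : (V:ℝ) * (1 / ((V:ℝ)+1)) = ∑ v ∈ Finset.range V, (1 / ((V:ℝ)+1)) := by
        rw [Finset.sum_const, Finset.card_range, nsmul_eq_mul]
      rw [e2, ← Finset.sum_add_distrib]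
      apply Finset.sum_congr rfl
      intro v _
      rw [hn_succ]; ring
    rw [e, ih, hn_succ]
    push_cast
    field_simp
    ring

lemma hn_sub_le (u h : ℕ) : hn u - hn (u-h) ≤ hn h := by
  rcases le_total h u with h1 | h1
  · obtain ⟨w, rfl⟩ := Nat.exists_eq_add_of_le h1
    have := hn_diff_anti 0 h w
    rw [Nat.add_sub_cancel_left]
    simp only [add_zero, zero_add, hn_zero, sub_zero] at this
    rw [add_comm]; exact this
  · rw [Nat.sub_eq_zero_of_le h1, hn_zero, sub_zero]
    exact hn_mono h1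

/-- coefficients of the logarithmic kernel -/
noncomputable def lc (R i : ℕ) : ℝ := hn (R - 1 - i)

lemma bet_lc_nonneg (s R b : ℕ) : 0 ≤ bet s (lc R) b := by
  rw [bet_eq]
  apply Finset.sum_nonneg
  intro l _
  unfold lc
  have e0 : R - 1 - (2^(s+1)*b + 2^s + l) ≤ R - 1 - (2^(s+1)*b + l) := by
    generalize 2^(s+1)*b = q
    generalize 2^s = r
    omega
  have := hn_mono e0
  linarith

lemma bet_lc_le (s R b : ℕ) : bet s (lc R) b ≤ (s+1) * 2^s := by
  rw [bet_eq]
  calc ∑ l ∈ Finset.range (2^s), (lc R (2^(s+1)*b + l) - lc R (2^(s+1)*b + 2^s + l))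
      ≤ ∑ l ∈ Finset.range (2^s), ((s:ℝ)+1) := by
        apply Finset.sum_le_sum
        intro l _
        unfold lc
        have h1 := hn_sub_le (R - 1 - (2^(s+1)*b + l)) (2^s)
        have e0 : R - 1 - (2^(s+1)*b + l) - 2^s = R - 1 - (2^(s+1)*b + 2^s + l) := by
          generalize 2^(s+1)*b = q
          generalize 2^s = r
          omega
        rw [e0] at h1
        exact h1.trans (hn_two_pow_le s)
    _ = _ := by
        rw [Finset.sum_const, Finset.card_range, nsmul_eq_mul]; push_cast; ring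

lemma bet_lc_zero (s R b : ℕ) (h : R ≤ 2^(s+1)*b) : bet s (lc R) b = 0 := by
  rw [bet_eq]
  apply Finset.sum_eq_zero
  intro l _
  unfold lc
  have e1 : R - 1 - (2^(s+1)*b + l) = 0 := by omega
  have e2 : R - 1 - (2^(s+1)*b + 2^s + l) = 0 := by
    generalize 2^s = r
    omega
  rw [e1, e2]
  ring

/-- form of the coefficient when the whole block is below `R` -/
lemma bet_lc_form (s V b : ℕ) :
    bet s (lc (V + 2^(s+1)*(b+1))) b =
      ∑ v ∈ Finset.range (2^s), (hn (V + v + 2^s) - hn (V + v)) := by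
  rw [bet_eq, ← Finset.sum_range_reflect]
  apply Finset.sum_congr rfl
  intro v hv
  simp only [Finset.mem_range] at hv
  unfold lc
  have e0 : 2^(s+1) = 2^s + 2^s := by rw [pow_succ]; ring
  have e1 : V + 2^(s+1)*(b+1) - 1 - (2^(s+1)*b + (2^s - 1 - v)) = V + v + 2^s := by
    rw [mul_add, mul_one]
    generalize 2^(s+1)*b = q
    omega
  have e2 : V + 2^(s+1)*(b+1) - 1 - (2^(s+1)*b + 2^s + (2^s - 1 - v)) = V + v := by
    rw [mul_add, mul_one]
    generalize 2^(s+1)*b = q
    omega
  rw [e1, e2]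

lemma bet_lc_decay (s R b j : ℕ) (hj : 1 ≤ j) (h : 2^(s+1)*(b+j) ≤ R) :
    bet s (lc R) b ≤ 2^(s+1) / j := by
  obtain ⟨j', rfl⟩ := Nat.exists_eq_add_of_le' hj
  have h' : 2^(s+1)*(b+1) + 2^(s+1)*j' ≤ R := by
    calc 2^(s+1)*(b+1) + 2^(s+1)*j' = 2^(s+1)*(b+(j'+1)) := by ring
      _ ≤ R := h
  obtain ⟨V, hV⟩ : ∃ V, R = V + 2^(s+1)*(b+1) := ⟨R - 2^(s+1)*(b+1), by omega⟩
  subst hV
  have hVj : 2^(s+1)*j' ≤ V := by omega
  rw [bet_lc_form]
  rcases Nat.eq_zero_or_pos j' with hz | hz
  · subst hz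
    have hb : ∀ v ∈ Finset.range (2^s), hn (V + v + 2^s) - hn (V + v) ≤
        1 + (hn (2^s) - hn v) := by
      intro v hv
      simp only [Finset.mem_range] at hv
      have h1 := hn_diff_anti v (2^s) V
      have h2 := hn_add_le (2^s) v
      have h3 : (v:ℝ) / (((2^s : ℕ):ℝ)+1) ≤ 1 := by
        rw [div_le_one (by positivity)]
        have : ((v : ℕ):ℝ) ≤ ((2^s : ℕ):ℝ) := by exact_mod_cast hv.le
        linarith
      rw [add_comm (2^s) v] at h2
      linarith
    calc ∑ v ∈ Finset.range (2^s), (hn (V + v + 2^s) - hn (V + v))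
        ≤ ∑ v ∈ Finset.range (2^s), (1 + (hn (2^s) - hn v)) := Finset.sum_le_sum hb
      _ = 2^(s+1) / ((0+1 : ℕ):ℝ) := by
          rw [Finset.sum_add_distrib, sumA, Finset.sum_const, Finset.card_range, nsmul_eq_mul,
            pow_succ]
          push_cast; ring
  · have hb : ∀ v ∈ Finset.range (2^s), hn (V + v + 2^s) - hn (V + v) ≤ 1 / ((j'+1 : ℕ):ℝ) := by
      intro v _
      have h1 := hn_add_le (V+v) (2^s)
      refine h1.trans ?_
      have hV' : (2:ℝ)^(s+1) * j' ≤ V := by exact_mod_cast hVj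
      have hj' : (1:ℝ) ≤ j' := by exact_mod_cast hz
      push_cast
      rw [div_le_div_iff₀ (by positivity) (by positivity)]
      have e : (2:ℝ)^(s+1) = 2 * 2^s := by rw [pow_succ]; ring
      rw [e] at hV'
      have hp : (0:ℝ) < 2^s := by positivity
      have hv : (0:ℝ) ≤ v := Nat.cast_nonneg v
      nlinarith
    calc ∑ v ∈ Finset.range (2^s), (hn (V + v + 2^s) - hn (V + v))
        ≤ ∑ v ∈ Finset.range (2^s), 1 / ((j'+1 : ℕ):ℝ) := Finset.sum_le_sum hb
      _ = 2^s / ((j'+1 : ℕ):ℝ) := by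
          rw [Finset.sum_const, Finset.card_range, nsmul_eq_mul]; push_cast; ring
      _ ≤ _ := by
          apply div_le_div_of_nonneg_right _ (by positivity)
          rw [pow_succ]
          have hp : (0:ℝ) < 2^s := by positivity
          linarith

lemma sum_inv_sq (J : ℕ) : ∑ j ∈ Finset.range J, 1 / ((j:ℝ)+1)^2 ≤ 2 := by
  rcases Nat.eq_zero_or_pos J with h | h
  · subst h; simp
  have key : ∀ J : ℕ, ∑ j ∈ Finset.range (J+1), 1 / ((j:ℝ)+1)^2 ≤ 2 - 1/((J:ℝ)+1) := by
    intro J
    induction J with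
    | zero => simp; norm_num
    | succ J ih =>
      rw [Finset.sum_range_succ]
      have : 1 / (((J+1 : ℕ):ℝ)+1)^2 ≤ 1/((J:ℝ)+1) - 1/(((J+1 : ℕ):ℝ)+1) := by
        push_cast
        rw [div_sub_div _ _ (by positivity) (by positivity), div_le_div_iff₀ (by positivity)
          (by positivity)]
        have : (0:ℝ) ≤ J := Nat.cast_nonneg J
        nlinarith
      linarith
  obtain ⟨J', rfl⟩ := Nat.exists_eq_add_of_le' h
  have := key J'
  have h2 : 0 < 1/((J':ℝ)+1) := by positivity
  linarith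

/-- `ℓ₂` bound of the coefficients below the top block -/
lemma sum_bet_lower (s R b0 : ℕ) (h : 2^(s+1)*b0 ≤ R) :
    ∑ b ∈ Finset.range b0, (bet s (lc R) b)^2 ≤ 8 * 4^s := by
  calc ∑ b ∈ Finset.range b0, (bet s (lc R) b)^2
      ≤ ∑ b ∈ Finset.range b0, (4 * 4^s) * (1 / (((b0 - 1 - b : ℕ):ℝ)+1)^2) := by
        apply Finset.sum_le_sum
        intro b hb
        simp only [Finset.mem_range] at hb
        have h1 := bet_lc_decay s R b (b0 - b) (by omega)
          (by rw [show b + (b0 - b) = b0 by omega]; exact h)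
        have h2 := bet_lc_nonneg s R b
        have e1 : (((b0 - b : ℕ)):ℝ) = ((b0 - 1 - b : ℕ):ℝ) + 1 := by
          rw [show b0 - b = (b0 - 1 - b) + 1 by omega]; push_cast; ring
        rw [e1] at h1
        calc (bet s (lc R) b)^2 ≤ (2^(s+1) / (((b0 - 1 - b : ℕ):ℝ) + 1))^2 :=
              pow_le_pow_left₀ h2 h1 2
          _ = (4 * 4^s) * (1 / (((b0 - 1 - b : ℕ):ℝ)+1)^2) := by
              rw [div_pow, ← pow_mul, mul_comm (s+1) 2, pow_mul]
              norm_num
              rw [pow_succ]; ring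
    _ = (4 * 4^s) * ∑ b ∈ Finset.range b0, (1 / (((b0 - 1 - b : ℕ):ℝ)+1)^2) := by
        rw [Finset.mul_sum]
    _ = (4 * 4^s) * ∑ j ∈ Finset.range b0, (1 / ((j:ℝ)+1)^2) := by
        rw [Finset.sum_range_reflect (fun j => 1 / ((j:ℝ)+1)^2) b0]
    _ ≤ (4 * 4^s) * 2 := mul_le_mul_of_nonneg_left (sum_inv_sq b0) (by positivity)
    _ = _ := by ring

/-- `ℓ₂` bound of all the coefficients -/
lemma sum_bet_all (s R B : ℕ) :
    ∑ b ∈ Finset.range B, (bet s (lc R) b)^2 ≤ 9 * ((s+1)^2 * 4^s) := by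
  set b0 := R / 2^(s+1) with hb0
  have hle : 2^(s+1)*b0 ≤ R := Nat.mul_div_le R _
  have hlt : R < 2^(s+1)*(b0+1) := by
    have := Nat.lt_mul_div_succ R (show 0 < 2^(s+1) by positivity)
    exact this
  calc ∑ b ∈ Finset.range B, (bet s (lc R) b)^2
      ≤ ∑ b ∈ Finset.range (b0+1+B), (bet s (lc R) b)^2 := by
        apply Finset.sum_le_sum_of_subset_of_nonneg
        · intro i hi
          have hi' := Finset.mem_range.1 hi
          apply Finset.mem_range.2
          clear hle hlt hb0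
          clear_value b0
          omega
        · intro _ _ _; exact sq_nonneg _
    _ = ∑ b ∈ Finset.range b0, (bet s (lc R) b)^2 + (bet s (lc R) b0)^2 := by
        rw [Finset.sum_range_add, Finset.sum_range_succ]
        have : ∑ x ∈ Finset.range B, (bet s (lc R) (b0+1+x))^2 = 0 := by
          apply Finset.sum_eq_zero
          intro x _
          rw [bet_lc_zero]
          · norm_num
          · refine hlt.le.trans ?_
            apply Nat.mul_le_mul_left; omega
        rw [this, add_zero]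
    _ ≤ 8 * 4^s + ((s+1) * 2^s)^2 := by
        apply add_le_add (sum_bet_lower s R b0 hle)
        exact pow_le_pow_left₀ (bet_lc_nonneg _ _ _) (bet_lc_le _ _ _) 2
    _ ≤ _ := by
        have e : ((2:ℝ)^s)^2 = 4^s := by rw [← pow_mul, mul_comm s 2, pow_mul]; norm_num
        rw [mul_pow, e]
        have h1 : (1:ℝ) ≤ ((s:ℝ)+1)^2 := by
          have : (0:ℝ) ≤ s := Nat.cast_nonneg s
          nlinarith
        have h2 : (0:ℝ) < 4^s := by positivity
        nlinarith

/-- decay when the block is far below `R` -/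
lemma sum_bet_far (s k j R : ℕ) (h : 2^(s+1)*(2^k + 2^j) ≤ R) :
    ∑ b ∈ Finset.range (2^k), (bet s (lc R) b)^2 ≤ 2^k * (2^(s+1) / 2^j)^2 := by
  calc ∑ b ∈ Finset.range (2^k), (bet s (lc R) b)^2
      ≤ ∑ b ∈ Finset.range (2^k), ((2:ℝ)^(s+1) / 2^j)^2 := by
        apply Finset.sum_le_sum
        intro b hb
        simp only [Finset.mem_range] at hb
        have h1 := bet_lc_decay s R b (2^j) Nat.one_le_two_pow
          (le_trans (Nat.mul_le_mul_left _ (by omega)) h)
        push_cast at h1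
        exact pow_le_pow_left₀ (bet_lc_nonneg _ _ _) h1 2
    _ = _ := by
        rw [Finset.sum_const, Finset.card_range, nsmul_eq_mul]; push_cast; ring

end Pool.Agent.V1193.Walsh
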