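import Pool.Agent.V1193.WalshStr

/-! Kernel estimates: operators given by kernels, decomposition of `G`, `L₂` norms on the pieces. -/

open MeasureTheory ProbabilityTheory Filter Topology
open scoped ENNReal

namespace Pool.Agent.V1193.Walsh

/-! ### reverse Hölder for functions of finitely many coordinates -/

lemma rev_holder {m : ℕ} {F : G → ℝ≥0∞} (hF : Dep m F) (p : ℝ) (hp0 : 0 < p) (hp1 : p ≤ 1) :
    (∫⁻ y, F y ∂mu) ^ p ≤ ((2:ℝ≥0∞)^m) ^ (1-p) * ∫⁻ y, (F y) ^ p ∂mu := by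
  have hmeas := hF.measurable
  set J := ∫⁻ y, (F y) ^ p ∂mu with hJ
  -- pointwise bound
  have h1 : ∀ y, (F y) ^ p ≤ (2:ℝ≥0∞)^m * J := by
    intro y
    have h2 : (2⁻¹:ℝ≥0∞)^m * (F y)^p ≤ J := by
      rw [← Dep.setLIntegral (hF.comp (fun a => a ^ p)) y]
      exact setLIntegral_le_lintegral _ _
    calc (F y)^p = (2:ℝ≥0∞)^m * ((2⁻¹:ℝ≥0∞)^m * (F y)^p) := by
          rw [← mul_assoc, ← mul_pow, ENNReal.mul_inv_cancel (by norm_num) (by norm_num), one_pow,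
            one_mul]
      _ ≤ _ := by gcongr
  have h3 : ∀ y, F y ≤ (F y)^p * ((2:ℝ≥0∞)^m * J) ^ ((1-p)/p) := by
    intro y
    have e1 : (F y) ^ (1-p) ≤ ((2:ℝ≥0∞)^m * J) ^ ((1-p)/p) := by
      calc (F y) ^ (1-p) = ((F y)^p) ^ ((1-p)/p) := by
            rw [← ENNReal.rpow_mul]; congr 1; field_simp
        _ ≤ _ := ENNReal.rpow_le_rpow (h1 y) (div_nonneg (by linarith) hp0.le)
    calc F y = (F y)^p * (F y)^(1-p) := by
          rw [← ENNReal.rpow_add_of_nonneg _ _ hp0.le (by linarith)]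
          simp
      _ ≤ _ := by gcongr
  have h4 : ∫⁻ y, F y ∂mu ≤ J * ((2:ℝ≥0∞)^m * J) ^ ((1-p)/p) := by
    calc ∫⁻ y, F y ∂mu ≤ ∫⁻ y, (F y)^p * ((2:ℝ≥0∞)^m * J) ^ ((1-p)/p) ∂mu := lintegral_mono h3
      _ = _ := by rw [lintegral_mul_const _ (hmeas.pow_const p)]
  calc (∫⁻ y, F y ∂mu) ^ p ≤ (J * ((2:ℝ≥0∞)^m * J) ^ ((1-p)/p)) ^ p :=
        ENNReal.rpow_le_rpow h4 hp0.le
    _ = J^p * ((2:ℝ≥0∞)^m * J) ^ (1-p) := by
        rw [ENNReal.mul_rpow_of_nonneg _ _ hp0.le, ← ENNReal.rpow_mul]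
        congr 2; field_simp
    _ = J^p * (((2:ℝ≥0∞)^m) ^ (1-p) * J ^ (1-p)) := by
        rw [ENNReal.mul_rpow_of_nonneg _ _ (by linarith)]
    _ = ((2:ℝ≥0∞)^m) ^ (1-p) * (J^p * J^(1-p)) := by ring
    _ = _ := by
        rw [← ENNReal.rpow_add_of_nonneg _ _ hp0.le (by linarith)]
        simp

/-- the operator with kernel `K` -/
noncomputable def conv (h K : G → ℝ) (x : G) : ℝ := ∫ y, h y * K (gadd x y) ∂mu

lemma conv_bound {m : ℕ} {h K : G → ℝ} (hh : Dep m h) (hK : Dep m K) (p : ℝ) (hp0 : 0 < p)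
    (hp1 : p ≤ 1) :
    ∫⁻ x, ‖conv h K x‖ₑ ^ p ∂mu ≤
      ((2:ℝ≥0∞)^m) ^ (1-p) * ((∫⁻ x, ‖h x‖ₑ ^ p ∂mu) * ∫⁻ x, ‖K x‖ₑ ^ p ∂mu) := by
  have hhm := hh.measurable
  have hKm := hK.measurable
  calc ∫⁻ x, ‖conv h K x‖ₑ ^ p ∂mu
      ≤ ∫⁻ x, (∫⁻ y, ‖h y‖ₑ * ‖K (gadd x y)‖ₑ ∂mu) ^ p ∂mu := by
        apply lintegral_mono
        intro x
        apply ENNReal.rpow_le_rpow _ hp0.le
        refine (enorm_integral_le_lintegral_enorm _).trans (le_of_eq ?_)
        apply lintegral_congr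
        intro y
        rw [enorm_mul]
    _ ≤ ∫⁻ x, ((2:ℝ≥0∞)^m) ^ (1-p) * (∫⁻ y, ‖h y‖ₑ ^ p * ‖K (gadd x y)‖ₑ ^ p ∂mu) ∂mu := by
        apply lintegral_mono
        intro x
        have hd : Dep m (fun y => ‖h y‖ₑ * ‖K (gadd x y)‖ₑ) :=
          (hh.comp (fun a => ‖a‖ₑ)).comp₂ ((hK.gadd_right x).comp (fun a => ‖a‖ₑ)) (fun a b => a * b)
        refine (rev_holder hd p hp0 hp1).trans (le_of_eq ?_)
        congr 1
        apply lintegral_congr
        intro y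
        rw [ENNReal.mul_rpow_of_nonneg _ _ hp0.le]
    _ = ((2:ℝ≥0∞)^m) ^ (1-p) * ∫⁻ x, (∫⁻ y, ‖h y‖ₑ ^ p * ‖K (gadd x y)‖ₑ ^ p ∂mu) ∂mu := by
        rw [lintegral_const_mul]
        apply Measurable.lintegral_prod_right
        apply Measurable.mul
        · exact ((hhm.comp measurable_snd).enorm.pow_const p)
        · exact ((hKm.comp measurable_gadd).enorm.pow_const p)
    _ = ((2:ℝ≥0∞)^m) ^ (1-p) * ∫⁻ y, (∫⁻ x, ‖h y‖ₑ ^ p * ‖K (gadd x y)‖ₑ ^ p ∂mu) ∂mu := by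
        congr 1
        apply lintegral_lintegral_swap
        apply Measurable.aemeasurable
        apply Measurable.mul
        · exact ((hhm.comp measurable_snd).enorm.pow_const p)
        · exact ((hKm.comp measurable_gadd).enorm.pow_const p)
    _ = ((2:ℝ≥0∞)^m) ^ (1-p) * ∫⁻ y, ‖h y‖ₑ ^ p * (∫⁻ x, ‖K x‖ₑ ^ p ∂mu) ∂mu := by
        congr 1
        apply lintegral_congr
        intro y
        rw [lintegral_const_mul]
        · congr 1
          exact lintegral_gadd y (fun x => ‖K x‖ₑ ^ p) (hKm.enorm.pow_const p)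
        · exact ((hKm.comp (measurable_gadd_left y)).enorm.pow_const p)
    _ = _ := by
        rw [lintegral_mul_const _ (hhm.enorm.pow_const p)]

/-! ### the sets `Z_s` -/

/-- first one at place `s` -/
def ptz (s : ℕ) : G := fun j => decide (j = s)

/-- `I_s(0) ∖ I_{s+1}(0)` -/
def Z (s : ℕ) : Set G := cyl (s+1) (ptz s)

lemma mem_Z {s : ℕ} {x : G} : x ∈ Z s ↔ (∀ j < s, x j = false) ∧ x s = true := by
  constructor
  · intro h
    refine ⟨fun j hj => ?_, ?_⟩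
    · rw [h j (by omega)]; unfold ptz; simp; omega
    · rw [h s (by omega)]; unfold ptz; simp
  · rintro ⟨h1, h2⟩ j hj
    unfold ptz
    rcases Nat.lt_succ_iff_lt_or_eq.1 hj with h | h
    · rw [h1 j h]; simp; omega
    · subst h; rw [h2]; simp

lemma measurableSet_Z (s : ℕ) : MeasurableSet (Z s) := measurableSet_cyl _ _

lemma mu_Z (s : ℕ) : mu (Z s) = (2⁻¹:ℝ≥0∞)^(s+1) := mu_cyl _ _

lemma cyl_zero_split (m : ℕ) : cyl m zeroG = Z m ∪ cyl (m+1) zeroG := by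
  ext y
  rw [Set.mem_union, mem_Z]
  constructor
  · intro h
    by_cases hy : y m = true
    · left; exact ⟨h, hy⟩
    · right
      intro j hj
      rcases Nat.lt_succ_iff_lt_or_eq.1 hj with h1 | h1
      · exact h j h1
      · subst h1; simpa [zeroG] using hy
  · rintro (h | h) j hj
    · rw [h.1 j hj]; rfl
    · exact h j (by omega)

lemma cyl_zero_disj (m : ℕ) : Disjoint (Z m) (cyl (m+1) zeroG) := by
  rw [Set.disjoint_left]
  intro y h1 h2
  have e1 := (mem_Z.1 h1).2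
  have e2 := h2 m (Nat.lt_succ_self m)
  rw [e1] at e2
  exact absurd e2 (by simp [zeroG])

lemma lintegral_decomp (F : G → ℝ≥0∞) (m : ℕ) :
    ∫⁻ x, F x ∂mu = ∑ s ∈ Finset.range m, ∫⁻ x in Z s, F x ∂mu + ∫⁻ x in cyl m zeroG, F x ∂mu := by
  induction m with
  | zero =>
    have : cyl 0 zeroG = Set.univ := by ext x; simp [cyl]
    rw [this]; simp
  | succ m ih =>
    rw [ih, Finset.sum_range_succ, cyl_zero_split m,
      lintegral_union (measurableSet_cyl _ _) (cyl_zero_disj m), add_assoc]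

/-- difference of halves -/
def bet (s : ℕ) (a : ℕ → ℝ) (b : ℕ) : ℝ := blk s a (2*b) - blk s a (2*b+1)

lemma bet_eq (s : ℕ) (a : ℕ → ℝ) (b : ℕ) :
    bet s a b = ∑ l ∈ Finset.range (2^s), (a (2^(s+1)*b + l) - a (2^(s+1)*b + 2^s + l)) := by
  unfold bet blk
  rw [← Finset.sum_sub_distrib]
  apply Finset.sum_congr rfl
  intro l _
  congr 2
  · rw [pow_succ]; ring
  · rw [pow_succ]; ring

lemma D_Z (s k : ℕ) (a : ℕ → ℝ) (x : G) (hx : x ∈ Z s) :
    D (k+(s+1)) a x = D k (bet s a) (shiftN (s+1) x) := by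
  obtain ⟨h1, h2⟩ := mem_Z.1 hx
  rw [show k + (s+1) = (k+1)+s by ring, D_blk s (k+1) a x h1, D_succ, shift_shiftN]
  congr 1
  funext b
  have e1 : rad 0 (shiftN s x) = -1 := by
    unfold rad shiftN; rw [zero_add, h2]; simp
  rw [e1]
  unfold bet
  ring

lemma shiftN_flip (t i : ℕ) (x : G) : shiftN t (flip (i+t) x) = flip i (shiftN t x) := by
  funext j
  unfold shiftN flip
  by_cases h : j = i
  · subst h; simp
  · rw [if_neg (by omega), if_neg h]

lemma measurable_shiftN (t : ℕ) : Measurable (shiftN t) := by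
  apply measurable_pi_lambda
  intro j
  exact measurable_pi_apply (j+t)

lemma flip_mem_Z (s i : ℕ) (h : s + 1 ≤ i) (x : G) : flip i x ∈ Z s ↔ x ∈ Z s :=
  flip_mem_cyl (s+1) i h (ptz s) x

lemma integral_Z_orth (s b b' : ℕ) (h : b ≠ b') :
    ∫ x in Z s, walsh b (shiftN (s+1) x) * walsh b' (shiftN (s+1) x) ∂mu = 0 := by
  obtain ⟨i, hi⟩ : ∃ i, b.testBit i ≠ b'.testBit i := by
    by_contra hc
    push Not at hc
    exact h (Nat.eq_of_testBit_eq hc)
  rw [← integral_indicator (measurableSet_Z s)]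
  apply integral_odd (i+(s+1)) _
  · apply Measurable.indicator _ (measurableSet_Z s)
    exact ((measurable_walsh b).comp (measurable_shiftN _)).mul
      ((measurable_walsh b').comp (measurable_shiftN _))
  · intro x
    have hf := flip_mem_Z s (i+(s+1)) (by omega) x
    by_cases hx : x ∈ Z s
    · rw [Set.indicator_of_mem hx, Set.indicator_of_mem (hf.2 hx), shiftN_flip, walsh_flip,
        walsh_flip]
      cases h1 : b.testBit i <;> cases h2 : b'.testBit i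
      · rw [h1, h2] at hi; exact absurd rfl hi
      · simp
      · simp
      · rw [h1, h2] at hi; exact absurd rfl hi
    · rw [Set.indicator_of_notMem hx, Set.indicator_of_notMem (fun h => hx (hf.1 h))]
      ring

lemma walsh_sq (n : ℕ) (x : G) : walsh n x * walsh n x = 1 := by
  rw [← abs_mul_abs_self, abs_walsh]; norm_num

lemma integral_Z_diag (s b : ℕ) :
    ∫ x in Z s, walsh b (shiftN (s+1) x) * walsh b (shiftN (s+1) x) ∂mu = (2⁻¹:ℝ)^(s+1) := by
  simp only [walsh_sq]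
  rw [setIntegral_const, measureReal_def, mu_Z, ENNReal.toReal_pow, ENNReal.toReal_inv]
  simp

lemma integral_Z_sq (s k : ℕ) (β : ℕ → ℝ) :
    ∫ x in Z s, (D k β (shiftN (s+1) x))^2 ∂mu =
      (2⁻¹:ℝ)^(s+1) * ∑ b ∈ Finset.range (2^k), (β b)^2 := by
  have e : ∀ x, (D k β (shiftN (s+1) x))^2 = ∑ b ∈ Finset.range (2^k), ∑ b' ∈ Finset.range (2^k),
      (β b * β b') * (walsh b (shiftN (s+1) x) * walsh b' (shiftN (s+1) x)) := by
    intro x
    unfold D
    rw [sq, Finset.sum_mul_sum]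
    apply Finset.sum_congr rfl; intro b _
    apply Finset.sum_congr rfl; intro b' _
    ring
  have hint : ∀ b b' : ℕ, Integrable (fun x => (β b * β b') *
      (walsh b (shiftN (s+1) x) * walsh b' (shiftN (s+1) x))) (mu.restrict (Z s)) := by
    intro b b'
    apply Integrable.const_mul
    apply Integrable.restrict
    apply integrable_of_bdd _ _ 1
    · intro x; rw [abs_mul, abs_walsh, abs_walsh, one_mul]
    · exact ((measurable_walsh b).comp (measurable_shiftN _)).mul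
        ((measurable_walsh b').comp (measurable_shiftN _))
  simp only [e]
  rw [integral_finsetSum _ (fun b _ => integrable_finsetSum _ (fun b' _ => hint b b')),
    Finset.mul_sum]
  apply Finset.sum_congr rfl
  intro b hb
  rw [integral_finsetSum _ (fun b' _ => hint b b'), Finset.sum_eq_single_of_mem b hb]
  · rw [integral_const_mul, integral_Z_diag]; ring
  · intro b' _ hne
    rw [integral_const_mul, integral_Z_orth s b b' (Ne.symm hne), mul_zero]

/-- `L_p` norm on `Z_s` from the `ℓ₂` norm of the coefficients -/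
lemma Z_bound (s k : ℕ) (a : ℕ → ℝ) (p V : ℝ) (hp0 : 0 < p) (hp2 : p ≤ 2)
    (hV : ∑ b ∈ Finset.range (2^k), (bet s a b)^2 ≤ V) :
    ∫⁻ x in Z s, ‖D (k+(s+1)) a x‖ₑ ^ p ∂mu ≤
      (2⁻¹:ℝ≥0∞)^(s+1) * ENNReal.ofReal (V ^ (p/2)) := by
  have hV0 : 0 ≤ V := le_trans (Finset.sum_nonneg fun _ _ => sq_nonneg _) hV
  set F : G → ℝ := fun x => D k (bet s a) (shiftN (s+1) x) with hF
  have hFm : Measurable F := (measurable_D _ _).comp (measurable_shiftN _)
  have h1 : ∫⁻ x in Z s, ‖D (k+(s+1)) a x‖ₑ ^ p ∂mu = ∫⁻ x in Z s, ‖F x‖ₑ ^ p ∂mu := by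
    apply setLIntegral_congr_fun (measurableSet_Z s)
    intro x hx
    simp only [hF]
    rw [D_Z s k a x hx]
  rw [h1]
  have h2 := eLpNorm'_le_eLpNorm'_mul_rpow_measure_univ (μ := mu.restrict (Z s)) (f := F) hp0 hp2
    hFm.aestronglyMeasurable
  have h3 : ∫⁻ x in Z s, ‖F x‖ₑ ^ (2:ℝ) ∂mu ≤ (2⁻¹:ℝ≥0∞)^(s+1) * ENNReal.ofReal V := by
    have e1 : ∫⁻ x in Z s, ‖F x‖ₑ ^ (2:ℝ) ∂mu = ENNReal.ofReal (∫ x in Z s, (F x)^2 ∂mu) := by
      rw [ofReal_integral_eq_lintegral_ofReal]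
      · apply lintegral_congr
        intro x
        rw [Real.enorm_eq_ofReal_abs, ENNReal.ofReal_rpow_of_nonneg (abs_nonneg _) (by norm_num)]
        congr 1
        rw [show (2:ℝ) = ((2:ℕ):ℝ) by norm_num, Real.rpow_natCast, sq_abs]
      · apply Integrable.restrict
        have hd : ∃ C, ∀ y, |D k (bet s a) y| ≤ C := (dep_D k (bet s a)).bdd
        obtain ⟨C, hC⟩ := hd
        apply integrable_of_bdd _ (hFm.pow_const 2) (C^2)
        intro x
        rw [abs_pow]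
        exact pow_le_pow_left₀ (abs_nonneg _) (hC _) 2
      · exact Eventually.of_forall fun x => sq_nonneg _
    rw [e1, hF, integral_Z_sq, ENNReal.ofReal_mul (by positivity)]
    apply mul_le_mul' _ (ENNReal.ofReal_le_ofReal hV)
    rw [ENNReal.ofReal_pow (by norm_num), ENNReal.ofReal_inv_of_pos (by norm_num)]
    simp
  rw [eLpNorm'_eq_lintegral_enorm, eLpNorm'_eq_lintegral_enorm] at h2
  have h4 := ENNReal.rpow_le_rpow h2 hp0.le
  rw [← ENNReal.rpow_mul, one_div_mul_cancel hp0.ne', ENNReal.rpow_one,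
    ENNReal.mul_rpow_of_nonneg _ _ hp0.le, ← ENNReal.rpow_mul, ← ENNReal.rpow_mul,
    Measure.restrict_apply_univ, mu_Z] at h4
  refine h4.trans ?_
  have e5 : (1/2:ℝ) * p = p/2 := by ring
  have e6 : (1/p - 1/2) * p = 1 - p/2 := by field_simp
  rw [e5, e6]
  calc (∫⁻ x in Z s, ‖F x‖ₑ ^ (2:ℝ) ∂mu) ^ (p/2) * ((2⁻¹:ℝ≥0∞)^(s+1)) ^ (1 - p/2)
      ≤ ((2⁻¹:ℝ≥0∞)^(s+1) * ENNReal.ofReal V) ^ (p/2) * ((2⁻¹:ℝ≥0∞)^(s+1)) ^ (1 - p/2) := by
        gcongr
    _ = ENNReal.ofReal V ^ (p/2) * (((2⁻¹:ℝ≥0∞)^(s+1)) ^ (p/2) * ((2⁻¹:ℝ≥0∞)^(s+1)) ^ (1 - p/2)) := by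
        rw [ENNReal.mul_rpow_of_nonneg _ _ (by positivity)]; ring
    _ = ENNReal.ofReal V ^ (p/2) * (2⁻¹:ℝ≥0∞)^(s+1) := by
        rw [← ENNReal.rpow_add_of_nonneg _ _ (by positivity) (by linarith)]
        simp
    _ = _ := by
        rw [ENNReal.ofReal_rpow_of_nonneg hV0 (by positivity), mul_comm]

end Pool.Agent.V1193.Walsh
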