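import Pool.Agent.V1193.WalshHarm

/-! Nörlund logarithmic means on `H_p`, `0 < p < 1`. -/

open MeasureTheory ProbabilityTheory Filter Topology
open scoped ENNReal

namespace Pool.Agent.V1193.Walsh

/-- Nörlund logarithmic means `L_N f = l_N⁻¹ ∑_{k=0}^{N-1} S_k f / (N-k)`. -/
noncomputable def logMean (N : ℕ) (f : ℕ → G → ℝ) (x : G) : ℝ :=
  (1 / hn N) * ∑ k ∈ Finset.range N, psum f k x / ((N:ℝ) - k)

/-- `L_N f` as a martingale: `(L_N f)^{(m)} = S_{2^m} (L_N f) = l_N⁻¹ ∑_{k<N} S_{min(k,2^m)} f/(N-k)`. -/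
noncomputable def logMart (N : ℕ) (f : ℕ → G → ℝ) (m : ℕ) (x : G) : ℝ :=
  (1 / hn N) * ∑ k ∈ Finset.range N, psum f (min k (2^m)) x / ((N:ℝ) - k)

/-- The modulus of continuity `ω_{H_p}(1/2^n, f)`. -/
noncomputable def modulus (p : ℝ) (f : ℕ → G → ℝ) (n : ℕ) : ℝ≥0∞ :=
  hpNorm p (fun k x => f k x - f (min k n) x)

lemma sum_tail (N M : ℕ) :
    ∑ k ∈ Finset.range N, (if M < k then 1 / ((N:ℝ) - k) else 0) = hn (N-1-M) := by
  rw [← Finset.sum_range_reflect]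
  have e : ∀ j ∈ Finset.range N, (if M < N - 1 - j then 1 / ((N:ℝ) - ((N - 1 - j : ℕ):ℝ)) else 0) =
      if j < N - 1 - M then 1 / ((j:ℝ)+1) else 0 := by
    intro j hj
    have hj' := Finset.mem_range.1 hj
    by_cases h : j < N - 1 - M
    · rw [if_pos h, if_pos (by omega)]
      congr 1
      rw [Nat.cast_sub (by omega), Nat.cast_sub (by omega)]
      push_cast; ring
    · rw [if_neg h, if_neg (by omega)]
  rw [Finset.sum_congr rfl e, ← Finset.sum_filter]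
  unfold hn
  apply Finset.sum_congr _ (fun _ _ => rfl)
  ext j
  simp only [Finset.mem_filter, Finset.mem_range]
  omega

lemma sum_min (c : ℕ → ℝ) (N M : ℕ) :
    ∑ k ∈ Finset.range N, (∑ i ∈ Finset.range (min k M), c i) / ((N:ℝ) - k) =
      ∑ i ∈ Finset.range M, hn (N-1-i) * c i := by
  induction M with
  | zero => simp
  | succ M ih =>
    rw [Finset.sum_range_succ, ← ih, ← sum_tail N M, Finset.sum_mul, ← Finset.sum_add_distrib]
    apply Finset.sum_congr rfl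
    intro k _
    by_cases h : M < k
    · rw [if_pos h, show min k (M+1) = M+1 by omega, show min k M = M by omega,
        Finset.sum_range_succ]
      ring
    · rw [if_neg h, show min k (M+1) = k by omega, show min k M = k by omega]
      ring

lemma logMart_eq (N : ℕ) (f : ℕ → G → ℝ) (m : ℕ) (x : G) :
    logMart N f m x =
      (1 / hn N) * ∑ i ∈ Finset.range (2^m), hn (N-1-i) * (coef f i * walsh i x) := by
  unfold logMart psum
  rw [sum_min]

lemma logMean_eq (N : ℕ) (f : ℕ → G → ℝ) (m : ℕ) (h : N ≤ 2^m) (x : G) :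
    logMean N f x = logMart N f m x := by
  unfold logMean logMart
  congr 1
  apply Finset.sum_congr rfl
  intro k hk
  have := Finset.mem_range.1 hk
  rw [show min k (2^m) = k by omega]

lemma logMart_stab (N : ℕ) (f : ℕ → G → ℝ) (m : ℕ) (h : N ≤ 2^m) (k : ℕ) (hk : m ≤ k) (x : G) :
    logMart N f k x = logMart N f m x := by
  rw [← logMean_eq N f m h, ← logMean_eq N f k (h.trans (Nat.pow_le_pow_right (by norm_num) hk))]

lemma conv_D {m : ℕ} {h : G → ℝ} (hh : Dep m h) (c : ℕ → ℝ) (x : G) :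
    conv h (D m c) x = ∑ i ∈ Finset.range (2^m), c i * ((∫ y, h y * walsh i y ∂mu) * walsh i x) := by
  unfold conv
  have e : ∀ y, h y * D m c (gadd x y) =
      ∑ i ∈ Finset.range (2^m), (c i * walsh i x) * (h y * walsh i y) := by
    intro y
    unfold D
    rw [Finset.mul_sum]
    apply Finset.sum_congr rfl
    intro i _
    rw [walsh_gadd]; ring
  simp only [e]
  rw [integral_finsetSum]
  · apply Finset.sum_congr rfl
    intro i _
    rw [integral_const_mul]; ring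
  · intro i hi
    simp only [Finset.mem_range] at hi
    apply Integrable.const_mul
    exact (hh.comp₂ (dep_walsh i m hi) (fun a b => a * b)).integrable

/-- the kernel of `L_N - 1` on the `m`-th difference -/
noncomputable def kerc (N m i : ℕ) : ℝ := lc (N - 2^m) i - hn N

/-- `L_N f - f` -/
noncomputable def dfm (N : ℕ) (f : ℕ → G → ℝ) (m : ℕ) (x : G) : ℝ := logMart N f m x - f m x

lemma dfm_eq {f : ℕ → G → ℝ} (hf : Martingale f dyadic mu) (N m : ℕ) (hN : 0 < N) (x : G) :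
    dfm N f m x = (1 / hn N) *
      ∑ i ∈ Finset.range (2^m), (hn (N-1-i) - hn N) * (coef f i * walsh i x) := by
  unfold dfm
  rw [logMart_eq, mart_expansion hf m x]
  have h1 : hn N ≠ 0 := (hn_pos hN).ne'
  have e : ∑ i ∈ Finset.range (2^m), coef f i * walsh i x =
      (1 / hn N) * ∑ i ∈ Finset.range (2^m), hn N * (coef f i * walsh i x) := by
    rw [← Finset.mul_sum, ← mul_assoc, one_div_mul_cancel h1, one_mul]
  rw [e, ← mul_sub, ← Finset.sum_sub_distrib]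
  congr 1
  apply Finset.sum_congr rfl
  intro i _
  ring

lemma dfm_succ {f : ℕ → G → ℝ} (hf : Martingale f dyadic mu) (N m : ℕ) (hN : 0 < N) (x : G) :
    dfm N f (m+1) x = dfm N f m x + (1 / hn N) * (rad m x * conv (hh f m) (D m (kerc N m)) x) := by
  rw [dfm_eq hf N (m+1) hN, dfm_eq hf N m hN, pow_succ, Nat.mul_two, Finset.sum_range_add,
    conv_D (hh_dep hf m), ← mul_add]
  congr 2
  rw [Finset.mul_sum]
  apply Finset.sum_congr rfl
  intro i hi
  simp only [Finset.mem_range] at hi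
  rw [coef_top hf m i hi, walsh_add_two_pow m i hi]
  unfold kerc lc
  rw [show N - 1 - (2^m + i) = N - 2^m - 1 - i by omega]
  ring

lemma bet_sub_const (s : ℕ) (a : ℕ → ℝ) (c : ℝ) : bet s (fun i => a i - c) = bet s a := by
  funext b
  rw [bet_eq, bet_eq]
  apply Finset.sum_congr rfl
  intro l _
  ring

lemma V_bound (s k d N : ℕ) (hN : 2^(k+(s+1)+d) ≤ N) :
    ∑ b ∈ Finset.range (2^k), (bet s (kerc N (k+(s+1))) b)^2 ≤
      (6 * ((s+1) * 2^s) * (1/2)^d)^2 := by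
  have e0 : bet s (kerc N (k+(s+1))) = bet s (lc (N - 2^(k+(s+1)))) := by
    have : kerc N (k+(s+1)) = fun i => lc (N - 2^(k+(s+1))) i - hn N := rfl
    rw [this, bet_sub_const]
  rw [e0]
  have e4 : ((2:ℝ)^s)^2 = 4^s := by rw [← pow_mul, mul_comm s 2, pow_mul]; norm_num
  rcases Nat.lt_or_ge d 2 with hd | hd
  · refine (sum_bet_all s _ _).trans ?_
    have h1 : (1/4:ℝ) ≤ ((1/2)^d)^2 := by
      interval_cases d <;> norm_num
    have e5 : (6 * (((s:ℝ)+1) * 2^s) * (1/2)^d)^2 =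
        36 * ((((s:ℝ)+1)^2 * 4^s)) * ((1/2)^d)^2 := by
      rw [← e4]; ring
    rw [e5]
    have h2 : (0:ℝ) ≤ (((s:ℝ)+1)^2 * 4^s) := by positivity
    nlinarith
  · obtain ⟨d', rfl⟩ := Nat.exists_eq_add_of_le' hd
    have hfar : 2^(s+1)*(2^k + 2^(k+d'+1)) ≤ N - 2^(k+(s+1)) := by
      have e1 : 2^(s+1)*(2^k + 2^(k+d'+1)) = 2^(k+(s+1)) + 2^(k+(s+1)) * 2^(d'+1) := by
        ring
      have e2 : 2^(k+(s+1)+(d'+2)) = 2 * (2^(k+(s+1)) * 2^(d'+1)) := by
        rw [pow_add 2 (k+(s+1)) (d'+2), pow_succ 2 (d'+1)]; ring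
      have e3 : 2 * 2^(k+(s+1)) ≤ 2^(k+(s+1)) * 2^(d'+1) := by
        rw [pow_succ 2 d']
        have : 1 ≤ 2^d' := Nat.one_le_two_pow
        nlinarith [Nat.one_le_two_pow (n := k+(s+1))]
      omega
    refine (sum_bet_far s k (k+d'+1) _ hfar).trans ?_
    have hk1 : (1:ℝ) ≤ 2^k := one_le_pow₀ (by norm_num)
    have e6 : (2:ℝ)^k * (2^(s+1) / 2^(k+d'+1))^2 = (2^s)^2 * ((1/2)^d')^2 * (1/2^k) := by
      rw [pow_succ 2 s, pow_succ, pow_add, div_pow, one_div, inv_pow]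
      field_simp
      ring
    have e7 : (6 * (((s:ℝ)+1) * 2^s) * (1/2)^(d'+2))^2 =
        (9/4) * ((s:ℝ)+1)^2 * ((2^s)^2 * ((1/2)^d')^2) := by
      rw [pow_add]; ring
    rw [e6, e7]
    have h3 : (1:ℝ)/2^k ≤ 1 := by rw [div_le_one (by positivity)]; exact hk1
    have h4 : (0:ℝ) ≤ (2^s)^2 * ((1/2)^d')^2 := by positivity
    have h5 : (1:ℝ) ≤ (9/4) * ((s:ℝ)+1)^2 := by
      have : (0:ℝ) ≤ s := Nat.cast_nonneg s
      nlinarith
    calc (2^s)^2 * ((1/2)^d')^2 * (1/2^k) ≤ (2^s)^2 * ((1/2)^d')^2 * 1 :=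
          mul_le_mul_of_nonneg_left h3 h4
      _ ≤ _ := by nlinarith

lemma ker_zero_bound (m d N : ℕ) (hN : 2^(m+d) ≤ N) (hN2 : N < 2^(m+d+1)) (x : G) :
    |D m (kerc N m) x| ≤ 6 * ((m+1) * 2^m) * (1/2)^d := by
  have h1 : ∀ i ∈ Finset.range (2^m), |kerc N m i| ≤ 6 * (m+1) * (1/2)^d := by
    intro i hi
    simp only [Finset.mem_range] at hi
    unfold kerc lc
    rw [abs_sub_comm, abs_of_nonneg (sub_nonneg.2 (hn_mono (by omega)))]
    have hm0 : (0:ℝ) ≤ m := Nat.cast_nonneg m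
    rcases Nat.lt_or_ge d 2 with hd | hd
    · have h2 : hn N ≤ hn (2^(m+d+1)) := hn_mono hN2.le
      have h3 := hn_two_pow_le (m+d+1)
      have h4 := hn_nonneg (N - 2^m - 1 - i)
      have h5 : (1/2:ℝ) ≤ (1/2)^d := by interval_cases d <;> norm_num
      have h6 : ((m+d+1 : ℕ):ℝ) + 1 ≤ 3 * (m+1) := by
        have : (d:ℝ) ≤ 1 := by exact_mod_cast (by omega : d ≤ 1)
        push_cast; linarith
      nlinarith
    · obtain ⟨d', rfl⟩ := Nat.exists_eq_add_of_le' hd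
      have e2 : 2^(m+(d'+2)) = 4 * (2^m * 2^d') := by
        rw [pow_add, pow_add 2 d' 2]; ring
      have e3 : 2^m ≤ 2^m * 2^d' := Nat.le_mul_of_pos_right _ (by positivity)
      obtain ⟨u, hu⟩ : ∃ u, N - 2^m - 1 - i = u := ⟨_, rfl⟩
      have hu2 : N = u + (2^m+1+i) := by omega
      rw [hu]
      have h7 := hn_add_le u (2^m+1+i)
      rw [← hu2] at h7
      refine h7.trans ?_
      have hu3 : 2 * (2^m * 2^d') ≤ u + 1 := by omega
      have hu4 : 2 * ((2:ℝ)^m * 2^d') ≤ (u:ℝ) + 1 := by exact_mod_cast hu3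
      have hnum : ((2^m+1+i : ℕ):ℝ) ≤ 2 * 2^m := by
        have : 2^m+1+i ≤ 2*2^m := by omega
        exact_mod_cast this
      rw [div_le_iff₀ (by positivity)]
      have hp : (0:ℝ) < 2^m := by positivity
      have hp2 : (0:ℝ) < 2^d' := by positivity
      have e8 : (6 * ((m:ℝ)+1) * (1/2)^(d'+2)) * (2 * ((2:ℝ)^m * 2^d')) = 3 * (m+1) * 2^m := by
        rw [pow_add, one_div, inv_pow]
        field_simp
        ring
      have h9 : (6 * ((m:ℝ)+1) * (1/2)^(d'+2)) * (2 * ((2:ℝ)^m * 2^d')) ≤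
          (6 * ((m:ℝ)+1) * (1/2)^(d'+2)) * ((u:ℝ)+1) :=
        mul_le_mul_of_nonneg_left hu4 (by positivity)
      nlinarith
  unfold D
  calc |∑ i ∈ Finset.range (2^m), kerc N m i * walsh i x|
      ≤ ∑ i ∈ Finset.range (2^m), |kerc N m i * walsh i x| := Finset.abs_sum_le_sum_abs _ _
    _ ≤ ∑ i ∈ Finset.range (2^m), 6 * ((m:ℝ)+1) * (1/2)^d := by
        apply Finset.sum_le_sum
        intro i hi
        rw [abs_mul, abs_walsh, mul_one]
        exact h1 i hi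
    _ = _ := by
        rw [Finset.sum_const, Finset.card_range, nsmul_eq_mul]; push_cast; ring

/-- the terms of the bound for the kernel -/
noncomputable def tt (p : ℝ) (s : ℕ) : ℝ≥0∞ :=
  (2⁻¹:ℝ≥0∞)^s * ENNReal.ofReal ((6 * ((s+1) * 2^s)) ^ p)

lemma tt_sum (p : ℝ) (hp0 : 0 < p) (hp1 : p < 1) : ∑' s, tt p s ≠ ∞ := by
  have hr0 : 0 ≤ (2:ℝ)^(p-1) := by positivity
  have hr1 : (2:ℝ)^(p-1) < 1 := Real.rpow_lt_one_of_one_lt_of_neg (by norm_num) (by linarith)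
  have hsum : Summable (fun s : ℕ => 6 * (((s:ℝ)+1) * ((2:ℝ)^(p-1))^s)) := by
    apply Summable.mul_left
    have h1 := summable_pow_mul_geometric_of_norm_lt_one 1 (r := (2:ℝ)^(p-1))
      (by rw [Real.norm_eq_abs, abs_of_nonneg hr0]; exact hr1)
    have h2 := summable_geometric_of_lt_one hr0 hr1
    have h3 := h1.add h2
    refine h3.congr (fun s => ?_)
    rw [pow_one]; ring
  have hle : ∀ s, tt p s ≤ ENNReal.ofReal (6 * (((s:ℝ)+1) * ((2:ℝ)^(p-1))^s)) := by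
    intro s
    unfold tt
    rw [show ((2⁻¹:ℝ≥0∞)^s) = ENNReal.ofReal ((1/2)^s) by
      rw [ENNReal.ofReal_pow (by norm_num), one_div, ENNReal.ofReal_inv_of_pos (by norm_num)]
      norm_num, ← ENNReal.ofReal_mul (by positivity)]
    apply ENNReal.ofReal_le_ofReal
    have hs : (1:ℝ) ≤ 6 * ((s:ℝ)+1) := by
      have : (0:ℝ) ≤ s := Nat.cast_nonneg s
      linarith
    rw [show 6 * (((s:ℝ)+1) * 2^s) = (6 * ((s:ℝ)+1)) * 2^s by ring,
      Real.mul_rpow (by positivity) (by positivity)]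
    have h1 : (6 * ((s:ℝ)+1)) ^ p ≤ 6 * ((s:ℝ)+1) := by
      calc (6 * ((s:ℝ)+1)) ^ p ≤ (6 * ((s:ℝ)+1)) ^ (1:ℝ) :=
            Real.rpow_le_rpow_of_exponent_le hs hp1.le
        _ = _ := Real.rpow_one _
    have h2 : (1/2:ℝ)^s * ((2:ℝ)^s)^p = ((2:ℝ)^(p-1))^s := by
      rw [← Real.rpow_natCast (2:ℝ) s, ← Real.rpow_mul (by norm_num), one_div, inv_pow,
        ← Real.rpow_natCast (2:ℝ) s, ← Real.rpow_neg (by norm_num), ← Real.rpow_add (by norm_num),
        ← Real.rpow_natCast ((2:ℝ)^(p-1)) s, ← Real.rpow_mul (by norm_num)]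
      congr 1; ring
    calc (1/2:ℝ)^s * ((6 * ((s:ℝ)+1)) ^ p * ((2:ℝ)^s)^p)
        = (6 * ((s:ℝ)+1)) ^ p * ((1/2:ℝ)^s * ((2:ℝ)^s)^p) := by ring
      _ ≤ (6 * ((s:ℝ)+1)) * ((2:ℝ)^(p-1))^s := by
          rw [h2]; exact mul_le_mul_of_nonneg_right h1 (by positivity)
      _ = _ := by ring
  refine ne_top_of_le_ne_top ?_ (ENNReal.tsum_le_tsum hle)
  rw [← ENNReal.ofReal_tsum_of_nonneg (fun s => by positivity) hsum]
  exact ENNReal.ofReal_ne_top

lemma kernel_bound (p : ℝ) (hp0 : 0 < p) (hp1 : p < 1) (m d N : ℕ) (hN : 2^(m+d) ≤ N)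
    (hN2 : N < 2^(m+d+1)) :
    ∫⁻ x, ‖D m (kerc N m) x‖ₑ ^ p ∂mu ≤
      (∑' s, tt p s) * ENNReal.ofReal (((1/2:ℝ)^d) ^ p) := by
  rw [lintegral_decomp _ m]
  have h1 : ∀ s ∈ Finset.range m, ∫⁻ x in Z s, ‖D m (kerc N m) x‖ₑ ^ p ∂mu ≤
      tt p s * ENNReal.ofReal (((1/2:ℝ)^d) ^ p) := by
    intro s hs
    simp only [Finset.mem_range] at hs
    obtain ⟨k, rfl⟩ : ∃ k, m = k + (s+1) := ⟨m - (s+1), by omega⟩
    refine (Z_bound s k (kerc N (k+(s+1))) p _ hp0 (by linarith) (V_bound s k d N hN)).trans ?_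
    have e1 : ((6 * (((s:ℝ)+1) * 2^s) * (1/2)^d)^2) ^ (p/2) =
        (6 * (((s:ℝ)+1) * 2^s)) ^ p * ((1/2:ℝ)^d) ^ p := by
      rw [← Real.rpow_natCast _ 2, ← Real.rpow_mul (by positivity),
        ← Real.mul_rpow (by positivity) (by positivity)]
      congr 1; push_cast; ring
    rw [e1, ENNReal.ofReal_mul (by positivity)]
    unfold tt
    rw [mul_assoc]
    apply mul_le_mul' _ le_rfl
    rw [pow_succ]
    calc (2⁻¹:ℝ≥0∞)^s * 2⁻¹ ≤ (2⁻¹:ℝ≥0∞)^s * 1 := by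
          gcongr
          rw [ENNReal.inv_le_one]; norm_num
      _ = _ := mul_one _
  have h2 : ∫⁻ x in cyl m zeroG, ‖D m (kerc N m) x‖ₑ ^ p ∂mu ≤
      tt p m * ENNReal.ofReal (((1/2:ℝ)^d) ^ p) := by
    calc ∫⁻ x in cyl m zeroG, ‖D m (kerc N m) x‖ₑ ^ p ∂mu
        ≤ ∫⁻ x in cyl m zeroG, ENNReal.ofReal ((6 * (((m:ℝ)+1) * 2^m) * (1/2)^d) ^ p) ∂mu := by
          apply setLIntegral_mono' (measurableSet_cyl _ _)
          intro x hx
          rw [Real.enorm_eq_ofReal_abs, ENNReal.ofReal_rpow_of_nonneg (abs_nonneg _) hp0.le]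
          apply ENNReal.ofReal_le_ofReal
          exact Real.rpow_le_rpow (abs_nonneg _) (ker_zero_bound m d N hN hN2 x) hp0.le
      _ = _ := by
          rw [setLIntegral_const, mu_cyl]
          unfold tt
          rw [Real.mul_rpow (by positivity) (by positivity), ENNReal.ofReal_mul (by positivity)]
          ring
  calc ∑ s ∈ Finset.range m, ∫⁻ x in Z s, ‖D m (kerc N m) x‖ₑ ^ p ∂mu +
        ∫⁻ x in cyl m zeroG, ‖D m (kerc N m) x‖ₑ ^ p ∂mu
      ≤ ∑ s ∈ Finset.range m, tt p s * ENNReal.ofReal (((1/2:ℝ)^d) ^ p) +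
        tt p m * ENNReal.ofReal (((1/2:ℝ)^d) ^ p) := add_le_add (Finset.sum_le_sum h1) h2
    _ = (∑ s ∈ Finset.range (m+1), tt p s) * ENNReal.ofReal (((1/2:ℝ)^d) ^ p) := by
        rw [Finset.sum_range_succ, add_mul, Finset.sum_mul]
    _ ≤ _ := by
        gcongr
        exact ENNReal.sum_le_tsum _

end Pool.Agent.V1193.Walsh
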