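import Pool.Agent.V1193.WalshLogA

/-! Convergence of the logarithmic means in `H_p`, `0 < p < 1`. -/

open MeasureTheory ProbabilityTheory Filter Topology
open scoped ENNReal

namespace Pool.Agent.V1193.Walsh

/-- the oscillation `sup_k |f^{(k)} - f^{(min(k,n))}|` -/
noncomputable def osc (f : ℕ → G → ℝ) (n : ℕ) (x : G) : ℝ≥0∞ := ⨆ k, ‖f k x - f (min k n) x‖ₑ

lemma modulus_rpow (p : ℝ) (hp0 : 0 < p) (f : ℕ → G → ℝ) (n : ℕ) :
    (modulus p f n) ^ p = ∫⁻ x, (osc f n x) ^ p ∂mu := by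
  unfold modulus hpNorm osc
  rw [← ENNReal.rpow_mul, one_div_mul_cancel hp0.ne', ENNReal.rpow_one]

lemma hpNorm_rpow (p : ℝ) (hp0 : 0 < p) (f : ℕ → G → ℝ) :
    (hpNorm p f) ^ p = ∫⁻ x, (⨆ k, ‖f k x‖ₑ) ^ p ∂mu := by
  unfold hpNorm
  rw [← ENNReal.rpow_mul, one_div_mul_cancel hp0.ne', ENNReal.rpow_one]

lemma enorm_dfm_le {f : ℕ → G → ℝ} (hf : Martingale f dyadic mu) (N n : ℕ) (hN : 0 < N)
    (hNn : N ≤ 2^(n+1)) (k : ℕ) (x : G) :
    ‖dfm N f k x‖ₑ ≤ ‖dfm N f 0 x‖ₑ +
      (∑ m ∈ Finset.range (n+1), ‖(1 / hn N) * conv (hh f m) (D m (kerc N m)) x‖ₑ) +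
      osc f (n+1) x := by
  have hstep : ∀ k, k ≤ n+1 → ‖dfm N f k x‖ₑ ≤ ‖dfm N f 0 x‖ₑ +
      ∑ m ∈ Finset.range k, ‖(1 / hn N) * conv (hh f m) (D m (kerc N m)) x‖ₑ := by
    intro k hk
    induction k with
    | zero => simp
    | succ k ih =>
      rw [dfm_succ hf N k hN, Finset.sum_range_succ, ← add_assoc]
      refine (enorm_add_le _ _).trans (add_le_add (ih (by omega)) (le_of_eq ?_))
      rw [enorm_mul, enorm_mul, enorm_mul]
      have : ‖rad k x‖ₑ = 1 := by rw [Real.enorm_eq_ofReal_abs, abs_rad]; simp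
      rw [this, one_mul]
  rcases le_total k (n+1) with hk | hk
  · refine (hstep k hk).trans ?_
    refine le_trans (add_le_add le_rfl ?_) le_self_add
    exact Finset.sum_le_sum_of_subset (Finset.range_mono hk)
  · have e : dfm N f k x = dfm N f (n+1) x - (f k x - f (min k (n+1)) x) := by
      unfold dfm
      rw [logMart_stab N f (n+1) hNn k hk, min_eq_right hk]; ring
    rw [e]
    refine (enorm_sub_le).trans (add_le_add (hstep (n+1) le_rfl) ?_)
    exact le_iSup (fun k => ‖f k x - f (min k (n+1)) x‖ₑ) k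

lemma rpow_sum_le {ι : Type*} (s : Finset ι) (g : ι → ℝ≥0∞) (p : ℝ) (hp0 : 0 < p) (hp1 : p ≤ 1) :
    (∑ i ∈ s, g i) ^ p ≤ ∑ i ∈ s, (g i) ^ p := by
  classical
  induction s using Finset.induction_on with
  | empty => simp [ENNReal.zero_rpow_of_pos hp0]
  | insert i s hi ih =>
    rw [Finset.sum_insert hi, Finset.sum_insert hi]
    exact (ENNReal.rpow_add_le_add_rpow _ _ hp0.le hp1).trans (add_le_add le_rfl ih)

lemma lintegral_hh_le {f : ℕ → G → ℝ} (p : ℝ) (hp0 : 0 < p) (m : ℕ) :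
    ∫⁻ x, ‖hh f m x‖ₑ ^ p ∂mu ≤ (modulus p f m) ^ p := by
  rw [modulus_rpow p hp0]
  apply lintegral_mono
  intro x
  apply ENNReal.rpow_le_rpow _ hp0.le
  refine le_trans (le_of_eq ?_) (le_iSup (fun k => ‖f k x - f (min k m) x‖ₑ) (m+1))
  unfold hh
  rw [enorm_mul, min_eq_right (Nat.le_succ m)]
  have : ‖rad m x‖ₑ = 1 := by rw [Real.enorm_eq_ofReal_abs, abs_rad]; simp
  rw [this, one_mul]

lemma dep_conv {m : ℕ} {h K : G → ℝ} (hK : Dep m K) : Dep m (conv h K) := by
  intro x y hxy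
  unfold conv
  congr 1
  funext z
  have := hK.gadd_left z x y hxy
  simp only at this
  rw [this]

/-- The main inequality. -/
lemma dfm_bound {f : ℕ → G → ℝ} (hf : Martingale f dyadic mu) (p : ℝ) (hp0 : 0 < p) (hp1 : p < 1)
    (N n : ℕ) (hN1 : 2^n ≤ N) (hN2 : N < 2^(n+1)) :
    (hpNorm p (fun m x => logMart N f m x - f m x)) ^ p ≤
      ENNReal.ofReal ((|coef f 0| / N) ^ p) +
      (∑ m ∈ Finset.range (n+1), (ENNReal.ofReal (1 / hn N)) ^ p * ((((2:ℝ≥0∞)^m) ^ (1-p) *
        ((modulus p f m) ^ p * ((∑' s, tt p s) * ENNReal.ofReal (((1/2:ℝ)^(n-m)) ^ p)))))) +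
      (modulus p f (n+1)) ^ p := by
  have hN : 0 < N := lt_of_lt_of_le (by positivity) hN1
  rw [hpNorm_rpow p hp0]
  have hconst : ∀ x, ‖dfm N f 0 x‖ₑ ≤ ENNReal.ofReal (|coef f 0| / N) := by
    intro x
    rw [dfm_eq hf N 0 hN, Real.enorm_eq_ofReal_abs]
    apply ENNReal.ofReal_le_ofReal
    have hNpos := hn_pos hN
    simp only [pow_zero, Finset.range_one, Finset.sum_singleton, walsh_zero, mul_one, Nat.sub_zero]
    rw [abs_mul, abs_mul, abs_of_pos (by positivity : 0 < 1 / hn N)]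
    obtain ⟨N', rfl⟩ := Nat.exists_eq_add_of_le' hN
    rw [Nat.add_sub_cancel, hn_succ]
    have e : hn N' - (hn N' + 1 / ((N':ℝ)+1)) = -(1 / ((N':ℝ)+1)) := by ring
    rw [e, abs_neg, abs_of_pos (by positivity)]
    have h1 : 1 ≤ hn (N'+1) := by
      have := hn_mono (show 1 ≤ N'+1 by omega)
      rw [hn_one] at this; exact this
    rw [← hn_succ]
    push_cast
    have h2 : 1 / hn (N'+1) ≤ 1 := by rw [div_le_one (by linarith)]; exact h1
    calc 1 / hn (N'+1) * (1 / ((N':ℝ)+1) * |coef f 0|) ≤ 1 * (1 / ((N':ℝ)+1) * |coef f 0|) :=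
          mul_le_mul_of_nonneg_right h2 (by positivity)
      _ = _ := by ring
  have hpt : ∀ x, (⨆ k, ‖logMart N f k x - f k x‖ₑ) ^ p ≤
      ENNReal.ofReal ((|coef f 0| / N) ^ p) +
      (∑ m ∈ Finset.range (n+1), ‖(1 / hn N) * conv (hh f m) (D m (kerc N m)) x‖ₑ ^ p) +
      (osc f (n+1) x) ^ p := by
    intro x
    have h1 : (⨆ k, ‖logMart N f k x - f k x‖ₑ) ≤ ENNReal.ofReal (|coef f 0| / N) +
        (∑ m ∈ Finset.range (n+1), ‖(1 / hn N) * conv (hh f m) (D m (kerc N m)) x‖ₑ) +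
        osc f (n+1) x := by
      apply iSup_le
      intro k
      refine (enorm_dfm_le hf N n hN hN2.le k x).trans ?_
      exact add_le_add (add_le_add (hconst x) le_rfl) le_rfl
    refine (ENNReal.rpow_le_rpow h1 hp0.le).trans ?_
    refine (ENNReal.rpow_add_le_add_rpow _ _ hp0.le hp1.le).trans ?_
    apply add_le_add _ le_rfl
    refine (ENNReal.rpow_add_le_add_rpow _ _ hp0.le hp1.le).trans ?_
    apply add_le_add
    · rw [ENNReal.ofReal_rpow_of_nonneg (by positivity) hp0.le]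
    · exact rpow_sum_le _ _ p hp0 hp1.le
  have hdep : ∀ m, Dep m (fun x => (1 / hn N) * conv (hh f m) (D m (kerc N m)) x) := by
    intro m
    have : Dep m (conv (hh f m) (D m (kerc N m))) := dep_conv (dep_D m _)
    exact this.comp (fun a => (1 / hn N) * a)
  calc ∫⁻ x, (⨆ k, ‖logMart N f k x - f k x‖ₑ) ^ p ∂mu
      ≤ ∫⁻ x, (ENNReal.ofReal ((|coef f 0| / N) ^ p) +
        (∑ m ∈ Finset.range (n+1), ‖(1 / hn N) * conv (hh f m) (D m (kerc N m)) x‖ₑ ^ p) +
        (osc f (n+1) x) ^ p) ∂mu := lintegral_mono hpt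
    _ = ENNReal.ofReal ((|coef f 0| / N) ^ p) +
        (∑ m ∈ Finset.range (n+1),
          ∫⁻ x, ‖(1 / hn N) * conv (hh f m) (D m (kerc N m)) x‖ₑ ^ p ∂mu) +
        (modulus p f (n+1)) ^ p := by
        have hm1 : Measurable (fun x => ENNReal.ofReal ((|coef f 0| / N) ^ p) +
          (∑ m ∈ Finset.range (n+1), ‖(1 / hn N) * conv (hh f m) (D m (kerc N m)) x‖ₑ ^ p)) := by
          apply Measurable.fun_add measurable_const
          apply Finset.measurable_fun_sum
          intro m _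
          exact (hdep m).measurable.enorm.pow_const p
        rw [lintegral_add_left hm1, lintegral_add_left measurable_const, modulus_rpow p hp0,
          lintegral_finsetSum]
        · simp
        · intro m _
          exact (hdep m).measurable.enorm.pow_const p
    _ ≤ _ := by
        gcongr with m hm
        simp only [Finset.mem_range] at hm
        have e1 : ∀ x, ‖(1 / hn N) * conv (hh f m) (D m (kerc N m)) x‖ₑ ^ p =
            (ENNReal.ofReal (1 / hn N)) ^ p * ‖conv (hh f m) (D m (kerc N m)) x‖ₑ ^ p := by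
          intro x
          rw [enorm_mul, ENNReal.mul_rpow_of_nonneg _ _ hp0.le, Real.enorm_eq_ofReal_abs (1 / hn N),
            abs_of_pos (one_div_pos.2 (hn_pos hN))]
        simp only [e1]
        have hdc : Dep m (conv (hh f m) (D m (kerc N m))) := dep_conv (dep_D m _)
        rw [lintegral_const_mul _ (hdc.measurable.enorm.pow_const p)]
        gcongr
        refine (conv_bound (hh_dep hf m) (dep_D m _) p hp0 hp1.le).trans ?_
        gcongr
        · exact lintegral_hh_le p hp0 m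
        · apply kernel_bound p hp0 hp1 m (n-m) N
          · rw [show m + (n-m) = n by omega]; exact hN1
          · rw [show m + (n-m) + 1 = n+1 by omega]; exact hN2

lemma conv_zero (a : ℕ → ℝ) (ha : Tendsto a atTop (𝓝 0)) (r : ℝ) (hr0 : 0 ≤ r) (hr1 : r < 1) :
    Tendsto (fun n => ∑ m ∈ Finset.range (n+1), a m * r^(n-m)) atTop (𝓝 0) := by
  obtain ⟨A, hA⟩ := (Metric.isBounded_range_of_tendsto a ha).exists_norm_le
  have hA' : ∀ n, |a n| ≤ A := fun n => hA (a n) ⟨n, rfl⟩
  have h := tendsto_tsum_of_dominated_convergence (𝓕 := atTop)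
    (f := fun (n j : ℕ) => if j ≤ n then a (n-j) * r^j else 0) (g := fun _ => (0:ℝ))
    (bound := fun j => A * r^j) ((summable_geometric_of_lt_one hr0 hr1).mul_left A) ?_ ?_
  · rw [tsum_zero] at h
    refine h.congr (fun n => ?_)
    rw [tsum_eq_sum (s := Finset.range (n+1))]
    · rw [← Finset.sum_range_reflect]
      apply Finset.sum_congr rfl
      intro j hj
      have := Finset.mem_range.1 hj
      rw [if_pos (by omega)]
      congr 2
      · omega
    · intro j hj
      simp only [Finset.mem_range, not_lt] at hj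
      rw [if_neg (by omega)]
  · intro j
    have h1 : Tendsto (fun n : ℕ => a (n-j) * r^j) atTop (𝓝 (0 * r^j)) :=
      (ha.comp (tendsto_sub_atTop_nat j)).mul_const _
    rw [zero_mul] at h1
    refine h1.congr' ?_
    filter_upwards [eventually_ge_atTop j] with n hn
    rw [if_pos hn]
  · refine Eventually.of_forall (fun n j => ?_)
    split
    · rw [Real.norm_eq_abs, abs_mul, abs_of_nonneg (pow_nonneg hr0 j)]
      exact mul_le_mul_of_nonneg_right (hA' _) (pow_nonneg hr0 j)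
    · rw [norm_zero]
      have := (abs_nonneg _).trans (hA' 0)
      positivity

end Pool.Agent.V1193.Walsh
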