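import Pool.Agent.V1193.WalshLogB

/-! Convergence of the logarithmic means in `H_p`, `0 < p < 1`; limit functions, weak norms. -/

open MeasureTheory ProbabilityTheory Filter Topology
open scoped ENNReal

namespace Pool.Agent.V1193.Walsh

lemma modulus_lt_top {f : ℕ → G → ℝ} (hf : Martingale f dyadic mu) (p : ℝ) (hp0 : 0 < p)
    (hH : hpNorm p f < ∞) (n : ℕ) : modulus p f n < ∞ := by
  have h1 : (modulus p f n) ^ p < ∞ := by
    rw [modulus_rpow p hp0]
    calc ∫⁻ x, (osc f n x) ^ p ∂mu ≤ ∫⁻ x, (2:ℝ≥0∞)^p * (⨆ k, ‖f k x‖ₑ) ^ p ∂mu := by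
          apply lintegral_mono
          intro x
          simp only
          rw [← ENNReal.mul_rpow_of_nonneg _ _ hp0.le]
          apply ENNReal.rpow_le_rpow _ hp0.le
          apply iSup_le
          intro k
          refine (enorm_sub_le).trans ?_
          rw [two_mul]
          exact add_le_add (le_iSup (fun k => ‖f k x‖ₑ) k) (le_iSup (fun k => ‖f k x‖ₑ) (min k n))
      _ = (2:ℝ≥0∞)^p * ∫⁻ x, (⨆ k, ‖f k x‖ₑ) ^ p ∂mu := by
          rw [lintegral_const_mul]
          exact (Measurable.iSup (fun k => (mart_dep hf k).measurable.enorm)).pow_const p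
      _ = (2:ℝ≥0∞)^p * (hpNorm p f)^p := by rw [hpNorm_rpow p hp0]
      _ < ∞ := by
          apply ENNReal.mul_lt_top
          · exact ENNReal.rpow_lt_top_of_nonneg hp0.le (by norm_num)
          · exact ENNReal.rpow_lt_top_of_nonneg hp0.le hH.ne
  by_contra hc
  rw [not_lt, top_le_iff] at hc
  rw [hc, ENNReal.top_rpow_of_pos hp0] at h1
  exact lt_irrefl _ h1

lemma pow_div_ge_one (κ : ℝ) (hκ : 0 < κ) :
    ∀ᶠ n : ℕ in atTop, 1 ≤ (2:ℝ)^((n:ℝ)*κ) / ((n:ℝ)+1) := by
  have hr : 1 < (2:ℝ)^κ := Real.one_lt_rpow (by norm_num) hκ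
  have h1 := tendsto_pow_const_div_const_pow_of_one_lt 1 hr
  have h2 := tendsto_pow_const_div_const_pow_of_one_lt 0 hr
  have h3 := h1.add h2
  rw [add_zero] at h3
  filter_upwards [h3.eventually_lt_const (show (0:ℝ) < 1 by norm_num)] with n hn
  rw [← add_div, div_lt_one (by positivity)] at hn
  rw [one_le_div (by positivity), mul_comm, Real.rpow_mul (by norm_num), Real.rpow_natCast]
  simp only [pow_one, pow_zero] at hn
  exact hn.le

lemma modulus_tendsto {f : ℕ → G → ℝ} (p : ℝ) (hp0 : 0 < p) (hp1 : p < 1)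
    (hmod : Tendsto (fun n : ℕ => modulus p f n *
      ENNReal.ofReal ((2:ℝ)^((n:ℝ)*(1/p-1)) / ((n:ℝ)+1))) atTop (𝓝 0)) :
    Tendsto (modulus p f) atTop (𝓝 0) := by
  have hκ : 0 < 1/p - 1 := by rw [sub_pos, lt_div_iff₀ hp0]; linarith
  refine tendsto_of_tendsto_of_tendsto_of_le_of_le' tendsto_const_nhds hmod
    (Eventually.of_forall fun _ => zero_le) ?_
  filter_upwards [pow_div_ge_one _ hκ] with n hn
  calc modulus p f n = modulus p f n * 1 := (mul_one _).symm
    _ ≤ _ := by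
      gcongr
      rw [← ENNReal.ofReal_one]
      exact ENNReal.ofReal_le_ofReal hn

lemma log_tendsto : Tendsto (fun N : ℕ => Nat.log 2 N) atTop atTop := by
  apply tendsto_atTop.2
  intro K
  filter_upwards [eventually_ge_atTop (2^K)] with N hN
  exact Nat.le_log_of_pow_le (by norm_num) hN

/-- Convergence in `H_p` for `0 < p < 1` when `ω_{H_p}(1/2^n, f) = o(n / 2^{n(1/p-1)})`. -/
theorem logMart_tendsto {f : ℕ → G → ℝ} (hf : Martingale f dyadic mu) (p : ℝ) (hp0 : 0 < p)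
    (hp1 : p < 1) (hH : hpNorm p f < ∞)
    (hmod : Tendsto (fun n : ℕ => modulus p f n *
      ENNReal.ofReal ((2:ℝ)^((n:ℝ)*(1/p-1)) / ((n:ℝ)+1))) atTop (𝓝 0)) :
    Tendsto (fun N => hpNorm p (fun m x => logMart N f m x - f m x)) atTop (𝓝 0) := by
  have hmt := modulus_tendsto p hp0 hp1 hmod
  set C := ∑' s, tt p s with hC
  have hCtop : C ≠ ∞ := tt_sum p hp0 hp1
  set a : ℕ → ℝ≥0∞ := fun n => (modulus p f n *
      ENNReal.ofReal ((2:ℝ)^((n:ℝ)*(1/p-1)) / ((n:ℝ)+1))) ^ p with ha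
  have hafin : ∀ n, a n ≠ ∞ := by
    intro n
    apply (ENNReal.rpow_lt_top_of_nonneg hp0.le _).ne
    exact (ENNReal.mul_lt_top (modulus_lt_top hf p hp0 hH n) ENNReal.ofReal_lt_top).ne
  have hatend : Tendsto a atTop (𝓝 0) := by
    have := hmod.ennrpow_const p
    rwa [ENNReal.zero_rpow_of_pos hp0] at this
  have hareal : Tendsto (fun n => (a n).toReal) atTop (𝓝 0) := by
    have := (ENNReal.tendsto_toReal (show (0:ℝ≥0∞) ≠ ∞ by norm_num)).comp hatend
    rw [ENNReal.toReal_zero] at this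
    exact this
  set r : ℝ := (1/2:ℝ)^p with hr
  have hr0 : 0 ≤ r := by positivity
  have hr1 : r < 1 := Real.rpow_lt_one (by norm_num) (by norm_num) hp0
  have hconv := conv_zero _ hareal r hr0 hr1
  -- the bound as a function of n and N
  set Bd : ℕ → ℝ≥0∞ := fun N => ENNReal.ofReal ((|coef f 0| / N) ^ p) +
      ENNReal.ofReal (2^p) * C *
        ENNReal.ofReal (∑ m ∈ Finset.range (Nat.log 2 N + 1), (a m).toReal * r^(Nat.log 2 N - m)) +
      (modulus p f (Nat.log 2 N+1)) ^ p with hBd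
  have hle : ∀ᶠ N : ℕ in atTop, (hpNorm p (fun m x => logMart N f m x - f m x)) ^ p ≤ Bd N := by
    filter_upwards [eventually_gt_atTop 0] with N hN
    set n := Nat.log 2 N with hndef
    have hN1 : 2^n ≤ N := Nat.pow_log_le_self 2 hN.ne'
    have hN2 : N < 2^(n+1) := Nat.lt_pow_succ_log_self (by norm_num) N
    refine (dfm_bound hf p hp0 hp1 N n hN1 hN2).trans ?_
    simp only [hBd]
    apply add_le_add (add_le_add le_rfl _) le_rfl
    rw [ENNReal.ofReal_sum_of_nonneg (fun m _ => by positivity), Finset.mul_sum]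
    apply Finset.sum_le_sum
    intro m hm
    simp only [Finset.mem_range] at hm
    rw [ENNReal.ofReal_mul ENNReal.toReal_nonneg, ENNReal.ofReal_toReal (hafin m)]
    have e1 : ENNReal.ofReal (((1/2:ℝ)^(n-m)) ^ p) = ENNReal.ofReal (r^(n-m)) := by
      congr 1
      rw [hr, ← Real.rpow_natCast, ← Real.rpow_natCast, ← Real.rpow_mul (by norm_num),
        ← Real.rpow_mul (by norm_num), mul_comm]
    rw [e1]
    -- key: (1/hn N)^p (2^m)^(1-p) mod^p ≤ 2^p a m
    have hm1 : (m:ℝ) + 1 ≤ (n:ℝ) + 1 := by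
      have : (m:ℝ) ≤ n := by exact_mod_cast (by omega : m ≤ n)
      linarith
    have hhn : ((m:ℝ)+1)/2 ≤ hn N := by
      have h1 := hn_two_pow_ge n
      have h2 := hn_mono hN1
      linarith
    have key : (ENNReal.ofReal (1 / hn N)) ^ p * ((2:ℝ≥0∞)^m) ^ (1-p) ≤
        ENNReal.ofReal (2^p) * (ENNReal.ofReal ((2:ℝ)^((m:ℝ)*(1/p-1)) / ((m:ℝ)+1))) ^ p := by
      have hNpos := hn_pos hN
      have e2 : ((2:ℝ≥0∞)^m) ^ (1-p) = ENNReal.ofReal ((2:ℝ)^((m:ℝ)*(1-p))) := by
        rw [← ENNReal.rpow_natCast, ← ENNReal.rpow_mul,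
          ← ENNReal.ofReal_rpow_of_pos (by norm_num : (0:ℝ) < 2)]
        norm_num
      rw [e2, ENNReal.ofReal_rpow_of_nonneg (by positivity) hp0.le,
        ENNReal.ofReal_rpow_of_nonneg (by positivity) hp0.le, ← ENNReal.ofReal_mul (by positivity),
        ← ENNReal.ofReal_mul (by positivity)]
      apply ENNReal.ofReal_le_ofReal
      rw [← Real.mul_rpow (by norm_num) (by positivity)]
      have e3 : (2:ℝ)^((m:ℝ)*(1-p)) = ((2:ℝ)^((m:ℝ)*(1/p-1)))^p := by
        rw [← Real.rpow_mul (by norm_num)]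
        congr 1; field_simp
      rw [e3, ← Real.mul_rpow (by positivity) (by positivity)]
      apply Real.rpow_le_rpow (by positivity) _ hp0.le
      have h2p : 0 < (2:ℝ)^((m:ℝ)*(1/p-1)) := by positivity
      have h3 : 1 / hn N ≤ 2 / ((m:ℝ)+1) := by
        rw [div_le_div_iff₀ hNpos (by positivity)]
        linarith
      calc 1 / hn N * (2:ℝ)^((m:ℝ)*(1/p-1)) ≤ 2 / ((m:ℝ)+1) * (2:ℝ)^((m:ℝ)*(1/p-1)) :=
            mul_le_mul_of_nonneg_right h3 h2p.le
        _ = _ := by ring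
    calc (ENNReal.ofReal (1 / hn N)) ^ p * (((2:ℝ≥0∞)^m) ^ (1-p) *
          ((modulus p f m) ^ p * (C * ENNReal.ofReal (r^(n-m)))))
        = ((ENNReal.ofReal (1 / hn N)) ^ p * ((2:ℝ≥0∞)^m) ^ (1-p)) *
          ((modulus p f m) ^ p * (C * ENNReal.ofReal (r^(n-m)))) := by ring
      _ ≤ (ENNReal.ofReal (2^p) * (ENNReal.ofReal ((2:ℝ)^((m:ℝ)*(1/p-1)) / ((m:ℝ)+1))) ^ p) *
          ((modulus p f m) ^ p * (C * ENNReal.ofReal (r^(n-m)))) := by gcongr
      _ = ENNReal.ofReal (2^p) * C * (a m * ENNReal.ofReal (r^(n-m))) := by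
          simp only [ha]
          rw [ENNReal.mul_rpow_of_nonneg _ _ hp0.le]
          ring
  have hBd0 : Tendsto Bd atTop (𝓝 0) := by
    have t1 : Tendsto (fun N : ℕ => ENNReal.ofReal ((|coef f 0| / N) ^ p)) atTop (𝓝 0) := by
      have h1 : Tendsto (fun N : ℕ => (|coef f 0| / (N:ℝ))) atTop (𝓝 0) :=
        tendsto_const_nhds.div_atTop tendsto_natCast_atTop_atTop
      have h2 : Tendsto (fun N : ℕ => (|coef f 0| / (N:ℝ)) ^ p) atTop (𝓝 (0 ^ p)) :=
        h1.rpow_const (Or.inr hp0.le)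
      rw [Real.zero_rpow hp0.ne'] at h2
      have h3 := ENNReal.tendsto_ofReal h2
      rwa [ENNReal.ofReal_zero] at h3
    have t2 : Tendsto (fun N : ℕ => ENNReal.ofReal (2^p) * C *
        ENNReal.ofReal (∑ m ∈ Finset.range (Nat.log 2 N + 1), (a m).toReal * r^(Nat.log 2 N - m)))
        atTop (𝓝 0) := by
      have h1 := ENNReal.tendsto_ofReal (hconv.comp log_tendsto)
      rw [ENNReal.ofReal_zero] at h1
      have h2 := ENNReal.Tendsto.const_mul (a := ENNReal.ofReal (2^p) * C) h1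
        (Or.inr (ENNReal.mul_ne_top ENNReal.ofReal_ne_top hCtop))
      rw [mul_zero] at h2
      exact h2
    have t3 : Tendsto (fun N : ℕ => (modulus p f (Nat.log 2 N+1)) ^ p) atTop (𝓝 0) := by
      have h1 : Tendsto (fun N : ℕ => modulus p f (Nat.log 2 N+1)) atTop (𝓝 0) :=
        hmt.comp ((tendsto_add_atTop_nat 1).comp log_tendsto)
      have h2 := h1.ennrpow_const p
      rwa [ENNReal.zero_rpow_of_pos hp0] at h2
    have := (t1.add t2).add t3
    simpa using this
  have hfin : Tendsto (fun N => (hpNorm p (fun m x => logMart N f m x - f m x)) ^ p) atTop (𝓝 0) :=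
    tendsto_of_tendsto_of_tendsto_of_le_of_le' tendsto_const_nhds hBd0
      (Eventually.of_forall fun _ => zero_le) hle
  have := hfin.ennrpow_const (1/p)
  rw [ENNReal.zero_rpow_of_pos (by positivity)] at this
  refine this.congr (fun N => ?_)
  rw [← ENNReal.rpow_mul, mul_one_div_cancel hp0.ne', ENNReal.rpow_one]

/-! ### limit function and weak norm -/

/-- `‖g‖_{weak-L_p}` -/
noncomputable def weakNorm (p : ℝ) (g : G → ℝ) : ℝ≥0∞ :=
  (⨆ l : {l : ℝ // 0 < l}, ENNReal.ofReal l ^ p * mu {x | (l:ℝ) < |g x|}) ^ (1/p)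

lemma weakNorm_le (p : ℝ) (hp0 : 0 < p) (g : G → ℝ) (hg : Measurable g) :
    weakNorm p g ≤ lpNorm p g := by
  unfold weakNorm lpNorm
  apply ENNReal.rpow_le_rpow _ (by positivity)
  apply iSup_le
  rintro ⟨l, hl⟩
  have h1 := mul_meas_ge_le_lintegral (μ := mu) (f := fun x => ‖g x‖ₑ ^ p)
    (hg.enorm.pow_const p) (ENNReal.ofReal l ^ p)
  refine le_trans ?_ h1
  apply mul_le_mul' le_rfl
  apply measure_mono
  intro x hx
  have hx' : l < |g x| := hx
  apply ENNReal.rpow_le_rpow _ hp0.le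
  rw [Real.enorm_eq_ofReal_abs]
  exact ENNReal.ofReal_le_ofReal hx'.le

lemma measurable_osc {f : ℕ → G → ℝ} (hf : Martingale f dyadic mu) (n : ℕ) :
    Measurable (osc f n) := by
  unfold osc
  apply Measurable.iSup
  intro k
  exact ((mart_dep hf k).measurable.sub (mart_dep hf (min k n)).measurable).enorm

lemma exists_limit {f : ℕ → G → ℝ} (hf : Martingale f dyadic mu) (p : ℝ) (hp0 : 0 < p)
    (hmod : Tendsto (modulus p f) atTop (𝓝 0)) :
    ∃ g : G → ℝ, Measurable g ∧ ∀ᵐ x ∂mu, Tendsto (fun n => f n x) atTop (𝓝 (g x)) := by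
  apply measurable_limit_of_tendsto_metrizable_ae (fun n => (mart_dep hf n).measurable.aemeasurable)
  have h1 : ∫⁻ x, (⨅ n, (osc f n x) ^ p) ∂mu = 0 := by
    apply le_antisymm _ zero_le
    have h2 : ∀ n, ∫⁻ x, (⨅ n, (osc f n x) ^ p) ∂mu ≤ (modulus p f n) ^ p := by
      intro n
      rw [modulus_rpow p hp0]
      apply lintegral_mono
      intro x
      exact iInf_le _ n
    have h3 := hmod.ennrpow_const p
    rw [ENNReal.zero_rpow_of_pos hp0] at h3
    exact ge_of_tendsto' h3 h2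
  rw [lintegral_eq_zero_iff (Measurable.iInf (fun n => (measurable_osc hf n).pow_const p))] at h1
  filter_upwards [h1] with x hx
  apply cauchySeq_tendsto_of_complete
  rw [Metric.cauchySeq_iff']
  intro ε hε
  have hx' : (⨅ n, (osc f n x) ^ p) < (ENNReal.ofReal ε) ^ p := by
    have : (⨅ n, (osc f n x) ^ p) = 0 := hx
    rw [this]
    exact ENNReal.rpow_pos (ENNReal.ofReal_pos.2 hε) ENNReal.ofReal_ne_top
  obtain ⟨n, hn⟩ := iInf_lt_iff.1 hx'
  have hn' : osc f n x < ENNReal.ofReal ε := (ENNReal.rpow_lt_rpow_iff hp0).1 hn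
  refine ⟨n, fun k hk => ?_⟩
  have h4 : ‖f k x - f (min k n) x‖ₑ < ENNReal.ofReal ε :=
    lt_of_le_of_lt (le_iSup (fun k => ‖f k x - f (min k n) x‖ₑ) k) hn'
  rw [min_eq_right hk, Real.enorm_eq_ofReal_abs] at h4
  rw [Real.dist_eq]
  exact (ENNReal.ofReal_lt_ofReal_iff hε).1 h4

lemma logMean_measurable {f : ℕ → G → ℝ} (N : ℕ) : Measurable (logMean N f) := by
  have e : logMean N f = logMart N f N := by
    funext x; exact logMean_eq N f N Nat.lt_two_pow_self.le x
  have e2 : logMart N f N = fun x => (1 / hn N) *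
      ∑ i ∈ Finset.range (2^N), hn (N-1-i) * (coef f i * walsh i x) := by
    funext x; exact logMart_eq N f N x
  rw [e, e2]
  apply Measurable.const_mul
  apply Finset.measurable_fun_sum
  intro i _
  exact ((measurable_walsh i).const_mul _).const_mul _

lemma lpNorm_logMean_le {f : ℕ → G → ℝ} (p : ℝ) (hp0 : 0 < p) (g : G → ℝ)
    (hlim : ∀ᵐ x ∂mu, Tendsto (fun n => f n x) atTop (𝓝 (g x))) (N : ℕ) :
    lpNorm p (fun x => logMean N f x - g x) ≤
      hpNorm p (fun m x => logMart N f m x - f m x) := by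
  unfold lpNorm hpNorm
  apply ENNReal.rpow_le_rpow _ (by positivity)
  apply lintegral_mono_ae
  filter_upwards [hlim] with x hx
  apply ENNReal.rpow_le_rpow _ hp0.le
  have h1 : Tendsto (fun m => ‖logMart N f m x - f m x‖ₑ) atTop (𝓝 ‖logMean N f x - g x‖ₑ) := by
    apply Tendsto.enorm
    apply Tendsto.sub _ hx
    apply tendsto_const_nhds.congr'
    filter_upwards [eventually_ge_atTop N] with m hm
    exact logMean_eq N f m (Nat.lt_two_pow_self.le.trans (Nat.pow_le_pow_right (by norm_num) hm)) x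
  exact le_of_tendsto' h1 (fun m => le_iSup (fun m => ‖logMart N f m x - f m x‖ₑ) m)

end Pool.Agent.V1193.Walsh
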