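import Pool.Agent.V1193.WalshWeakC

/-! Convergence for `p = 1`. -/

open MeasureTheory ProbabilityTheory Filter Topology
open scoped ENNReal

namespace Pool.Agent.V1193.Walsh

lemma integral_dep_walsh {m : ℕ} {g : G → ℝ} (hg : Dep m g) (i : ℕ) (hi : 2^m ≤ i) :
    ∫ x, g x * walsh i x ∂mu = 0 := by
  obtain ⟨l, hl, hb⟩ := exists_testBit_ge i m hi
  apply integral_odd l
  · exact hg.measurable.mul (measurable_walsh i)
  · intro x
    rw [hg.flip_inv hl, walsh_flip, if_pos hb]; ring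

/-- difference of two levels of `L_N f` as a convolution -/
lemma logMart_sub {f : ℕ → G → ℝ} (hf : Martingale f dyadic mu) (N m M : ℕ) (h : m ≤ M) (x : G) :
    logMart N f M x - logMart N f m x =
      1 / hn N * conv (fun x => f M x - f m x) (D M (lc N)) x := by
  have hd : Dep M (fun x => f M x - f m x) :=
    (mart_dep hf M).comp₂ ((mart_dep hf m).mono h) (fun a b => a - b)
  rw [conv_D hd, logMart_eq, logMart_eq, ← mul_sub]
  congr 1
  have hsub : Finset.range (2^m) ⊆ Finset.range (2^M) :=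
    Finset.range_mono (Nat.pow_le_pow_right (by norm_num) h)
  have e1 : ∑ i ∈ Finset.range (2^m), hn (N-1-i) * (coef f i * walsh i x) =
      ∑ i ∈ Finset.range (2^M), lc N i * ((∫ y, f m y * walsh i y ∂mu) * walsh i x) := by
    rw [← Finset.sum_subset hsub]
    · apply Finset.sum_congr rfl
      intro i hi
      rw [coef_eq hf m i (Finset.mem_range.1 hi)]
      rfl
    · intro i _ hi
      simp only [Finset.mem_range, not_lt] at hi
      rw [integral_dep_walsh (mart_dep hf m) i hi]; ring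
  rw [e1, ← Finset.sum_sub_distrib]
  apply Finset.sum_congr rfl
  intro i hi
  have hi' := Finset.mem_range.1 hi
  have e2 : ∫ y, (f M y - f m y) * walsh i y ∂mu =
      coef f i - ∫ y, f m y * walsh i y ∂mu := by
    rw [coef_eq hf M i hi', ← integral_sub]
    · congr 1; funext y; ring
    · exact ((mart_dep hf M).comp₂ (dep_walsh i M hi') (fun a b => a * b)).integrable
    · exact (((mart_dep hf m).mono h).comp₂ (dep_walsh i M hi') (fun a b => a * b)).integrable
  rw [e2]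
  unfold lc
  ring

lemma hn_tendsto_ratio (i : ℕ) :
    Tendsto (fun N : ℕ => (hn (N-1-i) - hn N) / hn N) atTop (𝓝 0) := by
  -- |..| ≤ (i+1)/(N-i)
  have h1 : Tendsto (fun N : ℕ => ((i:ℝ)+1) / ((N - i : ℕ):ℝ)) atTop (𝓝 0) := by
    apply tendsto_const_nhds.div_atTop
    exact tendsto_natCast_atTop_atTop.comp (tendsto_sub_atTop_nat i)
  apply squeeze_zero_norm' _ h1
  filter_upwards [eventually_gt_atTop (i+1)] with N hN
  have hN0 : 0 < N := by omega
  have hpos := hn_pos hN0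
  have h1N : 1 ≤ hn N := by
    have := hn_mono (show 1 ≤ N by omega)
    rwa [hn_one] at this
  obtain ⟨u, hu⟩ : ∃ u, N = u + (i+1) := ⟨N - (i+1), by omega⟩
  have e : N - 1 - i = u := by omega
  rw [e]
  have h2 := hn_add_le u (i+1)
  rw [← hu] at h2
  have h3 : hn u ≤ hn N := hn_mono (by omega)
  rw [Real.norm_eq_abs, abs_div, abs_sub_comm, abs_of_nonneg (sub_nonneg.2 h3),
    abs_of_pos hpos]
  have e2 : ((N - i : ℕ):ℝ) = (u:ℝ)+1 := by
    rw [show N - i = u + 1 by omega]; push_cast; ring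
  rw [e2]
  calc (hn N - hn u) / hn N ≤ (hn N - hn u) / 1 :=
        div_le_div_of_nonneg_left (sub_nonneg.2 h3) (by norm_num) h1N
    _ = hn N - hn u := div_one _
    _ ≤ _ := by push_cast at h2; exact h2

lemma dfm_lintegral_tendsto {f : ℕ → G → ℝ} (hf : Martingale f dyadic mu) (m : ℕ) :
    Tendsto (fun N => ∫⁻ x, ‖dfm N f m x‖ₑ ∂mu) atTop (𝓝 0) := by
  set B : ℕ → ℝ := fun N => ∑ i ∈ Finset.range (2^m), |(hn (N-1-i) - hn N) / hn N| * |coef f i|
    with hB
  have hB0 : Tendsto B atTop (𝓝 0) := by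
    have : Tendsto B atTop (𝓝 (∑ i ∈ Finset.range (2^m), |(0:ℝ)| * |coef f i|)) := by
      apply tendsto_finsetSum
      intro i _
      exact (hn_tendsto_ratio i).abs.mul_const _
    simpa using this
  have h1 : Tendsto (fun N => ENNReal.ofReal (B N)) atTop (𝓝 0) := by
    have := ENNReal.tendsto_ofReal hB0
    rwa [ENNReal.ofReal_zero] at this
  refine tendsto_of_tendsto_of_tendsto_of_le_of_le' tendsto_const_nhds h1
    (Eventually.of_forall fun _ => zero_le) ?_
  filter_upwards [eventually_gt_atTop 0] with N hN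
  have hpt : ∀ x, ‖dfm N f m x‖ₑ ≤ ENNReal.ofReal (B N) := by
    intro x
    rw [Real.enorm_eq_ofReal_abs]
    apply ENNReal.ofReal_le_ofReal
    rw [dfm_eq hf N m hN, Finset.mul_sum]
    refine (Finset.abs_sum_le_sum_abs _ _).trans ?_
    apply Finset.sum_le_sum
    intro i _
    rw [abs_mul, abs_mul, abs_mul, abs_walsh, mul_one, abs_div, abs_div, abs_one]
    apply le_of_eq; ring
  calc ∫⁻ x, ‖dfm N f m x‖ₑ ∂mu ≤ ∫⁻ x, ENNReal.ofReal (B N) ∂mu := lintegral_mono hpt
    _ = ENNReal.ofReal (B N) := by simp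

lemma dep_logMart (N : ℕ) (f : ℕ → G → ℝ) (m : ℕ) : Dep m (logMart N f m) := by
  intro x y h
  rw [logMart_eq, logMart_eq]
  congr 1
  apply Finset.sum_congr rfl
  intro i hi
  rw [dep_walsh i m (Finset.mem_range.1 hi) x y h]

/-- Weak `L_1` bound for the deviation. -/
lemma weak_dev {f : ℕ → G → ℝ} (hf : Martingale f dyadic mu) {g : G → ℝ} (hg : Measurable g)
    (hlim : ∀ᵐ x ∂mu, Tendsto (fun n => f n x) atTop (𝓝 (g x))) (N n m : ℕ) (hN1 : 2^n ≤ N)
    (hN2 : N < 2^(n+1)) (hm : m ≤ n+1) :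
    weakNorm 1 (fun x => logMean N f x - g x) ≤
      4 * ∫⁻ x, ‖dfm N f m x‖ₑ ∂mu + 52 * modulus 1 f m := by
  -- the three pieces
  have hmod : ∫⁻ x, osc f m x ∂mu = modulus 1 f m := by
    have := modulus_rpow 1 one_pos f m
    simpa using this.symm
  have hosc_g : ∀ᵐ x ∂mu, ‖f m x - g x‖ₑ ≤ osc f m x := by
    filter_upwards [hlim] with x hx
    have h1 : Tendsto (fun k => ‖f m x - f k x‖ₑ) atTop (𝓝 ‖f m x - g x‖ₑ) :=
      (tendsto_const_nhds.sub hx).enorm
    refine le_of_tendsto h1 ?_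
    filter_upwards [eventually_ge_atTop m] with k hk
    rw [← enorm_neg, neg_sub]
    refine le_trans (le_of_eq ?_) (le_iSup (fun k => ‖f k x - f (min k m) x‖ₑ) k)
    rw [min_eq_right hk]
  have h2 : ∫⁻ x, ‖f m x - g x‖ₑ ∂mu ≤ modulus 1 f m := by
    rw [← hmod]; exact lintegral_mono_ae hosc_g
  have h3 : ∫⁻ x, ‖f (n+1) x - f m x‖ₑ ∂mu ≤ modulus 1 f m := by
    rw [← hmod]
    apply lintegral_mono
    intro x
    refine le_trans (le_of_eq ?_) (le_iSup (fun k => ‖f k x - f (min k m) x‖ₑ) (n+1))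
    rw [min_eq_right hm]
  have hdd : Dep (n+1) (fun x => f (n+1) x - f m x) :=
    (mart_dep hf (n+1)).comp₂ ((mart_dep hf m).mono hm) (fun a b => a - b)
  unfold weakNorm
  rw [one_div_one, ENNReal.rpow_one]
  apply iSup_le
  rintro ⟨l, hl⟩
  rw [ENNReal.rpow_one]
  have hsub : {x | l < |logMean N f x - g x|} ⊆
      ({x | ENNReal.ofReal (l/4) ≤ ‖dfm N f m x‖ₑ} ∪
        {x | 2*(l/4) ≤ |1 / hn N * conv (fun x => f (n+1) x - f m x) (D (n+1) (lc N)) x|}) ∪
        {x | ENNReal.ofReal (l/4) ≤ ‖f m x - g x‖ₑ} := by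
    intro x hx
    by_contra hc
    simp only [Set.mem_union, Set.mem_ofPred_eq, not_or, not_le] at hc hx
    obtain ⟨⟨h4, h5⟩, h6⟩ := hc
    rw [Real.enorm_eq_ofReal_abs, ENNReal.ofReal_lt_ofReal_iff (by positivity)] at h4 h6
    rw [← logMart_sub hf N m (n+1) hm x] at h5
    rw [logMean_eq N f (n+1) hN2.le x] at hx
    have e : logMart N f (n+1) x - g x = dfm N f m x +
        (logMart N f (n+1) x - logMart N f m x) + (f m x - g x) := by
      unfold dfm; ring
    rw [e] at hx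
    have h7 := abs_add_le (dfm N f m x + (logMart N f (n+1) x - logMart N f m x)) (f m x - g x)
    have h8 := abs_add_le (dfm N f m x) (logMart N f (n+1) x - logMart N f m x)
    linarith
  have hdfd : Dep m (dfm N f m) := (dep_logMart N f m).comp₂ (mart_dep hf m) (fun a b => a - b)
  have hA := mul_meas_ge_le_lintegral (μ := mu) hdfd.measurable.enorm (ENNReal.ofReal (l/4))
  have hB := weak_log N n hN1 hN2 hdd (l/4) (by positivity)
  have hC := mul_meas_ge_le_lintegral (μ := mu)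
    (((mart_dep hf m).measurable.sub hg).enorm) (ENNReal.ofReal (l/4))
  have e4 : ENNReal.ofReal l = 4 * ENNReal.ofReal (l/4) := by
    rw [show (4:ℝ≥0∞) = ENNReal.ofReal 4 by norm_num, ← ENNReal.ofReal_mul (by norm_num)]
    congr 1; ring
  calc ENNReal.ofReal l * mu {x | l < |logMean N f x - g x|}
      ≤ ENNReal.ofReal l * ((mu {x | ENNReal.ofReal (l/4) ≤ ‖dfm N f m x‖ₑ} +
        mu {x | 2*(l/4) ≤ |1 / hn N * conv (fun x => f (n+1) x - f m x) (D (n+1) (lc N)) x|}) +
        mu {x | ENNReal.ofReal (l/4) ≤ ‖f m x - g x‖ₑ}) := by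
        gcongr
        refine (measure_mono hsub).trans ((measure_union_le _ _).trans ?_)
        gcongr
        exact measure_union_le _ _
    _ = 4 * (ENNReal.ofReal (l/4) * mu {x | ENNReal.ofReal (l/4) ≤ ‖dfm N f m x‖ₑ}) +
        4 * (ENNReal.ofReal (l/4) *
          mu {x | 2*(l/4) ≤ |1 / hn N * conv (fun x => f (n+1) x - f m x) (D (n+1) (lc N)) x|}) +
        4 * (ENNReal.ofReal (l/4) * mu {x | ENNReal.ofReal (l/4) ≤ ‖f m x - g x‖ₑ}) := by
        rw [e4]; ring
    _ ≤ 4 * (∫⁻ x, ‖dfm N f m x‖ₑ ∂mu) + 4 * (12 * modulus 1 f m) + 4 * modulus 1 f m := by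
        exact add_le_add (add_le_add (mul_le_mul' le_rfl hA)
          (mul_le_mul' le_rfl (hB.trans (mul_le_mul' le_rfl h3))))
          (mul_le_mul' le_rfl (hC.trans h2))
    _ = _ := by ring

/-- Convergence in weak-`L_1`. -/
theorem weak_one_tendsto {f : ℕ → G → ℝ} (hf : Martingale f dyadic mu) {g : G → ℝ}
    (hg : Measurable g) (hlim : ∀ᵐ x ∂mu, Tendsto (fun n => f n x) atTop (𝓝 (g x)))
    (hmod : Tendsto (modulus 1 f) atTop (𝓝 0)) :
    Tendsto (fun N => weakNorm 1 (fun x => logMean N f x - g x)) atTop (𝓝 0) := by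
  rw [ENNReal.tendsto_nhds_zero]
  intro ε hε
  have h1 : Tendsto (fun m => 52 * modulus 1 f m) atTop (𝓝 0) := by
    have := ENNReal.Tendsto.const_mul (a := 52) hmod (Or.inr (by norm_num))
    rwa [mul_zero] at this
  have hε2 : 0 < ε/2 := ENNReal.half_pos hε.ne'
  obtain ⟨m, hm⟩ := ((ENNReal.tendsto_nhds_zero.1 h1) (ε/2) hε2).exists
  have h2 : Tendsto (fun N => 4 * ∫⁻ x, ‖dfm N f m x‖ₑ ∂mu) atTop (𝓝 0) := by
    have := ENNReal.Tendsto.const_mul (a := 4) (dfm_lintegral_tendsto hf m) (Or.inr (by norm_num))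
    rwa [mul_zero] at this
  filter_upwards [(ENNReal.tendsto_nhds_zero.1 h2) (ε/2) hε2, eventually_ge_atTop (2^m)] with N hN hN'
  have hN0 : N ≠ 0 := by have := Nat.one_le_two_pow (n := m); omega
  have hlog : m ≤ Nat.log 2 N := Nat.le_log_of_pow_le (by norm_num) hN'
  calc weakNorm 1 (fun x => logMean N f x - g x)
      ≤ 4 * ∫⁻ x, ‖dfm N f m x‖ₑ ∂mu + 52 * modulus 1 f m :=
        weak_dev hf hg hlim N (Nat.log 2 N) m (Nat.pow_log_le_self 2 hN0)
          (Nat.lt_pow_succ_log_self (by norm_num) N) (by omega)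
    _ ≤ ε/2 + ε/2 := add_le_add hN hm
    _ = ε := ENNReal.add_halves ε

end Pool.Agent.V1193.Walsh
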