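import Pool.Agent.V1193.WalshLogD

/-! A martingale with modulus `O(n / 2^{n(1/p-1)})` whose logarithmic means do not converge. -/

open MeasureTheory ProbabilityTheory Filter Topology
open scoped ENNReal

namespace Pool.Agent.V1193.Walsh

lemma dep_measurableSet {n : ℕ} {A : Set G} (hA : ∀ x y : G, (∀ j < n, x j = y j) → (x ∈ A ↔ y ∈ A)) :
    MeasurableSet[dyadic n] A := by
  let ext : (Fin n → Bool) → G := fun u j => if h : j < n then u ⟨j, h⟩ else false
  have key : A = ⋃ (u : Fin n → Bool) (_ : ext u ∈ A), cyl n (ext u) := by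
    ext x
    simp only [Set.mem_iUnion, exists_prop]
    have hx : ∀ j < n, x j = ext (fun j => x j) j := by
      intro j hj; simp [ext, hj]
    constructor
    · intro h
      exact ⟨fun j => x j, (hA _ _ hx).1 h, hx⟩
    · rintro ⟨u, hu, hxu⟩
      exact (hA x (ext u) hxu).2 hu
  rw [key]
  exact MeasurableSet.iUnion fun u => MeasurableSet.iUnion fun _ =>
    MeasurableSpace.measurableSet_generateFrom ⟨_, rfl⟩

lemma dep_measurable' {n : ℕ} {g : G → ℝ} (hg : Dep n g) : Measurable[dyadic n] g := by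
  intro B _
  apply dep_measurableSet
  intro x y h
  simp only [Set.mem_preimage, hg x y h]

/-- martingales from their differences -/
lemma mart_of (a : ℕ → G → ℝ) (ha : ∀ n, Dep n (a n)) :
    Martingale (fun n x => ∑ m ∈ Finset.range n, rad m x * a m x) dyadic mu := by
  have hdep : ∀ n, Dep n (fun x => ∑ m ∈ Finset.range n, rad m x * a m x) := by
    intro n x y h
    apply Finset.sum_congr rfl
    intro m hm
    have hm' := Finset.mem_range.1 hm
    rw [(dep_rad m).mono (show m+1 ≤ n by omega) x y h, (ha m).mono (show m ≤ n by omega) x y h]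
  apply martingale_of_setIntegral_eq_succ _ (fun n => (hdep n).integrable)
  · intro n s hs
    have hs' : MeasurableSet s := dyadic.le n s hs
    have e : ∀ x, ∑ m ∈ Finset.range (n+1), rad m x * a m x =
        (∑ m ∈ Finset.range n, rad m x * a m x) + rad n x * a n x := by
      intro x; rw [Finset.sum_range_succ]
    simp only [e]
    have hd2 : Dep (n+1) (fun x => rad n x * a n x) :=
      (dep_rad n).comp₂ ((ha n).mono (Nat.le_succ n)) (fun a b => a * b)
    rw [integral_add (hdep n).integrable.integrableOn hd2.integrable.integrableOn]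
    have : ∫ x in s, rad n x * a n x ∂mu = 0 := by
      rw [← integral_indicator hs']
      apply integral_odd n
      · exact hd2.measurable.indicator hs'
      · intro x
        have hf := flip_mem_dyadic n n le_rfl s hs x
        by_cases hx : x ∈ s
        · rw [Set.indicator_of_mem hx, Set.indicator_of_mem (hf.2 hx), rad_flip_same,
            (ha n).flip_inv le_rfl]
          ring
        · rw [Set.indicator_of_notMem hx, Set.indicator_of_notMem (fun h => hx (hf.1 h))]
          ring
    rw [this, add_zero]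
  · intro n
    exact (dep_measurable' (hdep n)).stronglyMeasurable

/-- the weights: `m` at the powers of two -/
noncomputable def ew (m : ℕ) : ℝ := if 2^(Nat.log 2 m) = m then (m:ℝ) else 0

lemma ew_nonneg (m : ℕ) : 0 ≤ ew m := by unfold ew; split <;> positivity
lemma ew_le (m : ℕ) : ew m ≤ m := by
  unfold ew; split
  · exact le_rfl
  · positivity

/-- the example -/
noncomputable def exf (n : ℕ) (x : G) : ℝ :=
  ∑ m ∈ Finset.range n, rad m x * (ew m * D m (fun _ => 1) x)

lemma exf_mart : Martingale exf dyadic mu :=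
  mart_of (fun m x => ew m * D m (fun _ => 1) x)
    (fun m => (dep_D m _).comp (fun a => ew m * a))

lemma exf_hh (m : ℕ) (x : G) : hh exf m x = ew m * D m (fun _ => 1) x := by
  unfold hh exf
  rw [Finset.sum_range_succ, add_sub_cancel_left, ← mul_assoc, rad_sq, one_mul]

lemma exf_zero (x : G) : exf 0 x = 0 := by simp [exf]

lemma exf_diff (k n s : ℕ) (x : G) (hx : x ∈ Z s) :
    |exf k x - exf (min k n) x| ≤ if n ≤ s then (s:ℝ) * 2^(s+1) else 0 := by
  obtain ⟨h1, h2⟩ := mem_Z.1 hx
  rcases le_total k n with hk | hk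
  · rw [min_eq_left hk, sub_self, abs_zero]
    split <;> positivity
  rw [min_eq_right hk]
  obtain ⟨j, rfl⟩ := Nat.exists_eq_add_of_le hk
  unfold exf
  rw [Finset.sum_range_add, add_sub_cancel_left]
  split
  · rename_i hns
    obtain ⟨u, rfl⟩ := Nat.exists_eq_add_of_le hns
    calc |∑ i ∈ Finset.range j, rad (n+i) x * (ew (n+i) * D (n+i) (fun _ => 1) x)|
        ≤ ∑ i ∈ Finset.range j, |rad (n+i) x * (ew (n+i) * D (n+i) (fun _ => 1) x)| :=
          Finset.abs_sum_le_sum_abs _ _
      _ ≤ ∑ i ∈ Finset.range j, (if i < u+1 then ((n+u : ℕ):ℝ) * (2^n * 2^i) else 0) := by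
          apply Finset.sum_le_sum
          intro i _
          rw [abs_mul, abs_rad, one_mul, abs_mul, abs_of_nonneg (ew_nonneg _)]
          by_cases hi : i < u + 1
          · rw [if_pos hi, D_one_in (n+i) x (fun j hj => h1 j (by omega)),
              abs_of_nonneg (by positivity), pow_add]
            apply mul_le_mul_of_nonneg_right _ (by positivity)
            refine (ew_le _).trans ?_
            exact_mod_cast (by omega : n + i ≤ n + u)
          · rw [if_neg hi, D_one_out (n+i) (n+u) x (by omega) h2, abs_zero, mul_zero]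
      _ ≤ ∑ i ∈ Finset.range (j + (u+1)), (if i < u+1 then ((n+u : ℕ):ℝ) * (2^n * 2^i) else 0) := by
          apply Finset.sum_le_sum_of_subset_of_nonneg
          · exact Finset.range_mono (by omega)
          · intro i _ _; split <;> positivity
      _ = ∑ i ∈ Finset.range (u+1), ((n+u : ℕ):ℝ) * (2^n * 2^i) := by
          rw [add_comm j (u+1), Finset.sum_range_add]
          have z : ∑ i ∈ Finset.range j, (if u+1+i < u+1 then ((n+u : ℕ):ℝ) * (2^n * 2^(u+1+i))
              else 0) = 0 := by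
            apply Finset.sum_eq_zero
            intro i _
            rw [if_neg (by omega)]
          rw [z, add_zero]
          apply Finset.sum_congr rfl
          intro i hi
          rw [if_pos (Finset.mem_range.1 hi)]
      _ = ((n+u : ℕ):ℝ) * 2^n * (2^(u+1) - 1) := by
          rw [← Finset.mul_sum, ← Finset.mul_sum, geom_sum_eq (by norm_num)]
          norm_num
          ring
      _ ≤ ((n+u : ℕ):ℝ) * 2^n * 2^(u+1) := by
          apply mul_le_mul_of_nonneg_left _ (by positivity)
          linarith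
      _ = ((n+u : ℕ):ℝ) * 2^(n+u+1) := by ring
  · rename_i hns
    have : ∑ i ∈ Finset.range j, rad (n+i) x * (ew (n+i) * D (n+i) (fun _ => 1) x) = 0 := by
      apply Finset.sum_eq_zero
      intro i _
      rw [D_one_out (n+i) s x (by omega) h2]; ring
    rw [this, abs_zero]

lemma mu_zero : mu {zeroG} = 0 := by
  have h : ∀ n : ℕ, mu {zeroG} ≤ (2⁻¹:ℝ≥0∞)^n := by
    intro n
    rw [← mu_cyl n zeroG]
    apply measure_mono
    intro x hx
    rw [Set.mem_singleton_iff.1 hx]
    exact mem_cyl_self n zeroG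
  have ht : Tendsto (fun n : ℕ => (2⁻¹:ℝ≥0∞)^n) atTop (𝓝 0) :=
    ENNReal.tendsto_pow_atTop_nhds_zero_of_lt_one (by
      rw [ENNReal.inv_lt_one]; norm_num)
  exact le_antisymm (ge_of_tendsto' ht h) zero_le

lemma Z_disjoint : Pairwise (Function.onFun Disjoint Z) := by
  intro s t hst
  rw [Function.onFun, Set.disjoint_left]
  intro x h1 h2
  have a1 := mem_Z.1 h1
  have a2 := mem_Z.1 h2
  rcases lt_or_gt_of_ne hst with h | h
  · have := a2.1 s h; rw [a1.2] at this; exact absurd this (by simp)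
  · have := a1.1 t h; rw [a2.2] at this; exact absurd this (by simp)

lemma lintegral_tsum_Z (F : G → ℝ≥0∞) : ∫⁻ x, F x ∂mu = ∑' s, ∫⁻ x in Z s, F x ∂mu := by
  rw [← lintegral_iUnion (fun s => measurableSet_Z s) Z_disjoint, ← setLIntegral_univ]
  apply setLIntegral_congr
  apply ae_eq_set.2
  constructor
  · refine measure_mono_null ?_ mu_zero
    intro x hx
    rw [Set.mem_singleton_iff]
    by_contra hne
    apply hx.2
    have : ∃ s, x s = true := by
      by_contra hc
      push Not at hc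
      apply hne
      funext j
      have := hc j
      simpa [zeroG] using this
    classical
    refine Set.mem_iUnion.2 ⟨Nat.find this, mem_Z.2 ⟨fun j hj => ?_, Nat.find_spec this⟩⟩
    have := Nat.find_min this hj
    simpa using this
  · simp

/-- constant in the bound of the modulus -/
noncomputable def cE (p : ℝ) : ℝ≥0∞ := ∑' s, tt p s

lemma exf_modulus_pow (p : ℝ) (hp0 : 0 < p) (hp1 : p < 1) (n : ℕ) :
    (modulus p exf n) ^ p ≤
      ENNReal.ofReal (((n:ℝ)+1)^p * (2:ℝ)^(-((n:ℝ)*(1-p)))) * cE p := by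
  rw [modulus_rpow p hp0, lintegral_tsum_Z]
  have h1 : ∀ s, ∫⁻ x in Z s, (osc exf n x) ^ p ∂mu ≤
      if n ≤ s then (2⁻¹:ℝ≥0∞)^(s+1) * ENNReal.ofReal (((s:ℝ) * 2^(s+1))^p) else 0 := by
    intro s
    have hpt : ∀ x ∈ Z s, (osc exf n x) ^ p ≤
        if n ≤ s then ENNReal.ofReal (((s:ℝ) * 2^(s+1))^p) else 0 := by
      intro x hx
      have h2 : osc exf n x ≤ ENNReal.ofReal (if n ≤ s then (s:ℝ) * 2^(s+1) else 0) := by
        apply iSup_le
        intro k
        rw [Real.enorm_eq_ofReal_abs]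
        exact ENNReal.ofReal_le_ofReal (exf_diff k n s x hx)
      refine (ENNReal.rpow_le_rpow h2 hp0.le).trans ?_
      split
      · rw [ENNReal.ofReal_rpow_of_nonneg (by positivity) hp0.le]
      · rw [ENNReal.ofReal_zero, ENNReal.zero_rpow_of_pos hp0]
    refine (setLIntegral_mono' (measurableSet_Z s) hpt).trans ?_
    rw [setLIntegral_const, mu_Z]
    split
    · rw [mul_comm]
    · rw [zero_mul]
  refine (ENNReal.tsum_le_tsum h1).trans ?_
  -- reindex
  have h2 : (∑' s, if n ≤ s then (2⁻¹:ℝ≥0∞)^(s+1) * ENNReal.ofReal (((s:ℝ) * 2^(s+1))^p) else 0) ≤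
      ∑' u, (2⁻¹:ℝ≥0∞)^(n+u+1) * ENNReal.ofReal ((((n+u : ℕ):ℝ) * 2^(n+u+1))^p) := by
    set Fs : ℕ → ℝ≥0∞ := fun s => if n ≤ s then (2⁻¹:ℝ≥0∞)^(s+1) *
      ENNReal.ofReal (((s:ℝ) * 2^(s+1))^p) else 0 with hFs
    have hsum : ∑' s, Fs s = ∑ s ∈ Finset.range n, Fs s + ∑' u, Fs (u + n) :=
      (ENNReal.summable.sum_add_tsum_nat_add' (f := Fs) (k := n)).symm
    rw [hsum]
    simp only [hFs]
    have z : ∑ s ∈ Finset.range n, (if n ≤ s then (2⁻¹:ℝ≥0∞)^(s+1) *
        ENNReal.ofReal (((s:ℝ) * 2^(s+1))^p) else 0) = 0 := by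
      apply Finset.sum_eq_zero
      intro s hs
      rw [if_neg (by have := Finset.mem_range.1 hs; omega)]
    rw [z, zero_add]
    apply ENNReal.tsum_le_tsum
    intro u
    rw [if_pos (by omega), add_comm u n]
  refine h2.trans ?_
  unfold cE
  rw [← ENNReal.tsum_mul_left]
  apply ENNReal.tsum_le_tsum
  intro u
  unfold tt
  have e1 : ∀ j : ℕ, ((2⁻¹:ℝ≥0∞)^j) = ENNReal.ofReal ((1/2)^j) := by
    intro j
    rw [ENNReal.ofReal_pow (by norm_num), one_div, ENNReal.ofReal_inv_of_pos (by norm_num)]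
    norm_num
  rw [e1, e1, ← ENNReal.ofReal_mul (by positivity), ← ENNReal.ofReal_mul (by positivity),
    ← ENNReal.ofReal_mul (by positivity)]
  apply ENNReal.ofReal_le_ofReal
  -- real inequality
  have h3 : (((n+u : ℕ):ℝ) * 2^(n+u+1)) ≤ ((n:ℝ)+1) * 2^n * (6 * (((u:ℝ)+1) * 2^u)) := by
    push_cast
    have hn0 : (0:ℝ) ≤ n := Nat.cast_nonneg n
    have hu0 : (0:ℝ) ≤ u := Nat.cast_nonneg u
    have e2 : (2:ℝ)^(n+u+1) = 2 * (2^n * 2^u) := by ring
    rw [e2]
    have hp : (0:ℝ) < 2^n * 2^u := by positivity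
    have h4 : ((n:ℝ)+u) ≤ ((n:ℝ)+1) * (u+1) := by nlinarith
    calc ((n:ℝ)+u) * (2 * (2^n*2^u)) ≤ (((n:ℝ)+1) * (u+1)) * (2 * (2^n*2^u)) :=
          mul_le_mul_of_nonneg_right h4 (by positivity)
      _ ≤ (((n:ℝ)+1) * (u+1)) * (6 * (2^n*2^u)) := by
          apply mul_le_mul_of_nonneg_left _ (by positivity)
          linarith
      _ = _ := by ring
  have h5 : (((n+u : ℕ):ℝ) * 2^(n+u+1))^p ≤
      ((n:ℝ)+1)^p * ((2:ℝ)^n)^p * (6 * (((u:ℝ)+1) * 2^u))^p := by
    rw [← Real.mul_rpow (by positivity) (by positivity),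
      ← Real.mul_rpow (by positivity) (by positivity)]
    exact Real.rpow_le_rpow (by positivity) h3 hp0.le
  have e6 : (2:ℝ)^(-((n:ℝ)*(1-p))) = (1/2)^n * ((2:ℝ)^n)^p := by
    rw [← Real.rpow_natCast (2:ℝ) n, ← Real.rpow_mul (by norm_num), one_div, inv_pow,
      ← Real.rpow_natCast (2:ℝ) n, ← Real.rpow_neg (by norm_num), ← Real.rpow_add (by norm_num)]
    congr 1; ring
  rw [e6]
  calc (1/2:ℝ)^(n+u+1) * (((n+u : ℕ):ℝ) * 2^(n+u+1))^p
      ≤ (1/2:ℝ)^(n+u) * (((n:ℝ)+1)^p * ((2:ℝ)^n)^p * (6 * (((u:ℝ)+1) * 2^u))^p) := by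
        apply mul_le_mul _ h5 (by positivity) (by positivity)
        exact pow_le_pow_of_le_one (by norm_num) (by norm_num) (by omega)
    _ = _ := by rw [pow_add]; ring

end Pool.Agent.V1193.Walsh
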