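import Pool.Agent.V1193.WalshLogE

/-! The example: lower bound. -/

open MeasureTheory ProbabilityTheory Filter Topology
open scoped ENNReal

namespace Pool.Agent.V1193.Walsh

lemma exf_modulus (p : ℝ) (hp0 : 0 < p) (hp1 : p < 1) (n : ℕ) :
    modulus p exf n ≤
      ENNReal.ofReal (((cE p) ^ (1/p)).toReal * (((n:ℝ)+1) / (2:ℝ)^((n:ℝ)*(1/p-1)))) := by
  have h1 := ENNReal.rpow_le_rpow (exf_modulus_pow p hp0 hp1 n) (show 0 ≤ 1/p by positivity)
  rw [← ENNReal.rpow_mul, mul_one_div_cancel hp0.ne', ENNReal.rpow_one,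
    ENNReal.mul_rpow_of_nonneg _ _ (by positivity), ENNReal.ofReal_rpow_of_nonneg (by positivity)
      (by positivity), Real.mul_rpow (by positivity) (by positivity), ← Real.rpow_mul (by positivity),
    mul_one_div_cancel hp0.ne', Real.rpow_one, ← Real.rpow_mul (by norm_num)] at h1
  have hfin : (cE p) ^ (1/p) ≠ ∞ := (ENNReal.rpow_lt_top_of_nonneg (by positivity)
    (tt_sum p hp0 hp1)).ne
  rw [ENNReal.ofReal_mul ENNReal.toReal_nonneg, ENNReal.ofReal_toReal hfin, mul_comm]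
  refine h1.trans (le_of_eq ?_)
  congr 2
  have e1 : ((n:ℝ)+1) / (2:ℝ)^((n:ℝ)*(1/p-1)) = ((n:ℝ)+1) * (2:ℝ)^(-((n:ℝ)*(1/p-1))) := by
    rw [Real.rpow_neg (by norm_num), div_eq_mul_inv]
  rw [e1]
  congr 2
  field_simp

lemma exf_modulus_tendsto (p : ℝ) (hp0 : 0 < p) (hp1 : p < 1) :
    Tendsto (modulus p exf) atTop (𝓝 0) := by
  have hκ : 0 < 1/p - 1 := by rw [sub_pos, lt_div_iff₀ hp0]; linarith
  have hr : 1 < (2:ℝ)^(1/p-1) := Real.one_lt_rpow (by norm_num) hκ
  have h1 := tendsto_pow_const_div_const_pow_of_one_lt 1 hr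
  have h2 := tendsto_pow_const_div_const_pow_of_one_lt 0 hr
  have h3 := (h1.add h2).const_mul ((cE p) ^ (1/p)).toReal
  rw [add_zero, mul_zero] at h3
  have h4 := ENNReal.tendsto_ofReal h3
  rw [ENNReal.ofReal_zero] at h4
  refine tendsto_of_tendsto_of_tendsto_of_le_of_le tendsto_const_nhds h4 (fun _ => zero_le) ?_
  intro n
  refine (exf_modulus p hp0 hp1 n).trans (le_of_eq ?_)
  congr 2
  rw [mul_comm (n:ℝ), Real.rpow_mul (by norm_num), Real.rpow_natCast]
  simp only [pow_one, pow_zero]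
  rw [← add_div]

lemma exf_hpNorm (p : ℝ) (hp0 : 0 < p) (hp1 : p < 1) : hpNorm p exf < ∞ := by
  have : hpNorm p exf = modulus p exf 0 := by
    unfold modulus
    congr 1
    funext k x
    rw [Nat.min_zero, exf_zero, sub_zero]
  rw [this]
  exact lt_of_le_of_lt (exf_modulus p hp0 hp1 0) ENNReal.ofReal_lt_top

lemma exf_dfm_zero (N : ℕ) (hN : 0 < N) (x : G) : dfm N exf 0 x = 0 := by
  rw [dfm_eq exf_mart N 0 hN]
  have : coef exf 0 = 0 := by
    rw [coef_eq exf_mart 0 0 (by norm_num)]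
    simp [exf_zero]
  simp [this]

lemma exf_dfm_sum (N : ℕ) (hN : 0 < N) (M : ℕ) (x : G) :
    ‖dfm N exf M x‖ₑ ≤
      ∑ m ∈ Finset.range M, ‖(1 / hn N) * conv (hh exf m) (D m (kerc N m)) x‖ₑ := by
  induction M with
  | zero => rw [exf_dfm_zero N hN]; simp
  | succ M ih =>
    rw [dfm_succ exf_mart N M hN, Finset.sum_range_succ]
    refine (enorm_add_le _ _).trans (add_le_add ih (le_of_eq ?_))
    rw [enorm_mul, enorm_mul, enorm_mul]
    have : ‖rad M x‖ₑ = 1 := by rw [Real.enorm_eq_ofReal_abs, abs_rad]; simp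
    rw [this, one_mul]

lemma exf_hh_norm (p : ℝ) (hp0 : 0 < p) (m : ℕ) :
    ((2:ℝ≥0∞)^m) ^ (1-p) * ∫⁻ x, ‖hh exf m x‖ₑ ^ p ∂mu = ENNReal.ofReal (ew m ^ p) := by
  have e1 : ∀ x, ‖hh exf m x‖ₑ ^ p =
      (cyl m zeroG).indicator (fun _ => ENNReal.ofReal (ew m ^ p) * ((2:ℝ≥0∞)^m) ^ p) x := by
    intro x
    rw [exf_hh, D_one]
    by_cases hx : x ∈ cyl m zeroG
    · rw [Set.indicator_of_mem hx, Set.indicator_of_mem hx, Real.enorm_eq_ofReal_abs,
        abs_of_nonneg (mul_nonneg (ew_nonneg m) (by positivity)),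
        ENNReal.ofReal_mul (ew_nonneg m), ENNReal.mul_rpow_of_nonneg _ _ hp0.le,
        ENNReal.ofReal_rpow_of_nonneg (ew_nonneg m) hp0.le, ENNReal.ofReal_pow (by norm_num)]
      norm_num
    · rw [Set.indicator_of_notMem hx, Set.indicator_of_notMem hx, mul_zero, enorm_zero,
        ENNReal.zero_rpow_of_pos hp0]
  simp only [e1]
  rw [lintegral_indicator (measurableSet_cyl _ _), setLIntegral_const, mu_cyl]
  have e2 : ((2:ℝ≥0∞)^m) ^ (1-p) * ((2:ℝ≥0∞)^m) ^ p = (2:ℝ≥0∞)^m := by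
    rw [← ENNReal.rpow_add _ _ (by positivity) (by simp), sub_add_cancel, ENNReal.rpow_one]
  calc ((2:ℝ≥0∞)^m) ^ (1-p) * (ENNReal.ofReal (ew m ^ p) * ((2:ℝ≥0∞)^m) ^ p * (2⁻¹)^m)
      = ENNReal.ofReal (ew m ^ p) * ((((2:ℝ≥0∞)^m) ^ (1-p) * ((2:ℝ≥0∞)^m) ^ p) * (2⁻¹)^m) := by ring
    _ = _ := by
        rw [e2, ← mul_pow, ENNReal.mul_inv_cancel (by norm_num) (by norm_num), one_pow, mul_one]

lemma ew_zero_of {K m : ℕ} {j : ℕ} (hK : K = 2^j) (h1 : K < m) (h2 : m < 2*K) : ew m = 0 := by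
  unfold ew
  rw [if_neg]
  intro h
  rw [← h, hK] at h1
  rw [← h, hK, ← pow_succ'] at h2
  have a1 := (Nat.pow_lt_pow_iff_right (by norm_num : 1 < 2)).1 h1
  have a2 := (Nat.pow_lt_pow_iff_right (by norm_num : 1 < 2)).1 h2
  omega

/-- the lower part converges -/
lemma exf_A (p : ℝ) (hp0 : 0 < p) (hp1 : p < 1) (j : ℕ) (N : ℕ) (hN1 : 2^(2*2^j) ≤ N)
    (hN2 : N < 2^(2*2^j+1)) :
    ∫⁻ x, ‖dfm N exf (2*2^j) x‖ₑ ^ p ∂mu ≤
      cE p * ENNReal.ofReal (2^p) * ENNReal.ofReal (2 * (((2^j : ℕ):ℝ) * ((1/2:ℝ)^p)^(2^j))) := by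
  set K := 2^j with hK
  have hN : 0 < N := lt_of_lt_of_le (by positivity) hN1
  have hpos := hn_pos hN
  have hd : ∀ m, Dep m (conv (hh exf m) (D m (kerc N m))) := fun m => dep_conv (dep_D m _)
  calc ∫⁻ x, ‖dfm N exf (2*K) x‖ₑ ^ p ∂mu
      ≤ ∫⁻ x, ∑ m ∈ Finset.range (2*K),
          ‖(1 / hn N) * conv (hh exf m) (D m (kerc N m)) x‖ₑ ^ p ∂mu := by
        apply lintegral_mono
        intro x
        exact (ENNReal.rpow_le_rpow (exf_dfm_sum N hN (2*K) x) hp0.le).trans
          (rpow_sum_le _ _ p hp0 hp1.le)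
    _ = ∑ m ∈ Finset.range (2*K),
          ∫⁻ x, ‖(1 / hn N) * conv (hh exf m) (D m (kerc N m)) x‖ₑ ^ p ∂mu := by
        rw [lintegral_finsetSum]
        intro m _
        exact (((hd m).comp (fun a => (1 / hn N) * a)).measurable.enorm.pow_const p)
    _ ≤ ∑ m ∈ Finset.range (2*K),
          cE p * ENNReal.ofReal (2^p) * ENNReal.ofReal (((1/2:ℝ)^p)^K) := by
        apply Finset.sum_le_sum
        intro m hm
        have hm' := Finset.mem_range.1 hm
        have e1 : ∀ x, ‖(1 / hn N) * conv (hh exf m) (D m (kerc N m)) x‖ₑ ^ p =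
            (ENNReal.ofReal (1 / hn N)) ^ p * ‖conv (hh exf m) (D m (kerc N m)) x‖ₑ ^ p := by
          intro x
          rw [enorm_mul, ENNReal.mul_rpow_of_nonneg _ _ hp0.le, Real.enorm_eq_ofReal_abs (1 / hn N),
            abs_of_pos (one_div_pos.2 hpos)]
        simp only [e1]
        rw [lintegral_const_mul _ ((hd m).measurable.enorm.pow_const p)]
        have hb := conv_bound (hh_dep exf_mart m) (dep_D m (kerc N m)) p hp0 hp1.le
        have hk := kernel_bound p hp0 hp1 m (2*K-m) N (by rw [show m + (2*K-m) = 2*K by omega]; exact hN1)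
          (by rw [show m + (2*K-m) + 1 = 2*K+1 by omega]; exact hN2)
        have h2 : ∫⁻ x, ‖conv (hh exf m) (D m (kerc N m)) x‖ₑ ^ p ∂mu ≤
            ENNReal.ofReal (ew m ^ p) * (cE p * ENNReal.ofReal (((1/2:ℝ)^(2*K-m)) ^ p)) := by
          refine hb.trans ?_
          rw [← mul_assoc, exf_hh_norm p hp0 m]
          gcongr
          exact hk
        refine (mul_le_mul' le_rfl h2).trans ?_
        rcases Nat.lt_or_ge K m with hmK | hmK
        · rw [ew_zero_of hK hmK hm', Real.zero_rpow hp0.ne', ENNReal.ofReal_zero, zero_mul, mul_zero]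
          exact zero_le
        · have h3 : ENNReal.ofReal (1 / hn N) ^ p * ENNReal.ofReal (ew m ^ p) ≤
              ENNReal.ofReal (2^p) := by
            rw [ENNReal.ofReal_rpow_of_nonneg (by positivity) hp0.le,
              ← ENNReal.ofReal_mul (by positivity)]
            apply ENNReal.ofReal_le_ofReal
            rw [← Real.mul_rpow (by positivity) (ew_nonneg m)]
            apply Real.rpow_le_rpow (mul_nonneg (by positivity) (ew_nonneg m)) _ hp0.le
            have h4 := hn_two_pow_ge (2*K)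
            have h5 := hn_mono hN1
            have h6 : (m:ℝ) ≤ K := by exact_mod_cast hmK
            have h7 := ew_le m
            push_cast at h4
            rw [one_div, ← div_eq_inv_mul, div_le_iff₀ hpos]
            linarith
          have h8 : ENNReal.ofReal (((1/2:ℝ)^(2*K-m)) ^ p) ≤ ENNReal.ofReal (((1/2:ℝ)^p)^K) := by
            apply ENNReal.ofReal_le_ofReal
            have e2 : ((1/2:ℝ)^p)^K = ((1/2:ℝ)^K)^p := by
              rw [← Real.rpow_natCast, ← Real.rpow_natCast, ← Real.rpow_mul (by norm_num),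
                ← Real.rpow_mul (by norm_num), mul_comm]
            rw [e2]
            apply Real.rpow_le_rpow (by positivity) _ hp0.le
            exact pow_le_pow_of_le_one (by norm_num) (by norm_num) (by omega)
          calc ENNReal.ofReal (1 / hn N) ^ p * (ENNReal.ofReal (ew m ^ p) *
                (cE p * ENNReal.ofReal (((1/2:ℝ)^(2*K-m)) ^ p)))
              = (ENNReal.ofReal (1 / hn N) ^ p * ENNReal.ofReal (ew m ^ p)) *
                (cE p * ENNReal.ofReal (((1/2:ℝ)^(2*K-m)) ^ p)) := by ring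
            _ ≤ ENNReal.ofReal (2^p) * (cE p * ENNReal.ofReal (((1/2:ℝ)^p)^K)) := by gcongr
            _ = _ := by ring
    _ = _ := by
        rw [Finset.sum_const, Finset.card_range, nsmul_eq_mul, ← ENNReal.ofReal_natCast]
        rw [show ENNReal.ofReal ((2*K : ℕ):ℝ) * (cE p * ENNReal.ofReal (2^p) *
          ENNReal.ofReal (((1/2:ℝ)^p)^K)) = cE p * ENNReal.ofReal (2^p) *
            (ENNReal.ofReal ((2*K : ℕ):ℝ) * ENNReal.ofReal (((1/2:ℝ)^p)^K)) by ring,
          ← ENNReal.ofReal_mul (by positivity)]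
        congr 2
        push_cast; ring

lemma ew_pow (i : ℕ) : ew (2^i) = ((2^i : ℕ):ℝ) := by
  unfold ew
  rw [if_pos]
  rw [Nat.log_pow (by norm_num)]

lemma coef_exf (M : ℕ) : coef exf (2^M) = ew M := by
  have h := coef_top exf_mart M 0 (by positivity)
  rw [add_zero] at h
  rw [h]
  simp only [walsh_zero, mul_one, exf_hh]
  rw [integral_const_mul]
  have e : ∀ x, D M (fun _ => 1) x = (cyl M zeroG).indicator (fun _ => (2:ℝ)^M) x := D_one M
  simp only [e]
  rw [integral_indicator (measurableSet_cyl _ _), setIntegral_const, measureReal_def, mu_cyl,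
    ENNReal.toReal_pow, ENNReal.toReal_inv, smul_eq_mul, ENNReal.toReal_ofNat, ← mul_pow,
    inv_mul_cancel₀ (by norm_num), one_pow, mul_one]

lemma exf_B (M : ℕ) (x : G) :
    logMean (2^M+2) exf x =
      logMart (2^M+2) exf M x + 1 / hn (2^M+2) * (ew M * walsh (2^M) x) ∨ M = 0 := by
  rcases Nat.eq_zero_or_pos M with h | h
  · right; exact h
  left
  have h2 : 2 ≤ 2^M := by
    calc 2 = 2^1 := by norm_num
      _ ≤ 2^M := Nat.pow_le_pow_right (by norm_num) h
  have h3 : 2^M + 2 ≤ 2^(M+1) := by rw [pow_succ]; omega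
  rw [logMean_eq _ _ (M+1) h3, logMart_eq, logMart_eq, pow_succ, Nat.mul_two,
    Finset.sum_range_add, mul_add]
  congr 2
  rw [Finset.sum_eq_single_of_mem 0 (Finset.mem_range.2 (by positivity))]
  · rw [add_zero, coef_exf, show 2^M + 2 - 1 - 2^M = 1 by omega, hn_one, one_mul]
  · intro i _ hi
    rw [show 2^M + 2 - 1 - (2^M + i) = 0 by omega, hn_zero, zero_mul]

/-- The logarithmic means of the example do not converge in weak `L_p`. -/
theorem exf_not_tendsto (p : ℝ) (hp0 : 0 < p) (hp1 : p < 1) {g : G → ℝ} (hg : Measurable g)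
    (hlim : ∀ᵐ x ∂mu, Tendsto (fun n => exf n x) atTop (𝓝 (g x))) :
    ¬ Tendsto (fun N => weakNorm p (fun x => logMean N exf x - g x)) atTop (𝓝 0) := by
  intro hT
  -- limit along the sequence
  have hM : Tendsto (fun j : ℕ => 2*2^j) atTop atTop :=
    Filter.tendsto_atTop_mono (fun j => (Nat.lt_two_pow_self (n := j)).le.trans
      (Nat.le_mul_of_pos_left _ (by norm_num))) tendsto_id
  have hNj : Tendsto (fun j : ℕ => 2^(2*2^j)+2) atTop atTop :=
    Filter.tendsto_atTop_mono (fun j => by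
      have := (Nat.lt_two_pow_self (n := 2*2^j))
      omega) hM
  have hT' := hT.comp hNj
  -- the small quantities
  have hA : Tendsto (fun j : ℕ => cE p * ENNReal.ofReal (2^p) *
      ENNReal.ofReal (2 * (((2^j : ℕ):ℝ) * ((1/2:ℝ)^p)^(2^j)))) atTop (𝓝 0) := by
    have hr1 : (1/2:ℝ)^p < 1 := Real.rpow_lt_one (by norm_num) (by norm_num) hp0
    have h1 := tendsto_self_mul_const_pow_of_lt_one (by positivity : 0 ≤ (1/2:ℝ)^p) hr1
    have h2 : Tendsto (fun j : ℕ => 2^j) atTop (atTop : Filter ℕ) :=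
      tendsto_pow_atTop_atTop_of_one_lt (by norm_num)
    have h3 := (h1.comp h2).const_mul 2
    rw [mul_zero] at h3
    have h4 := ENNReal.tendsto_ofReal h3
    rw [ENNReal.ofReal_zero] at h4
    have h5 := ENNReal.Tendsto.const_mul (a := cE p * ENNReal.ofReal (2^p)) h4
      (Or.inr (ENNReal.mul_ne_top (tt_sum p hp0 hp1) ENNReal.ofReal_ne_top))
    rw [mul_zero] at h5
    exact h5
  have hC : Tendsto (fun j : ℕ => (modulus p exf (2*2^j)) ^ p) atTop (𝓝 0) := by
    have h1 := ((exf_modulus_tendsto p hp0 hp1).comp hM).ennrpow_const p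
    rw [ENNReal.zero_rpow_of_pos hp0] at h1
    exact h1
  have hAC := hA.add hC
  rw [add_zero] at hAC
  -- choose a threshold
  set q : ℝ≥0∞ := ENNReal.ofReal (1/8) ^ p with hq
  have hq0 : q ≠ 0 := (ENNReal.rpow_pos (ENNReal.ofReal_pos.2 (by norm_num))
    ENNReal.ofReal_ne_top).ne'
  have hqt : q ≠ ∞ := (ENNReal.rpow_lt_top_of_nonneg hp0.le ENNReal.ofReal_ne_top).ne
  have hthr : 0 < q * 2⁻¹ := ENNReal.mul_pos hq0 (by norm_num)
  have hc0 : 0 < (q * 2⁻¹) ^ (1/p) := ENNReal.rpow_pos hthr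
    (ENNReal.mul_ne_top hqt (by norm_num))
  obtain ⟨j, hj1, hj2⟩ := ((hAC.eventually_lt_const hthr).and
    (hT'.eventually_lt_const hc0)).exists
  set M := 2*2^j with hMdef
  set N := 2^M+2 with hNdef
  have hM2 : 2 ≤ M := by
    rw [hMdef]; have := Nat.one_le_two_pow (n := j); omega
  have hN1 : 2^M ≤ N := by omega
  have hN2 : N < 2^(M+1) := by
    rw [hNdef, pow_succ]
    have : 2^2 ≤ 2^M := Nat.pow_le_pow_right (by norm_num) hM2
    omega
  have hewM : ew M = M := by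
    rw [hMdef, ← pow_succ', ew_pow]
  have hpos : 0 < hn N := hn_pos (by omega)
  have hhn : hn N ≤ M + 2 := by
    have h1 := hn_mono hN2.le
    have h2 := hn_two_pow_le (M+1)
    push_cast at h2
    linarith
  have hM2r : (2:ℝ) ≤ M := by exact_mod_cast hM2
  -- compare
  have hsub : (Set.univ : Set G) ⊆ ({x | 1/8 < |logMean N exf x - g x|} ∪
      {x | q ≤ ‖dfm N exf M x‖ₑ ^ p}) ∪ {x | q ≤ ‖exf M x - g x‖ₑ ^ p} := by
    intro x _
    by_contra hc
    simp only [Set.mem_union, Set.mem_ofPred_eq, not_or, not_le, not_lt] at hc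
    obtain ⟨⟨h1, h2⟩, h3⟩ := hc
    rw [hq, ENNReal.rpow_lt_rpow_iff hp0, Real.enorm_eq_ofReal_abs,
      ENNReal.ofReal_lt_ofReal_iff (by norm_num)] at h2 h3
    have hB : logMean N exf x = logMart N exf M x + 1 / hn N * (ew M * walsh (2^M) x) := by
      rcases exf_B M x with h | h
      · exact h
      · omega
    have e : 1 / hn N * (ew M * walsh (2^M) x) = (logMean N exf x - g x) -
        dfm N exf M x - (exf M x - g x) := by
      rw [hB]; unfold dfm; ring
    have h4 : |1 / hn N * (ew M * walsh (2^M) x)| ≤ 1/8 + 1/8 + 1/8 := by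
      rw [e]
      have a1 := abs_sub (logMean N exf x - g x - dfm N exf M x) (exf M x - g x)
      have a2 := abs_sub (logMean N exf x - g x) (dfm N exf M x)
      linarith
    have h5 : 1/2 ≤ |1 / hn N * (ew M * walsh (2^M) x)| := by
      rw [abs_mul, abs_mul, abs_walsh, mul_one, hewM, abs_of_pos (by positivity), Nat.abs_cast,
        one_div_mul_eq_div, div_le_div_iff₀ (by norm_num) hpos]
      linarith
    norm_num at h4 h5
    linarith
  have hdA : Dep M (dfm N exf M) := (dep_logMart N exf M).comp₂ (mart_dep exf_mart M) (fun a b => a - b)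
  have hmA := mul_meas_ge_le_lintegral (μ := mu) (hdA.measurable.enorm.pow_const p) q
  have hmC := mul_meas_ge_le_lintegral (μ := mu)
    (((mart_dep exf_mart M).measurable.sub hg).enorm.pow_const p) q
  have hIC : ∫⁻ x, ‖exf M x - g x‖ₑ ^ p ∂mu ≤ (modulus p exf M) ^ p := by
    rw [modulus_rpow p hp0]
    apply lintegral_mono_ae
    filter_upwards [hlim] with x hx
    apply ENNReal.rpow_le_rpow _ hp0.le
    have h1 : Tendsto (fun k => ‖exf M x - exf k x‖ₑ) atTop (𝓝 ‖exf M x - g x‖ₑ) :=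
      (tendsto_const_nhds.sub hx).enorm
    refine le_of_tendsto h1 ?_
    filter_upwards [eventually_ge_atTop M] with k hk
    rw [← enorm_neg, neg_sub]
    refine le_trans (le_of_eq ?_) (le_iSup (fun k => ‖exf k x - exf (min k M) x‖ₑ) k)
    rw [min_eq_right hk]
  have hIA := exf_A p hp0 hp1 j N hN1 hN2
  -- measure of the good set
  have hmeas : (2⁻¹:ℝ≥0∞) ≤ mu {x | 1/8 < |logMean N exf x - g x|} := by
    have h1 : (1:ℝ≥0∞) ≤ mu {x | 1/8 < |logMean N exf x - g x|} +
        (mu {x | q ≤ ‖dfm N exf M x‖ₑ ^ p} + mu {x | q ≤ ‖exf M x - g x‖ₑ ^ p}) := by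
      calc (1:ℝ≥0∞) = mu Set.univ := measure_univ.symm
        _ ≤ _ := (measure_mono hsub).trans ((measure_union_le _ _).trans
          (add_le_add (measure_union_le _ _) le_rfl))
        _ = _ := add_assoc _ _ _
    have h2 : mu {x | q ≤ ‖dfm N exf M x‖ₑ ^ p} + mu {x | q ≤ ‖exf M x - g x‖ₑ ^ p} ≤ 2⁻¹ := by
      have h3 : q * (mu {x | q ≤ ‖dfm N exf M x‖ₑ ^ p} + mu {x | q ≤ ‖exf M x - g x‖ₑ ^ p}) ≤
          q * 2⁻¹ := by
        rw [mul_add]
        exact (add_le_add (hmA.trans hIA) (hmC.trans hIC)).trans hj1.le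
      exact (ENNReal.mul_le_mul_iff_right hq0 hqt).1 h3
    have h4 : (1:ℝ≥0∞) ≤ mu {x | 1/8 < |logMean N exf x - g x|} + 2⁻¹ :=
      h1.trans (add_le_add le_rfl h2)
    have h5 := tsub_le_iff_right.2 h4
    rwa [ENNReal.one_sub_inv_two] at h5
  -- contradiction
  have hfinal : (q * 2⁻¹) ^ (1/p) ≤ weakNorm p (fun x => logMean N exf x - g x) := by
    unfold weakNorm
    apply ENNReal.rpow_le_rpow _ (by positivity)
    refine le_trans ?_ (le_iSup (fun l : {l : ℝ // 0 < l} => ENNReal.ofReal l ^ p *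
      mu {x | (l:ℝ) < |logMean N exf x - g x|}) ⟨1/8, by norm_num⟩)
    exact mul_le_mul' le_rfl hmeas
  exact absurd hj2 (not_lt.2 hfinal)

end Pool.Agent.V1193.Walsh
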