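import Pool.Agent.V1193.WalshLogF

/-! Final assembly for the Nörlund logarithmic means. -/

open MeasureTheory ProbabilityTheory Filter Topology
open scoped ENNReal

namespace Pool.Agent.V1193.Walsh

/-- For `f ∈ H_1` the modulus tends to zero. -/
lemma modulus_one_tendsto {f : ℕ → G → ℝ} (hf : Martingale f dyadic mu) (hH : hpNorm 1 f < ∞) :
    Tendsto (modulus 1 f) atTop (𝓝 0) := by
  have hH' : ∫⁻ x, (⨆ k, ‖f k x‖ₑ) ∂mu < ∞ := by
    have := hpNorm_rpow 1 one_pos f
    simp only [ENNReal.rpow_one] at this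
    rw [← this]; exact hH
  have hbdd : ∀ n, eLpNorm (f n) 1 mu ≤ (∫⁻ x, (⨆ k, ‖f k x‖ₑ) ∂mu).toNNReal := by
    intro n
    rw [eLpNorm_one_eq_lintegral_enorm, ENNReal.coe_toNNReal hH'.ne]
    exact lintegral_mono (fun x => le_iSup (fun k => ‖f k x‖ₑ) n)
  have hconv := hf.submartingale.ae_tendsto_limitProcess hbdd
  have hae : ∀ᵐ x ∂mu, Tendsto (fun n => osc f n x) atTop (𝓝 0) := by
    filter_upwards [hconv] with x hx
    rw [ENNReal.tendsto_nhds_zero]
    intro ε hε
    -- Cauchy
    have hc := hx.cauchySeq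
    by_cases hεt : ε = ∞
    · exact Eventually.of_forall (fun n => by rw [hεt]; exact le_top)
    have hε' : 0 < ε.toReal := ENNReal.toReal_pos hε.ne' hεt
    obtain ⟨N, hN⟩ := Metric.cauchySeq_iff.1 hc ε.toReal hε'
    filter_upwards [eventually_ge_atTop N] with n hn
    apply iSup_le
    intro k
    rcases le_total k n with h | h
    · rw [min_eq_left h, sub_self, enorm_zero]; exact zero_le
    · rw [min_eq_right h, Real.enorm_eq_ofReal_abs, ← Real.dist_eq]
      rw [← ENNReal.ofReal_toReal hεt]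
      exact ENNReal.ofReal_le_ofReal (hN k (le_trans hn h) n hn).le
  have hlim := tendsto_lintegral_of_dominated_convergence (μ := mu) (F := fun n x => osc f n x)
    (f := fun _ => 0) (fun x => 2 * ⨆ k, ‖f k x‖ₑ) (fun n => measurable_osc hf n)
    (fun n => Eventually.of_forall (fun x => by
      apply iSup_le
      intro k
      refine (enorm_sub_le).trans ?_
      simp only
      rw [two_mul]
      exact add_le_add (le_iSup (fun k => ‖f k x‖ₑ) k) (le_iSup (fun k => ‖f k x‖ₑ) (min k n))))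
    (by
      rw [lintegral_const_mul]
      · exact (ENNReal.mul_lt_top (by norm_num) hH').ne
      · exact Measurable.iSup (fun k => (mart_dep hf k).measurable.enorm)) hae
  rw [lintegral_zero] at hlim
  refine hlim.congr (fun n => ?_)
  have := modulus_rpow 1 one_pos f n
  simp only [ENNReal.rpow_one] at this
  exact this.symm

/-- Convergence for `0 < p < 1` under the modulus condition of the problem. -/
lemma modulus_log_tendsto {f : ℕ → G → ℝ} (p : ℝ) (hp0 : 0 < p) (hp1 : p < 1)
    (C : ℝ) (hmod : ∀ᶠ n : ℕ in atTop, modulus p f n ≤ ENNReal.ofReal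
      (C * (Real.log n / ((2:ℝ)^((n:ℝ)*(1/p-1)) * (Real.log n)^(2*⌊p⌋₊))))) :
    Tendsto (fun n : ℕ => modulus p f n *
      ENNReal.ofReal ((2:ℝ)^((n:ℝ)*(1/p-1)) / ((n:ℝ)+1))) atTop (𝓝 0) := by
  have hlog : Tendsto (fun n : ℕ => |C| * (Real.log n / ((n:ℝ)+1))) atTop (𝓝 0) := by
    have h1 : Tendsto (fun x : ℝ => Real.log x / x) atTop (𝓝 0) := by
      have := Real.isLittleO_log_id_atTop.tendsto_div_nhds_zero
      exact this
    have h2 : Tendsto (fun n : ℕ => Real.log n / (n:ℝ)) atTop (𝓝 0) :=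
      h1.comp tendsto_natCast_atTop_atTop
    have h3 : Tendsto (fun n : ℕ => Real.log n / ((n:ℝ)+1)) atTop (𝓝 0) := by
      refine tendsto_of_tendsto_of_tendsto_of_le_of_le' tendsto_const_nhds h2 ?_ ?_
      · filter_upwards [eventually_ge_atTop 1] with n hn
        have : 0 ≤ Real.log n := Real.log_nonneg (by exact_mod_cast hn)
        positivity
      · filter_upwards [eventually_ge_atTop 1] with n hn
        have h4 : 0 ≤ Real.log n := Real.log_nonneg (by exact_mod_cast hn)
        have h5 : (0:ℝ) < n := by exact_mod_cast hn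
        apply div_le_div_of_nonneg_left h4 h5 (by linarith)
    have := h3.const_mul |C|
    rwa [mul_zero] at this
  have h6 := ENNReal.tendsto_ofReal hlog
  rw [ENNReal.ofReal_zero] at h6
  refine tendsto_of_tendsto_of_tendsto_of_le_of_le' tendsto_const_nhds h6
    (Eventually.of_forall fun _ => zero_le) ?_
  filter_upwards [hmod, eventually_ge_atTop 1] with n hn hn1
  have hlogn : 0 ≤ Real.log n := Real.log_nonneg (by exact_mod_cast hn1)
  have hfl : ⌊p⌋₊ = 0 := Nat.floor_eq_zero.2 hp1
  rw [hfl, mul_zero, pow_zero, mul_one] at hn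
  have hp2 : 0 < (2:ℝ)^((n:ℝ)*(1/p-1)) := by positivity
  calc modulus p f n * ENNReal.ofReal ((2:ℝ)^((n:ℝ)*(1/p-1)) / ((n:ℝ)+1))
      ≤ ENNReal.ofReal (|C| * (Real.log n / (2:ℝ)^((n:ℝ)*(1/p-1)))) *
        ENNReal.ofReal ((2:ℝ)^((n:ℝ)*(1/p-1)) / ((n:ℝ)+1)) := by
        gcongr
        refine hn.trans (ENNReal.ofReal_le_ofReal ?_)
        exact mul_le_mul_of_nonneg_right (le_abs_self C) (by positivity)
    _ = ENNReal.ofReal (|C| * (Real.log n / ((n:ℝ)+1))) := by
        rw [← ENNReal.ofReal_mul (by positivity)]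
        congr 1
        field_simp

end Pool.Agent.V1193.Walsh
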