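import Pool.Agent.V1193.WalshGen

/-! Structure of dyadic martingales: translations, dependence on finitely many coordinates,
Walsh expansions. -/

open MeasureTheory ProbabilityTheory Filter Topology
open scoped ENNReal

namespace Pool.Agent.V1193.Walsh

/-- group operation of `G` -/
def gadd (x y : G) : G := fun j => xor (x j) (y j)

lemma rad_gadd (k : ℕ) (x y : G) : rad k (gadd x y) = rad k x * rad k y := by
  unfold rad gadd
  cases x k <;> cases y k <;> simp

lemma walsh_gadd (n : ℕ) (x y : G) : walsh n (gadd x y) = walsh n x * walsh n y := by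
  unfold walsh
  rw [← Finset.prod_mul_distrib]
  apply Finset.prod_congr rfl
  intro k _
  split
  · exact rad_gadd k x y
  · simp

lemma measurable_gadd_left (y : G) : Measurable (fun x => gadd x y) := by
  apply measurable_pi_lambda
  intro j
  exact (Measurable.of_discrete (f := fun b : Bool => xor b (y j))).comp (measurable_pi_apply j)

lemma measurable_gadd : Measurable (fun z : G × G => gadd z.1 z.2) := by
  apply measurable_pi_lambda
  intro j
  have h1 : Measurable (fun z : G × G => (z.1 j, z.2 j)) :=
    ((measurable_pi_apply j).comp measurable_fst).prodMk ((measurable_pi_apply j).comp measurable_snd)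
  exact (Measurable.of_discrete (f := fun b : Bool × Bool => xor b.1 b.2)).comp h1

lemma coin_xor (b : Bool) : coin.map (fun c => xor c b) = coin := by
  cases b
  · simp
  · have : (fun c => xor c true) = Bool.not := by funext c; simp
    rw [this]; exact coin_not

lemma map_gadd (y : G) : mu.map (fun x => gadd x y) = mu := by
  unfold mu
  have h := Measure.infinitePi_map_pi (μ := fun _ : ℕ => coin)
    (f := fun j (b : Bool) => xor b (y j))
    (fun j => Measurable.of_discrete)
  have e : (fun (x : G) (j : ℕ) => xor (x j) (y j)) = fun x => gadd x y := rfl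
  rw [e] at h
  rw [h]
  congr 1
  funext j
  exact coin_xor (y j)

lemma lintegral_gadd (y : G) (g : G → ℝ≥0∞) (hg : Measurable g) :
    ∫⁻ x, g (gadd x y) ∂mu = ∫⁻ x, g x ∂mu := by
  conv_rhs => rw [← map_gadd y]
  rw [lintegral_map hg (measurable_gadd_left y)]

/-! ### dependence on the first coordinates -/

/-- `g` depends only on the first `m` coordinates -/
def Dep {α : Type*} (m : ℕ) (g : G → α) : Prop := ∀ x y : G, (∀ j < m, x j = y j) → g x = g y

lemma Dep.mono {α : Type*} {m n : ℕ} (h : m ≤ n) {g : G → α} (hg : Dep m g) : Dep n g :=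
  fun x y hxy => hg x y (fun j hj => hxy j (by omega))

lemma Dep.comp {α β : Type*} {m : ℕ} {g : G → α} (hg : Dep m g) (φ : α → β) :
    Dep m (fun x => φ (g x)) := fun x y hxy => congrArg φ (hg x y hxy)

lemma Dep.comp₂ {α β γ : Type*} {m : ℕ} {g : G → α} {h : G → β} (hg : Dep m g) (hh : Dep m h)
    (φ : α → β → γ) : Dep m (fun x => φ (g x) (h x)) := fun x y hxy => by
  simp only [hg x y hxy, hh x y hxy]

lemma Dep.measurable {α : Type*} [MeasurableSpace α] {m : ℕ} {g : G → α} (hg : Dep m g) :
    Measurable g := by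
  let ext : (Fin m → Bool) → G := fun u j => if h : j < m then u ⟨j, h⟩ else false
  let res : G → (Fin m → Bool) := fun x j => x j
  have e : g = (g ∘ ext) ∘ res := by
    funext x
    apply hg
    intro j hj
    simp [ext, res, hj]
  rw [e]
  apply Measurable.comp
  · exact measurable_of_finite _
  · apply measurable_pi_lambda
    intro j
    exact measurable_pi_apply _

lemma Dep.bdd {m : ℕ} {g : G → ℝ} (hg : Dep m g) : ∃ C, ∀ x, |g x| ≤ C := by
  let ext : (Fin m → Bool) → G := fun u j => if h : j < m then u ⟨j, h⟩ else false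
  refine ⟨∑ u : Fin m → Bool, |g (ext u)|, fun x => ?_⟩
  have e : g x = g (ext (fun j => x j)) := by
    apply hg
    intro j hj
    simp [ext, hj]
  rw [e]
  exact Finset.single_le_sum (f := fun u => |g (ext u)|) (fun _ _ => abs_nonneg _)
    (Finset.mem_univ (fun j : Fin m => x j))

lemma Dep.integrable {m : ℕ} {g : G → ℝ} (hg : Dep m g) : Integrable g mu := by
  obtain ⟨C, hC⟩ := hg.bdd
  exact integrable_of_bdd g hg.measurable C hC

lemma dep_rad (k : ℕ) : Dep (k+1) (rad k) := fun x y h => by
  unfold rad; rw [h k (Nat.lt_succ_self k)]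

lemma dep_walsh (n m : ℕ) (h : n < 2^m) : Dep m (walsh n) := fun x y hxy => by
  rw [walsh_eq n m h, walsh_eq n m h]
  apply Finset.prod_congr rfl
  intro k hk
  simp only [Finset.mem_range] at hk
  unfold rad
  rw [hxy k hk]

lemma dep_D (m : ℕ) (a : ℕ → ℝ) : Dep m (D m a) := fun x y hxy => by
  unfold D
  apply Finset.sum_congr rfl
  intro i hi
  simp only [Finset.mem_range] at hi
  rw [dep_walsh i m hi x y hxy]

lemma Dep.gadd_left {α : Type*} {m : ℕ} {g : G → α} (hg : Dep m g) (y : G) :
    Dep m (fun x => g (gadd x y)) := fun x x' h => by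
  apply hg
  intro j hj
  unfold gadd
  rw [h j hj]

lemma Dep.gadd_right {α : Type*} {m : ℕ} {g : G → α} (hg : Dep m g) (x : G) :
    Dep m (fun y => g (gadd x y)) := fun y y' h => by
  apply hg
  intro j hj
  unfold gadd
  rw [h j hj]

lemma mem_cyl_self (n : ℕ) (x : G) : x ∈ cyl n x := fun _ _ => rfl

lemma Dep.setIntegral {m : ℕ} {g : G → ℝ} (hg : Dep m g) (x : G) :
    ∫ y in cyl m x, g y ∂mu = (2⁻¹:ℝ)^m * g x := by
  have : ∫ y in cyl m x, g y ∂mu = ∫ y in cyl m x, g x ∂mu := by
    apply setIntegral_congr_fun (measurableSet_cyl m x)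
    intro y hy
    exact hg y x hy
  rw [this, setIntegral_const, measureReal_def, mu_cyl, ENNReal.toReal_pow, ENNReal.toReal_inv,
    smul_eq_mul]
  norm_num

lemma Dep.setLIntegral {m : ℕ} {g : G → ℝ≥0∞} (hg : Dep m g) (x : G) :
    ∫⁻ y in cyl m x, g y ∂mu = (2⁻¹:ℝ≥0∞)^m * g x := by
  have : ∫⁻ y in cyl m x, g y ∂mu = ∫⁻ y in cyl m x, g x ∂mu := by
    apply setLIntegral_congr_fun (measurableSet_cyl m x)
    intro y hy
    exact hg y x hy
  rw [this, setLIntegral_const, mu_cyl, mul_comm]

/-! ### the Dirichlet kernels -/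

lemma D_one (m : ℕ) (x : G) :
    D m (fun _ => 1) x = (cyl m zeroG).indicator (fun _ => (2:ℝ)^m) x := by
  by_cases hx : x ∈ cyl m zeroG
  · rw [Set.indicator_of_mem hx]
    unfold D
    rw [Finset.sum_congr rfl (fun i hi => by
      rw [walsh_one_of_zero m i (Finset.mem_range.1 hi) x hx, one_mul] :
        ∀ i ∈ Finset.range (2^m), 1 * walsh i x = 1)]
    simp
  · rw [Set.indicator_of_notMem hx]
    have hx' : ∃ s, s < m ∧ x s = true := by
      by_contra hc
      push Not at hc
      apply hx
      intro j hj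
      have := hc j hj
      simpa [zeroG] using this
    classical
    let s := Nat.find hx'
    have hs : s < m ∧ x s = true := Nat.find_spec hx'
    have hmin : ∀ j < s, x j = false := by
      intro j hj
      have := Nat.find_min hx' hj
      have hjm : j < m := lt_trans hj hs.1
      by_contra h
      exact this ⟨hjm, by simpa using h⟩
    obtain ⟨k, hk⟩ := Nat.exists_eq_add_of_lt hs.1
    rw [show m = (k+1) + s by omega, D_blk s (k+1) _ x hmin, D_succ]
    have e1 : rad 0 (shiftN s x) = -1 := by
      unfold rad shiftN; rw [zero_add, hs.2]; simp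
    rw [e1]
    unfold D blk
    apply Finset.sum_eq_zero
    intro i _
    simp

/-- Walsh expansion of functions of the first `m` coordinates -/
lemma Dep.expansion {m : ℕ} {g : G → ℝ} (hg : Dep m g) (x : G) :
    g x = ∑ i ∈ Finset.range (2^m), (∫ y, g y * walsh i y ∂mu) * walsh i x := by
  have h1 : ∑ i ∈ Finset.range (2^m), (∫ y, g y * walsh i y ∂mu) * walsh i x =
      ∫ y, g y * D m (fun _ => 1) (gadd x y) ∂mu := by
    have e : ∀ y, g y * D m (fun _ => 1) (gadd x y) =
        ∑ i ∈ Finset.range (2^m), (g y * walsh i y) * walsh i x := by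
      intro y
      unfold D
      rw [Finset.mul_sum]
      apply Finset.sum_congr rfl
      intro i _
      rw [walsh_gadd]; ring
    simp only [e]
    rw [integral_finsetSum]
    · apply Finset.sum_congr rfl
      intro i _
      rw [integral_mul_const]
    · intro i hi
      simp only [Finset.mem_range] at hi
      apply Integrable.mul_const
      exact (hg.comp₂ (dep_walsh i m hi) (fun a b => a * b)).integrable
  rw [h1]
  have h2 : ∀ y, g y * D m (fun _ => 1) (gadd x y) =
      (cyl m x).indicator (fun y => g y * (2:ℝ)^m) y := by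
    intro y
    rw [D_one]
    by_cases hy : y ∈ cyl m x
    · rw [Set.indicator_of_mem hy, Set.indicator_of_mem]
      intro j hj
      unfold gadd zeroG
      rw [hy j hj]; simp
    · rw [Set.indicator_of_notMem hy, Set.indicator_of_notMem, mul_zero]
      intro h
      apply hy
      intro j hj
      have := h j hj
      unfold gadd zeroG at this
      cases h1 : x j <;> cases h2 : y j <;> simp_all
  simp only [h2]
  rw [integral_indicator (measurableSet_cyl m x),
    Dep.setIntegral (m := m) (g := fun y => g y * (2:ℝ)^m) (hg.comp (fun a => a * (2:ℝ)^m)) x]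
  rw [inv_pow]
  have : (2:ℝ)^m ≠ 0 := by positivity
  field_simp

/-! ### structure of martingales -/

lemma dyadic_union (n : ℕ) (A : Set G) (hA : MeasurableSet[dyadic n] A) (x y : G)
    (h : ∀ j < n, x j = y j) : x ∈ A ↔ y ∈ A := by
  revert x y
  refine MeasurableSpace.generateFrom_induction (C := Set.range (cyl n))
    (p := fun s _ => ∀ x y : G, (∀ j < n, x j = y j) → (x ∈ s ↔ y ∈ s)) ?_ ?_ ?_ ?_ A hA
  · rintro _ ⟨z, rfl⟩ _ x y h
    constructor
    · intro hx j hj; rw [← h j hj]; exact hx j hj
    · intro hx j hj; rw [h j hj]; exact hx j hj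
  · intro x y _; simp
  · intro s _ hs x y h
    simp only [Set.mem_compl_iff, hs x y h]
  · intro s _ hs x y h
    simp only [Set.mem_iUnion, hs _ x y h]

lemma dep_of_measurable (n : ℕ) (g : G → ℝ) (hg : Measurable[dyadic n] g) : Dep n g := by
  intro x y h
  have h1 : MeasurableSet[dyadic n] (g ⁻¹' {g y}) := hg (measurableSet_singleton _)
  have h2 := (dyadic_union n _ h1 x y h).2 rfl
  exact h2

lemma mart_dep {f : ℕ → G → ℝ} (hf : Martingale f dyadic mu) (n : ℕ) : Dep n (f n) :=
  dep_of_measurable n (f n) (hf.1 n).measurable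

lemma flip_flip (i : ℕ) (x : G) : flip i (flip i x) = x := by
  funext j; unfold flip; by_cases h : j = i <;> simp [h]

lemma cyl_split (m : ℕ) (x : G) : cyl m x = cyl (m+1) x ∪ cyl (m+1) (flip m x) := by
  ext y
  simp only [cyl, Set.mem_ofPred_eq, Set.mem_union]
  constructor
  · intro h
    by_cases hy : y m = x m
    · left
      intro j hj
      rcases Nat.lt_succ_iff_lt_or_eq.1 hj with h1 | h1
      · exact h j h1
      · subst h1; exact hy
    · right
      intro j hj
      unfold flip
      rcases Nat.lt_succ_iff_lt_or_eq.1 hj with h1 | h1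
      · rw [if_neg (by omega)]; exact h j h1
      · subst h1; rw [if_pos rfl]
        exact Bool.eq_not.2 hy
  · rintro (h | h) j hj
    · exact h j (by omega)
    · have := h j (by omega)
      unfold flip at this
      rwa [if_neg (by omega)] at this

lemma cyl_disj (m : ℕ) (x : G) : Disjoint (cyl (m+1) x) (cyl (m+1) (flip m x)) := by
  rw [Set.disjoint_left]
  intro y h1 h2
  have e1 := h1 m (Nat.lt_succ_self m)
  have e2 := h2 m (Nat.lt_succ_self m)
  unfold flip at e2
  rw [if_pos rfl, e1] at e2
  revert e2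
  cases x m <;> decide

lemma mart_avg {f : ℕ → G → ℝ} (hf : Martingale f dyadic mu) (m : ℕ) (x : G) :
    f m x = (f (m+1) x + f (m+1) (flip m x)) / 2 := by
  have hmem : MeasurableSet[dyadic m] (cyl m x) :=
    MeasurableSpace.measurableSet_generateFrom ⟨x, rfl⟩
  have h1 := hf.setIntegral_eq (Nat.le_succ m) hmem
  rw [(mart_dep hf m).setIntegral x, cyl_split m x,
    setIntegral_union (cyl_disj m x) (measurableSet_cyl _ _) (hf.integrable _).integrableOn
      (hf.integrable _).integrableOn] at h1
  rw [(mart_dep hf (m+1)).setIntegral x, (mart_dep hf (m+1)).setIntegral (flip m x)] at h1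
  rw [pow_succ] at h1
  have h2 : (2⁻¹:ℝ)^m ≠ 0 := by positivity
  have h3 : (2⁻¹:ℝ)^m * f m x = (2⁻¹:ℝ)^m * ((f (m+1) x + f (m+1) (flip m x)) / 2) := by
    rw [h1]; ring
  exact mul_left_cancel₀ h2 h3

/-- `h_m = r_m d_m` -/
noncomputable def hh (f : ℕ → G → ℝ) (m : ℕ) (x : G) : ℝ := rad m x * (f (m+1) x - f m x)

lemma hh_dep {f : ℕ → G → ℝ} (hf : Martingale f dyadic mu) (m : ℕ) : Dep m (hh f m) := by
  -- dependence on first m+1 coordinates and invariance under flip m
  have h1 : Dep (m+1) (hh f m) := by
    intro x y h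
    unfold hh
    rw [dep_rad m x y h, mart_dep hf (m+1) x y h, (mart_dep hf m).mono (Nat.le_succ m) x y h]
  have h2 : ∀ x, hh f m (flip m x) = hh f m x := by
    intro x
    unfold hh
    rw [rad_flip_same]
    have e1 := mart_avg hf m x
    have e2 : f m (flip m x) = f m x := by
      apply mart_dep hf m
      intro j hj
      unfold flip
      rw [if_neg (by omega)]
    rw [e2]
    have e3 : f (m+1) (flip m x) = 2 * f m x - f (m+1) x := by linarith
    rw [e3]; ring
  intro x y h
  by_cases hxy : x m = y m
  · apply h1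
    intro j hj
    rcases Nat.lt_succ_iff_lt_or_eq.1 hj with h' | h'
    · exact h j h'
    · subst h'; exact hxy
  · rw [← h2 y]
    apply h1
    intro j hj
    unfold flip
    rcases Nat.lt_succ_iff_lt_or_eq.1 hj with h' | h'
    · rw [if_neg (by omega)]; exact h j h'
    · subst h'; rw [if_pos rfl]
      cases e1 : x j <;> cases e2 : y j <;> simp_all

lemma mart_succ (f : ℕ → G → ℝ) (m : ℕ) (x : G) :
    f (m+1) x = f m x + rad m x * hh f m x := by
  unfold hh
  rw [← mul_assoc, rad_sq]; ring

lemma Dep.flip_inv {α : Type*} {m i : ℕ} (h : m ≤ i) {g : G → α} (hg : Dep m g) (x : G) :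
    g (flip i x) = g x := by
  apply hg
  intro j hj
  unfold flip
  rw [if_neg (by omega)]

lemma integral_rad_dep {m i : ℕ} (h : m ≤ i) {g : G → ℝ} (hg : Dep m g) :
    ∫ x, rad i x * g x ∂mu = 0 := by
  apply integral_odd i
  · exact (measurable_rad i).mul hg.measurable
  · intro x
    rw [rad_flip_same, hg.flip_inv h]
    ring

lemma integral_mart_walsh {f : ℕ → G → ℝ} (hf : Martingale f dyadic mu) (n i : ℕ) (hi : i < 2^n)
    (k : ℕ) : ∫ x, f (n+k) x * walsh i x ∂mu = ∫ x, f n x * walsh i x ∂mu := by
  induction k with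
  | zero => rfl
  | succ k ih =>
    rw [← ih]
    have e : ∀ x, f (n+(k+1)) x * walsh i x =
        f (n+k) x * walsh i x + rad (n+k) x * (hh f (n+k) x * walsh i x) := by
      intro x
      rw [show n+(k+1) = (n+k)+1 by ring, mart_succ f (n+k) x]; ring
    simp only [e]
    have hd : Dep (n+k) (walsh i) := (dep_walsh i n hi).mono (by omega)
    have hd2 : Dep (n+k) (fun x => hh f (n+k) x * walsh i x) :=
      (hh_dep hf (n+k)).comp₂ hd (fun a b => a * b)
    rw [integral_add, integral_rad_dep le_rfl hd2, add_zero]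
    · exact ((mart_dep hf (n+k)).comp₂ hd (fun a b => a * b)).integrable
    · exact ((dep_rad (n+k)).comp₂ (hd2.mono (Nat.le_succ _)) (fun a b => a * b)).integrable

lemma coef_eq {f : ℕ → G → ℝ} (hf : Martingale f dyadic mu) (n i : ℕ) (hi : i < 2^n) :
    coef f i = ∫ x, f n x * walsh i x ∂mu := by
  unfold coef
  apply Tendsto.limUnder_eq
  apply tendsto_const_nhds.congr'
  filter_upwards [eventually_ge_atTop n] with m hm
  obtain ⟨k, rfl⟩ := Nat.exists_eq_add_of_le hm
  exact (integral_mart_walsh hf n i hi k).symm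

lemma coef_top {f : ℕ → G → ℝ} (hf : Martingale f dyadic mu) (m i : ℕ) (hi : i < 2^m) :
    coef f (2^m + i) = ∫ x, hh f m x * walsh i x ∂mu := by
  rw [coef_eq hf (m+1) (2^m+i) (by rw [pow_succ]; omega)]
  have hd : Dep m (walsh i) := dep_walsh i m hi
  have e : ∀ x, f (m+1) x * walsh (2^m+i) x =
      rad m x * (f m x * walsh i x) + hh f m x * walsh i x := by
    intro x
    rw [mart_succ f m x, walsh_add_two_pow m i hi]
    have := rad_sq m x
    linear_combination (hh f m x * walsh i x) * this
  simp only [e]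
  have hd2 : Dep m (fun x => f m x * walsh i x) := (mart_dep hf m).comp₂ hd (fun a b => a * b)
  rw [integral_add, integral_rad_dep le_rfl hd2, zero_add]
  · exact ((dep_rad m).comp₂ (hd2.mono (Nat.le_succ _)) (fun a b => a * b)).integrable
  · exact ((hh_dep hf m).comp₂ hd (fun a b => a * b)).integrable

lemma mart_expansion {f : ℕ → G → ℝ} (hf : Martingale f dyadic mu) (n : ℕ) (x : G) :
    f n x = ∑ i ∈ Finset.range (2^n), coef f i * walsh i x := by
  rw [(mart_dep hf n).expansion x]
  apply Finset.sum_congr rfl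
  intro i hi
  rw [coef_eq hf n i (Finset.mem_range.1 hi)]

end Pool.Agent.V1193.Walsh
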