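import Pool.Agent.V1193.WalshLogC
import Pool.Agent.V1193.Burk

/-! Weak type (1,1) of the transforms of Walsh polynomials. -/

open MeasureTheory ProbabilityTheory Filter Topology
open scoped ENNReal

namespace Pool.Agent.V1193.Walsh

open Burk

lemma D_top (m : ℕ) (c : ℕ → ℝ) (x : G) :
    D (m+1) c x = D m c x + rad m x * D m (fun i => c (2^m + i)) x := by
  unfold D
  rw [pow_succ, Nat.mul_two, Finset.sum_range_add]
  congr 1
  rw [Finset.mul_sum]
  apply Finset.sum_congr rfl
  intro i hi
  rw [walsh_add_two_pow m i (Finset.mem_range.1 hi)]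
  ring

/-- transform of a Walsh polynomial: `∑_{u<n} v_u d_u` -/
noncomputable def trans (v c : ℕ → ℝ) (n : ℕ) (x : G) : ℝ :=
  ∑ u ∈ Finset.range n, v u * (rad u x * D u (fun i => c (2^u + i)) x)

lemma trans_succ (v c : ℕ → ℝ) (n : ℕ) (x : G) :
    trans v c (n+1) x = trans v c n x + v n * (rad n x * D n (fun i => c (2^n + i)) x) := by
  unfold trans; rw [Finset.sum_range_succ]

lemma dep_trans (v c : ℕ → ℝ) (n : ℕ) : Dep n (trans v c n) := by
  intro x y h
  unfold trans
  apply Finset.sum_congr rfl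
  intro u hu
  have hu' := Finset.mem_range.1 hu
  rw [(dep_rad u).mono (show u+1 ≤ n by omega) x y h, (dep_D u _).mono (show u ≤ n by omega) x y h]

lemma measurable_flip' (i : ℕ) : Measurable (flip i) := measurable_flip i

lemma U_step (v c : ℕ → ℝ) (hv : ∀ u, |v u| ≤ 1) (l : ℝ) (n : ℕ) :
    ∫ x, U (l * D (n+1) c x) (l * trans v c (n+1) x) ∂mu ≤
      ∫ x, U (l * D n c x) (l * trans v c n x) ∂mu := by
  set φ : G → ℝ := fun x => U (l * D (n+1) c x) (l * trans v c (n+1) x) with hφ
  have hφd : Dep (n+1) φ := (dep_D (n+1) c).comp₂ (dep_trans v c (n+1)) (fun a b => U (l*a) (l*b))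
  have hψd : Dep n (fun x => U (l * D n c x) (l * trans v c n x)) :=
    (dep_D n c).comp₂ (dep_trans v c n) (fun a b => U (l*a) (l*b))
  have h1 : ∫ x, φ (flip n x) ∂mu = ∫ x, φ x ∂mu := integral_flip n φ hφd.measurable
  have hflipd : Dep (n+1) (fun x => φ (flip n x)) := by
    intro x y h
    apply hφd
    intro j hj
    unfold flip
    rw [h j hj]
  have h2 : 2 * ∫ x, φ x ∂mu = ∫ x, (φ x + φ (flip n x)) ∂mu := by
    rw [integral_add hφd.integrable hflipd.integrable, h1]; ring
  have h3 : ∫ x, (φ x + φ (flip n x)) ∂mu ≤ ∫ x, 2 * U (l * D n c x) (l * trans v c n x) ∂mu := by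
    apply integral_mono (hφd.integrable.add hflipd.integrable) (hψd.integrable.const_mul 2)
    intro x
    simp only [hφ, Pi.add_apply]
    have e1 : D (n+1) c (flip n x) = D n c x - rad n x * D n (fun i => c (2^n + i)) x := by
      rw [D_top, (dep_D n c).flip_inv le_rfl, (dep_D n _).flip_inv le_rfl, rad_flip_same]; ring
    have e2 : trans v c (n+1) (flip n x) = trans v c n x -
        v n * (rad n x * D n (fun i => c (2^n + i)) x) := by
      rw [trans_succ, (dep_trans v c n).flip_inv le_rfl, (dep_D n _).flip_inv le_rfl,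
        rad_flip_same]; ring
    rw [e1, e2, D_top, trans_succ]
    have := U_zigzag (l * D n c x) (l * trans v c n x)
      (l * (rad n x * D n (fun i => c (2^n + i)) x)) (v n) (hv n)
    refine le_trans (le_of_eq ?_) this
    congr 2 <;> ring
  rw [integral_const_mul] at h3
  linarith

lemma U_all (v c : ℕ → ℝ) (hv : ∀ u, |v u| ≤ 1) (l : ℝ) (n : ℕ) :
    ∫ x, U (l * D n c x) (l * trans v c n x) ∂mu ≤ 0 := by
  induction n with
  | zero =>
    apply integral_nonpos
    intro x
    simp only [trans, Finset.range_zero, Finset.sum_empty, mul_zero]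
    exact U_zero _
  | succ n ih => exact (U_step v c hv l n).trans ih

/-- Burkholder's weak type inequality. -/
lemma weak_trans (v c : ℕ → ℝ) (hv : ∀ u, |v u| ≤ 1) (n : ℕ) (lam : ℝ) (hl : 0 < lam) :
    ENNReal.ofReal lam * mu {x | lam ≤ |trans v c n x|} ≤ 2 * ∫⁻ x, ‖D n c x‖ₑ ∂mu := by
  have h1 := U_all v c hv (1/lam) n
  have hd1 : Dep n (fun x => if 1 ≤ |1/lam * trans v c n x| then (1:ℝ) else 0) :=
    (dep_trans v c n).comp (fun a => if 1 ≤ |1/lam * a| then (1:ℝ) else 0)
  have hd2 : Dep n (fun x => 2*|1/lam * D n c x|) := (dep_D n c).comp (fun a => 2*|1/lam*a|)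
  have hd3 : Dep n (fun x => U (1/lam * D n c x) (1/lam * trans v c n x)) :=
    (dep_D n c).comp₂ (dep_trans v c n) (fun a b => U (1/lam*a) (1/lam*b))
  have h2 : ∫ x, ((if 1 ≤ |1/lam * trans v c n x| then (1:ℝ) else 0) -
      2*|1/lam * D n c x|) ∂mu ≤ 0 := by
    refine le_trans (integral_mono (hd1.integrable.sub hd2.integrable) hd3.integrable ?_) h1
    intro x
    exact U_ge _ _
  rw [integral_sub hd1.integrable hd2.integrable] at h2
  have e1 : (fun x => if 1 ≤ |1/lam * trans v c n x| then (1:ℝ) else 0) =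
      ({x | lam ≤ |trans v c n x|} : Set G).indicator (fun _ => (1:ℝ)) := by
    funext x
    by_cases hx : lam ≤ |trans v c n x|
    · rw [Set.indicator_of_mem (show x ∈ {x | lam ≤ |trans v c n x|} from hx), if_pos]
      rw [abs_mul, abs_of_pos (by positivity : 0 < 1/lam), one_div, ← div_eq_inv_mul,
        one_le_div hl]
      exact hx
    · rw [Set.indicator_of_notMem (show x ∉ {x | lam ≤ |trans v c n x|} from hx), if_neg]
      rw [abs_mul, abs_of_pos (by positivity : 0 < 1/lam), one_div, ← div_eq_inv_mul,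
        one_le_div hl]
      exact hx
  have hms : MeasurableSet {x | lam ≤ |trans v c n x|} :=
    measurableSet_le measurable_const (dep_trans v c n).measurable.abs
  rw [e1, integral_indicator hms, setIntegral_const, smul_eq_mul, mul_one] at h2
  have e2 : ∫ x, 2*|1/lam * D n c x| ∂mu = 2/lam * ∫ x, |D n c x| ∂mu := by
    rw [← integral_const_mul]
    congr 1
    funext x
    rw [abs_mul, abs_of_pos (by positivity : 0 < 1/lam)]; ring
  rw [e2] at h2
  have h3 : lam * mu.real {x | lam ≤ |trans v c n x|} ≤ 2 * ∫ x, |D n c x| ∂mu := by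
    have : mu.real {x | lam ≤ |trans v c n x|} ≤ 2/lam * ∫ x, |D n c x| ∂mu := by linarith
    calc lam * mu.real {x | lam ≤ |trans v c n x|} ≤ lam * (2/lam * ∫ x, |D n c x| ∂mu) :=
          mul_le_mul_of_nonneg_left this hl.le
      _ = _ := by field_simp
  have e3 : ∫⁻ x, ‖D n c x‖ₑ ∂mu = ENNReal.ofReal (∫ x, |D n c x| ∂mu) := by
    rw [ofReal_integral_eq_lintegral_ofReal ((dep_D n c).comp (fun a => |a|)).integrable
      (Eventually.of_forall fun x => abs_nonneg _)]
    apply lintegral_congr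
    intro x
    rw [Real.enorm_eq_ofReal_abs]
  rw [e3, show (2:ℝ≥0∞) = ENNReal.ofReal 2 by norm_num, ← ENNReal.ofReal_mul (by norm_num)]
  refine le_trans (le_of_eq ?_) (ENNReal.ofReal_le_ofReal h3)
  rw [ENNReal.ofReal_mul hl.le, measureReal_def, ENNReal.ofReal_toReal (measure_ne_top _ _)]

end Pool.Agent.V1193.Walsh
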