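import Pool.Agent.V1193.WalshWeakA

/-! The kernel of the logarithmic means for `p = 1`. -/

open MeasureTheory ProbabilityTheory Filter Topology
open scoped ENNReal

namespace Pool.Agent.V1193.Walsh

/-- `L₁` norm on `Z_s` of Walsh polynomials in the later coordinates -/
lemma Z_bound_one (s k : ℕ) (β : ℕ → ℝ) (A : ℝ) (hA : 0 ≤ A)
    (hV : ∑ b ∈ Finset.range (2^k), (β b)^2 ≤ A^2) :
    ∫⁻ x in Z s, ‖D k β (shiftN (s+1) x)‖ₑ ∂mu ≤ (2⁻¹:ℝ≥0∞)^(s+1) * ENNReal.ofReal A := by
  -- take the coefficients `a` with `bet s a = β`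
  set a : ℕ → ℝ := fun i => if i % 2^(s+1) = 0 then β (i / 2^(s+1)) else 0 with ha
  have hb : ∀ b, bet s a b = β b := by
    intro b
    rw [bet_eq]
    have h0 : 0 ∈ Finset.range (2^s) := Finset.mem_range.2 (by positivity)
    rw [Finset.sum_eq_single_of_mem 0 h0]
    · simp only [ha, add_zero]
      rw [if_pos (Nat.mul_mod_right _ _), Nat.mul_div_cancel_left _ (by positivity), if_neg, sub_zero]
      rw [Nat.mul_add_mod]
      rw [Nat.mod_eq_of_lt (by rw [pow_succ]; have : 0 < 2^s := by positivity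
                               omega)]
      positivity
    · intro l hl hl0
      have hl' := Finset.mem_range.1 hl
      have hlt1 : l < 2^(s+1) := by rw [pow_succ]; omega
      have hlt2 : 2^s + l < 2^(s+1) := by rw [pow_succ]; omega
      simp only [ha]
      rw [if_neg, if_neg, sub_zero]
      · rw [add_assoc, Nat.mul_add_mod, Nat.mod_eq_of_lt hlt2]
        omega
      · rw [Nat.mul_add_mod, Nat.mod_eq_of_lt hlt1]
        exact hl0
  have hbf : bet s a = β := funext hb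
  have h1 := Z_bound s k a 1 (A^2) (by norm_num) (by norm_num) (by rw [hbf]; exact hV)
  have e1 : (A^2) ^ ((1:ℝ)/2) = A := by
    rw [← Real.sqrt_eq_rpow, Real.sqrt_sq hA]
  rw [e1] at h1
  refine le_trans (le_of_eq ?_) h1
  apply setLIntegral_congr_fun (measurableSet_Z s)
  intro x hx
  simp only
  rw [D_Z s k a x hx, hbf, ENNReal.rpow_one]

/-- coefficients of the main kernel -/
noncomputable def tau (N t : ℕ) : ℝ := if N.testBit t then hn (2^t) else 0

lemma tau_nonneg (N t : ℕ) : 0 ≤ tau N t := by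
  unfold tau; split
  · exact hn_nonneg _
  · exact le_rfl

/-- the main part of the kernel -/
noncomputable def mainK (N M : ℕ) (x : G) : ℝ :=
  walsh N x * ∑ t ∈ Finset.range M, tau N t * (rad t x * D t (fun _ => 1) x)

lemma D_one_in (t : ℕ) (x : G) (h : ∀ j < t, x j = false) : D t (fun _ => 1) x = 2^t := by
  rw [D_one, Set.indicator_of_mem]
  exact h

lemma D_one_out (t s : ℕ) (x : G) (hs : s < t) (h : x s = true) : D t (fun _ => 1) x = 0 := by
  rw [D_one, Set.indicator_of_notMem]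
  intro hx
  have := hx s hs
  rw [h] at this
  exact absurd this (by simp [zeroG])

/-- `T_s = ∑_{t<s} τ_t 2^t` -/
noncomputable def Ts (N s : ℕ) : ℝ := ∑ t ∈ Finset.range s, tau N t * 2^t

lemma mainK_Z (N M s : ℕ) (hs : s < M) (x : G) (hx : x ∈ Z s) :
    mainK N M x = walsh N x * (Ts N s - tau N s * 2^s) := by
  obtain ⟨h1, h2⟩ := mem_Z.1 hx
  unfold mainK
  congr 1
  obtain ⟨k, rfl⟩ := Nat.exists_eq_add_of_lt hs
  rw [show s + k + 1 = (s+1) + k by ring, Finset.sum_range_add, Finset.sum_range_succ]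
  have z : ∑ t ∈ Finset.range k, tau N (s+1+t) * (rad (s+1+t) x * D (s+1+t) (fun _ => 1) x) = 0 := by
    apply Finset.sum_eq_zero
    intro t _
    rw [D_one_out (s+1+t) s x (by omega) h2]; ring
  rw [z, add_zero, D_one_in s x h1]
  have er : rad s x = -1 := by unfold rad; rw [h2]; simp
  rw [er]
  have e : ∑ t ∈ Finset.range s, tau N t * (rad t x * D t (fun _ => 1) x) = Ts N s := by
    unfold Ts
    apply Finset.sum_congr rfl
    intro t ht
    have ht' := Finset.mem_range.1 ht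
    rw [D_one_in t x (fun j hj => h1 j (by omega))]
    have : rad t x = 1 := by unfold rad; rw [h1 t ht']; simp
    rw [this, one_mul]
  rw [e]; ring

lemma walsh_split (t b ρ : ℕ) (hρ : ρ < 2^t) (x : G) :
    walsh (2^t*b + ρ) x = walsh b (shiftN t x) * walsh ρ x := by
  have hb : b < 2^b := Nat.lt_two_pow_self
  have h1 : 2^t*b + ρ < 2^(t+b) := by
    rw [pow_add]
    calc 2^t*b + ρ < 2^t*b + 2^t := by omega
      _ = 2^t*(b+1) := by ring
      _ ≤ 2^t*2^b := Nat.mul_le_mul_left _ hb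
  rw [walsh_eq _ _ h1, walsh_eq b b hb, walsh_eq ρ t hρ, Finset.prod_range_add, mul_comm]
  congr 1
  · apply Finset.prod_congr rfl
    intro k _
    have e : (2^t*b + ρ).testBit (t+k) = b.testBit k := by
      rw [Nat.testBit_two_pow_mul_add _ hρ, if_neg (by omega), Nat.add_sub_cancel_left]
    rw [e]
    unfold rad shiftN
    rw [add_comm t k]
  · apply Finset.prod_congr rfl
    intro k hk
    have := Finset.mem_range.1 hk
    have e : (2^t*b + ρ).testBit k = ρ.testBit k := by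
      rw [Nat.testBit_two_pow_mul_add _ hρ, if_pos this]
    rw [e]

lemma mod_succ_pow (N s : ℕ) :
    N % 2^(s+1) = N % 2^s + (if N.testBit s then 2^s else 0) := by
  rw [Nat.mod_pow_succ, Nat.testBit_eq_decide_div_mod_eq]
  congr 1
  rcases Nat.mod_two_eq_zero_or_one (N / 2^s) with h | h
  · rw [h]; simp
  · rw [h]; simp

lemma walsh_Z (N s : ℕ) (x : G) (hx : x ∈ Z s) :
    walsh N x = (if N.testBit s then (-1:ℝ) else 1) * walsh (N / 2^(s+1)) (shiftN (s+1) x) := by
  obtain ⟨h1, h2⟩ := mem_Z.1 hx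
  have hρ : N % 2^(s+1) < 2^(s+1) := Nat.mod_lt _ (by positivity)
  have e : N = 2^(s+1) * (N / 2^(s+1)) + N % 2^(s+1) := (Nat.div_add_mod N _).symm
  have e2 : walsh N x = walsh (2^(s+1) * (N / 2^(s+1)) + N % 2^(s+1)) x := by rw [← e]
  rw [e2, walsh_split _ _ _ hρ, mul_comm]
  congr 1
  rw [mod_succ_pow]
  have hρ' : N % 2^s < 2^s := Nat.mod_lt _ (by positivity)
  split
  · rw [add_comm, walsh_add_two_pow s _ hρ', walsh_one_of_zero s _ hρ' x h1]
    unfold rad; rw [h2]; simp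
  · rw [add_zero, walsh_one_of_zero s _ hρ' x h1]

/-- Comparison of `T_s` with `(N mod 2^s) l_{2^s}` -/
lemma Ts_bound (N s : ℕ) : 0 ≤ ((N % 2^s : ℕ):ℝ) * hn (2^s) - Ts N s ∧
    ((N % 2^s : ℕ):ℝ) * hn (2^s) - Ts N s ≤ 2 * 2^s := by
  induction s with
  | zero =>
    simp [Ts, Nat.mod_one]
  | succ s ih =>
    have hT : Ts N (s+1) = Ts N s + tau N s * 2^s := by unfold Ts; rw [Finset.sum_range_succ]
    have hmod := mod_succ_pow N s
    have hd0 : 0 ≤ hn (2^(s+1)) - hn (2^s) :=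
      sub_nonneg.2 (hn_mono (Nat.pow_le_pow_right (by norm_num) (Nat.le_succ s)))
    have hd1 : hn (2^(s+1)) - hn (2^s) ≤ 1 := by
      rw [pow_succ, Nat.mul_two]
      refine (hn_add_le _ _).trans ?_
      rw [div_le_one (by positivity)]; linarith
    have hρ : ((N % 2^(s+1) : ℕ):ℝ) ≤ 2 * 2^s := by
      have : N % 2^(s+1) < 2^(s+1) := Nat.mod_lt _ (by positivity)
      have h' : ((N % 2^(s+1) : ℕ):ℝ) ≤ ((2^(s+1) : ℕ):ℝ) := by exact_mod_cast this.le
      have e2 : ((2^(s+1) : ℕ):ℝ) = 2 * 2^s := by push_cast; rw [pow_succ]; ring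
      rw [e2] at h'
      exact h'
    have hρ0 : (0:ℝ) ≤ ((N % 2^(s+1) : ℕ):ℝ) := Nat.cast_nonneg _
    have e : ((N % 2^(s+1) : ℕ):ℝ) * hn (2^(s+1)) - Ts N (s+1) =
        (((N % 2^s : ℕ):ℝ) * hn (2^s) - Ts N s) +
          ((N % 2^(s+1) : ℕ):ℝ) * (hn (2^(s+1)) - hn (2^s)) := by
      rw [hT]
      have e1 : tau N s * 2^s = (((N % 2^(s+1) : ℕ):ℝ) - ((N % 2^s : ℕ):ℝ)) * hn (2^s) := by
        rw [hmod]
        unfold tau
        split <;> push_cast <;> ring
      rw [e1]; ring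
    rw [e]
    constructor
    · have := mul_nonneg hρ0 hd0
      linarith [ih.1]
    · have h3 : ((N % 2^(s+1) : ℕ):ℝ) * (hn (2^(s+1)) - hn (2^s)) ≤ 2 * 2^s * 1 :=
        mul_le_mul hρ hd1 hd0 (by positivity)
      have := ih.2
      have e2 : (2:ℝ)^(s+1) = 2 * 2^s := by rw [pow_succ]; ring
      rw [e2]
      linarith

lemma sum_hn_small (s ρ : ℕ) (h : ρ ≤ 2^s) :
    0 ≤ (ρ:ℝ) * hn (2^s) - ∑ u ∈ Finset.range ρ, hn u ∧
    (ρ:ℝ) * hn (2^s) - ∑ u ∈ Finset.range ρ, hn u ≤ 2^s := by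
  have e : (ρ:ℝ) * hn (2^s) - ∑ u ∈ Finset.range ρ, hn u =
      ∑ u ∈ Finset.range ρ, (hn (2^s) - hn u) := by
    rw [Finset.sum_sub_distrib, Finset.sum_const, Finset.card_range, nsmul_eq_mul]
  rw [e]
  constructor
  · apply Finset.sum_nonneg
    intro u hu
    have := Finset.mem_range.1 hu
    exact sub_nonneg.2 (hn_mono (by omega))
  · calc ∑ u ∈ Finset.range ρ, (hn (2^s) - hn u)
        ≤ ∑ u ∈ Finset.range (2^s), (hn (2^s) - hn u) := by
          apply Finset.sum_le_sum_of_subset_of_nonneg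
          · exact Finset.range_mono h
          · intro u hu _
            have := Finset.mem_range.1 hu
            exact sub_nonneg.2 (hn_mono (by omega))
      _ = 2^s := by rw [sumA]; push_cast; rfl

/-- top coefficient -/
lemma bet_top (s ρ b : ℕ) (hρ : ρ < 2^(s+1)) :
    |bet s (lc (2^(s+1)*b + ρ)) b - (if 2^s ≤ ρ then 2^(s+1) - (ρ:ℝ) else ρ) * hn (2^s)| ≤
      3 * 2^s := by
  rw [bet_eq]
  have e0 : 2^(s+1) = 2^s + 2^s := by rw [pow_succ]; ring
  have e0r : (2:ℝ)^(s+1) = 2^s + 2^s := by rw [pow_succ]; ring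
  have e1 : ∀ l, lc (2^(s+1)*b + ρ) (2^(s+1)*b + l) = hn (ρ - 1 - l) := by
    intro l
    unfold lc
    congr 1
    generalize 2^(s+1)*b = q
    omega
  have e2 : ∀ l, lc (2^(s+1)*b + ρ) (2^(s+1)*b + 2^s + l) = hn (ρ - 2^s - 1 - l) := by
    intro l
    unfold lc
    congr 1
    generalize 2^(s+1)*b = q
    generalize 2^s = r
    omega
  simp only [e1, e2]
  have hp : (0:ℝ) < 2^s := by positivity
  -- reflected sums of hn over a range, when ρ ≤ 2^s
  have key : ∀ ρ : ℕ, ρ ≤ 2^s → ∑ l ∈ Finset.range (2^s), hn (ρ - 1 - l) =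
      ∑ u ∈ Finset.range ρ, hn u := by
    intro ρ hρ
    rw [← Finset.sum_range_reflect (fun u => hn u) ρ]
    symm
    apply Finset.sum_subset (Finset.range_mono hρ)
    intro l _ hl
    simp only [Finset.mem_range, not_lt] at hl
    rw [show ρ - 1 - l = 0 by omega, hn_zero]
  rw [Finset.sum_sub_distrib]
  by_cases h : 2^s ≤ ρ
  · rw [if_pos h]
    obtain ⟨ρ', rfl⟩ := Nat.exists_eq_add_of_le h
    have hρ' : ρ' < 2^s := by omega
    have e3 : ∑ l ∈ Finset.range (2^s), hn (2^s + ρ' - 2^s - 1 - l) =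
        ∑ u ∈ Finset.range ρ', hn u := by
      rw [Nat.add_sub_cancel_left]; exact key ρ' hρ'.le
    have e4 : ∑ l ∈ Finset.range (2^s), hn (2^s + ρ' - 1 - l) =
        ∑ v ∈ Finset.range (2^s), hn (ρ' + v) := by
      rw [← Finset.sum_range_reflect]
      apply Finset.sum_congr rfl
      intro v hv
      have := Finset.mem_range.1 hv
      congr 1
      omega
    rw [e3, e4]
    have h5 := sum_hn_small s ρ' hρ'.le
    have h6 : |∑ v ∈ Finset.range (2^s), hn (ρ' + v) - 2^s * hn (2^s)| ≤ 2 * 2^s := by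
      have e5 : ∑ v ∈ Finset.range (2^s), hn (ρ' + v) - 2^s * hn (2^s) =
          ∑ v ∈ Finset.range (2^s), (hn (ρ' + v) - hn (2^s)) := by
        rw [Finset.sum_sub_distrib, Finset.sum_const, Finset.card_range, nsmul_eq_mul]
        push_cast; rfl
      rw [e5]
      calc |∑ v ∈ Finset.range (2^s), (hn (ρ' + v) - hn (2^s))|
          ≤ ∑ v ∈ Finset.range (2^s), |hn (ρ' + v) - hn (2^s)| := Finset.abs_sum_le_sum_abs _ _
        _ ≤ ∑ v ∈ Finset.range (2^s), (1 + (hn (2^s) - hn v)) := by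
            apply Finset.sum_le_sum
            intro v hv
            have hv' := Finset.mem_range.1 hv
            have a1 : hn v ≤ hn (ρ' + v) := hn_mono (by omega)
            have a2 : hn (ρ' + v) ≤ hn (2^s + 2^s) := hn_mono (by omega)
            have a3 := hn_add_le (2^s) (2^s)
            have a4 : ((2^s : ℕ):ℝ) / (((2^s : ℕ):ℝ)+1) ≤ 1 := by
              rw [div_le_one (by positivity)]; linarith
            have a5 : hn v ≤ hn (2^s) := hn_mono (by omega)
            rw [abs_le]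
            constructor <;> linarith
        _ = 2 * 2^s := by
            rw [Finset.sum_add_distrib, sumA, Finset.sum_const, Finset.card_range, nsmul_eq_mul]
            push_cast; ring
    have e7 : ∑ v ∈ Finset.range (2^s), hn (ρ' + v) - ∑ u ∈ Finset.range ρ', hn u -
        (2^(s+1) - ((2^s + ρ' : ℕ):ℝ)) * hn (2^s) =
        (∑ v ∈ Finset.range (2^s), hn (ρ' + v) - 2^s * hn (2^s)) +
          ((ρ':ℝ) * hn (2^s) - ∑ u ∈ Finset.range ρ', hn u) := by
      rw [e0r]; push_cast; ring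
    rw [e7]
    refine (abs_add_le _ _).trans ?_
    rw [abs_of_nonneg h5.1]
    linarith [h5.2]
  · rw [if_neg h]
    have h' : ρ ≤ 2^s := by omega
    have e3 : ∑ l ∈ Finset.range (2^s), hn (ρ - 2^s - 1 - l) = 0 := by
      apply Finset.sum_eq_zero
      intro l _
      rw [show ρ - 2^s - 1 - l = 0 by omega, hn_zero]
    rw [key ρ h', e3, sub_zero, abs_sub_comm]
    have h5 := sum_hn_small s ρ h'
    rw [abs_of_nonneg h5.1]
    linarith [h5.2]

/-- the top coefficient against the main kernel -/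
lemma top_diff (N s : ℕ) :
    |bet s (lc N) (N / 2^(s+1)) -
      (if N.testBit s then (-1:ℝ) else 1) * (Ts N s - tau N s * 2^s)| ≤ 5 * 2^s := by
  have hρ : N % 2^(s+1) < 2^(s+1) := Nat.mod_lt _ (by positivity)
  have hρ' : N % 2^s < 2^s := Nat.mod_lt _ (by positivity)
  have e : N = 2^(s+1) * (N / 2^(s+1)) + N % 2^(s+1) := (Nat.div_add_mod N _).symm
  have h1 := bet_top s (N % 2^(s+1)) (N / 2^(s+1)) hρ
  rw [← e] at h1
  have h2 := Ts_bound N s
  have hmod := mod_succ_pow N s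
  have e0r : (2:ℝ)^(s+1) = 2^s + 2^s := by rw [pow_succ]; ring
  unfold tau
  by_cases hb : N.testBit s = true
  · rw [if_pos hb] at hmod
    rw [if_pos hb, if_pos hb]
    rw [if_pos (by omega)] at h1
    have e3 : ((N % 2^(s+1) : ℕ):ℝ) = ((N % 2^s : ℕ):ℝ) + 2^s := by rw [hmod]; push_cast; rfl
    rw [e3, e0r] at h1
    have e4 : bet s (lc N) (N / 2^(s+1)) - -1 * (Ts N s - hn (2^s) * 2^s) =
        (bet s (lc N) (N / 2^(s+1)) - (2^s + 2^s - (((N % 2^s : ℕ):ℝ) + 2^s)) * hn (2^s)) -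
          (((N % 2^s : ℕ):ℝ) * hn (2^s) - Ts N s) := by ring
    rw [e4]
    refine (abs_sub _ _).trans ?_
    rw [abs_of_nonneg h2.1]
    linarith [h2.2]
  · rw [if_neg hb] at hmod
    rw [if_neg hb, if_neg hb]
    rw [if_neg (by omega)] at h1
    have e3 : ((N % 2^(s+1) : ℕ):ℝ) = ((N % 2^s : ℕ):ℝ) := by rw [hmod]; push_cast; ring
    rw [e3] at h1
    have e4 : bet s (lc N) (N / 2^(s+1)) - 1 * (Ts N s - 0 * 2^s) =
        (bet s (lc N) (N / 2^(s+1)) - ((N % 2^s : ℕ):ℝ) * hn (2^s)) +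
          (((N % 2^s : ℕ):ℝ) * hn (2^s) - Ts N s) := by ring
    rw [e4]
    refine (abs_add_le _ _).trans ?_
    rw [abs_of_nonneg h2.1]
    linarith [h2.2]

end Pool.Agent.V1193.Walsh
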