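import Pool.Agent.V1193.WalshWeakB

/-! Uniform weak type (1,1) of the logarithmic means and convergence for `p = 1`. -/

open MeasureTheory ProbabilityTheory Filter Topology
open scoped ENNReal

namespace Pool.Agent.V1193.Walsh

/-- remainder kernel -/
noncomputable def Rk (N M : ℕ) (x : G) : ℝ := D M (lc N) x - mainK N M x

lemma dep_mainK (N M : ℕ) (hN : N < 2^M) : Dep M (mainK N M) := by
  intro x y h
  unfold mainK
  rw [dep_walsh N M hN x y h]
  congr 1
  apply Finset.sum_congr rfl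
  intro t ht
  have ht' := Finset.mem_range.1 ht
  rw [(dep_rad t).mono (show t+1 ≤ M by omega) x y h,
    (dep_D t _).mono (show t ≤ M by omega) x y h]

lemma dep_Rk (N M : ℕ) (hN : N < 2^M) : Dep M (Rk N M) :=
  (dep_D M (lc N)).comp₂ (dep_mainK N M hN) (fun a b => a - b)

lemma half_pow_mul (s : ℕ) (c : ℝ) (hc : 0 ≤ c) :
    (2⁻¹:ℝ≥0∞)^(s+1) * ENNReal.ofReal (c * 2^s) = ENNReal.ofReal (c/2) := by
  have e : ((2⁻¹:ℝ≥0∞)^(s+1)) = ENNReal.ofReal ((1/2)^(s+1)) := by
    rw [ENNReal.ofReal_pow (by norm_num), one_div, ENNReal.ofReal_inv_of_pos (by norm_num)]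
    norm_num
  rw [e, ← ENNReal.ofReal_mul (by positivity)]
  congr 1
  rw [pow_succ, one_div, inv_pow]
  field_simp

lemma Rk_Z (N k s : ℕ) (hN : N < 2^(k+(s+1))) :
    ∫⁻ x in Z s, ‖Rk N (k+(s+1)) x‖ₑ ∂mu ≤ 4 := by
  set b0 := N / 2^(s+1) with hb0
  have hb0k : b0 < 2^k := by
    rw [hb0]
    apply Nat.div_lt_of_lt_mul
    rwa [← pow_add, add_comm (s+1) k]
  have hle : 2^(s+1)*b0 ≤ N := Nat.mul_div_le N _
  have hlt : N < 2^(s+1)*(b0+1) := Nat.lt_mul_div_succ N (show 0 < 2^(s+1) by positivity)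
  set β' : ℕ → ℝ := fun b => if b < b0 then bet s (lc N) b else 0 with hβ'
  have hpt : ∀ x ∈ Z s, ‖Rk N (k+(s+1)) x‖ₑ ≤
      ‖D k β' (shiftN (s+1) x)‖ₑ + ENNReal.ofReal (5 * 2^s) := by
    intro x hx
    have e1 : D k (bet s (lc N)) (shiftN (s+1) x) =
        D k β' (shiftN (s+1) x) + bet s (lc N) b0 * walsh b0 (shiftN (s+1) x) := by
      unfold D
      rw [← Finset.sum_erase_add _ _ (Finset.mem_range.2 hb0k),
        ← Finset.sum_erase_add (Finset.range (2^k)) (fun i => β' i * walsh i (shiftN (s+1) x))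
          (Finset.mem_range.2 hb0k)]
      have e2 : β' b0 = 0 := by simp only [hβ']; rw [if_neg (lt_irrefl _)]
      rw [e2, zero_mul, add_zero]
      congr 1
      apply Finset.sum_congr rfl
      intro b hb
      have hne := Finset.ne_of_mem_erase hb
      simp only [hβ']
      by_cases h : b < b0
      · rw [if_pos h]
      · rw [if_neg h, bet_lc_zero]
        have hb' : b0 + 1 ≤ b := by
          rcases lt_or_eq_of_le (not_lt.1 h) with h' | h'
          · exact h'
          · exact absurd h'.symm hne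
        exact hlt.le.trans (Nat.mul_le_mul_left _ hb')
    unfold Rk
    rw [D_Z s k (lc N) x hx, e1, mainK_Z N (k+(s+1)) s (by omega) x hx, walsh_Z N s x hx, ← hb0]
    have e3 : D k β' (shiftN (s+1) x) + bet s (lc N) b0 * walsh b0 (shiftN (s+1) x) -
        (if N.testBit s then (-1:ℝ) else 1) * walsh b0 (shiftN (s+1) x) *
          (Ts N s - tau N s * 2^s) =
        D k β' (shiftN (s+1) x) + walsh b0 (shiftN (s+1) x) * (bet s (lc N) b0 -
          (if N.testBit s then (-1:ℝ) else 1) * (Ts N s - tau N s * 2^s)) := by ring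
    rw [e3]
    refine (enorm_add_le _ _).trans (add_le_add le_rfl ?_)
    rw [Real.enorm_eq_ofReal_abs, abs_mul, abs_walsh, one_mul]
    exact ENNReal.ofReal_le_ofReal (top_diff N s)
  have hV : ∑ b ∈ Finset.range (2^k), (β' b)^2 ≤ (3 * 2^s)^2 := by
    have e4 : ((2:ℝ)^s)^2 = 4^s := by rw [← pow_mul, mul_comm s 2, pow_mul]; norm_num
    calc ∑ b ∈ Finset.range (2^k), (β' b)^2 = ∑ b ∈ Finset.range b0, (bet s (lc N) b)^2 := by
          symm
          rw [← Finset.sum_subset (Finset.range_mono hb0k.le)]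
          · apply Finset.sum_congr rfl
            intro b hb
            simp only [hβ']
            rw [if_pos (Finset.mem_range.1 hb)]
          · intro b _ hb
            simp only [hβ']
            rw [if_neg (fun h => hb (Finset.mem_range.2 h))]
            norm_num
      _ ≤ 8 * 4^s := sum_bet_lower s N b0 hle
      _ ≤ _ := by
          rw [mul_pow, e4]
          have : (0:ℝ) < 4^s := by positivity
          linarith
  calc ∫⁻ x in Z s, ‖Rk N (k+(s+1)) x‖ₑ ∂mu
      ≤ ∫⁻ x in Z s, (‖D k β' (shiftN (s+1) x)‖ₑ + ENNReal.ofReal (5 * 2^s)) ∂mu :=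
        setLIntegral_mono' (measurableSet_Z s) hpt
    _ = ∫⁻ x in Z s, ‖D k β' (shiftN (s+1) x)‖ₑ ∂mu +
        (2⁻¹:ℝ≥0∞)^(s+1) * ENNReal.ofReal (5 * 2^s) := by
        have hm : Measurable (fun x => ‖D k β' (shiftN (s+1) x)‖ₑ) :=
          ((measurable_D k β').comp (measurable_shiftN (s+1))).enorm
        rw [lintegral_add_left hm, setLIntegral_const, mu_Z, mul_comm (ENNReal.ofReal _)]
    _ ≤ (2⁻¹:ℝ≥0∞)^(s+1) * ENNReal.ofReal (3 * 2^s) +
        (2⁻¹:ℝ≥0∞)^(s+1) * ENNReal.ofReal (5 * 2^s) :=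
        add_le_add (Z_bound_one s k β' _ (by positivity) hV) le_rfl
    _ = 4 := by
        rw [half_pow_mul s 3 (by norm_num), half_pow_mul s 5 (by norm_num),
          ← ENNReal.ofReal_add (by norm_num) (by norm_num)]
        norm_num

lemma tau_le (N t : ℕ) : tau N t ≤ hn N := by
  unfold tau
  split
  · rename_i h
    apply hn_mono
    by_contra hc
    rw [Nat.testBit_lt_two_pow (not_le.1 hc)] at h
    exact absurd h (by simp)
  · exact hn_nonneg _

lemma Rk_zero (N M : ℕ) : ∀ x ∈ cyl M zeroG, ‖Rk N M x‖ₑ ≤ ENNReal.ofReal (2^M * (2 * hn N)) := by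
  intro x hx
  rw [Real.enorm_eq_ofReal_abs]
  apply ENNReal.ofReal_le_ofReal
  unfold Rk
  have h1 : |D M (lc N) x| ≤ 2^M * hn N := by
    unfold D
    calc |∑ i ∈ Finset.range (2^M), lc N i * walsh i x|
        ≤ ∑ i ∈ Finset.range (2^M), |lc N i * walsh i x| := Finset.abs_sum_le_sum_abs _ _
      _ ≤ ∑ i ∈ Finset.range (2^M), hn N := by
          apply Finset.sum_le_sum
          intro i _
          rw [abs_mul, abs_walsh, mul_one]
          unfold lc
          rw [abs_of_nonneg (hn_nonneg _)]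
          exact hn_mono (by omega)
      _ = _ := by rw [Finset.sum_const, Finset.card_range, nsmul_eq_mul]; push_cast; ring
  have h2 : |mainK N M x| ≤ 2^M * hn N := by
    unfold mainK
    rw [abs_mul, abs_walsh, one_mul]
    calc |∑ t ∈ Finset.range M, tau N t * (rad t x * D t (fun _ => 1) x)|
        ≤ ∑ t ∈ Finset.range M, |tau N t * (rad t x * D t (fun _ => 1) x)| :=
          Finset.abs_sum_le_sum_abs _ _
      _ ≤ ∑ t ∈ Finset.range M, hn N * 2^t := by
          apply Finset.sum_le_sum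
          intro t ht
          have ht' := Finset.mem_range.1 ht
          rw [abs_mul, abs_mul, abs_rad, one_mul, D_one_in t x (fun j hj => hx j (by omega)),
            abs_of_nonneg (tau_nonneg N t), abs_of_nonneg (by positivity : (0:ℝ) ≤ 2^t)]
          exact mul_le_mul_of_nonneg_right (tau_le N t) (by positivity)
      _ = hn N * ∑ t ∈ Finset.range M, 2^t := by rw [Finset.mul_sum]
      _ ≤ hn N * 2^M := by
          apply mul_le_mul_of_nonneg_left _ (hn_nonneg N)
          have := geom_sum_eq (show (2:ℝ) ≠ 1 by norm_num) M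
          rw [this]
          norm_num
      _ = _ := mul_comm _ _
  calc |D M (lc N) x - mainK N M x| ≤ |D M (lc N) x| + |mainK N M x| := abs_sub _ _
    _ ≤ 2^M * hn N + 2^M * hn N := add_le_add h1 h2
    _ = _ := by ring

lemma Rk_bound (N n : ℕ) (hN1 : 2^n ≤ N) (hN2 : N < 2^(n+1)) :
    ∫⁻ x, ‖Rk N (n+1) x‖ₑ ∂mu ≤ ENNReal.ofReal (10 * hn N) := by
  rw [lintegral_decomp _ (n+1)]
  have h1 : ∀ s ∈ Finset.range (n+1), ∫⁻ x in Z s, ‖Rk N (n+1) x‖ₑ ∂mu ≤ 4 := by
    intro s hs
    have hs' := Finset.mem_range.1 hs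
    obtain ⟨k, hk⟩ : ∃ k, n + 1 = k + (s+1) := ⟨n - s, by omega⟩
    rw [hk]
    exact Rk_Z N k s (by rw [← hk]; exact hN2)
  have h2 : ∫⁻ x in cyl (n+1) zeroG, ‖Rk N (n+1) x‖ₑ ∂mu ≤ ENNReal.ofReal (2 * hn N) := by
    calc ∫⁻ x in cyl (n+1) zeroG, ‖Rk N (n+1) x‖ₑ ∂mu
        ≤ ∫⁻ x in cyl (n+1) zeroG, ENNReal.ofReal (2^(n+1) * (2 * hn N)) ∂mu :=
          setLIntegral_mono' (measurableSet_cyl _ _) (Rk_zero N (n+1))
      _ = ENNReal.ofReal (2 * hn N) := by
          rw [setLIntegral_const, mu_cyl, ENNReal.ofReal_mul (by positivity),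
            ENNReal.ofReal_pow (by norm_num), mul_comm (ENNReal.ofReal 2 ^ (n+1)), mul_assoc,
            ← mul_pow]
          rw [show ENNReal.ofReal 2 * (2⁻¹:ℝ≥0∞) = 1 by
            rw [ENNReal.ofReal_ofNat]
            exact ENNReal.mul_inv_cancel (by norm_num) (by norm_num), one_pow, mul_one]
  calc ∑ s ∈ Finset.range (n+1), ∫⁻ x in Z s, ‖Rk N (n+1) x‖ₑ ∂mu +
        ∫⁻ x in cyl (n+1) zeroG, ‖Rk N (n+1) x‖ₑ ∂mu
      ≤ ∑ s ∈ Finset.range (n+1), (4:ℝ≥0∞) + ENNReal.ofReal (2 * hn N) :=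
        add_le_add (Finset.sum_le_sum h1) h2
    _ = ENNReal.ofReal (4 * ((n:ℝ)+1)) + ENNReal.ofReal (2 * hn N) := by
        congr 1
        rw [Finset.sum_const, Finset.card_range, nsmul_eq_mul, ← ENNReal.ofReal_natCast,
          show (4:ℝ≥0∞) = ENNReal.ofReal 4 by norm_num, ← ENNReal.ofReal_mul (by positivity)]
        congr 1; push_cast; ring
    _ = ENNReal.ofReal (4 * ((n:ℝ)+1) + 2 * hn N) := by
        rw [ENNReal.ofReal_add (by positivity) (mul_nonneg (by norm_num) (hn_nonneg N))]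
    _ ≤ _ := by
        apply ENNReal.ofReal_le_ofReal
        have := hn_two_pow_ge n
        have := hn_mono hN1
        linarith

/-- the coefficients of `g w_N` -/
noncomputable def cN (N : ℕ) (g : G → ℝ) (i : ℕ) : ℝ := ∫ y, g y * walsh N y * walsh i y ∂mu

lemma conv_mainK {M : ℕ} {g : G → ℝ} (hg : Dep M g) (N : ℕ) (hN : N < 2^M) (x : G) :
    conv g (mainK N M) x = walsh N x * trans (tau N) (cN N g) M x := by
  have hgN : Dep M (fun y => g y * walsh N y) := hg.comp₂ (dep_walsh N M hN) (fun a b => a * b)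
  unfold conv mainK
  have e : ∀ y, g y * (walsh N (gadd x y) *
      ∑ t ∈ Finset.range M, tau N t * (rad t (gadd x y) * D t (fun _ => 1) (gadd x y))) =
      ∑ t ∈ Finset.range M, ∑ i ∈ Finset.range (2^t), (walsh N x * tau N t * rad t x * walsh i x) *
        (g y * walsh N y * walsh (2^t + i) y) := by
    intro y
    rw [Finset.mul_sum, Finset.mul_sum]
    apply Finset.sum_congr rfl
    intro t _
    unfold D
    rw [Finset.mul_sum, Finset.mul_sum, Finset.mul_sum, Finset.mul_sum]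
    apply Finset.sum_congr rfl
    intro i hi
    rw [walsh_gadd, walsh_gadd, rad_gadd, walsh_add_two_pow t i (Finset.mem_range.1 hi)]
    ring
  simp only [e]
  have hint : ∀ t ∈ Finset.range M, ∀ i ∈ Finset.range (2^t),
      Integrable (fun y => (walsh N x * tau N t * rad t x * walsh i x) *
        (g y * walsh N y * walsh (2^t + i) y)) mu := by
    intro t ht i hi
    have ht' := Finset.mem_range.1 ht
    have hi' := Finset.mem_range.1 hi
    apply Integrable.const_mul
    have hd : Dep M (walsh (2^t+i)) := by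
      apply dep_walsh
      calc 2^t + i < 2^(t+1) := by rw [pow_succ]; omega
        _ ≤ 2^M := Nat.pow_le_pow_right (by norm_num) (by omega)
    exact (hgN.comp₂ hd (fun a b => a * b)).integrable
  rw [integral_finsetSum _ (fun t ht => integrable_finsetSum _ (fun i hi => hint t ht i hi))]
  unfold trans
  rw [Finset.mul_sum]
  apply Finset.sum_congr rfl
  intro t ht
  rw [integral_finsetSum _ (fun i hi => hint t ht i hi)]
  unfold D cN
  rw [Finset.mul_sum, Finset.mul_sum, Finset.mul_sum]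
  apply Finset.sum_congr rfl
  intro i _
  rw [integral_const_mul]
  ring

lemma trans_smul (a : ℝ) (v c : ℕ → ℝ) (n : ℕ) (x : G) :
    a * trans v c n x = trans (fun t => a * v t) c n x := by
  unfold trans
  rw [Finset.mul_sum]
  apply Finset.sum_congr rfl
  intro u _
  ring

lemma D_cN {M : ℕ} {g : G → ℝ} (hg : Dep M g) (N : ℕ) (hN : N < 2^M) (x : G) :
    D M (cN N g) x = g x * walsh N x := by
  have hgN : Dep M (fun y => g y * walsh N y) := hg.comp₂ (dep_walsh N M hN) (fun a b => a * b)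
  have := hgN.expansion x
  exact this.symm

/-- Uniform weak type (1,1). -/
theorem weak_log (N n : ℕ) (hN1 : 2^n ≤ N) (hN2 : N < 2^(n+1)) {g : G → ℝ} (hg : Dep (n+1) g)
    (lam : ℝ) (hl : 0 < lam) :
    ENNReal.ofReal lam * mu {x | 2*lam ≤ |1 / hn N * conv g (D (n+1) (lc N)) x|} ≤
      12 * ∫⁻ x, ‖g x‖ₑ ∂mu := by
  have hN0 : 0 < N := lt_of_lt_of_le (by positivity) hN1
  have hpos := hn_pos hN0
  have hRd := dep_Rk N (n+1) hN2
  have hMd := dep_mainK N (n+1) hN2
  -- decomposition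
  have hdec : ∀ x, 1 / hn N * conv g (D (n+1) (lc N)) x =
      walsh N x * trans (fun t => 1 / hn N * tau N t) (cN N g) (n+1) x +
        1 / hn N * conv g (Rk N (n+1)) x := by
    intro x
    rw [← trans_smul, ← mul_assoc, mul_comm (walsh N x) (1 / hn N), mul_assoc, ← conv_mainK hg N hN2,
      ← mul_add]
    congr 1
    unfold conv
    rw [← integral_add]
    · apply integral_congr_ae
      refine Eventually.of_forall (fun y => ?_)
      simp only [Rk]
      ring
    · exact (hg.comp₂ (hMd.gadd_right x) (fun a b => a * b)).integrable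
    · exact (hg.comp₂ (hRd.gadd_right x) (fun a b => a * b)).integrable
  have hsub : {x | 2*lam ≤ |1 / hn N * conv g (D (n+1) (lc N)) x|} ⊆
      {x | lam ≤ |trans (fun t => 1 / hn N * tau N t) (cN N g) (n+1) x|} ∪
        {x | ENNReal.ofReal lam ≤ ‖1 / hn N * conv g (Rk N (n+1)) x‖ₑ} := by
    intro x hx
    by_contra hc
    simp only [Set.mem_union, Set.mem_ofPred_eq, not_or, not_le] at hc hx
    obtain ⟨h1, h2⟩ := hc
    rw [Real.enorm_eq_ofReal_abs, ENNReal.ofReal_lt_ofReal_iff hl] at h2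
    rw [hdec x] at hx
    have h3 := abs_add_le (walsh N x * trans (fun t => 1 / hn N * tau N t) (cN N g) (n+1) x)
      (1 / hn N * conv g (Rk N (n+1)) x)
    rw [abs_mul (walsh N x), abs_walsh, one_mul] at h3
    linarith
  have hv : ∀ u, |1 / hn N * tau N u| ≤ 1 := by
    intro u
    rw [abs_of_nonneg (mul_nonneg (by positivity) (tau_nonneg N u)), one_div, ← div_eq_inv_mul,
      div_le_one hpos]
    exact tau_le N u
  have hA := weak_trans (fun t => 1 / hn N * tau N t) (cN N g) hv (n+1) lam hl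
  have eA : ∫⁻ x, ‖D (n+1) (cN N g) x‖ₑ ∂mu = ∫⁻ x, ‖g x‖ₑ ∂mu := by
    apply lintegral_congr
    intro x
    rw [D_cN hg N hN2, enorm_mul]
    have : ‖walsh N x‖ₑ = 1 := by rw [Real.enorm_eq_ofReal_abs, abs_walsh]; simp
    rw [this, mul_one]
  rw [eA] at hA
  have hcd : Dep (n+1) (fun x => 1 / hn N * conv g (Rk N (n+1)) x) :=
    (dep_conv hRd).comp (fun a => 1 / hn N * a)
  have hB : ENNReal.ofReal lam * mu {x | ENNReal.ofReal lam ≤ ‖1 / hn N * conv g (Rk N (n+1)) x‖ₑ} ≤
      10 * ∫⁻ x, ‖g x‖ₑ ∂mu := by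
    refine (mul_meas_ge_le_lintegral hcd.measurable.enorm _).trans ?_
    have e1 : ∀ x, ‖1 / hn N * conv g (Rk N (n+1)) x‖ₑ =
        ENNReal.ofReal (1 / hn N) * ‖conv g (Rk N (n+1)) x‖ₑ := by
      intro x
      rw [enorm_mul, Real.enorm_eq_ofReal_abs (1 / hn N), abs_of_pos (by positivity)]
    simp only [e1]
    rw [lintegral_const_mul _ (dep_conv hRd).measurable.enorm]
    have h4 := conv_bound hg hRd 1 (by norm_num) le_rfl
    simp only [ENNReal.rpow_one, sub_self, ENNReal.rpow_zero, one_mul] at h4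
    calc ENNReal.ofReal (1 / hn N) * ∫⁻ x, ‖conv g (Rk N (n+1)) x‖ₑ ∂mu
        ≤ ENNReal.ofReal (1 / hn N) * ((∫⁻ x, ‖g x‖ₑ ∂mu) * ENNReal.ofReal (10 * hn N)) := by
          gcongr
          refine h4.trans ?_
          gcongr
          exact Rk_bound N n hN1 hN2
      _ = (ENNReal.ofReal (1 / hn N) * ENNReal.ofReal (10 * hn N)) * ∫⁻ x, ‖g x‖ₑ ∂mu := by ring
      _ = 10 * ∫⁻ x, ‖g x‖ₑ ∂mu := by
          rw [← ENNReal.ofReal_mul (by positivity)]
          congr 1
          rw [show 1 / hn N * (10 * hn N) = 10 by field_simp]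
          norm_num
  calc ENNReal.ofReal lam * mu {x | 2*lam ≤ |1 / hn N * conv g (D (n+1) (lc N)) x|}
      ≤ ENNReal.ofReal lam * (mu {x | lam ≤ |trans (fun t => 1 / hn N * tau N t) (cN N g) (n+1) x|} +
        mu {x | ENNReal.ofReal lam ≤ ‖1 / hn N * conv g (Rk N (n+1)) x‖ₑ}) := by
        gcongr
        exact (measure_mono hsub).trans (measure_union_le _ _)
    _ = _ + _ := mul_add _ _ _
    _ ≤ 2 * ∫⁻ x, ‖g x‖ₑ ∂mu + 10 * ∫⁻ x, ‖g x‖ₑ ∂mu := add_le_add hA hB
    _ = 12 * ∫⁻ x, ‖g x‖ₑ ∂mu := by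
        rw [← add_mul]; norm_num

end Pool.Agent.V1193.Walsh
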