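import Pool.Agent.V1193.WalshGen

/-! The weights of the Cesàro means and of the `U^α` means satisfy the conditions. -/

open MeasureTheory ProbabilityTheory Filter Topology
open scoped ENNReal

namespace Pool.Agent.V1193.Walsh

/-- `U^α_n f = (1/Q_n) ∑_{k=1}^n (n+1-k)^{α-1} S_k f`, `Q_n = ∑_{k=1}^n k^{α-1}`. -/
noncomputable def uMean (α : ℝ) (n : ℕ) (f : ℕ → G → ℝ) (x : G) : ℝ :=
  (1 / ∑ k ∈ Finset.Icc 1 n, (k:ℝ) ^ (α-1)) *
    ∑ k ∈ Finset.Icc 1 n, (((n + 1 - k : ℕ) : ℝ)) ^ (α-1) * psum f k x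

/-- `A_n^α = (α+1)⋯(α+n)/n!` -/
noncomputable def cesNum (α : ℝ) (n : ℕ) : ℝ :=
  (∏ i ∈ Finset.range n, (α + ((i:ℝ)+1))) / (n.factorial : ℝ)

/-- `σ_n^α f = (1/A_n^α) ∑_{k=1}^n A_{n-k}^{α-1} S_k f`. -/
noncomputable def cesMean (α : ℝ) (n : ℕ) (f : ℕ → G → ℝ) (x : G) : ℝ :=
  (1 / cesNum α n) * ∑ k ∈ Finset.Icc 1 n, cesNum (α-1) (n-k) * psum f k x

/-! ### U means -/

/-- weights -/
noncomputable def qU (α : ℝ) (l : ℕ) : ℝ := ((l:ℝ)+1) ^ (α-1)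

lemma uMean_eq (α : ℝ) (n : ℕ) (f : ℕ → G → ℝ) (x : G) :
    uMean α n f x = norl (qU α) (Qs (qU α)) n f x := by
  unfold uMean norl
  have e1 : ∑ k ∈ Finset.Icc 1 n, (k:ℝ) ^ (α-1) = Qs (qU α) n := by
    unfold Qs qU
    rw [← Finset.Ico_add_one_right_eq_Icc, Finset.sum_Ico_eq_sum_range]
    apply Finset.sum_congr (by simp)
    intro i _
    congr 1; push_cast; ring
  rw [e1, one_div]
  congr 1
  apply Finset.sum_congr rfl
  intro k hk
  simp only [Finset.mem_Icc] at hk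
  congr 1
  unfold qU
  congr 1
  rw [show n + 1 - k = (n-k)+1 by omega]
  push_cast; ring

lemma sum_pow_le (α : ℝ) (h0 : 0 < α) (h1 : α < 1) (n : ℕ) :
    Qs (qU α) n ≤ (1/α) * (n:ℝ) ^ α := by
  induction n with
  | zero => simp [Qs, Real.zero_rpow h0.ne']
  | succ n ih =>
    unfold Qs at *
    rw [Finset.sum_range_succ]
    have hpos : (0:ℝ) < (n:ℝ)+1 := by positivity
    have hb : (1 + (-(1/((n:ℝ)+1)))) ^ α ≤ 1 + α * (-(1/((n:ℝ)+1))) := by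
      apply rpow_one_add_le_one_add_mul_self _ h0.le h1.le
      rw [neg_le_neg_iff, div_le_one hpos]; linarith [(Nat.cast_nonneg n : (0:ℝ) ≤ n)]
    have e1 : (n:ℝ) ^ α = ((n:ℝ)+1) ^ α * (1 + (-(1/((n:ℝ)+1)))) ^ α := by
      rw [← Real.mul_rpow hpos.le]
      · congr 1; field_simp; ring
      · have : 1/((n:ℝ)+1) ≤ 1 := by
          rw [div_le_one hpos]; linarith [(Nat.cast_nonneg n : (0:ℝ) ≤ n)]
        linarith
    have e2 : ((n:ℝ)+1) ^ (α-1) = ((n:ℝ)+1) ^ α * (1/((n:ℝ)+1)) := by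
      rw [Real.rpow_sub_one hpos.ne']; ring
    have h3 : (n:ℝ) ^ α ≤ ((n:ℝ)+1) ^ α * (1 + α * (-(1/((n:ℝ)+1)))) := by
      rw [e1]
      exact mul_le_mul_of_nonneg_left hb (by positivity)
    push_cast
    unfold qU at ih ⊢
    rw [e2]
    have h4 : (1/α) * (n:ℝ)^α ≤ (1/α) * (((n:ℝ)+1) ^ α * (1 + α * (-(1/((n:ℝ)+1))))) :=
      mul_le_mul_of_nonneg_left h3 (by positivity)
    have e3 : (1/α) * (((n:ℝ)+1) ^ α * (1 + α * (-(1/((n:ℝ)+1))))) =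
        (1/α) * ((n:ℝ)+1) ^ α - ((n:ℝ)+1) ^ α * (1/((n:ℝ)+1)) := by
      field_simp
      ring
    linarith

lemma two_pow_rpow (n : ℕ) (α : ℝ) : (((2:ℕ)^n : ℕ) : ℝ) ^ α = (2:ℝ) ^ ((n:ℝ) * α) := by
  push_cast
  rw [← Real.rpow_natCast, ← Real.rpow_mul (by norm_num)]

lemma c_pos (α : ℝ) (h1 : α < 1) : 0 < 1 - (2:ℝ)^(α-1) := by
  have : (2:ℝ)^(α-1) < 1 := Real.rpow_lt_one_of_one_lt_of_neg (by norm_num) (by linarith)
  linarith

lemma goodU (α : ℝ) (h0 : 0 < α) (h1 : α < 1) :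
    GoodWeights α (qU α) (Qs (qU α)) (1/α) (1 - (2:ℝ)^(α-1)) where
  anti := by
    intro a b hab
    unfold qU
    apply Real.rpow_le_rpow_of_nonpos (by positivity) _ (by linarith)
    have : (a:ℝ) ≤ b := by exact_mod_cast hab
    linarith
  nonneg n := by unfold qU; positivity
  Cpos := by positivity
  cpos := c_pos α h1
  Bpos n := by
    unfold Qs
    apply Finset.sum_pos
    · intro i _; unfold qU; positivity
    · exact Finset.nonempty_range_iff.2 (by positivity)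
  Ble n := by
    have := sum_pow_le α h0 h1 (2^n)
    rwa [two_pow_rpow] at this
  Qle n := by
    have := sum_pow_le α h0 h1 (2^n)
    rwa [two_pow_rpow] at this
  diff s m hm1 hm2 := by
    unfold qU
    have hh : ((m:ℝ)+1) ≤ (2:ℝ)^((s:ℝ)+1) := by
      have : m + 1 ≤ 2^(s+1) := hm2
      have h' : ((m+1 : ℕ):ℝ) ≤ ((2^(s+1) : ℕ) : ℝ) := by exact_mod_cast this
      push_cast at h'
      rw [show ((s:ℝ)+1) = ((s+1 : ℕ):ℝ) by push_cast; ring, Real.rpow_natCast]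
      exact h'
    have e2 : (((m + 2^(s+1) : ℕ):ℝ)+1) ^ (α-1) ≤ (2:ℝ)^(α-1) * ((m:ℝ)+1) ^ (α-1) := by
      rw [← Real.mul_rpow (by norm_num) (by positivity)]
      apply Real.rpow_le_rpow_of_nonpos (by positivity) _ (by linarith)
      have : m + 1 ≤ 2^(s+1) := hm2
      have h' : ((m+1 : ℕ):ℝ) ≤ ((2^(s+1) : ℕ) : ℝ) := by exact_mod_cast this
      push_cast at h' ⊢
      linarith
    have e3 : (2:ℝ) ^ (((s:ℝ)+1) * (α-1)) ≤ ((m:ℝ)+1) ^ (α-1) := by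
      rw [Real.rpow_mul (by norm_num)]
      exact Real.rpow_le_rpow_of_nonpos (by positivity) hh (by linarith)
    have := c_pos α h1
    nlinarith

/-! ### Cesàro means -/

lemma cesNum_zero (α : ℝ) : cesNum α 0 = 1 := by simp [cesNum]

lemma cesNum_succ (α : ℝ) (n : ℕ) :
    cesNum α (n+1) = cesNum α n * ((α + ((n:ℝ)+1)) / ((n:ℝ)+1)) := by
  unfold cesNum
  rw [Finset.prod_range_succ, Nat.factorial_succ]
  push_cast
  have : ((n.factorial : ℕ):ℝ) ≠ 0 := by positivity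
  have : (n:ℝ)+1 ≠ 0 := by positivity
  field_simp

lemma cesNum_pos (α : ℝ) (h0 : -1 < α) (n : ℕ) : 0 < cesNum α n := by
  induction n with
  | zero => rw [cesNum_zero]; norm_num
  | succ n ih =>
    rw [cesNum_succ]
    have : (0:ℝ) < α + ((n:ℝ)+1) := by
      have : (0:ℝ) ≤ n := Nat.cast_nonneg n
      linarith
    positivity

/-- `A_n^{α-1} = α/(α+n) A_n^α` -/
lemma cesNum_sub_one (α : ℝ) (h0 : 0 < α) (n : ℕ) :
    cesNum (α-1) n = α / (α + n) * cesNum α n := by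
  induction n with
  | zero => rw [cesNum_zero, cesNum_zero]; simp [h0.ne']
  | succ n ih =>
    rw [cesNum_succ, cesNum_succ, ih]
    push_cast
    have : (0:ℝ) ≤ n := Nat.cast_nonneg n
    have h1 : α + (n:ℝ) ≠ 0 := by positivity
    have h2 : α + ((n:ℝ)+1) ≠ 0 := by positivity
    field_simp
    ring

lemma Qs_ces (α : ℝ) (h0 : 0 < α) (n : ℕ) : Qs (cesNum (α-1)) (n+1) = cesNum α n := by
  induction n with
  | zero => simp [Qs, cesNum_zero]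
  | succ n ih =>
    unfold Qs at *
    rw [Finset.sum_range_succ, ih, cesNum_sub_one α h0 (n+1), cesNum_succ]
    push_cast
    have : (0:ℝ) ≤ n := Nat.cast_nonneg n
    have h2 : α + ((n:ℝ)+1) ≠ 0 := by positivity
    field_simp
    ring

lemma cesNum_ge (α : ℝ) (h0 : 0 < α) (h1 : α < 1) (n : ℕ) : ((n:ℝ)+1) ^ α ≤ cesNum α n := by
  induction n with
  | zero => rw [cesNum_zero]; simp
  | succ n ih =>
    rw [cesNum_succ]
    have hpos : (0:ℝ) < (n:ℝ)+1 := by positivity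
    have hb : (1 + 1/((n:ℝ)+1)) ^ α ≤ 1 + α * (1/((n:ℝ)+1)) := by
      apply rpow_one_add_le_one_add_mul_self _ h0.le h1.le
      have : 0 < 1/((n:ℝ)+1) := by positivity
      linarith
    have e1 : (((n+1 : ℕ):ℝ)+1) ^ α = ((n:ℝ)+1) ^ α * (1 + 1/((n:ℝ)+1)) ^ α := by
      rw [← Real.mul_rpow hpos.le (by positivity)]
      congr 1; push_cast; field_simp
    rw [e1]
    apply mul_le_mul ih _ (by positivity) (cesNum_pos α (by linarith) n).le
    refine hb.trans (le_of_eq ?_)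
    field_simp; ring

lemma cesNum_le (α : ℝ) (h0 : 0 < α) (h1 : α < 1) (n : ℕ) :
    cesNum α (n+1) ≤ 2 * ((n:ℝ)+1) ^ α := by
  induction n with
  | zero =>
    rw [cesNum_succ, cesNum_zero]; simp; linarith
  | succ n ih =>
    rw [cesNum_succ]
    have hpos : (0:ℝ) < (n:ℝ)+1+1 := by positivity
    have hn : (0:ℝ) ≤ n := Nat.cast_nonneg n
    have hle1 : 1/((n:ℝ)+1+1) ≤ 1 := by
      rw [div_le_one hpos]; linarith
    have hb : (1 + (-(1/((n:ℝ)+1+1)))) ^ α ≤ 1 + α * (-(1/((n:ℝ)+1+1))) := by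
      apply rpow_one_add_le_one_add_mul_self _ h0.le h1.le
      linarith
    have e1 : ((n:ℝ)+1) ^ α = ((n:ℝ)+1+1) ^ α * (1 + (-(1/((n:ℝ)+1+1)))) ^ α := by
      rw [← Real.mul_rpow hpos.le (by linarith)]
      congr 1; field_simp; ring
    have h3 : ((n:ℝ)+1) ^ α ≤ ((n:ℝ)+1+1) ^ α * (1 + α * (-(1/((n:ℝ)+1+1)))) := by
      rw [e1]
      exact mul_le_mul_of_nonneg_left hb (by positivity)
    push_cast
    have e4 : (α + ((n:ℝ)+1+1)) / ((n:ℝ)+1+1) = 1 + α * (1/((n:ℝ)+1+1)) := by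
      field_simp; ring
    rw [e4]
    have h5 : cesNum α (n+1) ≤ 2 * (((n:ℝ)+1+1) ^ α * (1 + α * (-(1/((n:ℝ)+1+1))))) :=
      ih.trans (by linarith)
    have hpp : 0 < 1 + α * (1/((n:ℝ)+1+1)) := by positivity
    calc cesNum α (n+1) * (1 + α * (1/((n:ℝ)+1+1)))
        ≤ 2 * (((n:ℝ)+1+1) ^ α * (1 + α * (-(1/((n:ℝ)+1+1))))) * (1 + α * (1/((n:ℝ)+1+1))) :=
          mul_le_mul_of_nonneg_right h5 hpp.le
      _ = 2 * ((n:ℝ)+1+1) ^ α * (1 - (α * (1/((n:ℝ)+1+1)))^2) := by ring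
      _ ≤ 2 * ((n:ℝ)+1+1) ^ α * 1 := by
          apply mul_le_mul_of_nonneg_left _ (by positivity)
          have := sq_nonneg (α * (1/((n:ℝ)+1+1)))
          linarith
      _ = 2 * ((n:ℝ)+1+1) ^ α := by ring

lemma cesNum_le_two_pow (α : ℝ) (h0 : 0 < α) (h1 : α < 1) (n : ℕ) :
    cesNum α (2^n) ≤ 2 * (2:ℝ) ^ ((n:ℝ) * α) := by
  have e : 2^n = (2^n - 1) + 1 := by have := Nat.one_le_two_pow (n := n); omega
  have := cesNum_le α h0 h1 (2^n-1)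
  rw [← e] at this
  have e2 : (((2^n - 1 : ℕ) : ℝ) + 1) = ((2^n : ℕ):ℝ) := by
    conv_rhs => rw [e]
    push_cast; ring
  rw [e2, two_pow_rpow] at this
  exact this

lemma cesNum_anti (α : ℝ) (h0 : 0 < α) (h1 : α < 1) : Antitone (cesNum (α-1)) := by
  apply antitone_nat_of_succ_le
  intro n
  rw [cesNum_succ]
  have hp := cesNum_pos (α-1) (by linarith) n
  have : (α - 1 + ((n:ℝ)+1)) / ((n:ℝ)+1) ≤ 1 := by
    rw [div_le_one (by positivity)]; linarith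
  calc cesNum (α-1) n * ((α - 1 + ((n:ℝ)+1)) / ((n:ℝ)+1)) ≤ cesNum (α-1) n * 1 :=
        mul_le_mul_of_nonneg_left this hp.le
    _ = _ := mul_one _

lemma cesNum_rate (α : ℝ) (h0 : 0 < α) (h1 : α < 1) :
    Antitone (fun n : ℕ => cesNum (α-1) n * ((n:ℝ)+1) ^ (1-α)) := by
  apply antitone_nat_of_succ_le
  intro n
  show cesNum (α-1) (n+1) * (((n+1 : ℕ):ℝ)+1) ^ (1-α) ≤ cesNum (α-1) n * ((n:ℝ)+1) ^ (1-α)
  rw [cesNum_succ]
  have hp := cesNum_pos (α-1) (by linarith) n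
  have hpos : (0:ℝ) < (n:ℝ)+1 := by positivity
  have hb : (1 + 1/((n:ℝ)+1)) ^ (1-α) ≤ 1 + (1-α) * (1/((n:ℝ)+1)) := by
    apply rpow_one_add_le_one_add_mul_self _ (by linarith) (by linarith)
    have : 0 < 1/((n:ℝ)+1) := by positivity
    linarith
  have e1 : (((n+1 : ℕ):ℝ)+1) ^ (1-α) = ((n:ℝ)+1) ^ (1-α) * (1 + 1/((n:ℝ)+1)) ^ (1-α) := by
    rw [← Real.mul_rpow hpos.le (by positivity)]
    congr 1; push_cast; field_simp
  rw [e1]
  have e2 : (α - 1 + ((n:ℝ)+1)) / ((n:ℝ)+1) = 1 - (1-α) * (1/((n:ℝ)+1)) := by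
    field_simp; ring
  rw [e2]
  have hle1 : 1/((n:ℝ)+1) ≤ 1 := by
    rw [div_le_one hpos]; linarith [(Nat.cast_nonneg n : (0:ℝ) ≤ n)]
  have ht0 : 0 < 1/((n:ℝ)+1) := by positivity
  have h3 : 0 ≤ 1 - (1-α) * (1/((n:ℝ)+1)) := by nlinarith
  have h4 : (1 - (1-α) * (1/((n:ℝ)+1))) * (1 + 1/((n:ℝ)+1)) ^ (1-α) ≤ 1 := by
    calc (1 - (1-α) * (1/((n:ℝ)+1))) * (1 + 1/((n:ℝ)+1)) ^ (1-α)
        ≤ (1 - (1-α) * (1/((n:ℝ)+1))) * (1 + (1-α) * (1/((n:ℝ)+1))) :=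
          mul_le_mul_of_nonneg_left hb h3
      _ = 1 - ((1-α) * (1/((n:ℝ)+1)))^2 := by ring
      _ ≤ 1 := by have := sq_nonneg ((1-α) * (1/((n:ℝ)+1))); linarith
  calc cesNum (α-1) n * (1 - (1-α) * (1/((n:ℝ)+1))) *
        (((n:ℝ)+1) ^ (1-α) * (1 + 1/((n:ℝ)+1)) ^ (1-α))
      = (cesNum (α-1) n * ((n:ℝ)+1) ^ (1-α)) *
        ((1 - (1-α) * (1/((n:ℝ)+1))) * (1 + 1/((n:ℝ)+1)) ^ (1-α)) := by ring
    _ ≤ (cesNum (α-1) n * ((n:ℝ)+1) ^ (1-α)) * 1 :=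
        mul_le_mul_of_nonneg_left h4 (by positivity)
    _ = _ := mul_one _

lemma goodC (α : ℝ) (h0 : 0 < α) (h1 : α < 1) :
    GoodWeights α (cesNum (α-1)) (cesNum α) 2 (α * (1 - (2:ℝ)^(α-1))) where
  anti := cesNum_anti α h0 h1
  nonneg n := (cesNum_pos (α-1) (by linarith) n).le
  Cpos := by norm_num
  cpos := mul_pos h0 (c_pos α h1)
  Bpos n := cesNum_pos α (by linarith) _
  Ble n := cesNum_le_two_pow α h0 h1 n
  Qle n := by
    refine le_trans ?_ (cesNum_le_two_pow α h0 h1 n)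
    rw [← Qs_ces α h0]
    unfold Qs
    rw [Finset.sum_range_succ]
    have := cesNum_pos (α-1) (by linarith) (2^n)
    linarith
  diff s m hm1 hm2 := by
    have hm3 : m + 1 ≤ 2^(s+1) := hm2
    have h' : ((m:ℝ)+1) ≤ (2:ℝ)^(s+1) := by exact_mod_cast hm3
    have hh : ((m:ℝ)+1) ≤ (2:ℝ)^((s:ℝ)+1) := by
      rw [show ((s:ℝ)+1) = ((s+1 : ℕ):ℝ) by push_cast; ring, Real.rpow_natCast]
      exact h'
    have e3 : (2:ℝ) ^ (((s:ℝ)+1) * (α-1)) ≤ ((m:ℝ)+1) ^ (α-1) := by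
      rw [Real.rpow_mul (by norm_num)]
      exact Real.rpow_le_rpow_of_nonpos (by positivity) hh (by linarith)
    have hpm := cesNum_pos (α-1) (by linarith) m
    have hpm' := cesNum_pos (α-1) (by linarith) (m+2^(s+1))
    -- lower bound for q_m
    have h4 : α * ((m:ℝ)+1) ^ (α-1) ≤ cesNum (α-1) m := by
      rw [cesNum_sub_one α h0 m]
      have h5 := cesNum_ge α h0 h1 m
      have hm0 : (0:ℝ) ≤ m := Nat.cast_nonneg m
      have e2 : ((m:ℝ)+1) ^ (α-1) = ((m:ℝ)+1) ^ α / ((m:ℝ)+1) := by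
        rw [Real.rpow_sub_one (by positivity)]
      rw [e2]
      calc α * (((m:ℝ)+1) ^ α / ((m:ℝ)+1)) = (α / ((m:ℝ)+1)) * ((m:ℝ)+1) ^ α := by ring
        _ ≤ (α / (α + m)) * cesNum α m := by
            apply mul_le_mul _ h5 (by positivity) (by positivity)
            apply div_le_div_of_nonneg_left h0.le (by positivity) (by linarith)
    -- ratio
    have h6 : cesNum (α-1) (m+2^(s+1)) ≤ (2:ℝ)^(α-1) * cesNum (α-1) m := by
      have h7 := cesNum_rate α h0 h1 (Nat.le_add_right m (2^(s+1)))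
      simp only at h7
      have h8 : (2:ℝ)^(1-α) * ((m:ℝ)+1) ^ (1-α) ≤ (((m+2^(s+1) : ℕ):ℝ)+1) ^ (1-α) := by
        rw [← Real.mul_rpow (by norm_num) (by positivity)]
        apply Real.rpow_le_rpow (by positivity) _ (by linarith)
        push_cast
        linarith
      have h9 : cesNum (α-1) (m+2^(s+1)) * ((2:ℝ)^(1-α) * ((m:ℝ)+1) ^ (1-α)) ≤
          cesNum (α-1) m * ((m:ℝ)+1) ^ (1-α) :=
        (mul_le_mul_of_nonneg_left h8 hpm'.le).trans h7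
      have hmp : 0 < ((m:ℝ)+1) ^ (1-α) := by positivity
      have h10 : cesNum (α-1) (m+2^(s+1)) * (2:ℝ)^(1-α) ≤ cesNum (α-1) m := by
        have : (cesNum (α-1) (m+2^(s+1)) * (2:ℝ)^(1-α)) * ((m:ℝ)+1) ^ (1-α) ≤
          cesNum (α-1) m * ((m:ℝ)+1) ^ (1-α) := by linarith
        exact le_of_mul_le_mul_right this hmp
      have e11 : (2:ℝ)^(α-1) * (2:ℝ)^(1-α) = 1 := by
        rw [← Real.rpow_add (by norm_num)]; simp
      have h2p : 0 < (2:ℝ)^(α-1) := by positivity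
      calc cesNum (α-1) (m+2^(s+1)) = (2:ℝ)^(α-1) * (cesNum (α-1) (m+2^(s+1)) * (2:ℝ)^(1-α)) := by
            rw [mul_comm (cesNum (α-1) (m+2^(s+1))), ← mul_assoc, e11, one_mul]
        _ ≤ _ := mul_le_mul_of_nonneg_left h10 h2p.le
    have hc := c_pos α h1
    calc α * (1 - (2:ℝ)^(α-1)) * (2:ℝ) ^ (((s:ℝ)+1) * (α-1))
        ≤ (1 - (2:ℝ)^(α-1)) * (α * ((m:ℝ)+1) ^ (α-1)) := by
          have := mul_le_mul_of_nonneg_left e3 (mul_pos h0 hc).le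
          linarith
      _ ≤ (1 - (2:ℝ)^(α-1)) * cesNum (α-1) m := mul_le_mul_of_nonneg_left h4 hc.le
      _ ≤ _ := by linarith

end Pool.Agent.V1193.Walsh
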