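import Mathlib

/-!
# Weighted means with fully monotonic weights

Sequences are indexed by `0, 1, 2, ...`; entry `n` stands for the term with number `n + 1`.
-/

set_option autoImplicit false
open Filter Topology Finset

namespace Pool.Agent.V1193.Weighted

/-- The difference operator `(Δ f) n = f n - f (n + 1)`. -/
def delta (f : ℕ → ℝ) : ℕ → ℝ := fun n => f n - f (n + 1)

/-- `l` is fully monotonic: all iterated differences of order `k ≥ 1` are nonnegative. -/
def FullyMonotonic (l : ℕ → ℝ) : Prop := ∀ k n : ℕ, 1 ≤ k → 0 ≤ (delta^[k] l) n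

/-- `l` is admissible for `s` and the weighted means converge to `L`: the weights are positive, their
sum diverges, and `(l 0 * s 0 + ... + l n * s n) / (l 0 + ... + l n)` tends to `L`. -/
def AdmissibleWithLimit (s l : ℕ → ℝ) (L : ℝ) : Prop :=
  (∀ n, 0 < l n) ∧ ¬ Summable l ∧
    Tendsto (fun n => (∑ i ∈ range (n + 1), l i * s i) / ∑ i ∈ range (n + 1), l i) atTop (𝓝 L)

/-- `s` is a bounded sequence. -/
def BoundedSeq (s : ℕ → ℝ) : Prop := ∃ C : ℝ, ∀ n, |s n| ≤ C

noncomputable section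

/-- small parameters -/
def E (j : ℕ) : ℝ := (1 / 2) ^ (j + 1)
def T (j : ℕ) : ℝ := 1 - E j

lemma E_pos (j : ℕ) : 0 < E j := by unfold E; positivity

lemma E_le (j : ℕ) : E j ≤ 1 / 2 := by
  unfold E
  rw [pow_succ]
  have : (1 / 2 : ℝ) ^ j ≤ 1 := pow_le_one₀ (by norm_num) (by norm_num)
  linarith

lemma T_ge (j : ℕ) : 1 / 2 ≤ T j := by unfold T; have := E_le j; linarith
lemma T_pos (j : ℕ) : 0 < T j := by have := T_ge j; linarith
lemma T_lt (j : ℕ) : T j < 1 := by unfold T; have := E_pos j; linarith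

lemma T_pow_le (j n : ℕ) : T j ^ n ≤ 1 := pow_le_one₀ (T_pos j).le (T_lt j).le

lemma E_summable : Summable E := by
  unfold E
  have h := (summable_geometric_two).mul_right (1 / 2 : ℝ)
  simpa [pow_succ] using h

/-- the weight sequence attached to `φ` -/
def wt (φ : ℕ → ℕ) (n : ℕ) : ℝ := ∑' k, E (φ k) * T (φ k) ^ n

lemma wt_summable {φ : ℕ → ℕ} (hφ : StrictMono φ) (g : ℕ → ℝ) (hg : ∀ k, |g k| ≤ 1) :
    Summable (fun k => E (φ k) * g k) := by
  have h := E_summable.comp_injective hφ.injective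
  apply Summable.of_norm_bounded h
  intro k
  rw [Real.norm_eq_abs, abs_mul, abs_of_pos (E_pos _)]
  calc _ ≤ E (φ k) * 1 := mul_le_mul_of_nonneg_left (hg k) (E_pos _).le
    _ = _ := by simp

lemma wt_summable' {φ : ℕ → ℕ} (hφ : StrictMono φ) (n : ℕ) :
    Summable (fun k => E (φ k) * T (φ k) ^ n) := by
  apply wt_summable hφ
  intro k
  rw [abs_of_nonneg (pow_nonneg (T_pos _).le _)]
  exact T_pow_le _ _

lemma wt_pos {φ : ℕ → ℕ} (hφ : StrictMono φ) (n : ℕ) : 0 < wt φ n := by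
  unfold wt
  apply (wt_summable' hφ n).tsum_pos (i := 0)
  · intro k
    have := E_pos (φ k)
    have := T_pos (φ k)
    positivity
  · have := E_pos (φ 0)
    have := T_pos (φ 0)
    positivity

lemma wt_delta {φ : ℕ → ℕ} (hφ : StrictMono φ) (m : ℕ) (n : ℕ) :
    (delta^[m] (wt φ)) n = ∑' k, E (φ k) * (T (φ k) ^ n * E (φ k) ^ m) := by
  have hs : ∀ (m n : ℕ), Summable (fun k => E (φ k) * (T (φ k) ^ n * E (φ k) ^ m)) := by
    intro m n
    apply wt_summable hφ
    intro k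
    rw [abs_of_nonneg (mul_nonneg (pow_nonneg (T_pos _).le _) (pow_nonneg (E_pos _).le _))]
    have h1 : E (φ k) ^ m ≤ 1 := pow_le_one₀ (E_pos _).le ((E_le _).trans (by norm_num))
    calc _ ≤ (1 : ℝ) * 1 := mul_le_mul (T_pow_le _ _) h1 (pow_nonneg (E_pos _).le _) zero_le_one
      _ = 1 := one_mul 1
  induction m generalizing n with
  | zero => simp [wt]
  | succ m ih =>
    rw [Function.iterate_succ_apply', delta, ih, ih, ← (hs m n).tsum_sub (hs m (n + 1))]
    apply tsum_congr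
    intro k
    have : T (φ k) = 1 - E (φ k) := rfl
    rw [this]
    ring

lemma wt_fully {φ : ℕ → ℕ} (hφ : StrictMono φ) : FullyMonotonic (wt φ) := by
  intro m n _
  rw [wt_delta hφ]
  apply tsum_nonneg
  intro k
  have := E_pos (φ k)
  have := T_pos (φ k)
  positivity

lemma E_geom (j n : ℕ) : ∑ i ∈ range n, E j * T j ^ i = 1 - T j ^ n := by
  rw [← mul_sum]
  have h := mul_neg_geom_sum (T j) n
  have : E j = 1 - T j := by unfold T; ring
  rw [this, h]

/-- truncated Abel sums -/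
def bb (s : ℕ → ℝ) (j n : ℕ) : ℝ := ∑ i ∈ range n, E j * T j ^ i * s i

/-- Abel means -/
def ab (s : ℕ → ℝ) (j : ℕ) : ℝ := ∑' i, E j * T j ^ i * s i

lemma ab_summable {s : ℕ → ℝ} {C : ℝ} (hs : ∀ n, |s n| ≤ C) (j : ℕ) :
    Summable (fun i => E j * T j ^ i * s i) := by
  have h := (summable_geometric_of_lt_one (T_pos j).le (T_lt j)).mul_left (E j * C)
  apply Summable.of_norm_bounded h
  intro i
  rw [Real.norm_eq_abs, abs_mul, abs_of_nonneg (mul_nonneg (E_pos _).le (pow_nonneg (T_pos _).le _))]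
  have := mul_le_mul_of_nonneg_left (hs i) (mul_nonneg (E_pos j).le (pow_nonneg (T_pos j).le i))
  linarith

lemma bb_le {s : ℕ → ℝ} {C : ℝ} (hs : ∀ n, |s n| ≤ C) (j n : ℕ) :
    |bb s j n| ≤ C * (1 - T j ^ n) := by
  unfold bb
  refine (abs_sum_le_sum_abs _ _).trans ?_
  rw [← E_geom, mul_sum]
  apply sum_le_sum
  intro i _
  rw [abs_mul, abs_of_nonneg (mul_nonneg (E_pos _).le (pow_nonneg (T_pos _).le _)), mul_comm]
  exact mul_le_mul_of_nonneg_right (hs i) (mul_nonneg (E_pos j).le (pow_nonneg (T_pos j).le i))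

lemma ab_tail {s : ℕ → ℝ} {C : ℝ} (hs : ∀ n, |s n| ≤ C) (j n : ℕ) :
    |ab s j - bb s j n| ≤ C * T j ^ n := by
  have h := (ab_summable hs j).sum_add_tsum_nat_add n
  have e : ab s j - bb s j n = ∑' i, E j * T j ^ (i + n) * s (i + n) := by
    unfold ab bb
    linarith
  rw [e]
  have h2 : HasSum (fun i => C * T j ^ n * (E j * T j ^ i)) (C * T j ^ n) := by
    have h3 := (hasSum_geometric_of_lt_one (T_pos j).le (T_lt j)).mul_left (E j)
    have h4 : E j * (1 - T j)⁻¹ = 1 := by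
      have : 1 - T j = E j := by unfold T; ring
      rw [this, mul_inv_cancel₀ (E_pos j).ne']
    rw [h4] at h3
    have h5 := h3.mul_left (C * T j ^ n)
    simpa using h5
  have h6 : ∀ i, ‖E j * T j ^ (i + n) * s (i + n)‖ ≤ C * T j ^ n * (E j * T j ^ i) := by
    intro i
    rw [Real.norm_eq_abs, abs_mul, abs_of_nonneg (mul_nonneg (E_pos _).le (pow_nonneg (T_pos _).le _))]
    have := mul_le_mul_of_nonneg_left (hs (i + n)) (mul_nonneg (E_pos j).le (pow_nonneg (T_pos j).le (i + n)))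
    rw [pow_add] at this ⊢
    linarith
  have h7 := tsum_of_norm_bounded h2 h6
  rwa [Real.norm_eq_abs] at h7

/-- the transition weights -/
def gg (j n : ℕ) : ℝ := min (1 - T j ^ n) (T j ^ n)

lemma gg_nonneg (j n : ℕ) : 0 ≤ gg j n := by
  unfold gg
  apply le_min
  · have := T_pow_le j n; linarith
  · exact pow_nonneg (T_pos _).le _

lemma one_sub_T_pow (j n : ℕ) : 1 - T j ^ n ≤ n * E j := by
  have h := one_add_mul_le_pow (a := -E j) (by have := E_le j; linarith) n
  have h2 : T j = 1 + -E j := by unfold T; ring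
  rw [h2]
  linarith

lemma gg_le1 (j n : ℕ) : gg j n ≤ n * E j := (min_le_left _ _).trans (one_sub_T_pow j n)

lemma T_pow_inv (j n : ℕ) (hn : 0 < n) : T j ^ n ≤ 1 / (n * E j) := by
  have hn' : (0 : ℝ) < n := by exact_mod_cast hn
  have h := one_add_mul_le_pow (a := E j) (by have := E_pos j; linarith) n
  rw [le_div_iff₀ (mul_pos hn' (E_pos j))]
  have h1 : T j ^ n * (1 + E j) ^ n ≤ 1 := by
    rw [← mul_pow]
    apply pow_le_one₀
    · have := T_pos j; have := E_pos j; positivity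
    · unfold T; nlinarith [sq_nonneg (E j)]
  have h2 : T j ^ n * (n * E j) ≤ T j ^ n * (1 + E j) ^ n := by
    apply mul_le_mul_of_nonneg_left _ (pow_nonneg (T_pos j).le n)
    linarith
  linarith

lemma gg_le2 (j n : ℕ) (hn : 0 < n) : gg j n ≤ 1 / (n * E j) :=
  (min_le_right _ _).trans (T_pow_inv j n hn)

lemma gg_hasSum (n : ℕ) (hn : 0 < n) : Summable (fun j => gg j n) ∧ ∑' j, gg j n ≤ 4 := by
  set J := Nat.log 2 n with hJ
  have h1 : (2 : ℝ) ^ J ≤ n := by exact_mod_cast Nat.pow_log_le_self 2 hn.ne'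
  have h2 : (n : ℝ) < 2 ^ (J + 1) := by exact_mod_cast Nat.lt_pow_succ_log_self (by norm_num) n
  have hsum : Summable (fun j => gg j n) := by
    apply Summable.of_nonneg_of_le (fun j => gg_nonneg j n) (fun j => gg_le1 j n)
    exact E_summable.mul_left _
  refine ⟨hsum, ?_⟩
  rw [← hsum.sum_add_tsum_nat_add J]
  have ha : ∑ i ∈ range J, gg i n ≤ 2 := by
    have hb : ∀ i ∈ range J, gg i n ≤ 2 * (1 / 2 : ℝ) ^ (J - i) := by
      intro i hi
      rw [mem_range] at hi
      refine (gg_le2 i n hn).trans ?_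
      have hn' : (0 : ℝ) < n := by exact_mod_cast hn
      rw [div_le_iff₀ (mul_pos hn' (E_pos i))]
      unfold E
      have e : (2 : ℝ) ^ J = 2 ^ (J - i) * 2 ^ i := by rw [← pow_add]; congr 1; omega
      have h3 : (2 * (1 / 2 : ℝ) ^ (J - i)) * (2 ^ J * (1 / 2) ^ (i + 1)) = 1 := by
        rw [e, pow_succ (1 / 2 : ℝ) i]
        have h4 : (1 / 2 : ℝ) ^ (J - i) * 2 ^ (J - i) = 1 := by rw [← mul_pow]; norm_num
        have h5 : (1 / 2 : ℝ) ^ i * 2 ^ i = 1 := by rw [← mul_pow]; norm_num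
        calc _ = ((1 / 2 : ℝ) ^ (J - i) * 2 ^ (J - i)) * ((1 / 2 : ℝ) ^ i * 2 ^ i) := by ring
          _ = 1 := by rw [h4, h5, one_mul]
      calc (1 : ℝ) = (2 * (1 / 2 : ℝ) ^ (J - i)) * (2 ^ J * (1 / 2) ^ (i + 1)) := h3.symm
        _ ≤ _ := by
          apply mul_le_mul_of_nonneg_left _ (by positivity)
          exact mul_le_mul_of_nonneg_right h1 (by positivity)
    refine (sum_le_sum hb).trans ?_
    rw [← mul_sum]
    have hc : ∑ i ∈ range J, (1 / 2 : ℝ) ^ (J - i) ≤ 1 := by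
      rw [← sum_range_reflect]
      have hd : ∑ j ∈ range J, (1 / 2 : ℝ) ^ (J - (J - 1 - j)) = ∑ j ∈ range J, (1 / 2 : ℝ) ^ (j + 1) := by
        apply sum_congr rfl
        intro j hj
        rw [mem_range] at hj
        congr 1
        omega
      rw [hd]
      have he : ∑ j ∈ range J, (1 / 2 : ℝ) ^ (j + 1) = 1 - (1 / 2) ^ J := by
        have := geom_sum_eq (show (1 / 2 : ℝ) ≠ 1 by norm_num) J
        simp_rw [pow_succ]
        rw [← sum_mul, this]
        ring
      rw [he]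
      have : (0 : ℝ) < (1 / 2) ^ J := by positivity
      linarith
    linarith
  have hb : ∑' i, gg (i + J) n ≤ 2 := by
    have hc : ∀ i, gg (i + J) n ≤ (1 / 2 : ℝ) ^ i := by
      intro i
      refine (gg_le1 _ n).trans ?_
      unfold E
      have h3 : (2 : ℝ) ^ (J + 1) * (1 / 2) ^ (i + J + 1) = (1 / 2) ^ i := by
        rw [show i + J + 1 = i + (J + 1) by ring, pow_add _ i]
        have h4 : (1 / 2 : ℝ) ^ (J + 1) * 2 ^ (J + 1) = 1 := by rw [← mul_pow]; norm_num
        calc _ = (1 / 2 : ℝ) ^ i * ((1 / 2 : ℝ) ^ (J + 1) * 2 ^ (J + 1)) := by ring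
          _ = _ := by rw [h4, mul_one]
      rw [← h3]
      exact mul_le_mul_of_nonneg_right h2.le (by positivity)
    have hd := ((summable_nat_add_iff J).mpr hsum).tsum_le_tsum hc summable_geometric_two
    rw [tsum_geometric_two] at hd
    exact hd
  linarith

/-- the partial sums of the weights -/
def LL (φ : ℕ → ℕ) (n : ℕ) : ℝ := ∑ i ∈ range n, wt φ i

lemma LL_summable {φ : ℕ → ℕ} (hφ : StrictMono φ) (n : ℕ) : Summable (fun k => 1 - T (φ k) ^ n) := by
  have h := summable_sum (s := range n) (f := fun i k => E (φ k) * T (φ k) ^ i) (fun i _ => wt_summable' hφ i)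
  refine h.congr ?_
  intro k
  rw [E_geom]

lemma LL_eq {φ : ℕ → ℕ} (hφ : StrictMono φ) (n : ℕ) : LL φ n = ∑' k, (1 - T (φ k) ^ n) := by
  unfold LL wt
  rw [← Summable.tsum_finsetSum (fun i _ => wt_summable' hφ i)]
  apply tsum_congr
  intro k
  rw [E_geom]

lemma LLs_eq {φ : ℕ → ℕ} (hφ : StrictMono φ) (s : ℕ → ℝ) (n : ℕ) :
    ∑ i ∈ range n, wt φ i * s i = ∑' k, bb s (φ k) n := by
  unfold wt bb
  simp_rw [← tsum_mul_right]
  rw [← Summable.tsum_finsetSum (fun i _ => (wt_summable' hφ i).mul_right (s i))]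

lemma LL_tendsto {φ : ℕ → ℕ} (hφ : StrictMono φ) : Tendsto (LL φ) atTop atTop := by
  rw [tendsto_atTop]
  intro M
  obtain ⟨K, hK⟩ := exists_nat_gt M
  have h1 : Tendsto (fun n => ∑ k ∈ range K, (1 - T (φ k) ^ n)) atTop (𝓝 (∑ k ∈ range K, (1 - 0))) := by
    apply tendsto_finsetSum
    intro k _
    exact (tendsto_pow_atTop_nhds_zero_of_lt_one (T_pos _).le (T_lt _)).const_sub 1
  have h2 : M < ∑ k ∈ range K, (1 - 0 : ℝ) := by simpa using hK
  filter_upwards [h1.eventually (lt_mem_nhds h2)] with n hn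
  rw [LL_eq hφ]
  refine hn.le.trans ?_
  apply (LL_summable hφ n).sum_le_tsum
  intro k _
  have := T_pow_le (φ k) n
  linarith

lemma main_zero {φ : ℕ → ℕ} (hφ : StrictMono φ) {s : ℕ → ℝ} {C : ℝ} (hs : ∀ n, |s n| ≤ C)
    (ha : Tendsto (fun k => ab s (φ k)) atTop (𝓝 0)) :
    Tendsto (fun n => (∑ i ∈ range n, wt φ i * s i) / LL φ n) atTop (𝓝 0) := by
  have hC : 0 ≤ C := (abs_nonneg _).trans (hs 0)
  rw [Metric.tendsto_atTop]
  intro ε hε
  obtain ⟨k0, hk0⟩ : ∃ k0, ∀ k ≥ k0, |ab s (φ k)| ≤ ε / 8 := by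
    rw [Metric.tendsto_atTop] at ha
    obtain ⟨k0, hk0⟩ := ha (ε / 8) (by positivity)
    refine ⟨k0, fun k hk => ?_⟩
    have := hk0 k hk
    rw [dist_zero_right, Real.norm_eq_abs] at this
    exact this.le
  have hLL := LL_tendsto hφ
  have h1 : ∀ᶠ n in atTop, (C * k0 + 4 * C) / LL φ n < ε / 4 ∧ 0 < LL φ n ∧ 0 < n := by
    have h2 : Tendsto (fun n => (C * k0 + 4 * C) / LL φ n) atTop (𝓝 0) :=
      hLL.const_div_atTop _
    filter_upwards [h2.eventually (gt_mem_nhds (show (0 : ℝ) < ε / 4 by positivity)),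
      hLL.eventually_gt_atTop 0, eventually_gt_atTop 0] with n h3 h4 h5
    exact ⟨h3, h4, h5⟩
  obtain ⟨N, hN⟩ := eventually_atTop.mp h1
  refine ⟨N, fun n hn => ?_⟩
  obtain ⟨h3, h4, h5⟩ := hN n hn
  rw [dist_zero_right, Real.norm_eq_abs, abs_div, abs_of_pos h4, LLs_eq hφ]
  have hg := gg_hasSum n h5
  have hgs : Summable (fun k => gg (φ k) n) := hg.1.comp_injective hφ.injective
  have hgt : ∑' k, gg (φ k) n ≤ 4 := by
    refine le_trans ?_ hg.2
    exact tsum_comp_le_tsum_of_inj hg.1 (fun j => gg_nonneg j n) hφ.injective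
  -- termwise bound
  have hb : ∀ k, |bb s (φ k) n| ≤ (if k < k0 then C else 0) + (ε / 4) * (1 - T (φ k) ^ n) + C * gg (φ k) n := by
    intro k
    have hw := T_pow_le (φ k) n
    have hw0 : 0 ≤ T (φ k) ^ n := pow_nonneg (T_pos _).le _
    have hb1 := bb_le hs (φ k) n
    have hgn := gg_nonneg (φ k) n
    split_ifs with hk
    · have : C * (1 - T (φ k) ^ n) ≤ C := by nlinarith
      have : 0 ≤ (ε / 4) * (1 - T (φ k) ^ n) := mul_nonneg (by positivity) (by linarith)
      have : 0 ≤ C * gg (φ k) n := mul_nonneg hC hgn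
      linarith
    · have hk' := hk0 k (not_lt.mp hk)
      have ht := ab_tail hs (φ k) n
      rcases le_total (1 - T (φ k) ^ n) (T (φ k) ^ n) with hle | hle
      · have hgg : gg (φ k) n = 1 - T (φ k) ^ n := min_eq_left hle
        rw [hgg]
        have : 0 ≤ (ε / 4) * (1 - T (φ k) ^ n) := mul_nonneg (by positivity) (by linarith)
        linarith
      · have hgg : gg (φ k) n = T (φ k) ^ n := min_eq_right hle
        rw [hgg]
        have h6 : |bb s (φ k) n| ≤ |ab s (φ k)| + |ab s (φ k) - bb s (φ k) n| := by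
          have := abs_sub_abs_le_abs_sub (bb s (φ k) n) (ab s (φ k))
          rw [abs_sub_comm] at this
          linarith
        have h7 : ε / 8 ≤ (ε / 4) * (1 - T (φ k) ^ n) := by nlinarith
        linarith
  have hsum1 : Summable (fun k => if k < k0 then C else 0) := by
    apply summable_of_ne_finset_zero (s := range k0)
    intro k hk
    rw [mem_range] at hk
    rw [if_neg hk]
  have htot : HasSum (fun k => (if k < k0 then C else 0) + (ε / 4) * (1 - T (φ k) ^ n) + C * gg (φ k) n)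
      (∑' k, (if k < k0 then C else 0) + (ε / 4) * LL φ n + C * ∑' k, gg (φ k) n) := by
    apply HasSum.add
    · apply HasSum.add hsum1.hasSum
      rw [LL_eq hφ]
      exact (LL_summable hφ n).hasSum.mul_left _
    · exact hgs.hasSum.mul_left _
  have hfin := tsum_of_norm_bounded htot (fun k => by rw [Real.norm_eq_abs]; exact hb k)
  rw [Real.norm_eq_abs] at hfin
  have h8 : ∑' k, (if k < k0 then C else 0) = C * k0 := by
    rw [tsum_eq_sum (s := range k0)]
    · rw [sum_ite_of_true]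
      · simp [mul_comm]
      · intro i hi; exact mem_range.mp hi
    · intro k hk
      rw [mem_range] at hk
      rw [if_neg hk]
  rw [h8] at hfin
  have h9 : C * ∑' k, gg (φ k) n ≤ 4 * C := by nlinarith
  rw [div_lt_iff₀ h4]
  have h10 : C * k0 + 4 * C < ε / 4 * LL φ n := by
    rwa [div_lt_iff₀ h4] at h3
  have h11 : 0 < ε * LL φ n := mul_pos hε h4
  linarith

lemma ab_sub {s : ℕ → ℝ} {C : ℝ} (hs : ∀ n, |s n| ≤ C) (L : ℝ) (j : ℕ) :
    ab (fun n => s n - L) j = ab s j - L := by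
  unfold ab
  have h3 := (hasSum_geometric_of_lt_one (T_pos j).le (T_lt j)).mul_left (E j)
  have h4 : E j * (1 - T j)⁻¹ = 1 := by
    have : 1 - T j = E j := by unfold T; ring
    rw [this, mul_inv_cancel₀ (E_pos j).ne']
  rw [h4] at h3
  have h5 := (ab_summable hs j).hasSum.sub (h3.mul_right L)
  rw [one_mul] at h5
  rw [← h5.tsum_eq]
  apply tsum_congr
  intro i
  ring

/-- Along a convergent subsequence of the dyadic Abel means the weighted means converge. -/
theorem admissible_of_abel {φ : ℕ → ℕ} (hφ : StrictMono φ) {s : ℕ → ℝ} {C : ℝ} (hs : ∀ n, |s n| ≤ C)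
    {L : ℝ} (ha : Tendsto (fun k => ab s (φ k)) atTop (𝓝 L)) :
    AdmissibleWithLimit s (wt φ) L := by
  refine ⟨wt_pos hφ, ?_, ?_⟩
  · intro hsum
    have h1 := hsum.hasSum.tendsto_sum_nat
    exact not_tendsto_nhds_of_tendsto_atTop (LL_tendsto hφ) _ h1
  · have hs' : ∀ n, |(fun n => s n - L) n| ≤ C + |L| := by
      intro n
      exact (abs_sub _ _).trans (add_le_add (hs n) le_rfl)
    have hab : ∀ j, ab (fun n => s n - L) j = ab s j - L := ab_sub hs L
    have ha' : Tendsto (fun k => ab (fun n => s n - L) (φ k)) atTop (𝓝 0) := by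
      simp_rw [hab]
      simpa using ha.sub_const L
    have h6 := (main_zero hφ hs' ha').comp (tendsto_add_atTop_nat 1)
    have h7 := h6.add_const L
    rw [zero_add] at h7
    refine h7.congr ?_
    intro n
    simp only [Function.comp]
    have hpos : 0 < LL φ (n + 1) := by
      unfold LL
      apply sum_pos
      · intro i _; exact wt_pos hφ i
      · exact ⟨0, by simp⟩
    have h8 : ∑ i ∈ range (n + 1), wt φ i * (s i - L) = ∑ i ∈ range (n + 1), wt φ i * s i - LL φ (n + 1) * L := by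
      unfold LL
      rw [sum_mul, ← sum_sub_distrib]
      apply sum_congr rfl
      intro i _
      ring
    rw [h8]
    have h9 : ∑ i ∈ range (n + 1), wt φ i = LL φ (n + 1) := rfl
    rw [h9]
    field_simp
    ring

/-- Every bounded sequence admits fully monotonic admissible weights. -/
theorem exists_fully {s : ℕ → ℝ} (hs : BoundedSeq s) :
    ∃ (l : ℕ → ℝ) (L : ℝ), AdmissibleWithLimit s l L ∧ FullyMonotonic l := by
  obtain ⟨C, hC⟩ := hs
  have hab : ∀ j, ab s j ∈ Metric.closedBall (0 : ℝ) C := by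
    intro j
    rw [mem_closedBall_zero_iff, Real.norm_eq_abs]
    have := ab_tail hC j 0
    simpa [bb] using this
  obtain ⟨L, _, φ, hφ, hL⟩ := (isCompact_closedBall (0 : ℝ) C).tendsto_subseq hab
  exact ⟨wt φ, L, admissible_of_abel hφ hC hL, wt_fully hφ⟩

/-! ### The two-limit example -/

/-- The block sequence: `1` on the blocks `[2 ^ 2 ^ i, 2 ^ 2 ^ (i + 1))` with `i` even. -/
def sq (n : ℕ) : ℝ := if Even (Nat.log 2 (Nat.log 2 n)) then 1 else 0

lemma sq_mem (n : ℕ) : sq n = 0 ∨ sq n = 1 := by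
  unfold sq
  split_ifs
  · right; rfl
  · left; rfl

lemma sq_abs (n : ℕ) : |sq n| ≤ 1 := by
  rcases sq_mem n with h | h <;> rw [h] <;> simp

lemma sq_block (i n : ℕ) (h1 : 2 ^ 2 ^ i ≤ n) (h2 : n < 2 ^ 2 ^ (i + 1)) : sq n = if Even i then 1 else 0 := by
  have hn : n ≠ 0 := by
    have : 0 < 2 ^ 2 ^ i := by positivity
    omega
  have h3 : 2 ^ i ≤ Nat.log 2 n := Nat.le_log_of_pow_le (by norm_num) h1
  have h4 : Nat.log 2 n < 2 ^ (i + 1) := Nat.log_lt_of_lt_pow hn h2
  have h5 : Nat.log 2 (Nat.log 2 n) = i := by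
    rw [Nat.log_eq_iff]
    · exact ⟨h3, h4⟩
    · right
      refine ⟨by norm_num, ?_⟩
      have : 0 < 2 ^ i := by positivity
      omega
  unfold sq
  rw [h5]

/-- exponents in the middle of block `i + 1` -/
def jj (i : ℕ) : ℕ := 3 * 2 ^ i

lemma jj_strictMono : StrictMono jj := by
  intro a b hab
  unfold jj
  have := Nat.pow_lt_pow_right (show 1 < 2 by norm_num) hab
  omega

/-- On a block where `s` is constant `c`, the dyadic Abel mean is close to `c`. -/
lemma ab_block {s : ℕ → ℝ} (hs : ∀ n, |s n| ≤ 1) (c : ℝ) (hc : |c| ≤ 1) (i : ℕ)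
    (hb : ∀ n, 2 ^ 2 ^ (i + 1) ≤ n → n < 2 ^ 2 ^ (i + 2) → s n = c) :
    |ab s (jj i) - c| ≤ 5 * (1 / 2 : ℝ) ^ 2 ^ i := by
  have hs' : ∀ n, |(fun n => s n - c) n| ≤ 2 := by
    intro n
    refine (abs_sub _ _).trans ?_
    have := hs n
    linarith
  rw [← ab_sub hs c]
  set s' : ℕ → ℝ := fun n => s n - c with hs'def
  set A := 2 ^ 2 ^ (i + 1) with hA
  set B := 2 ^ 2 ^ (i + 2) with hB
  have hAB : A ≤ B := Nat.pow_le_pow_right (by norm_num) (Nat.pow_le_pow_right (by norm_num) (by omega))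
  have h1 := ab_tail hs' (jj i) B
  have h2 : bb s' (jj i) B = bb s' (jj i) A := by
    unfold bb
    rw [← sum_range_add_sum_Ico _ hAB]
    have : ∑ x ∈ Ico A B, E (jj i) * T (jj i) ^ x * s' x = 0 := by
      apply sum_eq_zero
      intro x hx
      rw [mem_Ico] at hx
      rw [hs'def]
      simp only
      rw [hb x hx.1 hx.2, sub_self, mul_zero]
    rw [this, add_zero]
  have h3 := bb_le hs' (jj i) A
  have h4 := one_sub_T_pow (jj i) A
  have h5 := T_pow_inv (jj i) B (by positivity)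
  have hBpos : (0 : ℝ) < B := by positivity
  have e1 : (A : ℝ) * E (jj i) = (1 / 2) * (1 / 2) ^ 2 ^ i := by
    unfold E jj
    rw [hA]
    push_cast
    have : 2 ^ (i + 1) = 2 ^ i + 2 ^ i := by ring
    rw [this, show 3 * 2 ^ i + 1 = 2 ^ i + 2 ^ i + 2 ^ i + 1 by ring, pow_succ (1 / 2 : ℝ), pow_add (1 / 2 : ℝ) (2 ^ i + 2 ^ i)]
    have h6 : (2 : ℝ) ^ (2 ^ i + 2 ^ i) * (1 / 2) ^ (2 ^ i + 2 ^ i) = 1 := by rw [← mul_pow]; norm_num
    calc _ = ((2 : ℝ) ^ (2 ^ i + 2 ^ i) * (1 / 2) ^ (2 ^ i + 2 ^ i)) * ((1 / 2) * (1 / 2) ^ 2 ^ i) := by ring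
      _ = _ := by rw [h6, one_mul]
  have e2 : 1 / ((B : ℝ) * E (jj i)) = 2 * (1 / 2) ^ 2 ^ i := by
    have hne : (B : ℝ) * E (jj i) ≠ 0 := (mul_pos hBpos (E_pos _)).ne'
    rw [div_eq_iff hne]
    unfold E jj
    rw [hB]
    push_cast
    have : 2 ^ (i + 2) = 2 ^ i + 2 ^ i + 2 ^ i + 2 ^ i := by ring
    rw [this, show 3 * 2 ^ i + 1 = 2 ^ i + 2 ^ i + 2 ^ i + 1 by ring]
    have h6 : (2 : ℝ) ^ (2 ^ i + 2 ^ i + 2 ^ i + 2 ^ i) * (1 / 2) ^ (2 ^ i + 2 ^ i + 2 ^ i + 2 ^ i) = 1 := by rw [← mul_pow]; norm_num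
    calc (1 : ℝ) = (2 : ℝ) ^ (2 ^ i + 2 ^ i + 2 ^ i + 2 ^ i) * (1 / 2) ^ (2 ^ i + 2 ^ i + 2 ^ i + 2 ^ i) := h6.symm
      _ = _ := by
        rw [pow_add (1 / 2 : ℝ) _ (2 ^ i), pow_succ (1 / 2 : ℝ)]
        ring
  rw [e1] at h4
  rw [e2] at h5
  have h7 : |ab s' (jj i)| ≤ |ab s' (jj i) - bb s' (jj i) B| + |bb s' (jj i) A| := by
    rw [← h2]
    have := abs_add_le (ab s' (jj i) - bb s' (jj i) B) (bb s' (jj i) B)
    rwa [sub_add_cancel] at this
  linarith

lemma two_pow_tendsto : Tendsto (fun i : ℕ => 5 * (1 / 2 : ℝ) ^ 2 ^ i) atTop (𝓝 0) := by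
  have h := (tendsto_pow_atTop_nhds_zero_of_lt_one (show (0 : ℝ) ≤ 1 / 2 by norm_num) (by norm_num)).comp
    (tendsto_pow_atTop_atTop_of_one_lt (show 1 < 2 by norm_num))
  simpa [Function.comp] using h.const_mul 5

/-- The block sequence has two fully monotonic admissible weight sequences with limits `0` and `1`. -/
theorem two_limits : AdmissibleWithLimit sq (wt fun k => jj (2 * k)) 0 ∧
    AdmissibleWithLimit sq (wt fun k => jj (2 * k + 1)) 1 ∧
    FullyMonotonic (wt fun k => jj (2 * k)) ∧ FullyMonotonic (wt fun k => jj (2 * k + 1)) := by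
  have hm0 : StrictMono (fun k => jj (2 * k)) := fun a b hab => jj_strictMono (by omega)
  have hm1 : StrictMono (fun k => jj (2 * k + 1)) := fun a b hab => jj_strictMono (by omega)
  refine ⟨?_, ?_, wt_fully hm0, wt_fully hm1⟩
  · apply admissible_of_abel hm0 sq_abs
    have ht := two_pow_tendsto.comp (tendsto_id.const_mul_atTop' (show 0 < 2 by norm_num))
    apply squeeze_zero_norm _ ht
    intro k
    have h := ab_block sq_abs 0 (by simp) (2 * k) (by
      intro n h1 h2
      rw [sq_block (2 * k + 1) n h1 h2, if_neg]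
      rw [Nat.not_even_iff_odd]
      exact ⟨k, rfl⟩)
    simpa using h
  · apply admissible_of_abel hm1 sq_abs
    have ht : Tendsto (fun k => 5 * (1 / 2 : ℝ) ^ 2 ^ (2 * k + 1)) atTop (𝓝 0) := by
      refine two_pow_tendsto.comp (tendsto_atTop_mono (fun k => ?_) tendsto_id)
      simp only [id]
      omega
    have h2 : Tendsto (fun k => ab sq (jj (2 * k + 1)) - 1) atTop (𝓝 0) := by
      apply squeeze_zero_norm _ ht
      intro k
      exact ab_block sq_abs 1 (by simp) (2 * k + 1) (by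
        intro n h1 h2
        rw [sq_block (2 * k + 1 + 1) n h1 h2, if_pos]
        exact ⟨k + 1, by ring⟩)
    simpa using h2.add_const 1

end

end Pool.Agent.V1193.Weighted
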