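import Mathlib

/-! The two-sided Wiener algebra as an algebra of operators on `ℓ¹(ℤ)`. -/

open Set Filter Topology

namespace Pool.Agent.V1193.Wiener

/-- `ℓ¹(ℤ)` -/
abbrev E : Type := lp (fun _ : ℤ => ℂ) 1

lemma memE_iff (u : ℤ → ℂ) : Memℓp u 1 ↔ Summable (fun n => ‖u n‖) := by
  rw [memℓp_gen_iff (by norm_num)]
  simp

lemma E_summable (u : E) : Summable (fun n => ‖u n‖) := (memE_iff _).1 u.2

lemma E_norm (u : E) : ‖u‖ = ∑' n, ‖u n‖ := by
  rw [lp.norm_eq_tsum_rpow (by norm_num)]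
  simp

/-- elements of `E` from summable families -/
noncomputable def mkE (u : ℤ → ℂ) (h : Summable (fun n => ‖u n‖)) : E := ⟨u, (memE_iff u).2 h⟩

/-- the shift by `k` -/
noncomputable def Sh (k : ℤ) : E →L[ℂ] E :=
  LinearMap.mkContinuous
    { toFun := fun u => mkE (fun n => u (n - k)) (by
        exact (Equiv.subRight k).summable_iff.2 (E_summable u))
      map_add' := fun u v => by
        ext n; rfl
      map_smul' := fun c u => by
        ext n; rfl } 1 (fun u => by
      rw [one_mul, E_norm, E_norm]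
      apply le_of_eq
      exact (Equiv.subRight k).tsum_eq (fun n => ‖u n‖))

lemma Sh_apply (k : ℤ) (u : E) (n : ℤ) : (Sh k u) n = u (n - k) := rfl

lemma Sh_norm (k : ℤ) : ‖Sh k‖ ≤ 1 := LinearMap.mkContinuous_norm_le _ zero_le_one _

lemma Sh_mul (k l : ℤ) : Sh k * Sh l = Sh (k + l) := by
  ext u n
  show (Sh k (Sh l u)) n = _
  rw [Sh_apply, Sh_apply, Sh_apply, sub_sub]

lemma Sh_zero : Sh 0 = 1 := by
  ext u n
  rw [Sh_apply, sub_zero]; rfl

/-- the operators generated by the shifts -/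
noncomputable def WA : Subalgebra ℂ (E →L[ℂ] E) :=
  (Algebra.adjoin ℂ (range Sh)).topologicalClosure

lemma Sh_mem (k : ℤ) : Sh k ∈ WA :=
  Subalgebra.le_topologicalClosure _ (Algebra.subset_adjoin ⟨k, rfl⟩)

lemma WA_le {Z : Subalgebra ℂ (E →L[ℂ] E)} (hZ : IsClosed (Z : Set (E →L[ℂ] E)))
    (h : ∀ k, Sh k ∈ Z) : WA ≤ Z := by
  refine Subalgebra.topologicalClosure_minimal (Algebra.adjoin_le ?_) hZ
  rintro _ ⟨k, rfl⟩
  exact h k

lemma WA_comm_Sh (x : E →L[ℂ] E) (hx : x ∈ WA) (k : ℤ) : x * Sh k = Sh k * x := by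
  have h : WA ≤ Subalgebra.centralizer ℂ (range Sh) := by
    apply WA_le
    · exact Set.isClosed_centralizer _
    · intro l
      rw [Subalgebra.mem_centralizer_iff]
      rintro _ ⟨m, rfl⟩
      rw [Sh_mul, Sh_mul, add_comm]
  have h2 := h hx
  rw [Subalgebra.mem_centralizer_iff] at h2
  exact (h2 _ ⟨k, rfl⟩).symm

lemma WA_comm (x y : E →L[ℂ] E) (hx : x ∈ WA) (hy : y ∈ WA) : x * y = y * x := by
  have h : WA ≤ Subalgebra.centralizer ℂ (WA : Set (E →L[ℂ] E)) := by
    apply WA_le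
    · exact Set.isClosed_centralizer _
    · intro l
      rw [Subalgebra.mem_centralizer_iff]
      intro z hz
      exact WA_comm_Sh z hz l
  have h2 := h hx
  rw [Subalgebra.mem_centralizer_iff] at h2
  exact (h2 y hy).symm

/-- the Wiener algebra -/
abbrev W : Type := ↥WA

noncomputable instance instW : NormedCommRing W :=
  { (inferInstance : NormedRing W) with
    mul_comm := fun x y => Subtype.ext (WA_comm x.1 y.1 x.2 y.2) }

noncomputable instance instWA : NormedAlgebra ℂ W := inferInstance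

instance : CompleteSpace W :=
  (Subalgebra.isClosed_topologicalClosure _).completeSpace_coe

/-- shifts as elements of `W` -/
noncomputable def sh (k : ℤ) : W := ⟨Sh k, Sh_mem k⟩

lemma sh_norm (k : ℤ) : ‖sh k‖ ≤ 1 := Sh_norm k

lemma sh_mul (k l : ℤ) : sh k * sh l = sh (k + l) := Subtype.ext (Sh_mul k l)

lemma sh_zero : sh 0 = 1 := Subtype.ext Sh_zero

lemma W_norm_one : ‖(1 : W)‖ ≤ 1 := by
  rw [← sh_zero]; exact sh_norm 0

/-- the element `∑ a_n S_n` -/
noncomputable def conv (a : ℤ → ℂ) : W := ∑' n, a n • sh n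

lemma conv_summable {a : ℤ → ℂ} (ha : Summable (fun n => ‖a n‖)) :
    Summable (fun n => ‖a n • sh n‖) := by
  apply ha.of_nonneg_of_le (fun n => norm_nonneg _)
  intro n
  rw [norm_smul]
  exact mul_le_of_le_one_right (norm_nonneg _) (sh_norm n)

lemma conv_hasSum {a : ℤ → ℂ} (ha : Summable (fun n => ‖a n‖)) :
    HasSum (fun n => a n • sh n) (conv a) := (conv_summable ha).of_norm.hasSum

lemma conv_norm {a : ℤ → ℂ} (ha : Summable (fun n => ‖a n‖)) : ‖conv a‖ ≤ ∑' n, ‖a n‖ := by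
  refine (norm_tsum_le_tsum_norm (conv_summable ha)).trans ?_
  apply (conv_summable ha).tsum_le_tsum _ ha
  intro n
  rw [norm_smul]
  exact mul_le_of_le_one_right (norm_nonneg _) (sh_norm n)

/-! ### point evaluations -/

/-- `u ↦ ∑ u_n z^n` for `|z| = 1` -/
noncomputable def chr (z : ℂ) (hz : ‖z‖ = 1) : E →L[ℂ] ℂ :=
  LinearMap.mkContinuous
    { toFun := fun u => ∑' n : ℤ, u n * z ^ n
      map_add' := fun u v => by
        have h : ∀ w : E, Summable (fun n : ℤ => w n * z ^ n) := fun w => by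
          apply Summable.of_norm
          apply (E_summable w).congr
          intro n
          rw [norm_mul, norm_zpow, hz, one_zpow, mul_one]
        rw [← (h u).tsum_add (h v)]
        congr 1; ext n
        rw [← add_mul]; rfl
      map_smul' := fun c u => by
        simp only [RingHom.id_apply, smul_eq_mul]
        rw [← tsum_mul_left]
        congr 1; ext n
        rw [← mul_assoc]; rfl } 1 (fun u => by
      rw [one_mul, E_norm]
      have h : Summable (fun n : ℤ => ‖u n * z ^ n‖) := by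
        apply (E_summable u).congr
        intro n
        rw [norm_mul, norm_zpow, hz, one_zpow, mul_one]
      refine (norm_tsum_le_tsum_norm h).trans (le_of_eq ?_)
      congr 1; ext n
      rw [norm_mul, norm_zpow, hz, one_zpow, mul_one])

lemma chr_apply (z : ℂ) (hz : ‖z‖ = 1) (u : E) : chr z hz u = ∑' n : ℤ, u n * z ^ n := rfl

lemma chr_Sh (z : ℂ) (hz : ‖z‖ = 1) (k : ℤ) (u : E) : chr z hz (Sh k u) = z ^ k * chr z hz u := by
  have hz0 : z ≠ 0 := by rintro rfl; simp at hz
  rw [chr_apply, chr_apply, ← tsum_mul_left]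
  rw [← (Equiv.subRight k).tsum_eq (fun n => z ^ k * (u n * z ^ n))]
  congr 1; ext n
  rw [Sh_apply]
  show _ = z ^ k * (u (n - k) * z ^ (n - k))
  rw [zpow_sub₀ hz0]
  have := zpow_ne_zero k hz0
  field_simp

lemma chr_conv (z : ℂ) (hz : ‖z‖ = 1) {a : ℤ → ℂ} (ha : Summable (fun n => ‖a n‖)) (u : E) :
    chr z hz ((conv a).1 u) = (∑' n : ℤ, a n * z ^ n) * chr z hz u := by
  have h1 := (conv_hasSum ha)
  -- the continuous linear map x ↦ chr z (x u)
  set L : W →L[ℂ] ℂ := (chr z hz).comp ((ContinuousLinearMap.apply ℂ E u).comp WA.toSubmodule.subtypeL)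
    with hL
  have h2 := h1.mapL L
  have h3 : ∀ x : W, L x = chr z hz (x.1 u) := fun _ => rfl
  rw [← h3, ← h2.tsum_eq, ← tsum_mul_right]
  congr 1; ext n
  rw [map_smul, h3]
  show a n • chr z hz (Sh n u) = _
  rw [chr_Sh, smul_eq_mul]; ring

/-- Extraction of the Fourier coefficients of an inverse. -/
lemma extract {a : ℤ → ℂ} (ha : Summable (fun n => ‖a n‖)) (g : W) (hg : conv a * g = 1) :
    ∃ b : ℤ → ℂ, Summable (fun n => ‖b n‖) ∧ ∑' n, ‖b n‖ ≤ ‖g‖ ∧
      ∀ z : ℂ, ‖z‖ = 1 → (∑' n : ℤ, a n * z ^ n) * (∑' n : ℤ, b n * z ^ n) = 1 := by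
  set d : E := lp.single 1 0 (1:ℂ) with hd
  have hdn : ‖d‖ = 1 := by
    rw [hd, lp.norm_single (by norm_num)]; simp
  refine ⟨fun n => (g.1 d) n, E_summable _, ?_, fun z hz => ?_⟩
  · rw [← E_norm]
    have := g.1.le_opNorm d
    rw [hdn, mul_one] at this
    exact this
  · have h1 := chr_conv z hz ha (g.1 d)
    rw [chr_apply z hz (g.1 d)] at h1
    rw [← h1]
    have h2 : (conv a).1 (g.1 d) = d := by
      have := congrArg (fun x : W => x.1 d) hg
      exact this
    rw [h2, chr_apply, tsum_eq_single 0]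
    · simp [hd]
    · intro n hn
      simp [hd, hn]

end Pool.Agent.V1193.Wiener
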