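import Mathlib

/-! Averages over the circle against products of Fejér kernels. -/

open Set Filter Topology MeasureTheory
open scoped ComplexOrder

namespace Pool.Agent.V1193.Wiener

/-- `e(nx)` -/
noncomputable def ee (n : ℤ) (x : ℝ) : ℂ := Complex.exp (2 * Real.pi * Complex.I * n * x)

lemma ee_add (n m : ℤ) (x : ℝ) : ee (n + m) x = ee n x * ee m x := by
  unfold ee
  rw [← Complex.exp_add]
  congr 1; push_cast; ring

lemma ee_zero (x : ℝ) : ee 0 x = 1 := by simp [ee]

lemma ee_continuous (n : ℤ) : Continuous (ee n) := by unfold ee; fun_prop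

lemma ee_norm (n : ℤ) (x : ℝ) : ‖ee n x‖ = 1 := by
  unfold ee
  have : (2 * Real.pi * Complex.I * n * x : ℂ) = ((2 * Real.pi * n * x : ℝ) : ℂ) * Complex.I := by
    push_cast; ring
  rw [this, Complex.norm_exp_ofReal_mul_I]

lemma ee_ne_zero (n : ℤ) (x : ℝ) : ee n x ≠ 0 := Complex.exp_ne_zero _

lemma ee_neg (n : ℤ) (x : ℝ) : ee (-n) x = (ee n x)⁻¹ := by
  have h := ee_add n (-n) x
  rw [add_neg_cancel, ee_zero] at h
  exact eq_inv_of_mul_eq_one_right h.symm

lemma ee_zpow (n : ℤ) (k : ℤ) (x : ℝ) : ee n x ^ k = ee (k * n) x := by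
  unfold ee
  rw [← Complex.exp_int_mul]
  congr 1; push_cast; ring

lemma ee_one_zpow (n : ℤ) (x : ℝ) : ee 1 x ^ n = ee n x := by rw [ee_zpow, mul_one]

lemma ee_conj (n : ℤ) (x : ℝ) : (starRingEnd ℂ) (ee n x) = ee (-n) x := by
  rw [ee_neg, Complex.inv_eq_conj (ee_norm n x)]

lemma mean_ee (n : ℤ) : ∫ x in (0:ℝ)..1, ee n x = if n = 0 then 1 else 0 := by
  split
  · next h => subst h; simp [ee_zero]
  · next h =>
    unfold ee
    have hc : (2 * Real.pi * Complex.I * n : ℂ) ≠ 0 := by
      have h1 : (Real.pi : ℂ) ≠ 0 := by exact_mod_cast Real.pi_ne_zero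
      have h2 : (n : ℂ) ≠ 0 := by exact_mod_cast h
      simp [h1, h2, Complex.I_ne_zero]
    rw [integral_exp_mul_complex hc]
    have h3 : Complex.exp (2 * Real.pi * Complex.I * n * ((1:ℝ):ℂ)) = 1 := by
      rw [Complex.exp_eq_one_iff]
      exact ⟨n, by push_cast; ring⟩
    rw [h3]
    simp

section

set_option linter.unusedSectionVars false

variable {ι : Type} [Fintype ι] [DecidableEq ι] (m : ℕ) (n : ι → ℤ) (ω : ι → ℂ)

/-- the geometric sum -/
noncomputable def Dk (m : ℕ) (z : ℂ) : ℂ := ∑ c ∈ Finset.range m, z ^ c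

lemma Dk_norm (m : ℕ) (z : ℂ) (hz : ‖z‖ = 1) : ‖Dk m z‖ ≤ m := by
  unfold Dk
  refine (norm_sum_le _ _).trans ?_
  simp [hz]

lemma Dk_mul (m : ℕ) (z : ℂ) : Dk m z * (z - 1) = z ^ m - 1 := geom_sum_mul z m

/-- the weight -/
noncomputable def uw (A : Finset ι) (x : ℝ) : ℝ :=
  ∏ i ∈ A, ‖Dk m ((ω i)⁻¹ * ee (n i) x)‖ ^ 2

/-- the weight in expanded form -/
noncomputable def Uw (A : Finset ι) (x : ℝ) : ℂ :=
  ∏ i ∈ A, ∑ p ∈ Finset.range m ×ˢ Finset.range m,
    (ω i) ^ ((p.2 : ℤ) - p.1) * ee (((p.1 : ℤ) - p.2) * n i) x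

variable {m n ω}

lemma uw_nonneg (A : Finset ι) (x : ℝ) : 0 ≤ uw m n ω A x :=
  Finset.prod_nonneg (fun _ _ => by positivity)

lemma Uw_eq (hω : ∀ i, ‖ω i‖ = 1) (A : Finset ι) (x : ℝ) : Uw m n ω A x = (uw m n ω A x : ℂ) := by
  unfold Uw uw
  rw [Complex.ofReal_prod]
  apply Finset.prod_congr rfl
  intro i _
  have h0 : ω i ≠ 0 := by
    intro h; have := hω i; rw [h, norm_zero] at this; exact zero_ne_one this
  rw [Complex.ofReal_pow, ← Complex.mul_conj', Dk, map_sum, Finset.sum_mul_sum,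
    Finset.sum_product]
  apply Finset.sum_congr rfl
  intro c _
  apply Finset.sum_congr rfl
  intro c' _
  rw [map_pow, map_mul, map_inv₀, ee_conj, ee_neg]
  have h1 : (starRingEnd ℂ) (ω i) = (ω i)⁻¹ := (Complex.inv_eq_conj (hω i)).symm
  rw [h1, inv_inv, zpow_sub₀ h0, zpow_natCast, zpow_natCast, ← ee_zpow, zpow_sub₀ (ee_ne_zero _ _),
    zpow_natCast, zpow_natCast, mul_pow, mul_pow, inv_pow, inv_pow]
  field_simp

lemma uw_continuous (A : Finset ι) : Continuous (uw m n ω A) := by
  unfold uw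
  apply continuous_finsetProd
  intro i _
  apply Continuous.pow
  apply Continuous.norm
  unfold Dk
  apply continuous_finsetSum
  intro c _
  exact (continuous_const.mul (ee_continuous _)).pow _

lemma Uw_continuous (A : Finset ι) : Continuous (Uw m n ω A) := by
  unfold Uw
  apply continuous_finsetProd
  intro i _
  apply continuous_finsetSum
  intro c _
  exact continuous_const.mul (ee_continuous _)

variable (m n ω)

/-- twisted Fourier coefficients of the weight -/
noncomputable def Qw (A : Finset ι) (d : ι → ℤ) : ℂ :=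
  (∏ i, (ω i) ^ (-(d i))) * ∫ x in (0:ℝ)..1, Uw m n ω A x * ee (∑ i, d i * n i) x

variable {m n ω}

lemma Qw_insert (hω : ∀ i, ‖ω i‖ = 1) (A : Finset ι) (j : ι) (hj : j ∉ A) (d : ι → ℤ) :
    Qw m n ω (insert j A) d = ∑ p ∈ Finset.range m ×ˢ Finset.range m,
      Qw m n ω A (d + Pi.single j ((p.1 : ℤ) - p.2)) := by
  have h0 : ∀ i, ω i ≠ 0 := by
    intro i h; have := hω i; rw [h, norm_zero] at this; exact zero_ne_one this
  unfold Qw
  have h1 : ∀ x, Uw m n ω (insert j A) x * ee (∑ i, d i * n i) x =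
      ∑ p ∈ Finset.range m ×ˢ Finset.range m, (ω j) ^ ((p.2 : ℤ) - p.1) *
        (Uw m n ω A x * ee (∑ i, (d + Pi.single j ((p.1 : ℤ) - p.2) : ι → ℤ) i * n i) x) := by
    intro x
    unfold Uw
    rw [Finset.prod_insert hj, mul_assoc, Finset.sum_mul]
    apply Finset.sum_congr rfl
    intro p _
    have h2 : ∑ i, (d + Pi.single j ((p.1 : ℤ) - p.2) : ι → ℤ) i * n i =
        ((p.1 : ℤ) - p.2) * n j + ∑ i, d i * n i := by
      simp only [Pi.add_apply, add_mul, Finset.sum_add_distrib]
      rw [add_comm]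
      congr 1
      rw [Finset.sum_eq_single j]
      · simp
      · intro i _ hi; simp [hi]
      · intro h; exact absurd (Finset.mem_univ j) h
    rw [h2, ee_add]; ring
  simp_rw [h1]
  rw [intervalIntegral.integral_finsetSum]
  · rw [Finset.mul_sum]
    apply Finset.sum_congr rfl
    intro p _
    rw [intervalIntegral.integral_const_mul, ← mul_assoc]
    congr 1
    have h3 : ∀ i, (ω i) ^ (-(d + Pi.single j ((p.1 : ℤ) - p.2) : ι → ℤ) i) =
        (ω i) ^ (-(d i)) * (if i = j then (ω j) ^ ((p.2 : ℤ) - p.1) else 1) := by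
      intro i
      by_cases hi : i = j
      · subst hi
        rw [if_pos rfl, ← zpow_add₀ (h0 i)]
        congr 1
        simp only [Pi.add_apply, Pi.single_eq_same]; ring
      · rw [if_neg hi, mul_one]
        simp [hi]
    have h4 : (∏ i, (ω i) ^ (-(d + Pi.single j ((p.1 : ℤ) - p.2) : ι → ℤ) i)) =
        (∏ i, (ω i) ^ (-(d i))) * (ω j) ^ ((p.2 : ℤ) - p.1) := by
      rw [Finset.prod_congr rfl (fun i _ => h3 i), Finset.prod_mul_distrib]
      congr 1
      simp
    exact h4.symm
  · intro p _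
    apply Continuous.intervalIntegrable
    exact continuous_const.mul ((Uw_continuous A).mul (ee_continuous _))

lemma Qw_nonneg (hω : ∀ i, ‖ω i‖ = 1)
    (hrel : ∀ d : ι → ℤ, (∀ i, |d i| < m) → ∑ i, d i * n i = 0 → ∏ i, (ω i) ^ (d i) = 1)
    (A : Finset ι) : ∀ d : ι → ℤ, (∀ i ∈ A, d i = 0) → (∀ i, |d i| < m) → 0 ≤ Qw m n ω A d := by
  induction A using Finset.induction_on with
  | empty =>
    intro d _ hd
    unfold Qw Uw
    simp only [Finset.prod_empty, one_mul]
    rw [mean_ee]
    split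
    · next h =>
      rw [mul_one]
      have h1 := hrel d hd h
      have h2 : ∏ i, (ω i) ^ (-(d i)) = 1 := by
        simp only [zpow_neg, Finset.prod_inv_distrib]
        rw [h1, inv_one]
      rw [h2]; exact zero_le_one
    · rw [mul_zero]
  | insert j A hj ih =>
    intro d hA hd
    rw [Qw_insert hω A j hj d]
    apply Finset.sum_nonneg
    intro p hp
    rw [Finset.mem_product, Finset.mem_range, Finset.mem_range] at hp
    apply ih
    · intro i hi
      have : i ≠ j := by rintro rfl; exact hj hi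
      simp [this, hA i (Finset.mem_insert_of_mem hi)]
    · intro i
      by_cases hi : i = j
      · subst hi
        simp only [Pi.add_apply, Pi.single_eq_same, hA i (Finset.mem_insert_self _ _), zero_add]
        rw [abs_lt]
        constructor <;> omega
      · simp only [Pi.add_apply, Pi.single_eq_of_ne hi, add_zero]
        exact hd i

lemma Qw_zero (hω : ∀ i, ‖ω i‖ = 1) (A : Finset ι) :
    Qw m n ω A 0 = ((∫ x in (0:ℝ)..1, uw m n ω A x : ℝ) : ℂ) := by
  unfold Qw
  simp only [Pi.zero_apply, neg_zero, zpow_zero, Finset.prod_const_one, one_mul, zero_mul,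
    Finset.sum_const_zero, ee_zero, mul_one]
  rw [← intervalIntegral.integral_ofReal]
  congr 1; ext x
  exact Uw_eq hω A x

/-- adding a factor increases the mean by a factor at least `m` -/
lemma mean_insert (hω : ∀ i, ‖ω i‖ = 1)
    (hrel : ∀ d : ι → ℤ, (∀ i, |d i| < m) → ∑ i, d i * n i = 0 → ∏ i, (ω i) ^ (d i) = 1)
    (A : Finset ι) (j : ι) (hj : j ∉ A) :
    m * (∫ x in (0:ℝ)..1, uw m n ω A x) ≤ ∫ x in (0:ℝ)..1, uw m n ω (insert j A) x := by
  have h1 := Qw_insert (m := m) (n := n) hω A j hj 0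
  have h2 : (m : ℂ) * Qw m n ω A 0 ≤ Qw m n ω (insert j A) 0 := by
    rw [h1]
    have h3 : (m : ℂ) * Qw m n ω A 0 = ∑ p ∈ (Finset.range m).image (fun c => (c, c)),
        Qw m n ω A (0 + Pi.single j ((p.1 : ℤ) - p.2)) := by
      rw [Finset.sum_image (fun a _ b _ h => (Prod.mk.inj h).1)]
      simp
    rw [h3]
    apply Finset.sum_le_sum_of_subset_of_nonneg
    · intro p hp
      rw [Finset.mem_image] at hp
      obtain ⟨c, hc, rfl⟩ := hp
      exact Finset.mem_product.2 ⟨hc, hc⟩
    · intro p hp _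
      rw [Finset.mem_product, Finset.mem_range, Finset.mem_range] at hp
      apply Qw_nonneg hω hrel
      · intro i hi
        have : i ≠ j := by rintro rfl; exact hj hi
        simp [this]
      · intro i
        by_cases hi : i = j
        · subst hi
          simp only [Pi.add_apply, Pi.single_eq_same, Pi.zero_apply, zero_add]
          rw [abs_lt]
          constructor <;> omega
        · simp only [Pi.add_apply, Pi.single_eq_of_ne hi, Pi.zero_apply, add_zero, abs_zero]
          omega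
  rw [Qw_zero hω, Qw_zero hω] at h2
  exact_mod_cast h2

lemma mean_lower (hω : ∀ i, ‖ω i‖ = 1)
    (hrel : ∀ d : ι → ℤ, (∀ i, |d i| < m) → ∑ i, d i * n i = 0 → ∏ i, (ω i) ^ (d i) = 1)
    (A : Finset ι) : (m : ℝ) ^ A.card ≤ ∫ x in (0:ℝ)..1, uw m n ω A x := by
  induction A using Finset.induction_on with
  | empty => simp [uw]
  | insert j A hj ih =>
    rw [Finset.card_insert_of_notMem hj, pow_succ, mul_comm]
    exact (mul_le_mul_of_nonneg_left ih (Nat.cast_nonneg m)).trans (mean_insert hω hrel A j hj)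

lemma uw_le (hω : ∀ i, ‖ω i‖ = 1) (A : Finset ι) (x : ℝ) : uw m n ω A x ≤ (m : ℝ) ^ (2 * A.card) := by
  unfold uw
  rw [pow_mul, ← Finset.prod_const]
  apply Finset.prod_le_prod
  · intro i _; positivity
  · intro i _
    apply pow_le_pow_left₀ (norm_nonneg _)
    apply Dk_norm
    rw [norm_mul, norm_inv, hω, ee_norm]; norm_num

end

/-! ### mean square of an absolutely convergent series -/

lemma series_norm_le {h : ℤ → ℂ} (hs : Summable (fun k => ‖h k‖)) (x : ℝ) :
    ‖∑' k, h k * ee k x‖ ≤ ∑' k, ‖h k‖ := by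
  have h1 : ∀ k, ‖h k * ee k x‖ = ‖h k‖ := fun k => by rw [norm_mul, ee_norm, mul_one]
  have h2 : Summable (fun k => ‖h k * ee k x‖) := by simpa only [h1] using hs
  refine (norm_tsum_le_tsum_norm h2).trans (le_of_eq ?_)
  congr 1; ext k; exact h1 k

lemma series_continuous {h : ℤ → ℂ} (hs : Summable (fun k => ‖h k‖)) :
    Continuous (fun x => ∑' k, h k * ee k x) := by
  apply continuous_tsum (fun k => continuous_const.mul (ee_continuous k)) hs
  intro k x
  show ‖h k * ee k x‖ ≤ ‖h k‖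
  rw [norm_mul, ee_norm, mul_one]

lemma mean_sq {h : ℤ → ℂ} (hs : Summable (fun k => ‖h k‖)) (h1 : ∑' k, ‖h k‖ ≤ 1) (κ : ℝ)
    (hκ : ∀ k, ‖h k‖ ≤ κ) : ∫ x in (0:ℝ)..1, ‖∑' k, h k * ee k x‖ ^ 2 ≤ κ := by
  have hκ0 : 0 ≤ κ := (norm_nonneg _).trans (hκ 0)
  set H : ℝ → ℂ := fun x => ∑' k, h k * ee k x with hH
  have hHc : Continuous H := series_continuous hs
  -- Fourier coefficients of H
  have hcoef : ∀ l : ℤ, ∫ x in (0:ℝ)..1, H x * ee (-l) x = h l := by
    intro l
    have e1 : ∀ x, H x * ee (-l) x = ∑' k, h k * ee (k - l) x := by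
      intro x
      rw [hH, ← tsum_mul_right]
      congr 1; ext k
      rw [mul_assoc, ← ee_add, sub_eq_add_neg]
    simp_rw [e1]
    have e2 : HasSum (fun k => ∫ x in (0:ℝ)..1, h k * ee (k - l) x)
        (∫ x in (0:ℝ)..1, ∑' k, h k * ee (k - l) x) := by
      apply intervalIntegral.hasSum_integral_of_dominated_convergence (fun k _ => ‖h k‖)
      · intro k
        exact (continuous_const.mul (ee_continuous _)).aestronglyMeasurable
      · intro k
        apply Eventually.of_forall
        intro x _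
        rw [norm_mul, ee_norm, mul_one]
      · exact Eventually.of_forall (fun _ _ => hs)
      · exact intervalIntegrable_const
      · apply Eventually.of_forall
        intro x _
        apply Summable.hasSum
        apply Summable.of_norm
        simpa only [norm_mul, ee_norm, mul_one] using hs
    rw [← e2.tsum_eq, tsum_eq_single l]
    · rw [intervalIntegral.integral_const_mul, sub_self, mean_ee, if_pos rfl, mul_one]
    · intro k hk
      rw [intervalIntegral.integral_const_mul, mean_ee, if_neg (sub_ne_zero.2 hk), mul_zero]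
  -- expand the square
  have e3 : ∀ x, ((‖H x‖ ^ 2 : ℝ) : ℂ) = ∑' k, (starRingEnd ℂ) (h k) * (H x * ee (-k) x) := by
    intro x
    rw [Complex.ofReal_pow, ← Complex.mul_conj']
    have : (starRingEnd ℂ) (H x) = ∑' k, (starRingEnd ℂ) (h k) * ee (-k) x := by
      rw [hH]
      simp only
      rw [Complex.conj_tsum]
      congr 1; ext k
      rw [map_mul, ee_conj]
    rw [this, ← tsum_mul_left]
    congr 1; ext k; ring
  have e4 : ((∫ x in (0:ℝ)..1, ‖H x‖ ^ 2 : ℝ) : ℂ) = ∑' k, (starRingEnd ℂ) (h k) * h k := by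
    rw [← intervalIntegral.integral_ofReal]
    simp_rw [e3]
    have e2 : HasSum (fun k => ∫ x in (0:ℝ)..1, (starRingEnd ℂ) (h k) * (H x * ee (-k) x))
        (∫ x in (0:ℝ)..1, ∑' k, (starRingEnd ℂ) (h k) * (H x * ee (-k) x)) := by
      apply intervalIntegral.hasSum_integral_of_dominated_convergence (fun k _ => ‖h k‖)
      · intro k
        exact (continuous_const.mul (hHc.mul (ee_continuous _))).aestronglyMeasurable
      · intro k
        apply Eventually.of_forall
        intro x _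
        rw [norm_mul, norm_mul, ee_norm, mul_one, Complex.norm_conj]
        exact mul_le_of_le_one_right (norm_nonneg _) ((series_norm_le hs x).trans h1)
      · exact Eventually.of_forall (fun _ _ => hs)
      · exact intervalIntegrable_const
      · apply Eventually.of_forall
        intro x _
        apply Summable.hasSum
        apply Summable.of_norm
        apply hs.of_nonneg_of_le (fun _ => norm_nonneg _)
        intro k
        rw [norm_mul, norm_mul, ee_norm, mul_one, Complex.norm_conj]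
        exact mul_le_of_le_one_right (norm_nonneg _) ((series_norm_le hs x).trans h1)
    rw [← e2.tsum_eq]
    congr 1; ext k
    rw [intervalIntegral.integral_const_mul, hcoef]
  have e5 : ∀ k, (starRingEnd ℂ) (h k) * h k = ((‖h k‖ ^ 2 : ℝ) : ℂ) := by
    intro k
    rw [mul_comm, Complex.mul_conj', Complex.ofReal_pow]
  simp_rw [e5] at e4
  rw [← Complex.ofReal_tsum] at e4
  have e6 : ∫ x in (0:ℝ)..1, ‖H x‖ ^ 2 = ∑' k, ‖h k‖ ^ 2 := by exact_mod_cast e4
  rw [e6]
  have e7 : ∀ k, ‖h k‖ ^ 2 ≤ κ * ‖h k‖ := fun k => by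
    rw [sq]; exact mul_le_mul_of_nonneg_right (hκ k) (norm_nonneg _)
  have e8 : Summable (fun k => κ * ‖h k‖) := hs.mul_left κ
  calc ∑' k, ‖h k‖ ^ 2 ≤ ∑' k, κ * ‖h k‖ :=
        (e8.of_nonneg_of_le (fun _ => by positivity) e7).tsum_le_tsum e7 e8
    _ = κ * ∑' k, ‖h k‖ := tsum_mul_left
    _ ≤ κ * 1 := mul_le_mul_of_nonneg_left h1 hκ0
    _ = κ := mul_one κ

/-- Simultaneous approximation. -/
theorem key {ι : Type} [Fintype ι] [DecidableEq ι] {m : ℕ} (hm : 0 < m) {n : ι → ℤ} {ω : ι → ℂ}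
    (hω : ∀ i, ‖ω i‖ = 1)
    (hrel : ∀ d : ι → ℤ, (∀ i, |d i| < m) → ∑ i, d i * n i = 0 → ∏ i, (ω i) ^ (d i) = 1)
    (c : ι → ℂ) (hc : ∑ i, ‖c i‖ ≤ 1) {h : ℤ → ℂ} (hs : Summable (fun k => ‖h k‖))
    (h1 : ∑' k, ‖h k‖ ≤ 1) {κ : ℝ} (hκ : ∀ k, ‖h k‖ ≤ κ) {τ : ℝ}
    (hτ : 4 / (m : ℝ) + (m : ℝ) ^ (Fintype.card ι) * κ < τ) :
    ∃ x : ℝ, (∑ i, ‖c i‖ * ‖ee (n i) x - ω i‖ ^ 2) + ‖∑' k, h k * ee k x‖ ^ 2 < τ := by
  by_contra hcon
  push Not at hcon
  have hm' : (0:ℝ) < m := by exact_mod_cast hm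
  have hω0 : ∀ i, ω i ≠ 0 := by
    intro i h; have := hω i; rw [h, norm_zero] at this; exact zero_ne_one this
  set U := ∫ x in (0:ℝ)..1, uw m n ω Finset.univ x with hU
  have hUl : (m : ℝ) ^ (Fintype.card ι) ≤ U := mean_lower hω hrel Finset.univ
  have hU0 : 0 < U := lt_of_lt_of_le (by positivity) hUl
  have hHc := series_continuous hs
  -- the two estimates
  have hest1 : ∀ i, ∫ x in (0:ℝ)..1, ‖ee (n i) x - ω i‖ ^ 2 * uw m n ω Finset.univ x ≤
      4 / m * U := by
    intro i
    have a1 : ∀ x, ‖ee (n i) x - ω i‖ ^ 2 * uw m n ω Finset.univ x ≤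
        4 * uw m n ω (Finset.univ.erase i) x := by
      intro x
      unfold uw
      rw [← Finset.mul_prod_erase Finset.univ _ (Finset.mem_univ i), ← mul_assoc]
      apply mul_le_mul_of_nonneg_right _ (Finset.prod_nonneg (fun _ _ => by positivity))
      have b1 : ee (n i) x - ω i = ω i * ((ω i)⁻¹ * ee (n i) x - 1) := by
        have := hω0 i
        field_simp
      rw [b1, norm_mul, hω i, one_mul, ← mul_pow, ← norm_mul, mul_comm ((ω i)⁻¹ * ee (n i) x - 1),
        Dk_mul]
      have b2 : ‖((ω i)⁻¹ * ee (n i) x) ^ m - 1‖ ≤ 2 := by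
        refine (norm_sub_le _ _).trans ?_
        rw [norm_pow, norm_mul, norm_inv, hω, ee_norm]; norm_num
      calc ‖((ω i)⁻¹ * ee (n i) x) ^ m - 1‖ ^ 2 ≤ 2 ^ 2 := pow_le_pow_left₀ (norm_nonneg _) b2 2
        _ = 4 := by norm_num
    have a2 : m * (∫ x in (0:ℝ)..1, uw m n ω (Finset.univ.erase i) x) ≤ U := by
      have := mean_insert hω hrel (Finset.univ.erase i) i (Finset.notMem_erase _ _)
      rwa [Finset.insert_erase (Finset.mem_univ i)] at this
    calc ∫ x in (0:ℝ)..1, ‖ee (n i) x - ω i‖ ^ 2 * uw m n ω Finset.univ x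
        ≤ ∫ x in (0:ℝ)..1, 4 * uw m n ω (Finset.univ.erase i) x := by
          apply intervalIntegral.integral_mono_on zero_le_one
          · apply Continuous.intervalIntegrable
            exact (((ee_continuous _).sub continuous_const).norm.pow 2).mul (uw_continuous _)
          · apply Continuous.intervalIntegrable
            exact continuous_const.mul (uw_continuous _)
          · intro x _; exact a1 x
      _ = 4 * ∫ x in (0:ℝ)..1, uw m n ω (Finset.univ.erase i) x :=
          intervalIntegral.integral_const_mul _ _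
      _ = 4 / m * (m * ∫ x in (0:ℝ)..1, uw m n ω (Finset.univ.erase i) x) := by field_simp
      _ ≤ 4 / m * U := mul_le_mul_of_nonneg_left a2 (by positivity)
  have hest2 : ∫ x in (0:ℝ)..1, ‖∑' k, h k * ee k x‖ ^ 2 * uw m n ω Finset.univ x ≤
      (m : ℝ) ^ (Fintype.card ι) * κ * U := by
    have hκ0 : 0 ≤ κ := (norm_nonneg _).trans (hκ 0)
    calc ∫ x in (0:ℝ)..1, ‖∑' k, h k * ee k x‖ ^ 2 * uw m n ω Finset.univ x
        ≤ ∫ x in (0:ℝ)..1, ‖∑' k, h k * ee k x‖ ^ 2 * (m : ℝ) ^ (2 * Fintype.card ι) := by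
          apply intervalIntegral.integral_mono_on zero_le_one
          · apply Continuous.intervalIntegrable
            exact (hHc.norm.pow 2).mul (uw_continuous _)
          · apply Continuous.intervalIntegrable
            exact (hHc.norm.pow 2).mul continuous_const
          · intro x _
            exact mul_le_mul_of_nonneg_left (uw_le hω Finset.univ x) (by positivity)
      _ = (∫ x in (0:ℝ)..1, ‖∑' k, h k * ee k x‖ ^ 2) * (m : ℝ) ^ (2 * Fintype.card ι) :=
          intervalIntegral.integral_mul_const _ _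
      _ ≤ κ * (m : ℝ) ^ (2 * Fintype.card ι) :=
          mul_le_mul_of_nonneg_right (mean_sq hs h1 κ hκ) (by positivity)
      _ = (m : ℝ) ^ (Fintype.card ι) * κ * (m : ℝ) ^ (Fintype.card ι) := by
          rw [two_mul, pow_add]; ring
      _ ≤ (m : ℝ) ^ (Fintype.card ι) * κ * U := mul_le_mul_of_nonneg_left hUl (by positivity)
  -- integrate the contrary inequality
  have hmain : τ * U ≤ ∫ x in (0:ℝ)..1, ((∑ i, ‖c i‖ * ‖ee (n i) x - ω i‖ ^ 2) +
      ‖∑' k, h k * ee k x‖ ^ 2) * uw m n ω Finset.univ x := by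
    rw [hU, ← intervalIntegral.integral_const_mul]
    apply intervalIntegral.integral_mono_on zero_le_one
    · apply Continuous.intervalIntegrable
      exact continuous_const.mul (uw_continuous _)
    · apply Continuous.intervalIntegrable
      refine Continuous.mul (Continuous.add ?_ (hHc.norm.pow 2)) (uw_continuous _)
      apply continuous_finsetSum
      intro i _
      exact continuous_const.mul (((ee_continuous _).sub continuous_const).norm.pow 2)
    · intro x _
      exact mul_le_mul_of_nonneg_right (hcon x) (uw_nonneg _ _)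
  have hsplit : ∫ x in (0:ℝ)..1, ((∑ i, ‖c i‖ * ‖ee (n i) x - ω i‖ ^ 2) +
      ‖∑' k, h k * ee k x‖ ^ 2) * uw m n ω Finset.univ x =
      (∑ i, ‖c i‖ * ∫ x in (0:ℝ)..1, ‖ee (n i) x - ω i‖ ^ 2 * uw m n ω Finset.univ x) +
      ∫ x in (0:ℝ)..1, ‖∑' k, h k * ee k x‖ ^ 2 * uw m n ω Finset.univ x := by
    have a1 : ∀ x, ((∑ i, ‖c i‖ * ‖ee (n i) x - ω i‖ ^ 2) +
      ‖∑' k, h k * ee k x‖ ^ 2) * uw m n ω Finset.univ x =
      (∑ i, ‖c i‖ * (‖ee (n i) x - ω i‖ ^ 2 * uw m n ω Finset.univ x)) +
        ‖∑' k, h k * ee k x‖ ^ 2 * uw m n ω Finset.univ x := by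
      intro x
      rw [add_mul, Finset.sum_mul]
      congr 1
      apply Finset.sum_congr rfl
      intro i _; ring
    simp_rw [a1]
    rw [intervalIntegral.integral_add, intervalIntegral.integral_finsetSum]
    · congr 1
      apply Finset.sum_congr rfl
      intro i _
      rw [intervalIntegral.integral_const_mul]
    · intro i _
      apply Continuous.intervalIntegrable
      exact continuous_const.mul ((((ee_continuous _).sub continuous_const).norm.pow 2).mul
        (uw_continuous _))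
    · apply Continuous.intervalIntegrable
      apply continuous_finsetSum
      intro i _
      exact continuous_const.mul ((((ee_continuous _).sub continuous_const).norm.pow 2).mul
        (uw_continuous _))
    · apply Continuous.intervalIntegrable
      exact (hHc.norm.pow 2).mul (uw_continuous _)
  rw [hsplit] at hmain
  have hfin : (∑ i, ‖c i‖ * ∫ x in (0:ℝ)..1, ‖ee (n i) x - ω i‖ ^ 2 * uw m n ω Finset.univ x) ≤
      4 / m * U := by
    calc (∑ i, ‖c i‖ * ∫ x in (0:ℝ)..1, ‖ee (n i) x - ω i‖ ^ 2 * uw m n ω Finset.univ x)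
        ≤ ∑ i, ‖c i‖ * (4 / m * U) :=
          Finset.sum_le_sum (fun i _ => mul_le_mul_of_nonneg_left (hest1 i) (norm_nonneg _))
      _ = (∑ i, ‖c i‖) * (4 / m * U) := (Finset.sum_mul _ _ _).symm
      _ ≤ 1 * (4 / m * U) := mul_le_mul_of_nonneg_right hc (by positivity)
      _ = 4 / m * U := one_mul _
  have : τ * U ≤ (4 / m + (m : ℝ) ^ (Fintype.card ι) * κ) * U := by
    rw [add_mul]; linarith
  have h9 := le_of_mul_le_mul_right this hU0
  linarith

end Pool.Agent.V1193.Wiener
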