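import Pool.Agent.V1193.WienerA
import Pool.Agent.V1193.WienerB

/-! Decomposition of an element of the Wiener algebra according to the size of its coefficients. -/

open Set Filter Topology

namespace Pool.Agent.V1193.Wiener

lemma tsum_split_finset {a : ℤ → ℂ} (ha : Summable (fun n => ‖a n‖)) (T : Finset ℤ) :
    ∑' n, ‖a n‖ = (∑ n ∈ T, ‖a n‖) + ∑' n, (if n ∈ T then 0 else ‖a n‖) := by
  have h1 : ∀ n, ‖a n‖ = (if n ∈ T then ‖a n‖ else 0) + (if n ∈ T then 0 else ‖a n‖) := by
    intro n; split <;> simp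
  have hs1 : Summable (fun n => if n ∈ T then ‖a n‖ else 0) :=
    ha.of_nonneg_of_le (fun n => by split <;> simp) (fun n => by split <;> simp)
  have hs2 : Summable (fun n => if n ∈ T then 0 else ‖a n‖) :=
    ha.of_nonneg_of_le (fun n => by split <;> simp) (fun n => by split <;> simp)
  calc ∑' n, ‖a n‖ = ∑' n, ((if n ∈ T then ‖a n‖ else 0) + (if n ∈ T then 0 else ‖a n‖)) := by
        congr 1; ext n; exact h1 n
    _ = (∑' n, if n ∈ T then ‖a n‖ else 0) + ∑' n, (if n ∈ T then 0 else ‖a n‖) :=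
        hs1.tsum_add hs2
    _ = _ := by
        congr 1
        rw [tsum_eq_sum (s := T)]
        · apply Finset.sum_congr rfl
          intro n hn; rw [if_pos hn]
        · intro n hn; rw [if_neg hn]

/-- Decomposition at the scales `ε > ε'`. -/
lemma decomp {a : ℤ → ℂ} (ha : Summable (fun n => ‖a n‖)) (h1 : ∑' n, ‖a n‖ ≤ 1) {ε ε' η : ℝ}
    (hε : 0 < ε) {J : ℕ} (hJ : 1 / ε ≤ J)
    (hη : ∑' n, (if ε' ≤ ‖a n‖ ∧ ‖a n‖ < ε then ‖a n‖ else 0) ≤ η) (hε' : 0 ≤ ε') :
    ∃ n : Fin J → ℤ, ∃ h : ℤ → ℂ, Summable (fun k => ‖h k‖) ∧ ∑' k, ‖h k‖ ≤ 1 ∧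
      (∀ k, ‖h k‖ ≤ ε') ∧ ∑ j, ‖a (n j)‖ ≤ 1 ∧
      ‖conv a - ∑ j, a (n j) • sh (n j)‖ ≤ 1 - ∑ j, ‖a (n j)‖ ∧
      ∀ x : ℝ, ‖∑' k, a k * ee k x - (∑ j, a (n j) * ee (n j) x) - ∑' k, h k * ee k x‖ ≤ η := by
  classical
  -- the finite set of big coefficients
  have hfin : {n : ℤ | ε ≤ ‖a n‖}.Finite := by
    have h2 : ∀ᶠ n in cofinite, ‖a n‖ < ε := ha.tendsto_cofinite_zero.eventually_lt_const hε
    rw [Filter.eventually_cofinite] at h2
    apply h2.subset
    intro n hn
    exact not_lt.2 hn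
  set T0 : Finset ℤ := hfin.toFinset with hT0
  have hT0m : ∀ n, n ∈ T0 ↔ ε ≤ ‖a n‖ := fun n => by rw [hT0, Set.Finite.mem_toFinset]; rfl
  have hcard : T0.card ≤ J := by
    have h2 : (T0.card : ℝ) * ε ≤ 1 := by
      calc (T0.card : ℝ) * ε = ∑ n ∈ T0, ε := by rw [Finset.sum_const, nsmul_eq_mul]
        _ ≤ ∑ n ∈ T0, ‖a n‖ := Finset.sum_le_sum (fun n hn => (hT0m n).1 hn)
        _ ≤ ∑' n, ‖a n‖ := ha.sum_le_tsum T0 (fun _ _ => norm_nonneg _)
        _ ≤ 1 := h1
    have h3 : (T0.card : ℝ) ≤ 1 / ε := by rw [le_div_iff₀ hε]; exact h2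
    exact_mod_cast h3.trans hJ
  obtain ⟨T, hT0T, hTc⟩ := Infinite.exists_superset_card_eq T0 J hcard
  let eqv : Fin J ≃ T := (T.equivFinOfCardEq hTc).symm
  have hsumT : ∀ (M : Type) [AddCommMonoid M] (f : ℤ → M), ∑ j, f (eqv j).1 = ∑ n ∈ T, f n := by
    intro M _ f
    rw [← Finset.sum_coe_sort T f]
    exact Fintype.sum_equiv eqv _ _ (fun _ => rfl)
  set h : ℤ → ℂ := fun k => if k ∉ T ∧ ‖a k‖ < ε' then a k else 0 with hh
  set r : ℤ → ℂ := fun k => if k ∉ T ∧ ε' ≤ ‖a k‖ then a k else 0 with hr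
  have hhle : ∀ k, ‖h k‖ ≤ ‖a k‖ := fun k => by simp only [hh]; split <;> simp
  have hrle : ∀ k, ‖r k‖ ≤ ‖a k‖ := fun k => by simp only [hr]; split <;> simp
  have hhs : Summable (fun k => ‖h k‖) := ha.of_nonneg_of_le (fun _ => norm_nonneg _) hhle
  have hrs : Summable (fun k => ‖r k‖) := ha.of_nonneg_of_le (fun _ => norm_nonneg _) hrle
  have hsp := tsum_split_finset ha T
  have hnn : 0 ≤ ∑' n, (if n ∈ T then 0 else ‖a n‖) :=
    tsum_nonneg (fun n => by split <;> simp)
  refine ⟨fun j => (eqv j).1, h, hhs, ?_, ?_, ?_, ?_, ?_⟩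
  · exact (hhs.tsum_le_tsum hhle ha).trans h1
  · intro k
    simp only [hh]
    split
    · next h => exact h.2.le
    · simpa using hε'
  · rw [hsumT ℝ (fun n => ‖a n‖)]
    linarith
  · -- the norm of the remainder
    set b : ℤ → ℂ := fun k => if k ∈ T then 0 else a k with hb
    have hbn : ∀ k, ‖b k‖ = if k ∈ T then 0 else ‖a k‖ := fun k => by
      simp only [hb]; split <;> simp
    have hbs : Summable (fun k => ‖b k‖) := by
      apply ha.of_nonneg_of_le (fun _ => norm_nonneg _)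
      intro k; rw [hbn]; split <;> simp
    have e1 : conv a - ∑ n ∈ T, a n • sh n = conv b := by
      have h2 := conv_hasSum ha
      have h3 : HasSum (fun n => (if n ∈ T then a n else 0) • sh n) (∑ n ∈ T, a n • sh n) := by
        have : ∑ n ∈ T, a n • sh n = ∑ n ∈ T, (if n ∈ T then a n else 0) • sh n :=
          Finset.sum_congr rfl (fun n hn => by rw [if_pos hn])
        rw [this]
        apply hasSum_sum_of_ne_finset_zero
        intro n hn
        rw [if_neg hn, zero_smul]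
      have h4 := h2.sub h3
      have h5 : (fun n => a n • sh n - (if n ∈ T then a n else 0) • sh n) =
          fun n => b n • sh n := by
        funext n
        rw [← sub_smul]
        congr 1
        simp only [hb]
        split <;> simp
      rw [h5] at h4
      exact h4.unique (conv_hasSum hbs)
    rw [hsumT W (fun n => a n • sh n), hsumT ℝ (fun n => ‖a n‖), e1]
    refine (conv_norm hbs).trans ?_
    simp_rw [hbn]
    linarith
  · intro x
    have hsA : Summable (fun k => a k * ee k x) := by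
      apply Summable.of_norm
      simpa only [norm_mul, ee_norm, mul_one] using ha
    have hsh : Summable (fun k => h k * ee k x) := by
      apply Summable.of_norm
      simpa only [norm_mul, ee_norm, mul_one] using hhs
    have hsr : Summable (fun k => r k * ee k x) := by
      apply Summable.of_norm
      simpa only [norm_mul, ee_norm, mul_one] using hrs
    have h3 : HasSum (fun n => (if n ∈ T then a n else 0) * ee n x) (∑ n ∈ T, a n * ee n x) := by
      have : ∑ n ∈ T, a n * ee n x = ∑ n ∈ T, (if n ∈ T then a n else 0) * ee n x :=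
        Finset.sum_congr rfl (fun n hn => by rw [if_pos hn])
      rw [this]
      apply hasSum_sum_of_ne_finset_zero
      intro n hn
      rw [if_neg hn, zero_mul]
    have h4 := (hsA.hasSum.sub h3).sub hsh.hasSum
    have h5 : (fun n => a n * ee n x - (if n ∈ T then a n else 0) * ee n x - h n * ee n x) =
        fun n => r n * ee n x := by
      funext n
      rw [← sub_mul, ← sub_mul]
      congr 1
      simp only [hh, hr]
      by_cases hn : n ∈ T
      · simp [hn]
      · by_cases hl : ‖a n‖ < ε'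
        · simp [hn, hl, not_le.2 hl]
        · simp [hn, hl, not_lt.1 hl]
    rw [h5] at h4
    rw [hsumT ℂ (fun n => a n * ee n x), ← h4.tsum_eq]
    refine (series_norm_le hrs x).trans (le_trans ?_ hη)
    have hms : Summable (fun n => if ε' ≤ ‖a n‖ ∧ ‖a n‖ < ε then ‖a n‖ else 0) :=
      ha.of_nonneg_of_le (fun n => by split <;> simp) (fun n => by split <;> simp)
    apply hrs.tsum_le_tsum _ hms
    intro k
    simp only [hr]
    by_cases hc : k ∉ T ∧ ε' ≤ ‖a k‖
    · rw [if_pos hc]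
      have hk : ‖a k‖ < ε := by
        by_contra hcon
        exact hc.1 (hT0T ((hT0m k).2 (not_lt.1 hcon)))
      rw [if_pos ⟨hc.2, hk⟩]
    · rw [if_neg hc, norm_zero]
      split <;> simp

/-- One of the scales carries little mass. -/
lemma pigeon {a : ℤ → ℂ} (ha : Summable (fun n => ‖a n‖)) (h1 : ∑' n, ‖a n‖ ≤ 1) (ε : ℕ → ℝ)
    (hε : Antitone ε) {I : ℕ} (hI : 0 < I) :
    ∃ s < I, ∑' n, (if ε (s+1) ≤ ‖a n‖ ∧ ‖a n‖ < ε s then ‖a n‖ else 0) ≤ 1 / I := by
  classical
  by_contra hcon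
  push Not at hcon
  have hI' : (0:ℝ) < I := by exact_mod_cast hI
  have hsm : ∀ s, Summable (fun n => if ε (s+1) ≤ ‖a n‖ ∧ ‖a n‖ < ε s then ‖a n‖ else 0) :=
    fun s => ha.of_nonneg_of_le (fun n => by split <;> simp) (fun n => by split <;> simp)
  have h2 : ∑ s ∈ Finset.range I, ∑' n, (if ε (s+1) ≤ ‖a n‖ ∧ ‖a n‖ < ε s then ‖a n‖ else 0) ≤ 1 := by
    rw [← Summable.tsum_finsetSum (fun s _ => hsm s)]
    refine le_trans ?_ h1
    apply (summable_sum (fun s _ => hsm s)).tsum_le_tsum _ ha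
    intro n
    -- at most one term is nonzero
    by_cases hex : ∃ s ∈ Finset.range I, ε (s+1) ≤ ‖a n‖ ∧ ‖a n‖ < ε s
    · obtain ⟨s, hs, hs1, hs2⟩ := hex
      rw [Finset.sum_eq_single_of_mem s hs]
      · split <;> simp
      · intro t _ hts
        rw [if_neg]
        rintro ⟨h3, h4⟩
        rcases lt_or_gt_of_ne hts with h5 | h5
        · have : ε s ≤ ε (t+1) := hε h5
          linarith
        · have : ε t ≤ ε (s+1) := hε h5
          linarith
    · rw [Finset.sum_eq_zero]
      · exact norm_nonneg _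
      · intro s hs
        rw [if_neg]
        intro h3
        exact hex ⟨s, hs, h3⟩
  have h3 : ∑ s ∈ Finset.range I, (1 / (I:ℝ)) < ∑ s ∈ Finset.range I,
      ∑' n, (if ε (s+1) ≤ ‖a n‖ ∧ ‖a n‖ < ε s then ‖a n‖ else 0) := by
    apply Finset.sum_lt_sum_of_nonempty ⟨0, Finset.mem_range.2 hI⟩
    intro s hs
    exact hcon s (Finset.mem_range.1 hs)
  rw [Finset.sum_const, Finset.card_range, nsmul_eq_mul] at h3
  have : (I:ℝ) * (1 / I) = 1 := by field_simp
  linarith

end Pool.Agent.V1193.Wiener
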