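import Pool.Agent.V1193.WienerC

/-! Uniform bounds for inverses in the two-sided Wiener algebra. -/

open Set Filter Topology WeakDual
open scoped BoundedContinuousFunction

namespace Pool.Agent.V1193.Wiener

/-- elements of the unit ball of the Wiener algebra with modulus at least `δ` on the circle -/
structure Idx (δ : ℝ) : Type where
  a : ℤ → ℂ
  sm : Summable (fun n => ‖a n‖)
  le : ∑' n, ‖a n‖ ≤ 1
  low : ∀ x : ℝ, δ ≤ ‖∑' k, a k * ee k x‖

instance (δ : ℝ) : TopologicalSpace (Idx δ) := ⊥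
instance (δ : ℝ) : DiscreteTopology (Idx δ) := ⟨rfl⟩

/-- bounded functions `Idx δ → W` -/
abbrev B (δ : ℝ) : Type := Idx δ →ᵇ W

variable {δ : ℝ}

noncomputable instance instB1 : NormedCommRing (B δ) := inferInstance
noncomputable instance instB0 : CommRing (B δ) := instB1.toCommRing
noncomputable instance instB4 : Ring (B δ) := instB0.toRing
noncomputable instance instB5 : Semiring (B δ) := instB4.toSemiring
noncomputable instance instB2 : NormedAlgebra ℂ (B δ) := inferInstance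
noncomputable instance instB6 : Algebra ℂ (B δ) := instB2.toAlgebra
instance instB3 : CompleteSpace (B δ) := inferInstance

/-- constructor -/
noncomputable def mkB (f : Idx δ → W) (C : ℝ) (hf : ∀ i, ‖f i‖ ≤ C) : B δ :=
  BoundedContinuousFunction.ofNormedAddCommGroupDiscrete f C hf

lemma mkB_apply (f : Idx δ → W) (C : ℝ) (hf : ∀ i, ‖f i‖ ≤ C) (i : Idx δ) : mkB f C hf i = f i := rfl

lemma phi_norm (φ : characterSpace ℂ (B δ)) (x : B δ) (C : ℝ) (hC : 0 ≤ C) (hx : ∀ i, ‖x i‖ ≤ C) :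
    ‖φ x‖ ≤ C := by
  have h1 := AlgHom.norm_apply_le_self_mul_norm_one φ x
  have h2 : ‖x‖ ≤ C := (BoundedContinuousFunction.norm_le hC).2 hx
  have h3 : ‖(1 : B δ)‖ ≤ 1 := (BoundedContinuousFunction.norm_le zero_le_one).2 (fun i => W_norm_one)
  calc ‖φ x‖ ≤ ‖x‖ * ‖(1 : B δ)‖ := h1
    _ ≤ C * 1 := mul_le_mul h2 h3 (norm_nonneg _) hC
    _ = C := mul_one C

open Classical in
/-- indicator functions -/
noncomputable def ind (S : Set (Idx δ)) : B δ :=
  mkB (fun i => if i ∈ S then 1 else 0) 1 (fun i => by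
    split
    · exact W_norm_one
    · simp)

open Classical in
lemma ind_apply (S : Set (Idx δ)) (i : Idx δ) : ind S i = if i ∈ S then 1 else 0 := rfl

lemma ind_univ : ind (univ : Set (Idx δ)) = 1 := by
  classical
  ext1 i
  rw [ind_apply, if_pos (mem_univ _)]; rfl

lemma ind_mul (S T : Set (Idx δ)) : ind S * ind T = ind (S ∩ T) := by
  classical
  ext1 i
  show ind S i * ind T i = ind (S ∩ T) i
  rw [ind_apply, ind_apply, ind_apply]
  by_cases h1 : i ∈ S <;> by_cases h2 : i ∈ T <;> simp [h1, h2]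

lemma ind_add_compl (S : Set (Idx δ)) : ind S + ind Sᶜ = 1 := by
  classical
  ext1 i
  show ind S i + ind Sᶜ i = 1
  rw [ind_apply, ind_apply]
  by_cases h1 : i ∈ S <;> simp [h1]

/-- sets of `φ`-measure one -/
def Big (φ : characterSpace ℂ (B δ)) (S : Set (Idx δ)) : Prop := φ (ind S) = 1

lemma big_univ (φ : characterSpace ℂ (B δ)) : Big φ univ := by
  unfold Big; rw [ind_univ, map_one]

lemma big_or (φ : characterSpace ℂ (B δ)) (S : Set (Idx δ)) : Big φ S ∨ Big φ Sᶜ := by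
  have h1 : φ (ind S) * φ (ind S) = φ (ind S) := by rw [← map_mul, ind_mul, inter_self]
  have h2 : φ (ind S) + φ (ind Sᶜ) = 1 := by rw [← map_add, ind_add_compl, map_one]
  by_cases h : φ (ind S) = 0
  · right
    unfold Big
    rw [h, zero_add] at h2; exact h2
  · left
    exact mul_left_cancel₀ h (by rw [h1, mul_one])

lemma big_inter (φ : characterSpace ℂ (B δ)) {S T : Set (Idx δ)} (hS : Big φ S) (hT : Big φ T) :
    Big φ (S ∩ T) := by
  unfold Big at *
  rw [← ind_mul, map_mul, hS, hT, mul_one]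

lemma big_nonempty (φ : characterSpace ℂ (B δ)) {S : Set (Idx δ)} (hS : Big φ S) : S.Nonempty := by
  classical
  by_contra h
  rw [Set.not_nonempty_iff_eq_empty] at h
  subst h
  unfold Big at hS
  have : ind (∅ : Set (Idx δ)) = 0 := by
    ext1 i; rw [ind_apply, if_neg (Set.notMem_empty _)]; rfl
  rw [this, map_zero] at hS
  exact zero_ne_one hS

lemma big_biInter (φ : characterSpace ℂ (B δ)) {κ : Type} (F : Finset κ) (S : κ → Set (Idx δ))
    (h : ∀ k ∈ F, Big φ (S k)) : Big φ (⋂ k ∈ F, S k) := by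
  classical
  induction F using Finset.induction_on with
  | empty => simpa using big_univ φ
  | insert k F hk ih =>
    rw [Finset.set_biInter_insert]
    exact big_inter φ (h k (Finset.mem_insert_self _ _))
      (ih (fun l hl => h l (Finset.mem_insert_of_mem hl)))

/-- the element `i ↦ S_{v(i)}` -/
noncomputable def eB (v : Idx δ → ℤ) : B δ := mkB (fun i => sh (v i)) 1 (fun _ => sh_norm _)

lemma eB_apply (v : Idx δ → ℤ) (i : Idx δ) : eB v i = sh (v i) := rfl

lemma eB_add (v w : Idx δ → ℤ) : eB (v + w) = eB v * eB w := by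
  ext1 i
  show sh (v i + w i) = sh (v i) * sh (w i)
  rw [sh_mul]

lemma eB_zero : eB (0 : Idx δ → ℤ) = 1 := by
  ext1 i
  show sh 0 = 1
  exact sh_zero

/-- the homomorphism `v ↦ φ(S_v)` -/
noncomputable def psi (φ : characterSpace ℂ (B δ)) : Multiplicative (Idx δ → ℤ) →* ℂ where
  toFun v := φ (eB v.toAdd)
  map_one' := by
    show φ (eB (0 : Idx δ → ℤ)) = 1
    rw [eB_zero, map_one]
  map_mul' v w := by
    show φ (eB (v.toAdd + w.toAdd)) = _
    rw [eB_add, map_mul]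

lemma psi_norm (φ : characterSpace ℂ (B δ)) (v : Idx δ → ℤ) : ‖φ (eB v)‖ = 1 := by
  have h1 : ∀ w : Idx δ → ℤ, ‖φ (eB w)‖ ≤ 1 := fun w =>
    phi_norm φ _ 1 zero_le_one (fun i => sh_norm _)
  have h2 : φ (eB v) * φ (eB (-v)) = 1 := by
    rw [← map_mul, ← eB_add, add_neg_cancel, eB_zero, map_one]
  have h3 : ‖φ (eB v)‖ * ‖φ (eB (-v))‖ = 1 := by rw [← norm_mul, h2, norm_one]
  apply le_antisymm (h1 v)
  calc (1:ℝ) = ‖φ (eB v)‖ * ‖φ (eB (-v))‖ := h3.symm
    _ ≤ ‖φ (eB v)‖ * 1 := mul_le_mul_of_nonneg_left (h1 _) (norm_nonneg _)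
    _ = ‖φ (eB v)‖ := mul_one _

lemma psi_prod (φ : characterSpace ℂ (B δ)) {J : ℕ} (n : Fin J → Idx δ → ℤ) (d : Fin J → ℤ) :
    φ (eB (fun i => ∑ j, d j * n j i)) = ∏ j, φ (eB (n j)) ^ (d j) := by
  have h1 : (Multiplicative.ofAdd (fun i => ∑ j, d j * n j i : Idx δ → ℤ)) =
      ∏ j, (Multiplicative.ofAdd (n j)) ^ (d j) := by
    apply Multiplicative.toAdd.injective
    rw [toAdd_ofAdd, toAdd_prod]
    funext i
    rw [Finset.sum_apply]
    apply Finset.sum_congr rfl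
    intro j _
    rw [toAdd_zpow, toAdd_ofAdd, Pi.smul_apply, smul_eq_mul]
  have h2 : ∀ v : Multiplicative (Idx δ → ℤ), ((psi φ).toHomUnits v : ℂ) = φ (eB v.toAdd) :=
    fun _ => rfl
  have h3 := congrArg (fun v => ((psi φ).toHomUnits v : ℂ)) h1
  simp only [map_prod, map_zpow, Units.coe_prod, Units.val_zpow_eq_zpow_val, h2] at h3
  exact h3

/-- The element `a ↦ ∑ a_n S_n`. -/
noncomputable def FB : B δ := mkB (fun i => conv i.a) 1 (fun i => (conv_norm i.sm).trans i.le)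

/-- the scales -/
noncomputable def scale (τ : ℝ) (m : ℕ) : ℕ → ℝ
  | 0 => 1
  | (s+1) => min (scale τ m s) (τ / (4 * (m:ℝ) ^ (⌈1/(scale τ m s)⌉₊)))

theorem main_unit (hδ : 1/2 < δ) : IsUnit (FB : B δ) := by
  classical
  by_contra hnu
  obtain ⟨φ, hφ⟩ := @WeakDual.CharacterSpace.exists_apply_eq_zero (B δ) instB1
    (inferInstance : NormedAlgebra ℂ (Idx δ →ᵇ W)) instB3 FB hnu
  -- parameters
  set γ : ℝ := (δ - 1/2) / 4 with hγ
  have hγ0 : 0 < γ := by rw [hγ]; linarith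
  set τ : ℝ := γ ^ 2 with hτ
  have hτ0 : 0 < τ := by positivity
  obtain ⟨I, hI⟩ := exists_nat_gt (1 / γ)
  have hI0 : 0 < I := by
    have : (0:ℝ) < I := lt_trans (by positivity) hI
    exact_mod_cast this
  have hIγ : 1 / (I:ℝ) ≤ γ := by
    rw [div_le_iff₀ (by exact_mod_cast hI0)]
    have := (div_lt_iff₀ hγ0).1 hI
    linarith
  obtain ⟨m, hm⟩ := exists_nat_gt (8 / τ)
  have hm0 : 0 < m := by
    have : (0:ℝ) < m := lt_trans (by positivity) hm
    exact_mod_cast this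
  have hm' : (0:ℝ) < m := by exact_mod_cast hm0
  have h4m : 4 / (m:ℝ) < τ / 2 := by
    rw [div_lt_iff₀ hm']
    have := (div_lt_iff₀ hτ0).1 hm
    linarith
  -- scales
  obtain ⟨ε, hεdef⟩ : ∃ ε : ℕ → ℝ, ε = scale τ m := ⟨_, rfl⟩
  have hε0 : ∀ s, 0 < ε s := by
    intro s
    induction s with
    | zero => rw [hεdef]; exact one_pos
    | succ s ih => rw [hεdef] at ih ⊢; exact lt_min ih (by positivity)
  have hεs : ∀ s, ε (s+1) = min (ε s) (τ / (4 * (m:ℝ) ^ (⌈1/(ε s)⌉₊))) := by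
    intro s; rw [hεdef]; rfl
  have hεa : Antitone ε := antitone_nat_of_succ_le (fun s => by rw [hεs]; exact min_le_left _ _)
  have hpg : ∀ i : Idx δ, ∃ s < I,
      ∑' n, (if ε (s+1) ≤ ‖i.a n‖ ∧ ‖i.a n‖ < ε s then ‖i.a n‖ else 0) ≤ 1 / (I:ℝ) :=
    fun i => pigeon i.sm i.le ε hεa hI0
  choose sc hscI hsc using hpg
  -- a big level set
  have hbigs : ∃ s, Big φ {i | sc i = s} := by
    by_contra hcon
    push Not at hcon
    have h1 : ∀ s ∈ Finset.range I, Big φ {i | sc i = s}ᶜ := fun s _ =>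
      (big_or φ _).resolve_left (hcon s)
    obtain ⟨i, hi⟩ := big_nonempty φ (big_biInter φ (Finset.range I) _ h1)
    rw [mem_iInter₂] at hi
    exact hi (sc i) (Finset.mem_range.2 (hscI i)) rfl
  obtain ⟨s, hs⟩ := hbigs
  set J : ℕ := ⌈1/(ε s)⌉₊ with hJ
  have hdec : ∀ i : Idx δ, ∃ n : Fin J → ℤ, ∃ h : ℤ → ℂ, sc i = s → (Summable (fun k => ‖h k‖) ∧
      ∑' k, ‖h k‖ ≤ 1 ∧ (∀ k, ‖h k‖ ≤ ε (s+1)) ∧ ∑ j, ‖i.a (n j)‖ ≤ 1 ∧
      ‖conv i.a - ∑ j, i.a (n j) • sh (n j)‖ ≤ 1 - ∑ j, ‖i.a (n j)‖ ∧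
      ∀ x : ℝ, ‖∑' k, i.a k * ee k x - (∑ j, i.a (n j) * ee (n j) x) - ∑' k, h k * ee k x‖
        ≤ 1 / I) := by
    intro i
    by_cases h : sc i = s
    · have h2 := hsc i
      rw [h] at h2
      obtain ⟨n, h', h3⟩ := decomp i.sm i.le (hε0 s) (Nat.le_ceil _) h2 (hε0 (s+1)).le
      exact ⟨n, h', fun _ => h3⟩
    · exact ⟨fun _ => 0, fun _ => 0, fun h' => absurd h' h⟩
  choose n hh hdec using hdec
  set nn : Fin J → Idx δ → ℤ := fun j i => n i j with hnn
  set ω : Fin J → ℂ := fun j => φ (eB (nn j)) with hω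
  have hω1 : ∀ j, ‖ω j‖ = 1 := fun j => psi_norm φ _
  -- relations
  set Sd : (Fin J → ℤ) → Set (Idx δ) := fun d => {i | ∑ j, d j * nn j i = 0} with hSd
  have hSd1 : ∀ d, Big φ (Sd d) → ∏ j, (ω j) ^ (d j) = 1 := by
    intro d hd
    rw [hω]
    simp only
    rw [← psi_prod φ nn d]
    have h1 : ind (Sd d) * eB (fun i => ∑ j, d j * nn j i) = ind (Sd d) := by
      ext1 i
      show ind (Sd d) i * eB (fun i => ∑ j, d j * nn j i) i = ind (Sd d) i
      rw [ind_apply, eB_apply]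
      split
      · next h =>
        have h' : ∑ j, d j * nn j i = 0 := h
        rw [h', sh_zero, mul_one]
      · rw [zero_mul]
    have h2 := congrArg φ h1
    rw [map_mul] at h2
    have h3 : φ (ind (Sd d)) = 1 := hd
    rw [h3, one_mul] at h2
    exact h2
  set Box : Finset (Fin J → ℤ) := Fintype.piFinset (fun _ => Finset.Ioo (-(m:ℤ)) m) with hBox
  set Bad : Finset (Fin J → ℤ) := Box.filter (fun d => ¬ Big φ (Sd d)) with hBad
  set S : Set (Idx δ) := {i | sc i = s} ∩ ⋂ d ∈ Bad, (Sd d)ᶜ with hS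
  have hSbig : Big φ S := by
    apply big_inter φ hs
    apply big_biInter
    intro d hd
    rw [hBad, Finset.mem_filter] at hd
    exact (big_or φ _).resolve_left hd.2
  have hrel : ∀ i ∈ S, ∀ d : Fin J → ℤ, (∀ j, |d j| < m) → ∑ j, d j * n i j = 0 →
      ∏ j, (ω j) ^ (d j) = 1 := by
    intro i hi d hd h0
    by_cases hb : Big φ (Sd d)
    · exact hSd1 d hb
    · exfalso
      have hdB : d ∈ Bad := by
        rw [hBad, Finset.mem_filter]
        refine ⟨?_, hb⟩
        rw [hBox, Fintype.mem_piFinset]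
        intro j
        rw [Finset.mem_Ioo]
        exact abs_lt.1 (hd j)
      have h2 := hi.2
      rw [mem_iInter₂] at h2
      exact h2 d hdB h0
  -- the scalar s_i
  set sca : Idx δ → ℂ := fun i => ∑ j, i.a (n i j) * ω j with hsca
  set δ' : ℝ := δ - 3 * γ with hδ'
  have hδ'1 : 1/2 < δ' := by rw [hδ', hγ]; linarith
  have hscal : ∀ i ∈ S, δ' ≤ ‖sca i‖ := by
    intro i hi
    have hsi : sc i = s := hi.1
    obtain ⟨d1, d2, d3, d4, d5, d6⟩ := hdec i hsi
    have hκ : 4 / (m:ℝ) + (m:ℝ) ^ (Fintype.card (Fin J)) * ε (s+1) < τ := by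
      have h1 : ε (s+1) ≤ τ / (4 * (m:ℝ) ^ J) := by rw [hεs]; exact min_le_right _ _
      have h2 : (m:ℝ) ^ (Fintype.card (Fin J)) * ε (s+1) ≤ τ / 4 := by
        rw [Fintype.card_fin]
        calc (m:ℝ) ^ J * ε (s+1) ≤ (m:ℝ) ^ J * (τ / (4 * (m:ℝ) ^ J)) :=
              mul_le_mul_of_nonneg_left h1 (by positivity)
          _ = τ / 4 := by field_simp
      linarith
    obtain ⟨x, hx⟩ := key hm0 hω1 (hrel i hi) (fun j => i.a (n i j)) d4 d1 d2 d3 hκ
    have hA0 : 0 ≤ ∑ j, ‖i.a (n i j)‖ * ‖ee (n i j) x - ω j‖ ^ 2 :=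
      Finset.sum_nonneg (fun _ _ => by positivity)
    have hH : ‖∑' k, hh i k * ee k x‖ ≤ γ := by
      have h1 : ‖∑' k, hh i k * ee k x‖ ^ 2 ≤ γ ^ 2 := by rw [← hτ]; linarith
      exact abs_le_of_sq_le_sq' h1 hγ0.le |>.2
    have hE : ‖(∑ j, i.a (n i j) * ee (n i j) x) - sca i‖ ≤ γ := by
      have h1 : (∑ j, i.a (n i j) * ee (n i j) x) - sca i =
          ∑ j, i.a (n i j) * (ee (n i j) x - ω j) := by
        rw [hsca]
        simp only
        rw [← Finset.sum_sub_distrib]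
        apply Finset.sum_congr rfl
        intro j _; ring
      rw [h1]
      have h2 : ‖∑ j, i.a (n i j) * (ee (n i j) x - ω j)‖ ≤
          ∑ j, ‖i.a (n i j)‖ * ‖ee (n i j) x - ω j‖ := by
        refine (norm_sum_le _ _).trans (le_of_eq ?_)
        apply Finset.sum_congr rfl
        intro j _; rw [norm_mul]
      have h3 : (∑ j, ‖i.a (n i j)‖ * ‖ee (n i j) x - ω j‖) ^ 2 ≤
          (∑ j, ‖i.a (n i j)‖) * ∑ j, ‖i.a (n i j)‖ * ‖ee (n i j) x - ω j‖ ^ 2 := by
        apply Finset.sum_sq_le_sum_mul_sum_of_sq_le_mul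
        · intro j _; exact norm_nonneg _
        · intro j _; positivity
        · intro j _; apply le_of_eq; ring
      have h4 : (∑ j, ‖i.a (n i j)‖ * ‖ee (n i j) x - ω j‖) ^ 2 ≤ γ ^ 2 := by
        refine h3.trans ?_
        have hH0 := sq_nonneg ‖∑' k, hh i k * ee k x‖
        calc (∑ j, ‖i.a (n i j)‖) * ∑ j, ‖i.a (n i j)‖ * ‖ee (n i j) x - ω j‖ ^ 2
            ≤ 1 * ∑ j, ‖i.a (n i j)‖ * ‖ee (n i j) x - ω j‖ ^ 2 :=
              mul_le_mul_of_nonneg_right d4 hA0
          _ ≤ γ ^ 2 := by rw [one_mul, ← hτ]; linarith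
      exact h2.trans (abs_le_of_sq_le_sq' h4 hγ0.le).2
    have hlow := i.low x
    have h6 := d6 x
    have h7 : ‖∑' k, i.a k * ee k x‖ ≤ ‖∑' k, i.a k * ee k x -
        (∑ j, i.a (n i j) * ee (n i j) x) - ∑' k, hh i k * ee k x‖ +
        ‖(∑ j, i.a (n i j) * ee (n i j) x) - sca i‖ + ‖∑' k, hh i k * ee k x‖ + ‖sca i‖ := by
      have e : ∑' k, i.a k * ee k x = (∑' k, i.a k * ee k x -
        (∑ j, i.a (n i j) * ee (n i j) x) - ∑' k, hh i k * ee k x) +
        ((∑ j, i.a (n i j) * ee (n i j) x) - sca i) + (∑' k, hh i k * ee k x) + sca i := by ring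
      conv_lhs => rw [e]
      refine (norm_add_le _ _).trans (add_le_add_left ?_ _)
      refine (norm_add_le _ _).trans (add_le_add_left ?_ _)
      exact norm_add_le _ _
    rw [hδ']
    linarith
  have hscne : ∀ i ∈ S, sca i ≠ 0 := by
    intro i hi h0
    have := hscal i hi
    rw [h0, norm_zero] at this
    linarith
  -- the elements T, C_j, Y
  set T : B δ := mkB (fun i => if i ∈ S then (sca i)⁻¹ • (1 : W) else 0) 2 (fun i => by
    split
    · next h =>
      rw [norm_smul, norm_inv]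
      have h1 := hscal i h
      calc ‖sca i‖⁻¹ * ‖(1:W)‖ ≤ 2 * 1 := by
            apply mul_le_mul _ W_norm_one (norm_nonneg _) (by norm_num)
            rw [inv_le_comm₀ (by linarith) (by norm_num)]
            linarith
        _ = 2 := by norm_num
    · simp) with hT
  have hCb : ∀ (j : Fin J) (i : Idx δ),
      ‖(if i ∈ S then ((sca i)⁻¹ * i.a (n i j)) • (1 : W) else 0)‖ ≤ 2 := by
    intro j i
    split
    · next h =>
      rw [norm_smul, norm_mul, norm_inv]
      have h1 := hscal i h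
      obtain ⟨d1, d2, d3, d4, d5, d6⟩ := hdec i h.1
      have h2 : ‖i.a (n i j)‖ ≤ 1 :=
        (Finset.single_le_sum (f := fun j => ‖i.a (n i j)‖) (fun _ _ => norm_nonneg _)
          (Finset.mem_univ j)).trans d4
      have h3 : ‖sca i‖⁻¹ ≤ 2 := by
        rw [inv_le_comm₀ (by linarith) (by norm_num)]
        linarith
      have h4 : ‖sca i‖⁻¹ * ‖i.a (n i j)‖ ≤ 2 * 1 :=
        mul_le_mul h3 h2 (norm_nonneg _) (by norm_num)
      calc ‖sca i‖⁻¹ * ‖i.a (n i j)‖ * ‖(1:W)‖ ≤ (2 * 1) * 1 :=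
            mul_le_mul h4 W_norm_one (norm_nonneg _) (by norm_num)
        _ = 2 := by norm_num
    · simp
  set Cj : Fin J → B δ := fun j => mkB _ 2 (hCb j) with hCj
  set Y : B δ := ind S - T * FB + ∑ j, Cj j * (eB (nn j) - algebraMap ℂ (B δ) (ω j)) with hY
  have hφY : φ Y = 1 := by
    rw [hY, map_add, map_sub, map_mul, hφ, mul_zero, sub_zero, map_sum]
    have h1 : φ (ind S) = 1 := hSbig
    rw [h1, Finset.sum_eq_zero, add_zero]
    intro j _
    rw [map_mul, map_sub, AlgHomClass.commutes]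
    have : (algebraMap ℂ ℂ) (ω j) = ω j := rfl
    rw [this]
    rw [hω]
    simp
  have hYn : ∀ i, ‖Y i‖ ≤ (1 - δ') / δ' := by
    have hq : 0 ≤ (1 - δ') / δ' := by
      obtain ⟨i, hi⟩ := big_nonempty φ hSbig
      obtain ⟨d1, d2, d3, d4, d5, d6⟩ := hdec i hi.1
      have h1 : ‖sca i‖ ≤ 1 := by
        refine (norm_sum_le _ _).trans (le_trans (le_of_eq ?_) d4)
        apply Finset.sum_congr rfl
        intro j _; rw [norm_mul, hω1, mul_one]
      have h2 := hscal i hi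
      apply div_nonneg <;> linarith
    intro i
    have hYi : Y i = ind S i - T i * conv i.a +
        ∑ j, Cj j i * (sh (n i j) - algebraMap ℂ W (ω j)) := by
      rw [hY]
      show (ind S i - T i * conv i.a) + (∑ j, Cj j * (eB (nn j) - algebraMap ℂ (B δ) (ω j))) i = _
      congr 1
      rw [BoundedContinuousFunction.sum_apply]
      rfl
    by_cases hi : i ∈ S
    · obtain ⟨d1, d2, d3, d4, d5, d6⟩ := hdec i hi.1
      have e1 : ind S i = 1 := by rw [ind_apply, if_pos hi]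
      have e2 : T i = (sca i)⁻¹ • (1 : W) := by rw [hT, mkB_apply, if_pos hi]
      have e3 : ∀ j, Cj j i = ((sca i)⁻¹ * i.a (n i j)) • (1 : W) := fun j => by
        rw [hCj]; simp only; rw [mkB_apply, if_pos hi]
      have hne := hscne i hi
      have e4 : Y i = - ((sca i)⁻¹ • (conv i.a - ∑ j, i.a (n i j) • sh (n i j))) := by
        rw [hYi, e1, e2]
        simp only [e3]
        have e5 : ∑ j, (((sca i)⁻¹ * i.a (n i j)) • (1 : W)) * (sh (n i j) - algebraMap ℂ W (ω j)) =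
            (sca i)⁻¹ • (∑ j, i.a (n i j) • sh (n i j)) - 1 := by
          have e6 : ∀ j, (((sca i)⁻¹ * i.a (n i j)) • (1 : W)) * (sh (n i j) - algebraMap ℂ W (ω j)) =
              (sca i)⁻¹ • (i.a (n i j) • sh (n i j)) -
                (sca i)⁻¹ • ((i.a (n i j) * ω j) • (1 : W)) := by
            intro j
            rw [smul_mul_assoc, one_mul, smul_sub, Algebra.algebraMap_eq_smul_one, smul_smul,
              smul_smul, smul_smul, mul_assoc]
          rw [Finset.sum_congr rfl (fun j _ => e6 j), Finset.sum_sub_distrib, ← Finset.smul_sum,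
            ← Finset.smul_sum, ← Finset.sum_smul]
          congr 1
          show (sca i)⁻¹ • (sca i) • (1 : W) = 1
          rw [smul_smul, inv_mul_cancel₀ hne, one_smul]
        rw [e5, smul_mul_assoc, one_mul, smul_sub]
        abel
      rw [e4, norm_neg, norm_smul, norm_inv]
      have h1 := hscal i hi
      have h2 : ‖sca i‖ ≤ ∑ j, ‖i.a (n i j)‖ := by
        refine (norm_sum_le _ _).trans (le_of_eq ?_)
        apply Finset.sum_congr rfl
        intro j _; rw [norm_mul, hω1, mul_one]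
      have h0 : 0 < ‖sca i‖ := by linarith
      calc ‖sca i‖⁻¹ * ‖conv i.a - ∑ j, i.a (n i j) • sh (n i j)‖
          ≤ ‖sca i‖⁻¹ * (1 - ‖sca i‖) := by
            apply mul_le_mul_of_nonneg_left _ (by positivity)
            linarith
        _ = 1 / ‖sca i‖ - 1 := by field_simp
        _ ≤ 1 / δ' - 1 := by
            apply sub_le_sub_right
            exact one_div_le_one_div_of_le (by linarith) h1
        _ = (1 - δ') / δ' := by
            have : δ' ≠ 0 := by linarith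
            field_simp
    · have e1 : ind S i = 0 := by rw [ind_apply, if_neg hi]
      have e2 : T i = 0 := by rw [hT, mkB_apply, if_neg hi]
      have e3 : ∀ j, Cj j i = 0 := fun j => by
        rw [hCj]; simp only; rw [mkB_apply, if_neg hi]
      rw [hYi, e1, e2]
      simp only [e3, zero_mul, Finset.sum_const_zero, sub_zero, add_zero, norm_zero]
      exact hq
  have hq : 0 ≤ (1 - δ') / δ' := by
    obtain ⟨i, hi⟩ := big_nonempty φ hSbig
    exact (norm_nonneg _).trans (hYn i)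
  have h1 := phi_norm φ Y _ hq hYn
  rw [hφY, norm_one] at h1
  rw [le_div_iff₀ (by linarith)] at h1
  linarith

/-- Uniform bounds for the inverse. -/
theorem two_sided (hδ : 1/2 < δ) : ∃ C : ℝ, ∀ a : ℤ → ℂ, Summable (fun n => ‖a n‖) →
    ∑' n, ‖a n‖ ≤ 1 → (∀ z : ℂ, ‖z‖ = 1 → δ ≤ ‖∑' n : ℤ, a n * z ^ n‖) →
    ∃ b : ℤ → ℂ, Summable (fun n => ‖b n‖) ∧ ∑' n, ‖b n‖ ≤ C ∧
      ∀ z : ℂ, ‖z‖ = 1 → (∑' n : ℤ, a n * z ^ n) * (∑' n : ℤ, b n * z ^ n) = 1 := by
  obtain ⟨u, hu⟩ := main_unit hδ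
  refine ⟨‖(u⁻¹ : (B δ)ˣ).1‖, fun a ha h1 h2 => ?_⟩
  let i : Idx δ := ⟨a, ha, h1, fun x => by
    have := h2 (ee 1 x) (ee_norm 1 x)
    simpa only [ee_one_zpow] using this⟩
  have h3 : conv a * (u⁻¹ : (B δ)ˣ).1 i = 1 := by
    have h4 : (FB : B δ) * (u⁻¹ : (B δ)ˣ).1 = 1 := by rw [← hu]; exact u.mul_inv
    have h5 := congrArg (fun q : B δ => q i) h4
    exact h5
  obtain ⟨b, hb1, hb2, hb3⟩ := extract ha _ h3
  exact ⟨b, hb1, hb2.trans ((u⁻¹ : (B δ)ˣ).1.norm_coe_le_norm i), hb3⟩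

end Pool.Agent.V1193.Wiener
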