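import Mathlib

/-! Polynomials with small sup norm all of whose first powers have coefficient sum one. -/

open Set Filter Topology Polynomial

namespace Pool.Agent.V1193.WienerE

/-- coefficients vanish from `E` on -/
def Lt (p : ℂ[X]) (E : ℕ) : Prop := ∀ i, E ≤ i → p.coeff i = 0

/-- the sum of the moduli of the coefficients -/
noncomputable def W1 (p : ℂ[X]) : ℝ := ∑ i ∈ p.support, ‖p.coeff i‖

lemma Lt.mono {p : ℂ[X]} {E F : ℕ} (h : Lt p E) (hEF : E ≤ F) : Lt p F := fun i hi => h i (hEF.trans hi)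

lemma Lt_of_natDegree {p : ℂ[X]} {E : ℕ} (h : p.natDegree < E) : Lt p E :=
  fun _ hi => coeff_eq_zero_of_natDegree_lt (h.trans_le hi)

lemma W1_eq {p : ℂ[X]} {D : ℕ} (h : Lt p D) : W1 p = ∑ i ∈ Finset.range D, ‖p.coeff i‖ := by
  unfold W1
  apply Finset.sum_subset
  · intro i hi
    rw [Finset.mem_range]
    by_contra hc
    exact (mem_support_iff.1 hi) (h i (not_lt.1 hc))
  · intro i _ hi
    rw [notMem_support_iff.1 hi, norm_zero]

lemma Lt_add {P A : ℂ[X]} {E F : ℕ} (hP : Lt P E) (hA : Lt A F) : Lt (P + A * X ^ E) (E + F) := by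
  intro i hi
  rw [coeff_add, hP i (by omega), zero_add, coeff_mul_X_pow', if_pos (by omega)]
  exact hA _ (by omega)

lemma add_block {P A : ℂ[X]} {E : ℕ} (hP : Lt P E) : W1 (P + A * X ^ E) = W1 P + W1 A := by
  have hA : Lt A (A.natDegree + 1) := Lt_of_natDegree (Nat.lt_succ_self _)
  rw [W1_eq (Lt_add hP hA), Finset.sum_range_add, W1_eq hP, W1_eq hA]
  congr 1
  · apply Finset.sum_congr rfl
    intro i hi
    rw [Finset.mem_range] at hi
    rw [coeff_add, coeff_mul_X_pow', if_neg (by omega), add_zero]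
  · apply Finset.sum_congr rfl
    intro i _
    rw [coeff_add, hP (E + i) (by omega), zero_add, coeff_mul_X_pow', if_pos (by omega)]
    congr 2; omega

lemma blocks (N : ℕ) (A : ℕ → ℂ[X]) (D : ℕ) (hA : ∀ b < D, Lt (A b) N) :
    Lt (∑ b ∈ Finset.range D, A b * X ^ (N * b)) (N * D) ∧
    W1 (∑ b ∈ Finset.range D, A b * X ^ (N * b)) = ∑ b ∈ Finset.range D, W1 (A b) := by
  induction D with
  | zero =>
    refine ⟨fun i _ => by simp, by simp [W1]⟩
  | succ D ih =>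
    obtain ⟨h1, h2⟩ := ih (fun b hb => hA b (by omega))
    rw [Finset.sum_range_succ, Finset.sum_range_succ]
    refine ⟨?_, ?_⟩
    · have := Lt_add h1 (hA D (by omega))
      rwa [← Nat.mul_succ] at this
    · rw [add_block h1, h2]

lemma W1_C_mul (c : ℂ) (p : ℂ[X]) : W1 (C c * p) = ‖c‖ * W1 p := by
  have hp : Lt p (p.natDegree + 1) := Lt_of_natDegree (Nat.lt_succ_self _)
  have hcp : Lt (C c * p) (p.natDegree + 1) := fun i hi => by
    rw [coeff_C_mul, hp i hi, mul_zero]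
  rw [W1_eq hcp, W1_eq hp, Finset.mul_sum]
  apply Finset.sum_congr rfl
  intro i _
  rw [coeff_C_mul, norm_mul]

lemma Lt_C_mul (c : ℂ) {p : ℂ[X]} {E : ℕ} (h : Lt p E) : Lt (C c * p) E := fun i hi => by
  rw [coeff_C_mul, h i hi, mul_zero]

lemma W1_one_add_X_pow (n : ℕ) : W1 ((1 + X : ℂ[X]) ^ n) = 2 ^ n := by
  have h : Lt ((1 + X : ℂ[X]) ^ n) (n + 1) := fun i hi => by
    rw [coeff_one_add_X_pow, Nat.choose_eq_zero_of_lt (by omega)]; simp
  rw [W1_eq h]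
  simp_rw [coeff_one_add_X_pow]
  have : ∀ k : ℕ, ‖((n.choose k : ℕ) : ℂ)‖ = ((n.choose k : ℕ) : ℝ) := fun k => by
    rw [Complex.norm_natCast]
  simp_rw [this]
  rw [← Nat.cast_sum, Nat.sum_range_choose]; norm_num

/-- the basic trinomial -/
noncomputable def p0 (N : ℕ) : ℂ[X] := C (1/3) * (1 + X - X ^ N)

lemma W1_p0_pow (N k : ℕ) (hk : k < N) : W1 (p0 N ^ k) = 1 := by
  have e1 : (p0 N) ^ k = C ((1/3 : ℂ) ^ k) * ∑ b ∈ Finset.range (k+1),
      (C ((-1) ^ b * (k.choose b : ℂ)) * (1 + X) ^ (k - b)) * X ^ (N * b) := by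
    unfold p0
    rw [mul_pow, ← C_pow]
    congr 1
    have : (1 + X - X ^ N : ℂ[X]) = (- X ^ N) + (1 + X) := by ring
    rw [this, add_pow]
    apply Finset.sum_congr rfl
    intro b _
    rw [neg_pow, ← pow_mul, C_mul, C_pow, C_neg, C_1, map_natCast]
    ring
  rw [e1, W1_C_mul]
  have hA : ∀ b < k + 1, Lt (C ((-1) ^ b * (k.choose b : ℂ)) * (1 + X) ^ (k - b)) N := by
    intro b _
    apply Lt_C_mul
    intro i hi
    rw [coeff_one_add_X_pow, Nat.choose_eq_zero_of_lt (by omega)]; simp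
  rw [(blocks N _ (k+1) hA).2]
  have e2 : ∀ b, W1 (C ((-1) ^ b * (k.choose b : ℂ)) * (1 + X) ^ (k - b)) =
      (k.choose b : ℝ) * 2 ^ (k - b) := by
    intro b
    rw [W1_C_mul, W1_one_add_X_pow, norm_mul, norm_pow, norm_neg, norm_one, one_pow, one_mul,
      Complex.norm_natCast]
  simp_rw [e2]
  have e3 : ∑ b ∈ Finset.range (k+1), (k.choose b : ℝ) * 2 ^ (k - b) = 3 ^ k := by
    have := add_pow (1:ℝ) 2 k
    norm_num at this
    rw [this]
    apply Finset.sum_congr rfl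
    intro b _; ring
  rw [e3, norm_pow]
  rw [← mul_pow]
  norm_num

lemma W1_mul_expand {A : ℂ[X]} {Bs : ℕ} (hA : Lt A Bs) (Q : ℂ[X]) :
    W1 (A * expand ℂ Bs Q) = W1 A * W1 Q := by
  set D := Q.natDegree + 1 with hD
  have hQ : Lt Q D := Lt_of_natDegree (Nat.lt_succ_self _)
  have e1 : A * expand ℂ Bs Q = ∑ b ∈ Finset.range D, (C (Q.coeff b) * A) * X ^ (Bs * b) := by
    conv_lhs => rw [Q.as_sum_range_C_mul_X_pow]
    rw [map_sum, Finset.mul_sum]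
    apply Finset.sum_congr rfl
    intro b _
    rw [map_mul, expand_C, map_pow, expand_X, ← pow_mul]
    ring
  rw [e1, (blocks Bs _ D (fun b _ => Lt_C_mul _ hA)).2, W1_eq hQ, Finset.mul_sum]
  apply Finset.sum_congr rfl
  intro b _
  rw [W1_C_mul]; ring

/-- products of dilates of the trinomial -/
noncomputable def hL (N Bs : ℕ) : ℕ → ℂ[X]
  | 0 => 1
  | (L+1) => p0 N * expand ℂ Bs (hL N Bs L)

lemma natDegree_p0 (N : ℕ) (hN : 0 < N) : (p0 N).natDegree ≤ N := by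
  unfold p0
  refine (natDegree_C_mul_le _ _).trans ?_
  refine (natDegree_sub_le _ _).trans ?_
  rw [natDegree_X_pow]
  apply max_le _ le_rfl
  refine (natDegree_add_le _ _).trans ?_
  rw [natDegree_one, natDegree_X]
  exact max_le (Nat.zero_le _) hN

lemma W1_hL_pow (N : ℕ) (hN : 0 < N) (L k : ℕ) (hk : k < N) : W1 (hL N (N * N) L ^ k) = 1 := by
  induction L with
  | zero =>
    show W1 ((1:ℂ[X]) ^ k) = 1
    rw [one_pow]
    have : Lt (1:ℂ[X]) 1 := fun i hi => by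
      rw [coeff_one, if_neg (by omega)]
    rw [W1_eq this]
    simp
  | succ L ih =>
    show W1 ((p0 N * expand ℂ (N * N) (hL N (N * N) L)) ^ k) = 1
    rw [mul_pow, ← map_pow, W1_mul_expand, W1_p0_pow N k hk, ih, mul_one]
    apply Lt_of_natDegree
    calc (p0 N ^ k).natDegree ≤ k * (p0 N).natDegree := natDegree_pow_le
      _ ≤ k * N := Nat.mul_le_mul_left _ (natDegree_p0 N hN)
      _ < N * N := Nat.mul_lt_mul_of_pos_right hk hN

lemma p0_bound (N : ℕ) : ∃ ρ : ℝ, 0 ≤ ρ ∧ ρ < 1 ∧ ∀ z : ℂ, ‖z‖ ≤ 1 → ‖(p0 N).eval z‖ ≤ ρ := by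
  have hc : IsCompact (Metric.closedBall (0:ℂ) 1) := isCompact_closedBall _ _
  obtain ⟨z0, hz0, hmax⟩ := hc.exists_isMaxOn ⟨0, by simp⟩
    (f := fun z : ℂ => ‖(p0 N).eval z‖) ((p0 N).continuous.norm.continuousOn)
  refine ⟨‖(p0 N).eval z0‖, norm_nonneg _, ?_, fun z hz => hmax (by simpa using hz)⟩
  have hz1 : ‖z0‖ ≤ 1 := by simpa using hz0
  have e1 : (p0 N).eval z0 = (1/3) * (1 + z0 - z0 ^ N) := by unfold p0; simp
  rw [e1, norm_mul]
  have h3 : ‖(1/3 : ℂ)‖ = 1/3 := by norm_num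
  rw [h3]
  by_contra hcon
  push Not at hcon
  have h4 : 3 ≤ ‖1 + z0 - z0 ^ N‖ := by linarith
  have h5 : ‖z0 ^ N‖ ≤ 1 := by rw [norm_pow]; exact pow_le_one₀ (norm_nonneg _) hz1
  have h6 : ‖1 + z0 - z0 ^ N‖ ≤ ‖1 + z0‖ + ‖z0 ^ N‖ := norm_sub_le _ _
  have h7 : 2 ≤ ‖1 + z0‖ := by linarith
  -- then z0 = 1
  have h8 : z0 = 1 := by
    have h9 : ‖1 + z0‖ ^ 2 = 1 + 2 * z0.re + ‖z0‖ ^ 2 := by
      rw [← Complex.normSq_eq_norm_sq, ← Complex.normSq_eq_norm_sq, Complex.normSq_apply,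
        Complex.normSq_apply]
      simp; ring
    have h10 : 4 ≤ ‖1 + z0‖ ^ 2 := by nlinarith
    have h11 : ‖z0‖ ^ 2 ≤ 1 := by nlinarith [norm_nonneg z0]
    have h12 : z0.re ≤ ‖z0‖ := Complex.re_le_norm z0
    have h13 : z0.re = 1 := by nlinarith
    have h14 : z0.im = 0 := by
      have : ‖z0‖ ^ 2 = z0.re ^ 2 + z0.im ^ 2 := by
        rw [← Complex.normSq_eq_norm_sq, Complex.normSq_apply]; ring
      nlinarith [sq_nonneg z0.im]
    exact Complex.ext h13 h14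
  rw [h8] at h4
  norm_num at h4

lemma hL_bound (N Bs : ℕ) (ρ : ℝ) (hρ0 : 0 ≤ ρ) (hρ : ∀ z : ℂ, ‖z‖ ≤ 1 → ‖(p0 N).eval z‖ ≤ ρ)
    (L : ℕ) : ∀ z : ℂ, ‖z‖ ≤ 1 → ‖(hL N Bs L).eval z‖ ≤ ρ ^ L := by
  induction L with
  | zero => intro z _; show ‖(1:ℂ[X]).eval z‖ ≤ _; simp
  | succ L ih =>
    intro z hz
    show ‖(p0 N * expand ℂ Bs (hL N Bs L)).eval z‖ ≤ _
    rw [eval_mul, expand_eval, norm_mul, pow_succ, mul_comm]
    apply mul_le_mul (ih _ _) (hρ z hz) (norm_nonneg _) (by positivity)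
    rw [norm_pow]; exact pow_le_one₀ (norm_nonneg _) hz

/-- Polynomials with small sup norm on the disc, whose powers have coefficient sum one. -/
lemma exists_h (ε : ℝ) (hε : 0 < ε) (K : ℕ) : ∃ h : ℂ[X], (∀ z : ℂ, ‖z‖ ≤ 1 → ‖h.eval z‖ ≤ ε) ∧
    ∀ k < K, W1 (h ^ k) = 1 := by
  obtain ⟨ρ, h0, h1, h2⟩ := p0_bound (K + 1)
  obtain ⟨L, hL'⟩ := exists_pow_lt_of_lt_one hε h1
  refine ⟨hL (K+1) ((K+1) * (K+1)) L, fun z hz => (hL_bound _ _ ρ h0 h2 L z hz).trans hL'.le,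
    fun k hk => W1_hL_pow (K+1) (Nat.succ_pos _) L k (by omega)⟩

end Pool.Agent.V1193.WienerE
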