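import Pool.Agent.V1193.WienerE

/-! Reciprocals of absolutely convergent power series. -/

open Filter Topology
open scoped ENNReal

namespace Pool.Agent.V1193.WienerE

/-- coefficients of the reciprocal -/
noncomputable def rc (a : ℕ → ℂ) (n : ℕ) : ℂ := PowerSeries.coeff n (PowerSeries.mk a)⁻¹

lemma rc_rec (a : ℕ → ℂ) (h0 : a 0 ≠ 0) (n : ℕ) :
    ∑ p ∈ Finset.HasAntidiagonal.antidiagonal n, a p.1 * rc a p.2 = if n = 0 then 1 else 0 := by
  have h1 : PowerSeries.mk a * (PowerSeries.mk a)⁻¹ = 1 := by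
    apply PowerSeries.mul_inv_cancel
    rw [← PowerSeries.coeff_zero_eq_constantCoeff_apply, PowerSeries.coeff_mk]
    exact h0
  have h2 := congrArg (PowerSeries.coeff n) h1
  rw [PowerSeries.coeff_mul, PowerSeries.coeff_one] at h2
  rw [← h2]
  apply Finset.sum_congr rfl
  intro p _
  rw [PowerSeries.coeff_mk]; rfl

lemma rc_zero (a : ℕ → ℂ) (h0 : a 0 ≠ 0) : rc a 0 = (a 0)⁻¹ := by
  have h := rc_rec a h0 0
  simp at h
  exact eq_inv_of_mul_eq_one_right h

lemma rc_succ (a : ℕ → ℂ) (h0 : a 0 ≠ 0) (n : ℕ) :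
    a 0 * rc a (n+1) = - ∑ p ∈ Finset.HasAntidiagonal.antidiagonal n, a (p.1 + 1) * rc a p.2 := by
  have h := rc_rec a h0 (n+1)
  rw [Finset.Nat.sum_antidiagonal_succ] at h
  simp at h
  linear_combination h

lemma trunc_prod (u v : ℕ → ℝ) (hu : ∀ n, 0 ≤ u n) (hus : Summable u) (hv : ∀ n, 0 ≤ v n) (N : ℕ) :
    ∑ n ∈ Finset.range N, ∑ p ∈ Finset.HasAntidiagonal.antidiagonal n, u p.1 * v p.2 ≤
      (∑' i, u i) * ∑ j ∈ Finset.range N, v j := by
  set w : ℕ → ℝ := fun j => if j < N then v j else 0 with hw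
  have hw0 : ∀ n, 0 ≤ w n := fun n => by simp only [hw]; split; exact hv n; exact le_rfl
  have hws : HasSum w (∑ j ∈ Finset.range N, v j) := by
    have : ∑ j ∈ Finset.range N, v j = ∑ j ∈ Finset.range N, w j := by
      apply Finset.sum_congr rfl
      intro j hj
      rw [Finset.mem_range] at hj
      simp only [hw, if_pos hj]
    rw [this]
    apply hasSum_sum_of_ne_finset_zero
    intro j hj
    rw [Finset.mem_range] at hj
    simp only [hw, if_neg hj]
  have hun : Summable (fun n => ‖u n‖) := by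
    simpa only [Real.norm_eq_abs, abs_of_nonneg (hu _)] using hus
  have hwn : Summable (fun n => ‖w n‖) := by
    simpa only [Real.norm_eq_abs, abs_of_nonneg (hw0 _)] using hws.summable
  have h1 := tsum_mul_tsum_eq_tsum_sum_antidiagonal_of_summable_norm hun hwn
  rw [hws.tsum_eq] at h1
  rw [h1]
  have h2 : ∑ n ∈ Finset.range N, ∑ p ∈ Finset.HasAntidiagonal.antidiagonal n, u p.1 * v p.2 =
      ∑ n ∈ Finset.range N, ∑ p ∈ Finset.HasAntidiagonal.antidiagonal n, u p.1 * w p.2 := by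
    apply Finset.sum_congr rfl
    intro n hn
    rw [Finset.mem_range] at hn
    apply Finset.sum_congr rfl
    intro p hp
    have := Finset.HasAntidiagonal.mem_antidiagonal.1 hp
    simp only [hw]
    rw [if_pos (by omega)]
  rw [h2]
  apply Summable.sum_le_tsum
  · intro n _
    exact Finset.sum_nonneg (fun p _ => mul_nonneg (hu _) (hw0 _))
  · exact (summable_norm_sum_mul_antidiagonal_of_summable_norm hun hwn).of_norm

/-- The trivial upper bound. -/
lemma rc_upper (a : ℕ → ℂ) (ha : Summable (fun n => ‖a n‖)) (h1 : ∑' n, ‖a n‖ ≤ 1)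
    (hα : 1/2 < ‖a 0‖) : Summable (fun n => ‖rc a n‖) ∧ ∑' n, ‖rc a n‖ ≤ 1 / (2 * ‖a 0‖ - 1) := by
  set α := ‖a 0‖ with hαd
  have h0 : a 0 ≠ 0 := by
    intro h
    rw [hαd, h, norm_zero] at hα
    linarith
  have hα0 : 0 < α := by linarith
  have hs1 : Summable (fun n => ‖a (n+1)‖) := (summable_nat_add_iff 1).2 ha
  have htail : ∑' n, ‖a (n+1)‖ ≤ 1 - α := by
    have := ha.tsum_eq_zero_add
    rw [this] at h1
    linarith
  have hX : 0 < 2 * α - 1 := by linarith
  have hpart : ∀ N, ∑ n ∈ Finset.range N, ‖rc a n‖ ≤ 1 / (2 * α - 1) := by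
    intro N
    induction N with
    | zero => simp; linarith
    | succ N ih =>
      have e1 : α * ∑ n ∈ Finset.range (N+1), ‖rc a n‖ ≤ 1 + (1 - α) * (1 / (2 * α - 1)) := by
        rw [Finset.sum_range_succ', mul_add, Finset.mul_sum]
        have e2 : α * ‖rc a 0‖ = 1 := by
          rw [rc_zero a h0, norm_inv, ← hαd]
          exact mul_inv_cancel₀ hα0.ne'
        have e3 : ∀ n, α * ‖rc a (n+1)‖ ≤ ∑ p ∈ Finset.HasAntidiagonal.antidiagonal n, ‖a (p.1+1)‖ * ‖rc a p.2‖ := by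
          intro n
          rw [hαd, ← norm_mul, rc_succ a h0, norm_neg]
          refine (norm_sum_le _ _).trans (le_of_eq ?_)
          apply Finset.sum_congr rfl
          intro p _
          rw [norm_mul]
        have e4 := trunc_prod (fun n => ‖a (n+1)‖) (fun n => ‖rc a n‖) (fun _ => norm_nonneg _) hs1
          (fun _ => norm_nonneg _) N
        have e5 : ∑ n ∈ Finset.range N, α * ‖rc a (n+1)‖ ≤ (1 - α) * (1 / (2 * α - 1)) := by
          refine (Finset.sum_le_sum (fun n _ => e3 n)).trans (e4.trans ?_)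
          apply mul_le_mul htail ih (Finset.sum_nonneg (fun _ _ => norm_nonneg _))
          have : 0 ≤ ∑' n, ‖a (n+1)‖ := tsum_nonneg (fun n => norm_nonneg (a (n+1)))
          linarith
        linarith
      have e6 : 1 + (1 - α) * (1 / (2 * α - 1)) = α * (1 / (2 * α - 1)) := by
        have hXX : 1 / (2 * α - 1) * (2 * α - 1) = 1 := one_div_mul_cancel hX.ne'
        linear_combination -hXX
      rw [e6] at e1
      exact le_of_mul_le_mul_left e1 hα0
  have hsum : Summable (fun n => ‖rc a n‖) := summable_of_sum_range_le (fun _ => norm_nonneg _) hpart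
  exact ⟨hsum, hsum.tsum_le_of_sum_range_le hpart⟩

/-- The reciprocal on the closed disc. -/
lemma rc_mul (a : ℕ → ℂ) (ha : Summable (fun n => ‖a n‖)) (h0 : a 0 ≠ 0)
    (hr : Summable (fun n => ‖rc a n‖)) (z : ℂ) (hz : ‖z‖ ≤ 1) :
    (∑' n, a n * z ^ n) * (∑' n, rc a n * z ^ n) = 1 := by
  have hs : ∀ c : ℕ → ℂ, Summable (fun n => ‖c n‖) → Summable (fun n => ‖c n * z ^ n‖) := by
    intro c hc
    apply hc.of_nonneg_of_le (fun _ => norm_nonneg _)
    intro n
    rw [norm_mul, norm_pow]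
    exact mul_le_of_le_one_right (norm_nonneg _) (pow_le_one₀ (norm_nonneg _) hz)
  rw [tsum_mul_tsum_eq_tsum_sum_antidiagonal_of_summable_norm (hs a ha) (hs _ hr)]
  have h1 : ∀ n, ∑ p ∈ Finset.HasAntidiagonal.antidiagonal n, a p.1 * z ^ p.1 * (rc a p.2 * z ^ p.2) =
      if n = 0 then 1 else 0 := by
    intro n
    have h2 := rc_rec a h0 n
    have h3 : ∑ p ∈ Finset.HasAntidiagonal.antidiagonal n, a p.1 * z ^ p.1 * (rc a p.2 * z ^ p.2) =
        z ^ n * ∑ p ∈ Finset.HasAntidiagonal.antidiagonal n, a p.1 * rc a p.2 := by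
      rw [Finset.mul_sum]
      apply Finset.sum_congr rfl
      intro p hp
      rw [← Finset.HasAntidiagonal.mem_antidiagonal.1 hp, pow_add]; ring
    rw [h3, h2]
    split
    · next h => subst h; simp
    · simp
  simp_rw [h1]
  rw [tsum_eq_single 0]
  · simp
  · intro n hn; rw [if_neg hn]

/-- the sum of the moduli of the coefficients of the reciprocal -/
noncomputable def Minv (a : ℕ → ℂ) : ℝ≥0∞ := ∑' n, ‖rc a n‖ₑ

open Polynomial in
/-- The examples. -/
lemma exists_a (α : ℝ) (hα : 1/2 < α) (hα1 : α < 1) (ε : ℝ) (hε : 0 < ε) (K : ℕ) :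
    ∃ a : ℕ → ℂ, Summable (fun n => ‖a n‖) ∧ ∑' n, ‖a n‖ = 1 ∧ a 0 = α ∧
      (∀ z : ℂ, ‖z‖ ≤ 1 → α - ε ≤ ‖∑' n, a n * z ^ n‖) ∧
      ENNReal.ofReal (∑ k ∈ Finset.range K, α⁻¹ * ((1 - α) / α) ^ k) ≤ Minv a := by
  obtain ⟨h, hh1, hh2⟩ := exists_h ε hε (K + 2)
  set M : ℕ := K * h.natDegree + 1 with hM
  have hM1 : 1 ≤ M := by omega
  set β : ℝ := (1 - α) / α with hβ
  have hα0 : 0 < α := by linarith
  have hβ0 : 0 ≤ β := div_nonneg (by linarith) hα0.le
  have hαc : (α : ℂ) ≠ 0 := by exact_mod_cast hα0.ne'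
  set f : ℂ[X] := C (α : ℂ) + (C ((1 - α : ℝ) : ℂ) * h) * X ^ M with hf
  have hLtC : Lt (C (α : ℂ)) M := fun i hi => by
    rw [coeff_C, if_neg (by omega)]
  have hW1f : W1 f = 1 := by
    rw [hf, add_block hLtC, W1_C_mul]
    have e1 : W1 h = 1 := by simpa using hh2 1 (by omega)
    have e2 : W1 (C (α : ℂ)) = α := by
      have : Lt (C (α : ℂ)) 1 := fun i hi => by rw [coeff_C, if_neg (by omega)]
      rw [W1_eq this]
      simp [abs_of_pos hα0]
    rw [e1, e2, Complex.norm_real, Real.norm_eq_abs, abs_of_pos (by linarith)]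
    ring
  have hLtf : Lt f (f.natDegree + 1) := Lt_of_natDegree (Nat.lt_succ_self _)
  have hout : ∀ n, n ∉ Finset.range (f.natDegree + 1) → f.coeff n = 0 := by
    intro n hn
    rw [Finset.mem_range] at hn
    exact hLtf n (by omega)
  have hfs : HasSum (fun n => ‖f.coeff n‖) (W1 f) := by
    rw [W1_eq hLtf]
    apply hasSum_sum_of_ne_finset_zero
    intro n hn
    rw [hout n hn, norm_zero]
  have hfe : ∀ z : ℂ, ∑' n, f.coeff n * z ^ n = f.eval z := by
    intro z
    rw [eval_eq_sum_range, tsum_eq_sum (s := Finset.range (f.natDegree + 1))]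
    intro n hn
    rw [hout n hn, zero_mul]
  have hf0 : f.coeff 0 = α := by
    rw [hf, coeff_add, coeff_C_zero, coeff_mul_X_pow', if_neg (by omega), add_zero]
  refine ⟨fun n => f.coeff n, hfs.summable, by rw [hfs.tsum_eq, hW1f], hf0, fun z hz => ?_, ?_⟩
  · rw [hfe z]
    have e1 : f.eval z = α + ((1 - α : ℝ) : ℂ) * h.eval z * z ^ M := by
      rw [hf]; simp
    rw [e1]
    have e2 : ‖((1 - α : ℝ) : ℂ) * h.eval z * z ^ M‖ ≤ ε := by
      rw [norm_mul, norm_mul, norm_pow, Complex.norm_real, Real.norm_eq_abs,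
        abs_of_pos (by linarith)]
      have hz' : ‖z‖ ^ M ≤ 1 := pow_le_one₀ (norm_nonneg _) hz
      calc (1 - α) * ‖h.eval z‖ * ‖z‖ ^ M ≤ 1 * ε * 1 := by
            apply mul_le_mul _ hz' (by positivity) (by linarith)
            apply mul_le_mul (by linarith) (hh1 z hz) (norm_nonneg _) (by norm_num)
        _ = ε := by ring
    have e3 : ‖(α : ℂ)‖ = α := by rw [Complex.norm_real, Real.norm_eq_abs, abs_of_pos hα0]
    have e4 := norm_sub_le_norm_add (α : ℂ) (((1 - α : ℝ) : ℂ) * h.eval z * z ^ M)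
    rw [e3] at e4
    linarith
  · -- lower bound for the reciprocal
    set y : ℂ[X] := (C (-(β : ℂ)) * h) * X ^ M with hy
    set A : ℕ → ℂ[X] := fun k => C ((α : ℂ)⁻¹ * (-(β : ℂ)) ^ k) * h ^ k with hA
    set P : ℂ[X] := ∑ k ∈ Finset.range K, A k * X ^ (M * k) with hP
    have hLtA : ∀ k < K, Lt (A k) M := by
      intro k hk
      apply Lt_C_mul
      apply Lt_of_natDegree
      calc (h ^ k).natDegree ≤ k * h.natDegree := natDegree_pow_le
        _ ≤ K * h.natDegree := Nat.mul_le_mul_right _ hk.le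
        _ < M := by omega
    obtain ⟨hLtP, hW1P⟩ := blocks M A K hLtA
    have hW1P' : W1 P = ∑ k ∈ Finset.range K, α⁻¹ * β ^ k := by
      rw [hP, hW1P]
      apply Finset.sum_congr rfl
      intro k hk
      rw [Finset.mem_range] at hk
      rw [hA]
      simp only
      rw [W1_C_mul, hh2 k (by omega), mul_one, norm_mul, norm_inv, norm_pow, norm_neg,
        Complex.norm_real, Complex.norm_real, Real.norm_eq_abs, Real.norm_eq_abs,
        abs_of_pos hα0, abs_of_nonneg hβ0]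
    have hPy : P = C ((α : ℂ)⁻¹) * ∑ k ∈ Finset.range K, y ^ k := by
      rw [hP, Finset.mul_sum]
      apply Finset.sum_congr rfl
      intro k _
      rw [hA, hy]
      simp only
      rw [mul_pow, mul_pow, ← C_pow, ← pow_mul, C_mul]
      ring
    have hfy : f = C (α : ℂ) * (1 - y) := by
      rw [hf, hy, hβ]
      have : ((1 - α : ℝ) : ℂ) = (α : ℂ) * (((1 - α) / α : ℝ) : ℂ) := by
        push_cast
        field_simp
      rw [this, C_mul, C_neg]
      ring
    have hfP : f * P = 1 - y ^ K := by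
      rw [hfy, hPy]
      have e1 := mul_neg_geom_sum y K
      have e2 : (C (α : ℂ) : ℂ[X]) * C ((α : ℂ)⁻¹) = 1 := by
        rw [← C_mul, mul_inv_cancel₀ hαc, C_1]
      calc C (α : ℂ) * (1 - y) * (C ((α : ℂ)⁻¹) * ∑ k ∈ Finset.range K, y ^ k) =
          (C (α : ℂ) * C ((α : ℂ)⁻¹)) * ((1 - y) * ∑ k ∈ Finset.range K, y ^ k) := by ring
        _ = 1 - y ^ K := by rw [e1, e2, one_mul]
    -- power series
    have hmk : PowerSeries.mk (fun n => f.coeff n) = (f : PowerSeries ℂ) := rfl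
    set g : PowerSeries ℂ := (f : PowerSeries ℂ)⁻¹ with hg
    have hfg : (f : PowerSeries ℂ) * g = 1 := by
      apply PowerSeries.mul_inv_cancel
      rw [← PowerSeries.coeff_zero_eq_constantCoeff_apply, Polynomial.coeff_coe, hf0]
      exact hαc
    have hgP : g = (P : PowerSeries ℂ) + g * ((y ^ K : ℂ[X]) : PowerSeries ℂ) := by
      have e1 : ((f * P : ℂ[X]) : PowerSeries ℂ) = 1 - ((y ^ K : ℂ[X]) : PowerSeries ℂ) := by
        rw [hfP, Polynomial.coe_sub, Polynomial.coe_one]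
      rw [Polynomial.coe_mul] at e1
      have e2 : (P : PowerSeries ℂ) = g - g * ((y ^ K : ℂ[X]) : PowerSeries ℂ) := by
        calc (P : PowerSeries ℂ) = g * ((f : PowerSeries ℂ) * P) := by
              rw [← mul_assoc, mul_comm g, hfg, one_mul]
          _ = g - g * ((y ^ K : ℂ[X]) : PowerSeries ℂ) := by rw [e1]; ring
      rw [e2]; ring
    have hcoef : ∀ n < M * K, rc (fun n => f.coeff n) n = P.coeff n := by
      intro n hn
      unfold rc
      rw [hmk, ← hg, hgP, map_add, Polynomial.coeff_coe]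
      have e1 : PowerSeries.coeff n (g * ((y ^ K : ℂ[X]) : PowerSeries ℂ)) = 0 := by
        have hd : (PowerSeries.X : PowerSeries ℂ) ^ (M * K) ∣ g * ((y ^ K : ℂ[X]) : PowerSeries ℂ) := by
          have : y ^ K = (C (-(β : ℂ)) * h) ^ K * X ^ (M * K) := by
            rw [hy, mul_pow _ (X ^ M), ← pow_mul]
          rw [this, Polynomial.coe_mul, Polynomial.coe_pow, Polynomial.coe_pow, Polynomial.coe_X]
          exact ⟨g * (((C (-(β : ℂ)) * h : ℂ[X]) : PowerSeries ℂ)) ^ K, by ring⟩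
        exact (PowerSeries.X_pow_dvd_iff.1 hd) n hn
      rw [e1, add_zero]
    rw [← hW1P', W1_eq hLtP, ENNReal.ofReal_sum_of_nonneg (fun _ _ => norm_nonneg _)]
    unfold Minv
    calc ∑ i ∈ Finset.range (M * K), ENNReal.ofReal ‖P.coeff i‖
        = ∑ i ∈ Finset.range (M * K), ‖rc (fun n => f.coeff n) i‖ₑ := by
          apply Finset.sum_congr rfl
          intro i hi
          rw [Finset.mem_range] at hi
          rw [hcoef i hi, ofReal_norm]
      _ ≤ ∑' n, ‖rc (fun n => f.coeff n) n‖ₑ := ENNReal.sum_le_tsum _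

/-- Examples with reciprocal of norm close to `1/(2α-1)`. -/
lemma exists_big (α : ℝ) (hα : 1/2 < α) (hα1 : α < 1) (ε : ℝ) (hε : 0 < ε) (r : ℝ)
    (hr : r < 1 / (2 * α - 1)) :
    ∃ a : ℕ → ℂ, Summable (fun n => ‖a n‖) ∧ ∑' n, ‖a n‖ = 1 ∧ a 0 = α ∧
      (∀ z : ℂ, ‖z‖ ≤ 1 → α - ε ≤ ‖∑' n, a n * z ^ n‖) ∧ ENNReal.ofReal r ≤ Minv a := by
  have hα0 : 0 < α := by linarith
  have hβ0 : 0 ≤ (1 - α) / α := div_nonneg (by linarith) hα0.le
  have hβ1 : (1 - α) / α < 1 := by rw [div_lt_one hα0]; linarith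
  have h1 : HasSum (fun k : ℕ => α⁻¹ * ((1 - α) / α) ^ k) (α⁻¹ * (1 - (1 - α) / α)⁻¹) :=
    (hasSum_geometric_of_lt_one hβ0 hβ1).mul_left _
  have h2 : α⁻¹ * (1 - (1 - α) / α)⁻¹ = 1 / (2 * α - 1) := by
    have : 1 - (1 - α) / α = (2 * α - 1) / α := by field_simp; ring
    rw [this, inv_div]
    field_simp
  rw [h2] at h1
  obtain ⟨K, hK⟩ := (h1.tendsto_sum_nat.eventually_const_lt hr).exists
  obtain ⟨a, h3, h4, h5, h6, h7⟩ := exists_a α hα hα1 ε hε K
  exact ⟨a, h3, h4, h5, h6, (ENNReal.ofReal_le_ofReal hK.le).trans h7⟩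

end Pool.Agent.V1193.WienerE
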