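import Pool.Agent.V1193.WienerD
import Pool.Agent.V1193.WienerF

/-! Assembly: the exact threshold. -/

open Filter Topology
open scoped ENNReal

namespace Pool.Agent.V1193.WienerG

open Pool.Agent.V1193.Wiener Pool.Agent.V1193.WienerE

/-- coefficient sequences of `f`, `‖f‖_W = 1`, `|f| ≥ δ` in the disc -/
def Fam (δ : ℝ) : Set (ℕ → ℂ) :=
  {a | Summable (fun n => ‖a n‖) ∧ ∑' n, ‖a n‖ = 1 ∧
    ∀ z : ℂ, ‖z‖ < 1 → δ ≤ ‖∑' n, a n * z ^ n‖}

/-- `M(f)` -/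
noncomputable def M (a : ℕ → ℂ) : ℝ≥0∞ := ∑' n, ‖PowerSeries.coeff n (PowerSeries.mk a)⁻¹‖ₑ

/-- `C(δ)` -/
noncomputable def C (δ : ℝ) : ℝ≥0∞ := ⨆ a ∈ Fam δ, M a

/-- two-sided version of `Fam` -/
def FamT (δ : ℝ) : Set (ℤ → ℂ) :=
  {a | Summable (fun n => ‖a n‖) ∧ ∑' n, ‖a n‖ = 1 ∧
    ∀ z : ℂ, ‖z‖ = 1 → δ ≤ ‖∑' n : ℤ, a n * z ^ n‖}

/-- absolutely convergent Fourier series inverse to the one with coefficients `a` -/
def Recip (a : ℤ → ℂ) : Set (ℤ → ℂ) :=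
  {b | Summable (fun n => ‖b n‖) ∧
    ∀ z : ℂ, ‖z‖ = 1 → (∑' n : ℤ, a n * z ^ n) * (∑' n : ℤ, b n * z ^ n) = 1}

/-- the norm of the inverse in the two-sided Wiener algebra -/
noncomputable def MT (a : ℤ → ℂ) : ℝ≥0∞ := ⨅ b ∈ Recip a, ∑' n, ‖b n‖ₑ

/-- two-sided version of `C` -/
noncomputable def CT (δ : ℝ) : ℝ≥0∞ := ⨆ a ∈ FamT δ, MT a

lemma M_eq (a : ℕ → ℂ) : M a = Minv a := rfl

lemma eval_zero (a : ℕ → ℂ) : ∑' n, a n * (0:ℂ) ^ n = a 0 := by
  rw [tsum_eq_single 0]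
  · simp
  · intro n hn; simp [hn]

lemma C_upper (δ : ℝ) (hδ : 1/2 < δ) : C δ ≤ ENNReal.ofReal (1 / (2 * δ - 1)) := by
  apply iSup₂_le
  rintro a ⟨ha, h1, h2⟩
  have h3 := h2 0 (by simp)
  rw [eval_zero] at h3
  obtain ⟨h4, h5⟩ := rc_upper a ha h1.le (by linarith)
  rw [M_eq]
  unfold Minv
  have h6 : ∑' n, ‖rc a n‖ₑ = ENNReal.ofReal (∑' n, ‖rc a n‖) := by
    rw [ENNReal.ofReal_tsum_of_nonneg (fun _ => norm_nonneg _) h4]
    congr 1; ext n; rw [ofReal_norm]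
  rw [h6]
  apply ENNReal.ofReal_le_ofReal
  refine h5.trans ?_
  exact one_div_le_one_div_of_le (by linarith) (by linarith)

lemma exists_alpha (δ r : ℝ) (hδ : 1/2 ≤ δ) (hδ1 : δ < 1) (hr : 0 < r) (h : r * (2 * δ - 1) < 1) :
    ∃ α, δ < α ∧ α < 1 ∧ r < 1 / (2 * α - 1) := by
  have h1 : δ < min 1 ((1 + 1 / r) / 2) := by
    apply lt_min hδ1
    have : 2 * δ - 1 < 1 / r := by
      rw [lt_div_iff₀ hr]; linarith
    linarith
  obtain ⟨α, h2, h3⟩ := exists_between h1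
  refine ⟨α, h2, h3.trans_le (min_le_left _ _), ?_⟩
  have h4 : α < (1 + 1 / r) / 2 := h3.trans_le (min_le_right _ _)
  have h5 : 0 < 2 * α - 1 := by linarith
  rw [lt_div_iff₀ h5]
  have h6 : 2 * α - 1 < 1 / r := by linarith
  rw [lt_div_iff₀ hr] at h6
  linarith

lemma C_ge (δ α r : ℝ) (hα : 1/2 < α) (hα1 : α < 1) (hδα : δ < α) (hr : r < 1 / (2 * α - 1)) :
    ENNReal.ofReal r ≤ C δ := by
  obtain ⟨a, h1, h2, h3, h4, h5⟩ := exists_big α hα hα1 (α - δ) (by linarith) r hr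
  refine h5.trans ?_
  rw [← M_eq]
  have hmem : a ∈ Fam δ := ⟨h1, h2, fun z hz => by have := h4 z hz.le; linarith⟩
  exact le_iSup₂ (f := fun a (_ : a ∈ Fam δ) => M a) a hmem

lemma C_lower (δ : ℝ) (hδ : 1/2 < δ) (hδ1 : δ ≤ 1) : ENNReal.ofReal (1 / (2 * δ - 1)) ≤ C δ := by
  rcases lt_or_eq_of_le hδ1 with hlt | heq
  · by_contra hcon
    push Not at hcon
    set Xv := 1 / (2 * δ - 1) with hXv
    have hX0 : 0 < Xv := by rw [hXv]; apply one_div_pos.2; linarith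
    have hfin : C δ ≠ ⊤ := (hcon.trans_le le_top).ne
    have hc : (C δ).toReal < Xv := by
      rw [← ENNReal.toReal_ofReal hX0.le]
      exact (ENNReal.toReal_lt_toReal hfin ENNReal.ofReal_ne_top).2 hcon
    set r := ((C δ).toReal + Xv) / 2 with hr
    have hr0 : 0 < r := by rw [hr]; have := ENNReal.toReal_nonneg (a := C δ); linarith
    have hrX : r < Xv := by rw [hr]; linarith
    have hrX' : r * (2 * δ - 1) < 1 := by
      rw [hXv, lt_div_iff₀ (by linarith)] at hrX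
      exact hrX
    obtain ⟨α, h1, h2, h3⟩ := exists_alpha δ r hδ.le hlt hr0 hrX'
    have h4 := C_ge δ α r (by linarith) h2 h1 h3
    have h5 : r ≤ (C δ).toReal := by
      have := ENNReal.toReal_mono hfin h4
      rwa [ENNReal.toReal_ofReal hr0.le] at this
    rw [hr] at h5
    linarith
  · subst heq
    set a : ℕ → ℂ := fun n => if n = 0 then 1 else 0 with ha
    have hs : HasSum (fun n => ‖a n‖) 1 := by
      have h := hasSum_single (f := fun n => ‖a n‖) 0 (fun n hn => by simp [ha, hn])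
      simpa [ha] using h
    have hmem : a ∈ Fam 1 := by
      refine ⟨hs.summable, hs.tsum_eq, fun z _ => ?_⟩
      rw [tsum_eq_single 0]
      · simp [ha]
      · intro n hn; simp [ha, hn]
    have h1 : M a ≤ C 1 := le_iSup₂ (f := fun a (_ : a ∈ Fam 1) => M a) a hmem
    refine le_trans ?_ h1
    have h2 : rc a 0 = 1 := by
      rw [rc_zero a (by simp [ha])]; simp [ha]
    have h3 : ‖rc a 0‖ₑ ≤ M a := by
      rw [M_eq]; unfold Minv
      exact ENNReal.le_tsum 0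
    rw [h2] at h3
    refine le_trans (le_of_eq ?_) h3
    rw [enorm_one]
    norm_num

lemma C_eq (δ : ℝ) (hδ : 1/2 < δ) (hδ1 : δ ≤ 1) : C δ = ENNReal.ofReal (1 / (2 * δ - 1)) :=
  le_antisymm (C_upper δ hδ) (C_lower δ hδ hδ1)

lemma C_top (δ : ℝ) (hδ : δ ≤ 1/2) : C δ = ⊤ := by
  apply ENNReal.eq_top_of_forall_nnreal_le
  intro r
  obtain ⟨α, h1, h2, h3⟩ := exists_alpha (1/2) (r + 1) le_rfl (by norm_num)
    (by positivity) (by norm_num)
  have h4 := C_ge δ α (r + 1) h1 h2 (by linarith) h3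
  refine le_trans ?_ h4
  rw [← ENNReal.ofReal_coe_nnreal]
  exact ENNReal.ofReal_le_ofReal (by linarith)

/-! ### two-sided -/

lemma coef_formula {h : ℤ → ℂ} (hs : Summable (fun k => ‖h k‖)) (l : ℤ) :
    ∫ x in (0:ℝ)..1, (∑' k, h k * ee k x) * ee (-l) x = h l := by
  have e1 : ∀ x, (∑' k, h k * ee k x) * ee (-l) x = ∑' k, h k * ee (k - l) x := by
    intro x
    rw [← tsum_mul_right]
    congr 1; ext k
    rw [mul_assoc, ← ee_add, sub_eq_add_neg]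
  simp_rw [e1]
  have e2 : HasSum (fun k => ∫ x in (0:ℝ)..1, h k * ee (k - l) x)
      (∫ x in (0:ℝ)..1, ∑' k, h k * ee (k - l) x) := by
    apply intervalIntegral.hasSum_integral_of_dominated_convergence (fun k _ => ‖h k‖)
    · intro k
      exact (continuous_const.mul (ee_continuous _)).aestronglyMeasurable
    · intro k
      apply Eventually.of_forall
      intro x _
      rw [norm_mul, ee_norm, mul_one]
    · exact Eventually.of_forall (fun _ _ => hs)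
    · exact intervalIntegrable_const
    · apply Eventually.of_forall
      intro x _
      apply Summable.hasSum
      apply Summable.of_norm
      simpa only [norm_mul, ee_norm, mul_one] using hs
  rw [← e2.tsum_eq, tsum_eq_single l]
  · rw [intervalIntegral.integral_const_mul, sub_self, mean_ee, if_pos rfl, mul_one]
  · intro k hk
    rw [intervalIntegral.integral_const_mul, mean_ee, if_neg (sub_ne_zero.2 hk), mul_zero]

lemma coef_unique {b c : ℤ → ℂ} (hb : Summable (fun k => ‖b k‖)) (hc : Summable (fun k => ‖c k‖))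
    (h : ∀ z : ℂ, ‖z‖ = 1 → ∑' n : ℤ, b n * z ^ n = ∑' n : ℤ, c n * z ^ n) : b = c := by
  funext l
  rw [← coef_formula hb l, ← coef_formula hc l]
  congr 1; ext x
  have := h (ee 1 x) (ee_norm 1 x)
  simp only [ee_one_zpow] at this
  rw [this]

/-- extension by zero to the negative integers -/
def ext0 (a : ℕ → ℂ) (n : ℤ) : ℂ := if 0 ≤ n then a n.toNat else 0

lemma ext0_natCast (a : ℕ → ℂ) (n : ℕ) : ext0 a (n : ℤ) = a n := by simp [ext0]

lemma ext0_out (a : ℕ → ℂ) (n : ℤ) (hn : n ∉ Set.range ((↑) : ℕ → ℤ)) : ext0 a n = 0 := by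
  unfold ext0
  rw [if_neg]
  intro h
  exact hn ⟨n.toNat, Int.toNat_of_nonneg h⟩

lemma ext0_summable {a : ℕ → ℂ} (ha : Summable (fun n => ‖a n‖)) :
    Summable (fun n => ‖ext0 a n‖) := by
  rw [← (Nat.cast_injective (R := ℤ)).summable_iff]
  · simpa [Function.comp_def, ext0_natCast] using ha
  · intro n hn
    rw [ext0_out a n hn, norm_zero]

lemma ext0_tsum (a : ℕ → ℂ) : ∑' n, ‖ext0 a n‖ = ∑' n, ‖a n‖ := by
  rw [← (Nat.cast_injective (R := ℤ)).tsum_eq]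
  · simp [ext0_natCast]
  · intro n hn
    by_contra hc
    exact hn (by simp [ext0_out a n hc])

lemma ext0_tsum_enorm (a : ℕ → ℂ) : ∑' n, ‖ext0 a n‖ₑ = ∑' n, ‖a n‖ₑ := by
  rw [← (Nat.cast_injective (R := ℤ)).tsum_eq]
  · simp [ext0_natCast]
  · intro n hn
    by_contra hc
    exact hn (by simp [ext0_out a n hc])

lemma ext0_eval (a : ℕ → ℂ) (z : ℂ) : ∑' n : ℤ, ext0 a n * z ^ n = ∑' n : ℕ, a n * z ^ n := by
  rw [← (Nat.cast_injective (R := ℤ)).tsum_eq]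
  · simp [ext0_natCast]
  · intro n hn
    by_contra hc
    exact hn (by simp [ext0_out a n hc])

lemma CT_ge (δ α r : ℝ) (hα : 1/2 < α) (hα1 : α < 1) (hδα : δ < α) (hr : r < 1 / (2 * α - 1)) :
    ENNReal.ofReal r ≤ CT δ := by
  obtain ⟨a, h1, h2, h3, h4, h5⟩ := exists_big α hα hα1 (α - δ) (by linarith) r hr
  have hmem : ext0 a ∈ FamT δ := by
    refine ⟨ext0_summable h1, by rw [ext0_tsum, h2], fun z hz => ?_⟩
    rw [ext0_eval]
    have := h4 z hz.le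
    linarith
  refine le_trans ?_ (le_iSup₂ (f := fun a (_ : a ∈ FamT δ) => MT a) (ext0 a) hmem)
  unfold MT
  apply le_iInf₂
  rintro b ⟨hb1, hb2⟩
  have h0 : a 0 ≠ 0 := by
    rw [h3]; exact_mod_cast (by linarith : α ≠ 0)
  have hn0 : 1/2 < ‖a 0‖ := by
    rw [h3, Complex.norm_real, Real.norm_eq_abs, abs_of_pos (by linarith)]; exact hα
  obtain ⟨hr1, _⟩ := rc_upper a h1 h2.le hn0
  have hbu : b = ext0 (rc a) := by
    apply coef_unique hb1 (ext0_summable hr1)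
    intro z hz
    have e1 := hb2 z hz
    have e2 := rc_mul a h1 h0 hr1 z hz.le
    rw [ext0_eval] at e1
    rw [ext0_eval]
    have hne : ∑' n, a n * z ^ n ≠ 0 := left_ne_zero_of_mul (by rw [e2]; exact one_ne_zero)
    exact mul_left_cancel₀ hne (e1.trans e2.symm)
  rw [hbu, ext0_tsum_enorm]
  exact h5

lemma CT_top (δ : ℝ) (hδ : δ ≤ 1/2) : CT δ = ⊤ := by
  apply ENNReal.eq_top_of_forall_nnreal_le
  intro r
  obtain ⟨α, h1, h2, h3⟩ := exists_alpha (1/2) (r + 1) le_rfl (by norm_num)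
    (by positivity) (by norm_num)
  have h4 := CT_ge δ α (r + 1) h1 h2 (by linarith) h3
  refine le_trans ?_ h4
  rw [← ENNReal.ofReal_coe_nnreal]
  exact ENNReal.ofReal_le_ofReal (by linarith)

lemma CT_fin (δ : ℝ) (hδ : 1/2 < δ) : CT δ < ⊤ := by
  obtain ⟨K, hK⟩ := two_sided hδ
  refine lt_of_le_of_lt ?_ (ENNReal.ofReal_lt_top (r := K))
  apply iSup₂_le
  rintro a ⟨ha, h1, h2⟩
  obtain ⟨b, hb1, hb2, hb3⟩ := hK a ha h1.le h2
  have hb : b ∈ Recip a := ⟨hb1, hb3⟩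
  refine (iInf₂_le (f := fun b (_ : b ∈ Recip a) => ∑' n, ‖b n‖ₑ) b hb).trans ?_
  have h6 : ∑' n, ‖b n‖ₑ = ENNReal.ofReal (∑' n, ‖b n‖) := by
    rw [ENNReal.ofReal_tsum_of_nonneg (fun _ => norm_nonneg _) hb1]
    congr 1; ext n; rw [ofReal_norm]
  show ∑' n, ‖b n‖ₑ ≤ _
  rw [h6]
  exact ENNReal.ofReal_le_ofReal hb2

lemma sInf_of {F : ℝ → ℝ≥0∞} (h1 : ∀ δ, 1/2 < δ → δ ≤ 1 → F δ < ⊤) (h2 : ∀ δ ≤ 1/2, F δ = ⊤) :
    sInf {δ : ℝ | 0 < δ ∧ δ ≤ 1 ∧ F δ < ⊤} = 1/2 := by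
  have : {δ : ℝ | 0 < δ ∧ δ ≤ 1 ∧ F δ < ⊤} = Set.Ioc (1/2) 1 := by
    ext δ
    constructor
    · rintro ⟨_, h4, h5⟩
      refine ⟨?_, h4⟩
      by_contra hc
      rw [h2 δ (not_lt.1 hc)] at h5
      exact lt_irrefl _ h5
    · rintro ⟨h3, h4⟩
      exact ⟨by linarith, h4, h1 δ h3 h4⟩
  rw [this]
  exact csInf_Ioc (by norm_num)

end Pool.Agent.V1193.WienerG
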